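import Pool.Agent.Lib.MP_5d3e93_al.Hyp

/-! Rational affine representations. -/

open Module

namespace Pool.Agent.Lib.MP_5d3e93_al

universe w

/-- Rational affine representations. -/
structure AR (Γ : Type w) [Group Γ] (n : ℕ) where
  l : Γ →* End ℚ (Fin n → ℚ)
  c : Γ → Fin n → ℚ
  mul : ∀ a b, c (a * b) = c a + l a (c b)

namespace AR

variable {Γ Γ' : Type w} [Group Γ] [Group Γ'] {n n' : ℕ} (R : AR Γ n)

theorem c_one : R.c 1 = 0 := by simpa using R.mul 1 1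

theorem c_inv (a : Γ) : R.c a⁻¹ = -R.l a⁻¹ (R.c a) := by
  have := R.mul a⁻¹ a
  rw [inv_mul_cancel, c_one] at this
  exact eq_neg_of_add_eq_zero_left this.symm

theorem l_mul (a b : Γ) (v) : R.l (a * b) v = R.l a (R.l b v) := by simp

/-- The action. -/
abbrev act : MulAction Γ (Fin n → ℚ) where
  smul g x := R.l g x + R.c g
  one_smul x := show R.l 1 x + R.c 1 = x by simp [c_one]
  mul_smul a b x := show R.l (a * b) x + R.c (a * b) = R.l a (R.l b x + R.c b) + R.c a by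
    simp [R.mul]; abel

/-- The affine structure. -/
def aa : @AA Γ _ ℚ (Fin n → ℚ) _ _ _ R.act :=
  letI := R.act
  ⟨fun g => R.l g, fun g x y => show R.l g x + R.c g - (R.l g y + R.c g) = _ by simp⟩

/-- Restriction. -/
def comap (f : Γ' →* Γ) : AR Γ' n := ⟨R.l.comp f, fun g => R.c (f g), by simp [R.mul]⟩

/-- Finite holonomy and spanning translations. -/
def Cr (U : Subgroup Γ) : Prop := (R.l '' U).Finite ∧
  Submodule.span ℚ (R.c '' {u | u ∈ U ∧ R.l u = 1}) = ⊤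

/-- Irreducibility. -/
def Irr : Prop := ∀ W : Submodule ℚ (Fin n → ℚ), (∀ g, ∀ v ∈ W, R.l g v ∈ W) → W = ⊥ ∨ W = ⊤

/-- Quotients. -/
structure Qt (R' : AR Γ n') (π : (Fin n → ℚ) →ₗ[ℚ] Fin n' → ℚ) : Prop where
  surj : Function.Surjective π
  l : ∀ g v, π (R.l g v) = R'.l g (π v)
  c : ∀ g, π (R.c g) = R'.c g

variable {R} {R' : AR Γ n'} {π : (Fin n → ℚ) →ₗ[ℚ] Fin n' → ℚ}

theorem Qt.congr (h : R.Qt R' π) {a b : Γ} (e : R.l a = R.l b) : R'.l a = R'.l b :=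
  LinearMap.ext (h.surj.forall.2 fun v => by rw [← h.l, ← h.l, e])

theorem Qt.img (h : R.Qt R' π) : ∃ Ψ : End ℚ _ → End ℚ _, ∀ g, R'.l g = Ψ (R.l g) :=
  ⟨fun T => R'.l (Function.invFun R.l T), fun g => h.congr (Function.invFun_eq ⟨g, rfl⟩).symm⟩

theorem Qt.fin (h : R.Qt R' π) {U : Set Γ} (k : (R.l '' U).Finite) :
    (R'.l '' U).Finite ∧ (R'.l '' U).ncard ≤ (R.l '' U).ncard := by
  obtain ⟨Ψ, e⟩ := h.img
  rw [show R'.l '' U = Ψ '' (R.l '' U) by simp [Set.image_image, e]]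
  exact ⟨k.image _, Set.ncard_image_le k⟩

theorem Cr.quot (h : R.Qt R' π) {U : Subgroup Γ} (k : R.Cr U) : R'.Cr U :=
  ⟨(h.fin k.1).1, top_le_iff.1 (by
    rw [← LinearMap.range_eq_top.2 h.surj, LinearMap.range_eq_map, ← k.2, Submodule.map_span]
    refine Submodule.span_mono ?_
    rintro _ ⟨_, ⟨u, a, rfl⟩, rfl⟩
    exact ⟨u, ⟨a.1, (h.congr (a.2.trans (map_one _).symm)).trans (map_one _)⟩, (h.c u).symm⟩)⟩

theorem Cr.comap {f : Γ' →* Γ} {U : Subgroup Γ'} (k : R.Cr (U.map f)) : (R.comap f).Cr U :=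
  ⟨by simpa [AR.comap, Set.image_image] using k.1, top_le_iff.1 (k.2.ge.trans
    (Submodule.span_mono (by
      rintro _ ⟨_, ⟨⟨u, a, rfl⟩, b⟩, rfl⟩
      exact ⟨u, ⟨a, b⟩, rfl⟩)))⟩

theorem Cr.not (hn : 0 < n) {U : Subgroup Γ} (k : R.Cr U) :
    ¬ ∀ u ∈ U, R.l u = 1 → R.c u = 0 := fun h => by
  have : Nonempty (Fin n) := ⟨⟨0, hn⟩⟩
  refine bot_ne_top (Eq.trans (Submodule.span_eq_bot.2 ?_).symm k.2)
  rintro _ ⟨u, a, rfl⟩
  exact h u a.1 a.2

theorem quot (h : Function.Surjective π) (k : ∀ g v, π v = 0 → π (R.l g v) = 0) :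
    ∃ R' : AR Γ n', R.Qt R' π := by
  obtain ⟨s, hs⟩ := π.exists_rightInverse_of_surjective (LinearMap.range_eq_top.2 h)
  have e (g v) : π (R.l g (s (π v))) = π (R.l g v) := by
    rw [← sub_eq_zero, ← map_sub, ← map_sub]
    exact k _ _ (by rw [map_sub, sub_eq_zero]; exact LinearMap.congr_fun hs _)
  exact ⟨⟨⟨⟨fun g => π ∘ₗ R.l g ∘ₗ s, by rw [map_one]; exact hs⟩, fun a b => LinearMap.ext fun v => by
    simp [e]⟩, fun g => π (R.c g), fun a b => by simp [R.mul, e]⟩, h, fun g v => (e g v).symm,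
    fun _ => rfl⟩

theorem irr (hn : 0 < n) {Λ : Submodule ℤ (Fin n → ℚ)} (h1 : Λ.FG)
    (h2 : Submodule.span ℚ (Λ : Set (Fin n → ℚ)) = ⊤) : ∃ n', 0 < n' ∧ ∃ (R' : AR Γ n') (π : _),
      R.Qt R' π ∧ R'.Irr ∧ ∀ v, v ∈ Zn n' ↔ ∃ w ∈ Λ, π w = v := by
  have : Nonempty (Fin n) := ⟨⟨0, hn⟩⟩
  obtain ⟨W, ⟨a1, a2⟩, a3⟩ := wellFounded_gt.has_min {W : Submodule ℚ (Fin n → ℚ) | W ≠ ⊤ ∧
    ∀ g, ∀ v ∈ W, R.l g v ∈ W} ⟨⊥, bot_ne_top, by simp⟩
  let Λ' := Λ.map (W.mkQ.restrictScalars ℤ)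
  have : Λ'.IsLattice ℚ := ⟨h1.map _, by
    rw [← W.range_mkQ, LinearMap.range_eq_map, ← h2, Submodule.map_span]
    rfl⟩
  let b := finBasis ℤ Λ'
  let e := (b.extendOfIsLattice ℚ).equivFun
  have k (v) : (e.toLinearMap ∘ₗ W.mkQ) v = 0 ↔ v ∈ W := by simp
  have s : Function.Surjective (e.toLinearMap ∘ₗ W.mkQ) := e.surjective.comp W.mkQ_surjective
  obtain ⟨R', q⟩ := R.quot s (by simpa only [k] using a2)
  have e1 (x : Fin (finrank ℤ Λ') → ℤ) : e (b.equivFun.symm x) = fun i => (x i : ℚ) := by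
    rw [← e.eq_symm_apply, Basis.equivFun_symm_apply, Basis.equivFun_symm_apply]
    simp [Int.cast_smul_eq_zsmul]
  refine ⟨_, Nat.pos_of_ne_zero fun c => a1 (top_le_iff.1 fun v _ => (k v).1 ?_), R', _, q,
    fun U hU => or_iff_not_imp_right.2 fun c => ?_, fun v => ⟨fun ⟨x, c⟩ => ?_, ?_⟩⟩
  · exact funext fun i => (c ▸ i).elim0
  · have := a3 (U.comap (e.toLinearMap ∘ₗ W.mkQ)) ⟨fun d => c (top_le_iff.1 fun v _ => by
      obtain ⟨x, rfl⟩ := s v
      exact show x ∈ U.comap _ from d ▸ trivial), fun g v d => by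
        rw [Submodule.mem_comap, q.l]; exact hU g _ d⟩
    refine le_bot_iff.1 fun v d => ?_
    obtain ⟨x, rfl⟩ := s v
    exact (k x).2 (by_contra fun f => this (SetLike.lt_iff_le_and_exists.2
      ⟨fun y g => Submodule.mem_comap.2 ((k y).2 g ▸ zero_mem _), x, d, f⟩))
  · obtain ⟨w, d, f⟩ := (b.equivFun.symm x).2
    exact ⟨w, d, ((congrArg e f).trans (e1 x)).trans c⟩
  · rintro ⟨w, d, rfl⟩
    obtain ⟨x, f⟩ := b.equivFun.symm.surjective ⟨_, w, d, rfl⟩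
    exact ⟨x, (e1 x).symm.trans (congrArg (fun y : Λ' => e y) f)⟩

variable (R) in
theorem norm (hn : 0 < n) {U : Subgroup Γ} (h1 : U.FG) (h2 : (R.l '' U).Finite)
    (h3 : Submodule.span ℚ (R.c '' U) = ⊤) : ∃ n', 0 < n' ∧ ∃ (R' : AR Γ n') (π : _),
      R.Qt R' π ∧ R'.Irr ∧ ∀ u ∈ U, ∀ v ∈ Zn n', R'.l u v + R'.c u ∈ Zn n' := by
  obtain ⟨S, rfl, s⟩ := (Subgroup.fg_iff _).1 h1
  let Λ := Submodule.span ℤ (Set.image2 (fun T s => T (R.c s)) (R.l '' Subgroup.closure S) S)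
  have a (u) (k : u ∈ Subgroup.closure S) (v) (e : v ∈ Λ) : R.l u v ∈ Λ :=
    (Submodule.span_le (p := Λ.comap ((R.l u).restrictScalars ℤ))).2 (by
      rintro _ ⟨_, ⟨x, c, rfl⟩, y, d, rfl⟩
      exact Submodule.subset_span ⟨_, ⟨_, mul_mem k c, rfl⟩, y, d, R.l_mul _ _ _⟩) e
  have b (u) (k : u ∈ Subgroup.closure S) : R.c u ∈ Λ := by
    induction k using Subgroup.closure_induction with
    | mem x c => exact Submodule.subset_span ⟨_, ⟨1, one_mem _, rfl⟩, x, c, by simp⟩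
    | one => simp [c_one]
    | mul x y c _ d e => exact R.mul x y ▸ add_mem d (a x c _ e)
    | inv x c d => exact R.c_inv x ▸ neg_mem (a _ (inv_mem c) _ d)
  obtain ⟨n', c, R', π, d, e, f⟩ := R.irr hn (Λ := Λ) (Submodule.fg_span (h2.image2 _ s))
    (top_le_iff.1 (h3.ge.trans (Submodule.span_mono (Set.forall_mem_image.2 b))))
  refine ⟨n', c, R', π, d, e, fun u k v g => ?_⟩
  obtain ⟨w, g', rfl⟩ := (f v).1 g
  exact (f _).2 ⟨_, add_mem (a u k w g') (b u k), by rw [map_add, d.l, d.c]⟩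

theorem Irr.eps (h : R.Irr) (hn : 2 ≤ n) (ε : Γ → ℚ) :
    ⨆ g, LinearMap.range (R.l g - ε g • LinearMap.id) = ⊤ := by
  by_contra k
  obtain ⟨f, a, b⟩ := Submodule.exists_le_ker_of_lt_top _ (lt_top_iff_ne_top.2 k)
  have := f.finrank_range_add_finrank_ker
  rw [(h (LinearMap.ker f) fun g v c => by
    simpa [LinearMap.mem_ker.1 c] using b (Submodule.mem_iSup_of_mem g ⟨v, rfl⟩)).resolve_right
      (mt LinearMap.ker_eq_top.1 a)] at this
  have := (LinearMap.range f).finrank_le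
  simp at *
  omega

theorem Irr.dich (h : R.Irr) (χ : Ch Γ) {t : Γ} (ht : χ t = 1)
    (hf : (R.l '' {g | χ g = 0}).Finite) :
    (Set.range R.l).Finite ∨ ∀ g, χ g ≠ 0 → ∀ v, R.l g v = v → v = 0 := by
  refine or_iff_not_imp_right.2 fun k => ?_
  push Not at k
  obtain ⟨g, a, v, b, c⟩ := k
  have p {k : ℕ} {x} (e : R.l (g ^ k) x = x) (m : ℕ) : R.l (g ^ (k * m)) x = x := by
    induction m with
    | zero => simp
    | succ m ih => rw [mul_add_one, pow_add, l_mul, e, ih]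
  let W : Submodule ℚ (Fin n → ℚ) :=
    { carrier := {x | ∃ k : ℕ, 0 < k ∧ R.l (g ^ k) x = x}
      add_mem' := fun ⟨k, d, e⟩ ⟨m, d', e'⟩ =>
        ⟨k * m, by positivity, by rw [map_add, p e, mul_comm, p e']⟩
      zero_mem' := ⟨1, one_pos, map_zero _⟩
      smul_mem' := fun r x ⟨k, d, e⟩ => ⟨k, d, by rw [map_smul, e]⟩ }
  have hW := (h W fun u x ⟨k, d, e⟩ => by
    obtain ⟨i, j, f, f'⟩ := Set.Finite.exists_lt_map_eq_of_forall_mem
      (f := fun i : ℕ => R.l (g ^ (k * i) * u * (g ^ (k * i))⁻¹ * u⁻¹))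
      (fun i => Set.mem_image_of_mem _ (by simp)) hf
    obtain ⟨m, rfl⟩ := Nat.exists_eq_add_of_lt f
    have q (i : ℕ) : R.l (g ^ (k * i)) (R.l u x) =
        R.l (g ^ (k * i) * u * (g ^ (k * i))⁻¹ * u⁻¹) (R.l u x) := by
      conv_rhs => rw [← p e i, ← l_mul, ← l_mul]
      rw [show g ^ (k * i) * u * (g ^ (k * i))⁻¹ * u⁻¹ * u * g ^ (k * i) = g ^ (k * i) * u by group,
        l_mul]
    have := congrArg (R.l (g ^ (k * i))⁻¹) ((q _).trans ((LinearMap.congr_fun f' _).symm.trans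
      (q i).symm))
    rw [← l_mul, ← l_mul _ _⁻¹, inv_mul_cancel, map_one, add_assoc, mul_add, pow_add,
      inv_mul_cancel_left] at this
    exact ⟨k * (m + 1), by positivity, this⟩).resolve_left fun e =>
      c ((Submodule.eq_bot_iff _).1 e v ⟨1, one_pos, by simpa⟩)
  choose k k1 k2 using fun i : Fin n => show Pi.single i 1 ∈ W from hW ▸ trivial
  have e : R.l (g ^ ∏ i, k i) = 1 := (Pi.basisFun ℚ (Fin n)).ext fun i => by
    rw [← Finset.mul_prod_erase _ _ (Finset.mem_univ i)]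
    simpa using p (k2 i) _
  have e0 : χ (g ^ ∏ i, k i) ≠ 0 := by simpa [a, Finset.prod_eq_zero_iff] using fun i => (k1 i).ne'
  generalize g ^ ∏ i, k i = y at e e0
  let _ := R.act
  obtain ⟨F, f1, -, f3⟩ := reps (A := R.aa) ht hf |χ y|
  refine (f1.image R.l).subset ?_
  rintro _ ⟨x, rfl⟩
  obtain ⟨z, d1, -, d2⟩ := f3 (x * y ^ (-(χ x / χ y))) (by
    rw [χ.mul, χ.zpow, neg_mul, ← sub_eq_add_neg, mul_comm, ← Int.emod_def,
      abs_of_nonneg (Int.emod_nonneg _ e0)]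
    exact (Int.emod_lt_abs _ e0).le)
  refine ⟨z, d1, d2.trans (show R.l _ = _ from ?_)⟩
  have (m : ℤ) : R.l (y ^ m) = 1 :=
    congrArg Units.val (zpow_mem (show y ∈ R.l.toHomUnits.ker from Units.ext e) m)
  rw [map_mul, this, mul_one]

theorem hN (H : Ht Γ) (hg : Subgroup.closure (insert H.t H.D) = ⊤)
    (h1 : ∀ d ∈ H.D, ∃ e ∈ H.D, R.l e = R.l (H.t⁻¹ * d * H.t))
    (h2 : ∀ d ∈ H.D, ∃ e ∈ H.D, R.l e = R.l (H.t * d * H.t⁻¹)) (g) (k : H.χ g = 0) :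
    ∃ d ∈ H.D, R.l d = R.l g := by
  let K : Subgroup Γ := H.D ⊔ R.l.toHomUnits.ker
  have m (g) : g ∈ K ↔ ∃ d ∈ H.D, R.l d = R.l g := by
    rw [← SetLike.mem_coe, Subgroup.mul_normal]
    refine ⟨?_, fun ⟨d, a, b⟩ => ⟨d, a, d⁻¹ * g, Units.ext ?_, by simp⟩⟩
    · rintro ⟨d, a, b, c, rfl⟩
      exact ⟨d, a, by rw [map_mul, show R.l b = 1 from congrArg Units.val c, mul_one]⟩
    · change R.l _ = 1
      rw [map_mul, ← b, ← map_mul, inv_mul_cancel, map_one]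
  have q {s : Γ} (h : ∀ d ∈ H.D, ∃ e ∈ H.D, R.l e = R.l (s * d * s⁻¹)) (x) (a : x ∈ K) :
      s * x * s⁻¹ ∈ K := by
    obtain ⟨d, b, c⟩ := (m x).1 a
    obtain ⟨e, f, l⟩ := h d b
    exact (m _).2 ⟨e, f, by simp [l, c]⟩
  have q' {d : Γ} (h : d ∈ H.D) (x) (a : x ∈ K) : d * x * d⁻¹ ∈ K :=
    mul_mem (mul_mem (le_sup_left (a := H.D) h) a) (inv_mem (le_sup_left (a := H.D) h))
  have a (g) : ∀ x ∈ K, g * x * g⁻¹ ∈ K := by
    have : g ∈ Subgroup.closure (insert H.t H.D) := hg ▸ trivial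
    induction this using Subgroup.closure_induction'' with
    | mem g e => exact e.elim (· ▸ q h2) q'
    | inv_mem g e => exact e.elim (· ▸ q (by simpa using h1)) fun e => q' (inv_mem e)
    | one => simp
    | mul g k _ _ e f => exact fun x d => by simpa [mul_assoc] using e _ (f x d)
  have b (g) : g * H.t ^ (-H.χ g) ∈ K := by
    have : g ∈ Subgroup.closure (insert H.t H.D) := hg ▸ trivial
    induction this using Subgroup.closure_induction'' with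
    | mem g e =>
      exact e.elim (by rintro rfl; simp [H.ht]) fun e => by
        simpa [H.hD g e] using le_sup_left (a := H.D) e
    | inv_mem g e =>
      exact e.elim (by rintro rfl; simp [H.ht]) fun e => by
        simpa [H.hD g e] using le_sup_left (a := H.D) e
    | one => simp
    | mul g k _ _ e f =>
      convert mul_mem e (a (H.t ^ H.χ g) _ f) using 1
      rw [H.χ.mul]
      group
  simpa [k, m] using b g

theorem line {R : AR Γ 1} (h : ∀ g, ∀ v ∈ Zn 1, R.l g v + R.c g ∈ Zn 1) : ∃ ε c : Γ → ℤ,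
    (∀ g, R.l g = (ε g : ℚ) • 1) ∧ (∀ g, R.c g = fun _ => (c g : ℚ)) ∧ (∀ g, ε g = 1 ∨ ε g = -1) ∧
      (∀ a b, ε (a * b) = ε a * ε b) ∧ ∀ a b, c (a * b) = c a + ε a * c b := by
  have h0 (g) : R.c g ∈ Zn 1 := by simpa using h g 0 (zero_mem _)
  choose c hc using fun g => mem_zn.1 (h0 g) 0
  choose ε he using fun g => mem_zn.1 ((add_mem_cancel_right (h0 g)).1 (h g _ (single_zn 0))) 0
  have e1 (g) : R.l g = (ε g : ℚ) • 1 := (Pi.basisFun ℚ (Fin 1)).ext fun i => funext fun j => by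
    simp [Subsingleton.elim i 0, Subsingleton.elim j 0, he]
  have e2 (a b) : ε (a * b) = ε a * ε b := Int.cast_injective (α := ℚ) (by
    rw [he, map_mul, e1, e1]; simp [mul_comm])
  refine ⟨ε, c, e1, fun g => funext fun j => by rw [hc, Subsingleton.elim j 0], fun g =>
    Int.eq_one_or_neg_one_of_mul_eq_one (v := ε g⁻¹) (Int.cast_injective (α := ℚ) ?_), e2,
    fun a b => Int.cast_injective (α := ℚ) (by rw [hc, R.mul, e1]; simp [hc])⟩
  rw [← e2, he]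
  simp

end AR

end Pool.Agent.Lib.MP_5d3e93_al
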