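import Pool.Agent.Lib.MP_5d3e93_al.Hom

/-! The tree theorem for a fixed coefficient category. -/

open CategoryTheory Limits MulAction
open scoped Pointwise

namespace Pool.Agent.Lib.MP_5d3e93_al

universe w w' v u

variable {G : Type w} [Group G] {C : Type u} [Category.{v} C] [Preadditive C]

theorem cj_eq (D : Subgroup G) (g : G) : cj D g = D ⊓ MulAut.conj g • D := by
  ext k
  simp [mem_cj, Subgroup.mem_pointwise_smul_iff_inv_smul_mem]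

theorem cj_prod (D : Subgroup G) (g : G × Zi) : cj (D.prod ⊤) g = (cj D g.1).prod ⊤ := by
  ext k
  simp [mem_cj, Subgroup.mem_prod]

variable [HasBinaryBiproducts C] {ρ : Act G C}

/-- The graded category of `G × Zi`. -/
noncomputable abbrev SZ (ρ : Act G C) : GC (G × Zi) (TwZ ρ) := twGC (ρ.comap (MonoidHom.fst G Zi))

theorem Cov.gd {D : Subgroup G} {g : G × Zi} (h : Cov ρ D g.1)
    (hF : Fr (D.prod ⊤) (dc (D.prod ⊤) g)) : (SZ ρ).Gd (SZ ρ).nt (dc (D.prod ⊤) g) := by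
  obtain ⟨Γ, _, q, E, t, h1, rfl, h3, h4, h5⟩ := h
  have e : (E.prod ⊤).map (q.prodMap (MonoidHom.id Zi)) = (E.map q).prod ⊤ := by
    ext k
    constructor
    · rintro ⟨a, ha, rfl⟩
      exact ⟨⟨a.1, ha.1, rfl⟩, trivial⟩
    · rintro ⟨⟨a, ha, e⟩, -⟩
      exact ⟨(a, k.2), ⟨ha, trivial⟩, Prod.ext e rfl⟩
  have e' : q.prodMap (MonoidHom.id Zi) (t, g.2) = g := Prod.ext h3 rfl
  refine (gd_cover (ρ := ρ.comap (MonoidHom.fst G Zi)) (j := q.prodMap (MonoidHom.id Zi))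
    (Ω := dc (E.prod ⊤) (t, g.2)) (Fr.injOn (fun a ha b hb k => Prod.ext
      (h1 ha.1 hb.1 (congrArg Prod.fst k)) (Prod.ext_iff.1 k).2) (fun a ha k => ⟨h4 _ ha.1 ?_,
        trivial⟩) (by rwa [e, e'])) h5).mono ?_
  · rw [e] at k
    exact k.1
  · rw [← e]
    rintro _ ⟨_, ⟨a, ha, rfl⟩, _, ⟨b, hb, rfl⟩, rfl⟩
    exact ⟨_, ⟨a, ha, b, hb, rfl⟩, by simp only [map_mul, e']⟩

variable {V : Type*} [MulAction G V] {T : SimpleGraph V}

theorem tree_gd (hT : T.IsTree) (ha : ∀ (g : G) a b, T.Adj a b → T.Adj (g • a) (g • b))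
    (hi : ∀ (g : G) a b, T.Adj a b → g • a = b → g • b ≠ a) (h0 : K0Zero C)
    (hV : ∀ v : V, (SZ ρ).W ((stabilizer G v).prod ⊤) ∧
      ∀ (X : TwZ ρ) (a : X ⟶ X), (SZ ρ).HIso 1 a → (SZ ρ).cmTh.St a)
    (hE : ∀ a b, T.Adj a b → (SZ ρ).W ((stabilizer G a ⊓ stabilizer G b).prod ⊤))
    (hA : ∀ a b, T.Adj a b → Acc ((SZ ρ).NR (SZ ρ).nt
      {g | Half T (g.1 • a) (g.1 • b) ⊂ Half T a b}) ((stabilizer G a ⊓ stabilizer G b).prod ⊤)) :
    K1Zero (TwZ ρ) := by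
  let _ : MulAction (G × Zi) V := MulAction.compHom V (MonoidHom.fst G Zi)
  have e1 : ∀ v : V, stabilizer (G × Zi) v = (stabilizer G v).prod ⊤ := fun v => by
    ext g
    exact ⟨fun h => ⟨h, trivial⟩, fun h => h.1⟩
  have e2 : ∀ σ : V × V, stabilizer (G × Zi) σ =
      (stabilizer G σ.1 ⊓ stabilizer G σ.2).prod ⊤ := fun σ => by
    ext g
    exact ⟨fun h => ⟨Prod.ext_iff.1 h, trivial⟩, fun h => Prod.ext_iff.2 h.1⟩
  have ha' : ∀ (g : G × Zi) a b, T.Adj a b → T.Adj (g • a) (g • b) := fun g => ha g.1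
  obtain ⟨x⟩ := hT.connected.nonempty
  refine GC.k1_of_W' (k0_hiso h0) (hV x).2 (GC.W_tree hT ha' (fun g => hi g.1)
    (fun v => e1 v ▸ (hV v).1) (fun σ h => e2 σ ▸ GC.sfi_of_W (twGC_central ρ)
      (fun z => ⟨one_mem _, trivial⟩) (hE _ _ h)) fun τ k => ?_)
  by_cases h : T.Adj τ.1 τ.2
  · refine GC.nil (P := {g : G × Zi | Half T (g.1 • τ.1) (g.1 • τ.2) ⊂ Half T τ.1 τ.2}) ?_
      (hA _ _ h) _ (e2 τ ▸ fr_pth (R := Stp T) (fun _ _ _ _ _ h1 h2 h3 h4 => Pth.first hT h1 h2 h3 h4)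
        (fun g _ _ h => h.smul ha' g) τ _) fun g hg => hg.ssub hT (ha' g _ _ h)
    intro a h1 b h2
    simp only [Set.mem_ofPred_eq] at h1 h2 ⊢
    refine lt_of_le_of_lt (fun z hz => ?_) h1
    have := half_smul ha a.1 (h2.le (show a.1⁻¹ • z ∈ _ by
      simpa [← mul_smul] using half_smul ha a.1⁻¹ hz))
    rwa [smul_inv_smul] at this
  · intro A x hx _
    rw [hx.eq_zero hx fun g hg _ => h (hg.half hT).1, sub_zero]
    exact GC.Tr.id

theorem st_of_K1 {Γ : Type w'} [Group Γ] {j : Γ →* G} (hj : Function.Injective j)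
    (hK : K1Zero (TwZ (ρ.comap j))) (X : TwZ ρ) (a : X ⟶ X) (ha : (SZ ρ).HIso 1 a) :
    (SZ ρ).cmTh.St a := by
  have := Tw.push_faithful (ρ := ρ.comap (MonoidHom.fst G Zi))
    (j := j.prodMap (MonoidHom.id Zi)) (hj.prodMap Function.injective_id)
  have hK' : K1Zero (Tw ((ρ.comap (MonoidHom.fst G Zi)).comap (j.prodMap (MonoidHom.id Zi)))) := hK
  exact GC.st_of_k1 (Tw.pushF _) (fun A => ⟨⟨A.as⟩, rfl⟩) sup_push push_surj hK'
    (ha.iso (one_mem _))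

theorem tree_main (hT : T.IsTree) (ha : ∀ (g : G) a b, T.Adj a b → T.Adj (g • a) (g • b))
    (hi : ∀ (g : G) a b, T.Adj a b → g • a = b → g • b ≠ a) (h0 : K0Zero C)
    (hV : ∀ v : V, K1Zero (TwZ (ρ.comap (stabilizer G v).subtype)))
    (hE : ∀ a b, T.Adj a b → K1Zero (TwZ (ρ.comap (stabilizer G a ⊓ stabilizer G b).subtype)))
    (hA : ∀ a b, T.Adj a b → Acc (fun D₁ D => ∃ g : G, Half T (g • a) (g • b) ⊂ Half T a b ∧
      ¬ Cov ρ D g ∧ D₁ = D ⊓ MulAut.conj g • D) (stabilizer G a ⊓ stabilizer G b)) :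
    K1Zero (TwZ ρ) :=
  tree_gd hT ha hi h0 (fun v => ⟨W_of_K1 h0 (hV v), st_of_K1 (Subgroup.subtype_injective _) (hV v)⟩)
    (fun a b h => W_of_K1 h0 (hE a b h)) fun a b h =>
      GC.acc_of (fun D' D => D' = D.prod ⊤) (by
        rintro _ D rfl g h1 h2 h3
        exact ⟨_, ⟨g.1, h1, fun k => h3 (k.gd h2), rfl⟩, by rw [cj_prod, cj_eq]⟩) (hA a b h) _ rfl

end Pool.Agent.Lib.MP_5d3e93_al
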