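import Pool.Agent.Lib.MP_5d3e93_al.Bs
import Pool.Agent.Lib.MP_5d3e93_al.TreeMain

/-! Reduction of Nil terms to finitely generated HNN extensions. -/

open CategoryTheory Limits MulAction HNNExtension
open scoped Pointwise

namespace Pool.Agent.Lib.MP_5d3e93_al

universe w w' v u

variable {C : Type u} [Category.{v} C] [Preadditive C] [HasBinaryBiproducts C]

section Push

open Tw

variable {G : Type w} [Group G] {Γ : Type w'} [Group Γ] {ρ : Act G C} {j : Γ →* G}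
variable {X Y X' Y' : Tw (ρ.comap j)}

omit [HasBinaryBiproducts C] in
theorem push_emb (f : X.as ⟶ Y.as) : push j (emb f) = emb (A := up j X) (B := up j Y) f :=
  (push_sg j 1 _).trans (sg_congr (map_one j) ((Category.assoc _ _ _).trans
    (congrArg _ (eqToHom_trans _ _))))

theorem push_blk (a : X ⟶ X') (b : X ⟶ Y') (c : Y ⟶ X') (d : Y ⟶ Y') :
    push j ((twGC _).blk a b c d) =
      (twGC ρ).blk (push j a) (push j b) (push j c) (push j d) := by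
  have e1 : push j ((twGC _).fst X Y) = (twGC ρ).fst (up j X) (up j Y) := push_emb _
  have e2 : push j ((twGC _).snd X Y) = (twGC ρ).snd (up j X) (up j Y) := push_emb _
  have e3 : push j ((twGC _).inl X' Y') = (twGC ρ).inl (up j X') (up j Y') := push_emb _
  have e4 : push j ((twGC _).inr X' Y') = (twGC ρ).inr (up j X') (up j Y') := push_emb _
  simp only [GC.blk, map_add, push_comp, e1, e2, e3, e4]
  rfl

theorem sup_push' {T : Set Γ} {f : X ⟶ Y} (h : (twGC _).Sup T f) :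
    (twGC ρ).Sup (j '' T) (push j f) :=
  h.induction (P := fun f => (twGC ρ).Sup (j '' T) (push j f)) (by simpa using GC.Sup.zero)
    (fun a b ha hb => by simpa only [map_add] using ha.add hb) fun g k => by
      change (twGC ρ).Sup _ (push j (sg g (co g f)))
      rw [push_sg]
      exact .of_cp (cpt_sg _ _) ⟨g, k, rfl⟩

theorem hiso_push {g : Γ} {f : X ⟶ Y} (h : (twGC _).HIso g f) : (twGC ρ).HIso (j g) (push j f) := by
  obtain ⟨a, f', b, c, d⟩ := h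
  exact ⟨by simpa using sup_push' a, push j f', by simpa using sup_push' b,
    by rw [← push_comp, c, push_id], by rw [← push_comp, d, push_id]⟩

theorem tr_push {f : X ⟶ Y} (h : (twGC _).Tr ⊤ f) : (twGC ρ).Tr ⊤ (push j f) := by
  have k {X Y : Tw (ρ.comap j)} {f : X ⟶ Y} (h : (twGC _).Tr0 ⊤ f) :
      (twGC ρ).Tr0 ⊤ (push j f) := by
    induction h with
    | one h => exact .one (map_one j ▸ hiso_push h)
    | hom D _ h => rw [push_blk, map_zero, map_zero, push_id]; exact .hom _ trivial (hiso_push h)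
    | upper _ => rw [push_blk, map_zero, push_id, push_id]; exact .upper (GC.sup_top _ _)
    | comp _ _ a b => rw [push_comp]; exact a.comp b
  obtain ⟨D, h⟩ := h
  have := k h
  rw [push_blk, map_zero, map_zero, push_id] at this
  exact ⟨_, this⟩

end Push

variable {Γ : Type w} [Group Γ] {σ : Act Γ C}

theorem ok [HasZeroObject C] (h0 : K0Zero C) : (SZ σ).Ok := by
  obtain ⟨Z, hZ⟩ := HasZeroObject.zero (C := C)
  exact ⟨⟨⟨Z⟩, by rw [← Tw.emb_id, hZ.eq_of_src (𝟙 _) 0, Tw.emb_zero]⟩, twGC_central σ, k0_hiso h0⟩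

theorem gd_of_K1 (h0 : K0Zero C) (h : K1Zero (TwZ σ)) (Ω : Set (Γ × Zi)) :
    (SZ σ).Gd (SZ σ).nt Ω :=
  (W_of_inj (j := .id Γ) h0 Function.injective_id h).gd.mono fun g _ => ⟨⟨g.1, rfl⟩, trivial⟩

theorem K1_loc (h0 : K0Zero C)
    (h : ∀ H : Subgroup Γ, H.FG → K1Zero (TwZ (σ.comap H.subtype))) : K1Zero (TwZ σ) := by
  refine K1_of_W' h0 (Subgroup.subtype_injective ⊥) (h ⊥ ⟨∅, by simp⟩) ?_
  rintro A B f ⟨-, f', -, e⟩
  obtain ⟨T, a1, -, a2⟩ := ((SZ σ).sup_top f).finite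
  obtain ⟨T', a3, -, a4⟩ := ((SZ σ).sup_top f').finite
  exact (W_of_K1 h0 (h _ ((Subgroup.fg_iff _).2 ⟨_, rfl, (a1.union a3).image Prod.fst⟩)) A B f
    ⟨a2.mono fun g k => ⟨Subgroup.subset_closure ⟨g, .inl k, rfl⟩, trivial⟩, f',
      a4.mono fun g k => ⟨Subgroup.subset_closure ⟨g, .inr k, rfl⟩, trivial⟩, e⟩).mono le_top

theorem pow_fst {Ω : Set Γ} {n : ℕ} {k : Γ × Zi} :
    k ∈ ({k | k.1 ∈ Ω} : Set (Γ × Zi)) ^ n → k.1 ∈ Ω ^ n := by
  induction n generalizing k with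
  | zero => rintro rfl; exact Set.mem_one.2 rfl
  | succ n ih =>
    rw [pow_succ, pow_succ]
    rintro ⟨a, b, c, d, rfl⟩
    exact ⟨_, ih b, _, d, rfl⟩

theorem mem_pow_map {Γ' : Type*} [Group Γ'] (f : Γ →* Γ') {Ω : Set Γ} {Ω' : Set Γ'}
    (h : ∀ a ∈ Ω, f a ∈ Ω') {n : ℕ} : ∀ a ∈ Ω ^ n, f a ∈ Ω' ^ n := by
  induction n with
  | zero => simp
  | succ n ih =>
    rw [pow_succ, pow_succ]
    rintro _ ⟨a, b, c, d, rfl⟩
    exact ⟨_, ih a b, _, h c d, (map_mul f a c).symm⟩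

theorem dc_prod (D : Subgroup Γ) (g : Γ × Zi) : dc (D.prod ⊤) g = {k | k.1 ∈ dc D g.1} :=
  Set.ext fun k => ⟨fun ⟨a, b, c, d, e⟩ => ⟨a.1, b.1, c.1, d.1, congrArg Prod.fst e⟩,
    fun ⟨a, b, c, d, e⟩ => ⟨(a, k.2 * g.2⁻¹), ⟨b, trivial⟩, (c, 1), ⟨d, trivial⟩,
      Prod.ext e (by simp)⟩⟩

theorem Fr.fst {D : Subgroup Γ} {Ω : Set Γ}
    (h : Fr (D.prod (⊤ : Subgroup Zi)) {k | k.1 ∈ Ω}) : Fr D Ω :=
  ⟨fun d a b c => h.left (d, 1) ⟨a, trivial⟩ (b, 1) c,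
    fun d a b c => h.right (d, 1) ⟨a, trivial⟩ (b, 1) c, fun n a b a' b' w c w' c' e =>
      (h.free n (a, 1) b (a', 1) b' _ (mem_pow_map (.inl Γ Zi) (fun _ => id) w c) _
        (mem_pow_map (.inl Γ Zi) (fun _ => id) w' c') (Prod.ext e rfl)).1⟩

theorem TR' (h0 : K0Zero C) {V : Type*} [MulAction Γ V] {T : SimpleGraph V} (hT : T.IsTree)
    (ha : ∀ (g : Γ) a b, T.Adj a b → T.Adj (g • a) (g • b))
    (hi : ∀ (g : Γ) a b, T.Adj a b → g • a = b → g • b ≠ a)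
    (h1 : ∀ v : V, ∀ D ≤ stabilizer Γ v, K1Zero (TwZ (σ.comap D.subtype))) (μ : Subgroup Γ → ℕ)
    (h2 : ∀ v : V, ∀ D ≤ stabilizer Γ v, ∀ g, Fr D (dc D g) →
      (SZ σ).Gd (SZ σ).nt {k | k.1 ∈ dc D g} ∨ μ (cj D g) < μ D) : K1Zero (TwZ σ) :=
  tree_gd hT ha hi h0 (fun v => ⟨W_of_K1 h0 (h1 v _ le_rfl),
    st_of_K1 (Subgroup.subtype_injective _) (h1 v _ le_rfl)⟩)
    (fun a _ _ => W_of_K1 h0 (h1 a _ inf_le_left)) fun a b _ =>
      GC.acc_of (r := (· < ·)) (fun D' i => ∃ D ≤ stabilizer Γ a, D' = D.prod ⊤ ∧ μ D = i) (by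
        rintro _ _ ⟨D, c, rfl, rfl⟩ g - d e
        rw [dc_prod] at d e
        exact ⟨_, (h2 a D c _ d.fst).resolve_left e, _, inf_le_left.trans c, cj_prod D g, rfl⟩)
        (wellFounded_lt.apply _) _ ⟨_, inf_le_left, rfl, rfl⟩

theorem TR (h0 : K0Zero C) {Φ : Subgroup Γ → Prop} (h : OT Γ Φ)
    (h1 : ∀ D, (∀ k : Γ, ∀ U ≤ MulAut.conj k • D, Φ U) → K1Zero (TwZ (σ.comap D.subtype)))
    (μ : Subgroup Γ → ℕ) (h2 : ∀ D, (∀ k : Γ, ∀ U ≤ MulAut.conj k • D, Φ U) → ∀ g, Fr D (dc D g) →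
      (SZ σ).Gd (SZ σ).nt {k | k.1 ∈ dc D g} ∨ μ (cj D g) < μ D) : K1Zero (TwZ σ) := by
  obtain ⟨V, _, T, a, b, c, d⟩ := h
  have (v : V) (D) (e : D ≤ stabilizer Γ v) (k : Γ) (U) (f : U ≤ MulAut.conj k • D) : Φ U :=
    d (k • v) U fun u l => by
      have := e ((Subgroup.mem_pointwise_smul_iff_inv_smul_mem).1 (f l))
      simpa [mul_smul, inv_smul_eq_iff] using this
  exact TR' h0 a b c (fun v D e => h1 D (this v D e)) μ fun v D e => h2 D (this v D e)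

/-- The elements conjugated into the subgroup. -/
def pA (D : Subgroup Γ) (g : Γ) : Subgroup D :=
  D.comap ((MulAut.conj g).toMonoidHom.comp D.subtype)

theorem mem_pA {D : Subgroup Γ} {g : Γ} {d : D} : d ∈ pA D g ↔ g * d * g⁻¹ ∈ D := .rfl

/-- Conjugation. -/
def pE (D : Subgroup Γ) (g : Γ) : pA D g ≃* pA D g⁻¹ where
  toFun a := ⟨⟨g * a * g⁻¹, a.2⟩, by simp [mem_pA, mul_assoc]⟩
  invFun a := ⟨⟨g⁻¹ * a * g⁻¹⁻¹, a.2⟩, by simp [mem_pA, mul_assoc]⟩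
  left_inv a := by ext; simp [mul_assoc]
  right_inv a := by ext; simp [mul_assoc]
  map_mul' a b := by ext; simp [mul_assoc]

/-- The HNN extension of a pair. -/
abbrev Hn (D : Subgroup Γ) (g : Γ) : Type w := HNNExtension D _ _ (pE D g)

/-- The map back to the group. -/
def jj (D : Subgroup Γ) (g : Γ) : Hn D g →* Γ := lift D.subtype g (by simp [pE])

@[simp] theorem jj_of (D : Subgroup Γ) (g : Γ) (d : D) : jj D g (of d) = d := lift_of _ _ _ _

@[simp] theorem jj_t (D : Subgroup Γ) (g : Γ) : jj D g t = g := lift_t _ _ _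

theorem conj_t {D : Subgroup Γ} {g : Γ} {d : D} (h : g⁻¹ * d * g ∈ D) :
    (t⁻¹ * of d * t : Hn D g) = of ⟨_, h⟩ :=
  (equiv_symm_eq_conj (φ := pE D g) ⟨d, by simpa [mem_pA]⟩).symm.trans
    (congrArg of (Subtype.ext (by simp [pE])))

theorem Hn.ot (D : Subgroup Γ) (g : Γ) : OT (Hn D g) fun U => Set.InjOn (jj D g) U ∧
    (∀ u ∈ U, Bs.χ _ u = 0) ∧ ∃ k : Γ, U.map (jj D g) ≤ MulAut.conj k • D :=
  (Bs.ot _).mono fun U ⟨k, h⟩ => ⟨fun a b c d e => by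
    obtain ⟨x, l⟩ := h _ (mul_mem (inv_mem b) d)
    have := congrArg (jj D g) l
    rw [show x = 1 from Subtype.ext (by simpa [e] using this)] at l
    simpa [eq_inv_mul_iff_mul_eq, mul_assoc] using l, fun u a => by
      obtain ⟨x, l⟩ := h u a
      simpa using (congrArg (Bs.χ _) l).symm, jj D g k, by
    rintro _ ⟨u, a, rfl⟩
    obtain ⟨x, l⟩ := h u a
    rw [Subgroup.mem_pointwise_smul_iff_inv_smul_mem]
    simp [← show _ = _ from by simpa using congrArg (jj D g) l]⟩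

theorem gd_fg {D : Subgroup Γ} {g : Γ} (hF : Fr D (dc D g)) {F : Set Γ} (f0 : F.Finite)
    (f1 : F ⊆ D) (h : ∀ D' ≤ D, D'.FG → F ⊆ D' → (SZ (σ.comap (jj D' g))).Gd
      (SZ (σ.comap (jj D' g))).nt {k | k.1 ∈ dc (Bs.E _) t}) :
    (SZ σ).Gd (SZ σ).nt {k | k.1 ∈ dc D g} := by
  rintro A x hx ⟨m, hm⟩
  obtain ⟨T, t0, t1, t2⟩ := hx.finite
  choose! a a1 b b1 e1 using fun τ (k : τ ∈ dc D g) => k
  have t3 : ∀ τ ∈ Prod.fst '' T, τ ∈ dc D g := Set.forall_mem_image.2 t1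
  have t4 := t0.image Prod.fst
  generalize hT : Prod.fst '' T = T' at t3 t4
  let F' := F ∪ (a '' T' ∪ b '' T' ∪ D ∩ ⋃ k ≤ m, (T' ^ k)⁻¹ * T' ^ k)
  let D' := Subgroup.closure F'
  let Ω : Set (Hn D' g) := {γ | ∃ τ ∈ T', ∃ a' b' : D', a' = a τ ∧ b' = b τ ∧ γ = of a' * t * of b'}
  have o1 (γ) (k : γ ∈ Ω) : jj D' g γ ∈ T' := by
    obtain ⟨τ, c, a', b', d, e, rfl⟩ := k
    simpa [d, e, ← e1 τ (t3 τ c)]
  have o2 (k) (c : k ≤ m) : ∀ w ∈ Ω ^ k, ∀ w' ∈ Ω ^ k, jj D' g (w⁻¹ * w') ∈ D →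
      w⁻¹ * w' ∈ Bs.E _ := by
    induction k with
    | zero => simp
    | succ k ih =>
      intro w d w' d' e
      have f : jj D' g (w⁻¹ * w') ∈ D' := Subgroup.subset_closure (.inr (.inr ⟨e, Set.mem_biUnion c
        ⟨_, Set.inv_mem_inv.2 (mem_pow_map _ o1 w d), _, mem_pow_map _ o1 w' d', by simp⟩⟩))
      rw [pow_succ] at d d'
      obtain ⟨u, d1, α, d2, rfl⟩ := d
      obtain ⟨u', d3, α', d4, rfl⟩ := d'
      have o3 (γ) (k : γ ∈ Ω) := t3 _ (o1 γ k)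
      obtain ⟨y, l⟩ := ih (by omega) u d1 u' d3 (by
        simpa using hF.pref k 1 _ (mem_pow_map _ o3 u d1) _ (mem_pow_map _ o3 u' d3) _
          (by simpa using hF.right _ e _ (o3 α d2)) _ (by simpa using o3 α' d4) 1 (one_mem _)
          (by simp [mul_assoc]))
      obtain ⟨τ, -, a', b', -, -, rfl⟩ := d2
      obtain ⟨τ', -, a'', b'', -, -, rfl⟩ := d4
      have e2 : (u * (of a' * t * of b'))⁻¹ * (u' * (of a'' * t * of b'')) =
          of b'⁻¹ * (t⁻¹ * of (a'⁻¹ * y * a'') * t) * of b'' := by simp [l, mul_assoc]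
      beta_reduce at f ⊢
      rw [e2] at f ⊢
      rw [conj_t (by simpa [mul_assoc] using mul_mem (mul_mem b'.2 f) (inv_mem b''.2)), ← map_mul,
        ← map_mul]
      exact ⟨_, rfl⟩
  obtain ⟨y, h1, h2⟩ := push_lift (ρ := σ.comap (.fst Γ Zi)) (j := (jj D' g).prodMap (.id Zi))
    (Ω := {k | k.1 ∈ Ω}) (X := ⟨A.as⟩) (Y := ⟨A.as⟩) x (t2.mono fun τ k => by
      have c : τ.1 ∈ T' := hT ▸ ⟨τ, k, rfl⟩
      exact ⟨(of ⟨a τ.1, Subgroup.subset_closure (.inr (.inl (.inl ⟨_, c, rfl⟩)))⟩ * t *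
        of ⟨b τ.1, Subgroup.subset_closure (.inr (.inl (.inr ⟨_, c, rfl⟩)))⟩, τ.2),
        ⟨_, c, _, _, rfl, rfl, rfl⟩, Prod.ext (by simpa using (e1 _ (t3 _ c)).symm) rfl⟩)
  have := tr_push (ρ := σ.comap (.fst Γ Zi)) (j := (jj D' g).prodMap (.id Zi))
    (h D' ((Subgroup.closure_le _).2 (Set.union_subset f1 (Set.union_subset (Set.union_subset
      (Set.forall_mem_image.2 fun τ k => a1 τ (t3 τ k)) (Set.forall_mem_image.2 fun τ k =>
        b1 τ (t3 τ k))) Set.inter_subset_left))) ((Subgroup.fg_iff _).2 ⟨_, rfl, f0.union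
      (((t4.image _).union (t4.image _)).union (((Set.finite_le_nat m).biUnion fun k _ =>
        (fin_pow t4 k).inv.mul (fin_pow t4 k)).inter_of_right _))⟩)
    (fun _ k => Subgroup.subset_closure (.inl k)) _ y (h1.mono (by
      rintro _ ⟨τ, -, a', b', -, -, e⟩
      exact ⟨_, ⟨a', rfl⟩, _, ⟨b', rfl⟩, e⟩)) ⟨m, push_zero (fun w c w' c' e => by
        have e' : jj D' g w.1 = jj D' g w'.1 := congrArg Prod.fst e
        obtain ⟨z, l⟩ := o2 m le_rfl _ (pow_fst c) _ (pow_fst c') (by simp [e'])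
        have := congrArg (jj D' g) l
        rw [show z = 1 from Subtype.ext (by simpa [e'] using this)] at l
        exact Prod.ext (by simpa [eq_inv_mul_iff_mul_eq] using l) (Prod.ext_iff.1 e).2)
      (h1.pw_pow m) ((map_pw _ _ _).trans ((congrArg (pw · m) h2).trans hm))⟩)
  exact ((map_sub _ _ _).trans (congrArg₂ (· - ·) (Tw.push_id _ _) h2)) ▸ this

end Pool.Agent.Lib.MP_5d3e93_al
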