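import Pool.Agent.Lib.MP_5d3e93_al.Tor

/-! The Farrell-Hsiang method for Nil terms of actions on a line. -/

open CategoryTheory MulAction
open scoped Pointwise

namespace Pool.Agent.Lib.MP_5d3e93_al

universe w v u

namespace Lat

open Classical

variable {Q : Type w} [Group Q] {V : Type*} [AddCommGroup V] {τ : Lat Q → V}
variable {X : Type} [Fintype X] [MulAction Q X] {P : X → Prop} {L : Lat Q} (a : Gr X P L)
variable (π : X → Prop) (h : ∀ (q : Q) x, π (q • x) ↔ π x)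

/-- The part over an invariant subset. -/
abbrev Gr.part : Lat Q := L.sub (⨅ (x) (_ : ¬ π x), LinearMap.ker (a.ε x)) fun q m k => by
  simp only [Submodule.mem_comap, Submodule.mem_iInf, LinearMap.mem_ker] at k ⊢
  intro x b
  rw [← smul_inv_smul q x, ← a.eqv, k _ (mt (h _ _).1 b), map_zero]

theorem Gr.mem {m : L.M} : m ∈ (⨅ (x) (_ : ¬ π x), LinearMap.ker (a.ε x)) ↔
    ∀ x, ¬ π x → a.ε x m = 0 := by simp

/-- The grading of the part. -/
noncomputable def Gr.gpart : Gr X (fun x => P x ∧ π x) (a.part π h) where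
  ε x := (a.ε x).restrict fun m k => (a.mem π).2 fun y b => by
    by_cases e : y = x
    · rw [e, a.idem, (a.mem π).1 k x (e ▸ b)]
    · exact a.orth y x m e
  on x m k := Subtype.ext (by
    by_cases b : P x
    exacts [(a.mem π).1 m.2 x fun c => k ⟨b, c⟩, a.on x _ b])
  idem x m := Subtype.ext (a.idem x m)
  orth x y m k := Subtype.ext (a.orth x y m k)
  total m := Subtype.ext ((Submodule.coe_sum _ _ _).trans (a.total m))
  eqv q x m := Subtype.ext (a.eqv q x m)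

include a h in
theorem Gr.split (hτ : Ses τ) (h1 : ∀ L, Gr X (fun x => P x ∧ π x) L → τ L = 0)
    (h2 : ∀ L, Gr X (fun x => P x ∧ ¬ π x) L → τ L = 0) : τ L = 0 := by
  have k (m) (x) : a.ε x (∑ y, if π y then 0 else a.ε y m) = if π x then 0 else a.ε x m := by
    rw [map_sum, Finset.sum_eq_single x, apply_ite (a.ε x), map_zero, a.idem]
    · exact fun y _ e => by rw [apply_ite (a.ε x), map_zero, a.orth x y m e.symm, ite_self]
    · simp
  have k' (m m') (e : ∀ x, a.ε x m = a.ε x m') : m = m' := by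
    rw [← a.total m, ← a.total m']; simp [e]
  let β : L.M →ₗ[ℤ] (a.part (¬ π ·) fun q x => (h q x).not).M :=
    (∑ y, if π y then 0 else a.ε y).codRestrict _ fun m => (a.mem _).2 fun x b => by
      simp [apply_ite (fun f : L.M →ₗ[ℤ] L.M => f m), k, not_not.1 b]
  have e (m) (x) : a.ε x (β m).1 = if π x then 0 else a.ε x m := by
    simp [β, apply_ite (fun f : L.M →ₗ[ℤ] L.M => f m), k]
  rw [hτ (a.part π h) L _ (Submodule.subtype _) β (fun _ _ => rfl) (fun q m => Subtype.ext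
    (k' _ _ fun x => ?_)) (Submodule.injective_subtype _) (fun m => ⟨m.1, Subtype.ext
    (k' _ _ fun x => ?_)⟩) fun m => ⟨fun b => ⟨⟨m, (a.mem π).2 fun x c => ?_⟩, rfl⟩, ?_⟩,
    h1 _ (a.gpart π h), h2 _ (a.gpart _ _), add_zero]
  · change _ = a.ε x (L.T q (β m).1)
    rw [e, ← smul_inv_smul q x, ← a.eqv, ← a.eqv, e, h, apply_ite (L.T q), map_zero]
  · rw [e]
    split_ifs with b
    exacts [((a.mem _).1 m.2 x (not_not.2 b)).symm, rfl]
  · simpa [b, c] using (e m x).symm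
  · rintro ⟨m, rfl⟩
    refine Subtype.ext (k' _ _ fun x => ?_)
    rw [e]
    split_ifs with b
    exacts [(map_zero _).symm, ((a.mem _).1 m.2 x b).trans (map_zero _).symm]

end Lat

/-- Isometric actions on the integers together with a height. -/
structure Ln (Γ : Type w) [Group Γ] where
  ε : Γ → ℤ
  c : Γ → ℤ
  χ : Ch Γ
  sq : ∀ g, ε g = 1 ∨ ε g = -1
  ε_mul : ∀ a b, ε (a * b) = ε a * ε b
  c_mul : ∀ a b, c (a * b) = c a + ε a * c b

namespace Ln

variable {Γ : Type w} [Group Γ] (a : Ln Γ)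

theorem ε_one : a.ε 1 = 1 := by
  have := a.ε_mul 1 1
  rw [mul_one] at this
  rcases a.sq 1 with h | h <;> simp_all

theorem c_one : a.c 1 = 0 := by simpa [ε_one] using a.c_mul 1 1

theorem ε_inv (g : Γ) : a.ε g⁻¹ = a.ε g := by
  have := a.ε_mul g g⁻¹
  rw [mul_inv_cancel, ε_one] at this
  rcases a.sq g with h | h <;> rw [h] at this ⊢ <;> omega

theorem ε_sq (g : Γ) : a.ε g * a.ε g = 1 := by rcases a.sq g with h | h <;> simp [h]

/-- The plane modulo `p`. -/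
def E (_ : Ln Γ) (p : ℕ) : Type := ZMod p × ZMod p

variable (p : ℕ) [Fact p.Prime]

instance : AddCommGroup (a.E p) := inferInstanceAs (AddCommGroup (ZMod p × ZMod p))

instance : Module (ZMod p) (a.E p) := inferInstanceAs (Module (ZMod p) (ZMod p × ZMod p))

instance : Fintype (a.E p) := inferInstanceAs (Fintype (ZMod p × ZMod p))

instance : MulAction Γ (a.E p) where
  smul g x := (a.ε g * x.1 + a.c g, x.2 + a.χ g)
  one_smul x := Prod.ext (show (a.ε 1 : ZMod p) * x.1 + a.c 1 = _ by simp [ε_one, c_one])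
    (show x.2 + (a.χ 1 : ZMod p) = _ by simp)
  mul_smul g k x := Prod.ext (show (a.ε (g * k) : ZMod p) * x.1 + a.c (g * k) =
    a.ε g * (a.ε k * x.1 + a.c k) + a.c g by rw [ε_mul, c_mul]; push_cast; ring)
    (show x.2 + (a.χ (g * k) : ZMod p) = x.2 + a.χ k + a.χ g by simp; ring)

/-- The affine structure. -/
def B : AA Γ (ZMod p) (a.E p) where
  l g := ((a.ε g : ZMod p) • LinearMap.id).prodMap LinearMap.id
  h g x y := Prod.ext (show (a.ε g : ZMod p) * x.1 + a.c g - (a.ε g * y.1 + a.c g) =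
    a.ε g * (x.1 - y.1) by ring) (add_sub_add_right_eq_sub _ _ _)

/-- Lines in the rational plane as graphs. -/
def I (_ : Ln Γ) : Type := ℤ → ℚ

instance : MulAction Γ a.I where
  smul g f y := a.ε g * f (y - a.χ g) + a.c g
  one_smul f := funext fun y => show (a.ε 1 : ℚ) * f (y - a.χ 1) + a.c 1 = _ by simp [ε_one, c_one]
  mul_smul g k f := funext fun y => show (a.ε (g * k) : ℚ) * f (y - a.χ (g * k)) + a.c (g * k) =
    a.ε g * (a.ε k * f (y - a.χ g - a.χ k) + a.c k) + a.c g by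
      rw [ε_mul, c_mul, a.χ.mul, sub_sub]; push_cast; ring

variable {a p}

/-- First coefficient. -/
def u (l : (a.B p).Du) : ZMod p := l (1, 0)

/-- Second coefficient. -/
def v (l : (a.B p).Du) : ZMod p := l (0, 1)

theorem app (l : (a.B p).Du) (x y : ZMod p) : l (x, y) = x * u l + y * v l := by
  have : l (x, y) = l (x • (show a.E p from (1, 0)) + y • (show a.E p from (0, 1))) :=
    congrArg l (Prod.ext (by change x = x * 1 + y * 0; ring) (by change y = x * 0 + y * 1; ring))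
  rw [this, map_add, map_smul, map_smul]
  rfl

theorem u_smul (g : Γ) (l : (a.B p).Du) : u (g • l) = a.ε g * u l := by
  have : u (g • l) = l (a.ε g⁻¹ * 1, 0) := rfl
  rw [this, app, ε_inv]
  ring

theorem v_smul (g : Γ) (l : (a.B p).Du) : v (g • l) = v l := by
  have : v (g • l) = l (a.ε g⁻¹ * 0, 1) := rfl
  rw [this, app]
  ring

variable (a p) in
/-- Coordinates of forms. -/
def eqv : (a.B p).Du ≃ ZMod p × ZMod p where
  toFun l := (u l, v l)
  invFun x := x.1 • LinearMap.fst (ZMod p) (ZMod p) (ZMod p) +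
    x.2 • LinearMap.snd (ZMod p) (ZMod p) (ZMod p)
  left_inv l := DFunLike.ext _ _ fun x => (show u l * x.1 + v l * x.2 = _ by ring).trans
    (app l x.1 x.2).symm
  right_inv x := Prod.ext (show x.1 * 1 + x.2 * 0 = _ by ring) (show x.1 * 0 + x.2 * 1 = _ by ring)

theorem ext {l l' : (a.B p).Du} (h : u l = u l') (h' : v l = v l') : l = l' :=
  (a.eqv p).injective (Prod.ext h h')

theorem fix_of {l : (a.B p).Du} (h : (∀ g, a.ε g = 1) ∨ u l = 0 ∨ v l = 0) : (a.B p).Fix l :=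
  fun g => by
    by_cases k : a.ε g = 1 ∨ u l = 0
    · exact .inl (ext (by rcases k with k | k <;> simp [u_smul, k]) (v_smul _ _))
    · rw [not_or] at k
      refine .inr (ext (by rw [u_smul, (a.sq g).resolve_left k.1]; exact (by push_cast; ring :
        ((-1 : ℤ) : ZMod p) * u l = -u l)) ?_)
      rw [v_smul, show v (-l) = -v l from rfl, (h.resolve_left fun e => k.1 (e g)).resolve_left k.2,
        neg_zero]

theorem of_fix (hp : (2 : ZMod p) ≠ 0) {l : (a.B p).Du} {g : Γ} (h : g • l = l ∨ g • l = -l)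
    (k : a.ε g = -1) : u l = 0 ∨ v l = 0 := h.imp (fun e => by
      have := congrArg u e
      rw [u_smul, k] at this
      exact (mul_eq_zero.1 (by push_cast at this; linear_combination -this)).resolve_left hp)
    fun e => by
      have : v (g • l) = -v l := congrArg v e
      rw [v_smul] at this
      exact (mul_eq_zero.1 (by linear_combination this)).resolve_left hp

theorem count {c : ℕ} (hc : 2 * c + 1 = p) (hp : (2 : ZMod p) ≠ 0) : ∃ f j : ℕ,
    2 * f = Nat.card {l : (a.B p).Du // l ≠ 0 ∧ (a.B p).Fix l} ∧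
      ((c : ℤ) - f) ^ 2 = c ^ 2 * p ^ j := by
  have e0 (l : (a.B p).Du) : l ≠ 0 ↔ a.eqv p l ≠ 0 := (a.eqv p).injective.ne_iff' (x := l) (y := 0) rfl |>.symm
  have c0 : Nat.card {x : ZMod p // x ≠ 0} = 2 * c := by
    rw [Nat.card_eq_fintype_card, Fintype.card_subtype_compl, Fintype.card_subtype_eq, ZMod.card]
    omega
  by_cases h : ∀ g, a.ε g = 1
  · refine ⟨2 * c * (c + 1), 2, ?_, by rw [← hc]; push_cast; ring⟩
    rw [Nat.card_congr ((a.eqv p).subtypeEquiv (q := (· ≠ 0)) fun l => by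
      simp [e0, fix_of (.inl h)]), Nat.card_eq_fintype_card, Fintype.card_subtype_compl,
      Fintype.card_subtype_eq, Fintype.card_prod, ZMod.card, ← hc]
    symm
    rw [Nat.sub_eq_iff_eq_add (by nlinarith)]
    ring
  · obtain ⟨g, hg⟩ := not_forall.1 h
    refine ⟨2 * c, 0, ?_, by push_cast; ring⟩
    rw [Nat.card_congr ((a.eqv p).subtypeEquiv (q := fun x => x ≠ 0 ∧ (x.1 = 0 ∨ x.2 = 0)) fun l =>
      and_congr (e0 l) ⟨fun f => of_fix hp (f g) ((a.sq g).resolve_left hg),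
        fun f => fix_of (.inr f)⟩), ← Nat.card_congr (α := {x : ZMod p // x ≠ 0} ⊕
        {x : ZMod p // x ≠ 0}) (.ofBijective (Sum.elim
          (fun x => ⟨(x.1, 0), by simp [x.2]⟩) fun x => ⟨(0, x.1), by simp [x.2]⟩) ⟨?_, ?_⟩),
      Nat.card_sum, c0]
    · ring
    · rintro (⟨x, _⟩ | ⟨x, _⟩) (⟨y, _⟩ | ⟨y, _⟩) <;> simp_all
    · rintro ⟨⟨x, y⟩, h1, h2⟩
      rcases id h2 with e | e <;> obtain rfl : _ = 0 := e
      exacts [⟨.inr ⟨y, by simpa using h1⟩, rfl⟩, ⟨.inl ⟨x, by simpa using h1⟩, rfl⟩]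

/-- Short vectors in the kernel. -/
def Sh (l : (a.B p).Du) (x y : ℤ) : Prop := 0 < y ∧ |x| ≤ p.sqrt ∧ x * u l + y * v l = 0

/-- The shortest vector. -/
def Mn (l : (a.B p).Du) (x y : ℤ) : Prop := Sh l x y ∧ ∀ x' y', Sh l x' y' → y ≤ y'

theorem small (hp : 5 < p) {x : ℤ} (h : |x| ≤ 2 * p.sqrt) (k : (x : ZMod p) = 0) : x = 0 := by
  refine Int.eq_zero_of_dvd_of_natAbs_lt_natAbs ((ZMod.intCast_zmod_eq_zero_iff_dvd _ _).1 k) ?_
  have := Nat.sqrt_le p
  have : 2 * p.sqrt < p := by nlinarith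
  have := Int.natCast_natAbs x
  omega

theorem Mn.uniq (hp : 5 < p) {l : (a.B p).Du} (h0 : u l ≠ 0) {x y x' y' : ℤ} (h : Mn l x y)
    (h' : Mn l x' y') : x = x' ∧ y = y' := by
  obtain rfl : y = y' := le_antisymm (h.2 _ _ h'.1) (h'.2 _ _ h.1)
  refine ⟨sub_eq_zero.1 (small hp ((abs_sub _ _).trans (by linarith [h.1.2.1, h'.1.2.1]))
    ((mul_eq_zero.1 ?_).resolve_right h0)), rfl⟩
  push_cast
  linear_combination h.1.2.2 - h'.1.2.2

theorem ex_mn (hp : 5 < p) {l : (a.B p).Du} (h0 : u l ≠ 0) : ∃ x y, Mn l x y ∧ y ≤ p.sqrt := by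
  classical
  have : ∃ y : ℕ, y ≤ p.sqrt ∧ ∃ x, Sh l x y := by
    obtain ⟨x, y, h1, h2⟩ := Fintype.exists_ne_map_eq_of_card_lt
      (fun x : Fin (p.sqrt + 1) × Fin (p.sqrt + 1) => ((x.1 : ℕ) * u l + (x.2 : ℕ) * v l : ZMod p))
      (by simpa using Nat.lt_succ_sqrt p)
    wlog k : y.2 ≤ x.2 generalizing x y
    · exact this y x h1.symm h2.symm (le_of_not_ge k)
    have := x.1.2; have := x.2.2; have := y.1.2; have := y.2.2
    have b : |((x.1 : ℕ) : ℤ) - (y.1 : ℕ)| ≤ p.sqrt := by rw [abs_le]; omega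
    refine ⟨x.2 - y.2, by omega, (x.1 : ℕ) - (y.1 : ℕ), ?_, b, ?_⟩
    · by_contra c
      have e : x.2 = y.2 := Fin.ext (by omega)
      have := small hp (x := (x.1 : ℕ) - (y.1 : ℕ)) (by omega) ((mul_eq_zero.1 (by
        rw [e] at h2; push_cast; linear_combination h2)).resolve_right h0)
      exact h1 (Prod.ext (Fin.ext (by omega)) e)
    · rw [Nat.cast_sub k]
      push_cast
      linear_combination h2
  obtain ⟨y, b, c⟩ := this
  have d : ∃ y : ℕ, ∃ x, Sh l x y := ⟨y, c⟩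
  obtain ⟨x, e⟩ := Nat.find_spec d
  refine ⟨x, _, ⟨e, fun x' y' f => ?_⟩, by exact_mod_cast (Nat.find_min' d c).trans b⟩
  lift y' to ℕ using f.1.le
  exact_mod_cast Nat.find_min' d ⟨x', f⟩

theorem Sh.smul {l : (a.B p).Du} {x y : ℤ} (h : Sh l x y) (g : Γ) : Sh (g • l) (a.ε g * x) y :=
  ⟨h.1, by rcases a.sq g with e | e <;> simpa [e] using h.2.1, by
    have : ((a.ε g * a.ε g : ℤ) : ZMod p) = 1 := by rw [a.ε_sq, Int.cast_one]
    rw [u_smul, v_smul]
    push_cast at this ⊢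
    linear_combination h.2.2 + x * u l * this⟩

theorem Mn.smul {l : (a.B p).Du} {x y : ℤ} (h : Mn l x y) (g : Γ) : Mn (g • l) (a.ε g * x) y :=
  ⟨h.1.smul g, fun _ _ k => h.2 _ _ (inv_smul_smul g l ▸ k.smul g⁻¹)⟩

theorem Mn.neg {l : (a.B p).Du} {x y : ℤ} (h : Mn (-l) x y) : Mn l x y := by
  have k (x y : ℤ) : Sh (-l) x y ↔ Sh l x y :=
    and_congr_right fun _ => and_congr_right fun _ => by
      rw [show u (-l) = -u l from rfl, show v (-l) = -v l from rfl, ← neg_eq_zero]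
      ring_nf
  exact ⟨(k _ _).1 h.1, fun _ _ b => h.2 _ _ ((k _ _).2 b)⟩

/-- The labels. -/
def Lab (r : ℕ) (y : Set (a.B p).Af × Γ) (f : a.I) : Prop :=
  ∃ l : (a.B p).Af, u l.1 ≠ 0 ∧ y.1 = {l, -l} ∧ ∃ w1 w2, Mn l.1 w1 w2 ∧ ∃ z1 z2 : ℤ,
    z1 * u l.1 + z2 * v l.1 + l.2 = 0 ∧ ∃ (ζ : ℚ) (k : ℤ),
      (r + 1) / p * (ζ - (w2 * z1 - w1 * z2)) = k ∧
      |(r + 1) / p * (w2 * a.c y.2 - w1 * a.χ y.2 - ζ)| < 1 / 2 ∧ ∀ i, f i = (ζ + w1 * i) / w2

theorem Lab.uniq (hp : 5 < p) {r : ℕ} {y : Set (a.B p).Af × Γ} {f f' : a.I} (h : Lab r y f)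
    (h' : Lab r y f') : f = f' := by
  obtain ⟨l, a1, a2, w1, w2, a3, z1, z2, a4, ζ, k, a5, a6, a7⟩ := h
  obtain ⟨l', -, b2, w1', w2', b3, z1', z2', b4, ζ', k', b5, b6, b7⟩ := h'
  obtain ⟨c1, c2⟩ : Mn l.1 w1' w2' ∧ z1' * u l.1 + z2' * v l.1 + l.2 = 0 := by
    obtain rfl | rfl : l' ∈ ({l, -l} : Set _) := a2 ▸ b2 ▸ .inl rfl
    · exact ⟨b3, b4⟩
    · exact ⟨b3.neg, by
        change _ * -u l.1 + _ * -v l.1 + -l.2 = 0 at b4
        linear_combination -b4⟩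
  obtain ⟨rfl, rfl⟩ := a3.uniq hp a1 c1
  obtain ⟨m, hm⟩ := (ZMod.intCast_zmod_eq_zero_iff_dvd (w2 * (z1 - z1') - w1 * (z2 - z2')) p).1
    ((mul_eq_zero.1 (by
      push_cast
      linear_combination w2 * (a4 - c2) - (z2 - z2') * a3.1.2.2)).resolve_right a1)
  have p0 : (p : ℚ) ≠ 0 := by positivity
  have e : ((r : ℚ) + 1) / p * (ζ - ζ') = (k - k' + (r + 1) * m : ℤ) := by
    have := congrArg (Int.cast : ℤ → ℚ) hm
    push_cast at this ⊢
    rw [← a5, ← b5]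
    field_simp
    linear_combination this
  have e' : |((r : ℚ) + 1) / p * (ζ - ζ')| < 1 := by
    rw [abs_lt] at a6 b6 ⊢
    constructor <;> linarith
  rw [e] at e'
  rw [Int.abs_lt_one_iff.1 (show |k - k' + (r + 1) * m| < 1 by exact_mod_cast e'), Int.cast_zero,
    mul_eq_zero, sub_eq_zero] at e
  exact funext fun i => by rw [a7, b7, e.resolve_left (by positivity)]

theorem Lab.smul {r : ℕ} {y : Set (a.B p).Af × Γ} {f : a.I} (h : Lab r y f) (g : Γ) :
    Lab r (g • y) (g • f) := by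
  obtain ⟨l, a1, a2, w1, w2, a3, z1, z2, a4, ζ, k, a5, a6, a7⟩ := h
  have e : (a.ε g : ℚ) * a.ε g = 1 := by exact_mod_cast a.ε_sq g
  refine ⟨g • l, ?_, ?_, _, _, a3.smul g, a.ε g * z1 + a.c g, z2 + a.χ g, ?_,
    a.ε g * ζ + w2 * a.c g - a.ε g * w1 * a.χ g, a.ε g * k, ?_, ?_, fun i => ?_⟩
  · rw [AA.af_fst, u_smul]
    rcases a.sq g with e | e <;> simpa [e]
  · rw [Prod.smul_fst, a2, Set.smul_set_insert, Set.smul_set_singleton]
    exact congrArg (fun x => {_, x}) ((a.B p).i4.eqv g l).symm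
  · have := (a.B p).af_ev g l (g • (show a.E p from (z1, z2)))
    rw [inv_smul_smul, AA.Af.ev, AA.Af.ev, app, a4] at this
    rw [← this]
    push_cast
    exact congrArg (· + _) (app _ _ _).symm
  · push_cast
    linear_combination a.ε g * a5
  · rw [Prod.smul_snd, smul_eq_mul, c_mul, a.χ.mul]
    push_cast
    rw [show ((r : ℚ) + 1) / p * (w2 * (a.c g + a.ε g * a.c y.2) - a.ε g * w1 * (a.χ g + a.χ y.2) -
      (a.ε g * ζ + w2 * a.c g - a.ε g * w1 * a.χ g)) =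
      a.ε g * ((r + 1) / p * (w2 * a.c y.2 - w1 * a.χ y.2 - ζ)) by ring]
    rcases a.sq g with e | e <;> simpa [e] using a6
  · change (a.ε g : ℚ) * f (i - a.χ g) + a.c g = _
    have : (w2 : ℚ) ≠ 0 := Int.cast_ne_zero.2 a3.1.1.ne'
    rw [a7]
    push_cast
    field_simp
    ring

theorem ex_lab (hp : 5 < p) {Q d : ℕ} (hQ : ∀ v : Fin 1 → ℚ, ∃ r : Fin Q, ∃ u ∈ Zn 1,
    ‖((r + 1 : ℕ) : ℚ) • v - u‖ < 1 / 4) (hd : (8 * Q * d) ^ 2 < p) {l : (a.B p).Af}
    (h : u l.1 ≠ 0) : ∃ (r : Fin Q) (f : a.I), ∀ g, |a.c g| ≤ d → |a.χ g| ≤ d →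
      Lab r ({l, -l}, g) f := by
  obtain ⟨w1, w2, a1, a2⟩ := ex_mn hp h
  obtain ⟨z, hz⟩ := ZMod.intCast_surjective (-l.2 / u l.1)
  obtain ⟨r, k, b1, b2⟩ := hQ fun _ => -(w2 * z) / p
  obtain ⟨k', e⟩ := mem_zn.1 b1 0
  have b3 := (norm_le_pi_norm _ 0).trans_lt b2
  rw [← Rat.norm_cast_real, Real.norm_eq_abs, ← Rat.cast_abs,
    show (1 / 4 : ℝ) = ((1 / 4 : ℚ) : ℝ) by norm_num, Rat.cast_lt, Pi.sub_apply, ← e] at b3
  have p0 : (0 : ℚ) < p := by positivity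
  refine ⟨r, fun i => (w2 * z + p / (r + 1) * k' + w1 * i) / w2, fun g c1 c2 =>
    ⟨l, h, rfl, w1, w2, a1, z, 0, by rw [hz]; field_simp; ring, _, k', by field_simp; ring, ?_,
      fun _ => rfl⟩⟩
  have c3 : |((r : ℚ) + 1) / p * (w2 * a.c g - w1 * a.χ g)| ≤ 1 / 4 := by
    have s1 : 8 * Q * d ≤ p.sqrt := Nat.le_sqrt'.2 hd.le
    have s2 := Nat.sqrt_le p
    have s3 : |w2 * a.c g - w1 * a.χ g| ≤ 2 * p.sqrt * d := by
      refine (abs_sub _ _).trans ?_
      rw [abs_mul, abs_mul, abs_of_pos a1.1.1]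
      nlinarith [a1.1.2.1, abs_nonneg w1, abs_nonneg (a.c g), abs_nonneg (a.χ g), a1.1.1]
    have s4 : (r : ℤ) + 1 ≤ Q := by have := r.2; omega
    have s5 : 4 * (((r : ℤ) + 1) * |w2 * a.c g - w1 * a.χ g|) ≤ p := by
      zify at s1 s2
      calc _ ≤ (4 : ℤ) * (Q * (2 * p.sqrt * d)) := by gcongr
        _ = (8 : ℤ) * Q * d * p.sqrt := by ring
        _ ≤ (p.sqrt : ℤ) * p.sqrt := by gcongr
        _ ≤ p := s2
    rw [abs_mul, abs_of_pos (by positivity), div_mul_eq_mul_div, div_le_div_iff₀ p0 (by norm_num)]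
    have : (4 : ℚ) * ((r + 1) * |(w2 : ℚ) * a.c g - w1 * a.χ g|) ≤ p := by exact_mod_cast s5
    linarith
  simp only [Pi.smul_apply, smul_eq_mul] at b3
  push_cast at b3
  rw [show ((r : ℚ) + 1) / p * (w2 * a.c g - w1 * a.χ g - (w2 * z + p / (r + 1) * k')) =
    (r + 1) / p * (w2 * a.c g - w1 * a.χ g) + ((r + 1) * (-(w2 * z) / p) - k') by field_simp; ring]
  exact (abs_add_le _ _).trans_lt (by linarith)

end Ln

namespace GC

variable {Γ : Type w} [Group Γ] {C : Type u} [Category.{v} C] [Preadditive C] {S : GC (Γ × Zi) C}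

theorem unip_fin {X : C} {x : X ⟶ X} {m : ℕ} (hm : pw x m = 0) : ∃ (v : X ⟶ X) (T : Set Γ),
    T.Finite ∧ 1 ∈ T ∧ (∀ g ∈ T, g⁻¹ ∈ T) ∧ S.Sup {g | g.1 ∈ T} (𝟙 X - x) ∧
      S.Sup {g | g.1 ∈ T} v ∧ (𝟙 X - x) ≫ v = 𝟙 X ∧ v ≫ (𝟙 X - x) = 𝟙 X := by
  obtain ⟨-, v, -, e1, e2⟩ := iso_unip (S.sup_top x) hm
  obtain ⟨T1, a1, -, a2⟩ := (S.sup_top (𝟙 X - x)).finite
  obtain ⟨T2, a3, -, a4⟩ := (S.sup_top v).finite
  obtain ⟨T, t0, t1, t2, t3⟩ := ex_symm (a1.union a3)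
  exact ⟨v, T, t0, t1, t2, a2.mono fun g k => t3 g (.inl k), a4.mono fun g k => t3 g (.inr k),
    e1, e2⟩

open Ln in
/-- Nil terms for actions on a line. -/
theorem G2 (h : S.Ok) (a : Ln Γ) {t : Γ} (ht : a.χ t = 1)
    (hW : ∀ f : a.I, ∀ H ≤ stabilizer Γ f, S.V H)
    (hW' : ∀ (H : Subgroup Γ) (g : Γ), a.ε g = -1 → (∀ k ∈ H, a.ε k = 1) → S.V H) :
    S.Gd S.nt {g | a.χ g.1 = 1} := by
  classical
  intro X x hx ⟨m, hm⟩
  have hu := iso_unip (S.sup_top x) hm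
  obtain ⟨v, T, t0, t1, t2, a2, a4, e1, e2⟩ := unip_fin (S := S) hm
  obtain ⟨Q, hQ⟩ := dirichlet 1 (δ := 1 / 4) (by positivity)
  obtain ⟨d, hd⟩ := ((fin_pow t0 (kap (Fintype.card (Fin Q)) + 1)).image
    fun g => (a.c g).natAbs + (a.χ g).natAbs).bddAbove
  refine tr_of_primes hu (5 + m + (8 * Q * d) ^ 2) fun p c hp k e => ?_
  have := Fact.mk hp
  have h2 : (2 : ZMod p) ≠ 0 := fun e => by simpa using small (p := p) (by omega) (x := 2) (by
    have : 1 ≤ p.sqrt := Nat.le_sqrt.2 hp.one_le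
    simpa) (by simpa)
  have h3 (g) (b : 0 < a.χ g) (b' : a.χ g < m) : (a.χ g : ZMod p) ≠ 0 := fun e => by
    have := Int.le_of_dvd b ((ZMod.intCast_zmod_eq_zero_iff_dvd _ _).1 e)
    omega
  obtain ⟨f, j, f1, f2⟩ := count (a := a) e h2
  refine ⟨2, j, ?_⟩
  rw [← f2, ← tau_int (π := .fst Γ Zi) (hz := h.hz) hu]
  refine swan (tau_ses hu) (a.B p) (tau_gr hu fun b => b.nil a.χ ht hx hm
    fun y _ g b b' e => h3 g b b' (add_eq_left.1 (show y.2 + _ = y.2 from congrArg Prod.snd e)))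
    (fun l => ({l, -l} : Set _)) (fun q l => ?_) (fun l => ?_) (fun L b => b.split
      (fun x => ∀ l ∈ x, u l.1 = 0) (fun g x => ?_) (tau_ses hu) (tau_gr hu fun b =>
        b.nil a.χ ht hx hm ?_) (tau_gr hu fun b => b.ctrl h hW (ι := Fin Q) (fun r => Lab r)
          (fun _ _ _ _ => Lab.uniq (by omega)) (fun _ g _ _ k => k.smul g) t1 t2 ?_ a2 a4 e1 e2))
    (a.B p).pm (a.B p).pm_smul (a.B p).pm_neg (tau_gr hu fun b => b.stab h.hz ?_ hu) e f1
  · rw [Set.smul_set_insert, Set.smul_set_singleton]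
    exact congrArg (fun x => {_, x}) ((a.B p).i4.eqv q l)
  · rw [neg_neg, Set.pair_comm]
  · rw [← Set.image_smul, Set.forall_mem_image]
    refine forall₂_congr fun l _ => ?_
    rw [AA.af_fst, u_smul]
    rcases a.sq g with e | e <;> simp [e]
  · rintro _ ⟨⟨l, l0, rfl⟩, l1⟩ g b b' e
    have l2 := l1 l (.inl rfl)
    have l3 : Ln.v l.1 ≠ 0 := fun e => l0 (ext l2 e)
    obtain e | e : g • l ∈ ({l, -l} : Set _) := e ▸ Set.smul_mem_smul_set (.inl rfl)
    · have : l.1 (a.ε g⁻¹ * 0 + a.c g⁻¹, 0 + a.χ g⁻¹) + l.2 = l.2 := congrArg Prod.snd e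
      rw [app, l2] at this
      exact h3 g b b' (by simpa [l3] using this)
    · have : Ln.v (g • l.1) = -Ln.v l.1 := congrArg (fun l => Ln.v l.1) e
      rw [v_smul] at this
      exact l3 ((mul_eq_zero.1 (by linear_combination this)).resolve_left h2)
  · rintro _ ⟨⟨l, -, rfl⟩, l1⟩
    obtain ⟨r, f, b⟩ := ex_lab (l := l) (d := d) (by omega) hQ (by omega) fun e => l1 (by
      rintro _ (rfl | rfl)
      exacts [e, neg_eq_zero.2 e])
    exact ⟨r, f, fun g k => by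
      have : _ + _ ≤ d := hd ⟨g, k, rfl⟩
      have := Int.natCast_natAbs (a.c g)
      have := Int.natCast_natAbs (a.χ g)
      exact b g (by omega) (by omega)⟩
  · rintro _ ⟨l, -, l1, rfl⟩
    obtain ⟨g, hg⟩ := not_forall.1 fun e => l1 (fix_of (.inl e))
    exact hW' _ g ((a.sq g).resolve_left hg) fun k b => (a.sq k).resolve_right fun e =>
      l1 (fix_of (.inr (of_fix h2 ((a.B p).pm_fix b) e)))

end GC

end Pool.Agent.Lib.MP_5d3e93_al
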