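import Pool.Agent.Lib.MP_5d3e93_al.Ar
import Pool.Agent.Lib.MP_5d3e93_al.Av
import Pool.Agent.Lib.MP_5d3e93_al.Str

/-! Groups acting on trees with crystallographic elliptic subgroups. -/

open CategoryTheory Limits MulAction HNNExtension
open scoped Pointwise

namespace Pool.Agent.Lib.MP_5d3e93_al

universe w w' v u

variable {C : Type u} [Category.{v} C] [Preadditive C] [HasBinaryBiproducts C]
variable {G : Type w'} [Group G] (ρ : Act G C)

/-- Vanishing for all homomorphisms. -/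
def AV (Γ : Type w) [Group Γ] : Prop := ∀ q : Γ →* G, K1Zero (TwZ (ρ.comap q))

/-- Classes of groups closed under subgroups. -/
structure Cl where
  P : ∀ (Γ : Type w) [Group Γ], Prop
  inj : ∀ {Γ Γ' : Type w} [Group Γ] [Group Γ'] (f : Γ' →* Γ), Function.Injective f → P Γ → P Γ'

variable {ρ} {Γ Γ' : Type w} [Group Γ] [Group Γ'] {s : Cl.{w}} {n : ℕ}

theorem Cl.map {f : Γ' →* Γ} {U : Subgroup Γ'} {D : Subgroup Γ} (h : Set.InjOn f U)
    (e : U.map f ≤ D) (k : s.P D) : s.P U :=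
  s.inj ((f.comp U.subtype).codRestrict D fun u => e ⟨u, u.2, rfl⟩)
    (fun a b c => Subtype.ext (h a.2 b.2 (congrArg Subtype.val c))) k

theorem Cl.le {U D : Subgroup Γ} (e : U ≤ D) (k : s.P D) : s.P U :=
  Cl.map (f := .id Γ) (Set.injOn_id _) (by simpa) k

theorem Cl.conj {U D : Subgroup Γ} {g : Γ} (e : U ≤ MulAut.conj g • D) (k : s.P D) : s.P U :=
  Cl.map (f := (MulAut.conj g⁻¹).toMonoidHom) (MulEquiv.injective _).injOn (by
    rintro _ ⟨u, a, rfl⟩
    simpa using Subgroup.mem_pointwise_smul_iff_inv_smul_mem.1 (e a)) k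

theorem AV.sub (h0 : K0Zero C) {H : Subgroup Γ} (h : AV ρ H) (q : Γ →* G) :
    (SZ (ρ.comap q)).V H := W_of_K1 h0 (h (q.comp H.subtype))

variable (s) in
/-- Small or crystallographic. -/
def TF (R : AR Γ n) (U : Subgroup Γ) : Prop := s.P U ∨ R.Cr U

variable {R : AR Γ n}

theorem TF.comap {f : Γ' →* Γ} {U : Subgroup Γ'} (h : Set.InjOn f U) (k : TF s R (U.map f)) :
    TF s (R.comap f) U := k.imp (Cl.map h le_rfl) AR.Cr.comap

theorem OT.sub (h : OT Γ (TF s R)) (H : Subgroup Γ) : OT H (TF s (R.comap H.subtype)) :=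
  h.comap _ fun _ => TF.comap H.subtype_injective.injOn

theorem Hn.tf {D D' : Subgroup Γ} (h : ∀ k : Γ, ∀ U ≤ MulAut.conj k • D, TF s R U) (e : D' ≤ D)
    (g : Γ) : OT (Hn D' g) fun U => TF s (R.comap (jj D' g)) U ∧ ∀ u ∈ U, Bs.χ _ u = 0 :=
  (Hn.ot D' g).mono fun _ ⟨a, b, k, c⟩ => ⟨.comap a (h k _ (c.trans
    (Subgroup.pointwise_smul_le_pointwise_smul_iff.2 e))), b⟩

theorem less (f : Γ' →* Γ) {g : Γ} (h : ∀ k, R.l (f k) ≠ R.l g) (k : (R.l '' .univ).Finite) :
    ((R.comap f).l '' .univ).Finite ∧ ((R.comap f).l '' .univ).ncard < (R.l '' .univ).ncard :=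
  have : (R.comap f).l '' .univ ⊆ R.l '' .univ := fun _ ⟨x, _, e⟩ => ⟨f x, trivial, e⟩
  ⟨k.subset this, Set.ncard_lt_ncard ⟨this, fun e =>
    (e ⟨g, trivial, rfl⟩).elim fun x c => h x c.2⟩ k⟩

/-- The integers as a line. -/
@[ext] structure Lt (ε c : Γ → ℤ) (h : (∀ g, ε g = 1 ∨ ε g = -1) ∧
    (∀ a b, ε (a * b) = ε a * ε b) ∧ ∀ a b, c (a * b) = c a + ε a * c b) : Type where
  x : ℤ

section Line

variable {ε c : Γ → ℤ} {h : (∀ g, ε g = 1 ∨ ε g = -1) ∧
    (∀ a b, ε (a * b) = ε a * ε b) ∧ ∀ a b, c (a * b) = c a + ε a * c b}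

instance : MulAction Γ (Lt ε c h) where
  smul g x := ⟨ε g * x.x + 2 * c g⟩
  one_smul x := Lt.ext (show ε 1 * x.x + 2 * c 1 = _ by
    have a := h.2.1 1 1
    have b := h.2.2 1 1
    rcases h.1 1 with e | e <;> simp_all)
  mul_smul a b x := Lt.ext (show ε (a * b) * x.x + 2 * c (a * b) =
    ε a * (ε b * x.x + 2 * c b) + 2 * c a by rw [h.2.1, h.2.2]; ring)

theorem Lt.smul_x (g : Γ) (x : Lt ε c h) : (g • x).x = ε g * x.x + 2 * c g := rfl

variable (h) in
/-- The line graph. -/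
def Lt.T : SimpleGraph (Lt ε c h) where
  Adj a b := b.x = a.x + 1 ∨ a.x = b.x + 1
  symm := ⟨fun _ _ => Or.symm⟩
  loopless := ⟨fun _ h => by omega⟩

theorem Lt.tree : (Lt.T h).IsTree where
  nonempty := ⟨⟨0⟩⟩
  preconnected x y := by
    have (k : ℤ) : (Lt.T h).Reachable ⟨0⟩ ⟨k⟩ := by
      induction k using Int.induction_on with
      | zero => rfl
      | succ k ih => exact ih.trans (SimpleGraph.Adj.reachable (.inl rfl))
      | pred k ih => exact ih.trans (SimpleGraph.Adj.reachable (.inr (by simp)))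
    exact (this _).symm.trans (this _)
  isAcyclic := SimpleGraph.isAcyclic_iff_forall_adj_isBridge.2 fun a b e k => by
    have := half_ind (T := Lt.T h) (P := fun w => w.x ≤ min a.x b.x ↔ b.x ≤ min a.x b.x) .rfl
      (fun x y _ d f g => by
        have : ¬ (x.x = a.x ∧ y.x = b.x ∨ x.x = b.x ∧ y.x = a.x) := fun l =>
          f (Sym2.eq_iff.2 (l.imp (.imp Lt.ext Lt.ext) (.imp Lt.ext Lt.ext)))
        rcases d with d | d <;> rcases e with e | e <;> omega)
      (show a ∈ Half (Lt.T h) a b from k.symm)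
    rcases e with e | e <;> omega

end Line

variable (h0 : K0Zero C) (hI : ∀ (Γ : Type w) [Group Γ], OT Γ (s.P ·) → AV ρ Γ)
include h0 hI

theorem gd_small {D : Subgroup Γ} {g : Γ} (hF : Fr D (dc D g)) (h : s.P D) (q : Γ →* G) :
    (SZ (ρ.comap q)).Gd (SZ (ρ.comap q)).nt {k | k.1 ∈ dc D g} :=
  gd_fg hF Set.finite_empty (Set.empty_subset _) fun D' a _ _ => gd_of_K1 h0 (hI _
    ((Hn.ot D' g).mono fun _ ⟨b, _, _, c⟩ => Cl.map b le_rfl (Cl.conj c (Cl.le a h)))
      (q.comp (jj D' g))) _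

omit h0 [HasBinaryBiproducts C] in
theorem av_small {D : Subgroup Γ} (h : s.P D) : AV ρ D :=
  hI _ (.triv fun U => s.inj U.subtype U.subtype_injective h)

omit h0 [HasBinaryBiproducts C] in
theorem av_fix (hn : 0 < n) {Φ : Subgroup Γ → Prop} (h : OT Γ fun U => TF s R U ∧ Φ U)
    {H : Subgroup Γ} (k : ∀ U ≤ H, Φ U → ∀ u ∈ U, R.l u = 1 → R.c u = 0) : AV ρ H :=
  hI _ (h.comap H.subtype fun U e => Cl.map H.subtype_injective.injOn le_rfl
    (e.1.resolve_right fun c => c.not hn (k _ (Subgroup.map_subtype_le U) e.2)))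

theorem av_line {ε c : Γ → ℤ} (h : (∀ g, ε g = 1 ∨ ε g = -1) ∧
    (∀ a b, ε (a * b) = ε a * ε b) ∧ ∀ a b, c (a * b) = c a + ε a * c b)
    (k : ∀ U : Subgroup Γ, (∀ u ∈ U, ε u = 1 → c u = 0) → s.P U) : AV ρ Γ := fun q => by
  have a (v : Lt ε c h) (D) (e : D ≤ stabilizer Γ v) := k D fun u b d => by
    have := congrArg Lt.x (e b)
    rw [Lt.smul_x, d] at this
    omega
  refine TR' h0 (Lt.tree (h := h)) (fun g a b e => ?_) (fun g a b e f l => ?_)
    (fun v D e => av_small hI (a v D e) (q.comp D.subtype)) 0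
    fun v D e g f => .inl (gd_small h0 hI f (a v D e) q)
  · change _ ∨ _ at e ⊢
    rcases h.1 g with l | l <;> simp only [Lt.smul_x, l] <;> omega
  · have := congrArg Lt.x f
    change _ ∨ _ at e
    rcases h.1 g with l | l <;> simp only [Lt.smul_x, l] at this <;> omega

variable [HasZeroObject C]

theorem QQ (j : ℕ) : ∀ (Γ : Type w) [Group Γ] {n : ℕ} (R : AR Γ n), 0 < n →
    (R.l '' .univ).Finite ∧ (R.l '' .univ).ncard < j → OT Γ (TF s R) → AV ρ Γ := by
  induction j with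
  | zero => exact fun _ _ _ _ _ h => (Nat.not_lt_zero _ h.2).elim
  | succ j ih =>
  suffices ∀ (Γ : Type w) [Group Γ] {n : ℕ} (R : AR Γ n), Group.FG Γ → 0 < n →
      (R.l '' .univ).Finite ∧ (R.l '' .univ).ncard < j + 1 → OT Γ (TF s R) → AV ρ Γ from
    fun Γ _ n R a b c q => K1_loc h0 fun H d => by
      have e : (R.comap H.subtype).l '' .univ ⊆ R.l '' .univ := fun _ ⟨x, _, e⟩ => ⟨x, trivial, e⟩
      exact this H _ ((Group.fg_iff_subgroup_fg H).2 d) a
        ⟨b.1.subset e, (Set.ncard_le_ncard e b.1).trans_lt b.2⟩ (c.sub H) (q.comp H.subtype)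
  intro Γ _ n R a b c d
  by_cases e : ∃ U, R.Cr U
  swap
  · exact hI _ (d.mono fun U f => f.resolve_right fun g => e ⟨U, g⟩)
  obtain ⟨U, e⟩ := e
  obtain ⟨n', b', R', π, f1, f2, f3⟩ := R.norm b a.1 c.1 (top_le_iff.1 (e.2.ge.trans
    (Submodule.span_mono (Set.image_mono (Set.subset_univ _)))))
  replace d := d.mono fun U (g : TF s R U) => show TF s R' U from g.imp_right (AR.Cr.quot f1)
  replace c := And.intro (f1.fin c.1).1 ((f1.fin c.1).2.trans (Nat.lt_succ_iff.1 c.2))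
  replace f3 := fun u => f3 u trivial
  clear f1 e
  have l {Γ' : Type w} [Group Γ'] (f : Γ' →* Γ) {g : Γ} (h : ∀ k, R'.l (f k) ≠ R'.l g) :=
    ih Γ' (R'.comap f) b' ⟨(less f h c.1).1, (less f h c.1).2.trans_le c.2⟩
  intro q
  obtain k | rfl : 2 ≤ n' ∨ n' = 1 := by omega
  · let _ := R'.act
    have hW (ζ : Fin n' → ℚ) (H) (e : H ≤ stabilizer Γ ζ) : AV ρ H :=
      av_fix hI b' (d.mono fun U g => ⟨g, trivial⟩) fun U g _ u g' l => by
        simpa [l] using show R'.l u ζ + R'.c u = ζ from e (g g')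
    exact K1_of_W' h0 (Subgroup.subtype_injective ⊥) (hW 0 ⊥ bot_le (q.comp (⊥ : Subgroup Γ).subtype))
      (GC.G1 (A := R'.aa) (ok h0) f3 (Set.image_univ ▸ c.1) (fun ε _ => f2.eps k ε)
        (fun ζ H e => (hW ζ H e).sub h0 q) fun H g e =>
          (l H.subtype (fun k => e k k.2) (d.sub H)).sub h0 q)
  · obtain ⟨ε, γ, e1, e2, e3⟩ := AR.line f3
    have e4 (u) (a : ε u = 1) : R'.l u = 1 := by simp [e1, a]
    have e5 (u) (a : R'.l u = 1) : ε u = 1 := by
      simpa [e1] using congrFun (LinearMap.congr_fun a 1) 0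
    refine TR h0 d (fun D e => av_line h0 hI (ε := fun g : D => ε g) (c := fun g : D => γ g)
      ⟨fun g => e3.1 g, fun g k => e3.2.1 g k, fun g k => e3.2.2 g k⟩ (fun U f =>
        Cl.map D.subtype_injective.injOn le_rfl ((e 1 _ (by
          simpa using Subgroup.map_subtype_le U)).resolve_right fun c => c.not b' ?_))
        (q.comp D.subtype)) 0 fun D e g f => .inl (gd_fg f Set.finite_empty (Set.empty_subset _)
          fun D' a _ _ => (GC.G2 (S := SZ (ρ.comap (q.comp (jj D' g)))) (ok h0)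
            ⟨fun x => ε (jj D' g x), fun x => γ (jj D' g x), Bs.χ _, fun x => e3.1 _,
              by simp [e3.2.1], by simp [e3.2.2]⟩ (Bs.χ_t _) (fun y H k => AV.sub h0 (av_fix hI b'
                (Hn.tf e a g) fun U k' l u m o => ?_) _) fun H x k k' => AV.sub h0
                  (l ((jj D' g).comp H.subtype) (g := jj D' g x) (fun y m => ?_)
                    (((Hn.tf e a g).mono fun _ m => m.1).sub H)) _).mono fun _ => (Bs.H _).chi)
    · rintro _ ⟨u, a, rfl⟩ g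
      rw [e2, show γ (D.subtype u) = 0 from f u a (e5 _ g)]
      rfl
    · have : (ε (jj D' g u) : ℚ) * y (0 - Bs.χ _ u) + γ (jj D' g u) = y 0 :=
        congrFun (k (k' m)) 0
      rw [l u m, e5 _ o] at this
      exact (e2 _).trans (funext fun _ => by simpa using this)
    · have := e5 (jj D' g x * (jj D' g y)⁻¹) (by
        rw [map_mul, ← m, ← map_mul]
        simp)
      have e6 := e3.2.1 (jj D' g x * (jj D' g y)⁻¹) (jj D' g y)
      rw [this, inv_mul_cancel_right, show ε _ = -1 from k, show ε _ = 1 from k' _ y.2] at e6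
      omega

theorem av_cr (hn : 0 < n) (h : OT Γ (TF s R)) {H : Subgroup Γ} (k : (R.l '' H).Finite) :
    AV ρ H := QQ h0 hI _ H _ hn ⟨k.subset fun _ ⟨x, _, e⟩ => ⟨x, x.2, e⟩, Nat.lt_succ_self _⟩
      (h.sub H)

/-- Actions on trees with small or crystallographic elliptic subgroups. -/
theorem AA' (hn : 0 < n) (h : OT Γ (TF s R)) : AV ρ Γ := fun q => by
  refine TR h0 h (fun D e => ?_) (fun D => (R.l '' D).ncard) fun D e g f => ?_ <;>
    obtain a | a := e 1 D (by simp)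
  · exact av_small hI a (q.comp D.subtype)
  · exact av_cr h0 hI hn h a.1 (q.comp D.subtype)
  · exact .inl (gd_small h0 hI f a q)
  refine or_iff_not_imp_right.2 fun b => ?_
  have c : R.l '' D ⊆ R.l '' cj D g := by_contra fun c => b (Set.ncard_lt_ncard
    ⟨Set.image_mono fun x k => (mem_cj.1 k).1, c⟩ a.1)
  have c1 : Set.MapsTo (fun T => R.l g⁻¹ * T * R.l g) (R.l '' D) (R.l '' D) := fun T k => by
    obtain ⟨x, l, rfl⟩ := c k
    exact ⟨_, (mem_cj.1 l).2, by simp⟩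
  have c2 := ((a.1.injOn_iff_bijOn_of_mapsTo c1).1 fun T _ T' _ k => by
    simpa [← mul_assoc, ← map_mul, mul_assoc _ (R.l g)] using
      congrArg (fun T => R.l g * T * R.l g⁻¹) k).surjOn
  obtain ⟨F, f1, f2, f3⟩ := a.1.exists_subset_finite_image_eq subset_rfl
  refine gd_fg f f2 f1 fun D' d1 d2 d3 => ?_
  have t := Hn.tf e d1 g
  obtain a' | a' := e 1 D' (by simpa)
  · exact gd_small h0 hI (Bs.fr _) (s.inj (MonoidHom.ofInjective (of_injective _)).symm.toMonoidHom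
      (MulEquiv.injective _) a') (q.comp (jj D' g))
  have m {T} (k : T ∈ R.l '' D) : ∃ x ∈ Bs.E (pE D' g), (R.comap (jj D' g)).l x = T := by
    obtain ⟨x, l, rfl⟩ := f3.ge k
    exact ⟨_, ⟨⟨x, d3 l⟩, rfl⟩, congrArg R.l (jj_of _ _ _)⟩
  have a2 : (R.comap (jj D' g)).Cr (Bs.E _) := .comap (by
    convert a'
    ext x
    simp [Bs.E])
  have := (Group.fg_iff_subgroup_fg D').2 d2
  obtain ⟨n', b', R', π, g1, g2, g3⟩ := (R.comap (jj D' g)).norm hn (U := Bs.E _)
    ((Group.fg_iff_subgroup_fg _).1 (Group.fg_range _)) a2.1 (top_le_iff.1 (a2.2.ge.trans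
      (Submodule.span_mono (Set.image_mono fun _ k => k.1))))
  have g4 (x) (k : Bs.χ _ x = 0) : ∃ d ∈ Bs.E _, R'.l d = R'.l x :=
    ((R.comap (jj D' g)).hN (Bs.H _) (Bs.gen _) (by
      rintro _ ⟨y, rfl⟩
      simpa [AR.comap, Bs.H] using m (c1 ⟨_, d1 y.2, rfl⟩)) (by
      rintro _ ⟨y, rfl⟩
      obtain ⟨T, k, l⟩ := c2 ⟨_, d1 y.2, rfl⟩
      simpa [AR.comap, Bs.H, ← l, ← mul_assoc, ← map_mul R.l, mul_assoc _ (R.l g)] using m k)
      x k).imp fun d l => ⟨l.1, g1.congr l.2⟩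
  have g5 := (g1.fin a2.1).1
  have g6 : (R'.l '' {x | Bs.χ _ x = 0}).Finite := g5.subset (Set.forall_mem_image.2 g4)
  have t' := t.mono fun U k => show TF s R' U from k.1.imp_right (AR.Cr.quot g1)
  obtain k | k := g2.dich _ (Bs.χ_t _) g6
  · exact gd_of_K1 h0 (QQ h0 hI _ _ R' b' ⟨by simpa using k, Nat.lt_succ_self _⟩ t'
      (q.comp (jj D' g))) _
  · let _ := R'.act
    exact GC.G3 (H := Bs.H _) (A := R'.aa) (S := SZ (ρ.comap (q.comp (jj D' g)))) (ok h0) (Bs.gen _)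
      g3 g4 g5 k (fun ζ H l => (av_fix hI b' (t'.mono fun U g => ⟨g, trivial⟩) fun U g _ u g' o => by
        simpa [o] using show R'.l u ζ + R'.c u = ζ from l (g g')).sub h0 _) fun K l =>
          (av_cr h0 hI b' t' (g6.subset (Set.image_mono l))).sub h0 _

end Pool.Agent.Lib.MP_5d3e93_al
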