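import Pool.Agent.Lib.MP_5d3e93_al.FH

/-! The boundary map: vanishing of `K1` of a central Laurent extension makes idempotents stably
objects. -/

open CategoryTheory

namespace Pool.Agent.Lib.MP_5d3e93_al

universe w v u

namespace GC

variable {G : Type w} [Group G] {C : Type u} [Category.{v} C] [Preadditive C] (S : GC G C)
variable {A B D E V V' : C}

/-- Equivalence of idempotents over `H`. -/
def Eqv (H : Subgroup G) (e : A ⟶ A) (f : B ⟶ B) : Prop :=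
  ∃ (x : A ⟶ B) (y : B ⟶ A), S.Sup H x ∧ S.Sup H y ∧ x ≫ y = e ∧ y ≫ x = f ∧ x ≫ y ≫ x = x ∧
    y ≫ x ≫ y = y

variable {S} {H : Subgroup G}

theorem Eqv.mk' {e : A ⟶ A} {f : B ⟶ B} (he : e ≫ e = e) (hf : f ≫ f = f) {x : A ⟶ B}
    {y : B ⟶ A} (hx : S.Sup H x) (hy : S.Sup H y) (h1 : x ≫ y = e) (h2 : y ≫ x = f) :
    S.Eqv H e f := by
  have h3 : x ≫ f = e ≫ x := by rw [← h1, ← h2, Category.assoc]
  have h4 : y ≫ e = f ≫ y := by rw [← h1, ← h2, Category.assoc]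
  have a1 : (e ≫ x) ≫ f ≫ y = e := by
    rw [Category.assoc, reassoc_of% h3, h1, he, he]
  have a2 : (f ≫ y) ≫ e ≫ x = f := by
    rw [Category.assoc, reassoc_of% h4, h2, hf, hf]
  refine ⟨e ≫ x, f ≫ y, (h1 ▸ hx.scomp hy).scomp hx, (h2 ▸ hy.scomp hx).scomp hy, a1, a2, ?_, ?_⟩
  · rw [← Category.assoc, a1, reassoc_of% he]
  · rw [← Category.assoc, a2, reassoc_of% hf]

theorem Eqv.refl {e : A ⟶ A} (h : S.Sup H e) (he : e ≫ e = e) : S.Eqv H e e :=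
  ⟨e, e, h, h, he, he, by rw [he, he], by rw [he, he]⟩

theorem Eqv.symm {e : A ⟶ A} {f : B ⟶ B} (h : S.Eqv H e f) : S.Eqv H f e := by
  obtain ⟨x, y, h1, h2, h3, h4, h5, h6⟩ := h
  exact ⟨y, x, h2, h1, h4, h3, h6, h5⟩

theorem Eqv.trans {e : A ⟶ A} {f : B ⟶ B} {g : D ⟶ D} (h : S.Eqv H e f) (h' : S.Eqv H f g) :
    S.Eqv H e g := by
  obtain ⟨x, y, h1, h2, h3, h4, h5, h6⟩ := h
  obtain ⟨x', y', k1, k2, k3, k4, k5, k6⟩ := h'
  have a1 : x ≫ x' ≫ y' = x := by rw [k3, ← h4, h5]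
  have a2 : y ≫ x ≫ x' = x' := by rw [reassoc_of% h4, ← k3, Category.assoc, k5]
  have a3 : y' ≫ y ≫ x = y' := by rw [h4, ← k3, k6]
  refine ⟨x ≫ x', y' ≫ y, h1.scomp k1, k2.scomp h2, ?_, ?_, ?_, ?_⟩
  · simp only [Category.assoc, reassoc_of% a1, h3]
  · simp only [Category.assoc, a2, k4]
  · simp only [Category.assoc, reassoc_of% a1, a2]
  · simp only [Category.assoc, reassoc_of% a3]
    rw [reassoc_of% k4, ← k4, Category.assoc, reassoc_of% k6]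

theorem Eqv.bd {e : A ⟶ A} {f : B ⟶ B} {e' : D ⟶ D} {f' : E ⟶ E} (h : S.Eqv H e f)
    (h' : S.Eqv H e' f') : S.Eqv H (S.blk e 0 0 e') (S.blk f 0 0 f') := by
  obtain ⟨x, y, h1, h2, h3, h4, h5, h6⟩ := h
  obtain ⟨x', y', k1, k2, k3, k4, k5, k6⟩ := h'
  exact ⟨S.blk x 0 0 x', S.blk y 0 0 y', .blk h1 .zero .zero k1, .blk h2 .zero .zero k2,
    by simp [h3, k3], by simp [h4, k4], by simp [h5, k5], by simp [h6, k6]⟩

variable (S H) in
/-- Idempotents over `H`. -/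
def Idp : Type (max u v) := {p : Σ A : C, A ⟶ A // S.Sup H p.2 ∧ p.2 ≫ p.2 = p.2}

variable (S H) in
/-- The setoid of equivalent idempotents. -/
def idpS : Setoid (S.Idp H) where
  r p q := S.Eqv H p.1.2 q.1.2
  iseqv := ⟨fun p => .refl p.2.1 p.2.2, .symm, .trans⟩

variable (S H) in
/-- Classes of idempotents. -/
def K0 : Type (max u v) := Quotient (S.idpS H)

/-- The class of an idempotent. -/
def cl (e : A ⟶ A) (h : S.Sup H e) (he : e ≫ e = e) : S.K0 H := Quotient.mk _ ⟨⟨A, e⟩, h, he⟩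

theorem cl_eq {e : A ⟶ A} {h : S.Sup H e} {he : e ≫ e = e} {f : B ⟶ B} {h' : S.Sup H f}
    {hf : f ≫ f = f} : cl e h he = cl f h' hf ↔ S.Eqv H e f := Quotient.eq

theorem K0.ind {P : S.K0 H → Prop} (h : ∀ (A : C) (e : A ⟶ A) h he, P (cl e h he)) (q : S.K0 H) :
    P q := by
  obtain ⟨⟨A, e⟩, h1, h2⟩ := q
  exact h A e h1 h2

instance : Add (S.K0 H) where
  add := Quotient.map₂ (fun p q => ⟨⟨_, S.blk p.1.2 0 0 q.1.2⟩, .blk p.2.1 .zero .zero q.2.1,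
    by simp [p.2.2, q.2.2]⟩) fun _ _ h _ _ h' => Eqv.bd h h'

theorem cl_add (e : A ⟶ A) (h : S.Sup H e) (he : e ≫ e = e) (f : B ⟶ B) (h' : S.Sup H f)
    (hf : f ≫ f = f) : cl e h he + cl f h' hf =
      cl (S.blk e 0 0 f) (.blk h .zero .zero h') (by simp [he, hf]) := rfl

instance : AddCommSemigroup (S.K0 H) where
  add_assoc a b c := by
    induction a using K0.ind with | _ A e h1 h2 => ?_
    induction b using K0.ind with | _ B f h3 h4 => ?_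
    induction c using K0.ind with | _ D g h5 h6 => ?_
    simp only [cl_add]
    refine cl_eq.2 (Eqv.mk' (by simp [*]) (by simp [*])
      (x := S.blk (S.blk e 0 0 f) 0 0 g ≫ S.asc A B D) (y := S.asc' A B D)
      ((Sup.blk (.blk h1 .zero .zero h3) .zero .zero h5).scomp (S.sup_asc H.one_mem _ _ _))
      (S.sup_asc' H.one_mem _ _ _) (by simp [asc_asc']) ?_)
    simp [asc, asc']
    congr 1
    apply S.hom_ext <;> simp
  add_comm a b := by
    induction a using K0.ind with | _ A e h1 h2 => ?_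
    induction b using K0.ind with | _ B f h3 h4 => ?_
    simp only [cl_add]
    exact cl_eq.2 (Eqv.mk' (by simp [*]) (by simp [*])
      (x := S.blk 0 e f 0) (y := S.flip B A) (.blk .zero h1 h3 .zero)
      (S.sup_flip H.one_mem _ _) (by simp [flip]) (by simp [flip]))

variable (S H) in
/-- The class of an object. -/
def ob (A : C) : S.K0 H := cl (𝟙 A) (.id H.one_mem) (Category.id_comp _)

theorem ob_add (A B : C) : S.ob H A + S.ob H B = S.ob H (S.sum A B) := by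
  simp only [ob, cl_add, blk_id]

/-- Stably the class of an object. -/
def K0.St (q : S.K0 H) : Prop := ∃ D E : C, q + S.ob H D = S.ob H E

theorem K0.St.add {p q : S.K0 H} (hp : p.St) (hq : q.St) : (p + q).St := by
  obtain ⟨D, E, h⟩ := hp
  obtain ⟨D', E', h'⟩ := hq
  exact ⟨S.sum D D', S.sum E E', by rw [← ob_add, ← ob_add, ← h, ← h']; ac_rfl⟩

theorem K0.St.cancel {p q : S.K0 H} (hp : (p + q).St) (hq : q.St) : p.St := by
  obtain ⟨D, E, h⟩ := hp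
  obtain ⟨D', E', h'⟩ := hq
  exact ⟨S.sum D E', S.sum E D', by rw [← ob_add, ← ob_add, ← h, ← h']; ac_rfl⟩

theorem st_ob (A : C) : (S.ob H A).St := ⟨A, _, ob_add A A⟩

theorem st_zero (A : C) : (cl (S := S) (H := H) (0 : A ⟶ A) .zero (by simp)).St :=
  ⟨A, A, by
    rw [ob, cl_add]
    exact cl_eq.2 (Eqv.mk' (by simp) (by simp) (x := S.snd A A) (y := S.inr A A)
      (sup_snd H.one_mem) (sup_inr H.one_mem) (by apply S.hom_ext <;> simp) (by simp))⟩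

theorem K0.St.stO {e : A ⟶ A} {h : S.Sup H e} {he : e ≫ e = e} (hs : (cl e h he).St) :
    S.StO H e := by
  obtain ⟨D, E, h⟩ := hs
  rw [ob, ob, cl_add] at h
  obtain ⟨x, y, h1, h2, h3, h4, -, -⟩ := cl_eq.1 h
  exact ⟨D, E, x, y, h1, h2, h3, h4⟩

theorem StO.mono {H' : Subgroup G} {e : A ⟶ A} (h : S.StO H e) (hH : H ≤ H') : S.StO H' e := by
  obtain ⟨D, E, x, y, h1, h2, h3, h4⟩ := h
  exact ⟨D, E, x, y, h1.mono hH, h2.mono hH, h3, h4⟩

variable (S) (Z : Zg G)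

/-- A central natural automorphism of the identity of integer degree `k`. -/
structure Cz (k : ℤ) where
  φ : ∀ A : C, A ⟶ A
  ψ : ∀ A : C, A ⟶ A
  φ1 : ∀ A, S.Ge Z k (φ A)
  φ2 : ∀ A, S.Le Z k (φ A)
  ψ1 : ∀ A, S.Ge Z (-k) (ψ A)
  ψ2 : ∀ A, S.Le Z (-k) (ψ A)
  φψ : ∀ A, φ A ≫ ψ A = 𝟙 A
  ψφ : ∀ A, ψ A ≫ φ A = 𝟙 A
  nφ : ∀ {A B : C} (f : A ⟶ B), φ A ≫ f = f ≫ φ B
  nψ : ∀ {A B : C} (f : A ⟶ B), ψ A ≫ f = f ≫ ψ B

/-- A presentation of the cokernel of `u` on the part of degree at least `-N`. -/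
structure Pres (N : ℤ) (u : A ⟶ B) (ε : V ⟶ V) (j : V ⟶ B) : Prop where
  sup : S.Sup Z.K ε
  idem : ε ≫ ε = ε
  εj : ε ≫ j = j
  gj : S.Ge Z (-N) j
  gu : S.Ge Z (-N) u
  surj : ∀ {X : C} (c : X ⟶ B), S.Ge Z (-N) c → ∃ (a : X ⟶ V) (b : X ⟶ A),
    S.Sup Z.K a ∧ a ≫ ε = a ∧ S.Ge Z 0 b ∧ c = a ≫ j + b ≫ u
  inj : ∀ {X : C} (a : X ⟶ V) (b : X ⟶ A), S.Sup Z.K a → a ≫ ε = a → S.Ge Z 0 b →
    a ≫ j + b ≫ u = 0 → a = 0 ∧ b = 0

/-- The index of `u` is stably an object. -/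
def Ind (u : A ⟶ B) : Prop :=
  ∃ (N : ℕ) (V : C) (ε : V ⟶ V) (j : V ⟶ B) (h : S.Pres Z N u ε j), (cl ε h.sup h.idem).St

variable {S Z}

theorem Cz.pow (c : S.Cz Z 1) (n : ℕ) : Nonempty (S.Cz Z n) := by
  induction n with
  | zero =>
    exact ⟨⟨fun A => 𝟙 A, fun A => 𝟙 A, fun _ => ge_id, fun _ => le_id, fun _ => ge_id,
      fun _ => le_id, by simp, by simp, by simp, by simp⟩⟩
  | succ n ih =>
    obtain ⟨d⟩ := ih
    refine ⟨⟨fun A => c.φ A ≫ d.φ A, fun A => d.ψ A ≫ c.ψ A,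
      fun A => (c.φ1 A).comp (d.φ1 A) (by push_cast; omega),
      fun A => (c.φ2 A).comp (d.φ2 A) (by push_cast; omega),
      fun A => (d.ψ1 A).comp (c.ψ1 A) (by push_cast; omega),
      fun A => (d.ψ2 A).comp (c.ψ2 A) (by push_cast; omega), fun A => ?_, fun A => ?_,
      fun f => ?_, fun f => ?_⟩⟩
    · simp [reassoc_of% d.φψ, c.φψ]
    · simp [reassoc_of% c.ψφ, d.ψφ]
    · rw [Category.assoc, d.nφ, reassoc_of% c.nφ]
    · rw [Category.assoc, c.nψ, reassoc_of% d.nψ]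

theorem Pres.comp {N N' : ℤ} (c : S.Cz Z N) {u : A ⟶ B} {u' : B ⟶ D} {ε : V ⟶ V} {j : V ⟶ B}
    {ε' : V' ⟶ V'} {j' : V' ⟶ D} (h : S.Pres Z N u ε j) (h' : S.Pres Z N' u' ε' j') :
    S.Pres Z (N + N') (u ≫ u') (S.blk ε 0 0 ε')
      (S.fst V V' ≫ j ≫ u' + S.snd V V' ≫ c.ψ V' ≫ j') where
  sup := .blk h.sup .zero .zero h'.sup
  idem := by simp [h.idem, h'.idem]
  εj := by
    apply S.hom_ext
    · simp [reassoc_of% h.εj]
    · simp [c.nψ, reassoc_of% h'.εj]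
  gj := Sup.add (.one_comp (S.cp_fst _ _) (h.gj.comp h'.gu (by omega)))
    (.one_comp (S.cp_snd _ _) ((c.ψ1 _).comp h'.gj (by omega)))
  gu := h.gu.comp h'.gu (by omega)
  surj := by
    intro X f hf
    obtain ⟨a', b', h1, h2, h3, h4⟩ := h'.surj (c.φ X ≫ f) ((c.φ1 X).comp hf (by omega))
    obtain ⟨a, b, k1, k2, k3, k4⟩ := h.surj (c.ψ X ≫ b') ((c.ψ1 X).comp h3 (by omega))
    refine ⟨a ≫ S.inl V V' + a' ≫ S.inr V V', b,
      (k1.comp_one (S.cp_inl _ _)).add (h1.comp_one (S.cp_inr _ _)),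
      by simp [reassoc_of% k2, reassoc_of% h2], k3, ?_⟩
    have := congrArg (c.ψ X ≫ ·) h4
    simp only [reassoc_of% c.ψφ, Preadditive.comp_add, reassoc_of% k4] at this
    rw [this, reassoc_of% c.nψ a']
    simp
    abel
  inj := by
    intro X a b h1 h2 h3 h4
    have a1 : (a ≫ S.fst V V') ≫ ε = a ≫ S.fst V V' := by
      conv_rhs => rw [← h2]
      simp
    have a2 : (a ≫ S.snd V V') ≫ ε' = a ≫ S.snd V V' := by
      conv_rhs => rw [← h2]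
      simp
    have s1 := h1.comp_one (S.cp_fst V V')
    obtain ⟨b1, b2⟩ := h'.inj (a ≫ S.snd V V') (c.φ X ≫ ((a ≫ S.fst V V') ≫ j + b ≫ u))
      (h1.comp_one (S.cp_snd _ _)) a2 ((c.φ1 X).comp (l := -N)
        (Sup.add (s1.ge0.comp h.gj (by omega)) (h3.comp h.gu (by omega))) (by omega)) (by
      have := congrArg (c.φ X ≫ ·) h4
      simp only [Preadditive.comp_add, Limits.comp_zero] at this
      rw [reassoc_of% c.nφ a, reassoc_of% c.nφ (S.fst V V'), reassoc_of% c.nφ a,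
        reassoc_of% c.nφ (S.snd V V'), reassoc_of% c.φψ] at this
      rw [← this]
      simp only [Preadditive.comp_add, Preadditive.add_comp, Category.assoc]
      rw [reassoc_of% c.nφ a, reassoc_of% c.nφ (S.fst V V')]
      abel)
    have b3 := congrArg (c.ψ X ≫ ·) b2
    simp only [reassoc_of% c.ψφ, Limits.comp_zero] at b3
    obtain ⟨b4, b5⟩ := h.inj _ _ s1 a1 h3 b3
    exact ⟨S.hom_ext' (by simpa using b4) (by simpa using b1), b5⟩

theorem Pres.uniq {N : ℤ} {u : A ⟶ B} {ε : V ⟶ V} {j : V ⟶ B} {ε' : V' ⟶ V'} {j' : V' ⟶ B}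
    (h : S.Pres Z N u ε j) (h' : S.Pres Z N u ε' j') :
    cl ε h.sup h.idem = cl ε' h'.sup h'.idem := by
  obtain ⟨a, b, h1, h2, h3, h4⟩ := h'.surj j h.gj
  obtain ⟨a', b', k1, k2, k3, k4⟩ := h.surj j' h'.gj
  refine cl_eq.2 (Eqv.mk' h.idem h'.idem h1 k1 ?_ ?_)
  · refine sub_eq_zero.1 (h.inj (a ≫ a' - ε) (a ≫ b' + b) ((h1.scomp k1).sub h.sup)
      (by simp [k2, h.idem]) (Sup.add (h1.ge0.comp k3 (by omega)) h3) ?_).1
    have := h4
    rw [k4] at this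
    simp only [Preadditive.sub_comp, Preadditive.add_comp, Category.assoc, h.εj,
      Preadditive.comp_add] at this ⊢
    linear_combination (norm := abel) -this
  · refine sub_eq_zero.1 (h'.inj (a' ≫ a - ε') (a' ≫ b + b') ((k1.scomp h1).sub h'.sup)
      (by simp [h2, h'.idem]) (Sup.add (k1.ge0.comp h3 (by omega)) k3) ?_).1
    have := k4
    rw [h4] at this
    simp only [Preadditive.sub_comp, Preadditive.add_comp, Category.assoc, h'.εj,
      Preadditive.comp_add] at this ⊢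
    linear_combination (norm := abel) -this

theorem pres_pos {N : ℤ} {u : A ⟶ B} {v : B ⟶ A} (hu : S.Ge Z (-N) u) (hv : S.Ge Z N v)
    (h1 : u ≫ v = 𝟙 A) (h2 : v ≫ u = 𝟙 B) : S.Pres Z N u (0 : A ⟶ A) 0 where
  sup := .zero
  idem := by simp
  εj := by simp
  gj := Sup.zero
  gu := hu
  surj c hc := ⟨0, c ≫ v, .zero, by simp, hc.comp hv (by omega), by simp [h2]⟩
  inj a b _ h3 _ h4 := ⟨by simpa using h3.symm, by
    simpa [h1] using congrArg (· ≫ v) h4⟩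

theorem ind_pos {N : ℕ} {u : A ⟶ B} {v : B ⟶ A} (hu : S.Ge Z (-N) u) (hv : S.Ge Z N v)
    (h1 : u ≫ v = 𝟙 A) (h2 : v ≫ u = 𝟙 B) : S.Ind Z u :=
  ⟨N, A, 0, 0, pres_pos hu hv h1 h2, st_zero A⟩

theorem pres_one (c : S.Cz Z 1) (B : C) : S.Pres Z 1 (𝟙 B) (𝟙 B) (c.ψ B) where
  sup := .id Z.K.one_mem
  idem := by simp
  εj := by simp
  gj := c.ψ1 B
  gu := ge_id.mono (by omega)
  surj f hf := ⟨S.lo Z (-1) f ≫ c.φ B, f - S.lo Z (-1) f,
    ((hf.lo _).comp (c.φ1 B) (by omega)).deg ((le_lo hf.sup _).comp (c.φ2 B) (by omega)),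
    by simp, ge_hi hf.sup _ (by omega), by simp [c.φψ]⟩
  inj a b h1 _ h3 h4 := by
    have e : b = -(a ≫ c.ψ B) := eq_neg_of_add_eq_zero_right (by simpa using h4)
    have hb : b = 0 :=
      h3.eq_zero (l := -1) (e ▸ Sup.neg (h1.le0.comp (c.ψ2 B) (by omega))) (by omega)
    refine ⟨?_, hb⟩
    simpa [hb, c.ψφ] using congrArg (· ≫ c.φ B) h4

theorem pres_id (c : S.Cz Z 1) (B : C) (N : ℕ) :
    ∃ (V : C) (ε : V ⟶ V) (j : V ⟶ B) (h : S.Pres Z N (𝟙 B) ε j),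
      S.Le Z (-1) j ∧ (cl ε h.sup h.idem).St := by
  induction N with
  | zero => exact ⟨B, 0, 0, pres_pos (v := 𝟙 B) ge_id ge_id (by simp) (by simp), Sup.zero, st_zero B⟩
  | succ N ih =>
    obtain ⟨V, ε, j, h, h1, h2⟩ := ih
    obtain ⟨d⟩ := c.pow N
    have := h.comp d (pres_one c B)
    rw [Category.id_comp] at this
    exact ⟨_, _, _, by exact_mod_cast this,
      Sup.add (.one_comp (S.cp_fst _ _) (by rw [Category.comp_id]; exact h1))
        (.one_comp (S.cp_snd _ _) ((d.ψ2 B).comp (c.ψ2 B) (by omega))), h2.add (st_ob B)⟩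

theorem ind_neg (c : S.Cz Z 1) {u : A ⟶ B} {v : B ⟶ A} (hu : S.Le Z 0 u) (hv : S.Le Z 0 v)
    (h1 : u ≫ v = 𝟙 A) (h2 : v ≫ u = 𝟙 B) : S.Ind Z u := by
  obtain ⟨N, hN, -⟩ := bounded hu.sup
  obtain ⟨V, ε, j, h, hj, hs⟩ := pres_id c B N
  refine ⟨N, V, ε, j, ⟨h.sup, h.idem, h.εj, h.gj, hN, ?_, ?_⟩, hs⟩
  · intro X f hf
    have s : S.Sup Z.Γ (f ≫ v) := hf.sup.scomp hv.sup
    set p := S.lo Z (-1) (f ≫ v)
    have g1 : S.Ge Z 0 (f ≫ v - p) := ge_hi s _ (by omega)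
    have e : p ≫ u = f - (f ≫ v - p) ≫ u := by simp [h2]
    obtain ⟨a, b, k1, k2, k3, k4⟩ := h.surj (p ≫ u)
      (e ▸ Sup.sub hf (g1.comp hN (by omega)))
    have hb : b = 0 := by
      refine k3.eq_zero (l := -1) ?_ (by omega)
      have : b = p ≫ u - a ≫ j := by simp [k4]
      rw [this]
      exact Sup.sub ((le_lo s _).comp hu (by omega)) (k1.le0.comp hj (by omega))
    refine ⟨a, _, k1, k2, g1, ?_⟩
    rw [hb] at k4
    simp [h2, k4]
  · intro X a b k1 k2 k3 k4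
    have hb : b = 0 := by
      refine k3.eq_zero (l := -1) ?_ (by omega)
      have : b = -((a ≫ j) ≫ v) := by
        apply eq_neg_of_add_eq_zero_right
        simpa [h1] using congrArg (· ≫ v) k4
      rw [this]
      exact Sup.neg ((k1.le0.comp hj (m := -1) (by omega)).comp hv (by omega))
    exact ⟨(h.inj a 0 k1 k2 Sup.zero (by simpa [hb] using k4)).1, hb⟩

theorem Ind.comp (c : S.Cz Z 1) {u : A ⟶ B} {u' : B ⟶ D} (h : S.Ind Z u) (h' : S.Ind Z u') :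
    S.Ind Z (u ≫ u') := by
  obtain ⟨N, V, ε, j, h, hs⟩ := h
  obtain ⟨N', V', ε', j', h', hs'⟩ := h'
  obtain ⟨d⟩ := c.pow N
  exact ⟨N + N', _, _, _, by exact_mod_cast h.comp d h', hs.add hs'⟩

theorem ind_phi (c : S.Cz Z 1) {n : ℕ} (d : S.Cz Z n) (B D : C) :
    S.Ind Z (S.blk (d.φ B) 0 0 (𝟙 D)) := by
  obtain ⟨V, ε, j, h, -, hs⟩ := pres_id c B n
  refine ⟨0, V, ε, j ≫ d.φ B ≫ S.inl B D, ⟨h.sup, h.idem, by rw [reassoc_of% h.εj],
    h.gj.comp (l := n) (Sup.comp_one (d.φ1 B) (S.cp_inl _ _)) (by omega),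
    Sup.blk ((d.φ1 B).mono (by omega)) .zero .zero ge_id, ?_, ?_⟩, hs⟩
  · intro X f hf
    obtain ⟨a, b, k1, k2, k3, k4⟩ := h.surj ((f ≫ S.fst B D) ≫ d.ψ B)
      (Ge.comp (k := 0) (Sup.comp_one hf (S.cp_fst _ _)) (d.ψ1 B) (by omega))
    refine ⟨a, b ≫ S.inl B D + (f ≫ S.snd B D) ≫ S.inr B D, k1, k2,
      Sup.add (Sup.comp_one k3 (S.cp_inl _ _))
        (Sup.comp_one (Sup.comp_one hf (S.cp_snd B D)) (S.cp_inr B D)), ?_⟩
    apply S.hom_ext'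
    · simpa [d.ψφ] using congrArg (· ≫ d.φ B) k4
    · simp
  · intro X a b k1 k2 k3 k4
    obtain ⟨e1, e2⟩ := h.inj a (b ≫ S.fst B D) k1 k2 (Sup.comp_one k3 (S.cp_fst _ _)) (by
      simpa [d.φψ] using congrArg (· ≫ S.fst B D ≫ d.ψ B) k4)
    exact ⟨e1, S.hom_ext' (by simpa using e2) (by simpa using congrArg (· ≫ S.snd B D) k4)⟩

theorem ind_one {f : A ⟶ B} (h : S.HIso 1 f) : S.Ind Z f := by
  obtain ⟨h1, f', h2, h3, h4⟩ := h
  exact ind_pos (N := 0) (h1.ge1 Z.Γ.one_mem (by simp [Z.one]))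
    (h2.ge1 (by simp) (by simp [Z.one])) h3 h4

theorem Tr0.ind (c : S.Cz Z 1) {f : A ⟶ B} (h : S.Tr0 Z.Γ f) : S.Ind Z f := by
  induction h with
  | one h => exact ind_one h
  | @hom A B D g f hg h =>
    obtain ⟨h1, f', h2, h3, h4⟩ := h
    have hi := Z.inv hg
    have hg' := Z.Γ.inv_mem hg
    obtain ⟨n, hn | hn⟩ := (Z.χ g).eq_nat_or_neg
    · obtain ⟨d⟩ := c.pow n
      have : S.blk f 0 0 (𝟙 D) = S.blk (f ≫ d.ψ B) 0 0 (𝟙 D) ≫ S.blk (d.φ B) 0 0 (𝟙 D) := by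
        simp [d.ψφ]
      rw [this]
      exact (ind_pos (N := 0) (v := S.blk (d.φ B ≫ f') 0 0 (𝟙 D))
        (Sup.blk ((h1.ge1 hg hn.ge).comp (d.ψ1 B) (by omega)) .zero .zero ge_id)
        (Sup.blk ((d.φ1 B).comp (h2.ge1 (k := -n) hg' (by omega)) (by omega)) .zero .zero ge_id)
        (by simp [reassoc_of% d.ψφ, h3]) (by simp [reassoc_of% h4, d.φψ])).comp c
        (ind_phi c d B D)
    · obtain ⟨d⟩ := c.pow n
      have : S.blk f 0 0 (𝟙 D) = S.blk f 0 0 (d.ψ D) ≫ S.flip B D ≫ S.blk (d.φ D) 0 0 (𝟙 B) ≫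
          S.flip D B := by
        simp [d.ψφ, flip]
      rw [this]
      exact (ind_pos (N := n) (v := S.blk f' 0 0 (d.φ D))
        (Sup.blk (h1.ge1 hg hn.ge) .zero .zero (d.ψ1 D))
        (Sup.blk (h2.ge1 hg' (by omega)) .zero .zero (d.φ1 D))
        (by simp [d.ψφ, h3]) (by simp [h4, d.φψ])).comp c
        ((ind_one (S.hiso_flip _ _)).comp c ((ind_phi c d D B).comp c
          (ind_one (S.hiso_flip _ _))))
  | @upper A B x h =>
    have : S.blk (𝟙 A) x 0 (𝟙 B) = S.blk (𝟙 A) (S.lo Z (-1) x) 0 (𝟙 B) ≫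
        S.blk (𝟙 A) (x - S.lo Z (-1) x) 0 (𝟙 B) := by simp
    rw [this]
    have l1 : S.Le Z 0 (S.lo Z (-1) x) := (le_lo h _).mono (by omega)
    have l2 : S.Ge Z 0 (x - S.lo Z (-1) x) := ge_hi h _ (by omega)
    exact (ind_neg c (v := S.blk (𝟙 A) (-S.lo Z (-1) x) 0 (𝟙 B)) (Sup.blk le_id l1 .zero le_id)
      (Sup.blk le_id (Sup.neg l1) .zero le_id) (by simp) (by simp)).comp c
      (ind_pos (N := 0) (v := S.blk (𝟙 A) (-(x - S.lo Z (-1) x)) 0 (𝟙 B))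
        (Sup.blk ge_id l2 .zero ge_id) (Sup.blk ge_id (Sup.neg l2) .zero ge_id) (by simp)
        (by simp))
  | comp _ _ h1 h2 => exact h1.comp c h2

/-- The boundary theorem. -/
theorem boundary (c : S.Cz Z 1) (hW : S.W Z.Γ) : S.SFI Z.K := by
  intro A e h he
  have hK := Z.K.one_mem
  have hf : S.Sup Z.K (𝟙 A - e) := (Sup.id hK).sub h
  have g1 : S.Ge Z 0 (e ≫ c.φ A + (𝟙 A - e)) :=
    Sup.add (h.ge0.comp (c.φ1 A) (by omega)) hf.ge0
  have e1 : (e ≫ c.φ A + (𝟙 A - e)) ≫ (e ≫ c.ψ A + (𝟙 A - e)) = 𝟙 A := by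
    simp [reassoc_of% c.nφ e, c.nφ e, reassoc_of% he, he, c.φψ]
  obtain ⟨D, hT⟩ := hW _ _ (e ≫ c.φ A + (𝟙 A - e)) ⟨g1.sup, e ≫ c.ψ A + (𝟙 A - e),
    Sup.add ((h.mono Z.K_le).scomp (c.ψ1 A).sup) (hf.mono Z.K_le), e1,
    by simp [reassoc_of% c.nψ e, c.nψ e, reassoc_of% he, he, c.ψφ]⟩
  obtain ⟨N, V, ε, j, hp, hs⟩ := hT.ind c
  have p0 : S.Pres Z (0 : ℕ) (S.blk (e ≫ c.φ A + (𝟙 A - e)) 0 0 (𝟙 D)) e (e ≫ S.inl A D) := by
    refine ⟨h, he, by rw [reassoc_of% he], Sup.comp_one h.ge0 (S.cp_inl _ _),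
      Sup.blk g1 .zero .zero ge_id, ?_, ?_⟩
    · intro X f hf'
      have s1 : S.Ge Z 0 (f ≫ S.fst A D) := Sup.comp_one hf' (S.cp_fst _ _)
      set p := S.lo Z 0 (f ≫ S.fst A D)
      have s2 : S.Ge Z 1 (f ≫ S.fst A D - p) := ge_hi s1.sup _ (by omega)
      refine ⟨p ≫ e, ((f ≫ S.fst A D - p) ≫ e ≫ c.ψ A + (f ≫ S.fst A D) ≫ (𝟙 A - e)) ≫ S.inl A D
        + (f ≫ S.snd A D) ≫ S.inr A D, Sup.scomp ((s1.lo 0).deg (le_lo s1.sup 0)) h,
        by simp [he], Sup.add (Sup.comp_one (Sup.add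
          (s2.comp (h.ge0.comp (c.ψ1 A) (m := -1) (by omega)) (by omega))
          (s1.comp hf.ge0 (by omega))) (S.cp_inl _ _))
          (Sup.comp_one (Sup.comp_one hf' (S.cp_snd _ _)) (S.cp_inr _ _)), ?_⟩
      apply S.hom_ext'
      · simp [reassoc_of% c.nψ e, reassoc_of% he, c.ψφ]
      · simp
    · intro X a b k1 k2 k3 k4
      have s1 : S.Ge Z 0 (b ≫ S.fst A D) := Sup.comp_one k3 (S.cp_fst _ _)
      have q1 : a + (b ≫ S.fst A D) ≫ (e ≫ c.φ A + (𝟙 A - e)) = 0 := by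
        simpa [k2, reassoc_of% k2] using congrArg (· ≫ S.fst A D) k4
      have q2 : a = -((b ≫ S.fst A D) ≫ e ≫ c.φ A) := by
        apply eq_neg_of_add_eq_zero_left
        simpa [k2, c.nφ e, reassoc_of% he, he] using congrArg (· ≫ e) q1
      have ha : a = 0 := Ge.eq_zero (k := 1)
        (q2 ▸ Sup.neg (s1.comp (h.ge0.comp (c.φ1 A) (m := 1) (by omega)) (by omega))) k1.le0
        (by omega)
      refine ⟨ha, S.hom_ext' ?_ (by simpa using congrArg (· ≫ S.snd A D) k4)⟩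
      rw [ha, zero_add] at q1
      have := congrArg (· ≫ (e ≫ c.ψ A + (𝟙 A - e))) q1
      simpa only [Category.assoc, e1, Category.comp_id, Limits.zero_comp] using this
  obtain ⟨V', ε', j', hp', -, hs'⟩ := pres_id c (S.sum A D) N
  obtain ⟨d⟩ := c.pow 0
  have p1 := p0.comp d hp'
  simp only [Nat.cast_zero, zero_add, Category.comp_id] at p1
  have := p1.uniq hp
  refine K0.St.stO (h := h) (he := he) (K0.St.cancel ?_ hs')
  rw [cl_add, this]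
  exact hs

end GC

end Pool.Agent.Lib.MP_5d3e93_al
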