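import Pool.Agent.Lib.MP_5d3e93_al.DefsP

/-! Linear groups that span a finite dimensional space over a finite field are finite. -/

namespace Pool.Agent.Lib.MP_5d3e93_al.Dl

universe w v u

theorem locHyper_of_finite (D : Type w) [Group D] [Finite D] : LocHyper D :=
  fun H _ M _ h => ⟨⊤, inferInstance, by
    have : Nontrivial (H ⧸ M) := QuotientGroup.nontrivial_iff.2 h
    exact top_ne_bot, fun L _ _ => ⟨0, (inferInstance : Finite L)⟩⟩

variable {k : Type u} {K : Type v} [Field k] [Field K] [Algebra k K] {n : Type} [Fintype n]
variable [DecidableEq n] {G : Type w} [Group G]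

theorem finite_of_span [Finite k] (φ : G →* GL n K) (hφ : Function.Injective φ) (N : Subgroup G)
    (h : Module.Finite k (Submodule.span k ((fun g => (φ g : Matrix n n K)) '' N))) :
    Finite N := by
  have := Module.finite_of_finite k
    (M := Submodule.span k ((fun g => (φ g : Matrix n n K)) '' N))
  exact Finite.of_injective (fun g : N => (⟨φ g, Submodule.subset_span ⟨g, g.2, rfl⟩⟩ :
    Submodule.span k ((fun g => (φ g : Matrix n n K)) '' N)))
    fun a b e => Subtype.ext (hφ (Units.ext (congrArg Subtype.val e)))

/-- In positive characteristic the hypothesis on bounded subgroups holds for every linear group. -/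
theorem exists_prime_field (p : ℕ) [Fact p.Prime] [CharP K p] (φ : G →* GL n K)
    (hφ : Function.Injective φ) : ∃ _ : Algebra (ZMod p) K, ∀ N : Subgroup G,
      Module.Finite (ZMod p) (Submodule.span (ZMod p) ((fun g => (φ g : Matrix n n K)) '' N)) →
        LocHyper N :=
  ⟨ZMod.algebra K p, fun N h => by
    let _ := ZMod.algebra K p
    have := finite_of_span φ hφ N h
    exact locHyper_of_finite N⟩

end Pool.Agent.Lib.MP_5d3e93_al.Dl
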