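import Pool.Agent.Lib.MP_5d3e93_al.PrS

/-! Forgetting locations; categories all of whose morphisms are monotone. -/

open CategoryTheory Limits
open scoped Pointwise

namespace Pool.Agent.Lib.MP_5d3e93_al

universe w w' w'' v u

variable {G : Type w} [Group G] {C : Type u} [Category.{v} C] [Preadditive C]
variable {Z : Type w'} [Preorder Z] [MulAction G Z] {Y : Type w''} [Preorder Y] [MulAction G Y]

open Tw

section Fgt

variable {σ : Act G C} {hm : ∀ (g : G) (x y : Z), x ≤ y → g • x ≤ g • y}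
variable {H : Type w} [Group H] {φ : H →* G} {A B D : Tw ((Lc.act σ hm).comap φ)}

/-- Forgetting the locations, on morphisms. -/
noncomputable def fgm : (A ⟶ B) →+ ((⟨A.as.A⟩ : Tw (σ.comap φ)) ⟶ ⟨B.as.A⟩) :=
  DFinsupp.mapRange.addMonoidHom (β₁ := fun g => A.as ⟶ (((Lc.act σ hm).comap φ).F g).obj B.as)
    fun g => (Lc.Mn A.as ((((Lc.act σ hm).comap φ).F g).obj B.as)).subtype

theorem fgm_sg (g : H) (a : A.as ⟶ (((Lc.act σ hm).comap φ).F g).obj B.as) :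
    fgm (Tw.sg g a) = Tw.sg (ρ := σ.comap φ) (A := ⟨A.as.A⟩) (B := ⟨B.as.A⟩) g a.1 := by
  classical
  exact DFinsupp.mapRange_single (hf := fun _ => map_zero _)

variable (σ hm φ) in
/-- Forgetting the locations. -/
noncomputable def fgt : Tw ((Lc.act σ hm).comap φ) ⥤ Tw (σ.comap φ) where
  obj A := ⟨A.as.A⟩
  map := fgm
  map_id A := by
    rw [one_def, fgm_sg, one_def, Lc.eqToHom_val]
    rfl
  map_comp f g := by
    induction f using ind' with
    | h0 => simp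
    | h1 a b c d => simp [c, d]
    | h2 x a =>
      induction g using ind' with
      | h0 => simp
      | h1 a b c d => simp [c, d]
      | h2 y b =>
        rw [sg_comp, fgm_sg, fgm_sg, fgm_sg]
        refine .trans (congrArg _ ?_) (sg_comp ..).symm
        simp only [Tw.cmp, Lc.comp_val, Lc.eqToHom_val]
        rfl

instance : (fgt σ hm φ).Additive := ⟨map_add fgm _ _⟩

theorem fgt_zero {f : A ⟶ B} (h : (fgt σ hm φ).map f = 0) : f = 0 :=
  co_ext fun g => Lc.ext (congrArg (co g) h)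

variable [HasBinaryBiproducts C] [HasZeroObject C]

theorem fgt_lift (z : Z) {Ω : Set H} (hΩ : ∀ g ∈ Ω, z ≤ φ g • z) {A : C}
    {x : (⟨A⟩ : Tw (σ.comap φ)) ⟶ ⟨A⟩} (hx : (twGC (σ.comap φ)).Sup Ω x) :
    ∃ y : (⟨⟨A, .pt z A⟩⟩ : Tw ((Lc.act σ hm).comap φ)) ⟶ ⟨⟨A, .pt z A⟩⟩,
      (fgt σ hm φ).map y = x := by
  classical
  refine hx.induction (P := fun x => ∃ y : (⟨⟨A, .pt z A⟩⟩ : Tw ((Lc.act σ hm).comap φ)) ⟶
    ⟨⟨A, .pt z A⟩⟩, (fgt σ hm φ).map y = x) ⟨0, Functor.map_zero ..⟩ ?_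
      fun g k => ⟨Tw.sg g ⟨co g x, fun a b c => ?_⟩, fgm_sg ..⟩
  · rintro _ _ ⟨a, rfl⟩ ⟨b, rfl⟩
    exact ⟨a + b, Functor.map_add _⟩
  · have := σ.additive (φ g)
    change (if a = z then _ else _) ≫ _ ≫ (σ.F (φ g)).map (if (φ g)⁻¹ • b = z then _ else _) = 0
    split_ifs with d d'
    · exact (c (by rw [d, ← smul_inv_smul (φ g) b, d']; exact hΩ g k)).elim
    · exact ((congrArg (fun k => _ ≫ _ ≫ k) ((σ.F (φ g)).map_zero _ _)).trans
        ((congrArg (_ ≫ ·) comp_zero).trans comp_zero))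
    all_goals exact zero_comp

theorem gd_loc (z : Z) {Γ : Type w} [Group Γ] {ρ : Act Γ C} (j : G →* Γ) {Ω : Set (G × Zi)}
    (hj : ∀ n : ℕ, Set.InjOn (j.prodMap (.id Zi)) (Ω ^ n)) (hΩ : ∀ g ∈ Ω, z ≤ g.1 • z)
    (hK : K1Zero (TwZ (Lc.act (ρ.comap j) hm))) :
    (SZ ρ).Gd (SZ ρ).nt (j.prodMap (.id Zi) '' Ω) := by
  refine gd_lift (ρ := ρ.comap (.fst Γ Zi)) hj fun A x hx ⟨m, e⟩ => ?_
  obtain ⟨y, rfl⟩ := fgt_lift (σ := ρ.comap j) (hm := hm) (φ := .fst G Zi) z hΩ (A := A.as) hx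
  have e' : pw y m = 0 := fgt_zero ((map_pw ..).trans e)
  let Φ : _ ⥤ Tw ((ρ.comap (.fst Γ Zi)).comap (j.prodMap (.id Zi))) :=
    fgt (ρ.comap j) hm (.fst G Zi)
  have : Φ.Additive := ⟨map_add fgm _ _⟩
  have := GC.k1_push (S := SZ ρ) (Φ ⋙ pushF (j.prodMap (.id Zi))) hK ⟨𝟙 _ - y, _,
      by rw [geom_left y m, e', sub_zero], by rw [geom_right y m, e', sub_zero]⟩
  change (SZ ρ).Tr ⊤ ((pushF (j.prodMap (.id Zi))).map (Φ.map (𝟙 _ - y))) at this
  rw [Φ.map_sub, Φ.map_id] at this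
  exact this

theorem k1_loc (hs : Sw σ) (z : Z) (hz : ∀ g : G, z ≤ g • z) (hK : K1Zero (TwZ (Lc.act σ hm))) :
    K1Zero (TwZ σ) := by
  refine K1_of_W' hs.k0 (Subgroup.subtype_injective ⊥) (hs.av (⊥ : Subgroup G) 1 inferInstance _)
    ((ok hs.k0).W ?_)
  rintro A u ⟨-, v, -, e, e'⟩
  obtain ⟨x, rfl⟩ := fgt_lift (hm := hm) (φ := .fst G Zi) z (fun g _ => hz g.1) (A := A.as)
    ((SZ σ).sup_top u)
  obtain ⟨y, rfl⟩ := fgt_lift (hm := hm) (φ := .fst G Zi) z (fun g _ => hz g.1) (A := A.as)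
    ((SZ σ).sup_top v)
  have k {a b : (⟨⟨A.as, .pt z A.as⟩⟩ : TwZ (Lc.act σ hm)) ⟶ ⟨⟨A.as, .pt z A.as⟩⟩}
      (h : (fgt σ hm _).map a ≫ (fgt σ hm _).map b = 𝟙 _) : a ≫ b = 𝟙 _ :=
    sub_eq_zero.1 (fgt_zero (by
      rw [Functor.map_sub, Functor.map_comp, h, CategoryTheory.Functor.map_id, sub_self]))
  exact GC.k1_push (fgt σ hm (.fst G Zi)) hK ⟨x, y, k e, k e'⟩

end Fgt

variable (Y) in
/-- All objects are located on `Y` and all twisted morphisms are monotone. -/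
def Lcd (σ : Act G C) : Prop := ∃ L : ∀ A : C, Ld Y A, ∀ g A B (f : A ⟶ (σ.F g).obj B) x y,
  ¬ x ≤ g • y → (L A).e x ≫ f ≫ (σ.F g).map ((L B).e y) = 0

variable {σ : Act G C}

theorem Lcd.comap (h : Lcd Y σ) {Γ : Type w} [Group Γ] [MulAction Γ Y] (j : Γ →* G)
    (hj : ∀ (g : Γ) (y : Y), g • y = j g • y) : Lcd Y (σ.comap j) :=
  h.imp fun _ a g A B f x y k => a (j g) A B f x y (hj g y ▸ k)

theorem lcd_unit [HasZeroObject C] [Subsingleton Y] (y : Y) : Lcd Y σ :=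
  ⟨.pt y, fun _ _ _ _ _ _ k => (k (Subsingleton.elim _ _).le).elim⟩

theorem Lcd.act [HasZeroObject C] (h : Lcd Y σ)
    (hm : ∀ (g : G) (x y : Z), x ≤ y → g • x ≤ g • y) : Lcd (Y × Z) (Lc.act σ hm) := by
  classical
  obtain ⟨L, hL⟩ := h
  choose B i r a b using fun (X : Lc Z C) z => X.d.spl z
  have c1 (X z) : i X z ≫ X.d.e z = i X z := by rw [← b, reassoc_of% a]
  have c2 (X z) : X.d.e z ≫ r X z = r X z := by rw [← b, Category.assoc, a, Category.comp_id]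
  have c3 (X z z') (k : z ≠ z') : i X z ≫ X.d.e z' = 0 := by
    rw [← c1, Category.assoc, X.d.orth _ _ k, comp_zero]
  have c4 (X z z') (k : z' ≠ z) : X.d.e z' ≫ r X z = 0 := by
    rw [← c2, reassoc_of% X.d.orth _ _ k, zero_comp]
  have c5 (X z z') (k : z ≠ z') : i X z ≫ r X z' = 0 := by rw [← c2, reassoc_of% c3 X z z' k, zero_comp]
  refine ⟨fun X => ⟨fun p => ⟨r X p.2 ≫ (L _).e p.1 ≫ i X p.2, Lc.mn_diag fun z => ?_⟩, ?_,
    fun p => ?_, fun p q k => Lc.ext ?_⟩, fun g X X' f p q k => Lc.ext ?_⟩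
  · by_cases k : z = p.2
    · simp [k, c1, reassoc_of% c2]
    · simp [c3 X _ _ (Ne.symm k), reassoc_of% c4 X _ _ k]
  · obtain ⟨s, d, e⟩ := X.d.fin
    choose t t1 t2 using fun z => (L (B X z)).fin
    refine ⟨s.biUnion t ×ˢ s, fun p k => Lc.ext ?_, Lc.ext ?_⟩
    · by_cases l : p.2 ∈ s
      · simp [t1 p.2 p.1 fun m => k (Finset.mem_product.2 ⟨Finset.mem_biUnion.2 ⟨_, l, m⟩, l⟩)]
      · have : r X p.2 = 0 := by rw [← c2, d _ l, zero_comp]
        simp [this]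
    · refine (map_sum (Lc.Mn X X).subtype ..).trans ?_
      rw [Finset.sum_product_right]
      refine (Finset.sum_congr rfl fun z l => ?_).trans e
      rw [← b, ← Category.id_comp (i X z), ← t2, Finset.sum_subset (Finset.subset_biUnion_of_mem t l)
        fun x _ m => t1 z x m, Preadditive.sum_comp, Preadditive.comp_sum]
      rfl
  · obtain ⟨D, i', r', a', b'⟩ := (L (B X p.2)).spl p.1
    refine ⟨⟨D, .pt p.2 D⟩, ⟨i' ≫ i X p.2, Lc.mn_diag fun z => ?_⟩,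
      ⟨r X p.2 ≫ r', Lc.mn_diag fun z => ?_⟩, Lc.ext ?_, Lc.ext ?_⟩
    · by_cases k : z = p.2
      · simp [k, c1, Ld.pt]
      · simp [k, c3 X _ _ (Ne.symm k), Ld.pt]
    · by_cases k : z = p.2
      · simp [k, reassoc_of% c2, Ld.pt]
      · simp [k, reassoc_of% c4 X _ _ k, Ld.pt]
    · simp [reassoc_of% a, a']
    · simp [reassoc_of% b']
  · obtain ⟨y, z⟩ := p
    obtain ⟨y', z'⟩ := q
    by_cases l : z = z'
    · subst l
      simp [reassoc_of% a, reassoc_of% (L _).orth y y' fun m => k (by rw [m])]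
    · simp [reassoc_of% c5 X _ _ l]
  · have := σ.additive g
    suffices ∀ f : X.A ⟶ (σ.F g).obj X'.A, (∀ x y, ¬ x ≤ y →
        X.d.e x ≫ f ≫ (σ.F g).map (X'.d.e (g⁻¹ • y)) = 0) → (r X p.2 ≫ (L _).e p.1 ≫ i X p.2) ≫
          f ≫ (σ.F g).map (r X' q.2 ≫ (L _).e q.1 ≫ i X' q.2) = 0 from this f.1 f.2
    intro f hf
    by_cases l : p.2 ≤ g • q.2
    · have := hL g _ _ (i X p.2 ≫ f ≫ (σ.F g).map (r X' q.2)) p.1 q.1 fun m => k ⟨m, l⟩
      simp only [Category.assoc] at this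
      simp [reassoc_of% this]
    · have := hf _ _ l
      rw [inv_smul_smul] at this
      have e1 := congrArg (fun k => i X p.2 ≫ k ≫ (σ.F g).map (r X' q.2)) this
      simp only [Category.assoc, reassoc_of% c1, ← Functor.map_comp, c2] at e1
      simp [reassoc_of% e1]

theorem Lcd.lo [HasBinaryBiproducts C] (h : Lcd Y σ) : ∃ L : ∀ A : TwZ σ, (SZ σ).Lo Y A,
    ∀ A B (f : A ⟶ B), (L A).Rg (L B) (fun x g y => x ≤ g.1 • y) f := by
  obtain ⟨L, hL⟩ := h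
  choose s s1 s2 using fun A => (L A).fin
  refine ⟨fun A => ⟨fun x => emb ((L A.as).e x), s A.as, fun x k => by rw [s1 _ x k, emb_zero],
    fun x => ?_, fun x y k => by rw [emb_comp, (L _).orth x y k, emb_zero], ?_⟩, fun A B f x y => ?_⟩
  · obtain ⟨B, i, r, a, b⟩ := (L A.as).spl x
    exact .inr ⟨⟨B⟩, emb i, emb r, .of_cp (cpt_sg ..) rfl, .of_cp (cpt_sg ..) rfl,
      by rw [emb_comp, a, emb_id], by rw [emb_comp, b]⟩
  · exact (map_sum (AddMonoidHom.mk' (emb (A := A) (B := A)) emb_add) ..).symm.trans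
      ((congrArg emb (s2 _)).trans (emb_id A))
  · dsimp only
    induction f using ind' with
    | h0 => simpa using GC.Sup.zero
    | h1 a b c d => simpa using c.add d
    | h2 g a =>
      rw [sg_emb, emb_sg]
      by_cases k : x ≤ g.1 • y
      · exact .of_cp (cpt_sg ..) k
      · exact ((congrArg (Tw.sg g) (hL g.1 _ _ a x y k)).trans (sg_zero g)).symm ▸ GC.Sup.zero

end Pool.Agent.Lib.MP_5d3e93_al
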