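import Pool.Agent.Lib.MP_5d3e93_al.DefsP

/-! Locally linear groups and slim subgroups. -/

namespace Pool.Agent.Lib.MP_5d3e93_al

universe w

/-- Every finitely generated subgroup has a linear representation over a commutative ring whose
kernel has the property `Hyper`. -/
def Lin (D : Type w) [Group D] : Prop := ∀ H : Subgroup D, H.FG → ∃ (R : Type w)
  (_ : CommRing R) (n : ℕ) (φ : H →* GL (Fin n) R), Hyper φ.ker

/-- The stabiliser in `D` of every point of `X` has the property `LocHyper` or meets `N` in a
group with the property `Hyper`. -/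
def Slim {G : Type w} [Group G] (X : Type w) [MulAction G X] (N D : Subgroup G) : Prop :=
  ∀ x : X, LocHyper ↥(D ⊓ MulAction.stabilizer G x) ∨ Hyper ↥(D ⊓ MulAction.stabilizer G x ⊓ N)

end Pool.Agent.Lib.MP_5d3e93_al
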