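import Pool.Agent.Lib.MP_5d3e93_al.Rad

/-! Reduction of rational affine actions modulo a prime. -/

namespace Pool.Agent.Lib.MP_5d3e93_al

universe w

variable {Γ : Type w} [Group Γ] {V : Type} [AddCommGroup V] [Module ℚ V] [MulAction Γ V]

/-- Localisation of a lattice. -/
def Loc (Λ : Submodule ℤ V) (p : ℕ) : Submodule ℤ V where
  carrier := {v | ∃ N : ℕ, N.Coprime p ∧ (N : ℤ) • v ∈ Λ}
  zero_mem' := ⟨1, by simp, by simp⟩
  add_mem' := fun {a b} ⟨N, h1, h2⟩ ⟨M, h3, h4⟩ => ⟨N * M, h1.mul_left h3, by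
    have := Λ.add_mem (Λ.smul_mem M h2) (Λ.smul_mem N h4)
    rwa [smul_smul, smul_smul, mul_comm (M : ℤ), ← smul_add, ← Nat.cast_mul] at this⟩
  smul_mem' := fun c a ⟨N, h1, h2⟩ => ⟨N, h1, smul_comm c (N : ℤ) a ▸ Λ.smul_mem c h2⟩

variable {Λ : Submodule ℤ V} {p : ℕ}

omit [Module ℚ V] in
theorem le_loc {v : V} (h : v ∈ Λ) : v ∈ Loc Λ p := ⟨1, by simp, by simpa⟩

omit [Module ℚ V] in
theorem loc_of_smul {v : V} {N : ℕ} (k : N.Coprime p) (h : (N : ℤ) • v ∈ Loc Λ p) :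
    v ∈ Loc Λ p := by
  obtain ⟨M, h1, h2⟩ := h
  exact ⟨M * N, h1.mul_left k, by rwa [Nat.cast_mul, mul_smul]⟩

theorem ex_mul {W : Submodule ℤ V} (h : Submodule.span ℚ (W : Set V) = ⊤) (hΛ : Λ.FG) :
    ∃ N : ℕ, 0 < N ∧ ∀ v ∈ Λ, (N : ℤ) • v ∈ W := by
  have h1 (v : V) : ∃ N : ℕ, 0 < N ∧ (N : ℤ) • v ∈ W := by
    have : v ∈ Submodule.span ℚ (W : Set V) := h ▸ trivial
    induction this using Submodule.span_induction with
    | mem x k => exact ⟨1, one_pos, by simpa⟩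
    | zero => exact ⟨1, one_pos, by simp⟩
    | add x y _ _ a b =>
      obtain ⟨N, a1, a2⟩ := a
      obtain ⟨M, b1, b2⟩ := b
      refine ⟨N * M, mul_pos a1 b1, ?_⟩
      have := W.add_mem (W.smul_mem M a2) (W.smul_mem N b2)
      rwa [smul_smul, smul_smul, mul_comm (M : ℤ), ← smul_add, ← Nat.cast_mul] at this
    | smul c x _ a =>
      obtain ⟨N, a1, a2⟩ := a
      refine ⟨c.den * N, mul_pos c.pos a1, ?_⟩
      convert W.smul_mem c.num a2 using 1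
      rw [← Int.cast_smul_eq_zsmul ℚ, ← Int.cast_smul_eq_zsmul ℚ, ← Int.cast_smul_eq_zsmul ℚ,
        smul_smul, smul_smul, ← Rat.mul_den_eq_num]
      congr 1
      push_cast
      ring
  choose f f1 f2 using h1
  obtain ⟨s, rfl⟩ := hΛ
  refine ⟨∏ v ∈ s, f v, Finset.prod_pos fun v _ => f1 v, fun v hv => ?_⟩
  refine Submodule.span_le (p := W.comap (((∏ v ∈ s, f v : ℕ) : ℤ) • LinearMap.id)) |>.2
    (fun v k => ?_) hv
  obtain ⟨c, e⟩ := Finset.dvd_prod_of_mem f k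
  change ((∏ v ∈ s, f v : ℕ) : ℤ) • v ∈ W
  rw [e, Nat.cast_mul, mul_comm, mul_smul]
  exact W.smul_mem _ (f2 v)

variable (A : AA Γ ℚ V) [Fact p.Prime]

variable (Γ Λ p) in
/-- Reductions modulo `p`. -/
structure Md where
  E : Type
  [i1 : AddCommGroup E]
  [i2 : Module (ZMod p) E]
  [i3 : Fintype E]
  [i4 : MulAction Γ E]
  B : AA Γ (ZMod p) E
  r : V → E
  add : ∀ v ∈ Loc Λ p, ∀ w ∈ Loc Λ p, r (v + w) = r v + r w
  smul : ∀ (g : Γ), ∀ v ∈ Loc Λ p, r (g • v) = g • r v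
  surj : ∀ e, ∃ v ∈ Λ, r v = e
  ker : ∀ v ∈ Λ, r v = 0 → ∃ w ∈ Λ, v = (p : ℚ) • w
  inv : ∀ (g : Γ), ∀ v ∈ Loc Λ p, g • v ∈ Loc Λ p

attribute [instance] Md.i1 Md.i2 Md.i3 Md.i4

omit [Fact p.Prime] in
theorem l_loc (h : ∀ (g : Γ), ∀ v ∈ Loc Λ p, g • v ∈ Loc Λ p) (g : Γ) {v : V} (k : v ∈ Loc Λ p) :
    A.l g v ∈ Loc Λ p := by
  rw [← sub_zero v, ← A.h]
  exact sub_mem (h g v k) (h g 0 (zero_mem _))

include A in
theorem Md.nonempty (hΛ : Λ.FG) (h : ∀ (g : Γ), ∀ v ∈ Loc Λ p, g • v ∈ Loc Λ p) :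
    Nonempty (Md Γ Λ p) := by
  classical
  let K : Submodule ℤ (Loc Λ p) := LinearMap.range ((p : ℤ) • LinearMap.id)
  let l (g : Γ) : Loc Λ p →ₗ[ℤ] Loc Λ p :=
    ((A.l g).restrictScalars ℤ).restrict fun v k => l_loc A h g k
  have hl (g) : K ≤ K.comap (l g) := by rintro _ ⟨x, rfl⟩; exact ⟨l g x, by simp⟩
  have hp (x : Loc Λ p ⧸ K) : p • x = 0 := by
    induction x using Submodule.Quotient.induction_on with | _ x => ?_
    exact (Submodule.Quotient.mk_eq_zero _).2 ⟨x, by simp⟩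
  have := (Fact.out : p.Prime).ne_zero
  let _ : Module (ZMod p) (Loc Λ p ⧸ K) := AddCommGroup.zmodModule hp
  let a (g : Γ) (x : Loc Λ p ⧸ K) : Loc Λ p ⧸ K :=
    K.mapQ K (l g) (hl g) x + K.mkQ ⟨g • 0, h g 0 (zero_mem _)⟩
  have ha (g) (x : Loc Λ p) : a g (K.mkQ x) = K.mkQ ⟨g • x.1, h g _ x.2⟩ :=
    (map_add K.mkQ (l g x) _).symm.trans (congrArg _ (Subtype.ext (A.smul_eq g _).symm))
  let _ : MulAction Γ (Loc Λ p ⧸ K) :=
    { smul := a
      one_smul := fun x => by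
        induction x using Submodule.Quotient.induction_on with | _ x => ?_
        exact (ha 1 x).trans (congrArg _ (Subtype.ext (one_smul _ _)))
      mul_smul := fun g k x => by
        induction x using Submodule.Quotient.induction_on with | _ x => ?_
        exact (ha _ x).trans ((congrArg _ (Subtype.ext (mul_smul _ _ _))).trans
          ((congrArg (a g) (ha k x)).trans (ha g _)).symm) }
  have hs (e : Loc Λ p ⧸ K) : ∃ v, ∃ k : v ∈ Λ, K.mkQ ⟨v, le_loc k⟩ = e := by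
    induction e using Submodule.Quotient.induction_on with | _ x => ?_
    obtain ⟨N, h1, h2⟩ := x.2
    obtain ⟨u, w, e⟩ := Nat.isCoprime_iff_coprime.2 h1
    refine ⟨_, Λ.smul_mem u h2, (Submodule.Quotient.eq _).2 ⟨-w • x, Subtype.ext ?_⟩⟩
    simp only [LinearMap.smul_apply, LinearMap.id_apply, Submodule.coe_smul, Submodule.coe_sub,
      smul_smul]
    rw [eq_sub_iff_add_eq', show u * N = 1 + p * -w by linear_combination e, add_smul, one_smul]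
  have : Module.Finite ℤ Λ := Module.Finite.iff_fg.2 hΛ
  have : Module.Finite ℤ (Loc Λ p ⧸ K) := Module.Finite.of_surjective
    (K.mkQ ∘ₗ Submodule.inclusion fun _ => le_loc) fun e => by
      obtain ⟨v, k, e⟩ := hs e
      exact ⟨⟨v, k⟩, e⟩
  have : Finite (Loc Λ p ⧸ K) := Module.finite_of_fg_torsion _ fun x =>
    ⟨⟨p, mem_nonZeroDivisors_of_ne_zero (by simpa)⟩, by simpa [Submonoid.smul_def] using hp x⟩
  let _ := Fintype.ofFinite (Loc Λ p ⧸ K)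
  refine ⟨⟨Loc Λ p ⧸ K, ⟨fun g => (K.mapQ K (l g) (hl g)).toAddMonoidHom.toZModLinearMap p,
    fun g x y => (add_sub_add_right_eq_sub _ _ _).trans (map_sub _ _ _).symm⟩,
    fun v => if k : v ∈ Loc Λ p then K.mkQ ⟨v, k⟩ else 0, fun v a w b => ?_, fun g v a => ?_,
    fun e => ?_, fun v a b => ?_, h⟩⟩
  · rw [dif_pos a, dif_pos b, dif_pos (add_mem a b), ← map_add]; rfl
  · rw [dif_pos a, dif_pos (h g v a)]; exact (ha g ⟨v, a⟩).symm
  · obtain ⟨v, k, e⟩ := hs e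
    exact ⟨v, k, by rw [dif_pos (le_loc k), e]⟩
  · rw [dif_pos (le_loc a)] at b
    obtain ⟨⟨x, N, h1, h2⟩, e⟩ := (Submodule.Quotient.mk_eq_zero _).1 b
    obtain rfl : (p : ℤ) • x = v := congrArg Subtype.val e
    obtain ⟨u, w, e⟩ := Nat.isCoprime_iff_coprime.2 h1
    refine ⟨x, ?_, by rw [← Int.cast_smul_eq_zsmul ℚ, Int.cast_natCast]⟩
    have := Λ.add_mem (Λ.smul_mem u h2) (Λ.smul_mem w a)
    rwa [smul_smul, smul_smul, ← add_smul, e, one_smul] at this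

namespace Md

variable {A} (M : Md Γ Λ p) {v w : V}

theorem zero : M.r 0 = 0 := by simpa using M.add 0 (zero_mem _) 0 (zero_mem _)

theorem sub (a : v ∈ Loc Λ p) (b : w ∈ Loc Λ p) : M.r (v - w) = M.r v - M.r w := by
  rw [eq_sub_iff_add_eq, ← M.add _ (sub_mem a b) _ b, sub_add_cancel]

theorem lin (g : Γ) (a : v ∈ Loc Λ p) : M.r (A.l g v) = M.B.l g (M.r v) := by
  rw [← sub_zero v, ← A.h, M.sub (M.inv g v a) (M.inv g 0 (zero_mem _)), M.smul g v a,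
    M.smul g 0 (zero_mem _), M.B.h, M.zero, sub_zero, sub_zero]

theorem nsmul (a : v ∈ Loc Λ p) (n : ℕ) : M.r ((n : ℤ) • v) = (n : ZMod p) • M.r v := by
  induction n with
  | zero => simp [M.zero]
  | succ n ih =>
    push_cast
    rw [add_smul, add_smul, one_smul, one_smul, M.add _ (Submodule.smul_mem _ _ a) _ a, ih]

theorem congr {g k : Γ} (h : A.l g = A.l k) : M.B.l g = M.B.l k := LinearMap.ext fun e => by
  obtain ⟨v, a, rfl⟩ := M.surj e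
  rw [← M.lin (A := A) g (le_loc a), ← M.lin (A := A) k (le_loc a), h]

theorem surj' {N : ℕ} (h : N.Coprime p) (e : M.E) : ∃ v ∈ Λ, M.r ((N : ℤ) • v) = e := by
  have : (N : ZMod p) ≠ 0 := by
    rw [Ne, ZMod.natCast_eq_zero_iff]
    exact (Nat.Prime.coprime_iff_not_dvd Fact.out).1 h.symm
  obtain ⟨v, a, b⟩ := M.surj ((N : ZMod p)⁻¹ • e)
  exact ⟨v, a, by rw [M.nsmul (le_loc a), b, smul_inv_smul₀ this]⟩

theorem du_zero {J : Type*} (g : J → Γ) (ε : J → ℚ) (a : M.B.Du)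
    (h : ∀ j, (ε j = 1 ∧ (g j)⁻¹ • a = a) ∨ (ε j = -1 ∧ (g j)⁻¹ • a = -a)) {N : ℕ}
    (hN : N.Coprime p) (k : ∀ v ∈ Λ, (N : ℤ) • v ∈
      ⨆ j, Λ.map ((A.l (g j) - ε j • LinearMap.id).restrictScalars ℤ)) : a = 0 := by
  let U : Submodule ℤ V := AddSubgroup.toIntSubmodule
    { carrier := {v | v ∈ Loc Λ p ∧ a (M.r v) = 0}
      zero_mem' := ⟨zero_mem _, by rw [M.zero, map_zero]⟩
      add_mem' := fun b c => ⟨add_mem b.1 c.1, by rw [M.add _ b.1 _ c.1, map_add, b.2, c.2, add_zero]⟩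
      neg_mem' := fun b => ⟨neg_mem b.1, by
        rw [← zero_sub, M.sub (zero_mem _) b.1, map_sub, b.2, M.zero, map_zero, sub_zero]⟩ }
  refine DFunLike.ext _ _ fun e => ?_
  obtain ⟨v, b, rfl⟩ := M.surj' hN e
  refine ((iSup_le (a := U) fun j => ?_) (k v b)).2
  rintro _ ⟨v, b, rfl⟩
  have c := l_loc A M.inv (g j) (le_loc (p := p) b)
  have d : a (M.r (A.l (g j) v)) = ((g j)⁻¹ • a) (M.r v) := by
    rw [M.lin _ (le_loc b), AA.du_smul, inv_inv]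
  change A.l (g j) v - ε j • v ∈ U
  obtain ⟨e, e'⟩ | ⟨e, e'⟩ := h j <;> rw [e'] at d <;> rw [e]
  · rw [one_smul]
    exact ⟨sub_mem c (le_loc b), by rw [M.sub c (le_loc b), map_sub, d, sub_self]⟩
  · rw [neg_one_smul, sub_neg_eq_add]
    exact ⟨add_mem c (le_loc b), by rw [M.add _ c _ (le_loc b), map_add, d]; exact neg_add_cancel _⟩

end Md

theorem ex_mul' {J : Type*} (T : J → V →ₗ[ℚ] V) (hΛ : Λ.FG)
    (h1 : Submodule.span ℚ (Λ : Set V) = ⊤) (h2 : ⨆ j, LinearMap.range (T j) = ⊤) :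
    ∃ N : ℕ, 0 < N ∧ ∀ v ∈ Λ, (N : ℤ) • v ∈ ⨆ j, Λ.map ((T j).restrictScalars ℤ) := by
  refine ex_mul (top_le_iff.1 (h2.symm.le.trans (iSup_le fun j => ?_))) hΛ
  rw [LinearMap.range_eq_map, ← h1, Submodule.map_span]
  refine Submodule.span_mono ?_
  rintro _ ⟨v, a, rfl⟩
  exact Submodule.mem_iSup_of_mem j ⟨v, a, rfl⟩

end Pool.Agent.Lib.MP_5d3e93_al
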