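import Pool.Agent.Lib.MP_5d3e93_al.Win
import Pool.Agent.Lib.MP_5d3e93_al.Md

/-! Torsion labels and the Farrell-Hsiang method for finite holonomy. -/

open CategoryTheory MulAction
open scoped Pointwise

namespace Pool.Agent.Lib.MP_5d3e93_al

universe w v u

/-- Integral vectors. -/
def Zn (n : ℕ) : Submodule ℤ (Fin n → ℚ) :=
  LinearMap.range ((Algebra.linearMap ℤ ℚ).compLeft (Fin n))

variable {n : ℕ}

theorem mem_zn {v : Fin n → ℚ} : v ∈ Zn n ↔ ∀ i, ∃ k : ℤ, (k : ℚ) = v i :=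
  ⟨fun ⟨w, e⟩ i => ⟨w i, congrFun e i⟩, fun h => by
    choose w e using h
    exact ⟨w, funext e⟩⟩

theorem zn_fg : (Zn n).FG := by
  rw [Zn, LinearMap.range_eq_map]
  exact Module.Finite.fg_top.map _

theorem single_zn (i : Fin n) : Pi.single i 1 ∈ Zn n := mem_zn.2 fun j => by
  by_cases h : j = i
  · exact ⟨1, by simp [h]⟩
  · exact ⟨0, by simp [h]⟩

theorem zn_span : Submodule.span ℚ (Zn n : Set (Fin n → ℚ)) = ⊤ :=
  top_le_iff.1 ((Pi.basisFun ℚ (Fin n)).span_eq.symm.le.trans (Submodule.span_mono (by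
    rintro _ ⟨i, rfl⟩
    simpa using single_zn i)))

theorem zn_small {v : Fin n → ℚ} (h : v ∈ Zn n) (k : ‖v‖ < 1) : v = 0 := funext fun i => by
  obtain ⟨a, e⟩ := mem_zn.1 h i
  have := (norm_le_pi_norm v i).trans_lt k
  rw [← e, ← Rat.norm_cast_real, Rat.cast_intCast, Real.norm_eq_abs] at this
  rw [← e, (Int.abs_lt_one_iff (a := a)).1 (by exact_mod_cast this)]
  rfl

theorem lin_bd (T : (Fin n → ℚ) →ₗ[ℚ] Fin n → ℚ) : ∃ c : ℝ, 0 < c ∧ ∀ v, ‖T v‖ ≤ c * ‖v‖ := by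
  refine ⟨∑ i, ‖T (Pi.single i 1)‖ + 1, by positivity, fun v => ?_⟩
  conv_lhs => rw [pi_eq_sum_univ' v, map_sum]
  refine (norm_sum_le _ _).trans ?_
  rw [add_mul, Finset.sum_mul]
  refine le_add_of_le_of_nonneg (Finset.sum_le_sum fun i _ => ?_) (by positivity)
  rw [map_smul, norm_smul, mul_comm]
  exact mul_le_mul_of_nonneg_left (norm_le_pi_norm v i) (norm_nonneg _)

theorem fin_bd {F : Set ((Fin n → ℚ) →ₗ[ℚ] Fin n → ℚ)} (h : F.Finite) :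
    ∃ c : ℝ, 0 < c ∧ ∀ T ∈ F, ∀ v, ‖T v‖ ≤ c * ‖v‖ := by
  choose c h1 h2 using lin_bd (n := n)
  obtain ⟨b, hb⟩ := (h.image c).bddAbove
  exact ⟨max b 1, by positivity, fun T k v => (h2 T v).trans (mul_le_mul_of_nonneg_right
    ((hb (Set.mem_image_of_mem c k)).trans (le_max_left _ _)) (norm_nonneg _))⟩

/-- The image in the torus. -/
def tor (v : Fin n → ℚ) : Fin n → UnitAddCircle := fun i => ((v i : ℝ) : UnitAddCircle)

theorem tor_add (v w : Fin n → ℚ) : tor (v + w) = tor v + tor w := by ext i; simp [tor]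

theorem tor_nsmul (k : ℕ) (v : Fin n → ℚ) : tor ((k : ℚ) • v) = k • tor v := by
  ext i
  rw [Pi.smul_apply, tor, tor, ← AddCircle.coe_nsmul]
  simp

theorem tor_zn {v : Fin n → ℚ} (h : v ∈ Zn n) : tor v = 0 := by
  ext i
  obtain ⟨a, e⟩ := mem_zn.1 h i
  exact (AddCircle.coe_eq_zero_iff _).2 ⟨a, by simp [← e]⟩

theorem tor_le (v : Fin n → ℚ) : ‖tor v‖ ≤ ‖v‖ := (pi_norm_le_iff_of_nonneg (norm_nonneg _)).2
  fun i => (QuotientAddGroup.norm_mk_le_norm.trans (Rat.norm_cast_real _).le).trans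
    (norm_le_pi_norm v i)

theorem near_zn {v : Fin n → ℚ} {δ : ℝ} (h : ‖tor v‖ < δ) : ∃ u ∈ Zn n, ‖v - u‖ < δ := by
  refine ⟨fun i => (round (v i : ℝ) : ℤ), mem_zn.2 fun i => ⟨_, rfl⟩,
    (pi_norm_lt_iff ((norm_nonneg _).trans_lt h)).2 fun i => ?_⟩
  have := (norm_le_pi_norm _ i).trans_lt h
  rw [tor, UnitAddCircle.norm_eq] at this
  rwa [← Rat.norm_cast_real, Pi.sub_apply, Rat.cast_sub, Rat.cast_intCast]

theorem dirichlet (n : ℕ) {δ : ℝ} (h : 0 < δ) :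
    ∃ Q : ℕ, ∀ v : Fin n → ℚ, ∃ r : Fin Q, ∃ u ∈ Zn n, ‖((r + 1 : ℕ) : ℚ) • v - u‖ < δ := by
  obtain ⟨s, hs⟩ := (isCompact_univ (X := Fin n → UnitAddCircle)).elim_finite_subcover
    (fun r : ℕ => {x | ‖(r + 1) • x‖ < δ}) (fun r => isOpen_lt (by fun_prop) continuous_const)
    fun x _ => by
      obtain ⟨r, a, b⟩ := (((mapClusterPt_zero_atTop_nsmul x).frequently
        (Metric.ball_mem_nhds 0 h)).and_eventually (Filter.eventually_gt_atTop 0)).exists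
      exact Set.mem_iUnion.2 ⟨r - 1, by simpa [Nat.sub_add_cancel b] using a⟩
  refine ⟨s.sup id + 1, fun v => ?_⟩
  obtain ⟨r, a, b⟩ := Set.mem_iUnion₂.1 (hs (Set.mem_univ (tor v)))
  exact ⟨⟨r, Nat.lt_succ_of_le (Finset.le_sup (f := id) a)⟩, near_zn (by rwa [tor_nsmul])⟩

variable {Γ : Type w} [Group Γ] [MulAction Γ (Fin n → ℚ)] (A : AA Γ ℚ (Fin n → ℚ))

/-- The point `ζ` is the torsion point near `x` for the lattice coset of `z`. -/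
def Tor (c : ℚ) (Gs : Set Γ) (z x ζ : Fin n → ℚ) : Prop :=
  ∀ g ∈ Gs, c • A.l g⁻¹ (ζ - z) ∈ Zn n ∧ ‖c • A.l g⁻¹ (x - ζ)‖ < 1 / 2

variable {A} {c : ℚ} {Gs : Set Γ} {z z' x x' ζ ζ' : Fin n → ℚ}

theorem AA.l_inv (g : Γ) (v : Fin n → ℚ) : A.l g (A.l g⁻¹ v) = v := by
  rw [← A.l_mul, mul_inv_cancel, A.l_one]

theorem AA.l_inv' (g : Γ) (v : Fin n → ℚ) : A.l g⁻¹ (A.l g v) = v := by
  rw [← A.l_mul, inv_mul_cancel, A.l_one]

theorem Tor.uniq (h : Tor A c Gs z x ζ) (h' : Tor A c Gs z' x ζ') (hc : c ≠ 0) {g : Γ}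
    (hg : g ∈ Gs) (k : c • A.l g⁻¹ (z - z') ∈ Zn n) : ζ = ζ' := by
  obtain ⟨a, b⟩ := h g hg
  obtain ⟨a', b'⟩ := h' g hg
  have := zn_small (v := c • A.l g⁻¹ (ζ - ζ')) (by
    convert add_mem (sub_mem a a') k using 1
    simp only [← smul_sub, ← smul_add, ← map_sub, ← map_add]
    congr 2
    abel) (by
    rw [show ζ - ζ' = (x - ζ') - (x - ζ) by abel, map_sub, smul_sub]
    exact (norm_sub_le _ _).trans_lt (by linarith))
  rw [← sub_eq_zero, ← A.l_inv g (ζ - ζ'), (smul_eq_zero.1 this).resolve_left hc, map_zero]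

theorem Tor.smul (h : Tor A c Gs z x ζ) (k : Γ) {Gs' : Set Γ} (hk : ∀ g ∈ Gs', k⁻¹ * g ∈ Gs) :
    Tor A c Gs' (k • z) (k • x) (k • ζ) := fun g a => by
  simpa only [A.h, ← A.l_mul, mul_inv_rev, inv_inv] using h _ (hk g a)

theorem tor_mk {g : Γ} {b : ℝ} (h : ∀ k ∈ Gs, (∀ v ∈ Zn n, A.l (k⁻¹ * g) v ∈ Zn n) ∧
    ∀ v, ‖A.l (k⁻¹ * g) v‖ ≤ b * ‖v‖) (hb : 0 < b) (h1 : c • A.l g⁻¹ (ζ - z) ∈ Zn n)
    (h2 : ‖c • A.l g⁻¹ (x - ζ)‖ < 1 / (2 * b)) : Tor A c Gs z x ζ := fun k a => by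
  have e (v) : c • A.l k⁻¹ v = A.l (k⁻¹ * g) (c • A.l g⁻¹ v) := by
    rw [map_smul, ← A.l_mul, mul_inv_cancel_right]
  rw [e, e]
  refine ⟨(h k a).1 _ h1, ((h k a).2 _).trans_lt ?_⟩
  calc _ < b * (1 / (2 * b)) := mul_lt_mul_of_pos_left h2 hb
    _ = _ := by field_simp

theorem pth_grp {Y : Type*} {ρ : Y → Y → Prop} {T : Set Γ} (f : Y → Γ)
    (h : ∀ x y, ρ x y → (f x)⁻¹ * f y ∈ T) {k : ℕ} :
    ∀ {x y}, Pth ρ k x y → (f x)⁻¹ * f y ∈ T ^ k := by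
  induction k with
  | zero => rintro x _ rfl; simp
  | succ k ih =>
    rintro x y ⟨z, a, b⟩
    rw [pow_succ']
    simpa using Set.mul_mem_mul (h _ _ a) (ih b)

theorem pth_eq {Y K : Type*} {ρ : Y → Y → Prop} (f : Y → K) (h : ∀ x y, ρ x y → f x = f y)
    {k : ℕ} : ∀ {x y}, Pth ρ k x y → f x = f y := by
  induction k with
  | zero => rintro x _ rfl; rfl
  | succ k ih => exact fun ⟨z, a, b⟩ => (h _ _ a).trans (ih b)

theorem fin_pow {T : Set Γ} (h : T.Finite) (k : ℕ) : (T ^ k).Finite := by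
  induction k with
  | zero => simp
  | succ k ih => exact pow_succ T k ▸ ih.mul h

theorem ex_symm {T : Set (Γ × Zi)} (h : T.Finite) : ∃ T' : Set Γ, T'.Finite ∧ 1 ∈ T' ∧
    (∀ g ∈ T', g⁻¹ ∈ T') ∧ ∀ g ∈ T, g.1 ∈ T' :=
  ⟨insert 1 (Prod.fst '' T ∪ (Prod.fst '' T)⁻¹), ((h.image _).union (h.image _).inv).insert 1,
    .inl rfl, fun g a => by simpa [or_comm] using a, fun g a => .inr (.inl ⟨g, a, rfl⟩)⟩

namespace GC

open Lo

variable {C : Type u} [Category.{v} C] [Preadditive C] {S : GC (Γ × Zi) C}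

variable (S) in
/-- Standing assumptions. -/
structure Ok : Prop where
  hz : ∃ Z : C, 𝟙 Z = 0
  hc : S.Central
  h0 : ∀ A B, ∃ (E : C) (c : S.sum B E ⟶ S.sum A E), S.HIso 1 c

theorem Ok.W (h : S.Ok) (k : ∀ (A : C) (u : A ⟶ A), S.Iso ⊤ u → S.Tr ⊤ u) : S.W ⊤ :=
  fun A B u a => by
    obtain ⟨E, c, b⟩ := h.h0 A B
    exact ((Tr.one b).cancel_right (k _ _ ((a.bd .id).comp (b.iso trivial)))).of_bd

theorem Ok.ctrl (h : S.Ok) {I : Type*} [MulAction Γ I] (hW : ∀ (U : I), ∀ H ≤ stabilizer Γ U, S.V H)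
    {Y : Type*} [MulAction Γ Y] {ρ : Y → Y → Prop} (h1 : ∀ y, ρ y y)
    (h2 : ∀ x y, ρ x y → ρ y x) (h3 : ∀ (g : Γ) x y, ρ x y → ρ (g • x) (g • y))
    {ι : Type} [Fintype ι] (Lab : ι → Y → I → Prop)
    (h4 : ∀ i y U U', Lab i y U → Lab i y U' → U = U')
    (h5 : ∀ i (g : Γ) y U, Lab i y U → Lab i (g • y) (g • U)) {α : Y → Prop}
    (h6 : ∀ y, α y → ∃ i U, ∀ y', Pth ρ (kap (Fintype.card ι) + 1) y y' → Lab i y' U)
    {A B : C} {L : S.Lo Y A} {M : S.Lo Y B} (hL : L.On α) (hM : M.On α) {u : A ⟶ B} {v : B ⟶ A}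
    (hu : L.Rg M (fun x g y => ρ x (g.1 • y)) u) (hv : M.Rg L (fun x g y => ρ x (g.1 • y)) v)
    (e1 : u ≫ v = 𝟙 A) (e2 : v ≫ u = 𝟙 B) : S.Tr ⊤ u :=
  ctrl' h.hz h.hc hW h1 h2 h3 (Nat.lt_succ_self _)
    (fun i y U => ∃ j, (Fintype.equivFin ι j).1 = i ∧ Lab j y U)
    (fun _ y U U' ⟨j, a, b⟩ ⟨_, c, d⟩ => h4 j y U U' b
      ((Fintype.equivFin ι).injective (Fin.ext (c.trans a.symm)) ▸ d))
    (fun _ g y U ⟨j, a, b⟩ => ⟨j, a, h5 j g y U b⟩) (fun y a => by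
      obtain ⟨j, U, b⟩ := h6 y a
      exact ⟨_, (Fintype.equivFin ι j).2, U, fun y' c => ⟨j, rfl, b y' c⟩⟩) hL hM hu hv e1 e2

/-- Control over the product with the group. -/
theorem Tn.ctrl (h : S.Ok) {A : C} {X : Type} [MulAction Γ X] {P : X → Prop}
    (a : S.Tn A (.fst Γ Zi) X P) {I : Type*} [MulAction Γ I]
    (hW : ∀ (U : I), ∀ H ≤ stabilizer Γ U, S.V H) {ι : Type} [Fintype ι]
    (Lab : ι → X × Γ → I → Prop) (h4 : ∀ i y U U', Lab i y U → Lab i y U' → U = U')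
    (h5 : ∀ i (g : Γ) y U, Lab i y U → Lab i (g • y) (g • U)) {T : Set Γ} (t1 : 1 ∈ T)
    (t2 : ∀ g ∈ T, g⁻¹ ∈ T)
    (h6 : ∀ x, P x → ∃ i U, ∀ g ∈ T ^ (kap (Fintype.card ι) + 1), Lab i (x, g) U)
    {u v : A ⟶ A} (hu : S.Sup {g | g.1 ∈ T} u) (hv : S.Sup {g | g.1 ∈ T} v)
    (e1 : u ≫ v = 𝟙 A) (e2 : v ≫ u = 𝟙 A) : S.Tr ⊤ (a.t u) := by
  have k {y : A ⟶ A} (hy : S.Sup {g | g.1 ∈ T} y) := (a.rg hy).map (φ := (·, (1 : Γ)))
    (ψ := (·, (1 : Γ))) (R' := fun x g y => x.1 = (g.1 • y).1 ∧ x.2⁻¹ * (g.1 • y).2 ∈ T) a.on a.on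
    fun x g y _ _ b => ⟨b.2, by simpa using b.1⟩
  refine h.ctrl hW (ρ := fun x y : X × Γ => x.1 = y.1 ∧ x.2⁻¹ * y.2 ∈ T)
    (fun y => ⟨rfl, by simpa⟩) (fun x y b => ⟨b.1.symm, by simpa using t2 _ b.2⟩)
    (fun g x y b => ⟨congrArg (g • ·) b.1, by simpa [mul_assoc] using b.2⟩) Lab h4 h5
    (α := fun y => P y.1 ∧ y.2 = 1) ?_ (a.on.map fun _ b => ⟨b, rfl⟩) (a.on.map fun _ b => ⟨b, rfl⟩)
    (k hu) (k hv) ((a.comp _ _).symm.trans (e1 ▸ a.id)) ((a.comp _ _).symm.trans (e2 ▸ a.id))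
  rintro ⟨x, _⟩ ⟨b, rfl⟩
  obtain ⟨i, U, c⟩ := h6 x b
  refine ⟨i, U, fun y d => ?_⟩
  have := c y.2 (by simpa using pth_grp Prod.snd (fun _ _ b => b.2) d)
  rwa [show x = y.1 from pth_eq Prod.fst (fun _ _ b => b.1) d] at this

end GC

/-- The pair of a form and its negative. -/
def AA.pm {Q : Type w} [Group Q] {F E : Type} [Field F] [AddCommGroup E] [Module F E]
    [MulAction Q E] (B : AA Q F E) (a : B.Du) : Set B.Du := {a, -a}

section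
variable {Q : Type w} [Group Q] {F E : Type} [Field F] [AddCommGroup E] [Module F E]
variable [MulAction Q E] (B : AA Q F E)

theorem AA.pm_smul (q : Q) (a : B.Du) : B.pm (q • a) = q • B.pm a := by
  rw [pm, pm, Set.smul_set_insert, Set.smul_set_singleton, B.du_neg]

theorem AA.pm_neg (a : B.Du) : B.pm (-a) = B.pm a := by rw [pm, pm, neg_neg, Set.pair_comm]

theorem AA.pm_fix {q : Q} {a : B.Du} (h : q • B.pm a = B.pm a) : q • a = a ∨ q • a = -a := by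
  have : q • a ∈ B.pm a := h ▸ Set.smul_mem_smul_set (.inl rfl)
  exact this

end

namespace GC

variable {C : Type u} [Category.{v} C] [Preadditive C] {S : GC (Γ × Zi) C}

theorem tr_free (h : S.Ok) {X : C} {u : X ⟶ X} (hu : S.Iso ⊤ u) (b : ℕ)
    (k : ∀ (p : ℕ) [Fact p.Prime], b < p → ∃ M : Md Γ (Zn n) p, (∀ a, M.B.Fix a → a = 0) ∧
      (∀ a : S.Tn X (.fst Γ Zi) M.E fun _ => True, S.Tr ⊤ (a.t u)) ∧
      ∀ a : S.Tn X (.fst Γ Zi) (Set M.B.Du) fun x => ∃ a, a ≠ 0 ∧ M.B.pm a = x, S.Tr ⊤ (a.t u)) :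
    S.Tr ⊤ u := by
  classical
  refine tr_of_primes hu b fun p c hp a e => ⟨2, 0, ?_⟩
  have := Fact.mk hp
  obtain ⟨M, k1, k2, k3⟩ := k p a
  have k4 (P : Set M.B.Du → Prop) (hP : ∀ x, P x → ∃ a, a ≠ 0 ∧ M.B.pm a = x) :=
    tau_gr (π := .fst Γ Zi) (hz := h.hz) hu (P := P) fun a =>
      k3 ⟨a.B, a.M, a.on.mono hP, a.t, a.id, a.comp, a.rg⟩
  have := swan (tau_ses (π := .fst Γ Zi) (hz := h.hz) hu) M.B (tau_gr hu k2)
    (fun a => M.B.pm a.1) (fun q a => M.B.pm_smul q a.1) (fun a => M.B.pm_neg a.1)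
    (k4 _ fun _ ⟨a, b, c⟩ => ⟨a.1, b, c⟩) M.B.pm M.B.pm_smul M.B.pm_neg
    (k4 _ fun _ ⟨a, b, _, c⟩ => ⟨a, b, c⟩) e (f := 0) (by
      have : IsEmpty {a : M.B.Du // a ≠ 0 ∧ M.B.Fix a} := ⟨fun a => a.2.1 (k1 _ a.2.2)⟩
      simp)
  simpa [tau_int hu] using this

/-- The Farrell-Hsiang method for finite holonomy without eigenvectors. -/
theorem G1 (h : S.Ok) (hΛ : ∀ (g : Γ), ∀ v ∈ Zn n, g • v ∈ Zn n) (hf : (Set.range A.l).Finite)
    (hε : ∀ ε : Γ → ℚ, (∀ g, ε g = 1 ∨ ε g = -1) →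
      ⨆ g, LinearMap.range (A.l g - ε g • LinearMap.id) = ⊤)
    (hW : ∀ ζ : Fin n → ℚ, ∀ H ≤ stabilizer Γ ζ, S.V H)
    (hW' : ∀ (H : Subgroup Γ) (g : Γ), (∀ k ∈ H, A.l k ≠ A.l g) → S.V H) : S.W ⊤ := by
  classical
  refine h.W fun X u hu => ?_
  obtain ⟨-, v, -, e1, e2⟩ := id hu
  obtain ⟨T1, a1, -, a2⟩ := (S.sup_top u).finite
  obtain ⟨T2, a3, -, a4⟩ := (S.sup_top v).finite
  obtain ⟨T, t0, t1, t2, t3⟩ := ex_symm (a1.union a3)
  obtain ⟨b, b1, b2⟩ := fin_bd hf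
  obtain ⟨Q, hQ⟩ := dirichlet n (δ := 1 / (4 * b)) (by positivity)
  obtain ⟨d, hd⟩ := ((fin_pow t0 (kap (Fintype.card (Fin Q)) + 1)).image
    fun g => ‖g • (0 : Fin n → ℚ)‖).bddAbove
  have hl (g : Γ) (v) (k : v ∈ Zn n) : A.l g v ∈ Zn n := by
    rw [← sub_zero v, ← A.h]
    exact sub_mem (hΛ g v k) (hΛ g 0 (zero_mem _))
  have := hf.to_subtype
  choose N n1 n2 using fun ε : Set.range A.l → Bool => ex_mul' _ zn_fg zn_span
    (hε (fun g => if ε ⟨_, g, rfl⟩ then 1 else -1) fun g => by split_ifs <;> simp)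
  obtain ⟨N', hN⟩ := (Set.finite_range N).bddAbove
  obtain ⟨d', hd'⟩ := exists_nat_gt (4 * b * Q * d)
  refine tr_free (n := n) h hu (max N' d') fun p hp k => ?_
  have p0 : (0 : ℝ) < p := Nat.cast_pos.2 hp.out.pos
  have p1 : (p : ℚ) ≠ 0 := Nat.cast_ne_zero.2 hp.out.ne_zero
  obtain ⟨M⟩ := Md.nonempty (p := p) A zn_fg fun g v ⟨m, m1, m2⟩ => by
    rw [A.smul_eq]
    exact add_mem ⟨m, m1, map_zsmul (A.l g) m v ▸ hl g _ m2⟩ (le_loc (hΛ g 0 (zero_mem _)))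
  have c1 {g k : Γ} (e : A.l g = A.l k) (a : M.B.Du) : g⁻¹ • a = k⁻¹ • a :=
    DFunLike.ext _ _ fun x => by rw [AA.du_smul, AA.du_smul, inv_inv, inv_inv, M.congr e]
  have c2 (a) (f : M.B.Fix a) : a = 0 := by
    let ε : Set.range A.l → Bool := fun T => T.2.choose⁻¹ • a = a
    refine M.du_zero id _ a (fun g => ?_) (Nat.coprime_of_lt_prime (n1 ε).ne'
      ((hN ⟨ε, rfl⟩).trans_lt ((le_max_left _ _).trans_lt k)) hp.out).symm (n2 ε)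
    have : ε ⟨_, g, rfl⟩ ↔ g⁻¹ • a = a := by
      simp only [ε, decide_eq_true_eq]
      rw [c1 (Exists.choose_spec (⟨g, rfl⟩ : A.l g ∈ Set.range A.l))]
    split_ifs with e
    exacts [.inl ⟨rfl, this.1 e⟩, .inr ⟨rfl, (f _).resolve_left (mt this.2 e)⟩]
  refine ⟨M, c2, fun a => ?_, fun a => a.stab h.hz ?_ hu⟩
  · refine a.ctrl h hW (ι := Fin Q) (fun r y ζ => ∃ z ∈ Zn n, M.r z = y.1 ∧
      Tor A ((r + 1 : ℕ) / p) Set.univ z (y.2 • 0) ζ) ?_ ?_ t1 t2 (fun x _ => ?_)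
      (a2.mono fun g k => t3 g (.inl k)) (a4.mono fun g k => t3 g (.inr k)) e1 e2
    · rintro r y ζ ζ' ⟨z, z1, z2, z3⟩ ⟨z', z4, z5, z6⟩
      obtain ⟨w, w1, w2⟩ := M.ker _ (sub_mem z1 z4) (by
        rw [M.sub (le_loc z1) (le_loc z4), z2, z5, sub_self])
      refine z3.uniq z6 (by positivity) (g := 1) trivial ?_
      rw [w2, inv_one, A.l_one, smul_smul, div_mul_cancel₀ _ p1, Nat.cast_smul_eq_nsmul]
      exact nsmul_mem w1 _
    · rintro r g y ζ ⟨z, z1, z2, z3⟩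
      exact ⟨g • z, hΛ g z z1, by rw [M.smul g z (le_loc z1), z2]; rfl,
        by simpa [mul_smul] using z3.smul g fun _ _ => trivial⟩
    · obtain ⟨z, z1, rfl⟩ := M.surj x
      obtain ⟨r, w, w1, w2⟩ := hQ (-(p : ℚ)⁻¹ • z)
      have r0 : ((r + 1 : ℕ) : ℚ) ≠ 0 := by positivity
      refine ⟨r, z + (p / (r + 1 : ℕ) : ℚ) • w, fun g hg => ⟨z, z1, rfl, tor_mk (g := 1)
        (fun k _ => ⟨hl _, b2 _ ⟨_, rfl⟩⟩) b1 ?_ ?_⟩⟩ <;> rw [inv_one, A.l_one]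
      · rwa [add_sub_cancel_left, smul_smul, div_mul_div_cancel₀ p1, div_self r0, one_smul]
      · rw [show ∀ y, ((r + 1 : ℕ) / p : ℚ) • (y - (z + (p / (r + 1 : ℕ) : ℚ) • w)) =
          (((r + 1 : ℕ) : ℚ) • -(p : ℚ)⁻¹ • z - w) + ((r + 1 : ℕ) / p : ℚ) • y from fun y => by
            match_scalars <;> field_simp]
        refine (norm_add_le _ _).trans_lt ?_
        have q1 : ‖((r + 1 : ℕ) / p : ℚ) • g • (0 : Fin n → ℚ)‖ ≤ Q / p * d := by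
          rw [norm_smul, norm_div, ← Rat.norm_cast_real, ← Rat.norm_cast_real]
          simp only [Rat.cast_natCast, Real.norm_natCast]
          have := hd ⟨g, hg, rfl⟩
          gcongr
          exact r.2
        have q2 : Q / p * d < 1 / (4 * b) := by
          have : (d' : ℝ) < p := Nat.cast_lt.2 ((le_max_right _ _).trans_lt k)
          rw [div_mul_eq_mul_div, div_lt_div_iff₀ p0 (by positivity)]
          linarith
        calc _ < 1 / (4 * b) + 1 / (4 * b) := by linarith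
          _ = _ := by field_simp; norm_num
  · rintro _ ⟨a, a0, rfl⟩
    obtain ⟨g, hg⟩ := not_forall.1 fun f : M.B.Fix a => a0 (c2 a f)
    exact hW' _ g⁻¹ fun k m e => hg (by
      have := c1 e a
      rw [inv_inv] at this
      rw [← this]
      exact M.B.pm_fix (inv_mem m))

end GC

end Pool.Agent.Lib.MP_5d3e93_al
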