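import Pool.Agent.Lib.MP_5d3e93_al.DefsP

/-! Subgroups that are small with respect to a family of actions. -/

namespace Pool.Agent.Lib.MP_5d3e93_al

universe w w'

/-- The stabiliser in `D` of every point of the product of the `W i` has the property `LocHyper`. -/
def Small {G : Type w} [Group G] {ι : Type} (W : ι → Type w') [∀ i, MulAction G (W i)]
    (D : Subgroup G) : Prop :=
  ∀ x : ∀ i, W i, LocHyper ↥(D ⊓ MulAction.stabilizer G x)

end Pool.Agent.Lib.MP_5d3e93_al
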