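import Pool.Agent.Lib.MP_5d3e93_al.PrB
import Pool.Agent.Lib.MP_5d3e93_al.DefsS

/-! Actions on products of trees. -/

open CategoryTheory Limits MulAction
open scoped Pointwise

namespace Pool.Agent.Lib.MP_5d3e93_al

universe w w' w'' v u

variable {Γ : Type w} [Group Γ]

/-- One step between cosets. -/
def Cst (D : Subgroup Γ) (Ω : Set Γ) (a b : Γ ⧸ D) : Prop :=
  ∃ g : Γ, ∃ o ∈ Ω, a = g ∧ b = (g * o : Γ)

variable {D : Subgroup Γ} {Ω : Set Γ}

theorem Cst.smul (g : Γ) (a b : Γ ⧸ D) : Cst D Ω a b → Cst D Ω (g • a) (g • b) := by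
  rintro ⟨k, o, c, rfl, rfl⟩
  exact ⟨g * k, o, c, rfl, congrArg _ (mul_assoc g k o).symm⟩

theorem Fr.step (h : Fr D Ω) {a : Γ} {b : Γ ⧸ D} (k : Cst D Ω a b) : ∃ o ∈ Ω, b = (a * o : Γ) := by
  obtain ⟨g, o, c, d, rfl⟩ := k
  exact ⟨_, h.left _ (QuotientGroup.eq.1 d) _ c, by simp [mul_assoc]⟩

theorem Fr.pth (h : Fr D Ω) {k : ℕ} : ∀ {a : Γ} {b : Γ ⧸ D}, Pth (Cst D Ω) k a b →
    ∃ o ∈ Ω ^ k, b = (a * o : Γ) := by
  induction k with
  | zero => exact fun e => ⟨1, by simp, by simpa using e.symm⟩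
  | succ k ih =>
    rintro a b ⟨c, e, f⟩
    obtain ⟨o, p, rfl⟩ := h.step e
    obtain ⟨o', p', rfl⟩ := ih f
    exact ⟨o * o', pow_succ' Ω k ▸ Set.mul_mem_mul p p', by rw [mul_assoc]⟩

theorem Fr.uniq (h : Fr D Ω) (k : ℕ) (σ τ x y : Γ ⧸ D) (a : Cst D Ω σ τ) (b : Cst D Ω σ x)
    (p : Pth (Cst D Ω) k τ y) (q : Pth (Cst D Ω) k x y) : τ = x := by
  obtain _ | k := k
  · exact (show τ = y from p).trans (show x = y from q).symm
  obtain ⟨g, rfl⟩ := QuotientGroup.mk_surjective σ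
  obtain ⟨o, a', rfl⟩ := h.step a
  obtain ⟨o', b', rfl⟩ := h.step b
  obtain ⟨r, p', rfl⟩ := h.pth p
  obtain ⟨r', q', e⟩ := h.pth q
  have := h.free _ o a' o' b' _ ((h.pow k).right _ (QuotientGroup.eq.1 e) _ p') r' q' (by group)
  exact QuotientGroup.eq.2 (by simpa [mul_assoc] using this)

/-- Cosets with a height. -/
@[ext] structure Pq (D : Subgroup Γ) (Ω : Set Γ) where
  x : Γ ⧸ D
  n : ℤ

instance : Preorder (Pq D Ω) where
  le p q := ∃ k : ℕ, q.n = p.n + k ∧ Pth (Cst D Ω) k p.x q.x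
  le_refl p := ⟨0, by simp, rfl⟩
  le_trans p q r := fun ⟨k, a, b⟩ ⟨l, c, d⟩ => ⟨l + k, by rw [c, a]; push_cast; ring, b.trans d⟩

instance : MulAction (Γ × Multiplicative ℤ) (Pq D Ω) where
  smul g p := ⟨g.1 • p.x, g.2.toAdd + p.n⟩
  one_smul p := Pq.ext (one_smul Γ p.x) (zero_add _)
  mul_smul a b p := Pq.ext (mul_smul a.1 b.1 p.x) (add_assoc ..)

theorem Pq.hm (g : Γ × Multiplicative ℤ) (p q : Pq D Ω) : p ≤ q → g • p ≤ g • q :=
  fun ⟨k, a, b⟩ => ⟨k, show _ + q.n = _ + p.n + k by rw [a, add_assoc], b.smul Cst.smul g.1⟩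

/-- The graded poset of a free pair. -/
def Fr.gp (h : Fr D Ω) : Gp (Γ × Multiplicative ℤ) (Pq D Ω) Unit where
  h p _ := p.n
  χ _ := ⟨fun g => g.2.toAdd, fun _ _ => rfl⟩
  hm := Pq.hm
  smul _ _ _ := rfl
  mono := fun ⟨k, a, _⟩ _ => by simp [a]
  fac {x z a} := fun ⟨k, b, c⟩ d e => by
    have d' : x.n ≤ a () := d ()
    have e' : a () ≤ z.n := e ()
    obtain ⟨l, m, rfl, f⟩ : ∃ l m : ℕ, k = m + l ∧ a () = x.n + l :=
      ⟨(a () - x.n).toNat, (z.n - a ()).toNat, by omega, by omega⟩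
    obtain ⟨y, p, q⟩ := c.split
    exact ⟨⟨y, a ()⟩, ⟨l, f, p⟩, ⟨m, by rw [b, f]; push_cast; ring, q⟩, rfl⟩
  uniq {x y y' z} := fun ⟨k, a, b⟩ ⟨l, c, d⟩ ⟨k', a', b'⟩ ⟨l', c', d'⟩ e => by
    have e' : y.n = y'.n := congrFun e ()
    obtain rfl : k = k' := by omega
    obtain rfl : l = l' := by omega
    exact Pq.ext (Pth.uniq h.uniq b b' d d') e'

/-- The one-point poset. -/
def Gp.unit : Gp Γ PUnit.{w + 1} Empty :=
  ⟨fun _ => nofun, nofun, fun _ _ _ _ => le_rfl, fun _ _ => nofun, fun _ => nofun,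
    fun _ _ _ => ⟨⟨⟩, le_rfl, le_rfl, Subsingleton.elim ..⟩, fun _ _ _ _ _ => rfl⟩

section

variable {C : Type u} [Category.{v} C] [Preadditive C] [HasBinaryBiproducts C] [HasZeroObject C]

instance : Nonempty (Pq D Ω) := ⟨⟨(1 : Γ), 0⟩⟩

theorem gd_ps {σ : Act Γ C} (hK : K1Zero (TwZ (Lc.act (Z := Pq D Ω)
    (σ.comap (.fst Γ (Multiplicative ℤ))) Pq.hm))) : (SZ σ).Gd (SZ σ).nt {k | k.1 ∈ Ω} := by
  have key (n : ℕ) : ∀ g ∈ ({g | g.1.1 ∈ Ω ∧ g.1.2 = .ofAdd 1} :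
      Set ((Γ × Multiplicative ℤ) × Zi)) ^ n, g.1.2 = .ofAdd 1 ^ n := by
    induction n with
    | zero => rintro _ rfl; rfl
    | succ n ih =>
      rw [pow_succ, pow_succ]
      rintro _ ⟨a, b, c, d, rfl⟩
      exact congrArg₂ (· * ·) (ih a b) d.2
  refine (gd_loc (Ω := {g | g.1.1 ∈ Ω ∧ g.1.2 = .ofAdd 1}) (⟨(1 : Γ), 0⟩ : Pq D Ω)
    (.fst Γ (Multiplicative ℤ)) (fun n a b c d e => Prod.ext (Prod.ext
    (Prod.ext_iff.1 e).1 ((key n a b).trans (key n c d).symm)) (Prod.ext_iff.1 e).2)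
    (fun g k => ?_) hK).mono fun g k => ⟨((g.1, .ofAdd 1), g.2), ⟨k, rfl⟩, rfl⟩
  exact ⟨1, show g.1.2.toAdd + 0 = _ by rw [k.2]; rfl, _,
    ⟨1, g.1.1, k.1, rfl, rfl⟩, show _ = ((g.1.1 * 1 : Γ) : Γ ⧸ D) by rw [one_mul, mul_one]⟩

end

variable {G : Type w} [Group G] {ι : Type} {W : ι → Type w'} [∀ i, MulAction G (W i)]
variable {U : ∀ i, SimpleGraph (W i)} (hU : ∀ i, (U i).IsTree)
variable (hb : ∀ i (g : G) a b, (U i).Adj a b → (U i).Adj (g • a) (g • b))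
variable (hj : ∀ i (g : G) a b, (U i).Adj a b → g • a = b → g • b ≠ a)
include hU hb hj

theorem k1_prod (s : Finset ι) : ∀ (Γ : Type w) [Group Γ] (q : Γ →* G) (C : Type (max u v w))
    [Category.{v} C] [Preadditive C] [HasBinaryBiproducts C] [HasZeroObject C] (σ : Act Γ C)
    (Y : Type w) [Preorder Y] [MulAction Γ Y] (κ : Type) [Fintype κ] (_ : Gp Γ Y κ), Sw σ →
    Lcd Y σ → (∀ (y : Y) (x : ∀ i, W i) (N : Subgroup Γ),
      (∀ g ∈ N, g • y = y ∧ ∀ i ∈ s, q g • x i = x i) → LocHyper N) → K1Zero (TwZ σ) := by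
  classical
  induction s using Finset.induction_on with
  | empty =>
    intro Γ _ q C _ _ _ _ σ Y _ _ κ _ P hs hL h
    exact k1_gp P hs hL fun y => h y (fun i => (hU i).connected.nonempty.some) _
      fun g k => ⟨k, by simp⟩
  | insert i s hi ih =>
    intro Γ _ q C _ _ _ _ σ Y _ _ κ _ P hs hL h
    let _ : MulAction Γ (W i) := MulAction.compHom _ q
    have e (y : Y) (x : ∀ i, W i) (z : W i) (N : Subgroup Γ)
        (a : ∀ g ∈ N, g • y = y ∧ q g • z = z ∧ ∀ j ∈ s, q g • x j = x j) : LocHyper N :=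
      h y (Function.update x i z) N fun g k => ⟨(a g k).1, fun j l => by
        obtain rfl | l := Finset.mem_insert.1 l
        · simpa using (a g k).2.1
        · simpa [Function.update_of_ne (ne_of_mem_of_not_mem l hi)] using (a g k).2.2 j l⟩
    refine TR' hs.k0 (hU i) (fun g => hb i (q g)) (fun g => hj i (q g)) (fun z D a => ?_) 0
      fun z D a g b => .inl (gd_ps (D := D) ?_)
    · refine ih D (q.comp D.subtype) C _ Y κ (P.comap D.subtype fun _ _ => rfl) (hs.comap _)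
        (hL.comap _ fun _ _ => rfl) fun y x N c => Cl.map (s := LH) D.subtype_injective.injOn le_rfl
          (e y x z _ ?_)
      rintro _ ⟨g, k, rfl⟩
      exact ⟨(c g k).1, a g.2, (c g k).2⟩
    · let _ : MulAction (Γ × Multiplicative ℤ) Y := MulAction.compHom _ (MonoidHom.fst ..)
      refine ih _ (q.comp (.fst ..)) _ _ (Y × Pq D (dc D g)) _
        ((P.comap (.fst ..) fun _ _ => rfl).prod b.gp) ((hs.comap _).act _)
        ((hL.comap _ fun _ _ => rfl).act _) fun y x N c => ?_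
      obtain ⟨y, p, n⟩ := y
      obtain ⟨p, rfl⟩ := QuotientGroup.mk_surjective p
      have f (k) (l : k ∈ N) : k.2 = 1 := by
        simpa using show k.2.toAdd + n = n from congrArg (·.2.n) (c k l).1
      refine Cl.map (s := LH) (f := .fst ..) (fun k l k' l' m => Prod.ext m
        ((f k l).trans (f k' l').symm)) le_rfl (e y x (q p • z) _ ?_)
      rintro _ ⟨k, l, rfl⟩
      refine ⟨congrArg Prod.fst (c k l).1, ?_, (c k l).2⟩
      have : q ((k.1 * p)⁻¹ * p) • z = z :=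
        a (QuotientGroup.eq.1 (congrArg (·.2.x) (c k l).1))
      rw [map_mul, map_inv, mul_smul, inv_smul_eq_iff, map_mul, mul_smul] at this
      exact this.symm

variable [Finite ι] {C : Type u} [Category.{v} C] [Preadditive C] [HasBinaryBiproducts C]
variable [HasZeroObject C] {ρ : Act G C} (hs : Sw ρ)
include hs

theorem gd_sm {D : Subgroup G} {Ω : Set G} (h : Small W D) (b : Fr D Ω) :
    (SZ ρ).Gd (SZ ρ).nt {k | k.1 ∈ Ω} := by
  have := Fintype.ofFinite ι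
  refine gd_ps (D := D) (k1_prod.{w, w', v, u} hU hb hj Finset.univ _ (.fst ..) _ _ (PUnit × Pq D Ω) _
    (Gp.unit.prod b.gp) ((hs.comap _).act _) ((lcd_unit ⟨⟩).act _) fun y x N c => ?_)
  obtain ⟨y, p, n⟩ := y
  obtain ⟨p, rfl⟩ := QuotientGroup.mk_surjective p
  have f (k) (l : k ∈ N) : k.2 = 1 := by
    simpa using show k.2.toAdd + n = n from congrArg (·.2.n) (c k l).1
  refine Cl.map (s := LH) (f := (MulAut.conj p⁻¹).toMonoidHom.comp (.fst ..))
    (fun k l k' l' m => Prod.ext ((MulAut.conj p⁻¹).injective m) ((f k l).trans (f k' l').symm)) ?_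
      (h (p⁻¹ • x))
  rintro _ ⟨k, l, rfl⟩
  refine ⟨?_, funext fun i => ?_⟩
  · simpa [mul_assoc] using D.inv_mem (QuotientGroup.eq.1 (congrArg (·.2.x) (c k l).1))
  · simpa [mul_smul] using (c k l).2 i (Finset.mem_univ i)

theorem k1_sm {D : Subgroup G} (h : Small W D) : K1Zero (TwZ (ρ.comap D.subtype)) := by
  have := Fintype.ofFinite ι
  refine k1_loc (Z := PUnit.{w + 1}) (hm := fun _ _ _ _ => le_rfl) (hs.comap _) ⟨⟩ (fun _ => le_rfl)
    (k1_prod.{w, w', v, u} hU hb hj Finset.univ D D.subtype _ _ (PUnit × PUnit) _ (Gp.unit.prod Gp.unit)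
      ((hs.comap _).act _) ((lcd_unit ⟨⟩).act _) fun y x N c =>
        Cl.map (s := LH) D.subtype_injective.injOn ?_ (h x))
  rintro _ ⟨k, l, rfl⟩
  exact ⟨k.2, funext fun i => (c k l).2 i (Finset.mem_univ i)⟩

theorem prod_main {V : Type*} [MulAction G V] {T : SimpleGraph V} (hT : T.IsTree)
    (ha : ∀ (g : G) a b, T.Adj a b → T.Adj (g • a) (g • b))
    (hi : ∀ (g : G) a b, T.Adj a b → g • a = b → g • b ≠ a)
    (h1 : ∀ v : V, Small W (stabilizer G v) ∨ K1Zero (TwZ (ρ.comap (stabilizer G v).subtype)))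
    (h2 : ∀ a b, T.Adj a b → Small W (stabilizer G a ⊓ stabilizer G b) ∨
      K1Zero (TwZ (ρ.comap (stabilizer G a ⊓ stabilizer G b).subtype)))
    (hA : ∀ a b, T.Adj a b → Acc (fun D₁ D : Subgroup G => ∃ g : G,
      Half T (g • a) (g • b) ⊂ Half T a b ∧ ¬ Small W D ∧ D₁ = D ⊓ MulAut.conj g • D)
      (stabilizer G a ⊓ stabilizer G b)) : K1Zero (TwZ ρ) := by
  have k1 (v) := (h1 v).elim (k1_sm hU hb hj hs) id
  refine tree_gd hT ha hi hs.k0 (fun v => ⟨W_of_K1 hs.k0 (k1 v),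
    st_of_K1 (Subgroup.subtype_injective _) (k1 v)⟩)
    (fun a b c => W_of_K1 hs.k0 ((h2 a b c).elim (k1_sm hU hb hj hs) id)) fun a b c =>
      GC.acc_of (fun D' D => D' = D.prod ⊤) ?_ (hA a b c) _ rfl
  rintro _ D rfl g d e f
  rw [dc_prod] at e f
  exact ⟨_, ⟨g.1, d, fun k => f (gd_sm hU hb hj hs k e.fst), rfl⟩, by rw [cj_prod, cj_eq]⟩

end Pool.Agent.Lib.MP_5d3e93_al
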