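import Pool.Agent.Lib.MP_5d3e93_al.DefsT

/-! Combinatorics of half trees and of non-backtracking paths. -/

namespace Pool.Agent.Lib.MP_5d3e93_al

variable {V : Type*} {T : SimpleGraph V} {a b c d w : V}

theorem half_self : b ∈ Half T a b := SimpleGraph.Reachable.refl _

theorem half_ind {P : V → Prop} (h0 : P b)
    (h1 : ∀ c d, c ∈ Half T a b → T.Adj c d → s(c, d) ≠ s(a, b) → P c → P d)
    (h : w ∈ Half T a b) : P w := by
  have := (SimpleGraph.reachable_iff_reflTransGen _ _).1 h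
  clear h
  induction this with
  | refl => exact h0
  | tail h2 h3 ih =>
    rw [SimpleGraph.deleteEdges_adj] at h3
    exact h1 _ _ ((SimpleGraph.reachable_iff_reflTransGen _ _).2 h2) h3.1 (by simpa using h3.2) ih

theorem half_step (h : c ∈ Half T a b) (k : T.Adj c d) (e : s(c, d) ≠ s(a, b)) :
    d ∈ Half T a b :=
  SimpleGraph.Reachable.trans h (SimpleGraph.Adj.reachable
    (SimpleGraph.deleteEdges_adj.2 ⟨k, by simpa using e⟩))

theorem conn_ind (hT : T.IsTree) {P : V → Prop} (h0 : P a)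
    (h1 : ∀ c d, T.Adj c d → P c → P d) (w : V) : P w := by
  have := (SimpleGraph.reachable_iff_reflTransGen _ _).1 (hT.connected a w)
  induction this with
  | refl => exact h0
  | tail _ h3 ih => exact h1 _ _ h3 ih

theorem not_half (hT : T.IsTree) (h : T.Adj a b) : a ∉ Half T a b := fun k =>
  SimpleGraph.isAcyclic_iff_forall_adj_isBridge.1 hT.isAcyclic h k.symm

theorem half_cross (hT : T.IsTree) (h : T.Adj a b) (k : T.Adj c d) (hc : c ∈ Half T a b)
    (hd : d ∉ Half T a b) : c = b ∧ d = a := by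
  by_contra n
  refine hd (half_step hc k fun e => ?_)
  rcases Sym2.eq_iff.1 e with ⟨rfl, rfl⟩ | ⟨rfl, rfl⟩
  · exact not_half hT h hc
  · exact n ⟨rfl, rfl⟩

theorem half_disj (hT : T.IsTree) (h : T.Adj a b) (h1 : w ∈ Half T a b) : w ∉ Half T b a :=
  fun h2 => not_half hT h (h1.trans (by
    have : (T.deleteEdges {s(b, a)}).Reachable a w := h2
    rw [Sym2.eq_swap] at this
    exact this.symm))

theorem half_or (hT : T.IsTree) (h : T.Adj a b) (w : V) : w ∈ Half T a b ∨ w ∈ Half T b a := by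
  refine conn_ind hT (P := fun w => w ∈ Half T a b ∨ w ∈ Half T b a) (.inl half_self) ?_ w
  rintro c d k (h1 | h1)
  · by_cases h2 : d ∈ Half T a b
    · exact .inl h2
    · exact .inr ((half_cross hT h k h1 h2).2 ▸ half_self)
  · by_cases h2 : d ∈ Half T b a
    · exact .inr h2
    · exact .inl ((half_cross hT h.symm k h1 h2).2 ▸ half_self)

theorem half_nest (hT : T.IsTree) (h : T.Adj a b) (k : T.Adj b d) (e : d ∈ Half T a b) :
    Half T b d ⊆ Half T a b := fun _ hw =>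
  half_ind e (fun _ _ h1 h2 _ h3 => by_contra fun h4 =>
    not_half hT k (by rwa [(half_cross hT h h2 h3 h4).1] at h1)) hw

theorem half_uniq (hT : T.IsTree) (h : T.Adj a b) (k : T.Adj a c) (h1 : w ∈ Half T a b)
    (h2 : w ∈ Half T a c) : b = c := by
  by_contra e
  refine half_disj hT h h1 (half_nest hT h.symm k (half_step half_self k fun e' => ?_) h2)
  rcases Sym2.eq_iff.1 e' with ⟨rfl, -⟩ | ⟨-, rfl⟩
  exacts [h.ne rfl, e rfl]

theorem half_ex (hT : T.IsTree) (a w : V) : w = a ∨ ∃ b, T.Adj a b ∧ w ∈ Half T a b := by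
  refine conn_ind hT (P := fun w => w = a ∨ ∃ b, T.Adj a b ∧ w ∈ Half T a b) (.inl rfl) ?_ w
  rintro c d k (rfl | ⟨b, h1, h2⟩)
  · exact .inr ⟨d, k, half_self⟩
  · by_cases h3 : d ∈ Half T a b
    · exact .inr ⟨b, h1, h3⟩
    · exact .inl (half_cross hT h1 k h2 h3).2

theorem half_dist (hT : T.IsTree) (h : T.Adj a b) (hc : c ∉ Half T a b) (hw : w ∈ Half T a b) :
    T.dist a c < T.dist w c := by
  obtain ⟨p, hp⟩ := hT.connected.exists_walk_length_eq_dist w c
  rw [← hp]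
  clear hp
  induction p with
  | nil => exact (hc hw).elim
  | @cons x y z k p ih =>
    rw [SimpleGraph.Walk.length_cons]
    by_cases hy : y ∈ Half T a b
    · exact (ih hc hy).trans (Nat.lt_succ_self _)
    · obtain ⟨-, rfl⟩ := half_cross hT h k hw hy
      exact Nat.lt_succ_of_le (SimpleGraph.dist_le p)

variable (T) in
/-- Cells beyond an oriented edge. -/
def Cs (σ : V × V) : Set (V × V) :=
  {τ | T.Adj σ.1 σ.2 ∧ τ.1 ∈ Half T σ.1 σ.2 ∧ τ.2 ∈ Half T σ.1 σ.2}

variable (T) in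
/-- Non-backtracking steps. -/
def Stp (σ τ : V × V) : Prop := τ.1 = σ.2 ∧ τ ∈ Cs T σ

/-- Paths of given length. -/
def Pth {X : Type*} (R : X → X → Prop) : ℕ → X → X → Prop
  | 0, σ, τ => σ = τ
  | k + 1, σ, τ => ∃ σ', R σ σ' ∧ Pth R k σ' τ

section Gen

variable {X : Type*} {R : X → X → Prop} {σ τ x y : X}

theorem Pth.trans {k m : ℕ} (h : Pth R k σ x) (h' : Pth R m x y) : Pth R (m + k) σ y := by
  induction k generalizing σ with
  | zero => exact h ▸ h'
  | succ k ih =>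
    obtain ⟨τ, h1, h2⟩ := h
    exact ⟨τ, h1, ih h2⟩

theorem Pth.uniq (hR : ∀ k σ τ x y, R σ τ → R σ x → Pth R k τ y → Pth R k x y → τ = x)
    {k m : ℕ} {x' : X} (h : Pth R k σ x) (h' : Pth R k σ x')
    (p : Pth R m x y) (p' : Pth R m x' y) : x = x' := by
  induction k generalizing σ with
  | zero => exact h.symm.trans h'
  | succ k ih =>
    obtain ⟨τ, h1, h2⟩ := h
    obtain ⟨τ', h3, h4⟩ := h'
    obtain rfl := hR _ _ _ _ _ h1 h3 (h2.trans p) (h4.trans p')
    exact ih h2 h4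

theorem Pth.smul {G : Type*} [Group G] [MulAction G X]
    (hR : ∀ (g : G) x y, R x y → R (g • x) (g • y)) (g : G) {k : ℕ}
    (h : Pth R k σ τ) : Pth R k (g • σ) (g • τ) := by
  induction k generalizing σ with
  | zero => exact congrArg (g • ·) h
  | succ k ih =>
    obtain ⟨x, h1, h2⟩ := h
    exact ⟨_, hR g _ _ h1, ih h2⟩

end Gen

variable {σ τ x y : V × V}

theorem Stp.nest (hT : T.IsTree) (h : Stp T σ τ) (k : T.Adj τ.1 τ.2) :
    Half T τ.1 τ.2 ⊆ Half T σ.1 σ.2 := by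
  have := half_nest hT h.2.1 (h.1 ▸ k) h.2.2.2
  rwa [h.1]

theorem Pth.half (hT : T.IsTree) {k : ℕ} (h : Pth (Stp T) (k + 1) σ y) :
    T.Adj σ.1 σ.2 ∧ y.1 ∈ Half T σ.1 σ.2 := by
  induction k generalizing σ with
  | zero =>
    obtain ⟨_, h1, rfl⟩ := h
    exact ⟨h1.2.1, h1.2.2.1⟩
  | succ k ih =>
    obtain ⟨τ, h1, h2⟩ := h
    exact ⟨h1.2.1, h1.nest hT (ih h2).1 (ih h2).2⟩

theorem Pth.first (hT : T.IsTree) {k : ℕ} (h : Stp T σ τ) (h' : Stp T σ x) (p : Pth (Stp T) k τ y)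
    (p' : Pth (Stp T) k x y) : τ = x := by
  obtain _ | k := k
  · exact Eq.trans p p'.symm
  · have e : τ.1 = x.1 := h.1.trans h'.1.symm
    exact Prod.ext e (half_uniq hT (p.half hT).1 (e ▸ (p'.half hT).1) (p.half hT).2
      (e ▸ (p'.half hT).2))

theorem Pth.ssub (hT : T.IsTree) {k : ℕ} (h : Pth (Stp T) (k + 1) σ y) (hy : T.Adj y.1 y.2) :
    Half T y.1 y.2 ⊂ Half T σ.1 σ.2 := by
  induction k generalizing σ with
  | zero =>
    obtain ⟨_, h1, rfl⟩ := h
    exact ⟨h1.nest hT hy, fun k => not_half hT hy (k h1.2.2.1)⟩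
  | succ k ih =>
    obtain ⟨τ, h1, h2⟩ := h
    exact (ih h2).trans_subset (h1.nest hT (h2.half hT).1)

theorem Pth.far (hT : T.IsTree) {k : ℕ} (h : Pth (Stp T) k σ y)
    (hc : T.Adj σ.1 σ.2 → c ∉ Half T σ.1 σ.2) :
    (T.Adj y.1 y.2 → c ∉ Half T y.1 y.2) ∧ T.dist σ.1 c + k ≤ T.dist y.1 c := by
  induction k generalizing σ with
  | zero => exact h ▸ ⟨hc, le_rfl⟩
  | succ k ih =>
    obtain ⟨τ, h1, h2⟩ := h
    have := ih h2 fun k m => hc h1.2.1 (h1.nest hT k m)
    have h3 := half_dist hT h1.2.1 (hc h1.2.1) h1.2.2.1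
    exact ⟨this.1, by omega⟩

theorem Pth.near (hT : T.IsTree) {k : ℕ} (h : Pth (Stp T) k σ y) : T.dist y.1 σ.1 ≤ k := by
  induction k generalizing σ with
  | zero => rw [show σ = y from h]; simp
  | succ k ih =>
    obtain ⟨τ, h1, h2⟩ := h
    have := ih h2
    have h3 := hT.connected.dist_triangle (u := y.1) (v := τ.1) (w := σ.1)
    have h4 := SimpleGraph.dist_eq_one_iff_adj.2 h1.2.1.symm
    rw [← h1.1] at h4
    omega

section Act

variable {G : Type*} [Group G] [MulAction G V]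

theorem half_smul (ha : ∀ (g : G) a b, T.Adj a b → T.Adj (g • a) (g • b)) (g : G)
    (h : w ∈ Half T a b) : g • w ∈ Half T (g • a) (g • b) :=
  half_ind (P := fun w => g • w ∈ Half T (g • a) (g • b)) half_self
    (fun c d _ h2 h3 h4 => half_step h4 (ha g c d h2) (by simpa using h3)) h

theorem cs_smul (ha : ∀ (g : G) a b, T.Adj a b → T.Adj (g • a) (g • b)) (g : G)
    (h : τ ∈ Cs T σ) : g • τ ∈ Cs T (g • σ) :=
  ⟨ha g _ _ h.1, half_smul ha g h.2.1, half_smul ha g h.2.2⟩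

theorem Stp.smul (ha : ∀ (g : G) a b, T.Adj a b → T.Adj (g • a) (g • b)) (g : G)
    (h : Stp T σ τ) : Stp T (g • σ) (g • τ) := ⟨congrArg (g • ·) h.1, cs_smul ha g h.2⟩

variable (G V) in
theorem ex_rep : ∃ (r : V → V) (ρ : V × V → V × V), (∀ (g : G) x, r (g • x) = r x) ∧
    (∀ x, ∃ g : G, g • x = r x) ∧ (∀ (g : G) x, ρ (g • x) = ρ x) ∧ (∀ x, ∃ g : G, g • x = ρ x) ∧
    ∀ x, r x.1 = (ρ x).1 := by
  have key : ∀ (X : Type _) [MulAction G X], ∃ r : X → X, (∀ (g : G) x, r (g • x) = r x) ∧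
      ∀ x, ∃ g : G, g • x = r x := fun X _ =>
    ⟨fun x => (Quotient.mk (MulAction.orbitRel G X) x).out,
      fun g x => congrArg Quotient.out (Quotient.sound ⟨g, rfl⟩),
      fun x => Quotient.exact (s := MulAction.orbitRel G X) (Quotient.out_eq _)⟩
  obtain ⟨r, r1, r2⟩ := key V
  obtain ⟨o, o1, o2⟩ := key (V × V)
  choose γ hγ using r2
  refine ⟨r, fun x => γ (o x).1 • o x, r1, fun x => ⟨_, hγ x⟩, fun g x => by simp only [o1],
    fun x => ?_, fun x => ?_⟩
  · obtain ⟨g, hg⟩ := o2 x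
    exact ⟨γ (o x).1 * g, by rw [mul_smul, hg]⟩
  · obtain ⟨g, hg⟩ := o2 x
    rw [Prod.smul_fst, hγ, ← hg, Prod.smul_fst, r1]

theorem ex_orient (hi : ∀ (g : G) a b, T.Adj a b → g • a = b → g • b ≠ a) :
    ∃ O : V × V → Prop, (∀ (g : G) x, O x → O (g • x)) ∧ (∀ x, O x → ¬ O x.swap) ∧
      ∀ a b, T.Adj a b → O (a, b) ∨ O (b, a) := by
  let q : V × V → Quotient (MulAction.orbitRel G (V × V)) := Quotient.mk _
  have hq : ∀ (g : G) x, q (g • x) = q x := fun g x => Quotient.sound ⟨g, rfl⟩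
  refine ⟨fun x => WellOrderingRel (q x) (q x.swap), fun g x h => ?_,
    fun x h k => asymm h k, fun a b h => ?_⟩
  · change WellOrderingRel (q (g • x)) (q (g • x.swap))
    rwa [hq, hq]
  · rcases trichotomous_of WellOrderingRel (q (a, b)) (q (b, a)) with k | k | k
    · exact .inl k
    · obtain ⟨g, hg⟩ := Quotient.exact k.symm
      exact (hi g a b h (congrArg Prod.fst hg) (congrArg Prod.snd hg)).elim
    · exact .inr k

end Act

end Pool.Agent.Lib.MP_5d3e93_al
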