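import Pool.Agent.Lib.MP_5d3e93_al.Loc
import Pool.Agent.Lib.MP_5d3e93_al.TreeC

/-! Nilpotent endomorphisms moving along uniquely determined paths. -/

open CategoryTheory
open scoped Pointwise

namespace Pool.Agent.Lib.MP_5d3e93_al

universe w v u

/-- Paths with prescribed types. -/
def PW {X : Type*} (R : X → X → Prop) (ρ : X → X) : List X → X → X → Prop
  | [], σ, y => σ = y
  | τ :: κ, σ, y => ρ σ = τ ∧ ∃ σ', R σ σ' ∧ PW R ρ κ σ' y

/-- Paths with different types. -/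
def PW' {X : Type*} (R : X → X → Prop) (ρ : X → X) : List X → X → X → Prop
  | [], _, _ => False
  | τ :: κ, σ, y => (ρ σ ≠ τ ∧ Pth R (κ.length + 1) σ y) ∨ ∃ σ', R σ σ' ∧ PW' R ρ κ σ' y

section

variable {X : Type*} {R : X → X → Prop} {ρ : X → X}

theorem PW.pth {κ : List X} {σ y : X} (h : PW R ρ κ σ y) : Pth R κ.length σ y := by
  induction κ generalizing σ with
  | nil => exact h
  | cons τ κ ih =>
    obtain ⟨-, x, h1, h2⟩ := h
    exact ⟨x, h1, ih h2⟩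

theorem PW'.pth {κ : List X} {σ y : X} (h : PW' R ρ κ σ y) : Pth R κ.length σ y := by
  induction κ generalizing σ with
  | nil => exact h.elim
  | cons τ κ ih =>
    obtain h | ⟨x, h1, h2⟩ := h
    exacts [h.2, ⟨x, h1, ih h2⟩]

theorem PW.not (hR : ∀ k σ τ x y, R σ τ → R σ x → Pth R k τ y → Pth R k x y → τ = x)
    {κ : List X} {σ y : X} (h : PW R ρ κ σ y) : ¬ PW' R ρ κ σ y := by
  induction κ generalizing σ with
  | nil => exact id
  | cons τ κ ih =>
    obtain ⟨h1, x, h2, h3⟩ := h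
    rintro (h | ⟨x', h4, h5⟩)
    · exact h.1 h1
    · obtain rfl := hR _ _ _ _ _ h2 h4 h3.pth h5.pth
      exact ih h3 h5

theorem fr_pth {G : Type*} [Group G] [MulAction G X]
    (hR : ∀ k σ τ x y, R σ τ → R σ x → Pth R k τ y → Pth R k x y → τ = x)
    (hs : ∀ (g : G) x y, R x y → R (g • x) (g • y)) (τ : X) (k : ℕ) :
    Fr (MulAction.stabilizer G τ) {g : G | Pth R k τ (g • τ)} := by
  have key : ∀ n : ℕ, ∀ w ∈ {g : G | Pth R k τ (g • τ)} ^ n, Pth R (k * n) τ (w • τ) := by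
    intro n
    induction n with
    | zero =>
      intro w hw
      rw [pow_zero, Set.mem_one] at hw
      rw [hw, one_smul]
      rfl
    | succ n ih =>
      rw [pow_succ]
      rintro _ ⟨a, ha, b, hb, rfl⟩
      have := (ih a ha).trans (Pth.smul hs a hb)
      rwa [← mul_smul, add_comm] at this
  refine ⟨fun d hd a ha => ?_, fun d hd a ha => ?_, fun n a ha a' ha' w hw w' hw' e => ?_⟩
  · have := Pth.smul hs d ha
    rwa [← mul_smul, show d • τ = τ from hd] at this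
  · change Pth R k τ ((a * d) • τ)
    rwa [mul_smul, show d • τ = τ from hd]
  · have h1 := Pth.smul hs a (key n w hw)
    have h2 := Pth.smul hs a' (key n w' hw')
    rw [← mul_smul] at h1 h2
    rw [e] at h1
    change (a⁻¹ * a') • τ = τ
    rw [mul_smul, ← Pth.uniq hR ha ha' h1 h2, inv_smul_smul]

end

namespace GC

variable {G : Type w} [Group G] {C : Type u} [Category.{v} C] [Preadditive C] {S : GC G C}
variable {A Y : C} {X : Type*} [MulAction G X] {L : S.Lo X A} {R : X → X → Prop} {n : A ⟶ A}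

namespace Lo

theorem To.step (hs : ∀ (g : G) x y, R x y → R (g • x) (g • y))
    (hn : ∀ σ, L.To {τ | R σ τ} (L.e σ ≫ n)) {W : Set X} {f : Y ⟶ A} (h : L.To W f) :
    L.To {y | ∃ σ ∈ W, R σ y} (f ≫ n) :=
  h.comp hn fun g x h1 y h2 => ⟨_, h1, hs g x y h2⟩

theorem To.pw (hs : ∀ (g : G) x y, R x y → R (g • x) (g • y))
    (hn : ∀ σ, L.To {τ | R σ τ} (L.e σ ≫ n)) (k : ℕ) : ∀ {W : Set X} {f : Y ⟶ A}, L.To W f →
    L.To {y | ∃ σ ∈ W, Pth R k σ y} (f ≫ pw n k) := by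
  induction k with
  | zero =>
    intro W f h
    rw [pw_zero, Category.comp_id]
    exact h.mono fun y hy => ⟨y, hy, rfl⟩
  | succ k ih =>
    intro W f h
    rw [pw_succ, ← Category.assoc]
    exact (ih (h.step hs hn)).mono fun y ⟨x, ⟨σ, h1, h2⟩, h3⟩ => ⟨σ, h1, x, h2, h3⟩

variable {ρ : X → X}

theorem To.mul_e (hρ : ∀ (g : G) x, ρ (g • x) = ρ x) (ho : L.On fun x => ρ x = x) {W : Set X}
    {f : Y ⟶ A} (h : L.To W f) (τ : X) :
    L.To (W ∩ {x | ρ x = τ}) (f ≫ L.e τ) ∧ L.To (W ∩ {x | ρ x ≠ τ}) (f - f ≫ L.e τ) := by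
  have a : L.To W (f ≫ L.e τ) := to_of_sup (h τ) (by rw [Category.assoc, L.idem]) fun _ hg => hg
  refine ⟨a.inter ?_, (h.sub a).inter fun x => ?_⟩
  · by_cases k : ρ τ = τ
    · exact to_of_sup (S.sup_top _) (by rw [Category.assoc, L.idem]) fun g _ => (hρ g τ).trans k
    · simpa [ho τ k] using To.zero
  · by_cases k : x = τ
    · simpa [k, L.idem] using Sup.zero
    · by_cases k' : ρ x = x
      · exact (S.sup_top _).mono fun g _ e => k (k'.symm.trans ((hρ g x).symm.trans e))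
      · simpa [ho x k'] using Sup.zero

theorem To.word (hs : ∀ (g : G) x y, R x y → R (g • x) (g • y))
    (hn : ∀ σ, L.To {τ | R σ τ} (L.e σ ≫ n)) (hρ : ∀ (g : G) x, ρ (g • x) = ρ x)
    (ho : L.On fun x => ρ x = x) (κ : List X) : ∀ {W : Set X} {f : Y ⟶ A}, L.To W f →
    L.To {y | ∃ σ ∈ W, PW R ρ κ σ y} (f ≫ lp (κ.map fun τ => L.e τ ≫ n)) ∧
    L.To {y | ∃ σ ∈ W, PW' R ρ κ σ y}
      (f ≫ MP_5d3e93_al.pw n κ.length - f ≫ lp (κ.map fun τ => L.e τ ≫ n)) := by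
  induction κ with
  | nil =>
    intro W f h
    refine ⟨?_, by simpa [lp] using To.zero⟩
    rw [List.map_nil, lp, Category.comp_id]
    exact h.mono fun y hy => ⟨y, hy, rfl⟩
  | cons τ κ ih =>
    intro W f h
    obtain ⟨h1, h2⟩ := h.mul_e hρ ho τ
    obtain ⟨h3, h4⟩ := ih (h1.step hs hn)
    refine ⟨?_, ?_⟩
    · simp only [List.map_cons, lp, Category.assoc] at h3 ⊢
      exact h3.mono fun y ⟨x, ⟨σ, a1, a2⟩, a3⟩ => ⟨σ, a1.1, a1.2, x, a2, a3⟩
    · have := ((To.pw hs hn (κ.length + 1) h2).mono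
        (W' := {y | ∃ σ ∈ W, PW' R ρ (τ :: κ) σ y}) fun y ⟨σ, a1, a2⟩ =>
          ⟨σ, a1.1, .inl ⟨a1.2, a2⟩⟩).add
        (h4.mono fun y ⟨x, ⟨σ, a1, a2⟩, a3⟩ => ⟨σ, a1.1, .inr ⟨x, a2, a3⟩⟩)
      convert this using 1
      simp [lp, pw_succ]

/-- Reduction to closed paths. -/
theorem nil_path {θ : Nt C}
    (hR : ∀ k σ τ x y, R σ τ → R σ x → Pth R k τ y → Pth R k x y → τ = x)
    (hs : ∀ (g : G) x y, R x y → R (g • x) (g • y))
    (hn : ∀ σ, L.To {τ | R σ τ} (L.e σ ≫ n)) (hρ : ∀ (g : G) x, ρ (g • x) = ρ x)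
    (ho : L.On fun x => ρ x = x) {m : ℕ} (hm : MP_5d3e93_al.pw n m = 0)
    (hG : ∀ τ k, S.Gd θ {g | Pth R (k + 1) τ (g • τ)}) : θ.T (𝟙 A - n) := by
  have h0 : ∀ a ∈ Wd (fun τ => L.e τ ≫ n) m, a = 0 := by
    rintro _ ⟨κ, hκ, rfl⟩
    have h : (κ.take m).length = m := by simpa using hκ
    rw [← List.take_append_drop m κ, List.map_append, lp_append,
      L.ext_l (f := lp ((κ.take m).map fun τ => L.e τ ≫ n)) (g := 0) fun σ => ?_,
      Limits.zero_comp]
    obtain ⟨h1, h2⟩ := To.word hs hn hρ ho (κ.take m) (to_e σ)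
    rw [h, hm, Limits.comp_zero, zero_sub] at h2
    rw [Limits.comp_zero]
    refine h1.eq_zero (by simpa only [neg_neg] using h2.neg) ?_
    rintro y ⟨_, rfl, a1⟩ ⟨_, rfl, a2⟩
    exact a1.not hR a2
  refine θ.lazard h0 ?_ m 1 le_rfl (by omega) n ?_
  · rintro _ ⟨_ | ⟨τ, κ⟩, hκ, rfl⟩
    · simp at hκ
    set a := lp ((τ :: κ).map fun τ => L.e τ ≫ n) with ha
    have e : L.e τ ≫ a = a := by simp [ha, lp, reassoc_of% L.idem τ]
    rw [← e]
    refine θ.cyc _ _ (hG τ κ.length _ _ ?_ ⟨m + 1, ?_⟩)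
    · have := (To.word hs hn hρ ho (τ :: κ) (to_e τ)).1 τ
      rw [← ha, e] at this
      refine this.mono ?_
      rintro g ⟨_, rfl, h⟩
      exact h.pth
    · rw [pw_cyc, e, h0 _ (Wd.pw ⟨_, hκ, ha⟩ m)]
      simp
  · have := sum_mem (S := AddSubmonoid.closure (Wd (fun τ => L.e τ ≫ n) 1)) (t := L.s)
      fun τ _ => AddSubmonoid.subset_closure (Wd.one _ τ)
    rwa [← Preadditive.sum_comp, L.total, Category.id_comp] at this

end Lo

end GC

end Pool.Agent.Lib.MP_5d3e93_al
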