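import Pool.Agent.Lib.MP_5d3e93_al.Wn
import Pool.Agent.Lib.MP_5d3e93_al.Words

/-! The Bass-Serre tree of an HNN extension. -/

open HNNExtension MulAction
open scoped Pointwise

namespace Pool.Agent.Lib.MP_5d3e93_al

universe w

/-- Actions on trees with a condition on elliptic subgroups. -/
def OT (Γ : Type w) [Group Γ] (Φ : Subgroup Γ → Prop) : Prop :=
  ∃ (V : Type w) (_ : MulAction Γ V) (T : SimpleGraph V), T.IsTree ∧
    (∀ (g : Γ) a b, T.Adj a b → T.Adj (g • a) (g • b)) ∧
    (∀ (g : Γ) a b, T.Adj a b → g • a = b → g • b ≠ a) ∧ ∀ v : V, ∀ U ≤ stabilizer Γ v, Φ U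

theorem OT.comap {Γ Γ' : Type w} [Group Γ] [Group Γ'] {Φ : Subgroup Γ → Prop}
    {Ψ : Subgroup Γ' → Prop} (h : OT Γ Φ) (f : Γ' →* Γ) (k : ∀ U, Φ (U.map f) → Ψ U) :
    OT Γ' Ψ := by
  obtain ⟨V, _, T, a, b, c, d⟩ := h
  exact ⟨V, MulAction.compHom V f, T, a, fun g => b (f g), fun g => c (f g), fun v U e =>
    k U (d v _ (Subgroup.map_le_iff_le_comap.2 e))⟩

theorem OT.mono {Γ : Type w} [Group Γ] {Φ Ψ : Subgroup Γ → Prop} (h : OT Γ Φ)
    (k : ∀ U, Φ U → Ψ U) : OT Γ Ψ := h.comap (.id Γ) fun U e => k U (by simpa using e)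

theorem OT.triv {Γ : Type w} [Group Γ] {Φ : Subgroup Γ → Prop} (h : ∀ U, Φ U) : OT Γ Φ :=
  ⟨PUnit, inferInstance, ⊥, .of_subsingleton, fun _ _ _ => id, fun _ _ _ => False.elim,
    fun _ U _ => h U⟩

namespace Bs

variable {G : Type w} [Group G] {A B : Subgroup G} (φ : A ≃* B)

/-- The vertex group. -/
def E : Subgroup (HNNExtension G A B φ) := of.range

/-- The exponent sum. -/
def χ : Ch (HNNExtension G A B φ) :=
  ⟨fun x => (lift 1 (Multiplicative.ofAdd (1 : ℤ)) (by simp) x).toAdd, by simp⟩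

@[simp] theorem χ_of (g : G) : χ φ (of g) = 0 := by simp [χ]

@[simp] theorem χ_t : χ φ t = 1 := by simp [χ]

/-- The vertices. -/
abbrev V : Type w := HNNExtension G A B φ ⧸ E φ

variable {φ} {x y z : V φ} {g : HNNExtension G A B φ}

/-- The height. -/
noncomputable def ht (x : V φ) : ℤ := χ φ x.out

theorem ht_mk (g : HNNExtension G A B φ) : ht (g : V φ) = χ φ g := by
  obtain ⟨⟨_, d, rfl⟩, e⟩ := QuotientGroup.mk_out_eq_mul (E φ) g
  simp [ht, e]

theorem ht_smul (g : HNNExtension G A B φ) (x : V φ) : ht (g • x) = χ φ g + ht x := by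
  induction x using QuotientGroup.induction_on
  simp [ht_mk]

/-- Oriented edges. -/
def Up (x y : V φ) : Prop :=
  ∃ g : HNNExtension G A B φ, x = (g : V φ) ∧ y = (g * t : HNNExtension G A B φ)

theorem Up.ht (h : Up x y) : ht y = ht x + 1 := by
  obtain ⟨g, rfl, rfl⟩ := h
  simp [ht_mk]

theorem Up.smul (g : HNNExtension G A B φ) (x y : V φ) (h : Up x y) : Up (g • x) (g • y) := by
  obtain ⟨k, rfl, rfl⟩ := h
  exact ⟨g * k, rfl, by simp [mul_assoc]⟩

variable (φ) in
/-- The tree. -/
def T : SimpleGraph (V φ) where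
  Adj x y := Up x y ∨ Up y x
  symm := ⟨fun _ _ => Or.symm⟩
  loopless := ⟨fun _ h => by have := (h.elim id id).ht; omega⟩

theorem mk_of (g : HNNExtension G A B φ) (d : G) :
    ((g * of d : HNNExtension G A B φ) : V φ) = g :=
  (QuotientGroup.eq.2 (show _ ∈ E φ from ⟨d, by simp⟩)).symm

theorem adj (h : (T φ).Adj g y) : ∃ (d : G) (u : ℤˣ),
    y = (g * of d * t ^ (u : ℤ) : HNNExtension G A B φ) := by
  obtain ⟨k, a, rfl⟩ | ⟨k, rfl, a⟩ := h <;> obtain ⟨d, e⟩ := QuotientGroup.eq.1 a
  · exact ⟨d, 1, by simp [e]⟩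
  · exact ⟨d, -1, by simp [e]⟩

theorem word (p : (T φ).Walk x y) (h : p.edges.IsChain (· ≠ ·)) :
    ∀ g : HNNExtension G A B φ, x = g →
    ∃ w : NormalWord.ReducedWord G A B, y = (g * w.prod φ : HNNExtension G A B φ) ∧
      w.toList.length = p.length ∧ ∀ a ∈ w.toList.head?,
        p.edges.head? = some s(x, (g * of w.head * t ^ (a.1 : ℤ) : HNNExtension G A B φ)) := by
  induction p with
  | nil => exact fun g e => ⟨.empty _ _ _, by simp [NormalWord.ReducedWord.prod, e], rfl, by simp⟩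
  | @cons x z y a p ih =>
    rintro g rfl
    obtain ⟨d, u, rfl⟩ := adj a
    rw [SimpleGraph.Walk.edges_cons, List.isChain_cons] at h
    obtain ⟨w, b, c, e⟩ := ih h.2 _ rfl
    refine ⟨⟨d, (u, w.head) :: w.toList, List.isChain_cons.2 ⟨fun v f k => by_contra fun n =>
      h.1 _ (e v f) (Sym2.eq_swap.trans (congrArg _ ?_)), w.chain⟩⟩,
      by simp [b, NormalWord.ReducedWord.prod, mul_assoc], by simp [c], by simp⟩
    rcases Int.units_eq_one_or u with rfl | rfl <;> rcases Int.units_eq_one_or v.1 with l | l <;>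
      simp only [l, not_true] at n ⊢
    · simpa [equiv_eq_conj, mul_assoc] using (mk_of g (d * φ ⟨_, k⟩)).symm
    · simpa [equiv_symm_eq_conj, mul_assoc] using (mk_of g (d * φ.symm ⟨_, k⟩)).symm

theorem tree : (T φ).IsTree where
  preconnected x y := by
    have (g : HNNExtension G A B φ) : ∀ k : HNNExtension G A B φ,
        (T φ).Reachable k (k * g : HNNExtension G A B φ) := by
      induction g using induction_on with
      | of d => exact fun k => by rw [mk_of]
      | t => exact fun k => SimpleGraph.Adj.reachable (.inl ⟨k, rfl, rfl⟩)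
      | mul a b h h' => exact fun k => mul_assoc k a b ▸ (h k).trans (h' _)
      | inv a h => exact fun k => by simpa using (h (k * a⁻¹)).symm
    induction x using QuotientGroup.induction_on with | H a
    induction y using QuotientGroup.induction_on with | H b
    simpa using this (a⁻¹ * b) a
  isAcyclic x p h := by
    induction x using QuotientGroup.induction_on with | H g
    obtain ⟨w, a, b, -⟩ := word p h.edges_nodup.isChain g rfl
    rw [ReducedWord.toList_eq_nil_of_mem_of_range φ w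
      (by simpa [E] using QuotientGroup.eq.1 a)] at b
    have := h.three_le_length
    simp at b
    omega

theorem up_uniq (k : ℕ) (σ τ x y : V φ) (a : Up σ τ) (b : Up σ x) (c : Pth Up k τ y)
    (d : Pth Up k x y) : τ = x := by
  have key {τ : V φ} (k) : ∀ {z y : V φ}, z ∈ Half (T φ) σ τ → ht σ < ht z → Pth Up k z y →
      ht τ = ht σ + 1 → y ∈ Half (T φ) σ τ := by
    induction k with
    | zero => rintro z _ a - rfl -; exact a
    | succ k ih =>
      rintro z y a b ⟨u, c, d⟩ e
      have := c.ht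
      refine ih (half_step a (.inl c) fun f => ?_) (by omega) d e
      rcases Sym2.eq_iff.1 f with ⟨rfl, rfl⟩ | ⟨rfl, rfl⟩ <;> omega
  exact half_uniq tree (.inl a) (.inl b) (key k half_self (by rw [a.ht]; omega) c a.ht)
    (key k half_self (by rw [b.ht]; omega) d b.ht)

variable (φ)

theorem fr : Fr (E φ) (dc (E φ) t) := by
  convert fr_pth up_uniq Up.smul ((1 : HNNExtension G A B φ) : V φ) 1 using 1
  · exact (stabilizer_quotient _).symm
  · refine Set.ext fun g => ⟨?_, ?_⟩
    · rintro ⟨_, ⟨d, rfl⟩, _, ⟨d', rfl⟩, rfl⟩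
      exact ⟨_, ⟨of d, by simpa using (mk_of 1 d).symm, rfl⟩,
        by simpa [Pth] using (mk_of _ d').symm⟩
    · rintro ⟨_, ⟨k, a, rfl⟩, b⟩
      exact ⟨k, by simpa using QuotientGroup.eq.1 a, _, QuotientGroup.eq.1 b, by simp [mul_assoc]⟩

/-- The height structure. -/
def H : Ht (HNNExtension G A B φ) :=
  ⟨χ φ, E φ, t, by rintro _ ⟨d, rfl⟩; simp, χ_t φ, fr φ⟩

theorem gen : Subgroup.closure (insert (H φ).t (H φ).D) = ⊤ := top_le_iff.1 fun g _ => by
  induction g using induction_on with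
  | of d => exact Subgroup.subset_closure (.inr ⟨d, rfl⟩)
  | t => exact Subgroup.subset_closure (.inl rfl)
  | mul a b h h' => exact mul_mem (h trivial) (h' trivial)
  | inv a h => exact inv_mem (h trivial)

theorem ot : OT (HNNExtension G A B φ) fun U => ∃ k, ∀ u ∈ U, k⁻¹ * u * k ∈ E φ :=
  ⟨V φ, inferInstance, T φ, tree, fun g _ _ h => h.imp (Up.smul g _ _) (Up.smul g _ _),
    fun g a b h e e' => by
      have := ht_smul g a
      have := ht_smul g b
      rcases h with h | h <;> have := h.ht <;> simp only [e, e'] at * <;> omega,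
    fun v U h => by
      induction v using QuotientGroup.induction_on with | H k
      exact ⟨k, fun u e => by simpa [mul_assoc] using QuotientGroup.eq.1 (h e).symm⟩⟩

end Bs

end Pool.Agent.Lib.MP_5d3e93_al
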