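import Mathlib

/-! Additive categories with a group action, twisted group categories, vanishing of `K0`, `K1`. -/

open CategoryTheory Limits

namespace Pool.Agent.Lib.MP_5d3e93_al

universe w w' v u

/-- A strict left action of `G` on the preadditive category `C` by additive functors. -/
structure Act (G : Type w) [Group G] (C : Type u) [Category.{v} C] [Preadditive C] where
  F : G → C ⥤ C
  additive : ∀ g, (F g).Additive
  one : F 1 = 𝟭 C
  mul : ∀ g h, F (g * h) = F h ⋙ F g

variable {G : Type w} [Group G] {C : Type u} [Category.{v} C] [Preadditive C]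

/-- Restriction of the action along a homomorphism. -/
def Act.comap (ρ : Act G C) {Γ : Type w'} [Group Γ] (φ : Γ →* G) : Act Γ C where
  F γ := ρ.F (φ γ)
  additive _ := ρ.additive _
  one := by rw [map_one, ρ.one]
  mul g h := by rw [map_mul, ρ.mul]

/-- Objects of the twisted group category. -/
structure Tw (ρ : Act G C) where
  as : C

namespace Tw

open Classical

variable {ρ : Act G C}

/-- The composite of `a * g` and `b * h` is `cmp g h a b * (g * h)`. -/
def cmp {A B D : C} (g h : G) (a : A ⟶ (ρ.F g).obj B) (b : B ⟶ (ρ.F h).obj D) :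
    A ⟶ (ρ.F (g * h)).obj D :=
  a ≫ (ρ.F g).map b ≫ eqToHom (Functor.congr_obj (ρ.mul g h) D).symm

/-- Composition of finite formal sums. -/
noncomputable def mul {A B D : C} (f : Π₀ g : G, (A ⟶ (ρ.F g).obj B))
    (f' : Π₀ h : G, (B ⟶ (ρ.F h).obj D)) : Π₀ k : G, (A ⟶ (ρ.F k).obj D) :=
  f.sum fun g a => f'.sum fun h b => DFinsupp.single (g * h) (cmp g h a b)

theorem cmp_add_left {A B D : C} (g h : G) (a a' : A ⟶ (ρ.F g).obj B) (b : B ⟶ (ρ.F h).obj D) :
    cmp g h (a + a') b = cmp g h a b + cmp g h a' b := by simp [cmp]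

theorem cmp_add_right {A B D : C} (g h : G) (a : A ⟶ (ρ.F g).obj B) (b b' : B ⟶ (ρ.F h).obj D) :
    cmp g h a (b + b') = cmp g h a b + cmp g h a b' := by
  have := ρ.additive g
  simp [cmp]

theorem cmp_zero_left {A B D : C} (g h : G) (b : B ⟶ (ρ.F h).obj D) :
    cmp g h (0 : A ⟶ (ρ.F g).obj B) b = 0 := by simp [cmp]

theorem cmp_zero_right {A B D : C} (g h : G) (a : A ⟶ (ρ.F g).obj B) :
    cmp g h a (0 : B ⟶ (ρ.F h).obj D) = 0 := by
  have := ρ.additive g
  simp [cmp]

theorem mul_add {A B D : C} (f : Π₀ g : G, (A ⟶ (ρ.F g).obj B))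
    (f' f'' : Π₀ h : G, (B ⟶ (ρ.F h).obj D)) : mul f (f' + f'') = mul f f' + mul f f'' := by
  rw [mul, mul, mul, ← DFinsupp.sum_add]
  congr 1
  funext g a
  exact DFinsupp.sum_add_index (fun h => by simp [cmp_zero_right])
    fun h b b' => by rw [cmp_add_right, DFinsupp.single_add]

theorem add_mul {A B D : C} (f f' : Π₀ g : G, (A ⟶ (ρ.F g).obj B))
    (f'' : Π₀ h : G, (B ⟶ (ρ.F h).obj D)) : mul (f + f') f'' = mul f f'' + mul f' f'' :=
  DFinsupp.sum_add_index (fun g => by simp [cmp_zero_left])
    fun g a a' => by simp only [cmp_add_left, DFinsupp.single_add, DFinsupp.sum_add]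

theorem single_mul {A B D : C} (g h : G) (a : A ⟶ (ρ.F g).obj B) (b : B ⟶ (ρ.F h).obj D) :
    mul (DFinsupp.single g a) (DFinsupp.single h b) = DFinsupp.single (g * h) (cmp g h a b) := by
  rw [mul, DFinsupp.sum_single_index (by simp [cmp_zero_left]),
    DFinsupp.sum_single_index (by simp [cmp_zero_right])]

theorem zero_mul {A B D : C} (f : Π₀ h : G, (B ⟶ (ρ.F h).obj D)) :
    mul (0 : Π₀ g : G, (A ⟶ (ρ.F g).obj B)) f = 0 := DFinsupp.sum_zero_index

theorem mul_zero {A B D : C} (f : Π₀ g : G, (A ⟶ (ρ.F g).obj B)) :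
    mul f (0 : Π₀ h : G, (B ⟶ (ρ.F h).obj D)) = 0 := by
  simp [mul, DFinsupp.sum_zero_index]

theorem single_congr {A B : C} {g h : G} (e : g = h) {a : A ⟶ (ρ.F g).obj B}
    {b : A ⟶ (ρ.F h).obj B} (hab : a ≫ eqToHom (by rw [e]) = b) :
    DFinsupp.single (β := fun k => A ⟶ (ρ.F k).obj B) g a = DFinsupp.single h b := by
  subst e
  simp [← hab]

theorem ind {A B : C} {P : (Π₀ g : G, (A ⟶ (ρ.F g).obj B)) → Prop} (h0 : P 0)
    (h1 : ∀ a b, P a → P b → P (a + b)) (h2 : ∀ g a, P (DFinsupp.single g a))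
    (f : Π₀ g : G, (A ⟶ (ρ.F g).obj B)) : P f :=
  DFinsupp.induction f h0 fun g a _ _ _ h => h1 _ _ (h2 g a) h

/-- The twisted group category: a morphism from `A` to `B` is a finite formal sum of morphisms
from `A` to `g B`. -/
noncomputable instance : Category (Tw ρ) where
  Hom A B := Π₀ g : G, (A.as ⟶ (ρ.F g).obj B.as)
  id A := DFinsupp.single 1 (eqToHom (Functor.congr_obj ρ.one A.as).symm)
  comp f f' := mul f f'
  id_comp f := by
    induction f using ind with
    | h0 => exact mul_zero _
    | h1 a b ha hb => rw [mul_add, ha, hb]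
    | h2 g a =>
      rw [single_mul]
      exact single_congr (one_mul g) (by simp [cmp, Functor.congr_hom ρ.one a])
  comp_id f := by
    induction f using ind with
    | h0 => exact zero_mul _
    | h1 a b ha hb => rw [add_mul, ha, hb]
    | h2 g a =>
      rw [single_mul]
      exact single_congr (mul_one g) (by simp [cmp, eqToHom_map])
  assoc f f' f'' := by
    induction f using ind with
    | h0 => simp only [zero_mul]
    | h1 a b ha hb => simp only [add_mul, ha, hb]
    | h2 g a =>
      induction f' using ind with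
      | h0 => simp only [zero_mul, mul_zero]
      | h1 a b ha hb => simp only [add_mul, mul_add, ha, hb]
      | h2 h b =>
        induction f'' using ind with
        | h0 => simp only [mul_zero]
        | h1 a b ha hb => simp only [mul_add, ha, hb]
        | h2 k c =>
          simp only [single_mul]
          exact single_congr (mul_assoc g h k)
            (by simp [cmp, Functor.congr_hom (ρ.mul g h) c, eqToHom_map])

noncomputable instance : Preadditive (Tw ρ) where
  homGroup A B := DFinsupp.addCommGroup (β := fun g => A.as ⟶ (ρ.F g).obj B.as)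
  add_comp _ _ _ := add_mul
  comp_add _ _ _ := mul_add

end Tw

/-- `K0 = 0`: any two objects are stably isomorphic. -/
def K0Zero (C : Type u) [Category.{v} C] [Preadditive C] [HasBinaryBiproducts C] : Prop :=
  ∀ A B : C, ∃ D : C, Nonempty (A ⊞ D ≅ B ⊞ D)

/-- `K1 = 0`: every automorphism becomes, after adding an identity, a product of commutators. -/
def K1Zero (D : Type u) [Category.{v} D] [Preadditive D] : Prop :=
  ∀ (A : D) (a : Aut A), ∃ (B E : D) (i : A ⟶ B) (r : B ⟶ A) (i' : E ⟶ B) (r' : B ⟶ E),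
    i ≫ r = 𝟙 A ∧ i' ≫ r' = 𝟙 E ∧ r ≫ i + r' ≫ i' = 𝟙 B ∧
      ∃ b ∈ commutator (Aut B), b.hom = r ≫ a.hom ≫ i + r' ≫ i'

/-- The free abelian group of countably infinite rank. -/
abbrev Zi : Type := Multiplicative (ℕ →₀ ℤ)

/-- The twisted group category of `G × Zi`, with `Zi` acting trivially. -/
abbrev TwZ (ρ : Act G C) : Type u := Tw (ρ.comap (MonoidHom.fst G Zi))

end Pool.Agent.Lib.MP_5d3e93_al
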