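import Pool.Agent.Lib.MP_5d3e93_al.Tri
import Pool.Agent.Lib.MP_5d3e93_al.Defs

/-! Comparison of `Tr` with stable products of commutators, and fresh central variables. -/

open CategoryTheory

namespace Pool.Agent.Lib.MP_5d3e93_al

universe w v u

namespace GC

variable {G : Type w} [Group G] {C : Type u} [Category.{v} C] [Preadditive C] {S : GC G C}
variable {A B D E : C} {H : Subgroup G}

theorem Tr.rot {a : A ⟶ B} {a' : B ⟶ A} (h : S.Sup H a) (h' : S.Sup H a') (e : a ≫ a' = 𝟙 A)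
    (e' : a' ≫ a = 𝟙 B) : S.Tr H (S.blk 0 a (-a') 0) := by
  have : S.blk 0 a (-a') 0 = S.blk (𝟙 A) a 0 (𝟙 B) ≫ S.blk (𝟙 A) 0 (-a') (𝟙 B) ≫
      S.blk (𝟙 A) a 0 (𝟙 B) := by simp [e, e']
  rw [this]
  exact (upper h).comp ((lower h'.neg).comp (upper h))

theorem Tr.wh {a a' : A ⟶ A} (h : S.Sup H a) (h' : S.Sup H a') (e : a ≫ a' = 𝟙 A)
    (e' : a' ≫ a = 𝟙 A) : S.Tr H (S.blk a 0 0 a') := by
  have : S.blk a 0 0 a' = S.blk 0 a (-a') 0 ≫ S.blk 0 (-𝟙 A) (-(-𝟙 A)) 0 := by simp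
  rw [this]
  exact (rot h h' e e').comp (rot (Sup.id H.one_mem).neg (Sup.id H.one_mem).neg (by simp) (by simp))

theorem Tr.conj {p : A ⟶ B} {q : B ⟶ A} (h : S.Sup H p) (h' : S.Sup H q) (e : p ≫ q = 𝟙 A)
    (e' : q ≫ p = 𝟙 B) {x : B ⟶ B} (hx : S.Tr H x) : S.Tr H (p ≫ x ≫ q) := by
  have : S.blk (p ≫ x ≫ q) 0 0 (𝟙 B) = S.blk 0 p (-q) 0 ≫ S.blk (𝟙 A) 0 0 x ≫
      S.blk 0 (-p) (-(-q)) 0 := by simp [e']
  refine of_bd (D := B) ?_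
  rw [this]
  exact (rot h h' e e').comp ((hx.id_bd A).comp (rot h.neg h'.neg (by simpa) (by simpa)))

theorem Tr.comm {a a' b b' : A ⟶ A} (ha : S.Sup H a) (ha' : S.Sup H a') (hb : S.Sup H b)
    (hb' : S.Sup H b') (e1 : a ≫ a' = 𝟙 A) (e2 : a' ≫ a = 𝟙 A) (e3 : b ≫ b' = 𝟙 A)
    (e4 : b' ≫ b = 𝟙 A) : S.Tr H (a ≫ b ≫ a' ≫ b') := by
  have : S.blk (a ≫ b ≫ a' ≫ b') 0 0 (𝟙 A) = S.blk a 0 0 a' ≫ S.blk b 0 0 b' ≫
      S.blk (a' ≫ b') 0 0 (b ≫ a) := by simp [reassoc_of% e4, e2]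
  refine of_bd (D := A) ?_
  rw [this]
  exact (wh ha ha' e1 e2).comp ((wh hb hb' e3 e4).comp (wh (ha'.scomp hb') (hb.scomp ha)
    (by simp [reassoc_of% e4, e2]) (by simp [reassoc_of% e1, e3])))

variable (S) in
/-- A class of automorphisms containing the commutators and stable under constant split
embeddings. -/
structure Th where
  T : ∀ {A : C}, (A ⟶ A) → Prop
  id : ∀ A : C, T (𝟙 A)
  comp : ∀ {A : C} {f g : A ⟶ A}, T f → T g → T (f ≫ g)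
  inv : ∀ {A : C} {f : A ⟶ A}, T f → ∃ g, T g ∧ f ≫ g = 𝟙 A ∧ g ≫ f = 𝟙 A
  comm : ∀ {A : C} {a a' b b' : A ⟶ A}, a ≫ a' = 𝟙 A → a' ≫ a = 𝟙 A → b ≫ b' = 𝟙 A →
    b' ≫ b = 𝟙 A → T (a ≫ b ≫ a' ≫ b')
  tr : ∀ {A B : C} {i : A ⟶ B} {r : B ⟶ A}, S.Sup {1} i → S.Sup {1} r → i ≫ r = 𝟙 A →
    ∀ {f : A ⟶ A}, T f → T (r ≫ f ≫ i + (𝟙 B - r ≫ i))

namespace Th

variable (θ : S.Th)

/-- Stably in the class. -/
def St (f : A ⟶ A) : Prop := ∃ D : C, θ.T (S.blk f 0 0 (𝟙 D))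

/-- Stably in the class up to a constant isomorphism. -/
def Zt (f : A ⟶ B) : Prop :=
  ∃ (D : C) (c : S.sum B D ⟶ S.sum A D), S.HIso 1 c ∧ θ.St (S.blk f 0 0 (𝟙 D) ≫ c)

variable {θ}

theorem emb {f : A ⟶ A} (h : θ.T (S.blk f 0 0 (𝟙 D))) {i : D ⟶ E} {r : E ⟶ D}
    (hi : S.Sup {1} i) (hr : S.Sup {1} r) (e : i ≫ r = 𝟙 D) : θ.T (S.blk f 0 0 (𝟙 E)) := by
  have := θ.tr (i := S.blk (𝟙 A) 0 0 i) (r := S.blk (𝟙 A) 0 0 r)
    (.blk (.id rfl) .zero .zero hi) (.blk (.id rfl) .zero .zero hr) (by simp [e]) h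
  convert this using 1
  apply S.hom_ext <;> simp

theorem St.of_T {f : A ⟶ A} (h : θ.T f) : θ.St f := by
  refine ⟨A, ?_⟩
  convert θ.tr (sup_inl (B := A) rfl) (sup_fst rfl) (by simp) h using 1
  apply S.hom_ext <;> simp

theorem St.two {f g : A ⟶ A} (hf : θ.St f) (hg : θ.St g) :
    ∃ D, θ.T (S.blk f 0 0 (𝟙 D)) ∧ θ.T (S.blk g 0 0 (𝟙 D)) := by
  obtain ⟨D, hf⟩ := hf
  obtain ⟨E, hg⟩ := hg
  exact ⟨S.sum D E, emb hf (sup_inl rfl) (sup_fst rfl) (by simp),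
    emb hg (sup_inr rfl) (sup_snd rfl) (by simp)⟩

theorem St.comp {f g : A ⟶ A} (hf : θ.St f) (hg : θ.St g) : θ.St (f ≫ g) := by
  obtain ⟨D, h1, h2⟩ := hf.two hg
  exact ⟨D, by simpa using θ.comp h1 h2⟩

theorem St.cancel {f g : A ⟶ A} (hg : θ.St g) (h : θ.St (f ≫ g)) : θ.St f := by
  obtain ⟨D, h1, h2⟩ := hg.two h
  obtain ⟨k, h3, h4, -⟩ := θ.inv h1
  refine ⟨D, ?_⟩
  have e : S.blk (f ≫ g) 0 0 (𝟙 D) = S.blk f 0 0 (𝟙 D) ≫ S.blk g 0 0 (𝟙 D) := by simp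
  have := θ.comp h2 h3
  rwa [e, Category.assoc, h4, Category.comp_id] at this

theorem conj1 {c : A ⟶ B} {c' : B ⟶ A} (h : S.Sup {1} c) (h' : S.Sup {1} c') (e : c ≫ c' = 𝟙 A)
    (e' : c' ≫ c = 𝟙 B) {f : A ⟶ A} (hf : θ.T f) : θ.T (c' ≫ f ≫ c) := by
  simpa [e'] using θ.tr h h' e hf

theorem St.conj1 {c : A ⟶ B} {c' : B ⟶ A} (h : S.Sup {1} c) (h' : S.Sup {1} c')
    (e : c ≫ c' = 𝟙 A) (e' : c' ≫ c = 𝟙 B) {f : A ⟶ A} (hf : θ.St f) : θ.St (c' ≫ f ≫ c) := by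
  obtain ⟨D, hf⟩ := hf
  have := Th.conj1 (c := S.blk c 0 0 (𝟙 D)) (c' := S.blk c' 0 0 (𝟙 D))
    (.blk h .zero .zero (.id rfl)) (.blk h' .zero .zero (.id rfl)) (by simp [e]) (by simp [e']) hf
  exact ⟨D, by simpa using this⟩

theorem St.of_bd {f : A ⟶ A} (h : θ.St (S.blk f 0 0 (𝟙 D))) : θ.St f := by
  obtain ⟨E, h⟩ := h
  refine ⟨S.sum D E, ?_⟩
  have := Th.conj1 (S.sup_asc (by simp) A D E) (S.sup_asc' (by simp) A D E) (S.asc_asc' _ _ _)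
    (S.asc'_asc _ _ _) h
  simpa [asc, asc', S.total] using this

theorem St.tr {i : A ⟶ B} {r : B ⟶ A} (hi : S.Sup {1} i) (hr : S.Sup {1} r) (e : i ≫ r = 𝟙 A)
    {f : A ⟶ A} (h : θ.St f) : θ.St (r ≫ f ≫ i + (𝟙 B - r ≫ i)) := by
  obtain ⟨D, h⟩ := h
  refine ⟨D, ?_⟩
  convert θ.tr (i := S.blk i 0 0 (𝟙 D)) (r := S.blk r 0 0 (𝟙 D))
    (.blk hi .zero .zero (.id rfl)) (.blk hr .zero .zero (.id rfl)) (by simp [e]) h using 1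
  apply S.hom_ext <;> simp

theorem St.bd {f : A ⟶ A} (h : θ.St f) (D : C) : θ.St (S.blk f 0 0 (𝟙 D)) := by
  convert h.tr (sup_inl (B := D) rfl) (sup_fst rfl) (by simp) using 1
  apply S.hom_ext <;> simp

theorem St.bd' {f : A ⟶ A} (h : θ.St f) (D : C) : θ.St (S.blk (𝟙 D) 0 0 f) := by
  convert h.tr (sup_inr (A := D) rfl) (sup_snd rfl) (by simp) using 1
  apply S.hom_ext <;> simp

theorem St.conj {p : A ⟶ B} {q : B ⟶ A} (e : p ≫ q = 𝟙 A) (e' : q ≫ p = 𝟙 B) {x x' : B ⟶ B}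
    (e1 : x ≫ x' = 𝟙 B) (e2 : x' ≫ x = 𝟙 B) (hx : θ.St x) : θ.St (p ≫ x ≫ q) := by
  refine St.of_bd (D := B) ?_
  have := (St.of_T (θ.comm (a := S.blk 0 p (-q) 0) (a' := S.blk 0 (-p) q 0)
    (b := S.blk (𝟙 A) 0 0 x) (b' := S.blk (𝟙 A) 0 0 x') (by simp [e, e']) (by simp [e, e'])
    (by simp [e1]) (by simp [e2]))).comp (hx.bd' A)
  simpa [e', e2] using this

theorem St.upper (x : A ⟶ B) : θ.St (S.blk (𝟙 A) x 0 (𝟙 B)) := by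
  refine ⟨A, ?_⟩
  have := θ.comm (A := S.sum (S.sum A B) A) (a := S.blk (𝟙 _) (S.fst A B) 0 (𝟙 A))
    (a' := S.blk (𝟙 _) (-S.fst A B) 0 (𝟙 A)) (b := S.blk (𝟙 _) 0 (x ≫ S.inr A B) (𝟙 A))
    (b' := S.blk (𝟙 _) 0 (-x ≫ S.inr A B) (𝟙 A)) (by simp) (by simp) (by simp) (by simp)
  convert this using 1
  simp
  congr 1
  apply S.hom_ext <;> simp

theorem Zt.emb {f : A ⟶ B} {c : S.sum B D ⟶ S.sum A D} (hc : S.HIso 1 c)
    (h : θ.St (S.blk f 0 0 (𝟙 D) ≫ c)) {i : D ⟶ E} {r : E ⟶ D} {D' : C} {i' : D' ⟶ E}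
    {r' : E ⟶ D'} (hi : S.Sup {1} i) (hr : S.Sup {1} r) (hi' : S.Sup {1} i') (hr' : S.Sup {1} r')
    (e : i ≫ r = 𝟙 D) (_e1 : i' ≫ r' = 𝟙 D') (e2 : i ≫ r' = 0) (e3 : i' ≫ r = 0)
    (e4 : r ≫ i + r' ≫ i' = 𝟙 E) :
    ∃ c2 : S.sum B E ⟶ S.sum A E, S.HIso 1 c2 ∧ θ.St (S.blk f 0 0 (𝟙 E) ≫ c2) := by
  obtain ⟨h1, c', h2, h3, h4⟩ := hc
  rw [inv_one] at h2
  have m : ∀ {X Y Z : C} {a : X ⟶ Y} {b : Y ⟶ Z}, S.Sup {1} a → S.Sup {1} b →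
      S.Sup {1} (a ≫ b) := fun ha hb => .one_comp ha.cp_eq hb
  have b1 : ∀ (X : C) {Y Z : C} {a : Y ⟶ Z}, S.Sup {1} a → S.Sup {1} (S.blk (𝟙 X) 0 0 a) :=
    fun _ _ _ _ ha => .blk (.id rfl) .zero .zero ha
  have e5 : r' ≫ i' = 𝟙 E - r ≫ i := by rw [← e4]; abel
  refine ⟨S.blk (𝟙 B) 0 0 r ≫ c ≫ S.blk (𝟙 A) 0 0 i + S.blk 0 0 0 (r' ≫ i'),
    ⟨(m (b1 _ hr) (m h1 (b1 _ hi))).add (.blk .zero .zero .zero (m hr' hi')),
    S.blk (𝟙 A) 0 0 r ≫ c' ≫ S.blk (𝟙 B) 0 0 i + S.blk 0 0 0 (r' ≫ i'),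
    by simpa using (m (b1 _ hr) (m h2 (b1 _ hi))).add (.blk .zero .zero .zero (m hr' hi')),
    ?_, ?_⟩, ?_⟩
  · have z : ∀ X Y : C, S.blk (𝟙 X) 0 0 i ≫ S.blk (0 : X ⟶ Y) 0 0 (r' ≫ i') = 0 :=
      fun X Y => by apply S.hom_ext <;> simp [reassoc_of% e2]
    have z' : ∀ X Y : C, S.blk (0 : X ⟶ Y) 0 0 (r' ≫ i') ≫ S.blk (𝟙 Y) 0 0 r = 0 :=
      fun X Y => by apply S.hom_ext <;> simp [e3]
    have z1 : ∀ X : C, S.blk (𝟙 X) 0 0 i ≫ S.blk (𝟙 X) 0 0 r = 𝟙 _ := fun X => by simp [e]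
    simp only [Preadditive.add_comp, Preadditive.comp_add, Category.assoc, z, reassoc_of% z',
      reassoc_of% z1, reassoc_of% h3, Limits.comp_zero, Limits.zero_comp]
    apply S.hom_ext <;> simp [e5, reassoc_of% e]
  · have z : ∀ X Y : C, S.blk (𝟙 X) 0 0 i ≫ S.blk (0 : X ⟶ Y) 0 0 (r' ≫ i') = 0 :=
      fun X Y => by apply S.hom_ext <;> simp [reassoc_of% e2]
    have z' : ∀ X Y : C, S.blk (0 : X ⟶ Y) 0 0 (r' ≫ i') ≫ S.blk (𝟙 Y) 0 0 r = 0 :=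
      fun X Y => by apply S.hom_ext <;> simp [e3]
    have z1 : ∀ X : C, S.blk (𝟙 X) 0 0 i ≫ S.blk (𝟙 X) 0 0 r = 𝟙 _ := fun X => by simp [e]
    simp only [Preadditive.add_comp, Preadditive.comp_add, Category.assoc, z, reassoc_of% z',
      reassoc_of% z1, reassoc_of% h4, Limits.comp_zero, Limits.zero_comp]
    apply S.hom_ext <;> simp [e5, reassoc_of% e]
  · convert h.tr (b1 A hi) (b1 A hr) (by simp [e]) using 1
    apply S.hom_ext <;> simp [e5]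

theorem Zt.comp {f : A ⟶ B} {g : B ⟶ E} (hf : θ.Zt f) (hg : θ.Zt g) : θ.Zt (f ≫ g) := by
  obtain ⟨D, c, h1, h2⟩ := hf
  obtain ⟨D', d, h3, h4⟩ := hg
  obtain ⟨c2, k1, k2⟩ := Zt.emb h1 h2 (sup_inl (B := D') rfl) (sup_fst rfl) (sup_inr rfl)
    (sup_snd rfl) (by simp) (by simp) (by simp) (by simp) (S.total _ _)
  obtain ⟨d2, k3, k4⟩ := Zt.emb h3 h4 (sup_inr (A := D) rfl) (sup_snd rfl) (sup_inl rfl)
    (sup_fst rfl) (by simp) (by simp) (by simp) (by simp) (by rw [add_comm, S.total])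
  obtain ⟨a1, c', a2, a3, a4⟩ := k1
  obtain ⟨b1, d', b2, b3, b4⟩ := k3
  rw [inv_one] at a2 b2
  refine ⟨_, d2 ≫ c2, ⟨.one_comp b1.cp_eq a1, c' ≫ d', by simpa using Sup.one_comp a2.cp_eq b2,
    by simp [reassoc_of% a3, b3], by simp [reassoc_of% b4, a4]⟩, ?_⟩
  have := k2.comp (k4.conj1 a1 a2 a3 a4)
  simp only [Category.assoc, reassoc_of% a3] at this
  rw [← Category.assoc] at this
  simpa using this

theorem Zt.bd {f : A ⟶ B} (hf : θ.Zt f) (E : C) : θ.Zt (S.blk f 0 0 (𝟙 E)) := by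
  obtain ⟨D, c, h1, h2⟩ := hf
  obtain ⟨c2, k1, k2⟩ := Zt.emb h1 h2 (sup_inr (A := E) rfl) (sup_snd rfl) (sup_inl rfl)
    (sup_fst rfl) (by simp) (by simp) (by simp) (by simp) (by rw [add_comm, S.total])
  obtain ⟨a1, c', a2, a3, a4⟩ := k1
  rw [inv_one] at a2
  have s1 := fun X => S.sup_asc (X := {1}) rfl X E D
  have s2 := fun X => S.sup_asc' (X := {1}) rfl X E D
  refine ⟨D, S.asc B E D ≫ c2 ≫ S.asc' A E D, ⟨.one_comp (s1 B).cp_eq (.one_comp a1.cp_eq (s2 A)),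
    S.asc A E D ≫ c' ≫ S.asc' B E D,
    by simpa using Sup.one_comp (s1 A).cp_eq (.one_comp a2.cp_eq (s2 B)),
    by simp [reassoc_of% S.asc'_asc, reassoc_of% a3, S.asc_asc'],
    by simp [reassoc_of% S.asc'_asc, reassoc_of% a4, S.asc_asc']⟩, ?_⟩
  have := k2.conj1 (s2 A) (s1 A) (S.asc'_asc _ _ _) (S.asc_asc' _ _ _)
  have e : S.asc A E D ≫ S.blk f 0 0 (𝟙 _) = S.blk (S.blk f 0 0 (𝟙 E)) 0 0 (𝟙 D) ≫
      S.asc B E D := by simp [asc]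
  simpa only [Category.assoc, reassoc_of% e] using this

theorem st_of_tr (h1 : ∀ {A : C} (f : A ⟶ A), S.HIso 1 f → θ.St f)
    (hg : ∀ g ∈ H, ∀ {A B : C} (f : A ⟶ B), S.HIso g f → θ.Zt f) {x : A ⟶ A} (h : S.Tr H x) :
    θ.St x := by
  have key : ∀ {A B : C} {f : A ⟶ B}, S.Tr0 H f → θ.Zt f := by
    intro A B f h
    induction h with
    | one h => exact hg 1 H.one_mem _ h
    | hom D k h => exact (hg _ k _ h).bd D
    | @upper A B x h => exact ⟨A, 𝟙 _, S.hiso_id _, by simpa using (St.upper x).bd A⟩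
    | comp _ _ h1 h2 => exact h1.comp h2
  obtain ⟨D, h⟩ := h
  obtain ⟨E, c, h2, h3⟩ := key h
  exact ((h1 c h2).cancel h3).of_bd.of_bd

end Th

end GC

namespace GC

variable {G : Type w} [Group G] {C : Type u} [Category.{v} C] [Preadditive C]

/-- The second factor acts by natural automorphisms of the identity. -/
def Central (S : GC (G × Zi) C) : Prop :=
  ∀ z : Zi, ∃ φ ψ : ∀ A : C, A ⟶ A, (∀ A, S.Sup {(1, z)} (φ A)) ∧ (∀ A, S.Sup {(1, z⁻¹)} (ψ A)) ∧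
    (∀ A, φ A ≫ ψ A = 𝟙 A) ∧ (∀ A, ψ A ≫ φ A = 𝟙 A) ∧
    ∀ {A B : C} (f : A ⟶ B), φ A ≫ f = f ≫ φ B

theorem sfi_of_W {S : GC (G × Zi) C} (hc : S.Central) {H : Subgroup (G × Zi)}
    (hH : ∀ z, (1, z) ∈ H) (hW : S.W H) : S.SFI H := by
  classical
  intro A e h he
  obtain ⟨F, hF, h1, h2⟩ := h.finite
  obtain ⟨j, hj⟩ := (hF.biUnion (t := fun g : G × Zi => (g.2.toAdd.support : Set ℕ))
    fun _ _ => Finset.finite_toSet _).exists_notMem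
  let Z : Zg (G × Zi) := ⟨H, fun g => g.2.toAdd j, fun a _ b _ => by simp⟩
  obtain ⟨φ, ψ, a1, a2, a3, a4, a5⟩ := hc (Multiplicative.ofAdd (Finsupp.single j 1))
  have c : S.Cz Z 1 := ⟨φ, ψ, fun A => (a1 A).ge1 (hH _) (by simp [Z]),
    fun A => (a1 A).le1 (hH _) (by simp [Z]), fun A => (a2 A).ge1 (hH _) (by simp [Z]),
    fun A => (a2 A).le1 (hH _) (by simp [Z]), a3, a4, a5, fun {A B} f => by
      have := congrArg (fun k => ψ A ≫ k ≫ ψ B) (a5 f)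
      simpa [reassoc_of% a4, a3] using this.symm⟩
  refine (boundary c hW A e (h2.mono fun g hg => ⟨h1 hg, ?_⟩) he).mono Z.K_le
  by_contra hne
  exact hj (Set.mem_biUnion hg (by simpa using hne))

end GC

end Pool.Agent.Lib.MP_5d3e93_al
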