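import Mathlib

/-! Graded additive categories with chosen direct sums and shifts: supports and blocks. -/

open CategoryTheory

namespace Pool.Agent.Lib.MP_5d3e93_al

universe w v u

/-- An additive category whose morphism groups are graded by a group `G`, with chosen binary
direct sums of degree one and with shift isomorphisms in every degree. -/
structure GC (G : Type w) [Group G] (C : Type u) [Category.{v} C] [Preadditive C] where
  sum : C → C → C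
  inl : ∀ A B, A ⟶ sum A B
  inr : ∀ A B, B ⟶ sum A B
  fst : ∀ A B, sum A B ⟶ A
  snd : ∀ A B, sum A B ⟶ B
  inl_fst : ∀ A B, inl A B ≫ fst A B = 𝟙 A
  inl_snd : ∀ A B, inl A B ≫ snd A B = 0
  inr_fst : ∀ A B, inr A B ≫ fst A B = 0
  inr_snd : ∀ A B, inr A B ≫ snd A B = 𝟙 B
  total : ∀ A B, fst A B ≫ inl A B + snd A B ≫ inr A B = 𝟙 (sum A B)
  cp : ∀ {A B : C}, G → (A ⟶ B) →+ (A ⟶ B)
  fin : ∀ {A B : C} (f : A ⟶ B), {g | cp g f ≠ 0}.Finite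
  ext0 : ∀ {A B : C} (f : A ⟶ B), (∀ g, cp g f = 0) → f = 0
  cp_same : ∀ {A B : C} (g : G) (f : A ⟶ B), cp g (cp g f) = cp g f
  cp_ne : ∀ {A B : C} {g h : G} (f : A ⟶ B), g ≠ h → cp g (cp h f) = 0
  cp_comp : ∀ {A B D : C} {g h : G} {a : A ⟶ B} {b : B ⟶ D},
    cp g a = a → cp h b = b → cp (g * h) (a ≫ b) = a ≫ b
  cp_id : ∀ A : C, cp 1 (𝟙 A) = 𝟙 A
  cp_inl : ∀ A B, cp 1 (inl A B) = inl A B
  cp_inr : ∀ A B, cp 1 (inr A B) = inr A B
  cp_fst : ∀ A B, cp 1 (fst A B) = fst A B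
  cp_snd : ∀ A B, cp 1 (snd A B) = snd A B
  shift : ∀ (A : C) (g : G), ∃ (B : C) (f : A ⟶ B) (f' : B ⟶ A),
    cp g f = f ∧ cp g⁻¹ f' = f' ∧ f ≫ f' = 𝟙 A ∧ f' ≫ f = 𝟙 B

namespace GC

attribute [reassoc (attr := simp)] inl_fst inl_snd inr_fst inr_snd

variable {G : Type w} [Group G] {C : Type u} [Category.{v} C] [Preadditive C] (S : GC G C)
variable {A B D A' B' D' A'' B'' : C}

/-- The morphism has all its nonzero components in degrees in `X`. -/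
def Sup (X : Set G) (f : A ⟶ B) : Prop := ∀ g, g ∉ X → S.cp g f = 0

variable {S}

theorem ext_cp {f f' : A ⟶ B} (h : ∀ g, S.cp g f = S.cp g f') : f = f' :=
  sub_eq_zero.1 (S.ext0 _ fun g => by rw [map_sub, h, sub_self])

theorem sum_cp (f : A ⟶ B) : ∑ g ∈ (S.fin f).toFinset, S.cp g f = f := by
  classical
  refine ext_cp (S := S) fun h => ?_
  rw [map_sum, Finset.sum_eq_single h]
  · exact S.cp_same _ _
  · intro g _ hg
    exact S.cp_ne _ (Ne.symm hg)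
  · intro hh
    have : S.cp h f = 0 := by simpa using hh
    rw [S.cp_same, this]

namespace Sup

variable {X Y Z : Set G} {f f' : A ⟶ B}

theorem mono (h : S.Sup X f) (hXY : X ⊆ Y) : S.Sup Y f := fun g hg => h g fun hx => hg (hXY hx)

theorem zero : S.Sup X (0 : A ⟶ B) := fun _ _ => map_zero _

theorem add (h : S.Sup X f) (h' : S.Sup X f') : S.Sup X (f + f') := fun g hg => by
  rw [map_add, h g hg, h' g hg, add_zero]

theorem neg (h : S.Sup X f) : S.Sup X (-f) := fun g hg => by rw [map_neg, h g hg, neg_zero]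

theorem sub (h : S.Sup X f) (h' : S.Sup X f') : S.Sup X (f - f') := fun g hg => by
  rw [map_sub, h g hg, h' g hg, sub_zero]

theorem sum {ι : Type*} (s : Finset ι) {F : ι → (A ⟶ B)} (h : ∀ i ∈ s, S.Sup X (F i)) :
    S.Sup X (∑ i ∈ s, F i) := fun g hg => by
  rw [map_sum]
  exact Finset.sum_eq_zero fun i hi => h i hi g hg

theorem inter (h : S.Sup X f) (h' : S.Sup Y f) : S.Sup (X ∩ Y) f := fun g hg => by
  by_cases hx : g ∈ X
  · exact h' g fun hy => hg ⟨hx, hy⟩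
  · exact h g hx

theorem eq_zero (h : S.Sup X f) (h' : S.Sup Y f) (hd : ∀ g ∈ X, g ∉ Y) : f = 0 :=
  S.ext0 f fun g => by
    by_cases hx : g ∈ X
    · exact h' g (hd g hx)
    · exact h g hx

theorem of_cp {g : G} (h : S.cp g f = f) (hg : g ∈ X) : S.Sup X f := fun k hk => by
  rw [← h]
  exact S.cp_ne _ fun e => hk (e ▸ hg)

theorem cp_eq {g : G} (h : S.Sup {g} f) : S.cp g f = f :=
  ext_cp (S := S) fun k => by
    by_cases e : k = g
    · rw [e, S.cp_same]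
    · rw [S.cp_ne _ e, h k e]

theorem induction (h : S.Sup X f) {P : (A ⟶ B) → Prop} (h0 : P 0)
    (hadd : ∀ a b, P a → P b → P (a + b))
    (hh : ∀ g ∈ X, P (S.cp g f)) : P f := by
  rw [← sum_cp (S := S) f]
  refine Finset.sum_induction _ P hadd h0 fun g hg => hh g ?_
  by_contra hx
  exact (by simpa using hg : S.cp g f ≠ 0) (h g hx)

theorem comp {f' : B ⟶ D} (h : S.Sup X f) (h' : S.Sup Y f')
    (hm : ∀ x ∈ X, ∀ y ∈ Y, x * y ∈ Z) : S.Sup Z (f ≫ f') := by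
  refine h.induction (P := fun a => S.Sup Z (a ≫ f')) (by simpa using zero)
    (fun a b ha hb => by simpa only [Preadditive.add_comp] using ha.add hb) fun x hx => ?_
  refine h'.induction (P := fun b => S.Sup Z (S.cp x f ≫ b)) (by simpa using zero)
    (fun a b ha hb => by simpa only [Preadditive.comp_add] using ha.add hb) fun y hy => ?_
  exact of_cp (S.cp_comp (S.cp_same _ _) (S.cp_same _ _)) (hm x hx y hy)

theorem id (h : (1 : G) ∈ X) : S.Sup X (𝟙 A) := of_cp (S.cp_id A) h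

theorem one_comp {f' : B ⟶ D} (h : S.cp 1 f = f) (h' : S.Sup X f') : S.Sup X (f ≫ f') :=
  (of_cp (X := {1}) h rfl).comp h' fun x hx y hy => by rwa [hx, one_mul]

theorem comp_one {f' : B ⟶ D} (h : S.Sup X f) (h' : S.cp 1 f' = f') : S.Sup X (f ≫ f') :=
  h.comp (of_cp (X := {1}) h' rfl) fun x hx y hy => by rwa [hy, mul_one]

theorem scomp {H : Subgroup G} {f' : B ⟶ D} (h : S.Sup H f) (h' : S.Sup H f') :
    S.Sup H (f ≫ f') := h.comp h' fun _ hx _ hy => H.mul_mem hx hy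

end Sup

variable (S)

open Classical in
/-- The part of a morphism in degrees in `X`. -/
noncomputable def proj (X : Set G) (f : A ⟶ B) : A ⟶ B :=
  ∑ g ∈ (S.fin f).toFinset.filter (· ∈ X), S.cp g f

open Classical in
theorem cp_proj (X : Set G) (f : A ⟶ B) (g : G) :
    S.cp g (S.proj X f) = if g ∈ X then S.cp g f else 0 := by
  have h : ∀ k, S.cp g (S.cp k f) = if k = g then S.cp g f else 0 := fun k => by
    split_ifs with e
    · rw [e, S.cp_same]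
    · exact S.cp_ne _ (Ne.symm e)
  rw [proj, map_sum]
  simp_rw [h]
  rw [Finset.sum_ite_eq']
  by_cases hx : g ∈ X <;> by_cases h0 : S.cp g f = 0 <;> simp [hx, h0]

theorem sup_proj (X : Set G) (f : A ⟶ B) : S.Sup X (S.proj X f) := fun g hg => by
  rw [cp_proj, if_neg hg]

theorem sup_sub_proj (X : Set G) (f : A ⟶ B) : S.Sup Xᶜ (f - S.proj X f) := fun g hg => by
  rw [map_sub, cp_proj, if_pos (by simpa using hg), sub_self]

variable {S}

theorem Sup.proj {Y : Set G} {f : A ⟶ B} (h : S.Sup Y f) (X : Set G) :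
    S.Sup (Y ∩ X) (S.proj X f) := by
  refine Sup.inter (fun g hg => ?_) (S.sup_proj X f)
  rw [cp_proj, h g hg, ite_self]

theorem Sup.sub_proj {Y : Set G} {f : A ⟶ B} (h : S.Sup Y f) (X : Set G) :
    S.Sup (Y ∩ Xᶜ) (f - S.proj X f) :=
  (h.sub ((h.proj X).mono Set.inter_subset_left)).inter (S.sup_sub_proj X f)

theorem Sup.finite {Y : Set G} {f : A ⟶ B} (h : S.Sup Y f) :
    ∃ F : Set G, F.Finite ∧ F ⊆ Y ∧ S.Sup F f :=
  ⟨_, S.fin f, fun g hg => by_contra fun hy => hg (h g hy), fun g hg => by simpa using hg⟩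

variable (S)

/-- Two by two block morphism. -/
def blk (a : A ⟶ A') (b : A ⟶ B') (c : B ⟶ A') (d : B ⟶ B') : S.sum A B ⟶ S.sum A' B' :=
  S.fst A B ≫ a ≫ S.inl A' B' + S.fst A B ≫ b ≫ S.inr A' B' +
    S.snd A B ≫ c ≫ S.inl A' B' + S.snd A B ≫ d ≫ S.inr A' B'

theorem hom_ext {f g : S.sum A B ⟶ D} (h1 : S.inl A B ≫ f = S.inl A B ≫ g)
    (h2 : S.inr A B ≫ f = S.inr A B ≫ g) : f = g := by
  rw [← Category.id_comp f, ← Category.id_comp g, ← S.total]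
  simp [h1, h2]

theorem hom_ext' {f g : D ⟶ S.sum A B} (h1 : f ≫ S.fst A B = g ≫ S.fst A B)
    (h2 : f ≫ S.snd A B = g ≫ S.snd A B) : f = g := by
  rw [← Category.comp_id f, ← Category.comp_id g, ← S.total]
  simp only [Preadditive.comp_add, ← Category.assoc, h1, h2]

@[reassoc (attr := simp)]
theorem inl_blk (a : A ⟶ A') (b : A ⟶ B') (c : B ⟶ A') (d : B ⟶ B') :
    S.inl A B ≫ S.blk a b c d = a ≫ S.inl A' B' + b ≫ S.inr A' B' := by simp [blk]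

@[reassoc (attr := simp)]
theorem inr_blk (a : A ⟶ A') (b : A ⟶ B') (c : B ⟶ A') (d : B ⟶ B') :
    S.inr A B ≫ S.blk a b c d = c ≫ S.inl A' B' + d ≫ S.inr A' B' := by simp [blk]

@[reassoc (attr := simp)]
theorem blk_fst (a : A ⟶ A') (b : A ⟶ B') (c : B ⟶ A') (d : B ⟶ B') :
    S.blk a b c d ≫ S.fst A' B' = S.fst A B ≫ a + S.snd A B ≫ c := by simp [blk]

@[reassoc (attr := simp)]
theorem blk_snd (a : A ⟶ A') (b : A ⟶ B') (c : B ⟶ A') (d : B ⟶ B') :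
    S.blk a b c d ≫ S.snd A' B' = S.fst A B ≫ b + S.snd A B ≫ d := by simp [blk]

@[simp]
theorem blk_comp (a : A ⟶ A') (b : A ⟶ B') (c : B ⟶ A') (d : B ⟶ B')
    (a' : A' ⟶ A'') (b' : A' ⟶ B'') (c' : B' ⟶ A'') (d' : B' ⟶ B'') :
    S.blk a b c d ≫ S.blk a' b' c' d' =
      S.blk (a ≫ a' + b ≫ c') (a ≫ b' + b ≫ d') (c ≫ a' + d ≫ c') (c ≫ b' + d ≫ d') := by
  apply S.hom_ext <;> simp <;> abel

@[simp]
theorem blk_id : S.blk (𝟙 A) 0 0 (𝟙 B) = 𝟙 _ := by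
  apply S.hom_ext <;> simp

theorem blk_add (a a' : A ⟶ A') (b b' : A ⟶ B') (c c' : B ⟶ A') (d d' : B ⟶ B') :
    S.blk a b c d + S.blk a' b' c' d' = S.blk (a + a') (b + b') (c + c') (d + d') := by
  apply S.hom_ext <;> simp <;> abel

theorem blk_sub (a a' : A ⟶ A') (b b' : A ⟶ B') (c c' : B ⟶ A') (d d' : B ⟶ B') :
    S.blk a b c d - S.blk a' b' c' d' = S.blk (a - a') (b - b') (c - c') (d - d') := by
  apply S.hom_ext <;> simp <;> abel

variable {S}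

theorem Sup.blk {X : Set G} {a : A ⟶ A'} {b : A ⟶ B'} {c : B ⟶ A'} {d : B ⟶ B'}
    (ha : S.Sup X a) (hb : S.Sup X b) (hc : S.Sup X c) (hd : S.Sup X d) :
    S.Sup X (S.blk a b c d) :=
  (((one_comp (S.cp_fst _ _) (ha.comp_one (S.cp_inl _ _))).add
    (one_comp (S.cp_fst _ _) (hb.comp_one (S.cp_inr _ _)))).add
    (one_comp (S.cp_snd _ _) (hc.comp_one (S.cp_inl _ _)))).add
    (one_comp (S.cp_snd _ _) (hd.comp_one (S.cp_inr _ _)))

theorem sup_inl {X : Set G} (h : (1 : G) ∈ X) : S.Sup X (S.inl A B) := .of_cp (S.cp_inl _ _) h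
theorem sup_inr {X : Set G} (h : (1 : G) ∈ X) : S.Sup X (S.inr A B) := .of_cp (S.cp_inr _ _) h
theorem sup_fst {X : Set G} (h : (1 : G) ∈ X) : S.Sup X (S.fst A B) := .of_cp (S.cp_fst _ _) h
theorem sup_snd {X : Set G} (h : (1 : G) ∈ X) : S.Sup X (S.snd A B) := .of_cp (S.cp_snd _ _) h

variable (S)

/-- Isomorphism whose two directions live over the subgroup `H`. -/
def Iso (H : Subgroup G) (f : A ⟶ B) : Prop :=
  S.Sup H f ∧ ∃ g : B ⟶ A, S.Sup H g ∧ f ≫ g = 𝟙 A ∧ g ≫ f = 𝟙 B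

/-- Homogeneous isomorphism of degree `g`. -/
def HIso (g : G) (f : A ⟶ B) : Prop :=
  S.Sup {g} f ∧ ∃ f' : B ⟶ A, S.Sup {g⁻¹} f' ∧ f ≫ f' = 𝟙 A ∧ f' ≫ f = 𝟙 B

/-- Products of elementary and homogeneous isomorphisms over `H`. -/
inductive Tr0 (H : Subgroup G) : ∀ {A B : C}, (A ⟶ B) → Prop
  | one {A B : C} {f : A ⟶ B} : S.HIso 1 f → Tr0 H f
  | hom {A B : C} (D : C) {g : G} {f : A ⟶ B} : g ∈ H → S.HIso g f → Tr0 H (S.blk f 0 0 (𝟙 D))
  | upper {A B : C} {x : A ⟶ B} : S.Sup H x → Tr0 H (S.blk (𝟙 A) x 0 (𝟙 B))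
  | comp {A B D : C} {f : A ⟶ B} {g : B ⟶ D} : Tr0 H f → Tr0 H g → Tr0 H (f ≫ g)

/-- Stably a product of elementary and homogeneous isomorphisms. -/
def Tr (H : Subgroup G) (f : A ⟶ B) : Prop := ∃ D : C, S.Tr0 H (S.blk f 0 0 (𝟙 D))

/-- All isomorphisms over `H` are trivial. -/
def W (H : Subgroup G) : Prop := ∀ (A B : C) (f : A ⟶ B), S.Iso H f → S.Tr H f

/-- The idempotent `e` is stably the identity of an object. -/
def StO (H : Subgroup G) (e : A ⟶ A) : Prop :=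
  ∃ (D E : C) (x : S.sum A D ⟶ E) (y : E ⟶ S.sum A D), S.Sup H x ∧ S.Sup H y ∧
    x ≫ y = S.blk e 0 0 (𝟙 D) ∧ y ≫ x = 𝟙 E

/-- All idempotents over `H` are stably objects. -/
def SFI (H : Subgroup G) : Prop := ∀ (A : C) (e : A ⟶ A), S.Sup H e → e ≫ e = e → S.StO H e

/-- The associativity isomorphism. -/
def asc (A B D : C) : S.sum (S.sum A B) D ⟶ S.sum A (S.sum B D) :=
  S.blk (S.fst A B) (S.snd A B ≫ S.inl B D) 0 (S.inr B D)

/-- The inverse associativity isomorphism. -/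
def asc' (A B D : C) : S.sum A (S.sum B D) ⟶ S.sum (S.sum A B) D :=
  S.blk (S.inl A B) 0 (S.fst B D ≫ S.inr A B) (S.snd B D)

/-- The flip. -/
def flip (A B : C) : S.sum A B ⟶ S.sum B A := S.blk 0 (𝟙 A) (𝟙 B) 0

theorem asc_asc' (A B D : C) : S.asc A B D ≫ S.asc' A B D = 𝟙 _ := by
  simp [asc, asc', S.total]

theorem asc'_asc (A B D : C) : S.asc' A B D ≫ S.asc A B D = 𝟙 _ := by
  simp [asc, asc', S.total]

theorem flip_flip (A B : C) : S.flip A B ≫ S.flip B A = 𝟙 _ := by simp [flip]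

theorem sup_asc {X : Set G} (h : (1 : G) ∈ X) (A B D : C) : S.Sup X (S.asc A B D) :=
  .blk (sup_fst h) (.one_comp (S.cp_snd _ _) (sup_inl h)) .zero (sup_inr h)

theorem sup_asc' {X : Set G} (h : (1 : G) ∈ X) (A B D : C) : S.Sup X (S.asc' A B D) :=
  .blk (sup_inl h) .zero (.one_comp (S.cp_fst _ _) (sup_inr h)) (sup_snd h)

theorem sup_flip {X : Set G} (h : (1 : G) ∈ X) (A B : C) : S.Sup X (S.flip A B) :=
  .blk .zero (.id h) (.id h) .zero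

theorem hiso_asc (A B D : C) : S.HIso 1 (S.asc A B D) :=
  ⟨S.sup_asc (by simp) _ _ _, _, S.sup_asc' (by simp) _ _ _, S.asc_asc' _ _ _, S.asc'_asc _ _ _⟩

theorem hiso_asc' (A B D : C) : S.HIso 1 (S.asc' A B D) :=
  ⟨S.sup_asc' (by simp) _ _ _, _, S.sup_asc (by simp) _ _ _, S.asc'_asc _ _ _, S.asc_asc' _ _ _⟩

theorem hiso_flip (A B : C) : S.HIso 1 (S.flip A B) :=
  ⟨S.sup_flip (by simp) _ _, _, S.sup_flip (by simp) _ _, S.flip_flip _ _, S.flip_flip _ _⟩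

theorem hiso_id (A : C) : S.HIso 1 (𝟙 A) := ⟨.id rfl, 𝟙 A, .id (by simp), by simp, by simp⟩

variable {S}

theorem HIso.bd {f : A ⟶ A'} {g : B ⟶ B'} {k : G} (hf : S.HIso k f) (hg : S.HIso k g) :
    S.HIso k (S.blk f 0 0 g) := by
  obtain ⟨h1, f', h2, h3, h4⟩ := hf
  obtain ⟨h5, g', h6, h7, h8⟩ := hg
  exact ⟨.blk h1 .zero .zero h5, S.blk f' 0 0 g', .blk h2 .zero .zero h6, by simp [h3, h7],
    by simp [h4, h8]⟩

theorem HIso.iso {H : Subgroup G} {g : G} {f : A ⟶ B} (h : S.HIso g f) (hg : g ∈ H) :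
    S.Iso H f := by
  obtain ⟨h1, f', h2, h3, h4⟩ := h
  exact ⟨h1.mono (by simpa using hg), f', h2.mono (by simpa using hg), h3, h4⟩

theorem HIso.of_shift {g : G} {f : A ⟶ B} {f' : B ⟶ A} (h1 : S.cp g f = f)
    (h2 : S.cp g⁻¹ f' = f') (h3 : f ≫ f' = 𝟙 A) (h4 : f' ≫ f = 𝟙 B) : S.HIso g f :=
  ⟨.of_cp h1 rfl, f', .of_cp h2 rfl, h3, h4⟩

namespace Iso

variable {H : Subgroup G}

theorem comp {f : A ⟶ B} {g : B ⟶ D} (hf : S.Iso H f) (hg : S.Iso H g) : S.Iso H (f ≫ g) := by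
  obtain ⟨h1, f', h2, h3, h4⟩ := hf
  obtain ⟨h5, g', h6, h7, h8⟩ := hg
  exact ⟨h1.scomp h5, g' ≫ f', h6.scomp h2, by simp [reassoc_of% h7, h3],
    by simp [reassoc_of% h4, h8]⟩

theorem bd {f : A ⟶ A'} {g : B ⟶ B'} (hf : S.Iso H f) (hg : S.Iso H g) :
    S.Iso H (S.blk f 0 0 g) := by
  obtain ⟨h1, f', h2, h3, h4⟩ := hf
  obtain ⟨h5, g', h6, h7, h8⟩ := hg
  exact ⟨.blk h1 .zero .zero h5, S.blk f' 0 0 g', .blk h2 .zero .zero h6, by simp [h3, h7],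
    by simp [h4, h8]⟩

theorem id : S.Iso H (𝟙 A) := (S.hiso_id A).iso H.one_mem

theorem upper {x : A ⟶ B} (h : S.Sup H x) : S.Iso H (S.blk (𝟙 A) x 0 (𝟙 B)) :=
  ⟨.blk (.id H.one_mem) h .zero (.id H.one_mem), S.blk (𝟙 A) (-x) 0 (𝟙 B),
    .blk (.id H.one_mem) h.neg .zero (.id H.one_mem), by simp, by simp⟩

theorem lower {x : B ⟶ A} (h : S.Sup H x) : S.Iso H (S.blk (𝟙 A) 0 x (𝟙 B)) :=
  ⟨.blk (.id H.one_mem) .zero h (.id H.one_mem), S.blk (𝟙 A) 0 (-x) (𝟙 B),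
    .blk (.id H.one_mem) .zero h.neg (.id H.one_mem), by simp, by simp⟩

theorem mono {H' : Subgroup G} {f : A ⟶ B} (h : S.Iso H f) (hH : H ≤ H') : S.Iso H' f := by
  obtain ⟨h1, f', h2, h3, h4⟩ := h
  exact ⟨h1.mono hH, f', h2.mono hH, h3, h4⟩

end Iso

namespace Tr0

variable {H : Subgroup G}

theorem mono {H' : Subgroup G} {f : A ⟶ B} (h : S.Tr0 H f) (hH : H ≤ H') : S.Tr0 H' f := by
  induction h with
  | one h => exact one h
  | hom D hg h => exact hom D (hH hg) h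
  | upper h => exact upper (h.mono hH)
  | comp _ _ h1 h2 => exact comp h1 h2

theorem stab {f : A ⟶ B} (h : S.Tr0 H f) (E : C) : S.Tr0 H (S.blk f 0 0 (𝟙 E)) := by
  induction h with
  | one h => exact one (h.bd (S.hiso_id E))
  | @hom A B D g f hg h =>
    have : S.blk (S.blk f 0 0 (𝟙 D)) 0 0 (𝟙 E) =
        S.asc A D E ≫ S.blk f 0 0 (𝟙 _) ≫ S.asc' B D E := by
      simp [asc, asc']
      congr 1
      apply S.hom_ext <;> simp
    rw [this]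
    exact (one (S.hiso_asc _ _ _)).comp ((hom _ hg h).comp (one (S.hiso_asc' _ _ _)))
  | @upper A B x h =>
    have : S.blk (S.blk (𝟙 A) x 0 (𝟙 B)) 0 0 (𝟙 E) =
        S.asc A B E ≫ S.blk (𝟙 A) (x ≫ S.inl B E) 0 (𝟙 _) ≫ S.asc' A B E := by
      simp [asc, asc']
      congr 1
      apply S.hom_ext <;> simp
    rw [this]
    exact (one (S.hiso_asc _ _ _)).comp
      ((upper (h.comp_one (S.cp_inl _ _))).comp (one (S.hiso_asc' _ _ _)))
  | @comp A B D f g _ _ h1 h2 => simpa using h1.comp h2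

theorem inv {f : A ⟶ B} (h : S.Tr0 H f) :
    S.Sup H f ∧ ∃ g : B ⟶ A, S.Tr0 H g ∧ S.Sup H g ∧ f ≫ g = 𝟙 A ∧ g ≫ f = 𝟙 B := by
  induction h with
  | one h =>
    obtain ⟨h1, f', h2, h3, h4⟩ := h
    exact ⟨h1.mono (by simp), f', one ⟨by simpa using h2, _, by simpa using h1, h4, h3⟩,
      h2.mono (by simp), h3, h4⟩
  | @hom A B D g f hg h =>
    obtain ⟨h1, f', h2, h3, h4⟩ := h
    exact ⟨.blk (h1.mono (by simpa using hg)) .zero .zero (.id H.one_mem), _,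
      hom D (H.inv_mem hg) ⟨h2, _, by simpa using h1, h4, h3⟩,
      .blk (h2.mono (by simpa using hg)) .zero .zero (.id H.one_mem), by simp [h3], by simp [h4]⟩
  | upper h =>
    exact ⟨(Iso.upper h).1, _, upper h.neg, (Iso.upper h.neg).1, by simp, by simp⟩
  | comp _ _ h1 h2 =>
    obtain ⟨a1, f', a2, a3, a4, a5⟩ := h1
    obtain ⟨b1, g', b2, b3, b4, b5⟩ := h2
    exact ⟨a1.scomp b1, g' ≫ f', b2.comp a2, b3.scomp a3, by simp [reassoc_of% b4, a4],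
      by simp [reassoc_of% a5, b5]⟩

end Tr0

namespace Tr

variable {H : Subgroup G}

theorem of_tr0 {f : A ⟶ B} (h : S.Tr0 H f) : S.Tr H f := ⟨A, h.stab A⟩

theorem mono {H' : Subgroup G} {f : A ⟶ B} (h : S.Tr H f) (hH : H ≤ H') : S.Tr H' f :=
  h.imp fun _ h => h.mono hH

theorem hom {g : G} {f : A ⟶ B} (hg : g ∈ H) (h : S.HIso g f) : S.Tr H f := ⟨A, .hom A hg h⟩

theorem one {f : A ⟶ B} (h : S.HIso 1 f) : S.Tr H f := hom H.one_mem h

theorem id : S.Tr H (𝟙 A) := one (S.hiso_id A)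

theorem aux {f : A ⟶ B} {D : C} (h : S.Tr0 H (S.blk f 0 0 (𝟙 D))) (E : C) :
    S.Tr0 H (S.blk f 0 0 (𝟙 (S.sum D E))) := by
  have : S.blk f 0 0 (𝟙 (S.sum D E)) =
      S.asc' A D E ≫ S.blk (S.blk f 0 0 (𝟙 D)) 0 0 (𝟙 E) ≫ S.asc B D E := by
    simp [asc, asc', S.total]
  rw [this]
  exact (Tr0.one (S.hiso_asc' _ _ _)).comp ((h.stab E).comp (.one (S.hiso_asc _ _ _)))

theorem comp {f : A ⟶ B} {g : B ⟶ D} (hf : S.Tr H f) (hg : S.Tr H g) : S.Tr H (f ≫ g) := by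
  obtain ⟨E, hf⟩ := hf
  obtain ⟨F, hg⟩ := hg
  refine ⟨S.sum E F, ?_⟩
  have : S.blk (f ≫ g) 0 0 (𝟙 (S.sum E F)) = S.blk f 0 0 (𝟙 (S.sum E F)) ≫
      S.blk (𝟙 B) 0 0 (S.flip E F) ≫ S.blk g 0 0 (𝟙 (S.sum F E)) ≫
      S.blk (𝟙 D) 0 0 (S.flip F E) := by
    simp [S.flip_flip]
  rw [this]
  exact (aux hf F).comp ((Tr0.one ((S.hiso_id _).bd (S.hiso_flip _ _))).comp
    ((aux hg E).comp (.one ((S.hiso_id _).bd (S.hiso_flip _ _)))))

theorem of_bd {f : A ⟶ B} (h : S.Tr H (S.blk f 0 0 (𝟙 D))) : S.Tr H f := by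
  obtain ⟨E, h⟩ := h
  refine ⟨S.sum D E, ?_⟩
  have : S.blk f 0 0 (𝟙 (S.sum D E)) =
      S.asc' A D E ≫ S.blk (S.blk f 0 0 (𝟙 D)) 0 0 (𝟙 E) ≫ S.asc B D E := by
    simp [asc, asc', S.total]
  rw [this]
  exact (Tr0.one (S.hiso_asc' _ _ _)).comp (h.comp (.one (S.hiso_asc _ _ _)))

theorem bd_id {f : A ⟶ B} (h : S.Tr H f) (D : C) : S.Tr H (S.blk f 0 0 (𝟙 D)) := by
  obtain ⟨E, h⟩ := h
  have h2 := aux h D
  have : S.blk (S.blk f 0 0 (𝟙 D)) 0 0 (𝟙 E) = S.asc A D E ≫ S.blk (𝟙 A) 0 0 (S.flip D E) ≫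
      S.blk f 0 0 (𝟙 (S.sum E D)) ≫ S.blk (𝟙 B) 0 0 (S.flip E D) ≫ S.asc' B D E := by
    simp [asc, asc', reassoc_of% S.flip_flip]
    congr 1
    apply S.hom_ext <;> simp
  refine ⟨E, ?_⟩
  rw [this]
  exact (Tr0.one (S.hiso_asc _ _ _)).comp ((Tr0.one ((S.hiso_id _).bd (S.hiso_flip _ _))).comp
    (h2.comp ((Tr0.one ((S.hiso_id _).bd (S.hiso_flip _ _))).comp (.one (S.hiso_asc' _ _ _)))))

theorem id_bd {f : A ⟶ B} (h : S.Tr H f) (D : C) : S.Tr H (S.blk (𝟙 D) 0 0 f) := by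
  have : S.blk (𝟙 D) 0 0 f = S.flip D A ≫ S.blk f 0 0 (𝟙 D) ≫ S.flip B D := by simp [flip]
  rw [this]
  exact (one (S.hiso_flip _ _)).comp ((h.bd_id D).comp (one (S.hiso_flip _ _)))

theorem of_id_bd {f : A ⟶ B} (h : S.Tr H (S.blk (𝟙 D) 0 0 f)) : S.Tr H f := by
  have : S.blk f 0 0 (𝟙 D) = S.flip A D ≫ S.blk (𝟙 D) 0 0 f ≫ S.flip D B := by simp [flip]
  refine of_bd (D := D) ?_
  rw [this]
  exact (one (S.hiso_flip _ _)).comp (h.comp (one (S.hiso_flip _ _)))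

theorem upper {x : A ⟶ B} (h : S.Sup H x) : S.Tr H (S.blk (𝟙 A) x 0 (𝟙 B)) := of_tr0 (.upper h)

theorem lower {x : B ⟶ A} (h : S.Sup H x) : S.Tr H (S.blk (𝟙 A) 0 x (𝟙 B)) := by
  have : S.blk (𝟙 A) 0 x (𝟙 B) = S.flip A B ≫ S.blk (𝟙 B) x 0 (𝟙 A) ≫ S.flip B A := by
    simp [flip]
  rw [this]
  exact (one (S.hiso_flip _ _)).comp ((upper h).comp (one (S.hiso_flip _ _)))

theorem inv {f : A ⟶ B} (h : S.Tr H f) :
    S.Sup H f ∧ ∃ g : B ⟶ A, S.Tr H g ∧ S.Sup H g ∧ f ≫ g = 𝟙 A ∧ g ≫ f = 𝟙 B := by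
  obtain ⟨E, h⟩ := h
  obtain ⟨h1, g, h2, h3, h4, h5⟩ := h.inv
  have e1 : S.inr B E ≫ g = S.inr A E := by
    have := congrArg (S.inr A E ≫ ·) h4
    simpa using this
  have e2 : g ≫ S.snd A E = S.snd B E := by
    have := congrArg (· ≫ S.snd B E) h5
    simpa using this
  have e3 : g = S.blk (S.inl B E ≫ g ≫ S.fst A E) 0 0 (𝟙 E) := by
    apply S.hom_ext
    · apply S.hom_ext' <;> simp [e2]
    · simp [e1]
  refine ⟨?_, S.inl B E ≫ g ≫ S.fst A E, ⟨E, e3 ▸ h2⟩,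
    .one_comp (S.cp_inl _ _) (h3.comp_one (S.cp_fst _ _)), ?_, ?_⟩
  · have := Sup.one_comp (S.cp_inl A E) (h1.comp_one (S.cp_fst B E))
    simpa using this
  · have := congrArg (fun k => S.inl A E ≫ k ≫ S.fst A E) h4
    simpa using this
  · rw [e3] at h5
    have := congrArg (fun k => S.inl B E ≫ k ≫ S.fst B E) h5
    simpa using this

theorem iso {f : A ⟶ B} (h : S.Tr H f) : S.Iso H f := by
  obtain ⟨h1, g, _, h3, h4, h5⟩ := h.inv
  exact ⟨h1, g, h3, h4, h5⟩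

theorem cancel_left {f : A ⟶ B} {g : B ⟶ D} (hf : S.Tr H f) (h : S.Tr H (f ≫ g)) :
    S.Tr H g := by
  obtain ⟨_, f', h2, _, _, h5⟩ := hf.inv
  simpa [reassoc_of% h5] using h2.comp h

theorem cancel_right {f : A ⟶ B} {g : B ⟶ D} (hg : S.Tr H g) (h : S.Tr H (f ≫ g)) :
    S.Tr H f := by
  obtain ⟨_, g', h2, _, h4, _⟩ := hg.inv
  simpa [h4] using h.comp h2

/-- Cyclic invariance. -/
theorem cyc {X : A ⟶ B} {Y : B ⟶ A} (hX : S.Sup H X) (hY : S.Sup H Y)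
    (h : S.Tr H (𝟙 B - Y ≫ X)) : S.Tr H (𝟙 A - X ≫ Y) := by
  have e : S.blk (𝟙 A) X 0 (𝟙 B) ≫ S.blk (𝟙 A - X ≫ Y) 0 0 (𝟙 B) ≫ S.blk (𝟙 A) 0 Y (𝟙 B) =
      S.blk (𝟙 A) 0 Y (𝟙 B) ≫ S.blk (𝟙 A) 0 0 (𝟙 B - Y ≫ X) ≫ S.blk (𝟙 A) X 0 (𝟙 B) := by
    simp
  have h1 := (lower (A := A) hY).comp ((h.id_bd A).comp (upper hX))
  rw [← e] at h1
  exact of_bd ((lower hY).cancel_right ((upper hX).cancel_left h1))

end Tr

end GC

end Pool.Agent.Lib.MP_5d3e93_al
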