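import Pool.Agent.Lib.MP_5d3e93_al.Conv

/-! The twisted group category as a graded category. -/

open CategoryTheory Limits

namespace Pool.Agent.Lib.MP_5d3e93_al

universe w w' v u

variable {G : Type w} [Group G] {C : Type u} [Category.{v} C] [Preadditive C]

namespace Tw

open Classical

variable {ρ : Act G C} {A B D : Tw ρ}

/-- A homogeneous morphism. -/
noncomputable def sg (g : G) (a : A.as ⟶ (ρ.F g).obj B.as) : A ⟶ B := DFinsupp.single g a

theorem sg_comp (g h : G) (a : A.as ⟶ (ρ.F g).obj B.as) (b : B.as ⟶ (ρ.F h).obj D.as) :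
    sg g a ≫ sg h b = sg (g * h) (cmp g h a b) := single_mul g h a b

theorem sg_congr {g h : G} (e : g = h) {a : A.as ⟶ (ρ.F g).obj B.as}
    {b : A.as ⟶ (ρ.F h).obj B.as} (hab : a ≫ eqToHom (by rw [e]) = b) : sg g a = sg h b :=
  single_congr e hab

theorem sg_add (g : G) (a b : A.as ⟶ (ρ.F g).obj B.as) : sg g (a + b) = sg g a + sg g b :=
  DFinsupp.single_add (β := fun k => A.as ⟶ (ρ.F k).obj B.as) g a b

theorem sg_zero (g : G) : sg g (0 : A.as ⟶ (ρ.F g).obj B.as) = 0 := DFinsupp.single_zero g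

theorem one_def (A : Tw ρ) : 𝟙 A = sg 1 (eqToHom (Functor.congr_obj ρ.one A.as).symm) := rfl

theorem ind' {P : (A ⟶ B) → Prop} (h0 : P 0) (h1 : ∀ a b, P a → P b → P (a + b))
    (h2 : ∀ g a, P (sg g a)) (f : A ⟶ B) : P f := ind h0 h1 h2 f

/-- Coefficient. -/
def co (g : G) : (A ⟶ B) →+ (A.as ⟶ (ρ.F g).obj B.as) :=
  DFinsupp.evalAddMonoidHom (β := fun k => A.as ⟶ (ρ.F k).obj B.as) g

theorem co_sg (g : G) (a : A.as ⟶ (ρ.F g).obj B.as) : co g (sg g a) = a :=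
  DFinsupp.single_eq_same (β := fun k => A.as ⟶ (ρ.F k).obj B.as)

theorem co_sg_ne {g h : G} (e : g ≠ h) (a : A.as ⟶ (ρ.F h).obj B.as) : co g (sg h a) = 0 :=
  DFinsupp.single_eq_of_ne e

theorem co_ext {f f' : A ⟶ B} (h : ∀ g, co g f = co g f') : f = f' := DFinsupp.ext h

/-- Constant morphisms. -/
noncomputable def emb (f : A.as ⟶ B.as) : A ⟶ B :=
  sg 1 (f ≫ eqToHom (Functor.congr_obj ρ.one B.as).symm)

theorem emb_comp (f : A.as ⟶ B.as) (g : B.as ⟶ D.as) : emb f ≫ emb g = emb (f ≫ g) := by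
  rw [emb, emb, sg_comp]
  exact sg_congr (one_mul 1) (by simp [Tw.cmp, Functor.congr_hom ρ.one g, eqToHom_map])

theorem emb_id (A : Tw ρ) : emb (𝟙 A.as) = 𝟙 A := by rw [emb, one_def, Category.id_comp]

theorem emb_add (f g : A.as ⟶ B.as) : emb (f + g) = emb f + emb g := by
  rw [emb, Preadditive.add_comp, sg_add]; rfl

theorem emb_zero : emb (0 : A.as ⟶ B.as) = 0 := by rw [emb, zero_comp, sg_zero]

/-- Homogeneous component. -/
noncomputable def cpt (g : G) : (A ⟶ B) →+ (A ⟶ B) where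
  toFun f := sg g (co g f)
  map_zero' := by rw [map_zero, sg_zero]
  map_add' a b := by rw [map_add, sg_add]

theorem cpt_apply (g : G) (f : A ⟶ B) : cpt g f = sg g (co g f) := rfl

theorem cpt_sg (g : G) (a : A.as ⟶ (ρ.F g).obj B.as) : cpt g (sg g a) = sg g a := by
  rw [cpt_apply, co_sg]

variable {Γ : Type w'} [Group Γ] (j : Γ →* G)

/-- The same object over a larger group. -/
def up (A : Tw (ρ.comap j)) : Tw ρ := ⟨A.as⟩

variable {X Y Z : Tw (ρ.comap j)}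

/-- Extension of the group. -/
noncomputable def push : (X ⟶ Y) →+ (up j X ⟶ up j Y) :=
  DFinsupp.sumAddHom (β := fun γ => X.as ⟶ (ρ.F (j γ)).obj Y.as) fun γ =>
    DFinsupp.singleAddHom (fun k => X.as ⟶ (ρ.F k).obj Y.as) (j γ)

theorem push_sg (γ : Γ) (a : X.as ⟶ ((ρ.comap j).F γ).obj Y.as) :
    push j (sg γ a) = sg (A := up j X) (B := up j Y) (j γ) a :=
  DFinsupp.sumAddHom_single (β := fun γ => X.as ⟶ (ρ.F (j γ)).obj Y.as) _ γ a

theorem push_comp (f : X ⟶ Y) (g : Y ⟶ Z) : push j (f ≫ g) = push j f ≫ push j g := by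
  induction f using ind' with
  | h0 => simp
  | h1 a b ha hb => simp only [Preadditive.add_comp, map_add, ha, hb]
  | h2 γ a =>
    induction g using ind' with
    | h0 => simp
    | h1 a b ha hb => simp only [Preadditive.comp_add, map_add, ha, hb]
    | h2 δ b =>
      rw [sg_comp, push_sg, push_sg, push_sg]
      refine Eq.trans ?_ (sg_comp _ _ _ _).symm
      refine sg_congr (map_mul j γ δ) ?_
      simp only [Tw.cmp]
      erw [Category.assoc, Category.assoc, eqToHom_trans]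
      rfl

theorem push_id (X : Tw (ρ.comap j)) : push j (𝟙 X) = 𝟙 (up j X) := by
  rw [one_def, push_sg, one_def]
  exact sg_congr (map_one j) (eqToHom_trans _ _)

/-- Extension of the group as a functor. -/
noncomputable def pushF : Tw (ρ.comap j) ⥤ Tw ρ where
  obj := up j
  map := push j
  map_id := push_id j
  map_comp := push_comp j

instance : (pushF (ρ := ρ) j).Additive where
  map_add := map_add (push j) _ _

theorem co_push {j : Γ →* G} (hj : Function.Injective j) {X Y : Tw (ρ.comap j)} (γ : Γ)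
    (f : X ⟶ Y) : co (j γ) (push j f) = co γ f := by
  induction f using ind' with
  | h0 => exact (congrArg _ (map_zero _)).trans rfl
  | h1 a b ha hb =>
    exact (congrArg _ (map_add _ _ _)).trans ((map_add _ _ _).trans
      ((congrArg₂ (· + ·) ha hb).trans (map_add _ _ _).symm))
  | h2 δ a =>
    refine (congrArg _ (push_sg j δ a)).trans ?_
    by_cases e : γ = δ
    · subst e
      exact (co_sg _ _).trans (co_sg _ _).symm
    · exact (co_sg_ne (hj.ne e) _).trans (co_sg_ne e a).symm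

theorem push_faithful {j : Γ →* G} (hj : Function.Injective j) : (pushF (ρ := ρ) j).Faithful :=
  ⟨fun {_ _ f g} h => co_ext fun γ =>
    (co_push hj γ f).symm.trans ((congrArg _ h).trans (co_push hj γ g))⟩

end Tw

open Tw

/-- The graded structure. -/
noncomputable def twGC [HasBinaryBiproducts C] (ρ : Act G C) : GC G (Tw ρ) where
  sum A B := ⟨A.as ⊞ B.as⟩
  inl _ _ := emb biprod.inl
  inr _ _ := emb biprod.inr
  fst _ _ := emb biprod.fst
  snd _ _ := emb biprod.snd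
  inl_fst A B := by rw [emb_comp, biprod.inl_fst, emb_id]
  inl_snd A B := by rw [emb_comp, biprod.inl_snd, emb_zero]
  inr_fst A B := by rw [emb_comp, biprod.inr_fst, emb_zero]
  inr_snd A B := by rw [emb_comp, biprod.inr_snd, emb_id]
  total A B := by
    rw [emb_comp, emb_comp, ← emb_add, biprod.total]
    exact emb_id ⟨A.as ⊞ B.as⟩
  cp := cpt
  fin {A B} f := by
    classical
    refine (DFinsupp.support (β := fun k => A.as ⟶ (ρ.F k).obj B.as) f).finite_toSet.subset ?_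
    intro g hg
    by_contra h
    have : co g f = 0 := DFinsupp.notMem_support_iff.1 h
    exact hg (by rw [cpt_apply, this, sg_zero])
  ext0 f h := co_ext fun g => by
    have := congrArg (co g) (h g)
    rwa [cpt_apply, co_sg] at this
  cp_same g f := cpt_sg _ _
  cp_ne f h := by rw [cpt_apply, cpt_apply, co_sg_ne h, sg_zero]
  cp_comp {A B D g h a b} ha hb := by
    rw [← ha, ← hb, cpt_apply g, cpt_apply h, sg_comp, cpt_sg]
  cp_id A := cpt_sg _ _
  cp_inl _ _ := cpt_sg _ _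
  cp_inr _ _ := cpt_sg _ _
  cp_fst _ _ := cpt_sg _ _
  cp_snd _ _ := cpt_sg _ _
  shift A g := by
    have e : A.as = (ρ.F g).obj ((ρ.F g⁻¹).obj A.as) := by
      have := Functor.congr_obj (ρ.mul g g⁻¹) A.as
      rwa [mul_inv_cancel, ρ.one] at this
    refine ⟨⟨(ρ.F g⁻¹).obj A.as⟩, sg g (eqToHom e), sg g⁻¹ (𝟙 _), cpt_sg _ _, cpt_sg _ _, ?_, ?_⟩
    · rw [sg_comp, one_def]
      exact sg_congr (mul_inv_cancel g) (by simp [Tw.cmp])
    · rw [sg_comp, one_def]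
      exact sg_congr (inv_mul_cancel g) (by simp [Tw.cmp, eqToHom_map])

theorem twGC_central [HasBinaryBiproducts C] (ρ : Act G C) :
    (twGC (ρ.comap (MonoidHom.fst G Zi))).Central := by
  intro z
  have e : ∀ (y : Zi) (A : C), A = ((ρ.comap (MonoidHom.fst G Zi)).F (1, y)).obj A := fun _ A =>
    (Functor.congr_obj ρ.one A).symm
  have e' : ∀ (y : Zi) {A B : C} (a : A ⟶ B), ((ρ.comap (MonoidHom.fst G Zi)).F (1, y)).map a =
      eqToHom (e y A).symm ≫ a ≫ eqToHom (e y B) := fun _ _ _ a => Functor.congr_hom ρ.one a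
  refine ⟨fun A => sg (1, z) (eqToHom (e z A.as)), fun A => sg (1, z⁻¹) (eqToHom (e z⁻¹ A.as)),
    fun A => .of_cp (cpt_sg _ _) rfl, fun A => .of_cp (cpt_sg _ _) rfl, fun A => ?_, fun A => ?_,
    fun {A B} f => ?_⟩
  · rw [sg_comp, one_def]
    exact sg_congr (by simp) (by simp [Tw.cmp, eqToHom_map])
  · rw [sg_comp, one_def]
    exact sg_congr (by simp) (by simp [Tw.cmp, eqToHom_map])
  · induction f using ind' with
    | h0 => simp
    | h1 a b ha hb => simp only [Preadditive.add_comp, Preadditive.comp_add, ha, hb]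
    | h2 g a =>
      rw [sg_comp, sg_comp]
      exact sg_congr (by ext1 <;> simp [mul_comm]) (by simp [Tw.cmp, eqToHom_map, e'])

namespace GC

variable {S : GC G C} {H : Subgroup G} {D : Type*} [Category D] [Preadditive D]

theorem k1_lift (Φ : D ⥤ C) [Φ.Additive] [Φ.Faithful]
    (hs : ∀ {X Y : D} (f : X ⟶ Y), S.Sup H (Φ.map f))
    (hs' : ∀ {X Y : D} (f : Φ.obj X ⟶ Φ.obj Y), S.Sup H f → ∃ f', Φ.map f' = f) (hK : K1Zero D)
    {P : ∀ {A : C}, (A ⟶ A) → Prop} (hid : ∀ A, P (𝟙 A))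
    (hcomp : ∀ {A : C} {f g : A ⟶ A}, P f → P g → P (f ≫ g))
    (hinv : ∀ {A : C} {f g : A ⟶ A}, P f → f ≫ g = 𝟙 A → g ≫ f = 𝟙 A → P g)
    (hcomm : ∀ {A : C} {a a' b b' : A ⟶ A}, S.Sup H a → S.Sup H a' → S.Sup H b → S.Sup H b' →
      a ≫ a' = 𝟙 A → a' ≫ a = 𝟙 A → b ≫ b' = 𝟙 A → b' ≫ b = 𝟙 A → P (a ≫ b ≫ a' ≫ b'))
    (hconj : ∀ {A B : C} {p : A ⟶ B} {q : B ⟶ A}, S.Sup H p → S.Sup H q → p ≫ q = 𝟙 A →
      q ≫ p = 𝟙 B → ∀ {x : B ⟶ B}, P x → P (p ≫ x ≫ q))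
    {A : D} {a : Φ.obj A ⟶ Φ.obj A} (ha : S.Iso H a) : ∃ E, P (S.blk a 0 0 (𝟙 E)) := by
  obtain ⟨h1, a', h2, h3, h4⟩ := ha
  obtain ⟨x, rfl⟩ := hs' _ h1
  obtain ⟨y, rfl⟩ := hs' _ h2
  obtain ⟨B, E, i, r, i', r', e1, e2, e3, b, hb, e⟩ := hK A
    ⟨x, y, Φ.map_injective (by simpa using h3), Φ.map_injective (by simpa using h4)⟩
  have hi : ∀ c : Aut B, Φ.map c.hom ≫ Φ.map c.inv = 𝟙 _ := fun c => by
    rw [← Φ.map_comp, c.hom_inv_id, Φ.map_id]
  have hi' : ∀ c : Aut B, Φ.map c.inv ≫ Φ.map c.hom = 𝟙 _ := fun c => by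
    rw [← Φ.map_comp, c.inv_hom_id, Φ.map_id]
  have key : ∀ c ∈ commutator (Aut B), P (Φ.map c.hom) := by
    intro c hc
    rw [commutator_eq_closure] at hc
    induction hc using Subgroup.closure_induction with
    | mem _ h =>
      obtain ⟨c, d, rfl⟩ := h
      have := hcomm (hs d.inv) (hs d.hom) (hs c.inv) (hs c.hom) (hi' d) (hi d) (hi' c) (hi c)
      simp only [← Φ.map_comp] at this
      exact this
    | one => exact (Φ.map_id B).symm ▸ hid _
    | mul c d _ _ h1 h2 =>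
      have := hcomp h2 h1
      rwa [← Φ.map_comp] at this
    | inv c _ h => exact hinv h (hi c) (hi' c)
  have e4 : i ≫ r' = 0 := by
    have h : i ≫ r' ≫ i' = 0 := by
      have := congrArg (i ≫ ·) e3
      simpa [reassoc_of% e1] using this
    have := congrArg (· ≫ r') h
    simpa [e2] using this
  have e5 : i' ≫ r = 0 := by
    have h : i' ≫ r ≫ i = 0 := by
      have := congrArg (i' ≫ ·) e3
      simpa [reassoc_of% e2] using this
    have := congrArg (· ≫ r) h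
    simpa [e1] using this
  have f1 := congrArg Φ.map e1
  have f2 := congrArg Φ.map e2
  have f3 := congrArg Φ.map e3
  have f4 := congrArg Φ.map e4
  have f5 := congrArg Φ.map e5
  have f6 := congrArg Φ.map e
  simp only [Φ.map_comp, Φ.map_id, Φ.map_add, Φ.map_zero] at f1 f2 f3 f4 f5 f6
  refine ⟨Φ.obj E, ?_⟩
  have := hconj (p := S.fst _ _ ≫ Φ.map i + S.snd _ _ ≫ Φ.map i')
    (q := Φ.map r ≫ S.inl _ _ + Φ.map r' ≫ S.inr _ _)
    (.add (.one_comp (S.cp_fst _ _) (hs _)) (.one_comp (S.cp_snd _ _) (hs _)))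
    (.add ((hs _).comp_one (S.cp_inl _ _)) ((hs _).comp_one (S.cp_inr _ _)))
    (by simp [reassoc_of% f1, reassoc_of% f2, reassoc_of% f4, reassoc_of% f5, S.total])
    (by simpa using f3) (key b hb)
  convert this using 1
  rw [f6]
  apply S.hom_ext <;> simp [reassoc_of% f1, reassoc_of% f2, reassoc_of% f4, reassoc_of% f5]

theorem W_of_k1 (Φ : D ⥤ C) [Φ.Additive] [Φ.Faithful] (ho : Function.Surjective Φ.obj)
    (hs : ∀ {X Y : D} (f : X ⟶ Y), S.Sup H (Φ.map f))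
    (hs' : ∀ {X Y : D} (f : Φ.obj X ⟶ Φ.obj Y), S.Sup H f → ∃ f', Φ.map f' = f) (hK : K1Zero D)
    (h0 : ∀ A B, ∃ (E : C) (c : S.sum B E ⟶ S.sum A E), S.HIso 1 c) : S.W H := by
  intro A B f hf
  obtain ⟨E, c, hc⟩ := h0 A B
  have key : ∀ (X : C) (a : X ⟶ X), S.Iso H a → S.Tr H a := by
    intro X a ha
    obtain ⟨X, rfl⟩ := ho X
    obtain ⟨E, h⟩ := k1_lift Φ hs hs' hK (P := fun f => S.Tr H f) (fun _ => .id) .comp
      (fun {A f g} h h1 _ => h.cancel_left (by rw [h1]; exact .id)) Tr.comm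
      (fun h h' e e' _ hx => Tr.conj h h' e e' hx) ha
    exact h.of_bd
  exact (Tr.cancel_right (.one hc) (key _ _ ((hf.bd (.id (A := E))).comp
    (hc.iso (one_mem _))))).of_bd

/-- Extension of automorphisms along a split embedding. -/
def autExt {A B : C} {i : A ⟶ B} {r : B ⟶ A} (e : i ≫ r = 𝟙 A) : Aut A →* Aut B where
  toFun c := ⟨r ≫ c.hom ≫ i + (𝟙 B - r ≫ i), r ≫ c.inv ≫ i + (𝟙 B - r ≫ i),
    by simp [reassoc_of% e, reassoc_of% c.hom_inv_id],
    by simp [reassoc_of% e, reassoc_of% c.inv_hom_id]⟩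
  map_one' := Iso.ext (show r ≫ 𝟙 A ≫ i + (𝟙 B - r ≫ i) = 𝟙 B by simp)
  map_mul' a b := Iso.ext (show r ≫ (b.hom ≫ a.hom) ≫ i + (𝟙 B - r ≫ i) =
    (r ≫ b.hom ≫ i + (𝟙 B - r ≫ i)) ≫ (r ≫ a.hom ≫ i + (𝟙 B - r ≫ i)) by simp [reassoc_of% e])

/-- Products of commutators. -/
def Cm {A : C} (f : A ⟶ A) : Prop := ∃ w ∈ commutator (Aut A), w.hom = f

theorem Cm.tr {A B : C} {i : A ⟶ B} {r : B ⟶ A} (e : i ≫ r = 𝟙 A) {f : A ⟶ A} (h : Cm f) :
    Cm (r ≫ f ≫ i + (𝟙 B - r ≫ i)) := by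
  obtain ⟨w, hw, rfl⟩ := h
  refine ⟨autExt e w, ?_, rfl⟩
  have : (commutator (Aut A)).map (autExt e) ≤ commutator (Aut B) := by
    rw [map_commutator_eq]
    exact Subgroup.commutator_mono le_top le_top
  exact this ⟨w, hw, rfl⟩

omit [Preadditive C] in
theorem Cm.comm {A : C} {a a' b b' : A ⟶ A} (e1 : a ≫ a' = 𝟙 A) (e2 : a' ≫ a = 𝟙 A)
    (e3 : b ≫ b' = 𝟙 A) (e4 : b' ≫ b = 𝟙 A) : Cm (a ≫ b ≫ a' ≫ b') :=
  ⟨_, Subgroup.commutator_mem_commutator (G := Aut A) (g₁ := ⟨b', b, e4, e3⟩)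
    (g₂ := ⟨a', a, e2, e1⟩) (Subgroup.mem_top _) (Subgroup.mem_top _), rfl⟩

variable (S) in
/-- The theory of products of commutators. -/
def cmTh : S.Th where
  T := Cm
  id _ := ⟨1, one_mem _, rfl⟩
  comp := fun ⟨a, ha, e⟩ ⟨b, hb, e'⟩ => ⟨b * a, mul_mem hb ha, e ▸ e' ▸ rfl⟩
  inv := fun ⟨a, ha, e⟩ => ⟨a.inv, ⟨a⁻¹, inv_mem ha, rfl⟩, e ▸ a.hom_inv_id, e ▸ a.inv_hom_id⟩
  comm := Cm.comm
  tr _ _ e _ h := h.tr e

theorem st_of_k1 (Φ : D ⥤ C) [Φ.Additive] [Φ.Faithful] (ho : Function.Surjective Φ.obj)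
    (hs : ∀ {X Y : D} (f : X ⟶ Y), S.Sup H (Φ.map f))
    (hs' : ∀ {X Y : D} (f : Φ.obj X ⟶ Φ.obj Y), S.Sup H f → ∃ f', Φ.map f' = f) (hK : K1Zero D)
    {X : C} {a : X ⟶ X} (ha : S.Iso H a) : S.cmTh.St a := by
  obtain ⟨X, rfl⟩ := ho X
  exact k1_lift Φ hs hs' hK (P := Cm) S.cmTh.id S.cmTh.comp
    (fun {A f g} ⟨a, ha, e⟩ h1 _ => ⟨a⁻¹, inv_mem ha, by
      subst e
      exact (Iso.hom_comp_eq_id a).1 h1 ▸ rfl⟩) (fun _ _ _ _ => Cm.comm)
    (fun {A B p q} _ _ e e' x hx => by simpa [e] using hx.tr e') ha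

theorem k1_of_W (h0 : ∀ A B, ∃ (E : C) (c : S.sum B E ⟶ S.sum A E), S.HIso 1 c)
    (hc : ∀ g, ∃ N : Subgroup G, g ∈ N ∧ ∀ (X : C) (a : X ⟶ X), S.Iso N a → S.cmTh.St a)
    (hW : S.W ⊤) : K1Zero C := by
  intro A a
  have hs : ∀ {X Y : C} (f : X ⟶ Y), S.Sup (⊤ : Subgroup G) f := fun f g hg => (hg trivial).elim
  obtain ⟨E, b, hb, e⟩ := Th.st_of_tr (θ := S.cmTh) (fun f hf => by
    obtain ⟨N, h1, h2⟩ := hc 1
    exact h2 _ _ (hf.iso h1)) (fun g _ A B f hf => by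
    obtain ⟨N, h1, h2⟩ := hc g
    obtain ⟨E, c, h3⟩ := h0 A B
    exact ⟨E, c, h3, h2 _ _ (((hf.iso h1).bd .id).comp (h3.iso (one_mem _)))⟩)
    (hW A A a.hom ⟨hs _, a.inv, hs _, a.hom_inv_id, a.inv_hom_id⟩)
  exact ⟨_, E, S.inl _ _, S.fst _ _, S.inr _ _, S.snd _ _, by simp, by simp, S.total _ _, b, hb,
    by simp [e, blk]⟩

end GC

section Conv

variable [HasBinaryBiproducts C] {ρ : Act G C} {Γ : Type w'} [Group Γ] {j : Γ →* G}

theorem sup_push {X Y : Tw (ρ.comap j)} (f : X ⟶ Y) :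
    (twGC ρ).Sup j.range ((pushF j).map f) := by
  change (twGC ρ).Sup j.range (push j f)
  induction f using ind' with
  | h0 => simpa using GC.Sup.zero
  | h1 a b ha hb => simpa only [map_add] using ha.add hb
  | h2 δ a =>
    rw [push_sg]
    exact .of_cp (cpt_sg _ _) ⟨δ, rfl⟩

theorem push_surj {X Y : Tw (ρ.comap j)} (f : (pushF j).obj X ⟶ (pushF j).obj Y)
    (h : (twGC ρ).Sup j.range f) : ∃ f', (pushF j).map f' = f := by
  refine h.induction (P := fun f => ∃ f', (pushF j).map f' = f) ⟨0, Functor.map_zero _ _ _⟩ ?_ ?_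
  · rintro _ _ ⟨a, rfl⟩ ⟨b, rfl⟩
    exact ⟨a + b, Functor.map_add _⟩
  · rintro _ ⟨γ, rfl⟩
    exact ⟨_, push_sg j γ _⟩

theorem k0_hiso (h0 : K0Zero C) (A B : Tw ρ) :
    ∃ (D : Tw ρ) (c : (twGC ρ).sum B D ⟶ (twGC ρ).sum A D), (twGC ρ).HIso 1 c := by
  obtain ⟨D, ⟨c⟩⟩ := h0 B.as A.as
  refine ⟨⟨D⟩, emb c.hom, .of_cp (cpt_sg _ _) rfl, emb c.inv, .of_cp (cpt_sg _ _) (by simp), ?_, ?_⟩
  · exact (emb_comp _ _).trans ((congrArg emb c.hom_inv_id).trans (emb_id _))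
  · exact (emb_comp _ _).trans ((congrArg emb c.inv_hom_id).trans (emb_id _))

theorem range_prodMap (N : Subgroup G) :
    (N.subtype.prodMap (MonoidHom.id Zi)).range = N.prod ⊤ := by
  rw [MonoidHom.range_prodMap, (MonoidHom.range_eq_top (f := MonoidHom.id Zi)).2
    Function.surjective_id, Subgroup.range_subtype]

theorem W_of_K1 (h0 : K0Zero C) {N : Subgroup G} (hK : K1Zero (TwZ (ρ.comap N.subtype))) :
    (twGC (ρ.comap (MonoidHom.fst G Zi))).W (N.prod ⊤) := by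
  have hj : Function.Injective (N.subtype.prodMap (MonoidHom.id Zi)) :=
    N.subtype_injective.prodMap Function.injective_id
  have := push_faithful (ρ := ρ.comap (MonoidHom.fst G Zi)) hj
  have hK' : K1Zero (Tw ((ρ.comap (MonoidHom.fst G Zi)).comap
    (N.subtype.prodMap (MonoidHom.id Zi)))) := hK
  rw [← range_prodMap]
  exact GC.W_of_k1 (pushF _) (fun A => ⟨⟨A.as⟩, rfl⟩) sup_push push_surj hK' (k0_hiso h0)

theorem K1_of_W (h0 : K0Zero C)
    (hc : ∀ g, K1Zero (TwZ (ρ.comap (Subgroup.zpowers g).subtype)))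
    (hW : (twGC (ρ.comap (MonoidHom.fst G Zi))).W ⊤) : K1Zero (TwZ ρ) := by
  refine GC.k1_of_W (k0_hiso h0) (fun g => ⟨((Subgroup.zpowers g.1).subtype.prodMap
    (MonoidHom.id Zi)).range, ⟨(⟨g.1, Subgroup.mem_zpowers _⟩, g.2), rfl⟩, fun X a ha => ?_⟩) hW
  have hj : Function.Injective ((Subgroup.zpowers g.1).subtype.prodMap (MonoidHom.id Zi)) :=
    (Subgroup.subtype_injective _).prodMap Function.injective_id
  have := push_faithful (ρ := ρ.comap (MonoidHom.fst G Zi)) hj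
  have hK' : K1Zero (Tw ((ρ.comap (MonoidHom.fst G Zi)).comap
    ((Subgroup.zpowers g.1).subtype.prodMap (MonoidHom.id Zi)))) := hc g.1
  exact GC.st_of_k1 (pushF _) (fun A => ⟨⟨A.as⟩, rfl⟩) sup_push push_surj hK' ha

end Conv

end Pool.Agent.Lib.MP_5d3e93_al
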