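import Pool.Agent.Lib.MP_5d3e93_al.Tree1
import Pool.Agent.Lib.MP_5d3e93_al.TwGC

/-! Lifting Nil terms to covers. -/

open CategoryTheory Limits
open scoped Pointwise

namespace Pool.Agent.Lib.MP_5d3e93_al

universe w w' v u

variable {G : Type w} [Group G] {C : Type u} [Category.{v} C] [Preadditive C]
variable {Γ : Type w'} [Group Γ]

theorem Fr.injOn {q : Γ →* G} {E : Subgroup Γ} {t : Γ} (h1 : Set.InjOn q E)
    (h2 : ∀ e ∈ E, q (t⁻¹ * e * t) ∈ E.map q → t⁻¹ * e * t ∈ E)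
    (h : Fr (E.map q) (MP_5d3e93_al.dc (E.map q) (q t))) (n : ℕ) :
    Set.InjOn q (MP_5d3e93_al.dc E t ^ n) := by
  have m : ∀ a ∈ MP_5d3e93_al.dc E t, q a ∈ MP_5d3e93_al.dc (E.map q) (q t) := by
    rintro _ ⟨a, ha, b, hb, rfl⟩
    exact ⟨_, ⟨a, ha, rfl⟩, _, ⟨b, hb, rfl⟩, by simp⟩
  have m' : ∀ n : ℕ, ∀ a ∈ MP_5d3e93_al.dc E t ^ n,
      q a ∈ MP_5d3e93_al.dc (E.map q) (q t) ^ n := by
    intro n
    induction n with
    | zero => simp
    | succ n ih =>
      rw [pow_succ, pow_succ]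
      rintro _ ⟨a, ha, b, hb, rfl⟩
      exact ⟨_, ih a ha, _, m b hb, (map_mul q a b).symm⟩
  suffices ∀ w ∈ MP_5d3e93_al.dc E t ^ n, ∀ w' ∈ MP_5d3e93_al.dc E t ^ n, ∀ e ∈ E,
      q w = q e * q w' → w = e * w' from fun w hw w' hw' e => by
    simpa using this w hw w' hw' 1 (one_mem _) (by simpa using e)
  induction n with
  | zero =>
    intro w hw w' hw' e he k
    rw [pow_zero, Set.mem_one] at hw hw'
    subst hw hw'
    rw [mul_one]
    exact h1 (one_mem _) he (by simpa using k)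
  | succ n ih =>
    rw [pow_succ']
    rintro _ ⟨_, ⟨a, ha, b, hb, rfl⟩, u, hu, rfl⟩ _ ⟨_, ⟨a', ha', b', hb', rfl⟩, u', hu', rfl⟩ e he k
    have k1 := h.free n _ (m _ ⟨a, ha, b, hb, rfl⟩) _ (m _ ⟨_, mul_mem he ha', b', hb', rfl⟩) _
      (m' n u hu) _ (m' n u' hu') (by simpa [mul_assoc] using k)
    have k2 := h2 _ (mul_mem (inv_mem ha) (mul_mem he ha')) (by
      convert mul_mem (mul_mem (Subgroup.mem_map_of_mem q hb) k1)
        (inv_mem (Subgroup.mem_map_of_mem q hb')) using 1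
      simp only [map_mul, map_inv]
      group)
    have k3 := ih u hu u' hu' _ (mul_mem (mul_mem (inv_mem hb) k2) hb') (by
      simp only [map_mul, map_inv] at k ⊢
      rw [show q u = (q a * q t * q b)⁻¹ * (q a * q t * q b * q u) by group, k]
      group)
    simp only [k3]
    group

namespace GC

theorem k1_push {S : GC G C} {D : Type*} [Category D] [Preadditive D] (Φ : D ⥤ C) [Φ.Additive]
    (hK : K1Zero D) {A : D} (a : Aut A) : S.Tr ⊤ (Φ.map a.hom) := by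
  obtain ⟨B, E, i, r, i', r', e1, e2, e3, b, hb, e⟩ := hK A a
  have hs := @S.sup_top
  have hi : ∀ c : Aut B, Φ.map c.hom ≫ Φ.map c.inv = 𝟙 _ := fun c => by
    rw [← Φ.map_comp, c.hom_inv_id, Φ.map_id]
  have hi' : ∀ c : Aut B, Φ.map c.inv ≫ Φ.map c.hom = 𝟙 _ := fun c => by
    rw [← Φ.map_comp, c.inv_hom_id, Φ.map_id]
  have key : ∀ c ∈ commutator (Aut B), S.Tr ⊤ (Φ.map c.hom) := by
    intro c hc
    rw [commutator_eq_closure] at hc
    induction hc using Subgroup.closure_induction with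
    | mem _ h =>
      obtain ⟨c, d, rfl⟩ := h
      have := Tr.comm (hs _) (hs _) (hs _) (hs _) (hi' d) (hi d) (hi' c) (hi c)
      simp only [← Φ.map_comp] at this
      exact this
    | one => exact (Φ.map_id B).symm ▸ .id
    | mul c d _ _ h1 h2 =>
      have := h2.comp h1
      rwa [← Φ.map_comp] at this
    | inv c _ h => exact h.cancel_left (by rw [show (c⁻¹).hom = c.inv from rfl, hi c]; exact .id)
  have e4 : i ≫ r' = 0 := by
    have h : i ≫ r' ≫ i' = 0 := by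
      have := congrArg (i ≫ ·) e3
      simpa [reassoc_of% e1] using this
    have := congrArg (· ≫ r') h
    simpa [e2] using this
  have e5 : i' ≫ r = 0 := by
    have h : i' ≫ r ≫ i = 0 := by
      have := congrArg (i' ≫ ·) e3
      simpa [reassoc_of% e2] using this
    have := congrArg (· ≫ r) h
    simpa [e1] using this
  have f1 := congrArg Φ.map e1
  have f2 := congrArg Φ.map e2
  have f3 := congrArg Φ.map e3
  have f4 := congrArg Φ.map e4
  have f5 := congrArg Φ.map e5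
  have f6 := congrArg Φ.map e
  simp only [Φ.map_comp, Φ.map_id, Φ.map_add, Φ.map_zero] at f1 f2 f3 f4 f5 f6
  refine Tr.of_bd (D := Φ.obj E) ?_
  have := Tr.conj (p := S.fst _ _ ≫ Φ.map i + S.snd _ _ ≫ Φ.map i')
    (q := Φ.map r ≫ S.inl _ _ + Φ.map r' ≫ S.inr _ _) (hs _) (hs _)
    (by simp [reassoc_of% f1, reassoc_of% f2, reassoc_of% f4, reassoc_of% f5, S.total])
    (by simpa using f3) (key b hb)
  convert this using 1
  rw [f6]
  apply S.hom_ext <;> simp [reassoc_of% f1, reassoc_of% f2, reassoc_of% f4, reassoc_of% f5]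

theorem Sup.pw_pow {S : GC G C} {A : C} {x : A ⟶ A} {Ω : Set G} (h : S.Sup Ω x) (n : ℕ) :
    S.Sup (Ω ^ n) (MP_5d3e93_al.pw x n) := by
  induction n with
  | zero => exact .id (by simp)
  | succ n ih =>
    rw [pow_succ']
    exact h.comp ih fun _ ha _ hb => Set.mul_mem_mul ha hb

end GC

omit [Preadditive C] in
theorem map_pw {D : Type*} [Category D] (Φ : D ⥤ C) {A : D} (x : A ⟶ A) (n : ℕ) :
    Φ.map (pw x n) = pw (Φ.map x) n := by
  induction n with
  | zero => simp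
  | succ n ih => rw [pw_succ, Φ.map_comp, ih, pw_succ]

open Tw

variable [HasBinaryBiproducts C] {ρ : Act G C} {j : Γ →* G}

theorem push_lift {Ω : Set Γ} {X Y : Tw (ρ.comap j)} (f : (pushF j).obj X ⟶ (pushF j).obj Y)
    (h : (twGC ρ).Sup (j '' Ω) f) :
    ∃ f', (twGC (ρ.comap j)).Sup Ω f' ∧ (pushF j).map f' = f := by
  refine h.induction (P := fun f => ∃ f', (twGC (ρ.comap j)).Sup Ω f' ∧ (pushF j).map f' = f)
    ⟨0, .zero, Functor.map_zero _ _ _⟩ ?_ ?_
  · rintro _ _ ⟨a, ha, rfl⟩ ⟨b, hb, rfl⟩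
    exact ⟨a + b, ha.add hb, Functor.map_add _⟩
  · rintro _ ⟨γ, hγ, rfl⟩
    exact ⟨_, .of_cp (cpt_sg _ _) hγ, push_sg j γ _⟩

theorem push_zero {Ω : Set Γ} (hj : Set.InjOn j Ω) {X Y : Tw (ρ.comap j)} {f : X ⟶ Y}
    (h : (twGC (ρ.comap j)).Sup Ω f) (e : (pushF j).map f = 0) : f = 0 := by
  refine h.eq_zero (Y := Ωᶜ) (fun γ hγ => ?_) fun _ h k => k h
  have hγ : γ ∈ Ω := not_not.1 hγ
  have : co (j γ) (push j f) = co γ f := by
    refine h.induction (P := fun f => co (j γ) (push j f) = co γ f)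
      ((congrArg _ (map_zero _)).trans rfl) (fun a b ha hb =>
        (congrArg _ (map_add _ _ _)).trans ((map_add _ _ _).trans
          ((congrArg₂ (· + ·) ha hb).trans (map_add _ _ _).symm))) fun δ hδ => ?_
    change co (j γ) (push j (sg δ (co δ f))) = co γ (sg δ (co δ f))
    refine (congrArg _ (push_sg j δ _)).trans ?_
    by_cases e : γ = δ
    · subst e
      exact (co_sg _ _).trans (co_sg _ _).symm
    · rw [co_sg_ne e]
      exact co_sg_ne (fun k => e (hj hγ hδ k)) _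
  change sg γ (co γ f) = 0
  rw [← this, show push j f = 0 from e]
  exact sg_zero γ

theorem gd_lift {θ : Nt (Tw ρ)} {Ω : Set Γ} (hj : ∀ n : ℕ, Set.InjOn j (Ω ^ n))
    (h : ∀ (A : Tw (ρ.comap j)) (x : A ⟶ A), (twGC (ρ.comap j)).Sup Ω x → (∃ m, pw x m = 0) →
      θ.T ((pushF j).map (𝟙 A - x))) : (twGC ρ).Gd θ (j '' Ω) := by
  rintro A x hx ⟨m, hm⟩
  obtain ⟨y, h1, h2⟩ := push_lift (X := ⟨A.as⟩) (Y := ⟨A.as⟩) x hx
  have := h _ y h1 ⟨m, push_zero (hj m) (h1.pw_pow m) (by rw [map_pw, h2]; exact hm)⟩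
  rwa [Functor.map_sub, CategoryTheory.Functor.map_id, h2] at this

theorem gd_cover {Ω : Set Γ} (hj : ∀ n : ℕ, Set.InjOn j (Ω ^ n))
    (hK : K1Zero (Tw (ρ.comap j))) : (twGC ρ).Gd (twGC ρ).nt (j '' Ω) :=
  gd_lift hj fun A x _ ⟨m, hm⟩ => GC.k1_push (pushF j) hK ⟨𝟙 A - x, _,
    by rw [geom_left x m, hm, sub_zero], by rw [geom_right x m, hm, sub_zero]⟩

end Pool.Agent.Lib.MP_5d3e93_al
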