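import Mathlib

/-! The modular lattice of lattices over a discrete valuation ring and its covolume. -/

namespace Pool.Agent.Lib.MP_5d3e93_al.Dl

open Submodule

universe w v u u'

section

variable {O : Type u} [CommRing O] {V : Type v} [AddCommGroup V] [Module O V]

/-- The length of `a / (a ⊓ b)`. -/
noncomputable def rl (a b : Submodule O V) : ℕ∞ := Module.length O (a ⧸ b.comap a.subtype)

theorem rl_inf (a b : Submodule O V) : rl a (a ⊓ b) = rl a b := by
  rw [rl, rl, comap_inf, comap_subtype_self, top_inf_eq]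

theorem rl_sup (a b : Submodule O V) : rl (a ⊔ b) b = rl a (a ⊓ b) :=
  (LinearMap.quotientInfEquivSupQuotient a b).length_eq.symm

theorem rl_add {a b c : Submodule O V} (h : c ≤ b) (k : b ≤ a) : rl a c = rl b c + rl a b := by
  refine Module.length_eq_add_of_exact
    (mapQ (c.comap b.subtype) (c.comap a.subtype) (inclusion k) fun _ e => e)
    (mapQ (c.comap a.subtype) (b.comap a.subtype) LinearMap.id fun _ e => h e) ?_ ?_ ?_
  · rw [← LinearMap.ker_eq_bot, eq_bot_iff]
    intro x e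
    obtain ⟨x, rfl⟩ := mkQ_surjective _ x
    exact (Quotient.mk_eq_zero _).2 ((Quotient.mk_eq_zero (c.comap a.subtype)).1 e)
  · intro x
    obtain ⟨x, rfl⟩ := mkQ_surjective _ x
    exact ⟨mkQ _ x, rfl⟩
  · intro x
    obtain ⟨x, rfl⟩ := mkQ_surjective _ x
    constructor
    · intro e
      exact ⟨mkQ _ ⟨x.1, (Quotient.mk_eq_zero (b.comap a.subtype)).1 e⟩, rfl⟩
    · rintro ⟨y, e⟩
      obtain ⟨y, rfl⟩ := mkQ_surjective _ y
      rw [← e]
      exact (Quotient.mk_eq_zero (b.comap a.subtype)).2 y.2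

theorem rl_eq_zero {a b : Submodule O V} : rl a b = 0 ↔ a ≤ b := by
  rw [rl, Module.length_eq_zero_iff, Submodule.Quotient.subsingleton_iff, comap_subtype_eq_top]

theorem rl_map (e : V ≃ₗ[O] V) (a b : Submodule O V) :
    rl (a.map e.toLinearMap) (b.map e.toLinearMap) = rl a b := by
  refine (Submodule.Quotient.equiv _ _ (e.submoduleMap a) ?_).length_eq.symm
  ext x
  constructor
  · rintro ⟨y, p, rfl⟩
    exact ⟨y.1, p, rfl⟩
  · rintro ⟨y, p, q⟩
    obtain ⟨x, rfl⟩ := (e.submoduleMap a).surjective x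
    obtain rfl : y = x.1 := e.injective q
    exact ⟨x, p, rfl⟩

theorem rl_ne_top [IsNoetherianRing O] [Ring.KrullDimLE 1 O] {a b : Submodule O V} (h : a.FG)
    {r : O} (hr : r ∈ nonZeroDivisors O) (k : ∀ x ∈ a, r • x ∈ b) : rl a b ≠ ⊤ := by
  have := Module.Finite.iff_fg.2 h
  have t : Module.IsTorsionBy O (a ⧸ b.comap a.subtype) r := fun x => by
    obtain ⟨x, rfl⟩ := mkQ_surjective _ x
    exact (Quotient.mk_eq_zero (b.comap a.subtype)).2 (k x.1 x.2)
  let _ := t.module
  have s := Ideal.Quotient.mk_surjective (I := Ideal.span {r})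
  have : IsScalarTower O (O ⧸ Ideal.span {r}) (a ⧸ b.comap a.subtype) :=
    Module.IsTorsionBySet.isScalarTower _
  have : IsArtinian O (O ⧸ Ideal.span {r}) :=
    (isFiniteLength_iff_isNoetherian_isArtinian.1 (isFiniteLength_quotient_span_singleton O hr)).2
  have : IsArtinianRing (O ⧸ Ideal.span {r}) := isArtinian_of_tower O inferInstance
  have : Module.Finite (O ⧸ Ideal.span {r}) (a ⧸ b.comap a.subtype) :=
    Module.Finite.of_restrictScalars_finite O _ _
  have : IsArtinian O (a ⧸ b.comap a.subtype) :=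
    isArtinian_of_surjective_algebraMap (R := O ⧸ Ideal.span {r}) s
  exact Module.length_ne_top

end

variable (O : Type u) [CommRing O] (F : Type u') [Field F] [Algebra O F]
variable (V : Type v) [AddCommGroup V] [Module F V] [Module O V] [IsScalarTower O F V]

/-- Lattices in `V`. -/
def Lat : Type v := {Λ : Submodule O V // Λ.IsLattice F}

variable {O F V}

namespace Lat

instance : MulAction (V ≃ₗ[F] V) (Lat O F V) where
  smul e x := ⟨x.1.map (e.restrictScalars O).toLinearMap, x.2.fg.map _, by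
    have : span F (e.toLinearMap '' x.1) = ⊤ := by
      rw [← map_span, x.2.span_eq_top, Submodule.map_top, LinearEquiv.range]
    exact this⟩
  one_smul x := Subtype.ext (map_id _)
  mul_smul a b x := Subtype.ext (map_comp (b.restrictScalars O).toLinearMap
    (a.restrictScalars O).toLinearMap x.1)

theorem smul_val (e : V ≃ₗ[F] V) (x : Lat O F V) :
    (e • x).1 = x.1.map (e.restrictScalars O).toLinearMap := rfl

theorem mem_smul {e : V ≃ₗ[F] V} {x : Lat O F V} {v : V} : v ∈ (e • x).1 ↔ ∃ w ∈ x.1, e w = v :=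
  Iff.rfl

theorem mem_of_smul_eq {e : V ≃ₗ[F] V} {x : Lat O F V} (h : e • x = x) : ∀ v ∈ x.1, e v ∈ x.1 :=
  fun v a => by rw [← h]; exact ⟨v, a, rfl⟩

/-- Multiplication by a nonzero scalar. -/
def sc (t : Fˣ) : V ≃ₗ[F] V := LinearEquiv.smulOfUnit t

theorem sc_apply (t : Fˣ) (v : V) : sc t v = (t : F) • v := rfl

theorem sc_comm (t : Fˣ) (e : V ≃ₗ[F] V) : sc t * e = e * sc t :=
  LinearEquiv.ext fun v => (e.map_smul (t : F) v).symm

theorem sc_pow (t : Fˣ) (m : ℕ) (v : V) : ((sc t : V ≃ₗ[F] V) ^ m) v = (t : F) ^ m • v := by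
  induction m with
  | zero => simp
  | succ m ih => rw [pow_succ', LinearEquiv.mul_apply, ih, sc_apply, smul_smul, pow_succ']

variable [IsDomain O] [IsDiscreteValuationRing O] [IsFractionRing O F] [Module.Finite F V]

instance : Lattice (Lat O F V) :=
  Subtype.lattice (fun _ _ _ _ => IsLattice.sup F _ _) fun _ _ _ _ => IsLattice.inf F _ _

theorem le_def {x y : Lat O F V} : x ≤ y ↔ x.1 ≤ y.1 := Iff.rfl

theorem sup_val (x y : Lat O F V) : (x ⊔ y).1 = x.1 ⊔ y.1 := rfl

theorem inf_val (x y : Lat O F V) : (x ⊓ y).1 = x.1 ⊓ y.1 := rfl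

instance : IsModularLattice (Lat O F V) :=
  ⟨fun {x} y {z} h => IsModularLattice.sup_inf_le_assoc_of_le (x := x.1) y.1 (z := z.1) h⟩

instance : Nonempty (Lat O F V) :=
  ⟨⟨span O (Set.range (Module.finBasis F V)), fg_span (Set.finite_range _), by
    rw [span_span_of_tower, Module.Basis.span_eq]⟩⟩

theorem smul_mono (e : V ≃ₗ[F] V) {x y : Lat O F V} (h : x ≤ y) : e • x ≤ e • y := map_mono h

theorem smul_le_iff (e : V ≃ₗ[F] V) {x y : Lat O F V} : e • x ≤ e • y ↔ x ≤ y :=
  ⟨fun h => by simpa using smul_mono e⁻¹ h, smul_mono e⟩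

/-- The order automorphism given by a linear automorphism. -/
def iso (e : V ≃ₗ[F] V) : Lat O F V ≃o Lat O F V := ⟨MulAction.toPerm e, smul_le_iff e⟩

theorem iso_apply (e : V ≃ₗ[F] V) (x : Lat O F V) : iso e x = e • x := rfl

theorem smul_sup (e : V ≃ₗ[F] V) (x y : Lat O F V) : e • (x ⊔ y) = e • x ⊔ e • y :=
  (iso e).map_sup x y

theorem smul_inf (e : V ≃ₗ[F] V) (x y : Lat O F V) : e • (x ⊓ y) = e • x ⊓ e • y :=
  (iso e).map_inf x y

omit [IsDomain O] [IsDiscreteValuationRing O] [Module.Finite F V] in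
theorem exists_mul (x y : Lat O F V) : ∃ r ∈ nonZeroDivisors O, ∀ v ∈ x.1, r • v ∈ y.1 := by
  obtain ⟨s, e⟩ := x.2.fg
  have k (v : V) := multiple_mem_span_of_mem_localization_span
    (nonZeroDivisors O) F (y.1 : Set V) v (y.2.span_eq_top ▸ trivial)
  choose t ht using k
  refine ⟨∏ v ∈ s, (t v : O), prod_mem fun v _ => (t v).2, fun v a => ?_⟩
  rw [← e] at a
  refine (span_le (p := y.1.comap (LinearMap.lsmul O V (∏ v ∈ s, (t v : O))))).2 ?_ a
  intro w b
  obtain ⟨c, d⟩ := Finset.dvd_prod_of_mem (fun v => (t v : O)) b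
  change (∏ v ∈ s, (t v : O)) • w ∈ y.1
  rw [d, mul_comm, mul_smul]
  exact y.1.smul_mem _ (span_eq y.1 ▸ ht w)

theorem rl_fin (x y : Lat O F V) : rl x.1 y.1 ≠ ⊤ :=
  (exists_mul x y).elim fun _ a => rl_ne_top x.2.fg a.1 a.2

/-- The length of `x / (x ⊓ y)` as a natural number. -/
noncomputable def ix (x y : Lat O F V) : ℕ := (rl x.1 y.1).toNat

theorem ix_add {x y z : Lat O F V} (h : z ≤ y) (k : y ≤ x) : ix x z = ix y z + ix x y := by
  rw [ix, rl_add h k, ENat.toNat_add (rl_fin y z) (rl_fin x y)]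
  rfl

theorem ix_inf (x y : Lat O F V) : ix x (x ⊓ y) = ix x y := congrArg ENat.toNat (rl_inf ..)

theorem ix_sup (x y : Lat O F V) : ix (x ⊔ y) y = ix x (x ⊓ y) := congrArg ENat.toNat (rl_sup ..)

theorem ix_eq_zero {x y : Lat O F V} : ix x y = 0 ↔ x ≤ y := by
  rw [ix, ENat.toNat_eq_zero, rl_eq_zero, or_iff_left (rl_fin x y), le_def]

omit [IsDomain O] [IsDiscreteValuationRing O] [IsFractionRing O F] [Module.Finite F V] in
theorem ix_smul (e : V ≃ₗ[F] V) (x y : Lat O F V) : ix (e • x) (e • y) = ix x y :=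
  congrArg ENat.toNat (rl_map ..)

/-- The covolume, normalised at an arbitrary lattice. -/
noncomputable def cov (x : Lat O F V) : ℤ :=
  ix (Classical.arbitrary _) x - ix x (Classical.arbitrary _)

theorem cov_eq {x z : Lat O F V} (h : z ≤ x) (k : z ≤ Classical.arbitrary _) :
    cov x = ix (Classical.arbitrary _) z - ix x z := by
  have a := ix_add (le_inf h k) (inf_le_left (a := x))
  have b := ix_add (le_inf h k) (inf_le_right (a := x))
  rw [ix_inf] at a
  rw [inf_comm x, ix_inf, inf_comm _ x] at b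
  rw [cov]
  omega

theorem cov_of_le {x y : Lat O F V} (h : y ≤ x) : cov y = cov x + ix x y := by
  rw [cov_eq (x := y) inf_le_left inf_le_right, cov_eq (inf_le_left.trans h) inf_le_right,
    ix_add (inf_le_left (a := y)) h]
  omega

theorem cov_sub (x y : Lat O F V) : cov y - cov x = ix x y - ix y x := by
  have a := cov_of_le (inf_le_left (a := x) (b := y))
  have b := cov_of_le (inf_le_left (a := y) (b := x))
  rw [ix_inf] at a b
  rw [inf_comm] at b
  omega

theorem cov_mod (x y : Lat O F V) : cov (x ⊔ y) + cov (x ⊓ y) = cov x + cov y := by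
  have a := cov_of_le (inf_le_left (a := x) (b := y))
  have b := cov_of_le (le_sup_right (a := x) (b := y))
  rw [ix_sup] at b
  omega

theorem cov_anti : StrictAnti (cov : Lat O F V → ℤ) := fun y x h => by
  have a := cov_of_le h.le
  have b := mt ix_eq_zero.1 h.not_ge
  omega

theorem cov_smul_sub (e : V ≃ₗ[F] V) (x y : Lat O F V) :
    cov (e • y) - cov (e • x) = cov y - cov x := by
  rw [cov_sub, cov_sub, ix_smul, ix_smul]

variable (O) in
/-- The change of the covolume under a linear automorphism. -/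
noncomputable def chi (e : V ≃ₗ[F] V) : ℤ :=
  cov (e • (Classical.arbitrary _ : Lat O F V)) - cov (Classical.arbitrary (Lat O F V))

theorem cov_smul (e : V ≃ₗ[F] V) (x : Lat O F V) : cov (e • x) = cov x + chi O e := by
  have := cov_smul_sub e x (Classical.arbitrary _)
  rw [chi]
  omega

theorem chi_mul (a b : V ≃ₗ[F] V) : chi O (a * b) = chi O a + chi O b := by
  have := cov_smul (a * b) (Classical.arbitrary (Lat O F V))
  rw [mul_smul, cov_smul, cov_smul] at this
  omega

variable {ϖ : O} {t : Fˣ} (ht : algebraMap O F ϖ = t)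
include ht

theorem sc_le (x : Lat O F V) : (sc t : V ≃ₗ[F] V) • x ≤ x := by
  rintro _ ⟨v, a, rfl⟩
  change (t : F) • v ∈ x.1
  rw [← ht, algebraMap_smul]
  exact x.1.smul_mem _ a

variable (hϖ : Irreducible ϖ)
include hϖ

theorem exists_pow (x y : Lat O F V) : ∃ m : ℕ, (sc t : V ≃ₗ[F] V) ^ m • x ≤ y := by
  obtain ⟨r, a, b⟩ := exists_mul x y
  obtain ⟨m, c, rfl⟩ := IsDiscreteValuationRing.eq_unit_mul_pow_irreducible
    (nonZeroDivisors.ne_zero a) hϖ
  refine ⟨m, ?_⟩
  rintro _ ⟨v, d, rfl⟩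
  change ((sc t : V ≃ₗ[F] V) ^ m) v ∈ y.1
  rw [sc_pow, ← ht, ← map_pow, algebraMap_smul]
  simpa [smul_smul] using y.1.smul_mem (c⁻¹ : Oˣ) (b v d)

theorem sc_lt [Nontrivial V] (x : Lat O F V) : (sc t : V ≃ₗ[F] V) • x < x := by
  refine (sc_le ht x).lt_of_ne fun e => ?_
  have z : x.1 = ⊥ := eq_bot_of_le_smul_of_le_jacobson_bot (Ideal.span {ϖ}) x.1 x.2.fg
    (fun v a => by
      rw [← e] at a
      obtain ⟨w, b, rfl⟩ := a
      change (t : F) • w ∈ _
      rw [← ht, algebraMap_smul]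
      exact smul_mem_smul (Ideal.mem_span_singleton_self _) b)
    (by rw [← hϖ.maximalIdeal_eq]; exact IsLocalRing.maximalIdeal_le_jacobson _)
  have := x.2.span_eq_top
  rw [z] at this
  simp at this

theorem chi_pos [Nontrivial V] : 0 < chi O (sc t : V ≃ₗ[F] V) := by
  have a := cov_anti (sc_lt ht hϖ (Classical.arbitrary (Lat O F V)))
  rw [cov_smul] at a
  omega

end Lat

end Pool.Agent.Lib.MP_5d3e93_al.Dl
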