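import Pool.Agent.Lib.MP_5d3e93_al.Dv
import Pool.Agent.Lib.MP_5d3e93_al.Dl

/-! The building of a finitely generated linear group. -/

namespace Pool.Agent.Lib.MP_5d3e93_al.Dl

universe w v u

variable {k : Type u} {K : Type v} [Field k] [Field K] [Algebra k K] {n : Type} [Fintype n]
variable [DecidableEq n] {G : Type w} [Group G]

/-- A finitely generated linear group spans a finite dimensional space of matrices or acts on a
graded modular lattice with a shift such that all groups with a fixed point do. -/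
theorem exists_bld [Group.FG G] (φ : G →* GL n K) :
    Module.Finite k (Submodule.span k (Set.range fun g => (φ g : Matrix n n K))) ∨
    ∃ (X : Type v) (_ : Lattice X) (_ : IsModularLattice X) (_ : Nonempty X) (_ : MulAction G X)
      (π : X ≃o X) (cov : X → ℤ) (χ : G → ℤ) (N : ℕ), 0 < N ∧
      (∀ (g : G) (x y : X), x ≤ y → g • x ≤ g • y) ∧ (∀ (g : G) x, π (g • x) = g • π x) ∧
      (∀ x, π x ≤ x) ∧ (∀ x y, ∃ m : ℕ, (π ^ m) x ≤ y) ∧ StrictAnti cov ∧
      (∀ x y, cov (x ⊔ y) + cov (x ⊓ y) = cov x + cov y) ∧ (∀ x, cov (π x) = cov x + N) ∧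
      (∀ (g : G) x, cov (g • x) = cov x + χ g) ∧
      ∀ (x : X) (H : Subgroup G), (∀ g ∈ H, g • x = x) →
        Module.Finite k (Submodule.span k ((fun g => (φ g : Matrix n n K)) '' H)) := by
  obtain ⟨F, _, O, _, V, _, _, _, ψ, h⟩ := Dv.exists_dvr (k := k) φ
  obtain _ | _ := subsingleton_or_nontrivial V
  · obtain ⟨x⟩ : Nonempty (Lat O F V) := inferInstance
    have := h x.1 x.2 ⊤ fun g _ v a => by rwa [Subsingleton.elim (ψ g v) v]
    rw [Subgroup.coe_top, Set.image_univ] at this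
    exact .inl this
  obtain ⟨ϖ, hϖ⟩ := IsDiscreteValuationRing.exists_irreducible O
  let t : Fˣ := Units.mk0 (ϖ : F) (by simpa using hϖ.ne_zero)
  have ht : algebraMap O F ϖ = t := rfl
  have p := Lat.chi_pos (V := V) ht hϖ
  have q (m : ℕ) (x : Lat O F V) :
      ((Lat.iso (Lat.sc t) : Lat O F V ≃o Lat O F V) ^ m) x = (Lat.sc t : V ≃ₗ[F] V) ^ m • x := by
    induction m with
    | zero => simp
    | succ m ih => rw [pow_succ', pow_succ', mul_smul, ← ih]; rfl
  refine .inr ⟨Lat O F V, inferInstance, inferInstance, inferInstance, MulAction.compHom _ ψ,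
    Lat.iso (Lat.sc t), Lat.cov, fun g => Lat.chi O (ψ g), (Lat.chi O (Lat.sc t)).toNat,
    by omega, fun g _ _ => Lat.smul_mono (ψ g), fun g x => ?_, Lat.sc_le ht, fun x y => ?_,
    Lat.cov_anti, Lat.cov_mod, fun x => ?_, fun g => Lat.cov_smul (ψ g),
    fun x H a => h x.1 x.2 H fun g b => Lat.mem_of_smul_eq (a g b)⟩
  · change (Lat.sc t : V ≃ₗ[F] V) • ψ g • x = ψ g • (Lat.sc t : V ≃ₗ[F] V) • x
    rw [← mul_smul, Lat.sc_comm, mul_smul]
  · simpa only [q] using Lat.exists_pow ht hϖ x y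
  · rw [Lat.iso_apply, Lat.cov_smul, Int.toNat_of_nonneg p.le]

end Pool.Agent.Lib.MP_5d3e93_al.Dl
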