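import Mathlib

/-! Bounded acyclic binary complexes and vanishing of K-theory in all degrees. -/

open CategoryTheory Limits

namespace Pool.Agent.Lib.MP_5d3e93_al

universe v u

set_option linter.checkUnivs false in
/-- A category with a class of short exact sequences. -/
structure Exc where
  C : Type (max u v)
  [cat : Category.{v} C]
  ses : ∀ {X Y Z : C}, (X ⟶ Y) → (Y ⟶ Z) → Prop

attribute [instance] Exc.cat

namespace Exc

/-- The split exact structure on a preadditive category. -/
def spl (C : Type (max u v)) [Category.{v} C] [Preadditive C] : Exc.{v, u} :=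
  ⟨C, fun i p => ∃ r s, i ≫ r = 𝟙 _ ∧ s ≫ p = 𝟙 _ ∧ r ≫ i + p ≫ s = 𝟙 _⟩

variable (E : Exc.{v, u})

/-- Bounded graded objects with two differentials, both spliced from short exact sequences. -/
structure Bin where
  X : ℕ → E.C
  d : Bool → ∀ n, X (n + 1) ⟶ X n
  bdd : ∃ m, ∀ n, m ≤ n → IsZero (X n)
  acyc : ∀ b, ∃ (Z : ℕ → E.C) (i : ∀ n, Z (n + 1) ⟶ X n) (p : ∀ n, X n ⟶ Z n),
    IsZero (Z 0) ∧ ∀ n, E.ses (i n) (p n) ∧ d b n = p (n + 1) ≫ i n

variable {E} in
/-- Graded morphisms commuting with both differentials. -/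
@[ext] structure Hom (P Q : E.Bin) where
  f : ∀ n, P.X n ⟶ Q.X n
  comm : ∀ b n, f (n + 1) ≫ Q.d b n = P.d b n ≫ f n

instance : Category.{v} E.Bin where
  Hom := Hom
  id P := ⟨fun _ => 𝟙 _, fun _ _ => by simp⟩
  comp f g := ⟨fun n => f.f n ≫ g.f n, fun b n => by
    rw [Category.assoc, g.comm, reassoc_of% (f.comm b n)]⟩
  id_comp _ := Hom.ext (funext fun _ => Category.id_comp _)
  comp_id _ := Hom.ext (funext fun _ => Category.comp_id _)
  assoc _ _ _ := Hom.ext (funext fun _ => Category.assoc ..)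

/-- Bounded acyclic binary complexes with the degreewise short exact sequences. -/
def Bq : Exc.{v, u} := ⟨E.Bin, fun i p => ∀ n, E.ses (Hom.f i n) (Hom.f p n)⟩

/-- The Grothendieck group. -/
def K0 : Type (max u v) := FreeAbelianGroup E.C ⧸ AddSubgroup.closure
  {x : FreeAbelianGroup E.C | ∃ (X Y Z : E.C) (i : X ⟶ Y) (p : Y ⟶ Z), E.ses i p ∧
    x = .of Y - .of X - .of Z}

end Exc

/-- The Grothendieck groups of all categories of bounded acyclic binary multicomplexes in the
idempotent completion vanish. -/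
def KZero (C : Type u) [Category.{v} C] [Preadditive C] : Prop :=
  ∀ n, Subsingleton (Exc.Bq^[n] (Exc.spl.{v, u} (Idempotents.Karoubi C))).K0

end Pool.Agent.Lib.MP_5d3e93_al
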