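import Mathlib

/-! Algebras with degree functions. -/

namespace Pool.Agent.Lib.MP_5d3e93_al

universe w

/-- Algebras over a field with finitely many maps to discretely valued rings such that leading
terms have common left multiples and bounded sets span subspaces of finite dimension. -/
def Deg (B : Type w) [Ring B] : Prop := ∃ (k : Type w) (_ : Field k) (_ : Algebra k B) (r : ℕ)
  (A : Fin r → Type w) (_ : ∀ i, Ring (A i)) (f : ∀ i, B →+* A i)
  (v : ∀ i, Valuation (A i) (WithZero (Multiplicative ℤ))),
  (∀ i a b, v i a ≠ 0 → v i b ≠ 0 → ∃ p q, v i (p * a - q * b) < v i (p * a)) ∧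
  ∀ c, Module.Finite k (Submodule.span k {b | ∀ i, v i (f i b) ≤ c})

end Pool.Agent.Lib.MP_5d3e93_al
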