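import Pool.Agent.Lib.MP_5d3e93_al.Defs

/-! The obstruction category of the assembly map over the full simplicial complex on a set. -/

open CategoryTheory

namespace Pool.Agent.Lib.MP_5d3e93_al

universe w w' v u

/-- Points of the full simplicial complex with vertex set `S`. -/
@[ext] structure Spx (S : Type w') where
  x : S →₀ ℝ
  nonneg : ∀ s, 0 ≤ x s
  total : x.sum (fun _ r => r) = 1

namespace Spx

variable {S : Type w'}

/-- The `l1` distance. -/
noncomputable def d (p q : Spx S) : ℝ := (p.x - q.x).sum fun _ r => |r|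

/-- The simplicial map induced by a map of vertices. -/
noncomputable def map (f : S → S) (p : Spx S) : Spx S :=
  ⟨p.x.mapDomain f, fun s => Finsupp.mapDomain_nonneg (fun s => p.nonneg s) s, by
    rw [Finsupp.sum_mapDomain_index (by simp) (by simp), p.total]⟩

theorem nm (x : S →₀ ℝ) {F : Finset S} (h : x.support ⊆ F) :
    (x.sum fun _ r => |r|) = ∑ s ∈ F, |x s| := Finsupp.sum_of_support_subset _ h _ (by simp)

theorem nm_add (x y : S →₀ ℝ) :
    ((x + y).sum fun _ r => |r|) ≤ (x.sum fun _ r => |r|) + y.sum fun _ r => |r| := by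
  classical
  rw [nm _ Finsupp.support_add, nm x Finset.subset_union_left, nm y Finset.subset_union_right,
    ← Finset.sum_add_distrib]
  exact Finset.sum_le_sum fun s _ => abs_add_le _ _

theorem d_self (p : Spx S) : p.d p = 0 := by simp [d]

theorem d_tri (p q r : Spx S) : p.d r ≤ p.d q + q.d r := by
  simpa [d] using nm_add (p.x - q.x) (q.x - r.x)

theorem d_map (f : S → S) (p q : Spx S) : (p.map f).d (q.map f) ≤ p.d q := by
  change ((p.x.mapDomain f - q.x.mapDomain f).sum _) ≤ ∑ _ ∈ _, _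
  rw [← Finsupp.mapDomain_sub, Finsupp.mapDomain, show (p.x - q.x).sum _ = ∑ _ ∈ _, _ from rfl]
  induction (p.x - q.x).support using Finset.cons_induction with
  | empty => simp
  | cons a s h ih =>
    rw [Finset.sum_cons, Finset.sum_cons]
    exact (nm_add _ _).trans (add_le_add (Finsupp.sum_single_index abs_zero).le ih)

end Spx

/-- Objects of the obstruction category: families of objects of `C` with positions in a finite
subcomplex and heights tending to infinity. -/
structure Obs (S : Type w') (C : Type u) where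
  ι : Type
  B : ι → C
  π : ι → Spx S
  τ : ι → ℕ
  fin : ∀ n, {i | τ i ≤ n}.Finite
  cpt : ∃ F : Finset S, ∀ i, (π i).x.support ⊆ F

namespace Obs

variable {S : Type w'} {C : Type u} {X Y Z : Obs S C}

variable (X Y) in
/-- Control: bounded in the height direction, small at infinity in the simplicial direction. -/
def Ctl (R : X.ι → Y.ι → Prop) : Prop :=
  (∃ r : ℕ, ∀ i j, R i j → X.τ i ≤ Y.τ j + r ∧ Y.τ j ≤ X.τ i + r) ∧
    ∀ ε : ℝ, 0 < ε → ∃ n : ℕ, ∀ i j, R i j → n ≤ X.τ i → (X.π i).d (Y.π j) ≤ ε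

theorem Ctl.mono {R R' : X.ι → Y.ι → Prop} (h : Ctl X Y R) (k : ∀ i j, R' i j → R i j) :
    Ctl X Y R' :=
  ⟨h.1.imp fun _ a i j b => a i j (k i j b), fun ε e => (h.2 ε e).imp fun _ a i j b => a i j (k i j b)⟩

theorem Ctl.or {R R' : X.ι → Y.ι → Prop} (h : Ctl X Y R) (k : Ctl X Y R') :
    Ctl X Y fun i j => R i j ∨ R' i j := by
  obtain ⟨⟨r, a⟩, b⟩ := h
  obtain ⟨⟨s, c⟩, d⟩ := k
  refine ⟨⟨r + s, fun i j e => ?_⟩, fun ε e => ?_⟩
  · rcases e.imp (a i j) (c i j) with e | e <;> omega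
  · obtain ⟨n, b⟩ := b ε e
    obtain ⟨m, d⟩ := d ε e
    exact ⟨n + m, fun i j e f => e.elim (b i j · (by omega)) (d i j · (by omega))⟩

theorem Ctl.comp {R : X.ι → Y.ι → Prop} {R' : Y.ι → Z.ι → Prop} (h : Ctl X Y R) (k : Ctl Y Z R') :
    Ctl X Z fun i l => ∃ j, R i j ∧ R' j l := by
  obtain ⟨⟨r, a⟩, b⟩ := h
  obtain ⟨⟨s, c⟩, d⟩ := k
  refine ⟨⟨r + s, fun i l ⟨j, e, f⟩ => ?_⟩, fun ε e => ?_⟩
  · have := a i j e
    have := c j l f
    omega
  · obtain ⟨n, b⟩ := b (ε / 2) (by positivity)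
    obtain ⟨m, d⟩ := d (ε / 2) (by positivity)
    refine ⟨n + m + r, fun i l ⟨j, e, f⟩ o => ?_⟩
    have := a i j e
    linarith [b i j e (by omega), d j l f (by omega), (X.π i).d_tri (Y.π j) (Z.π l)]

variable [Category.{v} C] [Preadditive C]

variable (X Y) in
/-- Controlled matrices. -/
@[ext] structure Mor where
  e : ∀ i j, X.B i ⟶ Y.B j
  ctl : Ctl X Y fun i j => e i j ≠ 0

theorem row (φ : Mor X Y) (i : X.ι) : ∃ J : Finset Y.ι, ∀ j ∉ J, φ.e i j = 0 :=
  φ.ctl.1.elim fun r a => ⟨(Y.fin (X.τ i + r)).toFinset, fun j b => by_contra fun c =>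
    b (by simpa using (a i j c).2)⟩

theorem col (φ : Mor X Y) (j : Y.ι) : ∃ J : Finset X.ι, ∀ i ∉ J, φ.e i j = 0 :=
  φ.ctl.1.elim fun r a => ⟨(X.fin (Y.τ j + r)).toFinset, fun i b => by_contra fun c =>
    b (by simpa using (a i j c).1)⟩

theorem fs {ι : Type} {J : Finset ι} {A D : C} {B : ι → C} (a : ∀ j, A ⟶ B j) (b : ∀ j, B j ⟶ D)
    (h : (∀ j ∉ J, a j = 0) ∨ ∀ j ∉ J, b j = 0) : ∑ᶠ j, a j ≫ b j = ∑ j ∈ J, a j ≫ b j :=
  finsum_eq_sum_of_support_subset _ fun j c => by_contra fun e => c (by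
    rcases h with h | h <;> simp [h j e])

namespace Mor

open Classical in
variable (X) in
/-- The identity matrix. -/
noncomputable def id : Mor X X :=
  ⟨fun i j => if h : i = j then eqToHom (congrArg X.B h) else 0,
    Ctl.mono (R := Eq) ⟨⟨0, by simp⟩, fun _ e => ⟨0, by simp [Spx.d_self, e.le]⟩⟩
      fun _ _ a => by_contra fun b => a (dif_neg b)⟩

/-- The product of matrices. -/
noncomputable def comp (φ : Mor X Y) (ψ : Mor Y Z) : Mor X Z :=
  ⟨fun i l => ∑ᶠ j, φ.e i j ≫ ψ.e j l, (φ.ctl.comp ψ.ctl).mono fun i l a =>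
    by_contra fun b => a (finsum_eq_zero_of_forall_eq_zero fun j => by_contra fun c =>
      b ⟨j, fun e => c (by simp [e]), fun e => c (by simp [e])⟩)⟩

/-- The sum of matrices. -/
def add (φ ψ : Mor X Y) : Mor X Y := ⟨fun i j => φ.e i j + ψ.e i j,
  (φ.ctl.or ψ.ctl).mono fun i j c => by_contra fun e => c (by simp_all)⟩

/-- The zero matrix. -/
def zero : Mor X Y := ⟨fun _ _ => 0, ⟨0, by simp⟩, fun _ _ => ⟨0, by simp⟩⟩

/-- The negative of a matrix. -/
def neg (φ : Mor X Y) : Mor X Y := ⟨fun i j => -φ.e i j, φ.ctl.mono (by simp)⟩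

instance : Add (Mor X Y) := ⟨add⟩

instance : Zero (Mor X Y) := ⟨zero⟩

instance : Neg (Mor X Y) := ⟨neg⟩

instance : AddCommGroup (Mor X Y) where
  add_assoc _ _ _ := Mor.ext (funext₂ fun _ _ => add_assoc ..)
  zero_add _ := Mor.ext (funext₂ fun _ _ => zero_add _)
  add_zero _ := Mor.ext (funext₂ fun _ _ => add_zero _)
  nsmul := nsmulRec
  zsmul := zsmulRec
  neg_add_cancel _ := Mor.ext (funext₂ fun _ _ => neg_add_cancel _)
  add_comm _ _ := Mor.ext (funext₂ fun _ _ => add_comm ..)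

end Mor

/-- The category of controlled matrices. -/
noncomputable instance : Category (Obs S C) where
  Hom X Y := Mor X Y
  id X := Mor.id X
  comp φ ψ := Mor.comp φ ψ
  id_comp φ := Mor.ext (funext₂ fun i l =>
    (finsum_eq_single _ i fun j a => by simp [Mor.id, a.symm]).trans (by simp [Mor.id]))
  comp_id φ := Mor.ext (funext₂ fun i l =>
    (finsum_eq_single _ l fun j a => by simp [Mor.id, a]).trans (by simp [Mor.id]))
  assoc φ ψ χ := Mor.ext (funext₂ fun i l => by
    obtain ⟨J, a⟩ := row φ i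
    obtain ⟨K, b⟩ := col χ l
    refine (fs _ _ (.inr b)).trans (.trans ?_ (fs _ _ (.inl a)).symm)
    simp only [Mor.comp, fs _ _ (.inl a), fs _ _ (.inr b), Preadditive.sum_comp,
      Preadditive.comp_sum, Category.assoc]
    rw [Finset.sum_comm])

noncomputable instance : Preadditive (Obs S C) where
  homGroup _ _ := Mor.instAddCommGroup
  add_comp _ _ _ φ φ' ψ := Mor.ext (funext₂ fun i l => by
    obtain ⟨K, b⟩ := col ψ l
    change ∑ᶠ j, (φ.e i j + φ'.e i j) ≫ _ = ∑ᶠ j, _ ≫ _ + ∑ᶠ j, _ ≫ _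
    simp only [fs _ _ (.inr b)]
    simp [Finset.sum_add_distrib])
  comp_add _ _ _ φ ψ ψ' := Mor.ext (funext₂ fun i l => by
    obtain ⟨K, b⟩ := row φ i
    change ∑ᶠ j, _ ≫ (ψ.e j l + ψ'.e j l) = ∑ᶠ j, _ ≫ _ + ∑ᶠ j, _ ≫ _
    simp only [fs _ _ (.inl b)]
    simp [Finset.sum_add_distrib])

variable (F : C ⥤ C) (hF : F.Additive) (f : Spx S → Spx S) (h : ∃ g, f = Spx.map g)

open Classical in
/-- The image of an object. -/
def indO (X : Obs S C) : Obs S C :=
  ⟨X.ι, fun i => F.obj (X.B i), fun i => f (X.π i), X.τ, X.fin, by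
    obtain ⟨g, rfl⟩ := h
    exact X.cpt.elim fun K a => ⟨K.image g, fun i =>
      Finsupp.mapDomain_support.trans (Finset.image_subset_image (a i))⟩⟩

/-- The image of a matrix. -/
def indM (φ : Mor X Y) : Mor (indO F f h X) (indO F f h Y) :=
  ⟨fun i j => F.map (φ.e i j), by
    obtain ⟨g, rfl⟩ := h
    have k (i j) (a : F.map (φ.e i j) ≠ 0) : φ.e i j ≠ 0 := fun b => a (by simp [b])
    exact ⟨φ.ctl.1.imp fun _ a i j b => a i j (k i j b), fun ε e => (φ.ctl.2 ε e).imp
      fun _ a i j b c => (Spx.d_map g _ _).trans (a i j (k i j b) c)⟩⟩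

open Classical in
/-- The functor induced by an additive functor and a simplicial map of the complex. -/
noncomputable def ind : Obs S C ⥤ Obs S C where
  obj := indO F f h
  map := indM F hF f h
  map_id X := Mor.ext (funext₂ fun i j => by
    change F.map (if h : i = j then eqToHom (congrArg X.B h) else 0) =
      if h : i = j then eqToHom (congrArg (fun i => F.obj (X.B i)) h) else 0
    split_ifs <;> simp [eqToHom_map])
  map_comp {_ Y _} φ ψ := Mor.ext (funext₂ fun i l => by
    obtain ⟨K, b⟩ := col ψ l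
    change F.map (∑ᶠ j, _) = ∑ᶠ j : Y.ι, F.map (φ.e i j) ≫ F.map (ψ.e j l)
    rw [fs _ _ (.inr b), fs (J := K) _ _ (.inr fun j c => by simp [b j c]), F.map_sum]
    simp)

theorem ind_congr {F F' : C ⥤ C} (e : F = F') {f f' : Spx S → Spx S} (e' : f = f') (a b c d) :
    ind F a f b = ind F' c f' d := by
  subst e e'
  rfl

variable (S) in
/-- The diagonal action on the obstruction category. -/
noncomputable def act {G : Type w} [Group G] [MulAction G S] (ρ : Act G C) : Act G (Obs S C) where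
  F g := ind (ρ.F g) (ρ.additive g) (Spx.map (g • ·)) ⟨_, rfl⟩
  additive g := ⟨Mor.ext (funext₂ fun _ _ => have := ρ.additive g; (ρ.F g).map_add)⟩
  one := ind_congr (f' := id) ρ.one (funext fun p => Spx.ext (by
    simp [Spx.map, ← Function.id_def])) _ _ inferInstance ⟨id, funext fun p => Spx.ext Finsupp.mapDomain_id.symm⟩
  mul g h := ind_congr (f' := Spx.map (g • ·) ∘ Spx.map (h • ·)) (ρ.mul g h) (funext fun p =>
    Spx.ext (by simp [Spx.map, ← Finsupp.mapDomain_comp, Function.comp_def, mul_smul])) _ _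
      (have := ρ.additive g; have := ρ.additive h; inferInstance)
      ⟨_, funext fun p => Spx.ext Finsupp.mapDomain_comp.symm⟩

end Obs

end Pool.Agent.Lib.MP_5d3e93_al
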