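import Mathlib

/-! Virtually polycyclic groups and their hyper and local closures. -/

namespace Pool.Agent.Lib.MP_5d3e93_al

universe w

/-- Virtually polycyclic groups of Hirsch length at most `m`. -/
def PC : ℕ → (D : Type w) → [Group D] → Prop
  | 0, D, _ => Finite D
  | m + 1, D, _ => ∃ H : Subgroup D, H.FiniteIndex ∧ ∃ χ : H →* Multiplicative ℤ, PC m χ.ker

/-- Every nontrivial quotient has a nontrivial locally virtually polycyclic normal subgroup. -/
def Hyper (D : Type w) [Group D] : Prop :=
  ∀ (M : Subgroup D) [M.Normal], M ≠ ⊤ → ∃ N : Subgroup (D ⧸ M), N.Normal ∧ N ≠ ⊥ ∧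
    ∀ H ≤ N, H.FG → ∃ m, PC m H

/-- All finitely generated subgroups have the property `Hyper`. -/
def LocHyper (D : Type w) [Group D] : Prop := ∀ H : Subgroup D, H.FG → Hyper H

end Pool.Agent.Lib.MP_5d3e93_al
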