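import Pool.Agent.Lib.MP_5d3e93_al.Defs

/-! Half trees and covers of a partial conjugation. -/

open CategoryTheory

namespace Pool.Agent.Lib.MP_5d3e93_al

universe w v u

/-- The vertices on the side of `b` of the edge from `a` to `b`. -/
def Half {V : Type*} (T : SimpleGraph V) (a b : V) : Set V :=
  {w | (T.deleteEdges {s(a, b)}).Reachable b w}

/-- The pair `(D, g)` lifts, together with the conjugation by `g` between subgroups of `D`, to
a group over `G` with vanishing `K1`. -/
def Cov {G : Type w} [Group G] {C : Type u} [Category.{v} C] [Preadditive C] (ρ : Act G C)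
    (D : Subgroup G) (g : G) : Prop :=
  ∃ (Γ : Type w) (_ : Group Γ) (q : Γ →* G) (E : Subgroup Γ) (t : Γ), Set.InjOn q E ∧
    E.map q = D ∧ q t = g ∧ (∀ e ∈ E, q (t⁻¹ * e * t) ∈ D → t⁻¹ * e * t ∈ E) ∧
      K1Zero (TwZ (ρ.comap q))

end Pool.Agent.Lib.MP_5d3e93_al
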