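import Mathlib

/-! The degree valuation and groups of matrices that fix a lattice. -/

open MvPolynomial

namespace Pool.Agent.Lib.MP_5d3e93_al.Dv

universe w v u

variable {k : Type u} [Field k] {σ : Type}

open Classical in
/-- The valuation of polynomials by the total degree. -/
noncomputable def dval : Valuation (MvPolynomial σ k) (WithZero (Multiplicative ℤ)) where
  toFun f := if f = 0 then 0 else WithZero.exp (f.totalDegree : ℤ)
  map_zero' := by simp
  map_one' := by simp
  map_mul' f g := by
    by_cases a : f = 0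
    · simp [a]
    by_cases b : g = 0
    · simp [b]
    simp [a, b, totalDegree_mul_of_isDomain a b, WithZero.exp_add]
  map_add_le_max' f g := by
    by_cases c : f + g = 0
    · simp [c]
    by_cases a : f = 0
    · simp [a]
    by_cases b : g = 0
    · simp [b]
    simp only [a, b, c, if_false, le_max_iff, WithZero.exp_le_exp, Nat.cast_le]
    exact le_max_iff.1 (totalDegree_add f g)

theorem dval_ne {f : MvPolynomial σ k} (h : f ≠ 0) :
    dval f = WithZero.exp (f.totalDegree : ℤ) := if_neg h

theorem dval_supp : nonZeroDivisors (MvPolynomial σ k) ≤ (dval (k := k) (σ := σ)).supp.primeCompl :=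
  fun f a b => by
    have c := nonZeroDivisors.ne_zero a
    have d : dval f = 0 := b
    rw [dval_ne c] at d
    exact WithZero.exp_ne_zero d

variable (k σ) in
/-- The degree valuation of the field of rational functions. -/
noncomputable def fval : Valuation (FractionRing (MvPolynomial σ k)) (WithZero (Multiplicative ℤ)) :=
  (dval (k := k) (σ := σ)).extendToLocalization dval_supp _

theorem fval_map (f : MvPolynomial σ k) : fval k σ (algebraMap _ _ f) = dval f :=
  Valuation.extendToLocalization_apply_map_apply ..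

theorem fval_dvr [Nonempty σ] : IsDiscreteValuationRing (fval k σ).valuationSubring := by
  obtain ⟨i⟩ := ‹Nonempty σ›
  have e : fval k σ (algebraMap _ _ (X i : MvPolynomial σ k)) = WithZero.exp 1 := by
    rw [fval_map, dval_ne (X_ne_zero i)]; simp
  have : (fval k σ).IsNontrivial := ⟨_, by rw [e]; simp, by rw [e]; simp⟩
  infer_instance

/-- Elements of bounded valuation with a fixed denominator span a finite dimensional space. -/
theorem fin_bd [Finite σ] (a : MvPolynomial σ k) (ha : a ≠ 0) (c : WithZero (Multiplicative ℤ)) :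
    ∃ W : Submodule k (FractionRing (MvPolynomial σ k)), W.FG ∧
      ∀ x, (∃ f : MvPolynomial σ k, a • x = algebraMap _ _ f) → fval k σ x ≤ c → x ∈ W := by
  obtain ⟨m, hm⟩ : ∃ m : ℕ, dval a * c ≤ WithZero.exp (m : ℤ) := by
    by_cases z : dval a * c = 0
    · exact ⟨0, by simp [z]⟩
    · refine ⟨(WithZero.log (dval a * c)).toNat, ?_⟩
      conv_lhs => rw [← WithZero.exp_log z]
      exact WithZero.exp_le_exp.2 (Int.self_le_toNat _)
  have a0 : algebraMap _ (FractionRing (MvPolynomial σ k)) a ≠ 0 := by simpa using ha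
  let l : MvPolynomial σ k →ₗ[k] FractionRing (MvPolynomial σ k) :=
    (LinearMap.mulLeft k (algebraMap _ _ a)⁻¹).comp (IsScalarTower.toAlgHom k _ _).toLinearMap
  refine ⟨(restrictTotalDegree σ k m).map l, (Module.Finite.iff_fg.1 inferInstance).map _, ?_⟩
  rintro x ⟨f, e⟩ b
  rw [Algebra.smul_def] at e
  refine ⟨f, (mem_restrictTotalDegree ..).2 ?_, ?_⟩
  · by_cases z : f = 0
    · simp [z]
    have : dval f ≤ WithZero.exp (m : ℤ) := by
      rw [← fval_map, ← e, map_mul, fval_map]
      exact le_trans (by gcongr) hm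
    rw [dval_ne z] at this
    exact_mod_cast WithZero.exp_le_exp.1 this
  · change (algebraMap _ _ a)⁻¹ * algebraMap _ _ f = x
    rw [← e, inv_mul_cancel_left₀ a0]

theorem val_bd {F : Type u} [Field F] (ν : Valuation F (WithZero (Multiplicative ℤ))) {V : Type v}
    [AddCommGroup V] [Module F V] (l : V →ₗ[F] F) {Λ : Submodule ν.valuationSubring V}
    (h : Λ.FG) : ∃ c, ∀ x ∈ Λ, ν (l x) ≤ c := by
  obtain ⟨s, rfl⟩ := h
  obtain ⟨c, hc⟩ := (s.finite_toSet.image fun x => ν (l x)).bddAbove
  refine ⟨c, fun x a => ?_⟩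
  induction a using Submodule.span_induction with
  | mem x a => exact hc ⟨x, a, rfl⟩
  | zero => simp
  | add x y _ _ a b => rw [map_add]; exact (ν.map_add _ _).trans (max_le a b)
  | smul r x _ a =>
    have e : l (r • x) = (r : F) * l x := l.map_smul (r : F) x
    have r1 : ν (r : F) ≤ 1 := r.2
    rw [e, map_mul]
    exact (mul_le_of_le_one_left' r1).trans a

theorem scale {F : Type u} [Field F] (O : ValuationSubring F) {V : Type v} [AddCommGroup V]
    [Module F V] {Λ : Submodule O V} (h : Λ.IsLattice F) (e : V) : ∃ Λ' : Submodule O V, Λ'.FG ∧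
      ∀ f : Module.End F V, (∀ x ∈ Λ, f x ∈ Λ) → f e ∈ Λ' := by
  obtain ⟨t, ht⟩ := multiple_mem_span_of_mem_localization_span
    (nonZeroDivisors O) F (Λ : Set V) e (h.span_eq_top ▸ trivial)
  rw [Submodule.span_eq] at ht
  have t0 : ((t : O) : F) ≠ 0 := by simp
  refine ⟨_, h.fg.map ((LinearMap.lsmul F V ((t : O) : F)⁻¹).restrictScalars O), fun f a =>
    ⟨_, a _ ht, ?_⟩⟩
  change ((t : O) : F)⁻¹ • f (((t : O) : F) • e) = _
  rw [map_smul, inv_smul_smul₀ t0]

/-- A finitely generated module over the polynomials meets a lattice in a space of finite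
dimension. -/
theorem fin_inter [Finite σ] {V : Type v} [AddCommGroup V]
    [Module (FractionRing (MvPolynomial σ k)) V] [Module (MvPolynomial σ k) V] [Module k V]
    [Module.Finite (FractionRing (MvPolynomial σ k)) V]
    [IsScalarTower (MvPolynomial σ k) (FractionRing (MvPolynomial σ k)) V]
    [IsScalarTower k (FractionRing (MvPolynomial σ k)) V]
    {M : Submodule (MvPolynomial σ k) V} (hM : M.FG)
    {Λ : Submodule (fval k σ).valuationSubring V} (h : Λ.FG) :
    ∃ W : Submodule k V, W.FG ∧ ∀ x ∈ M, x ∈ Λ → x ∈ W := by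
  let b := Module.finBasis (FractionRing (MvPolynomial σ k)) V
  have key (j) : ∃ W : Submodule k (FractionRing (MvPolynomial σ k)), W.FG ∧
      ∀ x ∈ M, x ∈ Λ → b.coord j x ∈ W := by
    obtain ⟨c, hc⟩ := val_bd _ (b.coord j) h
    obtain ⟨a, a0, ha⟩ := FractionalIdeal.isFractional_of_fg
      (S := nonZeroDivisors (MvPolynomial σ k)) (hM.map ((b.coord j).restrictScalars _))
    obtain ⟨W, w, hW⟩ := fin_bd a (nonZeroDivisors.ne_zero a0) c
    exact ⟨W, w, fun x p q => hW _ ((ha _ ⟨x, p, rfl⟩).imp fun _ e => e.symm) (hc x q)⟩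
  choose W w hW using key
  refine ⟨⨆ j, (W j).map ((LinearMap.toSpanSingleton _ V (b j)).restrictScalars k),
    Submodule.fg_iSup _ fun j => (w j).map _, fun x p q => ?_⟩
  rw [← b.sum_repr x]
  exact Submodule.sum_mem _ fun j _ => Submodule.mem_iSup_of_mem j ⟨_, hW j x p q, rfl⟩

variable {K : Type v} [Field K] [Algebra k K] {n : Type} [Fintype n] [DecidableEq n]

omit [DecidableEq n] in
theorem fin_cols (W : n → Submodule k (n → K)) (hW : ∀ i, (W i).FG) (S : Set (Matrix n n K))
    (h : ∀ m ∈ S, ∀ i, m.transpose i ∈ W i) : Module.Finite k (Submodule.span k S) := by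
  let P : Submodule k (Matrix n n K) := Submodule.pi Set.univ W
  have p : (P.map (Matrix.transposeLinearEquiv n n k K).toLinearMap).FG :=
    Submodule.FG.map _ (Submodule.fg_pi hW)
  have := Module.Finite.iff_fg.2 p
  exact Submodule.finiteDimensional_of_le
    (S₂ := P.map (Matrix.transposeLinearEquiv n n k K).toLinearMap)
    (Submodule.span_le.2 fun m a => ⟨m.transpose, fun i _ => h m a i, rfl⟩)

variable {G : Type w} [Group G]

theorem exists_ring [Group.FG G] (φ : G →* GL n K) : ∃ R : Subalgebra k K, R.FG ∧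
    ∀ g i j, (φ g : Matrix n n K) i j ∈ R := by
  classical
  obtain ⟨S, hS⟩ := (Group.fg_iff_monoid_fg.1 ‹_›).fg_top
  let T : Finset K := (S ×ˢ (Finset.univ : Finset (n × n))).image
    fun p => (φ p.1 : Matrix n n K) p.2.1 p.2.2
  refine ⟨Algebra.adjoin k T, ⟨T, rfl⟩, fun g => ?_⟩
  have a : g ∈ Submonoid.closure (S : Set G) := hS ▸ trivial
  induction a using Submonoid.closure_induction with
  | mem x a =>
    exact fun i j => Algebra.subset_adjoin (Finset.mem_image.2 ⟨(x, i, j), by simpa using a, rfl⟩)
  | one =>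
    intro i j
    rw [map_one, Units.val_one, Matrix.one_apply]
    split_ifs
    exacts [one_mem _, zero_mem _]
  | mul x y _ _ a b =>
    intro i j
    rw [map_mul, Units.val_mul, Matrix.mul_apply]
    exact sum_mem fun l _ => mul_mem (a i l) (b l j)

theorem exists_pos {σ : Type} [Finite σ] (φ : G →* GL n K) (R : Subalgebra k K)
    (hR : ∀ g i j, (φ g : Matrix n n K) i j ∈ R) (γ : MvPolynomial σ k →ₐ[k] R)
    (inj : Function.Injective γ) (fin : γ.Finite) :
    ∃ (V : Type v) (_ : AddCommGroup V) (_ : Module (FractionRing (MvPolynomial σ k)) V)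
      (_ : Module.Finite (FractionRing (MvPolynomial σ k)) V)
      (ψ : G →* (V ≃ₗ[FractionRing (MvPolynomial σ k)] V)),
      ∀ Λ : Submodule (fval k σ).valuationSubring V,
        Λ.IsLattice (FractionRing (MvPolynomial σ k)) → ∀ H : Subgroup G,
          (∀ g ∈ H, ∀ x ∈ Λ, ψ g x ∈ Λ) →
            Module.Finite k (Submodule.span k ((fun g => (φ g : Matrix n n K)) '' H)) := by
  classical
  let A := MvPolynomial σ k
  let F := FractionRing A
  let _ : Algebra A R := γ.toAlgebra
  have : Module.Finite A R := fin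
  let _ : Algebra A K := (R.val.comp γ).toAlgebra
  have : IsScalarTower k A K := .of_algebraMap_eq fun x => ((R.val.comp γ).commutes x).symm
  have : FaithfulSMul A K := (faithfulSMul_iff_algebraMap_injective A K).2
    (Subtype.val_injective.comp inj)
  let _ : Algebra F K := FractionRing.liftAlgebra A K
  have : IsScalarTower A F K := FractionRing.isScalarTower_liftAlgebra A K
  have : IsScalarTower k F K := .of_algebraMap_eq fun x => by
    rw [IsScalarTower.algebraMap_apply k A F, ← IsScalarTower.algebraMap_apply A F K,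
      ← IsScalarTower.algebraMap_apply k A K]
  let ι : R →ₗ[A] K := ⟨⟨Subtype.val, fun _ _ => rfl⟩, fun _ _ => rfl⟩
  let M0 : Submodule A (n → K) := Submodule.pi Set.univ fun _ => (⊤ : Submodule A R).map ι
  have m0 : M0.FG := Submodule.fg_pi fun _ => Module.Finite.fg_top.map _
  have mem (x : n → K) : x ∈ M0 ↔ ∀ i, x i ∈ R :=
    ⟨fun a i => by obtain ⟨y, -, e⟩ := a i trivial; exact e ▸ y.2,
      fun a i _ => ⟨⟨_, a i⟩, trivial, rfl⟩⟩
  let V : Submodule F (n → K) := Submodule.span F M0
  have vf : Module.Finite F V := by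
    obtain ⟨s, e⟩ := m0
    exact Module.Finite.iff_fg.2 ⟨s, by rw [← Submodule.span_span_of_tower A F, e]⟩
  have st (g : G) (x) (a : x ∈ M0) : (φ g : Matrix n n K).mulVec x ∈ M0 :=
    (mem _).2 fun i => sum_mem fun j _ => mul_mem (hR g i j) ((mem _).1 a j)
  have sv (g : G) : ∀ x ∈ V, (Matrix.toLin' (φ g : Matrix n n K)).restrictScalars F x ∈ V :=
    fun x a => (Submodule.span_le (p := V.comap
      ((Matrix.toLin' (φ g : Matrix n n K)).restrictScalars F))).2
        (fun y b => Submodule.subset_span (st g y b)) a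
  let ψ0 : G →* Module.End F V :=
    { toFun g := LinearMap.restrict _ (sv g)
      map_one' := LinearMap.ext fun x => Subtype.ext (by simp)
      map_mul' g h := LinearMap.ext fun x => Subtype.ext (by simp) }
  refine ⟨V, inferInstance, inferInstance, vf,
    (LinearMap.GeneralLinearGroup.generalLinearEquiv F V).toMonoidHom.comp ψ0.toHomUnits,
    fun Λ hΛ H hH => ?_⟩
  replace hH : ∀ g ∈ H, ∀ x ∈ Λ, ψ0 g x ∈ Λ := hH
  let M : Submodule A V := M0.comap (V.subtype.restrictScalars A)
  have mf : M.FG := Submodule.fg_of_fg_map_injective (V.subtype.restrictScalars A)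
    Subtype.val_injective (by
      rw [Submodule.map_comap_eq_self]
      · exact m0
      · exact fun x a => ⟨⟨x, Submodule.subset_span a⟩, rfl⟩)
  have e0 (i : n) : (Pi.single i 1 : n → K) ∈ M0 := (mem _).2 fun j => by
    rw [Pi.single_apply]
    split_ifs
    exacts [one_mem _, zero_mem _]
  have key (i : n) : ∃ W : Submodule k (n → K), W.FG ∧
      ∀ g ∈ H, (φ g : Matrix n n K).transpose i ∈ W := by
    let e : V := ⟨Pi.single i 1, Submodule.subset_span (e0 i)⟩
    obtain ⟨Λ', l, hl⟩ := scale _ hΛ e
    obtain ⟨W, w, hW⟩ := fin_inter mf l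
    refine ⟨W.map (V.subtype.restrictScalars k), w.map _, fun g a =>
      ⟨ψ0 g e, hW _ (st g _ (e0 i)) (hl _ (hH g a)), ?_⟩⟩
    change (φ g : Matrix n n K).mulVec (Pi.single i 1) = _
    rw [Matrix.mulVec_single_one]
    rfl
  choose W w hW using key
  refine fin_cols W w _ ?_
  rintro _ ⟨g, a, rfl⟩ i
  exact hW i g a

/-- A finitely generated linear group acts on a vector space over a discretely valued field in
such a way that the groups that fix a lattice span a finite dimensional space of matrices. -/
theorem exists_dvr [Group.FG G] (φ : G →* GL n K) :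
    ∃ (F : Type u) (_ : Field F) (O : ValuationSubring F) (_ : IsDiscreteValuationRing O)
      (V : Type v) (_ : AddCommGroup V) (_ : Module F V) (_ : Module.Finite F V)
      (ψ : G →* (V ≃ₗ[F] V)),
      ∀ Λ : Submodule O V, Λ.IsLattice F → ∀ H : Subgroup G, (∀ g ∈ H, ∀ x ∈ Λ, ψ g x ∈ Λ) →
        Module.Finite k (Submodule.span k ((fun g => (φ g : Matrix n n K)) '' H)) := by
  obtain ⟨R, r, hR⟩ := exists_ring (k := k) φ
  have : Algebra.FiniteType k R := (Subalgebra.fg_iff_finiteType R).1 r
  obtain ⟨d, γ, inj, fin⟩ := exists_finite_inj_algHom_of_fg k R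
  obtain _ | d := d
  · refine ⟨_, _, _, fval_dvr (k := k) (σ := Unit), PUnit, inferInstance, inferInstance,
      inferInstance, 1, fun _ _ H _ => ?_⟩
    have f0 : (Algebra.ofId k R).Finite := by
      rw [Subsingleton.elim (Algebra.ofId k R) (γ.comp (Algebra.ofId k _))]
      exact AlgHom.Finite.comp fin (AlgHom.Finite.of_surjective _
        (isEmptyAlgEquiv k (Fin 0)).symm.surjective)
    have f : Module.Finite k R := RingHom.finite_algebraMap.1 f0
    refine fin_cols (fun _ => Submodule.pi Set.univ fun _ => R.toSubmodule)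
      (fun _ => Submodule.fg_pi fun _ => Module.Finite.iff_fg.1 f) _ ?_
    rintro _ ⟨g, -, rfl⟩ i j -
    exact hR g j i
  · exact ⟨_, _, _, fval_dvr, exists_pos φ R hR γ inj fin⟩

end Pool.Agent.Lib.MP_5d3e93_al.Dv

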