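import Pool.Agent.Lib.MP_5d3e93_al.LB
import Pool.Agent.Lib.MP_5d3e93_al.TreeC

/-! Vanishing of controlled isomorphisms over a join of cones. -/

open CategoryTheory MulAction

namespace Pool.Agent.Lib.MP_5d3e93_al

universe w v u

/-- Points of a cone. -/
@[ext]
structure Cn (I : Type*) where
  l : Option I
  t : ℕ

namespace Cn

variable {G I : Type*} [Group G] [MulAction G I]

instance : MulAction G (Cn I) where
  smul g x := ⟨g • x.l, x.t⟩
  one_smul x := Cn.ext (one_smul G x.l) rfl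
  mul_smul a b x := Cn.ext (mul_smul a b x.l) rfl

@[simp] theorem smul_t (g : G) (x : Cn I) : (g • x).t = x.t := rfl

@[simp] theorem smul_l (g : G) (x : Cn I) : (g • x).l = g • x.l := rfl

/-- The distance is at most `r`. -/
def c1 (r : ℕ) (a b : Cn I) : Prop := a.t ≤ b.t + r ∧ b.t ≤ a.t + r ∧ (a.l = b.l ∨ a.t + b.t ≤ r)

/-- Moving to the cone point. -/
def dn (m : ℕ) (a : Cn I) : Cn I := if a.t ≤ m then ⟨none, 0⟩ else ⟨a.l, a.t - m⟩

theorem dn_t (m : ℕ) (a : Cn I) : (dn m a).t = a.t - m := by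
  unfold dn; split_ifs <;> simp; omega

theorem dn_none (m : ℕ) (a : Cn I) (h : a.l = none → a.t = 0) (k : (dn m a).l = none) :
    (dn m a).t = 0 := by
  unfold dn at k ⊢; split_ifs at k ⊢ with e
  · rfl
  · have := h k; omega

theorem dn_smul (g : G) (m : ℕ) (a : Cn I) : dn m (g • a) = g • dn m a := by
  unfold dn
  by_cases h : a.t ≤ m
  · rw [if_pos h, if_pos (by exact h)]; rfl
  · rw [if_neg h, if_neg (by exact h)]; rfl

theorem c1_refl (r : ℕ) (a : Cn I) : c1 r a a := ⟨by omega, by omega, .inl rfl⟩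

theorem c1.symm {r : ℕ} {a b : Cn I} (h : c1 r a b) : c1 r b a :=
  ⟨h.2.1, h.1, h.2.2.imp Eq.symm (by omega)⟩

theorem c1.dn {r : ℕ} {a b : Cn I} (h : c1 r a b) (m : ℕ) : c1 r (dn m a) (dn m b) := by
  obtain ⟨h1, h2, h3⟩ := h
  unfold Cn.dn c1
  split_ifs <;> simp only [true_or, and_true] <;> refine ⟨by omega, ?_⟩
  · omega
  · exact ⟨by omega, .inr (by omega)⟩
  · exact ⟨by omega, .inr (by omega)⟩
  · exact ⟨by omega, h3.imp id (by omega)⟩

theorem c1_dn {r : ℕ} (hr : 1 ≤ r) (a : Cn I) (m k : ℕ) (h : m ≤ k) (h' : k ≤ m + 1) :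
    c1 r (dn m a) (dn k a) := by
  unfold Cn.dn c1
  split_ifs <;> simp only [true_or, and_true] <;> refine ⟨by omega, ?_⟩
  · omega
  · omega
  · exact ⟨by omega, .inr (by omega)⟩
  · omega

theorem c1_dn0 (a : Cn I) : c1 0 a (dn 0 a) := by
  unfold Cn.dn c1
  split_ifs <;> simp only [true_or, and_true] <;> refine ⟨by omega, ?_⟩
  · exact ⟨by omega, .inr (by omega)⟩
  · omega

variable (G I) in
/-- Nearness in the first `N` coordinates. -/
def nr (N : ℕ) : Nr G (ℕ → Cn I) where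
  n r x y := ∀ i, (i < N → c1 r (x i) (y i)) ∧ (N ≤ i → x i = y i)
  mono h k i := ⟨fun a => by
    obtain ⟨h1, h2, h3⟩ := (h i).1 a
    exact ⟨by omega, by omega, h3.imp id (by omega)⟩, (h i).2⟩
  refl r x i := ⟨fun _ => c1_refl _ _, fun _ => rfl⟩
  trans h k i := ⟨fun a => by
    obtain ⟨h1, h2, h3⟩ := (h i).1 a
    obtain ⟨k1, k2, k3⟩ := (k i).1 a
    refine ⟨by omega, by omega, ?_⟩
    rcases h3 with h3 | h3
    · exact k3.imp h3.trans (by omega)
    · exact .inr (by omega), fun a => ((h i).2 a).trans ((k i).2 a)⟩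
  smul g h i := ⟨fun a => by
    obtain ⟨h1, h2, h3⟩ := (h i).1 a
    exact ⟨h1, h2, h3.imp (congrArg (g • ·)) id⟩, fun a => congrArg (g • ·) ((h i).2 a)⟩

/-- The region. -/
def Om (N R : ℕ) (P : (ℕ → Cn I) → Prop) (x : ℕ → Cn I) : Prop :=
  P x ∧ (∀ i < N, (x i).t ≤ R ∧ ((x i).l = none → (x i).t = 0)) ∧ ∃ i < N, (x i).t = R

/-- Dependence on the frozen coordinates only. -/
def Fz (N : ℕ) (P : (ℕ → Cn I) → Prop) : Prop := ∀ x y, (∀ i, N ≤ i → x i = y i) → P x → P y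

theorem nr_succ {N : ℕ} (r : ℕ) (x y : ℕ → Cn I) (h : (nr G I N).n r x y) :
    (nr G I (N + 1)).n r x y := fun i => ⟨fun _ => by
  by_cases k : i < N
  · exact (h i).1 k
  · rw [(h i).2 (by omega)]; exact c1_refl _ _, fun a => (h i).2 (by omega)⟩

end Cn

namespace GC

open Lo CF Cn

variable {G : Type w} [Group G] {C : Type u} [Category.{v} C] [Preadditive C]
variable {S : GC (G × Zi) C} {I : Type*} [MulAction (G × Zi) I] {N R r κ : ℕ}
variable {P : (ℕ → Cn I) → Prop}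

variable (S I) in
/-- The inductive statement. -/
def SN (N κ : ℕ) : Prop := ∀ (R r : ℕ) (P : (ℕ → Cn I) → Prop), Fz N P → 1 ≤ r → κ * r < R →
  ∀ (A B : S.LO _ (Om N R P)) (u : A ⟶ B), (S.lc _ (nr _ I N)).CI r u →
    (S.lc _ (nr _ I N)).Tq (κ * r) u

theorem part1 (hz : ∃ Z : C, 𝟙 Z = 0) (hI : ∀ (z : Zi) (U : I), ((1 : G), z) • U = U)
    (hW : ∀ (U : I) (H : Subgroup (G × Zi)), H ≤ stabilizer _ U → (∀ z, (1, z) ∈ H) → S.W H)
    (hP : Fz (N + 1) P) (hr : 1 ≤ r) {A B : S.LO _ (Om (N + 1) R P)} {u : A ⟶ B}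
    (h : (S.lc _ (nr _ I (N + 1))).CI r u) (hA : A.L.On fun x => r < (x N).t)
    (hB : B.L.On fun x => r < (x N).t) : (S.lc _ (nr _ I (N + 1))).Tq (8 * r) u := by
  let φ : ℕ → (ℕ → Cn I) → ℕ → Cn I := fun m x i =>
    if i < N then dn (m - R) (x i) else if i = N then ⟨(x i).l, min ((x i).t + m) R⟩ else x i
  have e1 (m x i) (h : i < N) : φ m x i = dn (m - R) (x i) := if_pos h
  have e2 (m x) : φ m x N = ⟨(x N).l, min ((x N).t + m) R⟩ := by simp [φ]
  have e3 (m x i) (h : N + 1 ≤ i) : φ m x i = x i := by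
    simp only [φ]; rw [if_neg (by omega), if_neg (by omega)]
  have cs (i) : i < N + 1 → i < N ∨ i = N := by omega
  have hl (x y : ℕ → Cn I) (g : G × Zi) (a : r < (x N).t)
      (c : (nr (G × Zi) I (N + 1)).n r x (g • y)) : (x N).l = g • (y N).l :=
    ((c N).1 (by omega)).2.2.resolve_right (by omega)
  have h1 (m x) (a : Om (N + 1) R P x ∧ r < (x N).t) : Om (N + 1) R P (φ m x) := by
    obtain ⟨⟨a1, a2, j, a3, a4⟩, a5⟩ := a
    refine ⟨hP _ _ (fun i k => (e3 m x i k).symm) a1, fun i k => ?_, ?_⟩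
    · obtain k | rfl := cs i k
      · rw [e1 _ _ _ k]
        exact ⟨by rw [dn_t]; have := (a2 i (by omega)).1; omega, dn_none _ _ (a2 i (by omega)).2⟩
      · rw [e2]
        exact ⟨min_le_right _ _, fun k => by have := (a2 i (by omega)).2 k; omega⟩
    · by_cases k : R ≤ m ∨ j = N
      · refine ⟨N, by omega, ?_⟩
        rw [e2]
        rcases k with k | rfl <;> simp only <;> omega
      · exact ⟨j, a3, by rw [e1 _ _ _ (by omega), dn_t]; omega⟩
  have := tq_mv (s := 0) (A.on.and hA) (B.on.and hB) h φ ?_ h1 ?_ ?_ (2 * R) ?_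
  · rwa [zero_add] at this
  · intro x a
    have q : ∀ i < N + 1, c1 0 (x i) (φ 0 x i) := fun i k => by
      have := (a.1.2.1 i k).1
      obtain k | rfl := cs i k
      · rw [e1 _ _ _ k, Nat.zero_sub]
        exact c1_dn0 _
      · rw [e2]
        exact ⟨by simp only; omega, by simp only; omega, .inl rfl⟩
    exact ⟨fun i => ⟨q i, fun k => by rw [e3 _ _ _ k]⟩,
      fun i => ⟨fun k => (q i k).symm, fun k => by rw [e3 _ _ _ k]⟩⟩
  · intro m x g y a b c i
    refine ⟨fun k => ?_, fun k => by rw [Pi.smul_apply, e3 _ _ _ k, e3 _ _ _ k]; exact (c i).2 k⟩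
    rw [Pi.smul_apply]
    obtain k | rfl := cs i k
    · rw [e1 _ _ _ k, e1 _ _ _ k, ← dn_smul]
      exact ((c i).1 (by omega)).dn _
    · rw [e2, e2]
      obtain ⟨c1, c2, -⟩ := (c i).1 (by omega)
      simp only [Pi.smul_apply, smul_t] at c1 c2
      exact ⟨by simp only [smul_t]; omega, by simp only [smul_t]; omega, .inl (hl _ _ _ a.2 c)⟩
  · intro m x a
    have q : ∀ i < N + 1, c1 r (φ m x i) (φ (m + 1) x i) := fun i k => by
      obtain k | rfl := cs i k
      · rw [e1 _ _ _ k, e1 _ _ _ k]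
        exact c1_dn hr _ _ _ (by omega) (by omega)
      · rw [e2, e2]
        exact ⟨by simp only; omega, by simp only; omega, .inl rfl⟩
    exact ⟨fun i => ⟨q i, fun k => by rw [e3 _ _ _ k, e3 _ _ _ k]⟩,
      fun i => ⟨fun k => (q i k).symm, fun k => by rw [e3 _ _ _ k, e3 _ _ _ k]⟩⟩
  · let Ω : (ℕ → Cn I) → Prop := fun x => Om (N + 1) R P x ∧ 0 < (x N).t
    have h2 (x) (a : Om (N + 1) R P x ∧ r < (x N).t) : Ω (φ (2 * R) x) :=
      ⟨h1 _ _ a, by rw [e2]; have := (a.1.2.1 N (by omega)).1; simp only; omega⟩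
    have h3 (x) (g : G × Zi) (y) (a : Om (N + 1) R P x ∧ r < (x N).t)
        (b : Om (N + 1) R P y ∧ r < (y N).t) (c : (nr (G × Zi) I (N + 1)).n r x (g • y)) :
        (Nr.eq (G × Zi) _).n 0 (φ (2 * R) x) (g • φ (2 * R) y) := by
      funext i
      rw [Pi.smul_apply]
      by_cases k : i < N + 1
      · have a1 := (a.1.2.1 i k).1
        have b1 := (b.1.2.1 i k).1
        obtain k | rfl := cs i k
        · rw [e1 _ _ _ k, e1 _ _ _ k, dn, dn, if_pos (by omega), if_pos (by omega)]; rfl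
        · rw [e2, e2]
          exact Cn.ext (hl _ _ _ a.2 c) (by simp only [smul_t]; omega)
      · rw [e3 _ _ _ (by omega), e3 _ _ _ (by omega)]; exact (c i).2 (by omega)
    obtain ⟨c1, v, c2, c3⟩ := h
    refine tq_inc (Ω := Ω) (fun _ a => a.1) (fun r x y c => (show x = y from c) ▸ Nr.refl _ _ _)
      ((tq_eq (P := A.mv _ (A.on.and hA) h2) (Q := B.mv _ (B.on.and hB) h2) hz (fun x a => ?_)
        ⟨Rg.map c1 (A.on.and hA) (B.on.and hB) h3, v, Rg.map c2 (B.on.and hB) (A.on.and hA) h3,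
          c3⟩))
    obtain ⟨U, hU⟩ := Option.ne_none_iff_exists'.1 fun k => a.2.ne' ((a.1.2.1 N (by omega)).2 k)
    refine hW U _ (fun g k => ?_) fun z => funext fun i => Cn.ext ?_ rfl
    · have := congrArg (fun y => (y N).l) (show g • x = x from k)
      simp only [Pi.smul_apply, smul_l, hU] at this
      exact Option.some.inj this
    · rw [Pi.smul_apply, smul_l]
      cases (x i).l with
      | none => rfl
      | some U => exact congrArg some (hI z U)

theorem part2 (ih : S.SN I N κ) (hP : Fz (N + 1) P) (hr : 1 ≤ r) (hk : κ * r < R)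
    {A B : S.LO _ (Om (N + 1) R P)} {u : A ⟶ B} (h : (S.lc _ (nr _ I (N + 1))).CI r u)
    (hA : A.L.On fun x => (x N).t < R) (hB : B.L.On fun x => (x N).t < R) :
    (S.lc _ (nr _ I (N + 1))).Tq (κ * r + 8 * r) u := by
  let φ : ℕ → (ℕ → Cn I) → ℕ → Cn I := fun m x i => if i = N then dn m (x i) else x i
  have e2 (m x) : φ m x N = dn m (x N) := if_pos rfl
  have e3 (m x i) (h : i ≠ N) : φ m x i = x i := if_neg h
  have h1 (m x) (a : Om (N + 1) R P x ∧ (x N).t < R) : Om (N + 1) R P (φ m x) := by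
    obtain ⟨⟨a1, a2, j, a3, a4⟩, a5⟩ := a
    refine ⟨hP _ _ (fun i k => (e3 m x i (by omega)).symm) a1, fun i k => ?_, j, a3, ?_⟩
    · obtain rfl | k' := eq_or_ne i N
      · rw [e2]
        exact ⟨by rw [dn_t]; omega, dn_none _ _ (a2 i k).2⟩
      · rw [e3 _ _ _ k']; exact a2 i k
    · rw [e3 _ _ _ (by rintro rfl; omega), a4]
  have h4 (m x) (g : G × Zi) (y) (c : (nr (G × Zi) I (N + 1)).n r x (g • y)) :
      (nr (G × Zi) I (N + 1)).n r (φ m x) (g • φ m y) := fun i => by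
    rw [Pi.smul_apply]
    obtain rfl | k := eq_or_ne i N
    · rw [e2, e2, ← dn_smul]
      exact ⟨fun k => ((c i).1 k).dn _, by omega⟩
    · rw [e3 _ _ _ k, e3 _ _ _ k]; exact c i
  refine tq_mv (A.on.and hA) (B.on.and hB) h φ ?_ h1 (fun m x g y _ _ => h4 m x g y) ?_ R ?_
  · intro x a
    have q : ∀ i, c1 0 (x i) (φ 0 x i) := fun i => by
      obtain rfl | k := eq_or_ne i N
      · rw [e2]; exact c1_dn0 _
      · rw [e3 _ _ _ k]; exact c1_refl _ _
    exact ⟨fun i => ⟨fun _ => q i, fun k => by rw [e3 _ _ _ (by omega)]⟩,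
      fun i => ⟨fun _ => (q i).symm, fun k => by rw [e3 _ _ _ (by omega)]⟩⟩
  · intro m x a
    have q : ∀ i, c1 r (φ m x i) (φ (m + 1) x i) := fun i => by
      obtain rfl | k := eq_or_ne i N
      · rw [e2, e2]; exact c1_dn hr _ _ _ (by omega) (by omega)
      · rw [e3 _ _ _ k, e3 _ _ _ k]; exact c1_refl _ _
    exact ⟨fun i => ⟨fun _ => q i, fun k => by rw [e3 _ _ _ (by omega), e3 _ _ _ (by omega)]⟩,
      fun i => ⟨fun _ => (q i).symm, fun k => by rw [e3 _ _ _ (by omega), e3 _ _ _ (by omega)]⟩⟩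
  · let P' : (ℕ → Cn I) → Prop := fun x => P x ∧ x N = ⟨none, 0⟩
    have e4 (x : ℕ → Cn I) (a : (x N).t < R) : φ R x N = ⟨none, 0⟩ := by
      rw [e2, dn, if_pos a.le]
    have h2 (x) (a : Om (N + 1) R P x ∧ (x N).t < R) : Om N R P' (φ R x) := by
      obtain ⟨a1, a2, j, a3, a4⟩ := h1 R x a
      refine ⟨⟨a1, e4 x a.2⟩, fun i k => a2 i (by omega), j, ?_, a4⟩
      by_contra k
      rw [show j = N by omega, e4 x a.2] at a4
      simp only at a4
      omega
    have h3 (x) (g : G × Zi) (y) (a : Om (N + 1) R P x ∧ (x N).t < R)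
        (b : Om (N + 1) R P y ∧ (y N).t < R) (c : (nr (G × Zi) I (N + 1)).n r x (g • y)) :
        (nr (G × Zi) I N).n r (φ R x) (g • φ R y) := fun i =>
      ⟨fun k => (h4 R x g y c i).1 (by omega), fun k => by
        obtain rfl | k' := eq_or_ne i N
        · rw [Pi.smul_apply, e4 x a.2, e4 y b.2]; rfl
        · exact (h4 R x g y c i).2 (by omega)⟩
    obtain ⟨c1, v, c2, c3⟩ := h
    refine tq_inc (Ω := Om N R P') (fun x a => ⟨a.1.1, fun i k => ?_, ?_⟩) nr_succ
      (ih R r P' (fun x y k a => ⟨hP x y (fun i j => k i (by omega)) a.1, k N le_rfl ▸ a.2⟩) hr hk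
        (A.mv _ (A.on.and hA) h2) (B.mv _ (B.on.and hB) h2) u
        ⟨Rg.map c1 (A.on.and hA) (B.on.and hB) h3, v, Rg.map c2 (B.on.and hB) (A.on.and hA) h3,
          c3⟩)
    · obtain rfl | k' := eq_or_ne i N
      · rw [a.1.2]; simp
      · exact a.2.1 i (by omega)
    · obtain ⟨j, a1, a2⟩ := a.2.2
      exact ⟨j, by omega, a2⟩

theorem slab (hc : S.Central) (hI : ∀ (z : Zi) (U : I), ((1 : G), z) • U = U) (ih : S.SN I N κ)
    (hP : Fz (N + 1) P) (hr : 1 ≤ r) (hk : κ * (r + r) < R) {a : ℕ} (ha : 2 * r < a)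
    (ha' : a + r ≤ R) {A : S.LO _ (Om (N + 1) R P)}
    (hA : A.L.On fun x => a ≤ (x N).t + r ∧ (x N).t < a + r) (e : A ⟶ A)
    (h : (S.lc _ (nr _ I (N + 1))).Ct (r + r) e) (he : e ≫ e = e) :
    ∃ D E : S.LO _ (Om (N + 1) R P), (D.L.On fun x => (x N).t = a) ∧
      (E.L.On fun x => (x N).t = a) ∧
      (S.lc _ (nr _ I (N + 1))).So (r + (5 * (r + r) + 9 * (κ * (r + r)))) e D E := by
  classical
  let P' : (ℕ → Cn I) → Prop := fun x => P x ∧ (x N).t = a ∧ (x N).l ≠ none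
  let φ : (ℕ → Cn I) → ℕ → Cn I := fun x i => if i = N then ⟨(x i).l, a⟩ else x i
  have e2 (x) : φ x N = ⟨(x N).l, a⟩ := if_pos rfl
  have e3 (x i) (h : i ≠ N) : φ x i = x i := if_neg h
  have h2 (x) (b : Om (N + 1) R P x ∧ a ≤ (x N).t + r ∧ (x N).t < a + r) : Om N R P' (φ x) := by
    obtain ⟨⟨a1, a2, j, a3, a4⟩, a5⟩ := b
    have k : j ≠ N := by rintro rfl; omega
    refine ⟨⟨hP _ _ (fun i k => (e3 x i (by omega)).symm) a1, by rw [e2], fun k => ?_⟩,
      fun i k => ?_, j, by omega, by rw [e3 _ _ k, a4]⟩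
    · rw [e2] at k
      have := (a2 N (by omega)).2 k
      omega
    · rw [e3 _ _ (by omega)]; exact a2 i (by omega)
  have h5 (x) (b : Om N R P' x) : Om (N + 1) R P x := by
    obtain ⟨a1, a2, j, a3, a4⟩ := b
    refine ⟨a1.1, fun i k => ?_, j, by omega, a4⟩
    obtain rfl | k' := eq_or_ne i N
    · exact ⟨by rw [a1.2.1]; omega, fun k => (a1.2.2 k).elim⟩
    · exact a2 i (by omega)
  let A' : S.LO _ (Om N R P') := A.mv φ (A.on.and hA) h2
  have h' : (S.lc _ (nr _ I N)).Ct (r + r) (A := A') (B := A') e :=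
    Rg.map h (A.on.and hA) (A.on.and hA) fun x g y b b' c i => ⟨fun k => by
      rw [Pi.smul_apply, e3 _ _ k.ne, e3 _ _ k.ne]; exact (c i).1 (by omega), fun k => by
      rw [Pi.smul_apply]
      obtain rfl | k' := eq_or_ne i N
      · rw [e2, e2]
        refine Cn.ext (((c i).1 (by omega)).2.2.resolve_right ?_) rfl
        simp only [Pi.smul_apply, smul_t]
        omega
      · rw [e3 _ _ k', e3 _ _ k']; exact (c i).2 (by omega)⟩
  obtain ⟨F, hF, -, h3⟩ := (S.sup_top (A := A.A) (B := A.A) e).finite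
  obtain ⟨j, hj⟩ := (hF.biUnion (t := fun g : G × Zi => (g.2.toAdd.support : Set ℕ))
    fun _ _ => Finset.finite_toSet _).exists_notMem
  let Z : Zg (G × Zi) := ⟨⊤, fun g => g.2.toAdd j, fun a _ b _ => by simp⟩
  obtain ⟨f, f', a1, a2, a3, a4, a5⟩ := hc (Multiplicative.ofAdd (Finsupp.single j 1))
  let c : (S.lg _ (Om N R P')).Cz Z 1 := ⟨fun X => f X.A, fun X => f' X.A,
    fun X => (a1 X.A).ge1 (Z := Z) trivial (by simp [Z]),
    fun X => (a1 X.A).le1 (Z := Z) trivial (by simp [Z]),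
    fun X => (a2 X.A).ge1 (Z := Z) trivial (by simp [Z]),
    fun X => (a2 X.A).le1 (Z := Z) trivial (by simp [Z]), fun X => a3 X.A, fun X => a4 X.A,
    fun k => a5 k, fun {X Y} (k : X.A ⟶ Y.A) => by
      have := congrArg (fun k => f' X.A ≫ k ≫ f' Y.A) (a5 k)
      change f' X.A ≫ k = k ≫ f' Y.A
      simpa [reassoc_of% a4, a3] using this.symm⟩
  have q (X : S.LO _ (Om N R P')) (z : Zi) (k : X.A ⟶ X.A) (b : S.Sup {(1, z)} k)
      (b' : ∀ x, X.L.e x ≫ k = k ≫ X.L.e x) : (S.lc _ (nr _ I N)).Ct 0 (A := X) (B := X) k :=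
    fun x y => by
      by_cases m : x = y
      · refine (((X.L.spl x).deg.cp_eq |> Sup.one_comp) (b.comp_one (X.L.spl y).deg.cp_eq)).mono ?_
        rintro _ rfl
        have : ((1 : G), z) • y = y := funext fun i => Cn.ext (by
          rw [Pi.smul_apply, smul_l]
          cases (y i).l with
          | none => rfl
          | some U => exact congrArg some (hI z U)) rfl
        change (nr (G × Zi) I N).n 0 x (_ • y)
        rw [this, m]
        exact Nr.refl _ _ _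
      · rw [reassoc_of% b', X.L.orth x y m, Limits.comp_zero]
        exact .zero
  have hq : (S.lc _ (nr _ I N)).Cq c := fun X =>
    ⟨q X _ _ (a1 _) fun x => (a5 _).symm, q X _ _ (a2 _) fun x => (c.nψ (A := X) (B := X) _).symm⟩
  obtain ⟨D, E, x, y, b1, b2, b3, b4⟩ := CF.boundary hq (fun _ => trivial) (A := A') (e := e)
    (h3.mono fun g hg => ⟨trivial, by
      by_contra k
      exact hj (Set.mem_biUnion hg (by simpa using k))⟩) h' he
    (ih R (r + r) P' (fun x y k b => ⟨hP x y (fun i j => k i (by omega)) b.1, k N le_rfl ▸ b.2⟩)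
      (by omega) hk _ _ _)
  have m (x) (b : Om (N + 1) R P x ∧ a ≤ (x N).t + r ∧ (x N).t < a + r) :
      (nr (G × Zi) I (N + 1)).n r x (φ x) ∧ (nr (G × Zi) I (N + 1)).n r (φ x) x := by
    have q : ∀ i, c1 r (x i) (φ x i) := fun i => by
      obtain rfl | k := eq_or_ne i N
      · rw [e2]; exact ⟨by simp only; omega, by simp only; omega, .inl rfl⟩
      · rw [e3 _ _ k]; exact c1_refl _ _
    exact ⟨fun i => ⟨fun _ => q i, fun k => by rw [e3 _ _ (by omega)]⟩,
      fun i => ⟨fun _ => (q i).symm, fun k => by rw [e3 _ _ (by omega)]⟩⟩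
  let A'' := A'.inc (A'.on.mono h5)
  let D' := D.inc (D.on.mono h5)
  let E' := E.inc (E.on.mono h5)
  have m1 : (S.lc _ (nr _ I (N + 1))).Ct r (A := A) (B := A'') (𝟙 A.A) :=
    (rg_id.on (R' := fun x g y => (nr (G × Zi) I (N + 1)).n r x (g • φ y)) (A.on.and hA)
      (A.on.and hA) fun x g y b _ c => by rw [c.1, ← c.2, one_smul]; exact (m x b).1).mapr
      fun _ _ _ => id
  have m2 : (S.lc _ (nr _ I (N + 1))).Ct r (A := A'') (B := A) (𝟙 A.A) :=
    (rg_id.on (R' := fun x g y => (nr (G × Zi) I (N + 1)).n r (φ x) (g • y)) (A.on.and hA)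
      (A.on.and hA) fun x g y b _ c => by rw [c.1, ← c.2, one_smul]; exact (m x b).2).mapl
      fun _ _ _ => id
  have n1 : (S.lc _ (nr _ I (N + 1))).Ct (5 * (r + r) + 9 * (κ * (r + r)))
      (A := (S.lg _ _).sum A'' D') (B := E') x :=
    Rg.mono (L := A'.L.add D.L) (M := E.L) b1 fun _ _ _ => nr_succ _ _ _
  have n2 : (S.lc _ (nr _ I (N + 1))).Ct (5 * (r + r) + 9 * (κ * (r + r)))
      (B := (S.lg _ _).sum A'' D') (A := E') y :=
    Rg.mono (M := A'.L.add D.L) (L := E.L) b2 fun _ _ _ => nr_succ _ _ _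
  have m3 := (S.lc _ (nr _ I (N + 1))).comp ((S.lc _ _).blk m1 (CF.zero _) (CF.zero _)
    (CF.id _ (A := D'))) n1
  have m4 := (S.lc _ (nr _ I (N + 1))).comp n2 ((S.lc _ _).blk m2 (CF.zero _) (CF.zero _)
    (CF.id _ (A := D')))
  refine ⟨D', E', D.on.mono fun _ b => b.1.2.1, E.on.mono fun _ b => b.1.2.1, x, y, ?_, ?_, b3, b4⟩
  · exact (congrArg _ ((congrArg (· ≫ x) (S.blk_id (A := A.A) (B := D.A))).trans
      (Category.id_comp _))).mp m3
  · exact CF.mono _ ((congrArg _ ((congrArg (y ≫ ·) (S.blk_id (A := A.A) (B := D.A))).trans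
      (Category.comp_id _))).mp m4) (by omega)

/-- The constants. -/
def kap : ℕ → ℕ
  | 0 => 1
  | N + 1 => 3 * ((kap N + 8) * (12 + 18 * kap N))

theorem sn (hz : ∃ Z : C, 𝟙 Z = 0) (hc : S.Central)
    (hI : ∀ (z : Zi) (U : I), ((1 : G), z) • U = U)
    (hW : ∀ (U : I) (H : Subgroup (G × Zi)), H ≤ stabilizer _ U → (∀ z, (1, z) ∈ H) → S.W H)
    (N : ℕ) : S.SN I N (kap N) := by
  induction N with
  | zero =>
    intro R r P _ _ _ A B u ⟨c1, v, c2, c3⟩
    have q (X : S.LO _ (Om 0 R P)) : X.L.On fun _ => False := X.on.mono fun x a => by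
      obtain ⟨i, k, -⟩ := a.2.2
      omega
    rw [kap, one_mul]
    exact .hom (hi_mk ((Rg.on c1 (q _) (q _) fun _ _ _ a _ _ => a).sup fun _ _ _ a => a.elim)
      ((Rg.on c2 (q _) (q _) fun _ _ _ a _ _ => a).sup fun _ _ _ a => a.elim) c1 c2 c3.1 c3.2)
  | succ N ih =>
    intro R r P hP hr hk A B u h
    rw [kap] at hk ⊢
    generalize kap N = κ at ih hk ⊢
    obtain ⟨s, hs⟩ : ∃ s, s = r + (5 * (r + r) + 9 * (κ * (r + r))) := ⟨_, rfl⟩
    have k1 : 3 * ((κ + 8) * (12 + 18 * κ)) * r = 3 * (κ * (r + s) + 8 * (r + s)) := by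
      rw [hs]; ring
    rw [k1] at hk ⊢
    have k2 : κ * (r + r) ≤ κ * (r + s) := Nat.mul_le_mul_left _ (by omega)
    have k3 : κ * s ≤ κ * (r + s) := Nat.mul_le_mul_left _ (by omega)
    obtain ⟨P1, P2, σ, h1, h2, h3, -⟩ := lo_split (ν := nr _ I (N + 1)) hz A
      fun x => r + s + 1 ≤ (x N).t
    obtain ⟨Q0, Q', τ, h4, h5, h6, -⟩ := lo_split (ν := nr _ I (N + 1)) hz B
      fun x => r + s + 1 ≤ (x N).t + r ∧ (x N).t < r + s + 1 + r
    obtain ⟨Q1, Q2, τ', h7, h8, h9, h10⟩ := lo_split (ν := nr _ I (N + 1)) hz Q'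
      fun x => r + s + 1 + r ≤ (x N).t
    have h11 : Q2.L.On fun x => (x N).t + r < r + s + 1 :=
      ((h10 _ h6).2.and h9).mono fun x a => by omega
    refine Tq.of_conj h (.hom h1) (.hom (h4.c0 (hi_id.bd h7))) (s := 0)
      (t := 3 * (κ * (r + s) + 8 * (r + s))) fun w hw => ?_
    obtain ⟨c1, v, c2, c3, c4⟩ := hw
    have z {α β : ℕ → Prop} (k : ∀ a b, α a → β b → a ≤ b + r → b ≤ a + r → False)
        (x : ℕ → Cn I) (g : G × Zi) (y : ℕ → Cn I) (a : α (x N).t) (b : β (y N).t) :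
        ¬ (nr (G × Zi) I (N + 1)).n r x (g • y) := fun c =>
      k _ _ a b ((c N).1 (by omega)).1 ((c N).1 (by omega)).2.1
    refine CF.split (r := r) (s := s) c1 c2 c3 c4
      (ct_zero (CF.c0' _ (CF.inr _) (CF.c0 _ c1 (CF.c0 _ (CF.snd _) (CF.fst _)))) h3 h8
        (z (α := fun a => ¬ r + s + 1 ≤ a) (β := fun a => r + s + 1 + r ≤ a) (by omega)))
      (ct_zero (CF.c0' _ (CF.inl _) (CF.c0 _ c1 (CF.c0 _ (CF.snd _) (CF.snd _)))) h2 h11
        (z (α := fun a => r + s + 1 ≤ a) (β := fun a => a + r < r + s + 1) (by omega)))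
      (ct_zero (CF.c0' _ (CF.inl _) (CF.c0' _ (CF.inr _) (CF.c0 _ c2 (CF.snd _)))) h8 h3
        (z (β := fun a => ¬ r + s + 1 ≤ a) (α := fun a => r + s + 1 + r ≤ a) (by omega)))
      (ct_zero (CF.c0' _ (CF.inr _) (CF.c0' _ (CF.inr _) (CF.c0 _ c2 (CF.fst _)))) h11 h2
        (z (β := fun a => r + s + 1 ≤ a) (α := fun a => a + r < r + s + 1) (by omega)))
      (Ob := fun D => D.L.On fun x => (x N).t = r + s + 1) (fun e a b => ?_)
      (fun D E a b w c => (part1 hz hI hW hP (by omega) c ?_ ?_).mono (by omega))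
      (fun D E a b w c => part2 ih hP (by omega) (by omega) c ?_ ?_)
      (fun D E D' E' a b a' b' w c => (part2 ih hP (by omega) (by omega) c ?_ ?_).mono (by omega))
    · rw [hs]
      exact slab hc hI ih hP hr (by omega) (by omega) (by omega) (hs ▸ h5) e a b
    · exact (h2.mono fun _ k => by omega).add (a.mono fun _ k => by omega)
    · exact (b.mono fun _ k => by omega).add (h8.mono fun _ k => by omega)
    · exact (h3.mono fun _ k => by omega).add (a.mono fun _ k => by omega)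
    · exact (b.mono fun _ k => by omega).add (h11.mono fun _ k => by omega)
    · exact (h5.mono fun _ k => by omega).add
        ((a.mono fun _ k => by omega).add (a'.mono fun _ k => by omega))
    · exact (b.mono fun _ k => by omega).add (b'.mono fun _ k => by omega)

theorem Pth.succ {Y : Type*} {ρ : Y → Y → Prop} (h : ∀ y, ρ y y) {k m : ℕ} (e : k ≤ m) {x y : Y}
    (p : Pth ρ k x y) : Pth ρ m x y := by
  induction e with
  | refl => exact p
  | step _ ih => exact ⟨x, h x, ih⟩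

/-- Vanishing of controlled isomorphisms. -/
theorem ctrl (hz : ∃ Z : C, 𝟙 Z = 0) (hc : S.Central)
    (hI : ∀ (z : Zi) (U : I), ((1 : G), z) • U = U)
    (hW : ∀ (U : I) (H : Subgroup (G × Zi)), H ≤ stabilizer _ U → (∀ z, (1, z) ∈ H) → S.W H)
    {Y : Type*} [MulAction (G × Zi) Y] {ρ : Y → Y → Prop} (h1 : ∀ y, ρ y y)
    (h2 : ∀ x y, ρ x y → ρ y x) (h3 : ∀ (g : G × Zi) x y, ρ x y → ρ (g • x) (g • y))
    {N R : ℕ} (hR : kap N < R) (Lab : ℕ → Y → I → Prop)
    (h4 : ∀ i y U U', Lab i y U → Lab i y U' → U = U')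
    (h5 : ∀ i (g : G × Zi) y U, Lab i y U → Lab i (g • y) (g • U)) {α : Y → Prop}
    (h6 : ∀ y, α y → ∃ i < N, ∃ U, ∀ y', Pth ρ R y y' → Lab i y' U)
    {A B : C} {L : S.Lo Y A} {M : S.Lo Y B} (hL : L.On α) (hM : M.On α) {u : A ⟶ B} {v : B ⟶ A}
    (hu : L.Rg M (fun x g y => ρ x (g • y)) u) (hv : M.Rg L (fun x g y => ρ x (g • y)) v)
    (e1 : u ≫ v = 𝟙 A) (e2 : v ≫ u = 𝟙 B) : S.Tr ⊤ u := by
  classical
  let In : ℕ → Y → ℕ → Prop := fun i y t => ∃ U, ∀ y', Pth ρ t y y' → Lab i y' U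
  let l : ℕ → Y → Option I := fun i y => if h : ∃ U, Lab i y U then some h.choose else none
  have a1 (i y U) (h : Lab i y U) : l i y = some U := by
    have k : ∃ U, Lab i y U := ⟨U, h⟩
    simp only [l, dif_pos k, h4 _ _ _ _ k.choose_spec h]
  have a2 (i) (g : G × Zi) (y) : l i (g • y) = g • l i y := by
    by_cases k : ∃ U, Lab i y U
    · obtain ⟨U, k⟩ := k
      rw [a1 _ _ _ k, a1 _ _ _ (h5 i g y U k)]; rfl
    · have : ¬ ∃ U, Lab i (g • y) U := fun ⟨U, h⟩ => k ⟨_, by simpa using h5 i g⁻¹ _ U h⟩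
      simp only [l, dif_neg k, dif_neg this]; rfl
  have a3 (i) (g : G × Zi) (y t) (h : In i y t) : In i (g • y) t := by
    obtain ⟨U, h⟩ := h
    exact ⟨g • U, fun y' p => smul_inv_smul g y' ▸ h5 i g _ U
      (h _ (by simpa using p.smul h3 g⁻¹))⟩
  let φ : Y → ℕ → Cn I := fun y i =>
    if i < N then ⟨l i y, Nat.findGreatest (In i y) R⟩ else ⟨none, 0⟩
  have a4 (g : G × Zi) (y) : φ (g • y) = g • φ y := funext fun i => by
    simp only [φ, Pi.smul_apply]
    split_ifs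
    · refine Cn.ext (a2 _ _ _) ?_
      rw [show In i (g • y) = In i y from funext fun t => propext
        ⟨fun h => by simpa using a3 i g⁻¹ _ t h, a3 i g y t⟩]
      rfl
    · rfl
  have a5 (i y) (h : 0 < Nat.findGreatest (In i y) R) : In i y (Nat.findGreatest (In i y) R) :=
    Nat.findGreatest_of_ne_zero rfl h.ne'
  have a6 (i x y) (h : ρ x y) :
      Nat.findGreatest (In i x) R ≤ Nat.findGreatest (In i y) R + 1 := by
    rcases Nat.eq_zero_or_pos (Nat.findGreatest (In i x) R) with k | k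
    · omega
    obtain ⟨U, k'⟩ := a5 i x k
    have := Nat.findGreatest_le (P := In i x) R
    have := Nat.le_findGreatest (P := In i y) (m := Nat.findGreatest (In i x) R - 1) (n := R)
      (by omega) ⟨U, fun y' p => k' y' (Pth.succ h1 (k := Nat.findGreatest (In i x) R - 1 + 1)
        (by omega) ⟨y, h, p⟩)⟩
    omega
  have a7 (i x y) (h : ρ x y) (k : 0 < Nat.findGreatest (In i x) R) : l i x = l i y := by
    obtain ⟨U, k'⟩ := a5 i x k
    rw [a1 _ _ _ (k' x (Pth.succ h1 (Nat.zero_le _) rfl)),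
      a1 _ _ _ (k' y (Pth.succ h1 (k := 1) k ⟨y, h, rfl⟩))]
  have a8 (x y) (h : ρ x y) : (nr (G × Zi) I N).n 1 (φ x) (φ y) := fun i =>
    ⟨fun k => by
      simp only [φ, if_pos k]
      refine ⟨a6 i x y h, a6 i y x (h2 _ _ h), ?_⟩
      by_contra m
      have := mt (a7 i x y h) (not_or.1 m).1
      have := mt (a7 i y x (h2 _ _ h)) (Ne.symm (not_or.1 m).1)
      simp only [not_or] at m
      omega, fun k => by simp only [φ, if_neg (not_lt.2 k)]⟩
  have a9 (y) (h : α y) : Om N R (fun _ => True) (φ y) := by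
    obtain ⟨i, k, m⟩ := h6 y h
    refine ⟨trivial, fun i k => ?_, i, k, ?_⟩
    · simp only [φ, if_pos k]
      refine ⟨Nat.findGreatest_le R, fun m => ?_⟩
      by_contra m'
      obtain ⟨U, k'⟩ := a5 i y (Nat.pos_of_ne_zero m')
      rw [a1 _ _ _ (k' y (Pth.succ h1 (Nat.zero_le _) rfl))] at m
      cases m
    · simp only [φ, if_pos k]
      exact Nat.findGreatest_eq m
  exact tr_of_lg (sn hz hc hI hW N R 1 _ (fun _ _ _ a => a) le_rfl (by omega)
    ⟨A, L.map φ, hL.map a9⟩ ⟨B, M.map φ, hM.map a9⟩ u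
    ⟨hu.map hL hM fun x g y _ _ c => a4 g y ▸ a8 _ _ c, v,
      hv.map hM hL fun x g y _ _ c => a4 g y ▸ a8 _ _ c, e1, e2⟩).tr

end GC

end Pool.Agent.Lib.MP_5d3e93_al
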