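import Pool.Agent.Lib.MP_5d3e93_al.Core

/-! The splitting theorem for mapping tori (Bass-Heller-Swan, Farrell-Hsiang), in degree one. -/

open CategoryTheory

namespace Pool.Agent.Lib.MP_5d3e93_al

universe w v u

/-- A subgroup with a homomorphism to the integers. -/
structure Zg (G : Type w) [Group G] where
  Γ : Subgroup G
  χ : G → ℤ
  add : ∀ a ∈ Γ, ∀ b ∈ Γ, χ (a * b) = χ a + χ b

namespace Zg

variable {G : Type w} [Group G] (Z : Zg G)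

theorem one : Z.χ 1 = 0 := by
  have := Z.add 1 Z.Γ.one_mem 1 Z.Γ.one_mem
  rw [one_mul] at this
  omega

theorem inv {a : G} (h : a ∈ Z.Γ) : Z.χ a⁻¹ = -Z.χ a := by
  have := Z.add a h a⁻¹ (Z.Γ.inv_mem h)
  rw [mul_inv_cancel, Z.one] at this
  omega

theorem pow {a : G} (h : a ∈ Z.Γ) (n : ℕ) : Z.χ (a ^ n) = n * Z.χ a := by
  induction n with
  | zero => simp [Z.one]
  | succ n ih => rw [pow_succ, Z.add _ (Z.Γ.pow_mem h n) _ h, ih]; push_cast; ring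

/-- The kernel. -/
def K : Subgroup G where
  carrier := {g | g ∈ Z.Γ ∧ Z.χ g = 0}
  one_mem' := ⟨Z.Γ.one_mem, Z.one⟩
  mul_mem' := fun {a b} ha hb => ⟨Z.Γ.mul_mem ha.1 hb.1, by rw [Z.add a ha.1 b hb.1, ha.2, hb.2]; rfl⟩
  inv_mem' := fun {a} ha => ⟨Z.Γ.inv_mem ha.1, by rw [Z.inv ha.1, ha.2]; rfl⟩

theorem K_le : Z.K ≤ Z.Γ := fun _ h => h.1

end Zg

/-- Powers of an endomorphism. -/
def pw {C : Type u} [Category.{v} C] {A : C} (x : A ⟶ A) : ℕ → (A ⟶ A)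
  | 0 => 𝟙 A
  | n + 1 => x ≫ pw x n

section

variable {C : Type u} [Category.{v} C] {A B : C}

@[simp] theorem pw_zero (x : A ⟶ A) : pw x 0 = 𝟙 A := rfl

theorem pw_succ (x : A ⟶ A) (n : ℕ) : pw x (n + 1) = x ≫ pw x n := rfl

theorem pw_add (x : A ⟶ A) (m n : ℕ) : pw x (m + n) = pw x m ≫ pw x n := by
  induction m with
  | zero => simp
  | succ m ih => rw [Nat.add_right_comm, pw_succ, ih, pw_succ, Category.assoc]

theorem pw_succ' (x : A ⟶ A) (n : ℕ) : pw x (n + 1) = pw x n ≫ x := by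
  rw [pw_add]; simp [pw_succ]

theorem pw_cyc (X : A ⟶ B) (Y : B ⟶ A) (n : ℕ) :
    pw (Y ≫ X) (n + 1) = Y ≫ pw (X ≫ Y) n ≫ X := by
  induction n with
  | zero => simp [pw_succ]
  | succ n ih => rw [pw_succ, ih, pw_succ]; simp

variable [Preadditive C]

theorem geom_left (x : A ⟶ A) (n : ℕ) :
    (𝟙 A - x) ≫ ∑ j ∈ Finset.range n, pw x j = 𝟙 A - pw x n := by
  induction n with
  | zero => simp
  | succ n ih => rw [Finset.sum_range_succ, Preadditive.comp_add, ih, pw_succ]; simp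

theorem geom_right (x : A ⟶ A) (n : ℕ) :
    (∑ j ∈ Finset.range n, pw x j) ≫ (𝟙 A - x) = 𝟙 A - pw x n := by
  induction n with
  | zero => simp
  | succ n ih => rw [Finset.sum_range_succ, Preadditive.add_comp, ih, pw_succ']; simp

end

namespace GC

variable {G : Type w} [Group G] {C : Type u} [Category.{v} C] [Preadditive C] (S : GC G C)
variable {A B D E : C}

/-- Unipotent automorphisms coming from nilpotent endomorphisms over `Ω` are trivial. -/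
def Good (H : Subgroup G) (Ω : Set G) : Prop :=
  ∀ (A : C) (x : A ⟶ A), S.Sup Ω x → (∃ m, pw x m = 0) → S.Tr H (𝟙 A - x)

variable (Z : Zg G)

/-- Degrees at least `k`. -/
def Ge (k : ℤ) (f : A ⟶ B) : Prop := S.Sup {g | g ∈ Z.Γ ∧ k ≤ Z.χ g} f

/-- Degrees at most `k`. -/
def Le (k : ℤ) (f : A ⟶ B) : Prop := S.Sup {g | g ∈ Z.Γ ∧ Z.χ g ≤ k} f

/-- The part of degree at most `k`. -/
noncomputable def lo (k : ℤ) (f : A ⟶ B) : A ⟶ B := S.proj {g | Z.χ g ≤ k} f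

variable {S Z}

theorem Ge.mono {k l : ℤ} {f : A ⟶ B} (h : S.Ge Z k f) (hl : l ≤ k) : S.Ge Z l f :=
  Sup.mono h fun _ hg => ⟨hg.1, hl.trans hg.2⟩

theorem Le.mono {k l : ℤ} {f : A ⟶ B} (h : S.Le Z k f) (hl : k ≤ l) : S.Le Z l f :=
  Sup.mono h fun _ hg => ⟨hg.1, hg.2.trans hl⟩

theorem Ge.comp {k l : ℤ} {f : A ⟶ B} {g : B ⟶ D} (h : S.Ge Z k f) (h' : S.Ge Z l g) {m : ℤ}
    (hm : m ≤ k + l) : S.Ge Z m (f ≫ g) :=
  Sup.comp h h' fun x hx y hy =>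
    ⟨Z.Γ.mul_mem hx.1 hy.1, by rw [Z.add x hx.1 y hy.1]; have := hx.2; have := hy.2; omega⟩

theorem Le.comp {k l : ℤ} {f : A ⟶ B} {g : B ⟶ D} (h : S.Le Z k f) (h' : S.Le Z l g) {m : ℤ}
    (hm : k + l ≤ m) : S.Le Z m (f ≫ g) :=
  Sup.comp h h' fun x hx y hy =>
    ⟨Z.Γ.mul_mem hx.1 hy.1, by rw [Z.add x hx.1 y hy.1]; have := hx.2; have := hy.2; omega⟩

theorem Ge.sup {k : ℤ} {f : A ⟶ B} (h : S.Ge Z k f) : S.Sup Z.Γ f := Sup.mono h fun _ hg => hg.1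

theorem Le.sup {k : ℤ} {f : A ⟶ B} (h : S.Le Z k f) : S.Sup Z.Γ f := Sup.mono h fun _ hg => hg.1

theorem Ge.eq_zero {k l : ℤ} {f : A ⟶ B} (h : S.Ge Z k f) (h' : S.Le Z l f) (hl : l < k) :
    f = 0 :=
  Sup.eq_zero h h' fun g hg hg' => by have := hg.2; have := hg'.2; omega

theorem Ge.deg {k : ℤ} {f : A ⟶ B} (h : S.Ge Z k f) (h' : S.Le Z k f) :
    S.Sup {g | g ∈ Z.Γ ∧ Z.χ g = k} f :=
  (Sup.inter h h').mono fun _ hg => ⟨hg.1.1, le_antisymm hg.2.2 hg.1.2⟩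

theorem Sup.ge0 {f : A ⟶ B} (h : S.Sup Z.K f) : S.Ge Z 0 f :=
  h.mono fun _ hg => ⟨hg.1, hg.2.ge⟩

theorem Sup.le0 {f : A ⟶ B} (h : S.Sup Z.K f) : S.Le Z 0 f :=
  h.mono fun _ hg => ⟨hg.1, hg.2.le⟩

theorem ge_id : S.Ge Z 0 (𝟙 A) := Sup.id ⟨Z.Γ.one_mem, Z.one.ge⟩

theorem le_id : S.Le Z 0 (𝟙 A) := Sup.id ⟨Z.Γ.one_mem, Z.one.le⟩

theorem Sup.ge1 {g : G} {f : A ⟶ B} (h : S.Sup {g} f) (hg : g ∈ Z.Γ) {k : ℤ} (hk : k ≤ Z.χ g) :
    S.Ge Z k f := h.mono fun x hx => by rw [hx]; exact ⟨hg, hk⟩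

theorem Sup.le1 {g : G} {f : A ⟶ B} (h : S.Sup {g} f) (hg : g ∈ Z.Γ) {k : ℤ} (hk : Z.χ g ≤ k) :
    S.Le Z k f := h.mono fun x hx => by rw [hx]; exact ⟨hg, hk⟩

theorem le_lo {f : A ⟶ B} (h : S.Sup Z.Γ f) (k : ℤ) : S.Le Z k (S.lo Z k f) := h.proj _

theorem ge_hi {f : A ⟶ B} (h : S.Sup Z.Γ f) (k : ℤ) {l : ℤ} (hl : l ≤ k + 1) :
    S.Ge Z l (f - S.lo Z k f) :=
  (h.sub_proj _).mono fun g hg => ⟨hg.1, by
    have : ¬ Z.χ g ≤ k := hg.2
    omega⟩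

theorem Ge.lo {k : ℤ} {f : A ⟶ B} (h : S.Ge Z k f) (l : ℤ) : S.Ge Z k (S.lo Z l f) :=
  (Sup.proj h _).mono Set.inter_subset_left

theorem Le.hi {k : ℤ} {f : A ⟶ B} (h : S.Le Z k f) (l : ℤ) : S.Le Z k (f - S.lo Z l f) :=
  (Sup.sub_proj h _).mono Set.inter_subset_left

theorem bounded {f : A ⟶ B} (h : S.Sup Z.Γ f) :
    ∃ N : ℕ, S.Ge Z (-N) f ∧ S.Le Z N f := by
  obtain ⟨F, hF, hs, h⟩ := h.finite
  obtain ⟨N, hN⟩ := (hF.image fun g => (Z.χ g).natAbs).bddAbove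
  have := fun g (hg : g ∈ F) => hN (Set.mem_image_of_mem _ hg)
  exact ⟨N, h.mono fun g hg => ⟨hs hg, by have := this g hg; omega⟩,
    h.mono fun g hg => ⟨hs hg, by have := this g hg; omega⟩⟩

theorem lo_eq_zero {f : A ⟶ B} {k l : ℤ} (h : S.Ge Z k f) (hl : l < k) : S.lo Z l f = 0 :=
  (h.lo l).eq_zero (le_lo h.sup l) hl

theorem Ge.pw {x : A ⟶ A} (h : S.Ge Z 1 x) (n : ℕ) : S.Ge Z n (pw x n) := by
  induction n with
  | zero => exact ge_id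
  | succ n ih => exact h.comp ih (by push_cast; omega)

theorem Le.pw {x : A ⟶ A} (h : S.Le Z 1 x) (n : ℕ) : S.Le Z n (pw x n) := by
  induction n with
  | zero => exact le_id
  | succ n ih => exact h.comp ih (by push_cast; omega)

/-- An isomorphism over the nonnegative part which is linear. -/
theorem pos_lin (hW : S.W Z.K) (hp : S.Good Z.Γ {g | g ∈ Z.Γ ∧ Z.χ g = 1})
    {z : A ⟶ B} {w : B ⟶ A} (hz : S.Ge Z 0 z) (hz' : S.Le Z 1 z) (hw : S.Ge Z 0 w)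
    (h1 : z ≫ w = 𝟙 A) (h2 : w ≫ z = 𝟙 B) : S.Tr Z.Γ z := by
  set z0 := S.lo Z 0 z
  set w0 := S.lo Z 0 w
  have a0 : S.Ge Z 0 z0 := hz.lo 0
  have a1 : S.Le Z 0 z0 := le_lo hz.sup 0
  have a2 : S.Ge Z 1 (z - z0) := ge_hi hz.sup 0 (by omega)
  have a3 : S.Le Z 1 (z - z0) := hz'.hi 0
  have b0 : S.Ge Z 0 w0 := hw.lo 0
  have b1 : S.Le Z 0 w0 := le_lo hw.sup 0
  have b2 : S.Ge Z 1 (w - w0) := ge_hi hw.sup 0 (by omega)
  have e1 : z0 ≫ w0 = 𝟙 A := by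
    have : 𝟙 A - z0 ≫ w0 = (z - z0) ≫ w + z0 ≫ (w - w0) := by simp [h1]
    have h3 : S.Ge Z 1 (𝟙 A - z0 ≫ w0) := by
      rw [this]
      exact Sup.add (a2.comp hw (by omega)) (a0.comp b2 (by omega))
    exact (sub_eq_zero.1 (h3.eq_zero (Sup.sub le_id (a1.comp b1 (by omega))) (by omega))).symm
  have e2 : w0 ≫ z0 = 𝟙 B := by
    have : 𝟙 B - w0 ≫ z0 = (w - w0) ≫ z + w0 ≫ (z - z0) := by simp [h2]
    have h3 : S.Ge Z 1 (𝟙 B - w0 ≫ z0) := by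
      rw [this]
      exact Sup.add (b2.comp hz (by omega)) (b0.comp a2 (by omega))
    exact (sub_eq_zero.1 (h3.eq_zero (Sup.sub le_id (b1.comp a1 (by omega))) (by omega))).symm
  set x := -(w0 ≫ (z - z0)) with hx
  have c1 : S.Ge Z 1 x := Sup.neg (b0.comp a2 (by omega))
  have c2 : S.Le Z 1 x := Sup.neg (b1.comp a3 (by omega))
  have e3 : z = z0 ≫ (𝟙 B - x) := by simp [hx, reassoc_of% e1]
  have e4 : (𝟙 B - x) ≫ (w ≫ z0) = 𝟙 B := by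
    have : 𝟙 B - x = w0 ≫ z := by simp [hx, e2]
    rw [this]
    simp [reassoc_of% h1, e2]
  have hy : S.Ge Z 0 (w ≫ z0) := hw.comp a0 (by omega)
  obtain ⟨M, -, hM⟩ := bounded hy.sup
  have e5 : pw x (M + 1) = 0 := by
    have e6 : pw x (M + 1) + pw x (M + 2) ≫ w ≫ z0 =
        w ≫ z0 - ∑ j ∈ Finset.range (M + 1), pw x j := by
      have := congrArg ((∑ j ∈ Finset.range (M + 2), pw x j) ≫ ·) e4
      simp only [← Category.assoc, geom_right] at this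
      rw [Finset.sum_range_succ] at this
      simp only [Category.assoc, Category.comp_id, Preadditive.sub_comp, Category.id_comp] at this
      rw [eq_sub_iff_add_eq, ← sub_eq_zero, ← neg_eq_zero, ← sub_eq_zero.2 this]
      abel
    have g1 : S.Ge Z (M + 1) (pw x (M + 1) + pw x (M + 2) ≫ w ≫ z0) :=
      Sup.add ((c1.pw _).mono (by push_cast; omega)) ((c1.pw _).comp hy (by push_cast; omega))
    have g2 : S.Le Z M (pw x (M + 1) + pw x (M + 2) ≫ w ≫ z0) := by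
      rw [e6]
      refine Sup.sub hM (Sup.sum _ fun j hj => (c2.pw j).mono ?_)
      have := Finset.mem_range.1 hj
      omega
    have e7 := eq_neg_of_add_eq_zero_left (g1.eq_zero g2 (by omega))
    have g3 : S.Ge Z (M + 2) (pw x (M + 1)) := by
      rw [e7]
      exact Sup.neg ((c1.pw _).comp hy (by push_cast; omega))
    exact g3.eq_zero (c2.pw _) (by push_cast; omega)
  rw [e3]
  exact ((hW _ _ _ ⟨a0.deg a1, w0, b0.deg b1, e1, e2⟩).mono Z.K_le).comp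
    (hp _ _ (c1.deg c2) ⟨_, e5⟩)

section Lin

variable {u : A ⟶ B} {v : B ⟶ A}

theorem lin_ge (hu' : S.Ge Z 0 u) (hv : S.Sup Z.Γ v) (h1 : u ≫ v = 𝟙 A) (j : ℕ) :
    S.Ge Z (-j) (u ≫ S.lo Z (-j - 1) v) := by
  have : u ≫ S.lo Z (-j - 1) v = 𝟙 A - u ≫ (v - S.lo Z (-j - 1) v) := by simp [h1]
  rw [this]
  exact Sup.sub (ge_id.mono (by omega))
    (hu'.comp (ge_hi hv _ (l := -j) (by omega)) (by omega))

theorem lin_le (hu : S.Le Z 1 u) (hv : S.Sup Z.Γ v) (j : ℕ) :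
    S.Le Z (-j) (u ≫ S.lo Z (-j - 1) v) := hu.comp (le_lo hv _) (by omega)

theorem lo_mul (hu' : S.Ge Z 0 u) (hu : S.Le Z 1 u) (hv : S.Sup Z.Γ v) (h1 : u ≫ v = 𝟙 A)
    (h2 : v ≫ u = 𝟙 B) (i j : ℕ) :
    S.lo Z (-i - 1) v ≫ u ≫ S.lo Z (-j - 1) v = S.lo Z (-(i + j : ℕ) - 1) v := by
  have e : S.lo Z (-i - 1) v ≫ u ≫ S.lo Z (-j - 1) v - S.lo Z (-(i + j : ℕ) - 1) v =
      (v - S.lo Z (-(i + j : ℕ) - 1) v) - (v - S.lo Z (-j - 1) v) -
        (v - S.lo Z (-i - 1) v) ≫ u ≫ S.lo Z (-j - 1) v := by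
    simp only [Preadditive.sub_comp, reassoc_of% h2]
    abel
  refine sub_eq_zero.1 (Ge.eq_zero (Z := Z) (S := S) (k := -(i + j : ℕ))
    (l := -(i + j : ℕ) - 1) ?_ ?_ (by omega))
  · rw [e]
    exact Sup.sub (Sup.sub (ge_hi hv _ (by omega)) (ge_hi hv _ (by push_cast; omega)))
      ((ge_hi hv _ (l := -i) (by omega)).comp (lin_ge hu' hv h1 j) (by push_cast; omega))
  · exact Sup.sub ((le_lo hv _).comp (lin_le hu hv j) (by push_cast; omega)) (le_lo hv _)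

theorem lin_split (hW : S.W Z.K) (hp : S.Good Z.Γ {g | g ∈ Z.Γ ∧ Z.χ g = 1})
    (hm : S.Good Z.Γ {g | g ∈ Z.Γ ∧ Z.χ g = -1}) {t : G} (ht : t ∈ Z.Γ) (ht1 : Z.χ t = 1)
    (hu' : S.Ge Z 0 u) (hu : S.Le Z 1 u) (hv : S.Sup Z.Γ v) (h1 : u ≫ v = 𝟙 A)
    (h2 : v ≫ u = 𝟙 B) {vm : B ⟶ A} (hvm : S.Le Z (-1) vm) (hvp : S.Ge Z 0 (v - vm))
    {r : A ⟶ D} {i : D ⟶ A} {r0 : A ⟶ E} {i0 : E ⟶ A} (hr : S.Sup Z.K r) (hi : S.Sup Z.K i)
    (hr0 : S.Sup Z.K r0) (hi0 : S.Sup Z.K i0) (e1 : u ≫ vm = r ≫ i)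
    (e2 : r0 ≫ i0 = 𝟙 A - r ≫ i) (e3 : i ≫ r = 𝟙 D) (e4 : i0 ≫ r0 = 𝟙 E) : S.Tr Z.Γ u := by
  have evm : vm = S.lo Z (-1) v := by
    refine sub_eq_zero.1 (Ge.eq_zero (Z := Z) (S := S) (k := 0) (l := -1) ?_
      (Sup.sub hvm (le_lo hv _)) (by omega))
    have : vm - S.lo Z (-1) v = (v - S.lo Z (-1) v) - (v - vm) := by abel
    rw [this]
    exact Sup.sub (ge_hi hv _ (by omega)) hvp
  have e5 : i ≫ r0 = 0 := by
    have := congrArg (fun k => i ≫ k ≫ r0) e2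
    simpa [reassoc_of% e3, e4] using this
  have e6 : i0 ≫ r = 0 := by
    have := congrArg (fun k => i0 ≫ k ≫ r) e2
    simpa [reassoc_of% e4, e3] using this
  obtain ⟨D', τ, τ', t1, t2, t3, t4⟩ := S.shift D t
  have hτ := HIso.of_shift t1 t2 t3 t4
  have t5 : S.Sup {t} τ := hτ.1
  have t6 : S.Sup {t⁻¹} τ' := .of_cp t2 rfl
  set v2 := S.lo Z (-2) v with hv2
  have m00 : vm ≫ r ≫ i = vm := by
    simpa [← evm, e1] using lo_mul hu' hu hv h1 h2 0 0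
  have m10 : v2 ≫ r ≫ i = v2 := by
    simpa [← evm, e1] using lo_mul hu' hu hv h1 h2 1 0
  set n := u ≫ v2 with hn
  have n1 : S.Ge Z (-1) n := by simpa using lin_ge hu' hv h1 1
  have n2 : S.Le Z (-1) n := by simpa using lin_le hu hv 1
  have n3 : ∀ j : ℕ, pw n (j + 1) = u ≫ S.lo Z (-(j + 1 : ℕ) - 1) v := by
    intro j
    induction j with
    | zero => simp [pw_succ, hn, hv2]
    | succ j ih =>
      have := lo_mul hu' hu hv h1 h2 1 (j + 1)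
      rw [pw_succ, ih, hn, Category.assoc, add_comm (j + 1) 1, ← this]
      simp [hv2]
  obtain ⟨M, hM, -⟩ := bounded hv
  have n4 : pw n (M + 1) = 0 := by
    rw [n3, lo_eq_zero hM (by push_cast; omega), Limits.comp_zero]
  have hN : S.Tr Z.Γ (𝟙 A - n) := hm _ _ (n1.deg n2) ⟨_, n4⟩
  set a := S.lo Z 0 u
  have a1 : S.Le Z 0 a := le_lo hu.sup 0
  have a2 : S.Ge Z 1 (u - a) := ge_hi hu.sup 0 (by omega)
  have a3 : S.Le Z 1 (u - a) := hu.hi 0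
  have k1 : vm ≫ a + v2 ≫ (u - a) = 0 := by
    refine Ge.eq_zero (Z := Z) (S := S) (k := 0) (l := -1) ?_
      (Sup.add (hvm.comp a1 (by omega)) ((le_lo hv _).comp a3 (by omega))) (by omega)
    have : vm ≫ a + v2 ≫ (u - a) = 𝟙 B - (v - vm) ≫ a - (v - v2) ≫ (u - a) := by
      simp only [Preadditive.sub_comp, Preadditive.comp_sub, h2]
      abel
    rw [this]
    exact Sup.sub (Sup.sub ge_id (hvp.comp (hu'.lo 0) (by omega)))
      ((ge_hi hv _ (l := -1) (by omega)).comp a2 (by omega))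
  set g0 : A ⟶ S.sum E D := r0 ≫ S.inl E D + r ≫ S.inr E D with hg0
  have hG : S.Tr Z.Γ g0 := by
    refine (hW _ _ _ ⟨(hr0.comp_one (S.cp_inl _ _)).add (hr.comp_one (S.cp_inr _ _)),
      S.fst E D ≫ i0 + S.snd E D ≫ i,
      (Sup.one_comp (S.cp_fst _ _) hi0).add (Sup.one_comp (S.cp_snd _ _) hi), ?_, ?_⟩).mono Z.K_le
    · simp [e2]
    · simp [reassoc_of% e3, reassoc_of% e4, reassoc_of% e5, reassoc_of% e6, S.total]
  set T : A ⟶ S.sum E D' := g0 ≫ S.blk (𝟙 E) 0 0 τ with hT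
  have hT' : S.Tr Z.Γ T := hG.comp ((Tr.hom ht hτ).id_bd E)
  have eT : T = r0 ≫ S.inl E D' + r ≫ τ ≫ S.inr E D' := by simp [hT, hg0]
  set z : S.sum E D' ⟶ B := S.fst E D' ≫ i0 ≫ u + S.snd E D' ≫ τ' ≫ i ≫ (u - a) with hz
  have ez : ((𝟙 A - n) ≫ T) ≫ z = u := by
    have q1 : T ≫ z = u - r ≫ i ≫ a := by
      simp only [eT, hz, Preadditive.add_comp, Preadditive.comp_add, Category.assoc,
        S.inl_fst_assoc, S.inl_snd_assoc, S.inr_fst_assoc, S.inr_snd_assoc, Limits.zero_comp,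
        Limits.comp_zero, reassoc_of% t3, reassoc_of% e2, Preadditive.sub_comp,
        Preadditive.comp_sub, Category.id_comp]
      abel
    have q2 : r ≫ i ≫ a + n ≫ (u - a) = 0 := by
      have := congrArg (u ≫ ·) k1
      simpa only [Preadditive.comp_add, reassoc_of% e1, ← Category.assoc u v2, ← hn,
        Limits.comp_zero] using this
    have q3 : n ≫ r ≫ i ≫ a = n ≫ a := by rw [hn, Category.assoc, reassoc_of% m10, Category.assoc]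
    rw [Category.assoc, q1]
    simp only [Preadditive.sub_comp, Preadditive.comp_sub, Category.id_comp, q3] at q2 ⊢
    rw [← sub_eq_zero, ← neg_eq_zero, ← q2]
    abel
  have hP := hN.comp hT'
  obtain ⟨-, P', -, -, p1, p2⟩ := hP.inv
  have ew : v ≫ (𝟙 A - n) ≫ T = (vm - v2) ≫ r ≫ τ ≫ S.inr E D' + (v - vm) ≫ T := by
    have q1 : v ≫ (𝟙 A - n) = (vm - v2) ≫ r ≫ i + (v - vm) := by
      simp [hn, reassoc_of% h2, m00, m10]
    rw [← Category.assoc, q1, Preadditive.add_comp]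
    congr 1
    simp only [eT, Category.assoc, Preadditive.comp_add, reassoc_of% e5, reassoc_of% e3,
      Limits.zero_comp, Limits.comp_zero, zero_add]
  have g1 : S.Ge Z (-1) (vm - v2) := by
    have : vm - v2 = (v - v2) - (v - vm) := by abel
    rw [this]
    exact Sup.sub (ge_hi hv _ (by omega)) (hvp.mono (by omega))
  have gT : S.Ge Z 0 T := by
    rw [eT]
    exact Sup.add (Sup.comp_one hr0.ge0 (S.cp_inl _ _)) (hr.ge0.comp (l := 0)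
      (Sup.comp_one (t5.ge1 ht (by omega)) (S.cp_inr _ _)) (by omega))
  have hi1 := Z.inv ht
  have hZ : S.Tr Z.Γ z := by
    refine pos_lin hW hp (w := v ≫ (𝟙 A - n) ≫ T) ?_ ?_ ?_ ?_ ?_
    · exact Sup.add (Sup.one_comp (S.cp_fst _ _) (hi0.ge0.comp hu' (by omega)))
        (Sup.one_comp (S.cp_snd _ _) ((t6.ge1 (k := -1) (Z.Γ.inv_mem ht) (by omega)).comp
          (hi.ge0.comp a2 (m := 1) (by omega)) (by omega)))
    · exact Sup.add (Sup.one_comp (S.cp_fst _ _) (hi0.le0.comp hu (by omega)))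
        (Sup.one_comp (S.cp_snd _ _) ((t6.le1 (k := -1) (Z.Γ.inv_mem ht) (by omega)).comp
          (hi.le0.comp a3 (m := 1) (by omega)) (by omega)))
    · rw [ew]
      exact Sup.add (g1.comp (hr.ge0.comp (l := 1) (m := 1)
        (Sup.comp_one (t5.ge1 ht (by omega)) (S.cp_inr _ _)) (by omega)) (by omega))
        (hvp.comp gT (by omega))
    · have : z = P' ≫ u := by rw [← ez, ← Category.assoc, p2, Category.id_comp]
      rw [this, Category.assoc, reassoc_of% h1, p2]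
    · rw [Category.assoc, ez, h2]
  rw [← ez]
  exact hP.comp hZ

theorem lin (hW : S.W Z.K) (hS : S.SFI Z.K) (hp : S.Good Z.Γ {g | g ∈ Z.Γ ∧ Z.χ g = 1})
    (hm : S.Good Z.Γ {g | g ∈ Z.Γ ∧ Z.χ g = -1}) {t : G} (ht : t ∈ Z.Γ) (ht1 : Z.χ t = 1)
    (hu' : S.Ge Z 0 u) (hu : S.Le Z 1 u) (hv : S.Sup Z.Γ v) (h1 : u ≫ v = 𝟙 A)
    (h2 : v ≫ u = 𝟙 B) : S.Tr Z.Γ u := by
  set vm := S.lo Z (-1) v with hvm
  have g1 : S.Ge Z 0 (u ≫ vm) := by simpa using lin_ge hu' hv h1 0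
  have g2 : S.Le Z 0 (u ≫ vm) := by simpa using lin_le hu hv 0
  have g3 : (u ≫ vm) ≫ u ≫ vm = u ≫ vm := by
    have := lo_mul hu' hu hv h1 h2 0 0
    simp only [Nat.cast_zero, neg_zero, zero_sub, add_zero, ← hvm] at this
    rw [Category.assoc, this]
  obtain ⟨D, E, x, y, hx, hy, e1, e2⟩ := hS _ _ (g1.deg g2) g3
  obtain ⟨D', τ, τ', t1, t2, t3, t4⟩ := S.shift D t
  have hτ := HIso.of_shift t1 t2 t3 t4
  have t5 : S.Sup {t} τ := hτ.1
  have t6 : S.Sup {t⁻¹} τ' := .of_cp t2 rfl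
  have hi1 := Z.inv ht
  have hK := Z.K.one_mem
  have key : S.Tr Z.Γ (S.blk (S.blk u 0 0 τ) 0 0 (𝟙 E)) := by
    refine lin_split hW hp hm ht ht1 (v := S.blk (S.blk v 0 0 τ') 0 0 (𝟙 E))
      (vm := S.blk (S.blk vm 0 0 τ') 0 0 0) (r := S.fst _ _ ≫ x) (i := y ≫ S.inl _ _)
      (r0 := S.fst _ _ ≫ (𝟙 _ - x ≫ y) + S.snd _ _ ≫ y)
      (i0 := (𝟙 _ - x ≫ y) ≫ S.inl _ _ + x ≫ S.inr _ _)
      ?_ ?_ ?_ (by simp [h1, t3]) (by simp [h2, t4]) ?_ ?_ ?_ ?_ ?_ ?_ ?_ ?_ ?_ ?_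
    · exact Sup.blk (Sup.blk hu' .zero .zero (t5.ge1 ht (by omega))) .zero .zero ge_id
    · exact Sup.blk (Sup.blk hu .zero .zero (t5.le1 ht (by omega))) .zero .zero
        (le_id.mono (by omega))
    · exact Sup.blk (Sup.blk hv .zero .zero (t6.mono (by simpa using ht))) .zero .zero
        (.id Z.Γ.one_mem)
    · exact Sup.blk (Sup.blk (le_lo hv _) .zero .zero (t6.le1 (Z.Γ.inv_mem ht) (by omega)))
        .zero .zero .zero
    · simp only [S.blk_sub, sub_self, sub_zero]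
      exact Sup.blk (Sup.blk (ge_hi hv _ (by omega)) .zero .zero .zero) .zero .zero ge_id
    · exact .one_comp (S.cp_fst _ _) hx
    · exact hy.comp_one (S.cp_inl _ _)
    · exact (Sup.one_comp (S.cp_fst _ _) ((Sup.id hK).sub (hx.scomp hy))).add
        (.one_comp (S.cp_snd _ _) hy)
    · exact (((Sup.id hK).sub (hx.scomp hy)).comp_one (S.cp_inl _ _)).add
        (hx.comp_one (S.cp_inr _ _))
    · apply S.hom_ext <;> simp [reassoc_of% e1, t3]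
    · apply S.hom_ext <;> simp [reassoc_of% e2]
    · simp [e2]
    · simp [reassoc_of% e2]
  have : S.blk u 0 0 τ = S.blk u 0 0 (𝟙 D) ≫ S.blk (𝟙 B) 0 0 τ := by simp
  have k2 := key.of_bd
  rw [this] at k2
  exact (((Tr.hom ht hτ).id_bd B).cancel_right k2).of_bd

end Lin

theorem higman (hW : S.W Z.K) (hS : S.SFI Z.K) (hp : S.Good Z.Γ {g | g ∈ Z.Γ ∧ Z.χ g = 1})
    (hm : S.Good Z.Γ {g | g ∈ Z.Γ ∧ Z.χ g = -1}) {t : G} (ht : t ∈ Z.Γ) (ht1 : Z.χ t = 1)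
    (d : ℕ) : ∀ {A B : C} (u : A ⟶ B), S.Ge Z 0 u → S.Le Z (d + 1) u → S.Iso Z.Γ u →
      S.Tr Z.Γ u := by
  induction d with
  | zero =>
    rintro A B u h0 h1 ⟨-, v, hv, e1, e2⟩
    exact lin hW hS hp hm ht ht1 h0 (by simpa using h1) hv e1 e2
  | succ d ih =>
    intro A B u h0 h1 hu
    obtain ⟨D, f, f', t1, t2, t3, t4⟩ := S.shift B t⁻¹
    have t5 : S.Sup {t⁻¹} f := .of_cp t1 rfl
    have t6 : S.Sup {t} f' := .of_cp (by simpa using t2) rfl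
    have hi1 := Z.inv ht
    set a := S.lo Z (d + 1) u
    have a2 : S.Ge Z (d + 2) (u - a) := ge_hi hu.1 _ (by omega)
    have a3 : S.Le Z (d + 2) (u - a) := (h1.hi _).mono (by push_cast; omega)
    have c1 : S.Ge Z 0 ((u - a) ≫ f) :=
      a2.comp (t5.ge1 (k := -1) (Z.Γ.inv_mem ht) (by omega)) (by omega)
    have c2 : S.Le Z (d + 1) ((u - a) ≫ f) :=
      a3.comp (t5.le1 (k := -1) (Z.Γ.inv_mem ht) (by omega)) (by omega)
    have f1 : S.Ge Z 0 (-f') := Sup.neg (t6.ge1 ht (by omega))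
    have f2 : S.Le Z (d + 1) (-f') := Sup.neg (t6.le1 ht (by omega))
    have e : S.blk a ((u - a) ≫ f) (-f') (𝟙 D) = S.blk (𝟙 A) ((u - a) ≫ f) 0 (𝟙 D) ≫
        S.blk u 0 0 (𝟙 D) ≫ S.blk (𝟙 B) 0 (-f') (𝟙 D) := by
      simp [t3]
    have := ih (S.blk a ((u - a) ≫ f) (-f') (𝟙 D)) (Sup.blk (h0.lo _) c1 f1 ge_id)
      (Sup.blk (le_lo hu.1 _) c2 f2 (le_id.mono (by omega)))
      (e ▸ (Iso.upper c1.sup).comp ((hu.bd .id).comp (.lower f1.sup)))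
    rw [e] at this
    exact ((Tr.lower f1.sup).cancel_right ((Tr.upper c1.sup).cancel_left this)).of_bd

/-- The splitting theorem. -/
theorem FH (hW : S.W Z.K) (hS : S.SFI Z.K) (hp : S.Good Z.Γ {g | g ∈ Z.Γ ∧ Z.χ g = 1})
    (hm : S.Good Z.Γ {g | g ∈ Z.Γ ∧ Z.χ g = -1}) {t : G} (ht : t ∈ Z.Γ) (ht1 : Z.χ t = 1) :
    S.W Z.Γ := by
  intro A B u hu
  obtain ⟨N, h1, h2⟩ := bounded hu.1
  obtain ⟨D, f, f', t1, t2, t3, t4⟩ := S.shift B (t ^ N)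
  have hf := HIso.of_shift t1 t2 t3 t4
  have htN := Z.Γ.pow_mem ht N
  have hN : Z.χ (t ^ N) = N := by rw [Z.pow ht, ht1, mul_one]
  exact (Tr.hom htN hf).cancel_right (higman hW hS hp hm ht ht1 (2 * N) (u ≫ f)
    (h1.comp (hf.1.ge1 htN hN.ge) (by omega))
    (h2.comp (hf.1.le1 htN hN.le) (by push_cast; omega)) (hu.comp (hf.iso htN)))

end GC

end Pool.Agent.Lib.MP_5d3e93_al
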