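import Pool.Agent.Lib.MP_5d3e93_al.DefsO
import Pool.Agent.Lib.MP_5d3e93_al.TwGC

/-! Eilenberg swindles on the obstruction category. -/

open CategoryTheory Limits

namespace Pool.Agent.Lib.MP_5d3e93_al

universe w w' v u

section

variable {G : Type w} [Group G] {C : Type u} [Category.{v} C] [Preadditive C]

theorem GC.k1_sw (S : GC G C) {o : C → C} (Φ : ∀ {A B : C}, (A ⟶ B) → (o A ⟶ o B))
    (h1 : ∀ A, Φ (𝟙 A) = 𝟙 _) (h2 : ∀ {A B D : C} (f : A ⟶ B) (g : B ⟶ D), Φ (f ≫ g) = Φ f ≫ Φ g)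
    (i : ∀ A, A ⟶ o A) (r : ∀ A, o A ⟶ A) (i' r' : ∀ A, o A ⟶ o A)
    (e : ∀ A, r A ≫ i A + r' A ≫ i' A = 𝟙 _)
    (n : ∀ {A B : C} (f : A ⟶ B), i A ≫ Φ f ≫ r B = f ∧ i A ≫ Φ f ≫ r' B = 0 ∧
      i' A ≫ Φ f ≫ r B = 0 ∧ i' A ≫ Φ f ≫ r' B = Φ f) : K1Zero C := fun A a => by
  obtain ⟨e1, e2, e3, e4⟩ := n (𝟙 A)
  obtain ⟨f1, f2, f3, f4⟩ := n a.hom
  simp only [h1, Category.id_comp] at e1 e2 e3 e4
  have f5 : Φ a.hom ≫ Φ a.inv = 𝟙 _ := by rw [← h2, a.hom_inv_id, h1]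
  have f6 : Φ a.inv ≫ Φ a.hom = 𝟙 _ := by rw [← h2, a.inv_hom_id, h1]
  have f7 : Φ a.hom = r A ≫ a.hom ≫ i A + r' A ≫ Φ a.hom ≫ i' A := by
    conv_lhs => rw [← Category.id_comp (Φ a.hom), ← Category.comp_id (Φ a.hom), ← e]
    simp [reassoc_of% f1, reassoc_of% f2, reassoc_of% f3, reassoc_of% f4]
  obtain ⟨b, c, d⟩ := GC.Cm.comm (a := S.blk (Φ a.hom) 0 0 (𝟙 (o A))) (a' := S.blk (Φ a.inv) 0 0 (𝟙 _))
    (b := S.blk (r' A) (r A ≫ i A) 0 (i' A)) (b' := S.blk (i' A) 0 (r A ≫ i A) (r' A))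
    (by simp [f5]) (by simp [f6]) (by simp [reassoc_of% e1, e2, e4, add_comm (r' A ≫ i' A), e, reassoc_of% e3])
    (by simp [reassoc_of% e1, e2, e4, reassoc_of% e3, e])
  refine ⟨_, _, i A ≫ S.inl _ _, S.fst _ _ ≫ r A, S.blk (i' A) 0 0 (𝟙 _), S.blk (r' A) 0 0 (𝟙 _),
    by simp [e1], by simp [e4], ?_, b, c, d.trans ?_⟩
  · apply S.hom_ext <;> simp
    simpa using congrArg (· ≫ S.inl (o A) (o A)) (e A)
  · have : Φ a.hom ≫ (r' A ≫ Φ a.inv ≫ i' A + r A ≫ i A) = r A ≫ a.hom ≫ i A + r' A ≫ i' A := by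
      conv_lhs => rw [f7]
      simp [reassoc_of% e1, reassoc_of% e2, reassoc_of% e3, reassoc_of% e4, reassoc_of% f5,
        add_comm]
    apply S.hom_ext <;> simp [reassoc_of% e1, e2, e4, reassoc_of% e3]
    simpa using congrArg (· ≫ S.inl (o A) (o A)) this

open Tw

variable {σ : Act G C} {A B D : Tw σ}

theorem Tw.sg_emb (g : G) (a : A.as ⟶ (σ.F g).obj B.as) (f : B.as ⟶ D.as) :
    sg g a ≫ emb f = sg g (a ≫ (σ.F g).map f) :=
  (sg_comp ..).trans (sg_congr (mul_one g) (by simp [Tw.cmp, eqToHom_map]))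

theorem Tw.emb_sg (g : G) (f : A.as ⟶ B.as) (a : B.as ⟶ (σ.F g).obj D.as) :
    emb f ≫ sg g a = sg g (f ≫ a) :=
  (sg_comp ..).trans (sg_congr (one_mul g) (by simp [Tw.cmp, Functor.congr_hom σ.one a]))

theorem k1_sw [HasBinaryBiproducts C] (Φ : C ⥤ C) [Φ.Additive] (h : ∀ g, σ.F g ⋙ Φ = Φ ⋙ σ.F g)
    (i : ∀ A, A ⟶ Φ.obj A) (r : ∀ A, Φ.obj A ⟶ A) (i' r' : ∀ A, Φ.obj A ⟶ Φ.obj A)
    (e : ∀ A, r A ≫ i A + r' A ≫ i' A = 𝟙 _)
    (n : ∀ {A B : C} (f : A ⟶ B), i A ≫ Φ.map f ≫ r B = f ∧ i A ≫ Φ.map f ≫ r' B = 0 ∧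
      i' A ≫ Φ.map f ≫ r B = 0 ∧ i' A ≫ Φ.map f ≫ r' B = Φ.map f)
    (k : ∀ g A, HEq ((σ.F g).map (r A)) (r ((σ.F g).obj A)) ∧
      HEq ((σ.F g).map (r' A)) (r' ((σ.F g).obj A))) : K1Zero (Tw σ) := by
  classical
  let Ψ {A B : Tw σ} : (A ⟶ B) →+ ((⟨Φ.obj A.as⟩ : Tw σ) ⟶ ⟨Φ.obj B.as⟩) :=
    DFinsupp.mapRange.addMonoidHom (β₁ := fun g => A.as ⟶ (σ.F g).obj B.as) fun g =>
      (Preadditive.rightComp _ (eqToHom (Functor.congr_obj (h g) B.as))).comp Φ.mapAddHom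
  have s {A B : Tw σ} (g) (a : A.as ⟶ (σ.F g).obj B.as) :
      Ψ (sg g a) = sg g (Φ.map a ≫ eqToHom (Functor.congr_obj (h g) B.as)) :=
    DFinsupp.mapRange_single (hf := fun _ => map_zero _)
  have k1 (g A) : eqToHom (Functor.congr_obj (h g) A) ≫ (σ.F g).map (r A) = r _ :=
    eq_of_heq ((eqToHom_comp_heq ..).trans (k g A).1)
  have k2 (g A) : eqToHom (Functor.congr_obj (h g) A) ≫ (σ.F g).map (r' A) =
      r' _ ≫ eqToHom (Functor.congr_obj (h g) A) :=
    eq_of_heq ((eqToHom_comp_heq ..).trans ((k g A).2.trans (comp_eqToHom_heq ..).symm))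
  refine (twGC σ).k1_sw (fun f => Ψ f) (fun A => ?_) (fun f g => ?_) (fun A => emb (i _))
    (fun A => emb (r _)) (fun A => emb (i' _)) (fun A => emb (r' _))
    (fun A => by rw [emb_comp, emb_comp, ← emb_add, e, emb_id]) fun f => ?_
  · rw [one_def, s, one_def]
    simp [eqToHom_map]
  · induction f using ind' with
    | h0 => simp
    | h1 a b c d => simp [c, d]
    | h2 x a =>
      induction g using ind' with
      | h0 => simp
      | h1 a b c d => simp [c, d]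
      | h2 y b =>
        rw [sg_comp, s, s, s, sg_comp]
        have := Functor.congr_hom (h x) b
        simp only [Functor.comp_map] at this
        simp [Tw.cmp, eqToHom_map, this]
  · induction f using ind' with
    | h0 => simp
    | h1 a b c d => simp [c, d]
    | h2 x a =>
      obtain ⟨f1, f2, f3, f4⟩ := n a
      simp only [s, sg_emb, emb_sg, Category.assoc, k1, k2, f1, f3, reassoc_of% f2, reassoc_of% f4,
        sg_zero, zero_comp, and_self]

end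

namespace Spx

variable {S : Type w'}

theorem nm_smul (c : ℝ) (x : S →₀ ℝ) :
    ((c • x).sum fun _ r => |r|) = |c| * x.sum fun _ r => |r| := by
  rw [nm _ Finsupp.support_smul, Finsupp.sum, Finset.mul_sum]
  simp [abs_mul]

theorem nm_one (p : Spx S) : (p.x.sum fun _ r => |r|) = 1 :=
  (Finsupp.sum_congr fun s _ => abs_of_nonneg (p.nonneg s)).trans p.total

theorem d_comm (p q : Spx S) : p.d q = q.d p := by
  rw [d, d, ← neg_sub, ← neg_one_smul ℝ, nm_smul]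
  simp

theorem d_le (p q : Spx S) : p.d q ≤ 2 := by
  have := nm_add p.x ((-1 : ℝ) • q.x)
  rw [nm_smul, nm_one, nm_one, neg_one_smul, ← sub_eq_add_neg] at this
  exact this.trans (by norm_num)

/-- Moving towards a vertex. -/
noncomputable def cv (s : S) (k t : ℕ) (p : Spx S) : Spx S :=
  ⟨((t + 1) / (k + t + 1) : ℝ) • p.x + Finsupp.single s (k / (k + t + 1) : ℝ), fun x => by
    have := p.nonneg x
    have : (0 : ℝ) ≤ Finsupp.single s (k / (k + t + 1) : ℝ) x :=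
      Finsupp.single_nonneg.2 (by positivity) x
    simp only [Finsupp.add_apply, Finsupp.smul_apply, smul_eq_mul]
    positivity, by
    rw [Finsupp.sum_add_index' (by simp) (by simp), Finsupp.sum_smul_index (by simp),
      ← Finsupp.mul_sum, p.total, Finsupp.sum_single_index rfl]
    field_simp
    ring⟩

theorem cv_d (s : S) {k t k' t' r : ℕ} (h : t ≤ t' + r) (h' : t' ≤ t + r) (a : k ≤ k')
    (b : k' ≤ k + 1) (p q : Spx S) : (cv s k t p).d (cv s k' t' q) ≤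
      ((t + 1) * p.d q + 2 * (r + 1)) / (k + t + 1) := by
  set α : ℝ := (t + 1) / (k + t + 1)
  set β : ℝ := (t' + 1) / (k' + t' + 1)
  have e : (cv s k t p).x - (cv s k' t' q).x =
      α • (p.x - q.x) + ((α - β) • q.x + Finsupp.single s (β - α)) := by
    have (k t : ℕ) : (k / (k + t + 1) : ℝ) = 1 - (t + 1) / (k + t + 1) := by field_simp; ring
    simp only [cv, this, Finsupp.single_sub]
    module
  have f : |α - β| ≤ (r + 1) / (k + t + 1) := by
    have h1 : (t : ℝ) ≤ t' + r := by exact_mod_cast h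
    have h2 : (t' : ℝ) ≤ t + r := by exact_mod_cast h'
    have h3 : (k : ℝ) ≤ k' := by exact_mod_cast a
    have h4 : (k' : ℝ) ≤ k + 1 := by exact_mod_cast b
    have := k.cast_nonneg (α := ℝ)
    have := t.cast_nonneg (α := ℝ)
    have := t'.cast_nonneg (α := ℝ)
    have := r.cast_nonneg (α := ℝ)
    rw [div_sub_div _ _ (by positivity) (by positivity), abs_div, abs_of_pos (a := _ * _)
      (by positivity), div_le_div_iff₀ (by positivity) (by positivity),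
      mul_comm (k + t + 1 : ℝ) (k' + t' + 1), ← mul_assoc]
    refine mul_le_mul_of_nonneg_right (abs_le.2 ⟨?_, ?_⟩) (by positivity) <;> nlinarith
  rw [d, e]
  refine (nm_add _ _).trans ((add_le_add_right (nm_add _ _) _).trans ?_)
  rw [nm_smul, nm_smul, nm_one, Finsupp.sum_single_index abs_zero, abs_sub_comm β,
    abs_of_nonneg (by positivity), add_div, mul_div_right_comm, mul_div_assoc]
  exact add_le_add_right (by linarith) _

end Spx

namespace Obs

open Classical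

variable {S : Type w'} {C : Type u} {X Y Z : Obs S C}

theorem Ctl.symm {R : X.ι → Y.ι → Prop} (h : Ctl X Y R) : Ctl Y X fun j i => R i j := by
  obtain ⟨⟨r, a⟩, b⟩ := h
  refine ⟨⟨r, fun j i c => (a i j c).symm⟩, fun ε e => (b ε e).elim fun n c => ⟨n + r, fun j i d f => ?_⟩⟩
  have := a i j d
  exact Spx.d_comm _ _ ▸ c i j d (by omega)

theorem ctl_of (f : X.ι → Y.ι) (a : ∀ i, X.τ i = Y.τ (f i)) (b : ∀ i, X.π i = Y.π (f i)) :
    Ctl X Y fun i j => f i = j :=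
  ⟨⟨0, by simp [a]⟩, fun _ e => ⟨0, by simp [b, Spx.d_self, e.le]⟩⟩

/-- Direct sums. -/
abbrev sum (X Y : Obs S C) : Obs S C :=
  ⟨X.ι ⊕ Y.ι, Sum.elim X.B Y.B, Sum.elim X.π Y.π, Sum.elim X.τ Y.τ, fun n =>
    (((X.fin n).image .inl).union ((Y.fin n).image .inr)).subset (by rintro (i | i) <;> simp), by
    obtain ⟨F, a⟩ := X.cpt
    obtain ⟨K, b⟩ := Y.cpt
    exact ⟨F ∪ K, fun i => i.rec (fun i => (a i).trans Finset.subset_union_left)
      fun i => (b i).trans Finset.subset_union_right⟩⟩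

/-- The infinite sum of shifts. -/
noncomputable abbrev sw (s : S) (X : Obs S C) : Obs S C :=
  ⟨X.ι × ℕ, fun p => X.B p.1, fun p => (X.π p.1).cv s p.2 (X.τ p.1), fun p => X.τ p.1 + p.2, fun n =>
    ((X.fin n).prod (Set.finite_le_nat n)).subset fun p h => by
      simp only [Set.mem_ofPred_eq, Set.mem_prod] at h ⊢; omega,
    X.cpt.elim fun F a => ⟨F ∪ {s}, fun p => Finsupp.support_add.trans (Finset.union_subset_union
      (Finsupp.support_smul.trans (a _)) Finsupp.support_single_subset)⟩⟩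

theorem Ctl.sw {R : X.ι → Y.ι → Prop} (h : Ctl X Y R) (s : S) :
    Ctl (sw s X) (sw s Y) fun p q => R p.1 q.1 ∧ p.2 ≤ q.2 ∧ q.2 ≤ p.2 + 1 := by
  obtain ⟨⟨r, a⟩, b⟩ := h
  refine ⟨⟨r + 1, fun p q c => ?_⟩, fun ε e => ?_⟩
  · have := a _ _ c.1
    dsimp only
    omega
  obtain ⟨n, b⟩ := b (ε / 2) (by positivity)
  obtain ⟨N, c⟩ := exists_nat_ge ((2 * n + 2 * (r + 1)) / (ε / 2))
  refine ⟨N, fun p q d f => (Spx.cv_d s (a _ _ d.1).1 (a _ _ d.1).2 d.2.1 d.2.2 _ _).trans ?_⟩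
  have f : (N : ℝ) ≤ X.τ p.1 + p.2 := by exact_mod_cast f
  rw [div_le_iff₀ (by positivity)] at c ⊢
  have := p.2.cast_nonneg (α := ℝ)
  have := n.cast_nonneg (α := ℝ)
  by_cases g : n ≤ X.τ p.1
  · nlinarith [b _ _ d.1 g, (X.τ p.1).cast_nonneg (α := ℝ)]
  · have : (X.τ p.1 : ℝ) + 1 ≤ n := by exact_mod_cast not_le.1 g
    nlinarith [(X.π p.1).d_le (Y.π q.1), (X.τ p.1).cast_nonneg (α := ℝ)]

variable [Category.{v} C] [Preadditive C]

theorem comp_def (φ : X ⟶ Y) (ψ : Y ⟶ Z) (i l) : (φ ≫ ψ).1 i l = ∑ᶠ j, φ.1 i j ≫ ψ.1 j l := rfl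

theorem id_def (i j : X.ι) : (𝟙 X : Mor X X).1 i j =
    if h : i = j then eqToHom (congrArg X.B h) else 0 := rfl

theorem ext {φ ψ : X ⟶ Y} (h : ∀ i j, φ.1 i j = ψ.1 i j) : φ = ψ := Mor.ext (funext₂ h)

section

variable {f : X.ι → Y.ι} (c : Ctl X Y fun i j => f i = j) (h : ∀ i, X.B i = Y.B (f i))

/-- Inclusion along a map of indices. -/
noncomputable def mt : X ⟶ Y :=
  ⟨fun i j => if e : f i = j then eqToHom ((h i).trans (congrArg Y.B e)) else 0,
    c.mono fun _ _ a => by_contra fun b => a (dif_neg b)⟩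

/-- Projection along a map of indices. -/
noncomputable def mt' : Y ⟶ X :=
  ⟨fun j i => if e : f i = j then eqToHom ((h i).trans (congrArg Y.B e)).symm else 0,
    c.symm.mono fun _ _ a => by_contra fun b => a (dif_neg b)⟩

theorem mt_comp (ψ : Y ⟶ Z) (i k) : (mt c h ≫ ψ).1 i k = eqToHom (h i) ≫ ψ.1 (f i) k :=
  (finsum_eq_single _ (f i) fun j a => by simp [mt, a.symm]).trans (by simp [mt])

theorem comp_mt' (ψ : Z ⟶ Y) (k i) : (ψ ≫ mt' c h).1 k i = ψ.1 k (f i) ≫ eqToHom (h i).symm :=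
  (finsum_eq_single _ (f i) fun j a => by simp [mt', a.symm]).trans (by simp [mt'])

theorem pr_in (a : Function.Injective f) (i k) :
    (mt' c h ≫ mt c h).1 (f i) k = (𝟙 Y : Mor Y Y).1 (f i) k :=
  (finsum_eq_single _ i fun j b => by simp [mt', a.ne b]).trans (by
    by_cases b : f i = k <;> simp [mt, mt', id_def, b])

theorem pr_out {j : Y.ι} (a : ∀ i, f i ≠ j) (k) : (mt' c h ≫ mt c h).1 j k = 0 :=
  finsum_eq_zero_of_forall_eq_zero fun i => by simp [mt', a i]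

end

instance : HasZeroObject (Obs S C) :=
  ⟨⟨Empty, nofun, nofun, nofun, fun _ => Set.toFinite _, ∅, nofun⟩,
    (IsZero.iff_id_eq_zero _).2 (ext nofun)⟩

theorem sum_spec (X Y : Obs S C) : ∃ (i : X ⟶ sum X Y) (r : sum X Y ⟶ X) (i' : Y ⟶ sum X Y)
    (r' : sum X Y ⟶ Y), i ≫ r = 𝟙 _ ∧ i ≫ r' = 0 ∧ i' ≫ r = 0 ∧ i' ≫ r' = 𝟙 _ ∧
      r ≫ i + r' ≫ i' = 𝟙 _ := by
  have a := ctl_of (Y := sum X Y) Sum.inl (fun _ => rfl) fun _ => rfl
  have b := ctl_of (Y := sum X Y) Sum.inr (fun _ => rfl) fun _ => rfl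
  refine ⟨mt a fun _ => rfl, mt' a fun _ => rfl, mt b fun _ => rfl, mt' b fun _ => rfl,
    ext fun i j => ?_, ext fun i j => ?_, ext fun i j => ?_, ext fun i j => ?_, ext fun i j => ?_⟩
  · simp [mt_comp, mt', id_def, eq_comm (a := j)]
    congr
  · simp [mt_comp, mt']
    rfl
  · simp [mt_comp, mt']
    rfl
  · simp [mt_comp, mt', id_def, eq_comm (a := j)]
    congr
  · obtain i | i := i
    · exact (congrArg₂ (· + ·) (pr_in a _ Sum.inl_injective i j) (pr_out b _ (by simp) j)).trans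
        (add_zero _)
    · exact (congrArg₂ (· + ·) (pr_out a _ (by simp) j) (pr_in b _ Sum.inr_injective i j)).trans
        (zero_add _)

instance : HasBinaryBiproducts (Obs S C) := ⟨fun X Y => by
  obtain ⟨i, r, i', r', a, b, c, d, e⟩ := sum_spec X Y
  exact hasBinaryBiproduct_of_total ⟨_, r, r', i, i', a, b, c, d⟩ e⟩

variable (s : S)

/-- The swindle functor. -/
noncomputable def swF : Obs S C ⥤ Obs S C where
  obj := sw s
  map φ := ⟨fun p q => if p.2 = q.2 then φ.1 p.1 q.1 else 0, (φ.2.sw s).mono fun p q a => by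
    by_cases e : p.2 = q.2
    · exact ⟨by simpa [e] using a, e.le, by omega⟩
    · exact (a (if_neg e)).elim⟩
  map_id X := ext fun ⟨i, k⟩ ⟨j, l⟩ => by
    by_cases e : i = j <;> by_cases f : k = l <;> simp [id_def, e, f, Prod.ext_iff]
  map_comp φ ψ := ext fun ⟨i, k⟩ ⟨j, l⟩ => by
    obtain ⟨J, a⟩ := row φ i
    refine .trans ?_ (fs (J := J.image (·, k)) _ _ (.inl fun ⟨x, y⟩ b => ?_)).symm
    · rw [Finset.sum_image (by simp)]
      by_cases e : k = l <;> simp [e, comp_def, fs _ _ (.inl a)]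
    · by_cases e : k = y
      · simpa [e] using a x (by simpa [e] using b)
      · simp [e]

instance : (swF (C := C) s).Additive := ⟨fun {_ _ f g} => ext fun p q => by
  change ite (p.2 = q.2) (f.1 p.1 q.1 + g.1 p.1 q.1) 0 =
    ite (p.2 = q.2) (f.1 p.1 q.1) 0 + ite (p.2 = q.2) (g.1 p.1 q.1) 0
  split_ifs <;> simp⟩

omit [Category C] [Preadditive C] in
theorem c0 (X : Obs S C) : Ctl X (sw s X) fun i j => (i, 0) = j :=
  ctl_of (Y := sw s X) (·, 0) (fun _ => rfl) fun i => Spx.ext (by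
    simp [Spx.cv, div_self (a := (X.τ i + 1 : ℝ)) (by positivity)])

omit [Category C] [Preadditive C] in
theorem c1 (X : Obs S C) : Ctl (sw s X) (sw s X) fun p q => (p.1, p.2 + 1) = q :=
  ((ctl_of id (fun _ => rfl) fun _ => rfl).sw s).mono (by rintro _ _ rfl; simp)

/-- The first structure map. -/
noncomputable def i0 (X : Obs S C) : X ⟶ (swF s).obj X := mt (c0 s X) fun _ => rfl

/-- The first projection. -/
noncomputable def r0 (X : Obs S C) : (swF s).obj X ⟶ X := mt' (c0 s X) fun _ => rfl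

/-- The shift. -/
noncomputable def i1 (X : Obs S C) : (swF s).obj X ⟶ (swF s).obj X := mt (c1 s X) fun _ => rfl

/-- The backward shift. -/
noncomputable def r1 (X : Obs S C) : (swF s).obj X ⟶ (swF s).obj X := mt' (c1 s X) fun _ => rfl

theorem sw_total (X : Obs S C) : r0 s X ≫ i0 s X + r1 s X ≫ i1 s X = 𝟙 _ := ext fun ⟨i, k⟩ j => by
  obtain _ | k := k
  · exact (congrArg₂ (· + ·) (pr_in (c0 s X) _ (fun _ _ e => congrArg Prod.fst e) i j)
      (pr_out (c1 s X) _ (by simp) j)).trans (add_zero _)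
  · exact (congrArg₂ (· + ·) (pr_out (c0 s X) _ (by simp) j) (pr_in (c1 s X) _
      (fun _ _ e => by simpa [Prod.ext_iff] using e) (i, k) j)).trans (zero_add _)

theorem sw_nat (f : X ⟶ Y) : i0 s X ≫ (swF s).map f ≫ r0 s Y = f ∧
    i0 s X ≫ (swF s).map f ≫ r1 s Y = 0 ∧ i1 s X ≫ (swF s).map f ≫ r0 s Y = 0 ∧
      i1 s X ≫ (swF s).map f ≫ r1 s Y = (swF s).map f := by
  refine ⟨ext fun i j => ?_, ext fun i j => ?_, ext fun i j => ?_, ext fun i j => ?_⟩ <;>
    refine (mt_comp ..).trans ((congrArg _ (comp_mt' ..)).trans ?_) <;> simp [swF] <;> rfl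

include s in
theorem k0 : K0Zero (Obs S C) := by
  have (A D : Obs S C) : Nonempty (A ⊞ (swF s).obj A ⊞ D ≅ (swF s).obj A ⊞ D) := by
    obtain ⟨a, b, c, d⟩ := sw_nat s (𝟙 A)
    simp only [CategoryTheory.Functor.map_id, Category.id_comp] at a b c d
    exact ⟨(biprod.associator ..).symm ≪≫ biprod.mapIso ⟨biprod.desc (i0 s A) (i1 s A),
      biprod.lift (r0 s A) (r1 s A), by ext <;> simp [a, b, c, d], by simp [sw_total]⟩ (.refl _)⟩
  intro A B
  obtain ⟨a⟩ := this A ((swF s).obj B)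
  obtain ⟨b⟩ := this B ((swF s).obj A)
  exact ⟨_, ⟨a ≪≫ biprod.braiding .. ≪≫ b.symm ≪≫ biprod.mapIso (.refl _) (biprod.braiding ..)⟩⟩

theorem heq_of {ι κ : Type} {B τ h π π' c c'} {B' τ' h' μ μ' d d'} (e : π = π') (e' : μ = μ')
    {f : (⟨ι, B, π, τ, h, c⟩ : Obs S C) ⟶ ⟨κ, B', μ, τ', h', d⟩}
    {g : (⟨ι, B, π', τ, h, c'⟩ : Obs S C) ⟶ ⟨κ, B', μ', τ', h', d'⟩} (k : ∀ i j, f.1 i j = g.1 i j) :
    HEq f g := by
  subst e e'
  exact heq_of_eq (ext k)

theorem k1 {G : Type w} [Group G] [MulAction G S] (ρ : Act G C) {H : Type*} [Group H] (φ : H →* G)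
    (h : ∀ x, φ x • s = s) : K1Zero (Tw ((act S ρ).comap φ)) := by
  have e (g) (X : Obs S C) : (fun p : X.ι × ℕ => ((X.π p.1).map (φ g • ·)).cv s p.2 (X.τ p.1)) =
      fun p => ((X.π p.1).cv s p.2 (X.τ p.1)).map (φ g • ·) := funext fun p => Spx.ext (by
    simp [Spx.map, Spx.cv, Finsupp.mapDomain_add, Finsupp.mapDomain_smul, h])
  refine k1_sw (swF s) (fun g => Functor.hext (fun X => ?_) fun X Y f => heq_of (e g X) (e g Y)
    fun p q => ?_) _ _ _ _ (sw_total s) (sw_nat s) fun g A =>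
      ⟨heq_of (e g A).symm rfl fun p q => ?_, heq_of (e g A).symm (e g A).symm fun p q => ?_⟩
  · change Obs.mk .. = Obs.mk ..
    congr 1
    exact e g X
  all_goals have := ρ.additive (φ g)
  · exact ((apply_ite (ρ.F (φ g)).map ..).trans (by rw [Functor.map_zero]; rfl)).symm
  all_goals
    refine (apply_dite (ρ.F (φ g)).map ..).trans ?_
    simp only [Functor.map_zero, eqToHom_map]
    rfl

end Obs

end Pool.Agent.Lib.MP_5d3e93_al
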