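import Pool.Agent.Lib.MP_5d3e93_al.Wn

/-! The Farrell-Hsiang method for Nil terms of hyperbolic commensurations. -/

open CategoryTheory MulAction Filter Topology
open scoped Pointwise

namespace Pool.Agent.Lib.MP_5d3e93_al

universe w v u

variable {n : ℕ} {Γ : Type w} [Group Γ] [MulAction Γ (Fin n → ℚ)] {A : AA Γ ℚ (Fin n → ℚ)}

theorem norm_nat (N : ℕ) (v : Fin n → ℚ) : ‖(N : ℚ) • v‖ = N * ‖v‖ := by
  rw [norm_smul, ← Rat.norm_cast_real, Rat.cast_natCast, Real.norm_natCast]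

theorem Sy.near {χ : Ch Γ} (s : Sy A χ) {Hs : Set Γ} (hH : Hs.Finite) : ∃ η : ℝ, 0 < η ∧
    ∀ h ∈ Hs, ∀ r : ℕ, ∀ y ∈ s.Y, ∀ u ∈ Zn n, ‖(r : ℚ) • y 1 - u‖ < η → ‖tor ((r : ℚ) • y h)‖ < η →
      (r : ℚ) • y h - A.l h⁻¹ ((r : ℚ) • y 1 - u) ∈ Zn n ∧
        ‖A.l h⁻¹ ((r : ℚ) • y 1 - u)‖ < 1 / 4 := by
  refine ((eventually_mem_nhdsWithin (a := (0 : ℝ)) (s := Set.Ioi 0)).and
    ((eventually_all_finite hH).2 fun h _ => ?_)).exists
  obtain ⟨N, a1, a2⟩ := s.rel h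
  obtain ⟨M, b1, b2⟩ := den (A.l h⁻¹)
  obtain ⟨c, c1, c2⟩ := lin_bd (A.l h⁻¹)
  filter_upwards [Ioc_mem_nhdsGT (show 0 < 1 / (4 * (N * M : ℕ) * (1 + c)) by positivity)]
    with η e r y k u d f g
  obtain ⟨u', g1, g2⟩ := near_zn g
  have e1 : (1 : ℝ) ≤ (N * M : ℕ) := by exact_mod_cast Nat.mul_pos a1 b1
  have e2 := (le_div_iff₀ (by positivity)).1 e.2
  have e3 := (c2 _).trans_lt (mul_lt_mul_of_pos_left f c1)
  have e4 := e.1
  refine ⟨?_, by nlinarith [mul_pos e4 c1]⟩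
  have : ((N * M : ℕ) : ℚ) • ((r : ℚ) • y h - u' - A.l h⁻¹ ((r : ℚ) • y 1 - u)) = 0 := by
    refine zn_small ?_ ?_
    · convert add_mem (sub_mem (zn_nat (a2 y k 1) (r * M)) (zn_nat g1 (N * M)))
        (zn_nat (b2 u d) N) using 1
      simp only [one_mul, map_sub, map_smul]
      push_cast
      module
    · rw [norm_nat]
      nlinarith [norm_sub_le ((r : ℚ) • y h - u') (A.l h⁻¹ ((r : ℚ) • y 1 - u))]
  rw [smul_eq_zero, sub_right_comm, sub_eq_zero] at this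
  exact this.resolve_left (by positivity) ▸ g1

variable (A) in
/-- The system attached to a bound for denominators. -/
def Sy.of {χ : Ch Γ} {t : Γ} (ht : χ t = 1) (N : ℕ) (hN : 0 < N) : Sy A χ where
  Y := {y | (∀ g d, χ d = 0 → y (g * d) = A.l d⁻¹ (y g)) ∧
    ∀ g, (N : ℚ) • (y (g * t) - A.l t⁻¹ (y g)) ∈ Zn n}
  inv y k h := ⟨fun g d e => by simpa only [mul_assoc] using k.1 (h * g) d e,
    fun g => by simpa only [mul_assoc] using k.2 (h * g)⟩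
  ker _ k := k.1
  rel a := by
    generalize hY : {y : Γ → Fin n → ℚ | (∀ g d, χ d = 0 → y (g * d) = A.l d⁻¹ (y g)) ∧
      ∀ g, (N : ℚ) • (y (g * t) - A.l t⁻¹ (y g)) ∈ Zn n} = Y
    let K : Subgroup Γ :=
      { carrier := {a | ∃ N : ℕ, 0 < N ∧ ∀ y ∈ Y, ∀ g,
          (N : ℚ) • (y (g * a) - A.l a⁻¹ (y g)) ∈ Zn n}
        one_mem' := ⟨1, one_pos, fun y _ g => by simp [A.l_one]⟩
        mul_mem' := fun {a b} ⟨N, a1, a2⟩ ⟨M, b1, b2⟩ => by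
          obtain ⟨L, c1, c2⟩ := den (A.l b⁻¹)
          refine ⟨N * M * L, by positivity, fun y k g => ?_⟩
          convert add_mem (zn_nat (b2 y k (g * a)) (N * L)) (zn_nat (c2 _ (a2 y k g)) M) using 1
          simp only [mul_inv_rev, A.l_mul, mul_assoc, map_sub, map_smul]
          push_cast
          module
        inv_mem' := fun {a} ⟨N, a1, a2⟩ => by
          obtain ⟨L, c1, c2⟩ := den (A.l a)
          refine ⟨N * L, by positivity, fun y k g => ?_⟩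
          convert neg_mem (c2 _ (a2 y k (g * a⁻¹))) using 1
          simp only [inv_inv, inv_mul_cancel_right, map_sub, map_smul, A.l_inv]
          push_cast
          module }
    subst hY
    have : t ^ χ a * ((t ^ χ a)⁻¹ * a) ∈ K :=
      mul_mem (zpow_mem (show t ∈ K from ⟨N, hN, fun y k => k.2⟩) _)
        ⟨1, one_pos, fun y k g => by rw [k.1 g _ (by simp [ht]), sub_self]; simp⟩
    rwa [mul_inv_cancel_left] at this

variable (A) in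
theorem den' (g : Γ) : ∃ N : ℕ, 0 < N ∧ (∀ v ∈ Zn n, (N : ℚ) • A.l g v ∈ Zn n) ∧
    (N : ℚ) • g • (0 : Fin n → ℚ) ∈ Zn n := by
  obtain ⟨N, a1, a2⟩ := den (A.l g)
  obtain ⟨M, b1, b2⟩ := ex_mul zn_span (Submodule.fg_span_singleton (g • (0 : Fin n → ℚ)))
  refine ⟨M * N, by positivity, fun v k => ?_, ?_⟩
  · rw [Nat.cast_mul, mul_smul]
    exact zn_nat (a2 v k) M
  · rw [mul_comm, Nat.cast_mul, mul_smul]
    refine zn_nat ?_ N
    simpa only [Nat.cast_smul_eq_nsmul, natCast_zsmul] using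
      b2 _ (Submodule.mem_span_singleton_self _)

theorem loc_inv {p N : ℕ} {g : Γ} (k : N.Coprime p) (h : ∀ v ∈ Zn n, (N : ℚ) • A.l g v ∈ Zn n)
    (h' : (N : ℚ) • g • (0 : Fin n → ℚ) ∈ Zn n) (v) (a : v ∈ Loc (Zn n) p) :
    g • v ∈ Loc (Zn n) p := by
  obtain ⟨m, b, c⟩ := a
  refine ⟨m * N, b.mul_left k, ?_⟩
  convert add_mem (h _ c) (zn_nat h' m) using 1
  rw [A.smul_eq, map_zsmul]
  generalize g • (0 : Fin n → ℚ) = x
  module

namespace Md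

variable {p : ℕ} [Fact p.Prime] (M : Md Γ (Zn n) p)

/-- The lift of a point to the lattice of a vertex. -/
noncomputable def lf (e : M.E) (u : Γ) : Fin n → ℚ := u • (M.surj (u⁻¹ • e)).choose

theorem key (e : M.E) {u u' : Γ} {N : ℕ} (h : ∀ v ∈ Zn n, (N : ℚ) • (u'⁻¹ * u) • v ∈ Zn n) :
    (N : ℚ) • (p : ℚ)⁻¹ • A.l u'⁻¹ (M.lf e u' - M.lf e u) ∈ Zn n := by
  obtain ⟨a1, a2⟩ := (M.surj (u⁻¹ • e)).choose_spec
  obtain ⟨b1, b2⟩ := (M.surj (u'⁻¹ • e)).choose_spec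
  rw [← A.h, lf, lf, inv_smul_smul, ← mul_smul u'⁻¹]
  generalize (M.surj (u⁻¹ • e)).choose = z at *
  generalize (M.surj (u'⁻¹ • e)).choose = z' at *
  have c := M.inv (u'⁻¹ * u) z (le_loc a1)
  obtain ⟨w, d, f⟩ := M.ker ((N : ℤ) • (z' - (u'⁻¹ * u) • z)) (by
    convert sub_mem (zn_nat b1 N) (h z a1) using 1
    generalize (u'⁻¹ * u) • z = x
    module) (by
      rw [M.nsmul (sub_mem (le_loc b1) c), M.sub (le_loc b1) c, M.smul _ _ (le_loc a1), a2, b2]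
      simp [mul_smul])
  convert d using 1
  have : (p : ℚ) ≠ 0 := Nat.cast_ne_zero.2 (Fact.out : p.Prime).ne_zero
  rw [smul_comm (N : ℚ), inv_smul_eq_iff₀ this, ← f, Nat.cast_smul_eq_nsmul, natCast_zsmul]

variable {H : Ht Γ}

variable (A) in
/-- Scaled positions. -/
noncomputable def pos (y : H.WL M.E) (g : Γ) : Fin n → ℚ :=
  (p : ℚ)⁻¹ • A.l g⁻¹ (y.γ⁻¹ • M.lf y.e (y.w (H.χ y.γ + H.χ g)))

theorem pos_smul (k : Γ) (y : H.WL M.E) : M.pos A (k • y) = M.pos A y := funext fun g => by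
  simp [pos, lf, mul_smul, add_assoc]

theorem pos_rel (hl : ∀ g, H.χ g = 0 → ∀ v ∈ Zn n, A.l g v ∈ Zn n) {y y' : H.WL M.E}
    (e : y.e = y'.e) {g g' : Γ} {N : ℕ} (h : ∀ v ∈ Zn n, (N : ℚ) •
      ((y'.w (H.χ y'.γ + H.χ g'))⁻¹ * y.w (H.χ y.γ + H.χ g)) • v ∈ Zn n) :
    (N : ℚ) • (M.pos A y' g' - A.l (g'⁻¹ * y'.γ⁻¹ * y.γ * g) (M.pos A y g) -
      (p : ℚ)⁻¹ • A.l g'⁻¹ ((y'.γ⁻¹ * y.γ) • 0)) ∈ Zn n := by
  convert hl (g'⁻¹ * y'.γ⁻¹ * y'.w (H.χ y'.γ + H.χ g')) (by simp [y'.lv]) _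
    (M.key (A := A) y.e h) using 1
  rw [pos, pos, e]
  generalize M.lf y'.e (y'.w _) = z', M.lf y'.e (y.w _) = z
  simp only [map_smul, A.l_mul, A.l_inv]
  rw [← A.l_mul y'.γ⁻¹, ← A.h y'.γ⁻¹, ← sub_zero (y.γ⁻¹ • z), ← A.h, mul_smul, smul_inv_smul]
  simp only [map_sub]
  module

end Md

/-- The levels. -/
@[ext] structure Ch.Lv (χ : Ch Γ) : Type where
  k : ℤ

instance (χ : Ch Γ) : MulAction Γ χ.Lv where
  smul g k := ⟨χ g + k.k⟩
  one_smul k := Ch.Lv.ext (show χ 1 + k.k = _ by simp)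
  mul_smul a b k := Ch.Lv.ext (show χ (a * b) + k.k = χ a + (χ b + k.k) by simp [add_assoc])

namespace Md

variable {p : ℕ} [Fact p.Prime] (M : Md Γ (Zn n) p) {H : Ht Γ}

variable (A) in
/-- The labels. -/
def Lab (r : ℕ) (c : ℤ) (K : Fin (n + 2) → Set (Γ → Fin n → ℚ)) :
    Option (Fin (n + 2) × Fin 4) → H.WL M.E → (Fin n → ℚ) ⊕ H.χ.Lv → Prop
  | none, y, U => ∃ ζ, U = .inl ζ ∧ (r : ℚ) • M.pos A y 1 - (r / p : ℚ) • y.γ⁻¹ • ζ ∈ Zn n ∧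
      ‖(r / p : ℚ) • y.γ⁻¹ • ζ‖ < 1 / 2
  | some i, y, U => ∃ g, U = .inr ⟨H.χ y.γ + H.χ g⟩ ∧
      |H.χ g - c * (2 * (i.2 : ℕ) - 3)| ≤ 2 * c ∧ (fun x => M.pos A y (g * x)) ∈ K i.1

variable {M} {r : ℕ} {c : ℤ} {K : Fin (n + 2) → Set (Γ → Fin n → ℚ)}

theorem Lab.uniq (hr : 0 < r) (hK : ∀ i (y : Γ → Fin n → ℚ) g k, |H.χ g - H.χ k| ≤ 4 * c →
    (fun x => y (g * x)) ∈ K i → (fun x => y (k * x)) ∈ K i → H.χ g = H.χ k) :
    ∀ i (y : H.WL M.E) U U', M.Lab A r c K i y U → M.Lab A r c K i y U' → U = U'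
  | none, y, _, _, ⟨ζ, rfl, a, b⟩, ⟨ζ', rfl, a', b'⟩ => by
    have p0 := (Fact.out : p.Prime).pos
    have := zn_small (sub_mem a a') (by
      rw [sub_sub_sub_cancel_left]
      linarith [norm_sub_le ((r / p : ℚ) • y.γ⁻¹ • ζ') ((r / p : ℚ) • y.γ⁻¹ • ζ)])
    rw [sub_sub_sub_cancel_left, sub_eq_zero, smul_right_inj (by positivity),
      smul_left_cancel_iff] at this
    rw [this]
  | some i, y, _, _, ⟨g, rfl, a, b⟩, ⟨g', rfl, a', b'⟩ => by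
    rw [hK i.1 _ g g' (by rw [abs_le] at *; omega) b b']

theorem Lab.smul : ∀ i (k : Γ) (y : H.WL M.E) U, M.Lab A r c K i y U →
    M.Lab A r c K i (k • y) (k • U)
  | none, k, y, _, ⟨ζ, rfl, a⟩ => ⟨k • ζ, rfl, by simpa [pos_smul, mul_smul] using a⟩
  | some i, k, y, _, ⟨g, rfl, a⟩ => ⟨g, congrArg Sum.inr (Ch.Lv.ext (show H.χ k +
      (H.χ y.γ + H.χ g) = H.χ (k * y.γ) + H.χ g by simp [add_assoc])), by simpa [pos_smul] using a⟩

end Md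

namespace Ht

variable {H : Ht Γ} {E : Type} [MulAction Γ E] {T : Set Γ} {a : ℕ}

/-- Neighbouring locations. -/
def Nb (T : Set Γ) (a : ℕ) (x y : H.WL E) : Prop := x.e = y.e ∧ x.γ⁻¹ * y.γ ∈ T ∧
  ∀ k, |k - H.χ x.γ| ≤ a → |k - H.χ y.γ| ≤ a → Ag x y k

theorem Nb.smul (g : Γ) (x y : H.WL E) (h : Nb T a x y) : Nb T a (g • x) (g • y) :=
  ⟨congrArg (g • ·) h.1, by simpa [mul_assoc] using h.2.1, fun k c d => ag_smul.2
    (h.2.2 _ (by simpa [sub_sub] using c) (by simpa [sub_sub] using d))⟩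

omit [MulAction Γ E] in
theorem nb_pth {c : ℤ} (hc : ∀ g ∈ T, |H.χ g| ≤ c) {j : ℕ} (c0 : 0 ≤ c) :
    ∀ {x y : H.WL E}, Pth (Nb T a) j x y → ∀ k, |k - H.χ x.γ| + j * c ≤ a → Ag x y k := by
  induction j with
  | zero => rintro x _ rfl; exact fun _ _ => .refl
  | succ j ih =>
    rintro x y ⟨z, d, e⟩ k f
    have := hc _ d.2.1
    have h1 : |k - H.χ z.γ| ≤ |k - H.χ x.γ| + c := by
      simp only [Ch.mul, Ch.inv, abs_le] at this ⊢
      constructor <;> linarith [le_abs_self (k - H.χ x.γ), neg_abs_le (k - H.χ x.γ)]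
    have : 0 ≤ j * c := by positivity
    push_cast at f
    exact (d.2.2 k (by linarith) (by linarith)).trans (ih e k (by linarith))

end Ht

theorem ex_ctr {c j : ℤ} (h : |j| ≤ 4 * c) : ∃ i : Fin 4, |j - c * (2 * (i : ℕ) - 3)| ≤ c := by
  simp only [abs_le, Fin.exists_fin_succ] at *
  simp
  omega

theorem ev_small {J : Type*} {F : Set J} (h : F.Finite) (v : J → Fin n → ℚ) {ε : ℝ} (e : 0 < ε) :
    ∃ b : ℕ, ∀ p : ℕ, b < p → ∀ j ∈ F, ‖(p : ℚ)⁻¹ • v j‖ < ε := by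
  obtain ⟨d, hd⟩ := (h.image fun j => ‖v j‖).bddAbove
  obtain ⟨b, hb⟩ := exists_nat_gt (d / ε)
  refine ⟨b, fun p k j c => ?_⟩
  have p0 : (0 : ℝ) < p := Nat.cast_pos.2 (by omega)
  rw [norm_smul, norm_inv, ← Rat.norm_cast_real, Rat.cast_natCast, Real.norm_natCast,
    inv_mul_lt_iff₀ p0]
  have : (b : ℝ) < p := Nat.cast_lt.2 k
  rw [div_lt_iff₀ e] at hb
  nlinarith [hd ⟨j, c, rfl⟩]

end Pool.Agent.Lib.MP_5d3e93_al
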