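import Pool.Agent.Lib.MP_5d3e93_al.Cover

/-! Homogeneous isomorphisms are trivial when `K0` and `K1` of the coefficients vanish. -/

open CategoryTheory Limits

namespace Pool.Agent.Lib.MP_5d3e93_al

universe w w' v u

variable {G : Type w} [Group G] {C : Type u} [Category.{v} C] [Preadditive C]

namespace GC

variable {S : GC G C} {A B D : C}

theorem HIso.comp {g h k : G} {f : A ⟶ B} {f' : B ⟶ D} (a : S.HIso g f) (b : S.HIso h f')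
    (e : g * h = k) : S.HIso k (f ≫ f') := by
  obtain ⟨a1, x, a2, a3, a4⟩ := a
  obtain ⟨b1, y, b2, b3, b4⟩ := b
  exact ⟨a1.comp b1 (by simpa using e), y ≫ x, b2.comp a2 (by simp [← e]),
    by simp [reassoc_of% b3, a3], by simp [reassoc_of% a4, b4]⟩

theorem HIso.symm {g : G} {f : A ⟶ B} (a : S.HIso g f) :
    ∃ f', S.HIso g⁻¹ f' ∧ f ≫ f' = 𝟙 A ∧ f' ≫ f = 𝟙 B := by
  obtain ⟨a1, x, a2, a3, a4⟩ := a
  exact ⟨x, ⟨a2, f, by simpa using a1, a4, a3⟩, a3, a4⟩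

theorem Th.two {θ : S.Th} {φ φ' : A ⟶ A} (e : φ ≫ φ' = 𝟙 A) (e' : φ' ≫ φ = 𝟙 A) {i i' : A ⟶ B}
    {r r' : B ⟶ A} (h : i ≫ r = 𝟙 A) (h' : i' ≫ r' = 𝟙 A) :
    θ.St ((r' ≫ φ' ≫ i' + (𝟙 B - r' ≫ i')) ≫ (r ≫ φ ≫ i + (𝟙 B - r ≫ i))) := by
  have z : ∀ {i : A ⟶ B} {r : B ⟶ A}, i ≫ r = 𝟙 A →
      S.blk (𝟙 B - r ≫ i) r i 0 ≫ S.blk (𝟙 B - r ≫ i) r i 0 = 𝟙 _ := fun h => by
    simp [h, reassoc_of% h]
  have b : S.blk (𝟙 B) 0 0 φ ≫ S.blk (𝟙 B) 0 0 φ' = 𝟙 _ := by simp [e]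
  have b' : S.blk (𝟙 B) 0 0 φ' ≫ S.blk (𝟙 B) 0 0 φ = 𝟙 _ := by simp [e']
  have := θ.comp (θ.comm (z h') (z h') b' b) (θ.comm b' b (z h) (z h))
  simp only [Category.assoc, reassoc_of% b] at this
  refine ⟨A, ?_⟩
  convert this using 1
  have k : ∀ {i : A ⟶ B} {r : B ⟶ A} (x : A ⟶ A), i ≫ r = 𝟙 A →
      S.blk (𝟙 B - r ≫ i) r i 0 ≫ S.blk (𝟙 B) 0 0 x ≫ S.blk (𝟙 B - r ≫ i) r i 0 =
        S.blk (r ≫ x ≫ i + (𝟙 B - r ≫ i)) 0 0 (𝟙 A) := fun x h => by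
    simp [h, reassoc_of% h, add_comm]
  rw [reassoc_of% k φ' h', k φ h]
  simp only [blk_comp, Limits.comp_zero, Limits.zero_comp, add_zero, zero_add, Category.comp_id]

theorem Th.zt_hom {θ : S.Th} (h0 : ∀ A B, ∃ (E : C) (c : S.sum B E ⟶ S.sum A E), S.HIso 1 c)
    {g : G} {f : A ⟶ B} (hf : S.HIso g f) : θ.Zt f := by
  obtain ⟨D, c, hc⟩ := h0 A (S.sum A A)
  obtain ⟨D', k, k', t1, t2, t3, t4⟩ := S.shift D g
  have hF := hf.bd (HIso.of_shift t1 t2 t3 t4)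
  have h1 := (S.hiso_asc' A A D).comp hc (one_mul 1)
  generalize S.blk f 0 0 k = F, S.asc' A A D ≫ c = c0 at hF h1
  generalize S.sum A D = X, S.sum B D' = Y at F hF c0 h1
  obtain ⟨F', a1, a2, a3⟩ := hF.symm
  obtain ⟨f', b1, b2, b3⟩ := hf.symm
  obtain ⟨E, e, he⟩ := h0 X Y
  obtain ⟨e', c1, c2, c3⟩ := he.symm
  have h2 := (S.hiso_asc' A X E).comp (h1.bd (S.hiso_id E)) (one_mul 1)
  obtain ⟨κ', d1, d2, d3⟩ := h2.symm
  rw [inv_one] at c1 d1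
  have h3 := (b1.bd a1).comp (h1.comp hF (one_mul g)) (inv_mul_cancel g)
  have := (Th.two (θ := θ) (φ := S.blk F 0 0 (𝟙 E) ≫ e) (φ' := e' ≫ S.blk F' 0 0 (𝟙 E))
    (by simp [reassoc_of% c2, a2]) (by
      have : S.blk F' 0 0 (𝟙 E) ≫ S.blk F 0 0 (𝟙 E) = 𝟙 _ := by simp [a3]
      simp only [Category.assoc, reassoc_of% this, c3]) d3 (S.inr_snd A _)).conj1
    (c := S.blk (𝟙 A) 0 0 e') (c' := S.blk (𝟙 A) 0 0 e) ((S.hiso_id A).bd c1).1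
    ((S.hiso_id A).bd he).1 (by simp [c3]) (by simp [c2])
  refine ⟨_, _, (S.hiso_asc' B Y E).comp ((h3.bd (S.hiso_id E)).comp (he.comp (d1.comp
    ((S.hiso_id A).bd c1) (one_mul 1)) (one_mul 1)) (one_mul 1)) (one_mul 1), ?_⟩
  convert this using 1
  rw [d2, sub_self, add_zero]
  simp only [← Category.assoc]
  congr 3
  apply S.hom_ext <;> simp [asc', reassoc_of% b2, reassoc_of% c2]

theorem k1_of_W' (h0 : ∀ A B, ∃ (E : C) (c : S.sum B E ⟶ S.sum A E), S.HIso 1 c)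
    (hc : ∀ (X : C) (a : X ⟶ X), S.HIso 1 a → S.cmTh.St a) (hW : S.W ⊤) : K1Zero C := by
  intro A a
  obtain ⟨E, b, hb, e⟩ := Th.st_of_tr (θ := S.cmTh) (fun f hf => hc _ f hf)
    (fun g _ A B f hf => Th.zt_hom h0 hf)
    (hW A A a.hom ⟨S.sup_top _, a.inv, S.sup_top _, a.hom_inv_id, a.inv_hom_id⟩)
  exact ⟨_, E, S.inl _ _, S.fst _ _, S.inr _ _, S.snd _ _, by simp, by simp, S.total _ _, b, hb,
    by simp [e, blk]⟩

end GC

open Tw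

variable [HasBinaryBiproducts C] {ρ : Act G C} {Γ : Type w'} [Group Γ]

theorem range_prod (j : Γ →* G) : (j.prodMap (MonoidHom.id Zi)).range = j.range.prod ⊤ := by
  rw [MonoidHom.range_prodMap, (MonoidHom.range_eq_top (f := MonoidHom.id Zi)).2
    Function.surjective_id]

theorem W_of_inj (h0 : K0Zero C) {j : Γ →* G} (hj : Function.Injective j)
    (hK : K1Zero (TwZ (ρ.comap j))) :
    (twGC (ρ.comap (MonoidHom.fst G Zi))).W (j.range.prod ⊤) := by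
  have := push_faithful (ρ := ρ.comap (MonoidHom.fst G Zi))
    (j := j.prodMap (MonoidHom.id Zi)) (hj.prodMap Function.injective_id)
  have hK' : K1Zero (Tw ((ρ.comap (MonoidHom.fst G Zi)).comap (j.prodMap (MonoidHom.id Zi)))) := hK
  rw [← range_prod]
  exact GC.W_of_k1 (pushF _) (fun A => ⟨⟨A.as⟩, rfl⟩) sup_push push_surj hK' (k0_hiso h0)

theorem K1_of_W' (h0 : K0Zero C) {j : Γ →* G} (hj : Function.Injective j)
    (hK : K1Zero (TwZ (ρ.comap j))) (hW : (twGC (ρ.comap (MonoidHom.fst G Zi))).W ⊤) :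
    K1Zero (TwZ ρ) := by
  refine GC.k1_of_W' (k0_hiso h0) (fun X a ha => ?_) hW
  have := push_faithful (ρ := ρ.comap (MonoidHom.fst G Zi))
    (j := j.prodMap (MonoidHom.id Zi)) (hj.prodMap Function.injective_id)
  have hK' : K1Zero (Tw ((ρ.comap (MonoidHom.fst G Zi)).comap (j.prodMap (MonoidHom.id Zi)))) := hK
  exact GC.st_of_k1 (pushF _) (fun A => ⟨⟨A.as⟩, rfl⟩) sup_push push_surj hK' (ha.iso (one_mem _))

theorem K1_of_bij (h0 : K0Zero C) {j : Γ →* G} (hj : Function.Bijective j)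
    (hK : K1Zero (TwZ (ρ.comap j))) : K1Zero (TwZ ρ) := by
  refine K1_of_W' h0 hj.1 hK ?_
  have := W_of_inj h0 hj.1 hK
  rwa [MonoidHom.range_eq_top.2 hj.2, Subgroup.top_prod_top] at this

end Pool.Agent.Lib.MP_5d3e93_al
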