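import Pool.Agent.Lib.MP_5d3e93_al.G3

/-! Nil terms of hyperbolic commensurations. -/

open CategoryTheory MulAction
open scoped Pointwise

namespace Pool.Agent.Lib.MP_5d3e93_al

universe w v u

variable {n : ℕ} {Γ : Type w} [Group Γ] [MulAction Γ (Fin n → ℚ)] {A : AA Γ ℚ (Fin n → ℚ)}

namespace GC

open Lo Ht

variable {C : Type u} [Category.{v} C] [Preadditive C] {S : GC (Γ × Zi) C} {H : Ht Γ}

theorem nl_hyp (h : S.Ok) (hΛ : ∀ d ∈ H.D, ∀ v ∈ Zn n, d • v ∈ Zn n)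
    (hl : ∀ g, H.χ g = 0 → ∀ v ∈ Zn n, A.l g v ∈ Zn n) (hf : (A.l '' {g | H.χ g = 0}).Finite)
    (hy : ∀ g, H.χ g ≠ 0 → ∀ v, A.l g v = v → v = 0)
    (hW : ∀ ζ : Fin n → ℚ, ∀ K ≤ stabilizer Γ ζ, S.V K)
    (hW0 : ∀ K : Subgroup Γ, (∀ g ∈ K, H.χ g = 0) → S.V K) {T : Set Γ} (t0 : T.Finite)
    (hT : T ⊆ dc H.D H.t) (m : ℕ) : ∃ a b : ℕ, ∀ (p : ℕ) [Fact p.Prime], b < p →
      ∀ M : Md Γ (Zn n) p, S.Nl S.nt (.fst Γ Zi) (R (H := H) (E := M.E) T a a) m fun _ => True := by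
  obtain ⟨T', t1, t2, t3, t4⟩ := ex_symm (T := (·, (1 : Zi)) '' ⋃ j ≤ m, T ^ j)
    (((Set.finite_le_nat m).biUnion fun j _ => fin_pow t0 j).image _)
  have bd {F : Set Γ} (k : F.Finite) : ∃ c : ℕ, ∀ g ∈ F, |H.χ g| ≤ c := by
    obtain ⟨c, hc⟩ := (k.image fun g => (H.χ g).natAbs).bddAbove
    exact ⟨c, fun g e => by
      have : (H.χ g).natAbs ≤ c := hc ⟨g, e, rfl⟩
      have := Int.natCast_natAbs (H.χ g)
      omega⟩
  generalize hρ : kap (Fintype.card (Option (Fin (n + 2) × Fin 4))) + 1 = ρ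
  obtain ⟨c, hc⟩ := bd t1
  obtain ⟨c', hc'⟩ := bd (fin_pow t1 ρ)
  obtain ⟨N, n1, n2, n3⟩ := den' A H.t⁻¹
  have n4 (g) (k : g ∈ dc H.D H.t) (v) (e : v ∈ Zn n) : (N : ℚ) • g⁻¹ • v ∈ Zn n := by
    obtain ⟨d, a, d', b, rfl⟩ := k
    have := hΛ _ (inv_mem a) v e
    rw [mul_inv_rev, mul_inv_rev, mul_smul, mul_smul, A.smul_eq, smul_add, ← map_smul,
      A.smul_eq H.t⁻¹, smul_add]
    exact add_mem (hl _ (by simp [H.hD d' b]) _ (add_mem (n2 _ this) n3))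
      (zn_nat (hΛ _ (inv_mem b) 0 (zero_mem _)) N)
  let s := Sy.of A H.ht N n1
  obtain ⟨r, r0, hr⟩ := s.cover H.ht hf hy (4 * c') (by positivity) (fin_pow t1 ρ)
  obtain ⟨η, e0, hη⟩ := s.near ((fin_pow t1 ρ).insert 1)
  obtain ⟨K, Φ, ε, k1, k2, k3, k4⟩ := hr η e0
  obtain ⟨c'', hc''⟩ := bd k1
  obtain ⟨b1, hb1⟩ := ev_small ((fin_pow t1 ρ).prod k1)
    (fun x => A.l (x.1⁻¹ * x.2)⁻¹ (x.1⁻¹ • (0 : Fin n → ℚ))) k2
  obtain ⟨b2, hb2⟩ := ev_small (fin_pow t1 ρ) (fun x => (r : ℚ) • x⁻¹ • (0 : Fin n → ℚ))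
    (ε := 1 / 4) (by positivity)
  refine ⟨c' + c'' + ρ * c, max b1 b2, fun p hp k M X L x _ x1 x2 => ?_⟩
  generalize ha : c' + c'' + ρ * c = a at x1
  have p0 : (p : ℚ) ≠ 0 := Nat.cast_ne_zero.2 hp.out.ne_zero
  have y1 (j) (e : j ≤ m) : L.Rg L (fun x g y => Nb T' a x (g.1 • y)) (pw x j) :=
    (x1.pw R.smul j).mono fun x g y d => ⟨pth_eq WL.e (fun _ _ f => f.1) d,
      t4 (_, 1) ⟨_, Set.mem_biUnion e (pth_grp WL.γ (fun _ _ f => f.2.1) d), rfl⟩, fun k f f' =>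
        (pth hT d).2 k (by
          have := (pth hT d).1
          rw [abs_le] at f'
          change H.χ (g.1 • y).γ = _ at this
          omega) (by rw [abs_le] at f; omega)⟩
  have y2 (y : H.WL M.E) : M.pos A y ∈ s.Y := ⟨fun g d e => by simp [Md.pos, e, A.l_mul],
    fun g => by
      have := M.pos_rel (A := A) hl (y := y) (g := g) (g' := g * H.t) (N := N) rfl fun v e => by
        simpa [H.ht, add_assoc] using n4 _ (y.up (H.χ y.γ + H.χ g)) v e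
      simpa [mul_assoc] using this⟩
  have y3 {y y' : H.WL M.E} (d : Pth (Nb T' a) ρ y y') (g) (e : |H.χ g| ≤ c' + c'') :
      M.pos A y' ((y.γ⁻¹ * y'.γ)⁻¹ * g) - M.pos A y g -
        (p : ℚ)⁻¹ • A.l ((y.γ⁻¹ * y'.γ)⁻¹ * g)⁻¹ ((y.γ⁻¹ * y'.γ)⁻¹ • 0) ∈ Zn n := by
    have := M.pos_rel (A := A) hl (pth_eq WL.e (fun _ _ f => f.1) d) (g := g)
      (g' := (y.γ⁻¹ * y'.γ)⁻¹ * g) (N := 1) fun v f => by
        rw [show H.χ y'.γ + H.χ ((y.γ⁻¹ * y'.γ)⁻¹ * g) = H.χ y.γ + H.χ g by simp; ring]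
        simpa using hΛ _ (nb_pth hc (by positivity) d (H.χ y.γ + H.χ g) (by
          rw [← ha]; push_cast; simp; linarith)).symm v f
    simpa [mul_assoc, A.l_one] using this
  refine h.ctrl (I := (Fin n → ℚ) ⊕ H.χ.Lv) ?_ (ρ := Nb T' a)
    (fun y => ⟨rfl, by simpa, fun _ _ _ => .refl⟩) (fun x y d => ⟨d.1.symm, by simpa using t3 _ d.2.1,
      fun k e f => (d.2.2 k f e).symm⟩) Nb.smul (M.Lab A r c' K) (Md.Lab.uniq r0 k3) Md.Lab.smul
    (α := fun _ => True) (fun y _ => ?_) L.on_true L.on_true (v := ∑ j ∈ Finset.range (m + 1), pw x j)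
    ?_ (.sum _ fun j e => y1 j (Nat.lt_succ_iff.1 (Finset.mem_range.1 e)))
    (by rw [geom_left, x2, sub_zero]) (by rw [geom_right, x2, sub_zero])
  · rintro (ζ | l) U d
    · exact hW ζ U fun g e => Sum.inl_injective (d e)
    · exact hW0 U fun g e => by
        simpa using show H.χ g + l.k = l.k from congrArg Ch.Lv.k (Sum.inr_injective (d e))
  · rw [hρ]
    have y4 {y' : H.WL M.E} (d : Pth (Nb T' a) ρ y y') := pth_grp WL.γ (fun _ _ f => f.2.1) d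
    obtain d | ⟨i, g, d, e⟩ := k4 _ (y2 y)
    · obtain ⟨u, u1, u2⟩ := near_zn (d _ (by simpa using y4 (Pth.succ (fun y =>
        ⟨rfl, by simpa, fun _ _ _ => .refl⟩) (Nat.zero_le ρ) rfl)))
      refine ⟨none, .inl (y.γ • (p / r : ℚ) • ((r : ℚ) • M.pos A y 1 - u)), fun y' e => ?_⟩
      obtain ⟨f1, f2⟩ := hη _ (.inr (y4 e)) r _ (y2 y) u u1 u2 (d _ (y4 e))
      have f3 := zn_nat (y3 e _ ((hc' _ (y4 e)).trans (by omega))) r
      have f4 := hb2 p ((le_max_right _ _).trans_lt k) _ (y4 e)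
      have f5 : (r / p : ℚ) • y'.γ⁻¹ • y.γ • (p / r : ℚ) • ((r : ℚ) • M.pos A y 1 - u) =
          A.l (y.γ⁻¹ * y'.γ)⁻¹ ((r : ℚ) • M.pos A y 1 - u) +
            (p : ℚ)⁻¹ • (r : ℚ) • (y.γ⁻¹ * y'.γ)⁻¹ • 0 := by
        have : (r : ℚ) ≠ 0 := by positivity
        rw [← mul_smul y'.γ⁻¹, A.smul_eq, map_smul, mul_inv_rev, inv_inv]
        generalize (y'.γ⁻¹ * y.γ) • (0 : Fin n → ℚ) = z
        match_scalars <;> field_simp
      refine ⟨_, rfl, ?_, ?_⟩ <;> rw [f5]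
      · rw [inv_mul_cancel, inv_one, A.l_one] at f3
        convert add_mem f3 f1 using 1
        generalize (y.γ⁻¹ * y'.γ)⁻¹ • (0 : Fin n → ℚ) = z
        module
      · exact (norm_add_le _ _).trans_lt (by linarith)
    · obtain ⟨j, f⟩ := ex_ctr d
      refine ⟨some (i, j), .inr ⟨H.χ y.γ + H.χ g⟩, fun y' f' =>
        ⟨(y.γ⁻¹ * y'.γ)⁻¹ * g, by simp; ring, ?_, ?_⟩⟩
      · have := hc' _ (y4 f')
        simp only [Ch.mul, Ch.inv, abs_le] at this f ⊢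
        omega
      · simpa only [mul_assoc] using e _ (s.inv _ (y2 y') (y.γ⁻¹ * y'.γ)⁻¹) fun z l => by
          rw [tor_congr (y3 f' z ((hc'' z l).trans (by omega)))]
          exact (tor_le _).trans_lt (hb1 p ((le_max_left _ _).trans_lt k) (_, z) ⟨y4 f', l⟩)
  · rcases m with _ | m
    · rw [show x = 0 by simpa [pw] using x2]
      simpa using y1 0 le_rfl
    · simpa [pw] using (y1 0 (by omega)).sub (y1 1 (by omega))

/-- Nil terms for hyperbolic commensurations. -/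
theorem G3 (h : S.Ok) (hg : Subgroup.closure (insert H.t H.D) = ⊤)
    (hΛ : ∀ d ∈ H.D, ∀ v ∈ Zn n, d • v ∈ Zn n) (hN : ∀ g, H.χ g = 0 → ∃ d ∈ H.D, A.l d = A.l g)
    (hf : (A.l '' H.D).Finite) (hy : ∀ g, H.χ g ≠ 0 → ∀ v, A.l g v = v → v = 0)
    (hW : ∀ ζ : Fin n → ℚ, ∀ K ≤ stabilizer Γ ζ, S.V K)
    (hW0 : ∀ K : Subgroup Γ, (∀ g ∈ K, H.χ g = 0) → S.V K) :
    S.Gd S.nt {g | g.1 ∈ dc H.D H.t} := by
  intro X x hx ⟨m, hm⟩
  have hd (d) (k : d ∈ H.D) (v) (e : v ∈ Zn n) : A.l d v ∈ Zn n := by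
    rw [← sub_zero v, ← A.h]
    exact sub_mem (hΛ d k v e) (hΛ d k 0 (zero_mem _))
  have hf' : (A.l '' {g | H.χ g = 0}).Finite := hf.subset (by
    rintro _ ⟨g, k, rfl⟩
    exact hN g k)
  obtain ⟨T, t0, t1, t2⟩ := hx.finite
  have hT : Prod.fst '' T ⊆ dc H.D H.t := Set.forall_mem_image.2 t1
  obtain ⟨a, b, hb⟩ := nl_hyp h hΛ (fun g k => by
    obtain ⟨d, e, f⟩ := hN g k
    exact f ▸ hd d e) hf' hy hW hW0 (t0.image _) hT m
  obtain ⟨F, f1, -, f3⟩ := reps H.ht hf' (2 * m + 2)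
  choose! N n1 n2 using fun (g : Γ) (k : H.χ g ≠ 0) => ex_mul'
    (fun _ : Unit => A.l g - (1 : ℚ) • LinearMap.id) zn_fg zn_span (by
      rw [iSup_const, LinearMap.range_eq_top, ← LinearMap.injective_iff_surjective,
        ← LinearMap.ker_eq_bot, LinearMap.ker_eq_bot']
      exact fun v e => hy g k v (by simpa [sub_eq_zero] using e))
  obtain ⟨b', hb'⟩ := (f1.image N).bddAbove
  obtain ⟨N1, a1, a2, a3⟩ := den' A H.t
  obtain ⟨N2, c1, c2, c3⟩ := den' A H.t⁻¹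
  refine tr_free (n := n) h (iso_unip (S.sup_top x) hm) (b + b' + N1 + N2) fun p hp k => ?_
  have co {N : ℕ} (a : 0 < N) (b : N < p) := (Nat.coprime_of_lt_prime a.ne' b hp.out).symm
  obtain ⟨M⟩ := Md.nonempty (p := p) A zn_fg fun g => by
    have : g ∈ Subgroup.closure (insert H.t H.D) := hg ▸ trivial
    have d0 (d) (k : d ∈ H.D) := loc_inv (A := A) (g := d) (Nat.coprime_one_left p)
      (by simpa using hd d k) (by simpa using hΛ d k 0 (zero_mem _))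
    induction this using Subgroup.closure_induction'' with
    | mem g e => exact e.elim (· ▸ loc_inv (co a1 (by omega)) a2 a3) (d0 g)
    | inv_mem g e => exact e.elim (· ▸ loc_inv (co c1 (by omega)) c2 c3) fun e => d0 _ (inv_mem e)
    | one => simp
    | mul g k _ _ e f => exact fun v d => mul_smul g k v ▸ e _ (f v d)
  have fr (g) (a : M.B.Du) (e : H.χ g ≠ 0) (e' : |H.χ g| ≤ m + 1)
      (f : g • a = a ∨ g • a = -a) : a = 0 := by
    obtain ⟨g', d1, d2, d3⟩ := f3 (g * g)⁻¹ (by rw [abs_le] at *; simp; omega)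
    have d4 : H.χ g' ≠ 0 := by simp [d2]; omega
    refine M.du_zero (fun _ : Unit => g') (fun _ => 1) a (fun _ => .inl ⟨rfl, ?_⟩)
      (co (n1 g' d4) (by have : _ ≤ b' := hb' ⟨g', d1, rfl⟩; omega)) (n2 g' d4)
    refine Eq.trans (DFunLike.ext _ ((g * g) • a) fun x => by
      rw [AA.du_smul, AA.du_smul, inv_inv, M.congr d3]) ?_
    rcases f with f | f <;> simp [mul_smul, f, AA.du_neg]
  refine ⟨M, fun a f => fr H.t a (by simp [H.ht]) (by simp [H.ht]) (f _), fun a => ?_,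
    fun a => a.nil H.χ H.ht (hx.mono fun g => H.chi) hm ?_⟩
  · rw [map_sub, a.id]
    refine win h.hz hT (hb p (by omega) M) _ (a.M.map fun e => ⟨e, 1, fun k => H.t ^ k, by simp,
      fun k => by convert self_mem_dc H.t using 1; group, by simp [H.ht]⟩) _ (on_true _)
      ((a.rg t2).map a.on a.on fun e g e' _ _ d => ⟨d.2, ⟨g, d.1, by simp⟩, fun k c c' => by
        simp at c c'; omega⟩) ?_
    rw [← a.pw, pw_succ, hm, Limits.comp_zero, map_zero]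
  · rintro _ ⟨l, l0, rfl⟩ g c c' e
    exact l0 (fr g l c.ne' (by rw [abs_le]; omega) (M.B.pm_fix e))

end GC

end Pool.Agent.Lib.MP_5d3e93_al
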