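import Pool.Agent.Lib.MP_5d3e93_al.Rd

/-! The transfinite induction over the radical series. -/

open CategoryTheory Limits MulAction HNNExtension
open scoped Pointwise

namespace Pool.Agent.Lib.MP_5d3e93_al

universe w w' v u

variable {C : Type u} [Category.{v} C] [Preadditive C] [HasBinaryBiproducts C]
variable {Γ : Type w} [Group Γ] {D : Subgroup Γ} {g : Γ}

omit [HasBinaryBiproducts C] in
theorem cov_hn {σ : Act Γ C} (h : K1Zero (TwZ (σ.comap (jj D g)))) : Cov σ D g :=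
  ⟨Hn D g, _, jj D g, Bs.E _, t, by
    rintro _ ⟨a, rfl⟩ _ ⟨b, rfl⟩ e
    rw [show a = b from Subtype.ext (by simpa using e)], by
    ext x
    simp [Bs.E], jj_t _ _, by
    rintro _ ⟨a, rfl⟩ e
    exact ⟨_, (conj_t (by simpa using e)).symm⟩, h⟩

theorem gd_hn {σ : Act Γ C} (hF : Fr D (dc D g)) (h : K1Zero (TwZ (σ.comap (jj D g)))) :
    (SZ σ).Gd (SZ σ).nt {k | k.1 ∈ dc D g} := by
  have := Cov.gd (g := (g, 1)) (cov_hn h) (dc_prod D (g, 1) ▸ ⟨fun d a b c => hF.left _ a.1 _ c,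
    fun d a b c => hF.right _ a.1 _ c, fun n a b a' b' w c w' c' e => ⟨hF.free n _ b _ b' _
      (pow_fst c) _ (pow_fst c') (congrArg Prod.fst e), trivial⟩⟩)
  rwa [dc_prod] at this

theorem vc_hn [Finite D] (h : cj D g = D) : (Subgroup.zpowers (t : Hn D g)).FiniteIndex := by
  have a (d : D) : g⁻¹ * d * g ∈ D := (mem_cj.1 (h.ge d.2)).2
  have b (d : D) : ∃ e : D, (t⁻¹ * of e * t : Hn D g) = of d := by
    obtain ⟨e, k⟩ := Finite.surjective_of_injective (f := fun d : D => (⟨_, a d⟩ : D))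
      (fun x y k => by simpa using k) d
    exact ⟨e, (conj_t (a e)).trans (congrArg of k)⟩
  refine fi_top.1 (fi_iff.2 ⟨_, Set.finite_range of, Set.subset_univ _, fun x k => ?_⟩)
  rw [← Bs.gen (pE D g)] at k
  induction k using Subgroup.closure_induction_left with
  | one => exact ⟨1, ⟨1, map_one _⟩, by simp⟩
  | mul_left x k y _ ih =>
    obtain ⟨_, ⟨d, rfl⟩, e⟩ := ih
    obtain rfl | ⟨c, rfl⟩ := k
    · obtain ⟨c, l⟩ := b d
      exact ⟨_, ⟨c, rfl⟩, by
        simpa [← l, mul_assoc, Bs.H] using mul_mem (Subgroup.mem_zpowers _) e⟩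
    · exact ⟨_, ⟨c * d, rfl⟩, by simpa [mul_assoc]⟩
  | inv_mul_cancel x k y _ ih =>
    obtain ⟨_, ⟨d, rfl⟩, e⟩ := ih
    obtain rfl | ⟨c, rfl⟩ := k
    · exact ⟨_, ⟨_, (conj_t (a d)).symm⟩, by
        simpa [mul_assoc, Bs.H] using mul_mem (inv_mem (Subgroup.mem_zpowers _)) e⟩
    · exact ⟨_, ⟨c⁻¹ * d, rfl⟩, by simpa [mul_assoc]⟩

theorem Hyper.equiv {Γ' : Type w} [Group Γ'] (h : Hyper Γ) (f : Γ ≃* Γ') : Hyper Γ' :=
  fun M _ k => by
  obtain ⟨N, a, b, c⟩ := h (M.comap f.toMonoidHom) fun e => k (top_le_iff.1 fun x _ => by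
    simpa using e.ge (Subgroup.mem_top (f.symm x)))
  let e := QuotientGroup.map _ M f.toMonoidHom le_rfl
  refine ⟨N.map e, a.map _ (QuotientGroup.map_surjective_of_surjective _ _ _
    (QuotientGroup.mk_surjective.comp f.surjective) _), fun l => b (eq_bot_iff.2 fun x o => ?_),
      fun H l o => ?_⟩
  · obtain ⟨x, rfl⟩ := QuotientGroup.mk_surjective x
    exact (QuotientGroup.eq_one_iff _).2 ((QuotientGroup.eq_one_iff (f x)).1 (l.le ⟨_, o, rfl⟩))
  · obtain ⟨L, r, s, rfl⟩ := fg_lift o l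
    exact (c L r s).imp fun _ d => pc_iff.2 (ps_sub.2 ((ps_sub.1 (pc_iff.1 d)).map e))

/-- The class of the theorem. -/
def LH : Cl.{w} := ⟨fun D _ => LocHyper D, fun f a b H c =>
  (b _ (fg_map c f)).equiv (H.equivMapOfInjective f a).symm⟩

variable {G : Type w'} [Group G] (ρ : Act G C)

/-- Vanishing for actions on trees with elliptic subgroups in the class. -/
def IH (s : Cl.{w}) : Prop := ∀ (Γ : Type w) [Group Γ], OT Γ (s.P ·) → AV ρ Γ

variable {ρ} (h0 : K0Zero C)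
include h0

theorem ih_loc {s : Cl.{w}} (h : ∀ (D : Type w) [Group D], s.P D → (⊤ : Subgroup D).FG →
    ∃ s' : Cl.{w}, s'.P D ∧ IH ρ s') : IH ρ s := fun _ _ k q => by
  refine TR h0 k (fun D a => K1_loc h0 fun H b => ?_) 0 fun D a g b => .inl (gd_fg b
    Set.finite_empty (Set.empty_subset _) fun D' c d _ => gd_of_K1 h0 ?_ _)
  · obtain ⟨s', c, d⟩ := h H (s.inj H.subtype H.subtype_injective (a 1 D (by simp)))
      (Group.fg_def.1 ((Group.fg_iff_subgroup_fg H).2 b))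
    exact av_small d c ((q.comp D.subtype).comp H.subtype)
  · obtain ⟨s', c, d⟩ := h D' (a 1 D' (by simpa)) (Group.fg_def.1 ((Group.fg_iff_subgroup_fg _).2 d))
    exact d _ ((Hn.ot D' g).mono fun _ ⟨b, _, _, e⟩ => Cl.map b le_rfl (Cl.conj e c))
      (q.comp (jj D' g))

theorem ih_fin (hV : ∀ (V : Type w) [Group V] (x : V), (Subgroup.zpowers x).FiniteIndex → AV ρ V) :
    IH.{w} ρ ⟨fun D _ => Finite D, fun _ a _ => .of_injective _ a⟩ := fun _ _ k q => by
  refine TR h0 k (fun D a => ?_) (fun D => Nat.card D) fun D a g b => ?_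
  all_goals have : Finite D := a 1 D (by simp)
  · exact hV D 1 inferInstance (q.comp D.subtype)
  · by_cases e : cj D g = D
    · exact .inl (gd_hn b (hV _ _ (vc_hn e) (q.comp (jj D g))))
    · exact .inr (Set.Finite.card_lt_card this (lt_of_le_of_ne inf_le_left e : cj D g < D))

variable [HasZeroObject C]

theorem ih_succ {β : Ordinal.{w}} {m : ℕ} (h : IH ρ (Sm β m)) : IH ρ (Sm β (m + 1)) :=
  fun _ _ k q => by
  classical
  refine TR h0 k (fun D a => ?_) (fun D => if (Sm β m).P D then 0 else 1) fun D a g b => ?_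
  all_goals
    replace a := a 1 D (by simp)
    by_cases e : (Sm β m).P D
  · exact av_small h e (q.comp D.subtype)
  · obtain ⟨n, c, R, d⟩ := Sm.affine (.refl (⊤ : Subgroup D)) a
      fun l => e ((Sm β m).inj (MulEquiv.toMonoidHom _) Subgroup.topEquiv.symm.injective l)
    exact AA' h0 h c (d.comap of fun U => TF.comap (of_injective _).injOn) (q.comp D.subtype)
  · exact .inl (gd_small h0 h b e q)
  · by_cases f : (Sm β m).P (cj D g)
    · exact .inr (by simp [e, f])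
    · obtain ⟨n, c, R, d⟩ := Sm.affine (pE D g) a fun l => f (Cl.inj _
        ((Subgroup.inclusion (inf_le_left : cj D g ≤ D)).codRestrict (pA D g⁻¹) fun x =>
          mem_pA.2 (by rw [inv_inv]; exact (mem_cj.1 x.2).2)) (fun x y o => Subtype.ext (congrArg (·.1.1) o)) l)
      exact .inl (gd_hn b (AA' h0 h c d (q.comp (jj D g))))

variable (hV : ∀ (V : Type w) [Group V] (x : V), (Subgroup.zpowers x).FiniteIndex → AV ρ V)
include hV

theorem ih_sm (β : Ordinal.{w}) (m : ℕ) : IH ρ (Sm β m) := by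
  induction β using WellFoundedLT.induction generalizing m with | ind β ih =>
  induction m with
  | zero =>
    exact ih_loc h0 fun D _ a b => (Sm.fg a b).elim (fun c => ⟨_, by exact c, ih_fin h0 hV⟩)
      fun ⟨γ, c, m, d⟩ => ⟨_, d, ih γ c m⟩
  | succ m k => exact ih_succ h0 k

theorem ih_hyper : IH ρ LH.{w} :=
  ih_loc h0 fun D _ a b => ((a ⊤ b).equiv Subgroup.topEquiv).top.elim fun α c =>
    ⟨Sm α 0, (Set.finite_singleton 1).subset (by
      rintro _ ⟨x, -, rfl⟩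
      exact (QuotientGroup.eq_one_iff x).2 (c.ge trivial)), ih_sm h0 hV α 0⟩

omit ρ hV in
theorem hyper_main {ρ : Act Γ C}
    (hV : ∀ (V : Type w) [Group V] (x : V), (Subgroup.zpowers x).FiniteIndex → AV ρ V)
    {V : Type*} [MulAction Γ V] {T : SimpleGraph V} (hT : T.IsTree)
    (ha : ∀ (g : Γ) a b, T.Adj a b → T.Adj (g • a) (g • b))
    (hi : ∀ (g : Γ) a b, T.Adj a b → g • a = b → g • b ≠ a)
    (h1 : ∀ v : V, LocHyper (stabilizer Γ v) ∨ K1Zero (TwZ (ρ.comap (stabilizer Γ v).subtype)))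
    (h2 : ∀ a b, T.Adj a b → LocHyper ↥(stabilizer Γ a ⊓ stabilizer Γ b) ∨
      K1Zero (TwZ (ρ.comap (stabilizer Γ a ⊓ stabilizer Γ b).subtype)))
    (hA : ∀ a b, T.Adj a b → Acc (fun D₁ D : Subgroup Γ => ∃ g : Γ,
      Half T (g • a) (g • b) ⊂ Half T a b ∧ ¬ LocHyper D ∧ D₁ = D ⊓ MulAut.conj g • D)
      (stabilizer Γ a ⊓ stabilizer Γ b)) : K1Zero (TwZ ρ) :=
  tree_main hT ha hi h0 (fun v => (h1 v).elim (av_small (ih_hyper h0 hV) · _) id)
    (fun a b c => (h2 a b c).elim (av_small (ih_hyper h0 hV) · _) id) fun a b c =>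
      Subrelation.accessible (fun {_ D} ⟨g, d, e, f⟩ => ⟨g, d, fun k => e (cov_hn (ih_hyper h0 hV _
        ((Hn.ot D g).mono fun _ ⟨b, _, _, e⟩ => Cl.map b le_rfl (Cl.conj e k)) _)), f⟩) (hA a b c)

end Pool.Agent.Lib.MP_5d3e93_al
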