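import Pool.Agent.Lib.MP_5d3e93_al.PrL

/-! Equivariant swindles, and their lifts to located categories. -/

open CategoryTheory Limits

namespace Pool.Agent.Lib.MP_5d3e93_al

universe w w' v u

variable {G : Type w} [Group G] {C : Type u} [Category.{v} C] [Preadditive C]

/-- An Eilenberg swindle commuting with the group elements in `P`. -/
def Swd (σ : Act G C) (P : G → Prop) : Prop :=
  ∃ (Φ : C ⥤ C) (_ : Φ.Additive) (i : ∀ A, A ⟶ Φ.obj A) (r : ∀ A, Φ.obj A ⟶ A)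
    (i' r' : ∀ A, Φ.obj A ⟶ Φ.obj A), (∀ A, r A ≫ i A + r' A ≫ i' A = 𝟙 _) ∧
    (∀ (A B : C) (f : A ⟶ B), i A ≫ Φ.map f ≫ r B = f ∧ i A ≫ Φ.map f ≫ r' B = 0 ∧
      i' A ≫ Φ.map f ≫ r B = 0 ∧ i' A ≫ Φ.map f ≫ r' B = Φ.map f) ∧
    ∀ g, P g → σ.F g ⋙ Φ = Φ ⋙ σ.F g ∧ ∀ A, HEq ((σ.F g).map (r A)) (r ((σ.F g).obj A)) ∧
      HEq ((σ.F g).map (r' A)) (r' ((σ.F g).obj A))

/-- Swindles for all virtually cyclic groups over `G`. -/
def Sw (σ : Act G C) : Prop := ∀ (V : Type w) [Group V] (x : V),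
  (Subgroup.zpowers x).FiniteIndex → ∀ q : V →* G, Swd σ fun g => ∃ y, q y = g

variable {σ : Act G C}

theorem Sw.comap (h : Sw σ) {Γ : Type w} [Group Γ] (j : Γ →* G) : Sw (σ.comap j) :=
  fun V _ x a q => by
    obtain ⟨Φ, b, i, r, i', r', c, d, e⟩ := h V x a (j.comp q)
    exact ⟨Φ, b, i, r, i', r', c, d, fun g ⟨y, k⟩ => e (j g) ⟨y, congrArg j k⟩⟩

theorem Sw.act (h : Sw σ) {Z : Type w'} [Preorder Z] [MulAction G Z]
    (hm : ∀ (g : G) (x y : Z), x ≤ y → g • x ≤ g • y) : Sw (Lc.act σ hm) := fun V _ x a q => by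
  obtain ⟨Φ, b, i, r, i', r', c, d, e⟩ := h V x a q
  have n1 {A B : C} (f : A ⟶ B) : f ≫ i B = i A ≫ Φ.map f := by
    obtain ⟨d1, d2, -, -⟩ := d A B f
    rw [← Category.comp_id (Φ.map f), ← c]
    simp [reassoc_of% d1, reassoc_of% d2]
  have n2 {A B : C} (f : A ⟶ B) : Φ.map f ≫ r B = r A ≫ f := by
    obtain ⟨d1, -, d3, -⟩ := d A B f
    rw [← Category.id_comp (Φ.map f), ← c]
    simp [d1, d3]
  have n3 {A B : C} (f : A ⟶ B) : Φ.map f ≫ i' B = i' A ≫ Φ.map f := by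
    obtain ⟨-, -, d3, d4⟩ := d A B f
    conv_rhs => rw [← Category.comp_id (Φ.map f), ← c]
    simp [reassoc_of% d3, reassoc_of% d4]
  have n4 {A B : C} (f : A ⟶ B) : Φ.map f ≫ r' B = r' A ≫ Φ.map f := by
    obtain ⟨-, d2, -, d4⟩ := d A B f
    conv_lhs => rw [← Category.id_comp (Φ.map f), ← c]
    simp [d2, d4]
  refine ⟨Lc.ind Φ b id ⟨Function.bijective_id, fun _ _ => id⟩, Lc.ind_add ..,
    fun X => ⟨i X.A, Lc.mn_diag fun _ => n1 _⟩, fun X => ⟨r X.A, Lc.mn_diag fun _ => n2 _⟩,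
    fun X => ⟨i' X.A, Lc.mn_diag fun _ => n3 _⟩, fun X => ⟨r' X.A, Lc.mn_diag fun _ => n4 _⟩,
    fun X => Lc.ext (c X.A), fun X Y f => ?_, fun g k => ?_⟩
  · obtain ⟨d1, d2, d3, d4⟩ := d _ _ f.1
    exact ⟨Lc.ext d1, Lc.ext d2, Lc.ext d3, Lc.ext d4⟩
  · obtain ⟨e1, e2⟩ := e g k
    have := σ.additive g
    have e3 : (Lc.act σ hm).F g ⋙ Lc.ind Φ b id ⟨Function.bijective_id, fun _ _ => id⟩ =
        Lc.ind Φ b id ⟨Function.bijective_id, fun _ _ => id⟩ ⋙ (Lc.act σ hm).F g :=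
      Lc.ind_congr (f := (g⁻¹ • ·)) (f' := (g⁻¹ • ·)) e1 rfl inferInstance (Lc.inv_ok hm g)
        inferInstance (Lc.inv_ok hm g)
    exact ⟨e3, fun X => ⟨Lc.heq_of (Functor.congr_obj e3 X).symm rfl (e2 X.A).1,
      Lc.heq_of (Functor.congr_obj e3 X).symm (Functor.congr_obj e3 X).symm (e2 X.A).2⟩⟩

open Classical in
theorem obs_sw {S : Type w'} [MulAction G S] (ρ : Act G C)
    (hS : ∀ (H : Subgroup G) (x : H), (Subgroup.zpowers x).FiniteIndex →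
      ∃ s : S, ∀ g ∈ H, g • s = s) : Sw (Obs.act S ρ) := fun H _ x h φ => by
  obtain ⟨s, k⟩ := hS φ.range (φ.rangeRestrict x) (fi_top.1 (((fi_top.2 h).map φ.rangeRestrict).mono
    (MonoidHom.map_zpowers ..).le (Subgroup.map_top_of_surjective _ φ.rangeRestrict_surjective).ge))
  refine ⟨Obs.swF s, inferInstance, _, _, _, _, Obs.sw_total s, fun _ _ => Obs.sw_nat s,
    fun g hg => ?_⟩
  have e (X : Obs S C) : (fun p : X.ι × ℕ => ((X.π p.1).map (g • ·)).cv s p.2 (X.τ p.1)) =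
      fun p => ((X.π p.1).cv s p.2 (X.τ p.1)).map (g • ·) := funext fun p => Spx.ext (by
    simp [Spx.map, Spx.cv, Finsupp.mapDomain_add, Finsupp.mapDomain_smul, k g hg])
  refine ⟨Functor.hext (fun X => ?_) fun X Y f => Obs.heq_of (e X) (e Y) fun p q => ?_, fun A =>
    ⟨Obs.heq_of (e A).symm rfl fun p q => ?_, Obs.heq_of (e A).symm (e A).symm fun p q => ?_⟩⟩
  · change Obs.mk .. = Obs.mk ..
    congr 1
    exact e X
  all_goals have := ρ.additive g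
  · exact ((apply_ite (ρ.F g).map ..).trans (by rw [Functor.map_zero]; rfl)).symm
  all_goals
    refine (apply_dite (ρ.F g).map ..).trans ?_
    simp only [Functor.map_zero, eqToHom_map]
    rfl

variable [HasBinaryBiproducts C]

theorem Sw.k0 (h : Sw σ) : K0Zero C := by
  obtain ⟨Φ, b, i, r, i', r', c, d, -⟩ := h PUnit 1 inferInstance 1
  have (A D : C) : Nonempty (A ⊞ Φ.obj A ⊞ D ≅ Φ.obj A ⊞ D) := by
    obtain ⟨d1, d2, d3, d4⟩ := d _ _ (𝟙 A)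
    simp only [CategoryTheory.Functor.map_id, Category.id_comp] at d1 d2 d3 d4
    exact ⟨(biprod.associator ..).symm ≪≫ biprod.mapIso ⟨biprod.desc (i A) (i' A),
      biprod.lift (r A) (r' A), by ext <;> simp [d1, d2, d3, d4], by simp [c]⟩ (.refl _)⟩
  intro A B
  obtain ⟨a⟩ := this A (Φ.obj B)
  obtain ⟨b⟩ := this B (Φ.obj A)
  exact ⟨_, ⟨a ≪≫ biprod.braiding .. ≪≫ b.symm ≪≫ biprod.mapIso (.refl _) (biprod.braiding ..)⟩⟩

theorem Sw.av (h : Sw σ) (V : Type w) [Group V] (x : V) (a : (Subgroup.zpowers x).FiniteIndex) :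
    AV σ V := fun q => by
  obtain ⟨Φ, b, i, r, i', r', c, d, e⟩ := h V x a q
  exact k1_sw Φ (fun g => (e _ ⟨g.1, rfl⟩).1) i r i' r' c (d _ _) fun g => (e _ ⟨g.1, rfl⟩).2

theorem Sw.ih [HasZeroObject C] (h : Sw σ) : IH σ LH.{w} := ih_hyper h.k0 h.av

end Pool.Agent.Lib.MP_5d3e93_al
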