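import Pool.Agent.Lib.MP_5d3e93_al.PrW

/-! Fibering over free abelian groups down to rank one. -/

open CategoryTheory Limits MulAction

namespace Pool.Agent.Lib.MP_5d3e93_al

universe w v u

namespace Ch

variable {Γ Γ' : Type w} [Group Γ] [Group Γ'] (ω : Ch Γ)

/-- Restriction. -/
def comap (j : Γ' →* Γ) : Ch Γ' := ⟨fun g => ω (j g), fun a b => by rw [map_mul, ω.mul]⟩

/-- Negative. -/
def neg : Ch Γ := ⟨fun g => -ω g, fun a b => by rw [ω.mul, neg_add]⟩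

/-- Kernel. -/
def ker : Subgroup Γ where
  carrier := {g | ω g = 0}
  mul_mem' {a b} (p : ω a = 0) (q : ω b = 0) := show ω (a * b) = 0 by rw [ω.mul, p, q, add_zero]
  one_mem' := ω.one
  inv_mem' {a} (p : ω a = 0) := show ω a⁻¹ = 0 by rw [ω.inv, p, neg_zero]

theorem norm (h : ∃ g, ω g ≠ 0) : ∃ (ω' : Ch Γ) (t : Γ), ω' t = 1 ∧ ∀ g, ω' g = 0 ↔ ω g = 0 := by
  classical
  have e : ∃ n : ℕ, 0 < n ∧ ∃ t, ω t = n := by
    obtain ⟨g, k⟩ := h
    obtain l | l := k.lt_or_gt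
    · exact ⟨(ω g).natAbs, by omega, g⁻¹, by rw [ω.inv]; omega⟩
    · exact ⟨(ω g).natAbs, by omega, g, by omega⟩
  obtain ⟨a, t, b⟩ := Nat.find_spec e
  have c (g) : (Nat.find e : ℤ) ∣ ω g := Int.dvd_of_emod_eq_zero (by_contra fun k => by
    have p := Int.emod_nonneg (ω g) (b := Nat.find e) (by omega)
    have q := Int.emod_lt_of_pos (ω g) (b := Nat.find e) (by omega)
    refine Nat.find_min e (m := (ω g % Nat.find e).toNat) (by omega) ⟨by omega,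
      g * t ^ (-(ω g / Nat.find e)), ?_⟩
    rw [ω.mul, ω.zpow, b, Int.toNat_of_nonneg p, Int.emod_def]
    ring)
  refine ⟨⟨fun g => ω g / Nat.find e, fun x y => by rw [ω.mul, Int.add_ediv_of_dvd_left (c x)]⟩, t,
    show ω t / _ = 1 by rw [b, Int.ediv_self (by omega)], fun g => ⟨fun k => ?_, fun k => ?_⟩⟩
  · exact Int.eq_zero_of_ediv_eq_zero (c g) k
  · exact show ω g / _ = 0 by rw [k, Int.zero_ediv]

theorem line {t : Γ} (ht : ω t = 1) {χ : Ch Γ} (h : ∀ g, ω g = 0 → χ g = 0) (g : Γ) :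
    χ g = ω g * χ t := by
  have := h (g * t ^ (-ω g)) (by simp [ω.mul, ht])
  rw [χ.mul, χ.zpow] at this
  linear_combination this

end Ch

variable {C : Type u} [Category.{v} C] [Preadditive C] [HasBinaryBiproducts C]
variable {Γ : Type w} [Group Γ] {σ : Act Γ C}

theorem k1_fh (h0 : K0Zero C) (ω : Ch Γ) {t : Γ} (ht : ω t = 1)
    (hK : K1Zero (TwZ (σ.comap ω.ker.subtype))) (hp : (SZ σ).Gd (SZ σ).nt {g | ω g.1 = 1})
    (hm : (SZ σ).Gd (SZ σ).nt {g | ω.neg g.1 = 1}) : K1Zero (TwZ σ) := by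
  let Z : Zg (Γ × Zi) := ⟨⊤, fun g => ω g.1, fun a _ b _ => ω.mul _ _⟩
  have e : Z.K = ω.ker.prod ⊤ := Subgroup.ext fun g => ⟨fun k => ⟨k.2, trivial⟩,
    fun k => ⟨trivial, k.1⟩⟩
  have hW : (SZ σ).W Z.K := e ▸ W_of_K1 h0 hK
  exact K1_of_W' h0 (Subgroup.subtype_injective _) hK (GC.FH (Z := Z) hW
    (GC.sfi_of_W (twGC_central σ) (fun z => ⟨trivial, ω.one⟩) hW) (hp.mono fun _ k => k.2)
    (hm.mono fun _ k => neg_eq_iff_eq_neg.2 k.2) (t := (t, 1)) trivial ht)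

variable [HasZeroObject C]

theorem gd_two (h0 : K0Zero C) (ω ψ : Ch Γ) {t : Γ} (ht : ω t = 1)
    (h : ∀ H : Subgroup Γ, (∀ g ∈ H, ω g = 0 → ψ g = 0) → K1Zero (TwZ (σ.comap H.subtype))) :
    (SZ σ).Gd (SZ σ).nt {g | ω g.1 = 1} :=
  GC.G2 (ok h0) ⟨fun _ => 1, ψ, ω, fun _ => .inl rfl, by simp, by simp⟩ ht
    (fun f H k => W_of_K1 h0 (h H fun g a b => by
      have : ((1 : ℤ) : ℚ) * f (0 - ω g) + ψ g = f 0 := congrFun (k a) 0
      simpa [b] using this)) fun _ _ k => by simp at k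

/-- Fibering. -/
theorem k1_fib (h0 : K0Zero C) {κ : Type} (s : Finset κ) : ∀ (Γ : Type w) [Group Γ] (σ : Act Γ C)
    (χ : κ → Ch Γ), (∀ g, (∀ i ∈ s, χ i g = 0) → ∀ i, χ i g = 0) →
    (∀ (H : Type w) [Group H] (j : H →* Γ), Function.Injective j → ∀ ω : Ch H,
      (∀ g, ω g = 0 → ∀ i, χ i (j g) = 0) → K1Zero (TwZ (σ.comap j))) → K1Zero (TwZ σ) := by
  classical
  induction s using Finset.strongInduction with | _ s ih => ?_
  intro Γ _ σ χ h1 h2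
  have sub (i) (a : i ∈ s) (H : Subgroup Γ)
      (b : ∀ g ∈ H, (∀ j ∈ s.erase i, χ j g = 0) → χ i g = 0) :
      K1Zero (TwZ (σ.comap H.subtype)) := by
    refine ih _ (Finset.erase_ssubset a) H _ (fun j => (χ j).comap H.subtype)
      (fun g c => h1 g fun j d => ?_) fun H' _ j c =>
        h2 H' (H.subtype.comp j) (H.subtype_injective.comp c)
    by_cases e : j = i
    · exact e ▸ b g g.2 c
    · exact c j (Finset.mem_erase.2 ⟨e, d⟩)
  have top := h2 Γ (.id Γ) Function.injective_id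
  obtain rfl | ⟨i, a⟩ := s.eq_empty_or_nonempty
  · exact top ⟨0, by simp⟩ fun g _ => h1 g (by simp)
  obtain e | ⟨j, b⟩ := (s.erase i).eq_empty_or_nonempty
  · exact top (χ i) fun g c => h1 g fun j d => by_contra fun k =>
      Finset.notMem_empty j (e ▸ Finset.mem_erase.2 ⟨fun l => k (l ▸ c), d⟩)
  by_cases z : ∃ g, χ i g ≠ 0
  swap
  · exact K1_of_bij h0 (j := (⊤ : Subgroup Γ).subtype) Subgroup.topEquiv.bijective
      (sub i a ⊤ fun g _ _ => by_contra fun k => z ⟨g, k⟩)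
  obtain ⟨ω, t, c, d⟩ := (χ i).norm z
  obtain ⟨b1, b2⟩ := Finset.mem_erase.1 b
  have k (H : Subgroup Γ) (l : ∀ g ∈ H, ω g = 0 → χ j g = 0) :=
    sub j b2 H fun g m n => l g m ((d g).2 (n i (Finset.mem_erase.2 ⟨b1.symm, a⟩)))
  exact k1_fh h0 ω c (sub i a _ fun g l _ => (d g).1 l) (gd_two h0 ω (χ j) c k)
    (gd_two h0 ω.neg (χ j) (t := t⁻¹) (by simp [Ch.neg, c]) fun H l =>
      k H fun g m n => l g m (neg_eq_zero.2 n))

end Pool.Agent.Lib.MP_5d3e93_al
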