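import Pool.Agent.Lib.MP_5d3e93_al.DefsP

/-! Closure properties of virtually polycyclic groups. -/

open scoped Pointwise

namespace Pool.Agent.Lib.MP_5d3e93_al

universe w

variable {G G' : Type*} [Group G] [Group G'] {H K L U W : Subgroup G} {f : G →* G'}

/-- Finite relative index. -/
def Fi (H U : Subgroup G) : Prop := H.relIndex U ≠ 0

theorem fi_iff : Fi H U ↔ ∃ F : Set G, F.Finite ∧ F ⊆ U ∧ ∀ x ∈ U, ∃ y ∈ F, y⁻¹ * x ∈ H := by
  rw [Fi, Subgroup.relIndex, ← Subgroup.finiteIndex_iff, Subgroup.finiteIndex_iff_finite_quotient]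
  refine ⟨fun h => ⟨Set.range fun c : U ⧸ H.subgroupOf U => (c.out : U), Set.finite_range _,
    Set.range_subset_iff.2 fun c => c.out.2, fun x k => ⟨_, ⟨(⟨x, k⟩ : U), rfl⟩,
      (QuotientGroup.eq (s := H.subgroupOf U) (b := ⟨x, k⟩)).1 (QuotientGroup.out_eq' _)⟩⟩, fun ⟨F, a, b, c⟩ => ?_⟩
  have := a.to_subtype
  refine .of_surjective (fun y : F => ((⟨y, b y.2⟩ : U) : U ⧸ H.subgroupOf U)) fun x => ?_
  induction x using QuotientGroup.induction_on with | H x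
  obtain ⟨y, d, e⟩ := c x x.2
  exact ⟨⟨y, d⟩, QuotientGroup.eq.2 e⟩

theorem Fi.of_le (h : U ≤ H) : Fi H U := by simp [Fi, Subgroup.relIndex_eq_one.2 h]

theorem Fi.trans (h : Fi H K) (k : Fi K U) : Fi H U := Subgroup.relIndex_ne_zero_trans h k

theorem Fi.mono (h : Fi H U) (a : H ≤ K) (b : W ≤ U) : Fi K W :=
  mt (Subgroup.relIndex_eq_zero_of_le_left a) (mt (Subgroup.relIndex_eq_zero_of_le_right b) h)

theorem Fi.inf (h : Fi H U) (k : Fi K U) : Fi (H ⊓ K) U := Subgroup.relIndex_inf_ne_zero h k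

theorem Fi.comap {H U : Subgroup G'} (h : Fi H U) (a : W.map f ≤ U) : Fi (W ⊓ H.comap f) W :=
  (Fi.of_le le_rfl).inf (by
    rw [Fi, Subgroup.relIndex_comap]
    exact h.mono le_rfl a)

theorem Fi.map (h : Fi H U) (f : G →* G') : Fi (H.map f) (U.map f) := by
  obtain ⟨F, a, b, c⟩ := fi_iff.1 h
  refine fi_iff.2 ⟨f '' F, a.image f, Set.image_mono b, ?_⟩
  rintro _ ⟨x, d, rfl⟩
  obtain ⟨y, e, g⟩ := c x d
  exact ⟨_, ⟨y, e, rfl⟩, _, g, by simp⟩

theorem Fi.of_finite (h : (U : Set G).Finite) : Fi H U :=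
  fi_iff.2 ⟨U, h, subset_rfl, fun x k => ⟨x, k, by simp⟩⟩

theorem Fi.finite (h : Fi H U) (k : (H : Set G).Finite) : (U : Set G).Finite := by
  obtain ⟨F, a, -, c⟩ := fi_iff.1 h
  exact (a.mul k).subset fun x d => (c x d).elim fun y e => ⟨y, e.1, _, e.2, by simp⟩

theorem Fi.pow (h : Fi H U) {x : G} (k : x ∈ U) : ∃ n : ℕ, 0 < n ∧ x ^ n ∈ H :=
  (Subgroup.exists_pow_mem_of_relIndex_ne_zero h k).imp fun _ a => ⟨a.1, a.2.2.1⟩

theorem fi_top : Fi H ⊤ ↔ H.FiniteIndex := by simp [Fi, Subgroup.finiteIndex_iff]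

theorem fg_of_cover {F : Set G} (a : F.Finite) (b : F ⊆ U) (h : H.FG) (k : H ≤ U)
    (c : ∀ x ∈ U, ∃ y ∈ Subgroup.closure F, y⁻¹ * x ∈ H) : U.FG := by
  convert Subgroup.FG.sup ((Subgroup.fg_iff _).2 ⟨F, rfl, a⟩) h
  exact le_antisymm (fun x d => (c x d).elim fun y e => by
    simpa using Subgroup.mul_mem_sup e.1 e.2) (sup_le ((Subgroup.closure_le _).2 b) k)

/-- Functions additive on a subgroup. -/
def Ad {V : Type*} [AddCommGroup V] (H : Subgroup G) (χ : G → V) : Prop :=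
  ∀ a ∈ H, ∀ b ∈ H, χ (a * b) = χ a + χ b

namespace Ad

variable {V : Type*} [AddCommGroup V] {χ : G → V} (h : Ad H χ) {a : G}
include h

theorem mono (k : K ≤ H) : Ad K χ := fun a b c d => h a (k b) c (k d)

theorem one : χ 1 = 0 := by simpa using h 1 H.one_mem 1 H.one_mem

theorem inv (k : a ∈ H) : χ a⁻¹ = -χ a := by
  have := h a k _ (inv_mem k)
  rw [mul_inv_cancel, h.one] at this
  exact eq_neg_of_add_eq_zero_right this.symm

theorem pow (k : a ∈ H) (n : ℕ) : χ (a ^ n) = n • χ a := by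
  induction n with
  | zero => simp [h.one]
  | succ n ih => rw [pow_succ, h _ (pow_mem k n) _ k, ih, succ_nsmul]

theorem zpow (k : a ∈ H) (n : ℤ) : χ (a ^ n) = n • χ a := by
  cases n with
  | ofNat n => simpa using h.pow k n
  | negSucc n => rw [zpow_negSucc, h.inv (pow_mem k _), h.pow k, negSucc_zsmul]

/-- The kernel. -/
def ker : Subgroup G where
  carrier := {x | x ∈ H ∧ χ x = 0}
  one_mem' := ⟨one_mem _, h.one⟩
  mul_mem' a b := ⟨mul_mem a.1 b.1, by rw [h _ a.1 _ b.1, a.2, b.2, add_zero]⟩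
  inv_mem' a := ⟨inv_mem a.1, by rw [h.inv a.1, a.2, neg_zero]⟩

theorem ker_le : h.ker ≤ H := fun _ k => k.1

theorem desc (e : ∀ x ∈ H, f x = 1 → χ x = 0) :
    ∃ ψ : G' → V, Ad (H.map f) ψ ∧ ∀ x ∈ H, ψ (f x) = χ x := by
  choose! s s1 s2 using fun (y : G') (k : y ∈ H.map f) => k
  have g (x) (k : x ∈ H) : χ (s (f x)) = χ x := by
    have l := s1 _ ⟨x, k, rfl⟩
    have := e _ (mul_mem (inv_mem k) l) (by simp [s2 _ ⟨x, k, rfl⟩])
    rw [h _ (inv_mem k) _ l, h.inv k, neg_add_eq_zero] at this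
    exact this.symm
  refine ⟨χ ∘ s, ?_, g⟩
  rintro _ ⟨x, k, rfl⟩ _ ⟨y, l, rfl⟩
  simp only [Function.comp, ← map_mul, g _ k, g _ l, g _ (mul_mem k l), h x k y l]

end Ad

theorem Ad.step {χ : G → ℤ} (h : Ad H χ) {t : G} (a : t ∈ H) (b : t ∈ L) (c : χ t ≠ 0)
    (k : Fi L h.ker) : Fi L H := by
  obtain ⟨F, f1, f2, f3⟩ := fi_iff.1 k
  choose! ρ r1 r2 using fun (r : ℤ) (e : ∃ x ∈ H, χ x = r) => e
  refine fi_iff.2 ⟨ρ '' {r | r ∈ Set.Icc 0 |χ t| ∧ ∃ x ∈ H, χ x = r} * F,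
    (((Set.finite_Icc _ _).subset fun _ e => e.1).image _).mul f1, ?_, fun x d => ?_⟩
  · rintro _ ⟨_, ⟨r, e, rfl⟩, y, g, rfl⟩
    exact mul_mem (r1 r e.2) (f2 g).1
  have e1 := mul_mem d (zpow_mem a (-(χ x / χ t)))
  have e2 : χ (x * t ^ (-(χ x / χ t))) = χ x % χ t := by
    rw [h _ d _ (zpow_mem a _), h.zpow a, Int.emod_def]; ring
  obtain ⟨y, g1, g2⟩ := f3 _ ⟨mul_mem (inv_mem (r1 _ ⟨_, e1, e2⟩)) e1, by
    rw [h _ (inv_mem (r1 _ ⟨_, e1, e2⟩)) _ e1, h.inv (r1 _ ⟨_, e1, e2⟩), r2 _ ⟨_, e1, e2⟩, e2,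
      neg_add_cancel]⟩
  exact ⟨_, ⟨_, ⟨_, ⟨⟨Int.emod_nonneg _ c, (Int.emod_lt_abs _ c).le⟩, _, e1, e2⟩, rfl⟩, y, g1, rfl⟩,
    by simpa [mul_assoc] using mul_mem g2 (zpow_mem b (χ x / χ t))⟩

/-- Virtually polycyclic subgroups. -/
def PS : ℕ → Subgroup G → Prop
  | 0, U => (U : Set G).Finite
  | m + 1, U => ∃ H ≤ U, Fi H U ∧ ∃ (χ : G → ℤ) (h : Ad H χ), PS m h.ker

variable {m : ℕ}

theorem PS.comap {U : Subgroup G'} (h : PS m U) (a : Set.InjOn f W) (b : W.map f ≤ U) :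
    PS m W := by
  induction m generalizing U W with
  | zero => exact .of_finite_image (Set.Finite.subset h b) a
  | succ m ih =>
    obtain ⟨H, -, c, χ, d, e⟩ := h
    exact ⟨_, inf_le_left, c.comap b, χ ∘ f, fun x k y l => by simp [d _ k.2 _ l.2],
      ih e (a.mono fun _ k => k.1.1) (by rintro _ ⟨x, k, rfl⟩; exact ⟨k.1.2, k.2⟩)⟩

theorem PS.le (h : PS m U) (a : W ≤ U) : PS m W :=
  h.comap (f := .id G) (Set.injOn_id _) (by simpa)

theorem PS.fi (h : PS m H) (a : H ≤ U) (b : Fi H U) : PS m U := by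
  cases m with
  | zero => exact b.finite h
  | succ m => exact h.imp fun _ c => ⟨c.1.trans a, c.2.1.trans b, c.2.2⟩

theorem PS.succ (h : PS m U) : PS (m + 1) U :=
  ⟨U, le_rfl, .of_le le_rfl, 0, fun _ _ _ _ => rfl, h.le fun _ k => k.1⟩

theorem PS.mono (h : PS m U) {k : ℕ} (a : m ≤ k) : PS k U := by
  induction a with
  | refl => exact h
  | step _ ih => exact ih.succ

theorem PS.map' (h : PS m U) : PS m (U.map f) ∧
    (((U ⊓ f.ker : Subgroup G) : Set G).Infinite → ∃ k, m = k + 1 ∧ PS k (U.map f)) := by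
  induction m generalizing U with
  | zero => exact ⟨Set.Finite.image f h, fun k => (k (Set.Finite.subset h fun _ a => a.1)).elim⟩
  | succ m ih =>
    obtain ⟨H, a, b, χ, c, d⟩ := h
    by_cases e : ∃ t ∈ H, f t = 1 ∧ χ t ≠ 0
    · obtain ⟨t, e1, e2, e3⟩ := e
      have := (c.step (L := c.ker ⊔ f.ker) e1 (le_sup_right (a := c.ker) e2) e3
        (.of_le le_sup_left)).map f
      rw [Subgroup.map_sup, Subgroup.map_ker_self, sup_bot_eq] at this
      have := (ih d).1.fi (Subgroup.map_mono (c.ker_le.trans a)) (this.trans (b.map f))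
      exact ⟨this.succ, fun _ => ⟨m, rfl, this⟩⟩
    push Not at e
    obtain ⟨ψ, c', g⟩ := c.desc e
    have p {k} (l : PS k (c.ker.map f)) : PS (k + 1) (U.map f) :=
      ⟨_, Subgroup.map_mono a, b.map f, _, c', l.le (by
        rintro _ ⟨⟨x, k, rfl⟩, l⟩
        exact ⟨x, ⟨k, (g x k).symm.trans l⟩, rfl⟩)⟩
    refine ⟨p (ih d).1, fun k => ?_⟩
    obtain ⟨j, rfl, l⟩ := (ih d).2 fun l => k (((b.mono le_rfl inf_le_left).inf
      (.of_le inf_le_right)).finite (l.subset fun x o => ⟨⟨o.1, e x o.1 o.2⟩, o.2⟩))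
    exact ⟨_, rfl, p l⟩

theorem PS.map (h : PS m U) (f : G →* G') : PS m (U.map f) := h.map'.1

theorem PS.inf (h : PS (m + 1) U) (a : W ≤ U) (b : ¬ Fi W U) : PS m W := by
  induction m using Nat.strong_induction_on generalizing U W with | h m ih
  obtain ⟨H, -, c, χ, d, e⟩ := h
  have g : Fi (W ⊓ H) W := (Fi.of_le le_rfl).inf (c.mono le_rfl a)
  by_cases k : ∃ t ∈ W ⊓ H, χ t ≠ 0
  · obtain ⟨t, k, l⟩ := k
    have n : ¬ Fi (W ⊓ d.ker) d.ker := fun n =>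
      b ((d.step k.2 k.1 l (n.mono inf_le_left le_rfl)).trans c)
    cases m with
    | zero => exact (n (.of_finite e)).elim
    | succ m => exact ⟨_, inf_le_left, g, χ, d.mono inf_le_right,
        (ih m m.lt_succ_self e inf_le_right n).le fun x o => ⟨o.1.1, o.1.2, o.2⟩⟩
  · push Not at k
    exact (e.le (W := W ⊓ H) fun x o => ⟨o.2, k x o⟩).fi inf_le_left g

theorem PS.ext {k : ℕ} (h : PS k (U ⊓ f.ker)) (h' : PS m (U.map f)) : PS (k + m) U := by
  induction m generalizing U with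
  | zero => exact h.fi inf_le_left ((Fi.of_finite (H := ⊥) h').comap le_rfl)
  | succ m ih =>
    obtain ⟨H, -, c, χ, d, e⟩ := h'
    exact ⟨_, inf_le_left, c.comap le_rfl, χ ∘ f, fun x k y l => by simp [d _ k.2 _ l.2],
      ih (h.le fun x o => ⟨o.1.1.1, o.2⟩) (e.le (by rintro _ ⟨x, k, rfl⟩; exact ⟨k.1.2, k.2⟩))⟩

theorem PS.fg (h : PS m U) : U.FG := by
  induction m generalizing U with
  | zero => exact (Subgroup.fg_iff _).2 ⟨U, by simp, h⟩
  | succ m ih =>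
    obtain ⟨H, a, b, χ, c, d⟩ := h
    have k {H U : Subgroup G} (a : H ≤ U) (b : Fi H U) (c : H.FG) : U.FG := by
      obtain ⟨F, f1, f2, f3⟩ := fi_iff.1 b
      exact fg_of_cover f1 f2 c a fun x e => (f3 x e).imp fun y g => ⟨Subgroup.subset_closure g.1, g.2⟩
    refine k a b ?_
    by_cases e : ∃ t ∈ H, χ t ≠ 0
    · obtain ⟨t, e, g⟩ := e
      exact k (sup_le c.ker_le ((Subgroup.closure_le _).2 (by simpa))) (c.step e (le_sup_right
        (a := c.ker) (Subgroup.subset_closure (k := {t}) rfl)) g (.of_le le_sup_left))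
        ((ih d).sup ((Subgroup.fg_iff _).2 ⟨_, rfl, Set.finite_singleton t⟩))
    · push Not at e
      exact k c.ker_le (.of_le fun x g => ⟨g, e x g⟩) (ih d)

theorem ps_sub : PS m (⊤ : Subgroup U) ↔ PS m U :=
  ⟨fun h => by simpa [← MonoidHom.range_eq_map] using h.map U.subtype,
    fun h => h.comap U.subtype_injective.injOn (Subgroup.map_subtype_le _)⟩

theorem pc_iff {D : Type w} [Group D] : PC m D ↔ PS m (⊤ : Subgroup D) := by
  induction m generalizing D with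
  | zero => exact Set.finite_univ_iff.symm
  | succ m ih =>
    refine ⟨fun ⟨H, a, χ, b⟩ => ?_, fun ⟨H, _, a, χ, b, c⟩ => ⟨H, fi_top.1 a,
      ⟨⟨fun x => .ofAdd (χ x), congrArg _ b.one⟩,
        fun x y => congrArg Multiplicative.ofAdd (b _ x.2 _ y.2)⟩,
      ih.2 (ps_sub.2 (c.comap H.subtype_injective.injOn ?_))⟩⟩
    · classical
      refine ⟨H, le_top, fi_top.2 a, fun x => if k : x ∈ H then (χ ⟨x, k⟩).toAdd else 0,
        fun x k y l => ?_, ((ps_sub.1 (ih.1 b)).map H.subtype).le fun x k => ⟨⟨x, k.1⟩, ?_, rfl⟩⟩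
      · simpa [k, l, mul_mem k l] using congrArg Multiplicative.toAdd (map_mul χ ⟨x, k⟩ ⟨y, l⟩)
      · simpa [k.1] using k.2
    · rintro _ ⟨x, k, rfl⟩
      exact ⟨x.2, k⟩

/-- Virtually polycyclic of some length. -/
def VP (U : Subgroup G) : Prop := ∃ m, PS m U

/-- Locally virtually polycyclic. -/
def LP (N : Subgroup G) : Prop := ∀ H ≤ N, H.FG → VP H

theorem VP.sup (h : VP H) (k : VP K) (n : H ≤ Subgroup.normalizer K) : VP (H ⊔ K) := by
  obtain ⟨a, h⟩ := h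
  obtain ⟨b, k⟩ := k
  have : (K.subgroupOf (H ⊔ K)).Normal := Subgroup.normal_subgroupOf_of_le_normalizer
    (sup_le n Subgroup.le_normalizer)
  refine ⟨b + a, ps_sub.1 (.ext (f := QuotientGroup.mk' (K.subgroupOf (H ⊔ K)))
    (k.comap (H ⊔ K).subtype_injective.injOn (by
      rintro _ ⟨x, e, rfl⟩
      simpa [Subgroup.mem_subgroupOf] using e.2)) (((h.comap (H ⊔ K).subtype_injective.injOn
        (Subgroup.map_comap_le _ _)).map (QuotientGroup.mk' _)).le ?_))⟩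
  rw [← Subgroup.subgroupOf_self, Subgroup.subgroupOf_sup le_sup_left le_sup_right,
    Subgroup.map_sup, QuotientGroup.map_mk'_self, sup_bot_eq]
  rfl

theorem LP.sup [H.Normal] [K.Normal] (h : LP H) (k : LP K) : LP (H ⊔ K) := fun U a b => by
  obtain ⟨S, rfl, s⟩ := (Subgroup.fg_iff _).1 b
  choose! x x1 y y1 e using fun g (c : g ∈ S) => show g ∈ (H : Set G) * K from
    Subgroup.mul_normal H K ▸ a (Subgroup.subset_closure c)
  have hX : Subgroup.closure (x '' S) ≤ H := (Subgroup.closure_le _).2 (Set.forall_mem_image.2 x1)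
  let C := Set.image2 (fun a b => a * b * a⁻¹ * b⁻¹) (x '' S) (y '' S)
  have c1 : C ⊆ H ∧ C ⊆ K := by
    refine ⟨?_, ?_⟩ <;> rintro _ ⟨_, ⟨a, c, rfl⟩, _, ⟨b, d, rfl⟩, rfl⟩
    · simpa [mul_assoc] using mul_mem (x1 a c) (‹H.Normal›.conj_mem _ (inv_mem (x1 a c)) (y b))
    · exact mul_mem (‹K.Normal›.conj_mem _ (y1 b d) _) (inv_mem (y1 b d))
  let W := Subgroup.closure {g | ∃ a ∈ Subgroup.closure (x '' S), ∃ c ∈ C, g = a * c * a⁻¹}
  obtain ⟨m, hm⟩ := h _ ((Subgroup.closure_le _).2 (Set.union_subset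
    (Set.forall_mem_image.2 x1) c1.1)) ((Subgroup.fg_iff _).2 ⟨_, rfl, (s.image x).union
      ((s.image x).image2 _ (s.image y))⟩)
  have w1 : W.FG := (hm.le ((Subgroup.closure_le _).2 (by
    rintro _ ⟨a, c, b, d, rfl⟩
    have := Subgroup.closure_mono (Set.subset_union_left (t := C)) c
    exact mul_mem (mul_mem this (Subgroup.subset_closure (.inr d))) (inv_mem this)))).fg
  have w2 {a c} (d : a ∈ Subgroup.closure (x '' S)) (e : c ∈ C) :
      a * c * a⁻¹ ∈ Subgroup.closure (y '' S) ⊔ W :=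
    le_sup_right (a := Subgroup.closure (y '' S)) (Subgroup.subset_closure ⟨a, d, c, e, rfl⟩)
  have w3 {b} (d : b ∈ y '' S) : b ∈ Subgroup.closure (y '' S) ⊔ W :=
    le_sup_left (b := W) (Subgroup.subset_closure d)
  have w4 (a) (d : a ∈ Subgroup.closure (x '' S)) (e : ∀ b ∈ y '' S,
      a * b * a⁻¹ ∈ Subgroup.closure (y '' S) ⊔ W) :
      ∀ g ∈ Subgroup.closure (y '' S) ⊔ W, a * g * a⁻¹ ∈ Subgroup.closure (y '' S) ⊔ W :=
    fun g l => sup_le (c := (Subgroup.closure (y '' S) ⊔ W).comap (MulAut.conj a).toMonoidHom)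
      ((Subgroup.closure_le _).2 fun b o => e b o) ((Subgroup.closure_le _).2 (by
        rintro _ ⟨a', d', c, f, rfl⟩
        have := w2 (mul_mem d d') f
        rwa [show a * a' * c * (a * a')⁻¹ = a * (a' * c * a'⁻¹) * a⁻¹ by group] at this)) l
  have w5 : Subgroup.closure (y '' S) ⊔ W ≤ K := sup_le
    ((Subgroup.closure_le _).2 (Set.forall_mem_image.2 y1)) ((Subgroup.closure_le _).2 (by
      rintro _ ⟨a, -, b, d, rfl⟩
      exact ‹K.Normal›.conj_mem _ (c1.2 d) _))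
  have w6 : Subgroup.closure (x '' S) ≤ Subgroup.normalizer
      ((Subgroup.closure (y '' S) ⊔ W : Subgroup G) : Set G) := by
    refine (Subgroup.closure_le _).2 fun a d => ?_
    have d' := Subgroup.subset_closure d
    refine Subgroup.mem_normalizer_iff.2 fun g => ⟨w4 a d' (fun b l => ?_) g, fun l => ?_⟩
    · have := mul_mem (w2 (one_mem _) ⟨a, d, b, l, rfl⟩) (w3 l)
      rwa [show 1 * (a * b * a⁻¹ * b⁻¹) * 1⁻¹ * b = a * b * a⁻¹ by group] at this
    · have := w4 _ (inv_mem d') (fun b l => by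
        have := mul_mem (inv_mem (w2 (inv_mem d') ⟨a, d, b, l, rfl⟩)) (w3 l)
        rwa [show (a⁻¹ * (a * b * a⁻¹ * b⁻¹) * a⁻¹⁻¹)⁻¹ * b = a⁻¹ * b * a⁻¹⁻¹ by group] at this) _ l
      rwa [show a⁻¹ * (a * g * a⁻¹) * a⁻¹⁻¹ = g by group] at this
  obtain ⟨j, hj⟩ := (h _ hX ((Subgroup.fg_iff _).2 ⟨_, rfl, s.image x⟩)).sup
    (k _ w5 (.sup ((Subgroup.fg_iff _).2 ⟨_, rfl, s.image y⟩) w1)) w6
  refine ⟨j, hj.le ((Subgroup.closure_le _).2 fun g c => ?_)⟩
  exact e g c ▸ Subgroup.mul_mem_sup (Subgroup.subset_closure ⟨g, c, rfl⟩) (w3 ⟨g, c, rfl⟩)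

end Pool.Agent.Lib.MP_5d3e93_al
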