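import Pool.Agent.Lib.MP_5d3e93_al.Tens

/-! Vanishing criteria for graded tensor products and refinement of locations. -/

open CategoryTheory MulAction

namespace Pool.Agent.Lib.MP_5d3e93_al

universe w v u

/-- Integer valued characters. -/
structure Ch (G : Type*) [Group G] where
  f : G → ℤ
  mul : ∀ a b, f (a * b) = f a + f b

namespace Ch

variable {G : Type*} [Group G] (χ : Ch G)

instance : CoeFun (Ch G) fun _ => G → ℤ := ⟨f⟩

attribute [simp] mul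

@[simp] theorem one : χ 1 = 0 := by simpa using χ.mul 1 1

@[simp] theorem inv (a : G) : χ a⁻¹ = -χ a := by
  have := χ.mul a a⁻¹
  rw [mul_inv_cancel, one] at this
  omega

@[simp] theorem pow (a : G) (n : ℕ) : χ (a ^ n) = n * χ a := by
  induction n with
  | zero => simp
  | succ n ih => rw [pow_succ, χ.mul, ih]; push_cast; ring

@[simp] theorem zpow (a : G) (n : ℤ) : χ (a ^ n) = n * χ a := by
  cases n with
  | ofNat n => simp
  | negSucc n => rw [zpow_negSucc, Int.negSucc_eq]; simp; ring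

end Ch

namespace GC

open Lo

section
variable {G : Type w} [Group G] {C : Type u} [Category.{v} C] [Preadditive C] {S : GC G C}
variable {A B : C} {K Y Y' : Type*} {θ : Nt C}

theorem nil_shift {L : S.Lo K A} {s : K → K} {n : A ⟶ A} (hn : L.Rg L (fun c _ c' => c' = s c) n)
    {m : ℕ} (hm : pw n m = 0) (h : L.On fun c => ∀ k, 0 < k → k < m → s^[k] c ≠ c) :
    θ.T (𝟙 A - n) := by
  have h1 (c) : L.e c ≫ n ≫ L.e (s c) = L.e c ≫ n := by
    rw [← L.sum_r (L.e c ≫ n), Finset.sum_eq_single (s c), Category.assoc]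
    · exact fun y _ k => by
        rw [Category.assoc]; exact (hn c y).eq_zero (hn c y) fun _ a _ => k a
    · exact fun k => by rw [L.out _ k, Limits.comp_zero]
  have h2 (k : ℕ) : ∀ c, L.e c ≫ pw n k ≫ L.e (s^[k] c) = L.e c ≫ pw n k := by
    induction k with
    | zero => exact fun c => by simp [L.idem]
    | succ k ih =>
      intro c
      rw [pw_succ, Function.iterate_succ_apply, Category.assoc, ← reassoc_of% h1 c, ih,
        reassoc_of% h1 c]
  have h3 (κ : List K) : ∀ c, lp ((c :: κ).map fun c => L.e c ≫ n) = 0 ∨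
      lp ((c :: κ).map fun c => L.e c ≫ n) = L.e c ≫ pw n (κ.length + 1) := by
    induction κ with
    | nil => exact fun c => .inr (by simp [lp, pw_succ])
    | cons d κ ih =>
      intro c
      rw [List.map_cons, lp]
      obtain e | e := ih d <;> rw [e]
      · simp
      · by_cases k : s c = d
        · exact .inr (by rw [← k, Category.assoc, reassoc_of% h1 c]; rfl)
        · exact .inl (by rw [← h1 c]; simp [reassoc_of% L.orth _ _ k])
  have h4 (k) (a : m ≤ k) : pw n k = 0 := by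
    obtain ⟨k, rfl⟩ := Nat.exists_eq_add_of_le a
    rw [pw_add, hm, Limits.zero_comp]
  rcases Nat.eq_zero_or_pos m with rfl | h0
  · rw [show 𝟙 A - n = 𝟙 A by rw [← Category.id_comp n, show 𝟙 A = 0 from hm]; simp]
    exact θ.id A
  refine θ.lazard (q := fun c => L.e c ≫ n) (m := m) ?_ ?_ m 1 le_rfl (by omega) n ?_
  · rintro _ ⟨_ | ⟨c, κ⟩, hκ, rfl⟩
    · simp at hκ; omega
    · exact (h3 κ c).elim id fun e => by rw [e, h4 (κ.length + 1) hκ, Limits.comp_zero]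
  · rintro _ ⟨_ | ⟨c, κ⟩, hκ, rfl⟩
    · simp at hκ
    obtain e | e := h3 κ c <;> rw [e]
    · simpa using θ.id A
    by_cases k : κ.length + 1 < m
    · by_cases k' : L.e c = 0
      · simpa [k'] using θ.id A
      · rw [← h2, ← Category.assoc]
        refine θ.cyc _ _ ?_
        rw [reassoc_of% L.orth _ _ (not_not.1 (mt (h c) k') _ (by omega) k)]
        simpa using θ.id A
    · simpa [h4 _ (not_lt.1 k)] using θ.id A
  · have := sum_mem (S := AddSubmonoid.closure (Wd (fun τ => L.e τ ≫ n) 1)) (t := L.s)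
      fun τ _ => AddSubmonoid.subset_closure (Wd.one _ τ)
    rwa [← Preadditive.sum_comp, L.total, Category.id_comp] at this

theorem Lo.Rg.parts {L : S.Lo Y A} {M : S.Lo Y' B} {R : Y → G → Y' → Prop} {f : A ⟶ B}
    (h : L.Rg M R f) (κ : Y → G → Y' → K) : ∃ (s : Finset K) (F : K → (A ⟶ B)),
      ∑ c ∈ s, F c = f ∧ ∀ c, L.Rg M (fun x g y => R x g y ∧ κ x g y = c) (F c) := by
  classical
  let T := fun x y => (S.fin (L.e x ≫ f ≫ M.e y)).toFinset
  refine ⟨(L.s ×ˢ M.s).biUnion fun z => (T z.1 z.2).image fun g => κ z.1 g z.2,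
    fun c => ∑ z ∈ L.s ×ˢ M.s, ∑ g ∈ (T z.1 z.2).filter fun g => κ z.1 g z.2 = c,
      S.cp g (L.e z.1 ≫ f ≫ M.e z.2), ?_, fun c => .sum _ fun z _ => .sum _ fun g hg x y => ?_⟩
  · rw [Finset.sum_comm]
    refine (Finset.sum_congr rfl fun (z : Y × Y') hz => (Finset.sum_fiberwise_of_maps_to
      (s := T z.1 z.2)
      (fun g hg => Finset.mem_biUnion.2 ⟨z, hz, Finset.mem_image_of_mem _ hg⟩) _).trans
        (sum_cp _)).trans ?_
    rw [Finset.sum_product]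
    simp only [← Preadditive.comp_sum, ← Preadditive.sum_comp, L.total, M.total, Category.comp_id,
      Category.id_comp]
  · have a : L.Rg M (fun x g y => R x g y ∧ x = z.1 ∧ y = z.2) (L.e z.1 ≫ f ≫ M.e z.2) :=
      fun x y => by
        by_cases k : x = z.1 ∧ y = z.2
        · simpa [k.1, k.2, L.idem, reassoc_of% L.idem, M.idem] using h z.1 z.2
        · obtain k | k := not_and_or.1 k
          · simpa [reassoc_of% L.orth _ _ k] using Sup.zero
          · simpa [M.orth _ _ (Ne.symm k)] using Sup.zero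
    refine (((a.cp g).and (rg_sup (T := {g}) (.of_cp (S.cp_same _ _) rfl))) x y).mono ?_
    rintro _ ⟨⟨a1, rfl, rfl⟩, rfl⟩
    exact ⟨a1, (Finset.mem_filter.1 hg).2⟩

theorem Lo.Rg.sep {L : S.Lo Y A} {M : S.Lo Y' B} {R : K → Y → G → Y' → Prop} {s : Finset K}
    {F : K → (A ⟶ B)} (h : ∀ c, L.Rg M (R c) (F c)) (h0 : ∑ c ∈ s, F c = 0)
    (k : ∀ c c' x g y, R c x g y → R c' x g y → c = c') {c : K} (hc : c ∈ s) : F c = 0 := by
  classical
  rw [← Finset.add_sum_erase _ _ hc] at h0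
  refine ((h c).and (R' := fun x g y => ∃ c', c' ≠ c ∧ R c' x g y) ?_).eq_zero
    fun x g y ⟨a, c', b, d⟩ => b (k _ _ _ _ _ d a)
  rw [eq_neg_of_add_eq_zero_left h0]
  exact (Rg.sum _ fun c' k => (h c').mono fun _ _ _ a => ⟨c', Finset.ne_of_mem_erase k, a⟩).neg

theorem Lo.copies (hz : ∃ Z : C, 𝟙 Z = 0) (L : S.Lo Y A) {α : Y → Prop} (hL : L.On α)
    (s : Finset K) : ∃ (B : C) (M : S.Lo (Y × K) B) (i : K → (A ⟶ B)) (r : K → (B ⟶ A)),
      (∀ c ∈ s, i c ≫ r c = 𝟙 A) ∧ (∀ c c', c ≠ c' → i c ≫ r c' = 0) ∧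
      (∀ c, L.Rg M (fun y g z => g = 1 ∧ z = (y, c)) (i c)) ∧
      (∀ c, M.Rg L (fun z g y => g = 1 ∧ z = (y, c)) (r c)) ∧ M.On fun z => α z.1 := by
  classical
  induction s using Finset.induction_on with
  | empty =>
    obtain ⟨Z, hZ⟩ := hz
    exact ⟨Z, ⟨fun _ => 0, ∅, fun _ _ => rfl, fun _ => .inl rfl, by simp, hZ.symm⟩, fun _ => 0,
      fun _ => 0, by simp, by simp, fun _ => .zero, fun _ => .zero, fun _ _ => rfl⟩
  | insert d s hd ih =>
    obtain ⟨B, M, i, r, h1, h2, h3, h4, h5⟩ := ih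
    refine ⟨_, (L.map (·, d)).add M, fun c => if c = d then S.inl _ _ else i c ≫ S.inr _ _,
      fun c => if c = d then S.fst _ _ else S.snd _ _ ≫ r c, fun c k => ?_, fun c c' k => ?_,
      fun c => ?_, fun c => ?_, (hL.map (φ := (·, d)) fun _ => id).add h5⟩
    all_goals beta_reduce
    · split_ifs with e
      · simp
      · simpa using h1 c (by simpa [e] using k)
    · split_ifs with e e'
      · exact (k (e.trans e'.symm)).elim
      all_goals simp [h2 c c' k]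
    · split_ifs with e
      · rw [← Category.id_comp (S.inl _ _)]
        exact (rg_id.mapr (φ := (·, d)) (R' := fun y g z => g = 1 ∧ z = (y, c))
          fun _ _ _ a => ⟨a.1, by rw [a.2, e]⟩).comp rg_inl fun _ _ _ _ _ a b =>
            ⟨by rw [a.1, b.1, mul_one], b.2 ▸ a.2⟩
      · exact (h3 c).comp rg_inr fun _ _ _ _ _ a b => ⟨by rw [a.1, b.1, mul_one], b.2 ▸ a.2⟩
    · split_ifs with e
      · rw [← Category.comp_id (S.fst _ _)]
        exact rg_fst.comp (rg_id.mapl (φ := (·, d)) (R' := fun z g y => g = 1 ∧ z = (y, c))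
          fun _ _ _ a => ⟨a.1, by rw [a.2, e]⟩) fun _ _ _ _ _ a b =>
            ⟨by rw [a.1, b.1, mul_one], a.2 ▸ b.2⟩
      · exact rg_snd.comp (h4 c) fun _ _ _ _ _ a b => ⟨by rw [a.1, b.1, mul_one], a.2 ▸ b.2⟩

variable {Q : Type*} [Group Q] [MulAction Q Y] {π : G →* Q} {R : Y → Y → Prop}

theorem Lo.Rg.pw {L : S.Lo Y A} {n : A ⟶ A} (hR : ∀ (q : Q) x y, R x y → R (q • x) (q • y))
    (h : L.Rg L (fun x g y => R x (π g • y)) n) (k : ℕ) :
    L.Rg L (fun x g y => Pth R k x (π g • y)) (pw n k) := by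
  induction k with
  | zero => exact rg_id.mono fun x g y a => by rw [a.1, a.2, map_one, one_smul]; rfl
  | succ k ih =>
    exact h.comp ih fun x g y g' z a b => ⟨_, a, by rw [π.map_mul, mul_smul]; exact b.smul hR _⟩

variable (S θ π R) in
/-- Nilpotent endomorphisms controlled by `R` are trivial. -/
def Nl (m : ℕ) (α : Y → Prop) : Prop := ∀ (A : C) (L : S.Lo Y A) (n : A ⟶ A), L.On α →
  L.Rg L (fun x g y => R x (π g • y)) n → pw n (m + 1) = 0 → θ.T (𝟙 A - n)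

variable {m : ℕ} {α α' : Y → Prop} {R' : Y → Y → Prop}

theorem Nl.fut (hz : ∃ Z : C, 𝟙 Z = 0) (hR : ∀ (q : Q) x y, R x y → R (q • x) (q • y))
    (κ : Y → K) (hκ : ∀ x y y' z, R x y → R x y' → Pth R m y z → Pth R m y' z → κ y = κ y')
    (φ : Y × K → Y) (h1 : ∀ y c, α y → α' (φ (y, c)))
    (h2 : ∀ x (q : Q) y c, α x → α y → R x (q • y) → R' (φ (x, κ (q • y))) (q • φ (y, c)))
    (h : S.Nl θ π R' m α') : S.Nl θ π R m α := by
  intro A L n hL hn hm
  obtain ⟨s, F, e, hF⟩ := hn.parts fun _ g y => κ (π g • y)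
  obtain ⟨B, M, i, r, a1, a2, a3, a4, a5⟩ := L.copies hz hL s
  have b1 : (∑ c ∈ s, i c) ≫ ∑ c ∈ s, r c ≫ F c = n := by
    rw [← e, Preadditive.sum_comp]
    refine Finset.sum_congr rfl fun c k => ?_
    rw [Preadditive.comp_sum, Finset.sum_eq_single c, reassoc_of% a1 c k]
    · exact fun c' _ k' => by rw [reassoc_of% a2 c c' k'.symm, Limits.zero_comp]
    · exact fun k' => (k' k).elim
  have b2 (c) (k : c ∈ s) : F c ≫ pw n m = 0 :=
    Rg.sep (F := fun c => F c ≫ pw n m) (fun c => (hF c).comp (hn.pw hR m)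
      (R'' := fun x g z => ∃ y, R x y ∧ κ y = c ∧ Pth R m y (π g • z)) fun x g y g' z a b =>
        ⟨_, a.1, a.2, by rw [π.map_mul, mul_smul]; exact b.smul hR _⟩)
      (by rw [← Preadditive.sum_comp, e]; exact hm)
      (fun c c' x g z ⟨y, p1, p2, p3⟩ ⟨y', q1, q2, q3⟩ => p2 ▸ q2 ▸ hκ _ _ _ _ p1 q1 p3 q3) k
  rw [← b1]
  refine θ.cyc _ _ (h B (M.map φ) _ (a5.map fun z => h1 z.1 z.2) (Rg.map
    (R := fun x g y => R x.1 (π g • y.1) ∧ x.2 = κ (π g • y.1)) ?_ a5 a5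
      fun x g y a b c => by have := h2 _ _ _ y.2 a b c.1; rwa [← c.2] at this) ?_)
  · refine (Rg.sum (R := fun x g y => R x.1 (π g • y) ∧ x.2 = κ (π g • y)) _ fun c _ =>
      (a4 c).comp (hF c) ?_).comp (Rg.sum (R := fun y g z => g = 1 ∧ z.1 = y) _ fun c _ =>
        (a3 c).mono fun _ _ _ a => ⟨a.1, by rw [a.2]⟩) ?_
    · rintro _ _ y g z ⟨rfl, rfl⟩ a
      rw [one_mul]
      exact ⟨a.1, a.2.symm⟩
    · rintro x g _ _ z a ⟨rfl, rfl⟩
      rwa [mul_one]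
  · rw [pw_cyc, b1, Preadditive.sum_comp]
    exact Finset.sum_eq_zero fun c k => by simp [reassoc_of% b2 c k]

theorem Nl.past (hz : ∃ Z : C, 𝟙 Z = 0) (hR : ∀ (q : Q) x y, R x y → R (q • x) (q • y))
    (κ : Y → K) (hκ : ∀ x y y' z, Pth R m x y → Pth R m x y' → R y z → R y' z → κ y = κ y')
    (φ : Y × K → Y) (h1 : ∀ y c, α y → α' (φ (y, c)))
    (h2 : ∀ x (q : Q) y c, α x → α y → R x (q • y) → R' (φ (x, c)) (q • φ (y, κ (q⁻¹ • x))))
    (h : S.Nl θ π R' m α') : S.Nl θ π R m α := by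
  intro A L n hL hn hm
  obtain ⟨s, F, e, hF⟩ := hn.parts fun x g _ => κ ((π g)⁻¹ • x)
  obtain ⟨B, M, i, r, a1, a2, a3, a4, a5⟩ := L.copies hz hL s
  have b1 : (∑ c ∈ s, F c ≫ i c) ≫ ∑ c ∈ s, r c = n := by
    rw [← e, Preadditive.sum_comp]
    refine Finset.sum_congr rfl fun c k => ?_
    rw [Category.assoc, Preadditive.comp_sum, Finset.sum_eq_single c, a1 c k, Category.comp_id]
    · exact fun c' _ k' => a2 c c' k'.symm
    · exact fun k' => (k' k).elim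
  have b2 (c) (k : c ∈ s) : pw n m ≫ F c = 0 :=
    Rg.sep (F := fun c => pw n m ≫ F c) (fun c => (hn.pw hR m).comp (hF c)
      (R'' := fun x g z => ∃ y, Pth R m ((π g)⁻¹ • x) y ∧ κ y = c ∧ R y z) fun x g y g' z a b =>
        ⟨_, by simpa [mul_smul] using a.smul hR (π (g * g'))⁻¹, b.2,
          by simpa using hR (π g')⁻¹ _ _ b.1⟩)
      (by rw [← Preadditive.comp_sum, e, ← pw_succ']; exact hm)
      (fun c c' x g z ⟨y, p1, p2, p3⟩ ⟨y', q1, q2, q3⟩ => p2 ▸ q2 ▸ hκ _ _ _ _ p1 q1 p3 q3) k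
  rw [← b1]
  refine θ.cyc _ _ (h B (M.map φ) _ (a5.map fun z => h1 z.1 z.2) (Rg.map
    (R := fun x g y => R x.1 (π g • y.1) ∧ y.2 = κ ((π g)⁻¹ • x.1)) ?_ a5 a5
      fun x g y a b c => by have := h2 _ _ _ x.2 a b c.1; rwa [← c.2] at this) ?_)
  · refine (Rg.sum (R := fun z g y => g = 1 ∧ z.1 = y) _ fun c _ =>
        (a4 c).mono fun _ _ _ a => ⟨a.1, by rw [a.2]⟩).comp
      (Rg.sum (R := fun x g y => R x (π g • y.1) ∧ y.2 = κ ((π g)⁻¹ • x)) _ fun c _ =>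
        (hF c).comp (a3 c) ?_) ?_
    · rintro x g y _ _ a ⟨rfl, rfl⟩
      rw [mul_one]
      exact ⟨a.1, a.2.symm⟩
    · rintro x _ _ g z ⟨rfl, rfl⟩ a
      rwa [one_mul]
  · rw [pw_cyc, b1, Preadditive.comp_sum s, Finset.sum_eq_zero (s := s)
      (f := fun c => pw n m ≫ F c ≫ i c) fun c k => by simp [reassoc_of% b2 c k], Limits.comp_zero]

end

variable {Γ : Type w} [Group Γ] {C : Type u} [Category.{v} C] [Preadditive C]
variable {S : GC (Γ × Zi) C} {A : C}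

variable (S) in
/-- Vanishing over a subgroup. -/
def V (H : Subgroup Γ) : Prop := S.W (H.prod ⊤)

variable {X : Type} [MulAction Γ X] {P : X → Prop} (a : S.Tn A (.fst Γ Zi) X P)

theorem Tn.pw (x : A ⟶ A) (k : ℕ) : a.t (pw x k) = pw (a.t x) k := by
  induction k with
  | zero => exact a.id
  | succ k ih => rw [pw_succ, a.comp, ih, pw_succ]

theorem Tn.nil (χ : Ch Γ) {t : Γ} (ht : χ t = 1) {x : A ⟶ A} (hx : S.Sup {g | χ g.1 = 1} x)
    {m : ℕ} (hm : MP_5d3e93_al.pw x m = 0)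
    (h : ∀ y, P y → ∀ g, 0 < χ g → χ g < m → g • y ≠ y) : S.Tr ⊤ (a.t (𝟙 A - x)) := by
  let cl : ℤ → X → Set X := fun k y => {z | ∃ g, χ g = k ∧ z = g • y}
  let s : Set X → Set X := fun c => {z | t • z ∈ c}
  have h1 (k y) : s (cl k y) = cl (k - 1) y := Set.ext fun z =>
    ⟨fun ⟨g, a, b⟩ => ⟨t⁻¹ * g, by simp [a, ht]; ring, by rw [mul_smul, ← b, inv_smul_smul]⟩,
      fun ⟨g, a, b⟩ => ⟨t * g, by simp [a, ht], by rw [mul_smul, b]⟩⟩
  have h2 (k : ℕ) (y) : s^[k] (cl 0 y) = cl (-k) y := by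
    induction k with
    | zero => rfl
    | succ k ih => rw [Function.iterate_succ_apply', ih, h1]; congr 1; push_cast; ring
  rw [map_sub, a.id]
  refine nil_shift (θ := S.nt) (L := a.M.map (cl 0)) (s := s) ((a.rg hx).map a.on a.on ?_)
    (by rw [← a.pw, hm, map_zero]) (a.on.map fun y k j j1 j2 e => ?_)
  · rintro _ g y - - ⟨b, rfl⟩
    rw [h1]
    exact Set.ext fun z => ⟨fun ⟨k, c, d⟩ => ⟨k * g.1⁻¹, by simp [c, show χ g.1 = 1 from b],
      by simp [d, mul_smul]⟩, fun ⟨k, c, d⟩ => ⟨k * g.1, by simp [c, show χ g.1 = 1 from b],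
      by simp [d, mul_smul]⟩⟩
  · rw [h2] at e
    obtain ⟨g, b, c⟩ : y ∈ cl (-j) y := e ▸ ⟨1, χ.one, (one_smul _ _).symm⟩
    exact h y k g⁻¹ (by simp [b, j1]) (by simp [b, j2]) (by rw [inv_smul_eq_iff, ← c])

theorem Tn.stab (hz : ∃ Z : C, 𝟙 Z = 0) (h : ∀ y, P y → S.V (stabilizer Γ y)) {u : A ⟶ A}
    (hu : S.Iso ⊤ u) : S.Tr ⊤ (a.t u) := by
  let _ : MulAction (Γ × Zi) X := MulAction.compHom X (MonoidHom.fst Γ Zi)
  obtain ⟨-, v, -, e1, e2⟩ := hu
  refine tr_of_lg (tq_eq (Ω := P) (P := ⟨_, a.M, a.on⟩) (Q := ⟨_, a.M, a.on⟩) hz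
    (fun y k => ?_) ⟨(a.rg (S.sup_top u)).mono fun _ _ _ b => b.2, a.t v,
      (a.rg (S.sup_top v)).mono fun _ _ _ b => b.2, (a.comp _ _).symm.trans (e1 ▸ a.id),
      (a.comp _ _).symm.trans (e2 ▸ a.id)⟩).tr
  rw [show stabilizer (Γ × Zi) y = (stabilizer Γ y).prod ⊤ from
    Subgroup.ext fun g => ⟨fun b => ⟨b, trivial⟩, fun b => b.1⟩]
  exact h y k

theorem ctrl' (hz : ∃ Z : C, 𝟙 Z = 0) (hc : S.Central) {I : Type*} [MulAction Γ I]
    (hW : ∀ (U : I), ∀ H ≤ stabilizer Γ U, S.V H)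
    {Y : Type*} [MulAction Γ Y] {ρ : Y → Y → Prop} (h1 : ∀ y, ρ y y)
    (h2 : ∀ x y, ρ x y → ρ y x) (h3 : ∀ (g : Γ) x y, ρ x y → ρ (g • x) (g • y))
    {N R : ℕ} (hR : kap N < R) (Lab : ℕ → Y → I → Prop)
    (h4 : ∀ i y U U', Lab i y U → Lab i y U' → U = U')
    (h5 : ∀ i (g : Γ) y U, Lab i y U → Lab i (g • y) (g • U)) {α : Y → Prop}
    (h6 : ∀ y, α y → ∃ i < N, ∃ U, ∀ y', Pth ρ R y y' → Lab i y' U)
    {A B : C} {L : S.Lo Y A} {M : S.Lo Y B} (hL : L.On α) (hM : M.On α) {u : A ⟶ B} {v : B ⟶ A}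
    (hu : L.Rg M (fun x g y => ρ x (g.1 • y)) u) (hv : M.Rg L (fun x g y => ρ x (g.1 • y)) v)
    (e1 : u ≫ v = 𝟙 A) (e2 : v ≫ u = 𝟙 B) : S.Tr ⊤ u := by
  let _ : MulAction (Γ × Zi) Y := MulAction.compHom Y (MonoidHom.fst Γ Zi)
  let _ : MulAction (Γ × Zi) I := MulAction.compHom I (MonoidHom.fst Γ Zi)
  refine ctrl hz hc (fun z U => one_smul Γ U) (fun U H b c => ?_) h1 h2 (fun g => h3 g.1) hR Lab h4
    (fun i g => h5 i g.1) h6 hL hM hu hv e1 e2
  rw [show H = (H.map (.fst Γ Zi)).prod ⊤ from Subgroup.ext fun g => ⟨fun k => ⟨⟨g, k, rfl⟩,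
    trivial⟩, fun ⟨⟨k, d, e⟩, _⟩ => by
      rw [show g = k * (1, k.2⁻¹ * g.2) from Prod.ext (by simpa using e.symm) (by simp)]
      exact H.mul_mem d (c _)⟩]
  exact hW U _ (by rintro _ ⟨g, k, rfl⟩; exact b k)

end GC

end Pool.Agent.Lib.MP_5d3e93_al
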