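import Pool.Agent.Lib.MP_5d3e93_al.QT

/-! Contraction and splitting of controlled isomorphisms. -/

open CategoryTheory

namespace Pool.Agent.Lib.MP_5d3e93_al

universe w v u

namespace GC

namespace CF

variable {G : Type w} [Group G] {C : Type u} [Category.{v} C] [Preadditive C] {S : GC G C}
variable {A B D E A' B' D' E' : C} {Φ : S.CF} {r s : ℕ}

variable (Φ) in
/-- Shifting isomorphisms of a telescope. -/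
def Sh (r : ℕ) (α : S.sum A D ⟶ S.sum D B) : Prop :=
  S.Sup {1} α ∧ Φ.Ct r (α ≫ S.fst D B) ∧ Φ.Ct 0 (α ≫ S.snd D B) ∧ ∃ α' : S.sum D B ⟶ S.sum A D,
    S.Sup {1} α' ∧ Φ.Ct r (S.inl D B ≫ α') ∧ Φ.Ct 0 (S.inr D B ≫ α') ∧ α ≫ α' = 𝟙 _ ∧
      α' ≫ α = 𝟙 _

theorem Sh.hi {α : S.sum A D ⟶ S.sum D B} (h : Φ.Sh r α) : Φ.HI r 1 α := by
  obtain ⟨h1, h2, h3, α', h4, h5, h6, h7, h8⟩ := h
  refine hi_mk h1 h4 ?_ ?_ h7 h8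
  · have := Φ.add (Φ.c0 h2 Φ.inl) (Φ.c0 (Φ.mono h3 (Nat.zero_le r)) Φ.inr)
    simpa [← Preadditive.comp_add, S.total] using this
  · have := Φ.add (Φ.c0' Φ.fst h5) (Φ.c0' Φ.snd (Φ.mono h6 (Nat.zero_le r)))
    simpa only [← Category.assoc, ← Preadditive.add_comp, S.total, Category.id_comp] using this

theorem Sh.step {α : S.sum A D ⟶ S.sum D B} (h : Φ.Sh r α) {σ : B ⟶ B'} (hσ : Φ.HI r 1 σ) :
    Φ.Sh r (S.asc' A D B' ≫ S.blk (α ≫ S.blk (𝟙 D) 0 0 σ) 0 0 (𝟙 B')) := by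
  obtain ⟨h1, h2, h3, α', h4, h5, h6, h7, h8⟩ := h
  obtain ⟨k1, k2, σ', k3, k4, k5, k6⟩ := hσ
  rw [inv_one] at k3
  refine ⟨(S.sup_asc' (by simp) _ _ _).mul1 (.blk (h1.mul1 (.blk id1 .zero .zero k1)) .zero .zero
    id1), ?_, ?_, S.blk (S.blk (𝟙 D) 0 0 σ' ≫ α') 0 0 (𝟙 B') ≫ S.asc A D B',
    Sup.mul1 (.blk (Sup.mul1 (.blk id1 .zero .zero k3) h4) .zero .zero id1)
      (S.sup_asc (by simp) _ _ _), ?_, ?_, ?_, ?_⟩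
  · have := Φ.c0' (Φ.c0 (ct_asc' (A := A) (B := D) (D := B')) Φ.fst)
      (Φ.add (Φ.c0 h2 Φ.inl) (Φ.c0' h3 (Φ.c0 k2 Φ.inr)))
    convert this using 1
    apply S.hom_ext' <;> simp
  · have := Φ.c0 (ct_asc' (r := 0) (A := A) (B := D) (D := B')) Φ.snd
    simpa using this
  · have := Φ.c0 (Φ.add (Φ.c0' Φ.fst h5) (Φ.c0' Φ.snd (Φ.c0 k4 h6)))
      (Φ.c0 (Φ.inl (B := B')) ct_asc)
    convert this using 1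
    apply S.hom_ext <;> simp
  · have := Φ.c0 (Φ.inr (r := 0) (A := S.sum A D) (B := B')) ct_asc
    simpa using this
  · simp only [Category.assoc, reassoc_of% S.blk_comp]
    simp [k5, h7, S.asc'_asc]
  · simp only [Category.assoc, reassoc_of% S.asc_asc']
    simp [reassoc_of% h8, k6]

/-- Contraction along a controlled homotopy. -/
theorem Tq.contr {P Q : ℕ → C} {u : ∀ m, P m ⟶ Q m} (hu : ∀ m, Φ.CI r (u m))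
    {σ : ∀ m, P m ⟶ P (m + 1)} {τ : ∀ m, Q m ⟶ Q (m + 1)} (hσ : ∀ m, Φ.HI r 1 (σ m))
    (hτ : ∀ m, Φ.HI r 1 (τ m)) (c : ∀ m, u m ≫ τ m = σ m ≫ u (m + 1)) (M : ℕ)
    (h : Φ.Tq s (u M)) : Φ.Tq (s + 8 * r) (u 0) := by
  have key : ∃ (D E : C) (w : D ⟶ E) (α : S.sum (P 0) D ⟶ S.sum D (P M))
      (β : S.sum (Q 0) E ⟶ S.sum E (Q M)), Φ.CI r w ∧ Φ.Sh r α ∧ Φ.Sh r β ∧
      S.blk (u 0) 0 0 w ≫ β = α ≫ S.blk w 0 0 (u M) := by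
    clear h
    induction M with
    | zero =>
      have (A : C) : Φ.Sh r (𝟙 (S.sum A A)) := ⟨id1, by simpa using Φ.fst, by simpa using Φ.snd,
        𝟙 _, id1, by simpa using Φ.inl, by simpa using Φ.inr, by simp, by simp⟩
      exact ⟨_, _, u 0, _, _, hu 0, this _, this _, by simp⟩
    | succ M ih =>
      obtain ⟨D, E, w, α, β, ⟨h1, w', h2, h3, h4⟩, h5, h6, h7⟩ := ih
      obtain ⟨k1, v, k2, k3, k4⟩ := hu (M + 1)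
      refine ⟨_, _, S.blk w 0 0 (u (M + 1)), _, _, ⟨Φ.blk h1 Φ.zero Φ.zero k1, S.blk w' 0 0 v,
        Φ.blk h2 Φ.zero Φ.zero k2, by simp [h3, k3], by simp [h4, k4]⟩, h5.step (hσ M),
        h6.step (hτ M), ?_⟩
      have e : S.blk (u 0) 0 0 (S.blk w 0 0 (u (M + 1))) ≫ S.asc' _ _ _ =
          S.asc' _ _ _ ≫ S.blk (S.blk (u 0) 0 0 w) 0 0 (u (M + 1)) := by simp [asc']
      rw [reassoc_of% e]
      simp [reassoc_of% h7, c M]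
  obtain ⟨D, E, w, α, β, ⟨h1, w', h2, h3, h4⟩, h5, h6, h7⟩ := key
  exact Tq.strip h1 h2 h3 h4 h5.hi h6.hi h7 h

variable (S) in
/-- Exchange of the middle summands. -/
def shuf (A B D E : C) : S.sum (S.sum A B) (S.sum D E) ⟶ S.sum (S.sum A D) (S.sum B E) :=
  S.blk (S.fst A B ≫ S.inl A D) (S.snd A B ≫ S.inl B E) (S.fst D E ≫ S.inr A D)
    (S.snd D E ≫ S.inr B E)

theorem hi_shuf : Φ.HI 0 1 (shuf S A B D E) := by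
  have h (A B D E : C) : S.Sup {1} (shuf S A B D E) ∧ Φ.Ct 0 (shuf S A B D E) ∧
      shuf S A B D E ≫ shuf S A D B E = 𝟙 _ :=
    ⟨.blk (fst1.mul1 inl1) (snd1.mul1 inl1) (fst1.mul1 inr1) (snd1.mul1 inr1),
      Φ.blk (Φ.c0 Φ.fst Φ.inl) (Φ.c0 Φ.snd Φ.inl) (Φ.c0 Φ.fst Φ.inr) (Φ.c0 Φ.snd Φ.inr),
      by simp [shuf, S.total]⟩
  exact hi_mk (h _ _ _ _).1 (h _ _ _ _).1 (h _ _ _ _).2.1 (h _ _ _ _).2.1 (h _ _ _ _).2.2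
    (h _ _ _ _).2.2

variable (Φ) in
/-- The idempotent is stably an object, with control. -/
def So (r : ℕ) (e : A ⟶ A) (D E : C) : Prop :=
  ∃ (x : S.sum A D ⟶ E) (y : E ⟶ S.sum A D), Φ.Ct r x ∧ Φ.Ct r y ∧
    x ≫ y = S.blk e 0 0 (𝟙 D) ∧ y ≫ x = 𝟙 E

theorem half {P Q0 Q1 : C} {a : P ⟶ Q0} {b : P ⟶ Q1} {a' : Q0 ⟶ P} {b' : Q1 ⟶ P}
    (ha : Φ.Ct r a) (hb : Φ.Ct r b) (ha' : Φ.Ct r a') (hb' : Φ.Ct r b')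
    (e1 : a ≫ a' + b ≫ b' = 𝟙 P) (e2 : a' ≫ b = 0) (e3 : b' ≫ a = 0) (e4 : b' ≫ b = 𝟙 Q1)
    {x : S.sum Q0 D ⟶ E} {y : E ⟶ S.sum Q0 D} (hx : Φ.Ct s x) (hy : Φ.Ct s y)
    (e5 : x ≫ y = S.blk (a' ≫ a) 0 0 (𝟙 D)) (e6 : y ≫ x = 𝟙 E) :
    Φ.CI (r + s) (S.blk (a ≫ S.inl Q0 D ≫ x) b (S.inr Q0 D ≫ x) 0) := by
  have f1 : a ≫ a' = 𝟙 P - b ≫ b' := eq_sub_of_add_eq e1
  have f2 : y ≫ S.blk (a' ≫ a) 0 0 (𝟙 D) ≫ x = 𝟙 E := by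
    rw [← e5, Category.assoc, e6, Category.comp_id, e6]
  refine ⟨Φ.blk (Φ.comp ha (Φ.c0' Φ.inl hx)) (Φ.mono hb (by omega))
    (Φ.comp' Φ.inr hx le_rfl) Φ.zero, S.blk (y ≫ S.fst Q0 D ≫ a') (y ≫ S.snd Q0 D) b' 0,
    Φ.blk (Φ.comp' hy (Φ.c0' Φ.fst ha') (by omega)) (Φ.comp' hy Φ.snd (r := s) (s := r) (by omega))
      (Φ.mono hb' (by omega)) Φ.zero, ?_, ?_⟩
  · simp [reassoc_of% e5, reassoc_of% f1, e1, reassoc_of% e3]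
  · simp only [GC.blk, Preadditive.add_comp, Preadditive.comp_add, Category.assoc, Limits.zero_comp,
      Limits.comp_zero, add_zero, Category.id_comp] at f2
    simp [e2, e4, reassoc_of% e3, f2]

/-- Splitting along a cut. -/
theorem split {P1 P2 Q0 Q1 Q2 : C} {u : S.sum P1 P2 ⟶ S.sum Q0 (S.sum Q1 Q2)}
    {v : S.sum Q0 (S.sum Q1 Q2) ⟶ S.sum P1 P2} (hu : Φ.Ct r u) (hv : Φ.Ct r v)
    (e1 : u ≫ v = 𝟙 _) (e2 : v ≫ u = 𝟙 _)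
    (z1 : S.inr _ _ ≫ u ≫ S.snd _ _ ≫ S.fst _ _ = 0)
    (z2 : S.inl _ _ ≫ u ≫ S.snd _ _ ≫ S.snd _ _ = 0)
    (z3 : S.inl _ _ ≫ S.inr _ _ ≫ v ≫ S.snd _ _ = 0)
    (z4 : S.inr _ _ ≫ S.inr _ _ ≫ v ≫ S.fst _ _ = 0) {Ob : C → Prop} {t : ℕ}
    (h0 : ∀ e : Q0 ⟶ Q0, Φ.Ct (r + r) e → e ≫ e = e → ∃ D E, Ob D ∧ Ob E ∧ Φ.So s e D E)
    (h1 : ∀ D E, Ob D → Ob E → ∀ w : S.sum P1 D ⟶ S.sum E Q1, Φ.CI (r + s) w → Φ.Tq t w)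
    (h2 : ∀ D E, Ob D → Ob E → ∀ w : S.sum P2 D ⟶ S.sum E Q2, Φ.CI (r + s) w → Φ.Tq t w)
    (h3 : ∀ D E D' E', Ob D → Ob E → Ob D' → Ob E' →
      ∀ w : S.sum Q0 (S.sum D D') ⟶ S.sum E E', Φ.CI s w → Φ.Tq t w) : Φ.Tq (3 * t) u := by
  obtain ⟨a, b, c, d, rfl, ha, hb, hc, hd⟩ : ∃ a b c d, u = S.blk a (b ≫ S.inl Q1 Q2) c
      (d ≫ S.inr Q1 Q2) ∧ Φ.Ct r a ∧ Φ.Ct r b ∧ Φ.Ct r c ∧ Φ.Ct r d := by
    refine ⟨S.inl _ _ ≫ u ≫ S.fst _ _, S.inl _ _ ≫ u ≫ S.snd _ _ ≫ S.fst _ _,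
      S.inr _ _ ≫ u ≫ S.fst _ _, S.inr _ _ ≫ u ≫ S.snd _ _ ≫ S.snd _ _, ?_,
      Φ.c0' Φ.inl (Φ.c0 hu Φ.fst), Φ.c0' Φ.inl (Φ.c0 hu (Φ.c0 Φ.snd Φ.fst)),
      Φ.c0' Φ.inr (Φ.c0 hu Φ.fst), Φ.c0' Φ.inr (Φ.c0 hu (Φ.c0 Φ.snd Φ.snd))⟩
    apply S.hom_ext <;> apply S.hom_ext' <;> simp <;> apply S.hom_ext' <;> simp [z1, z2]
  obtain ⟨a', c', b', d', rfl, ha', hb', hc', hd'⟩ : ∃ a' c' b' d', v = S.blk a' c'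
      (S.fst Q1 Q2 ≫ b') (S.snd Q1 Q2 ≫ d') ∧ Φ.Ct r a' ∧ Φ.Ct r b' ∧ Φ.Ct r c' ∧ Φ.Ct r d' := by
    refine ⟨S.inl _ _ ≫ v ≫ S.fst _ _, S.inl _ _ ≫ v ≫ S.snd _ _,
      S.inl _ _ ≫ S.inr _ _ ≫ v ≫ S.fst _ _, S.inr _ _ ≫ S.inr _ _ ≫ v ≫ S.snd _ _, ?_,
      Φ.c0' Φ.inl (Φ.c0 hv Φ.fst), Φ.c0' Φ.inl (Φ.c0' Φ.inr (Φ.c0 hv Φ.fst)),
      Φ.c0' Φ.inl (Φ.c0 hv Φ.snd), Φ.c0' Φ.inr (Φ.c0' Φ.inr (Φ.c0 hv Φ.snd))⟩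
    apply S.hom_ext <;> apply S.hom_ext' <;> simp <;> apply S.hom_ext <;> simp [z3, z4]
  have f1 : a ≫ a' + b ≫ b' = 𝟙 _ := by simpa using congrArg (S.inl _ _ ≫ · ≫ S.fst _ _) e1
  have f2 : a ≫ c' = 0 := by simpa using congrArg (S.inl _ _ ≫ · ≫ S.snd _ _) e1
  have f3 : c ≫ a' = 0 := by simpa using congrArg (S.inr _ _ ≫ · ≫ S.fst _ _) e1
  have f4 : c ≫ c' + d ≫ d' = 𝟙 _ := by simpa using congrArg (S.inr _ _ ≫ · ≫ S.snd _ _) e1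
  have g1 : a' ≫ a + c' ≫ c = 𝟙 _ := by simpa using congrArg (S.inl _ _ ≫ · ≫ S.fst _ _) e2
  have g2 : a' ≫ b = 0 := by simpa using congrArg (S.inl _ _ ≫ · ≫ S.snd _ _ ≫ S.fst _ _) e2
  have g3 : c' ≫ d = 0 := by simpa using congrArg (S.inl _ _ ≫ · ≫ S.snd _ _ ≫ S.snd _ _) e2
  have g4 : b' ≫ a = 0 := by simpa using congrArg (S.inl _ _ ≫ S.inr _ _ ≫ · ≫ S.fst _ _) e2
  have g5 : d' ≫ c = 0 := by simpa using congrArg (S.inr _ _ ≫ S.inr _ _ ≫ · ≫ S.fst _ _) e2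
  have g6 : b' ≫ b = 𝟙 _ := by
    simpa using congrArg (S.inl _ _ ≫ S.inr _ _ ≫ · ≫ S.snd _ _ ≫ S.fst _ _) e2
  have g7 : d' ≫ d = 𝟙 _ := by
    simpa using congrArg (S.inr _ _ ≫ S.inr _ _ ≫ · ≫ S.snd _ _ ≫ S.snd _ _) e2
  have i1 : (a' ≫ a) ≫ a' ≫ a = a' ≫ a := by
    have := congrArg (· ≫ a' ≫ a) g1
    simpa [reassoc_of% f3] using this
  have i2 : (c' ≫ c) ≫ c' ≫ c = c' ≫ c := by
    have := congrArg (· ≫ c' ≫ c) g1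
    simpa [reassoc_of% f2] using this
  obtain ⟨D, E, oD, oE, x, y, hx, hy, x1, x2⟩ := h0 _ (Φ.comp ha' ha) i1
  obtain ⟨D', E', oD', oE', x', y', hx', hy', x3, x4⟩ := h0 _ (Φ.comp hc' hc) i2
  have k1 := h1 _ _ oD oE _ (half ha hb ha' hb' f1 g2 g4 g6 hx hy x1 x2)
  have k2 := h2 _ _ oD' oE' _ (half hc hd hc' hd' f4 g3 g5 g7 hx' hy' x3 x4)
  have m1 : S.blk (a' ≫ a) 0 0 (𝟙 D) ≫ x = x := by rw [← x1, Category.assoc, x2, Category.comp_id]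
  have m2 : S.blk (c' ≫ c) 0 0 (𝟙 D') ≫ x' = x' := by
    rw [← x3, Category.assoc, x4, Category.comp_id]
  have m3 : y ≫ S.blk (a' ≫ a) 0 0 (𝟙 D) = y := by rw [← x1, reassoc_of% x2]
  have m4 : y' ≫ S.blk (c' ≫ c) 0 0 (𝟙 D') = y' := by rw [← x3, reassoc_of% x4]
  have n1 : a' ≫ a ≫ S.inl _ _ ≫ x = S.inl _ _ ≫ x := by simpa using congrArg (S.inl _ _ ≫ ·) m1
  have n2 : c' ≫ c ≫ S.inl _ _ ≫ x' = S.inl _ _ ≫ x' := by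
    simpa using congrArg (S.inl _ _ ≫ ·) m2
  have n3 : y ≫ S.fst _ _ ≫ a' ≫ a = y ≫ S.fst _ _ := by simpa using congrArg (· ≫ S.fst _ _) m3
  have n4 : y' ≫ S.fst _ _ ≫ c' ≫ c = y' ≫ S.fst _ _ := by
    simpa using congrArg (· ≫ S.fst _ _) m4
  have n5 : c ≫ S.inl _ _ ≫ x = 0 := by rw [← n1, reassoc_of% f3, Limits.zero_comp]
  have n6 : a ≫ S.inl _ _ ≫ x' = 0 := by rw [← n2, reassoc_of% f2, Limits.zero_comp]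
  have k3 := h3 _ _ _ _ oD oE oD' oE' (S.blk (S.inl _ _ ≫ x) (S.inl _ _ ≫ x')
    (S.fst _ _ ≫ S.inr _ _ ≫ x) (S.snd _ _ ≫ S.inr _ _ ≫ x')) ⟨Φ.blk (Φ.c0' Φ.inl hx)
      (Φ.c0' Φ.inl hx') (Φ.c0' Φ.fst (Φ.c0' Φ.inr hx)) (Φ.c0' Φ.snd (Φ.c0' Φ.inr hx')),
    S.blk (y ≫ S.fst _ _) (y ≫ S.snd _ _ ≫ S.inl _ _) (y' ≫ S.fst _ _)
      (y' ≫ S.snd _ _ ≫ S.inr _ _), Φ.blk (Φ.c0 hy Φ.fst) (Φ.c0 hy (Φ.c0 Φ.snd Φ.inl))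
      (Φ.c0 hy' Φ.fst) (Φ.c0 hy' (Φ.c0 Φ.snd Φ.inr)),
      by simp [reassoc_of% x1, reassoc_of% x3, g1, S.total], ?_⟩
  · have k4 := Tq.c0' (hi_asc.c0 ((hi_id.bd hi_flip).c0 hi_asc'))
      ((k3.bd_id (S.sum Q1 Q2)).c0 hi_shuf)
    have k5 := Tq.c0' (hi_shuf (A := P1) (B := P2) (D := D) (E := D')) (k1.bd k2)
    refine (k4.cancel_right (f := S.blk _ 0 0 (𝟙 _)) ?_).of_bd.mono (r := t + t + t) (by omega)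
    convert k5 using 1
    simp [asc, asc', flip, shuf, reassoc_of% n5, reassoc_of% n6]
  · have p1 : y ≫ S.fst _ _ ≫ S.inl _ _ ≫ x' = 0 := by
      rw [← reassoc_of% n3, n6]; simp
    have p2 : y' ≫ S.fst _ _ ≫ S.inl _ _ ≫ x = 0 := by
      rw [← reassoc_of% n4, n5]; simp
    have p3 := congrArg (y ≫ · ≫ x) (S.total Q0 D)
    have p4 := congrArg (y' ≫ · ≫ x') (S.total Q0 D')
    simp [x2, x4] at p3 p4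
    simp [p1, p2, p3, p4]

end CF

end GC

end Pool.Agent.Lib.MP_5d3e93_al
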