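import Pool.Agent.Lib.MP_5d3e93_al.LC

/-! Location preserving isomorphisms and moving locations. -/

open CategoryTheory MulAction

namespace Pool.Agent.Lib.MP_5d3e93_al

universe w v u

namespace GC

open Lo CF

variable {G : Type w} [Group G] {C : Type u} [Category.{v} C] [Preadditive C] {S : GC G C}
variable {X : Type*} [MulAction G X] {Ω : X → Prop} {ν : Nr G X} {r s : ℕ} {x : X}

theorem ct_pt {P Q : S.LO X Ω} (hP : P.L.On (· = x)) (hQ : Q.L.On (· = x)) {f : P.A ⟶ Q.A}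
    (h : S.Sup (stabilizer G x) f) : (S.lc Ω ν).Ct r (A := P) (B := Q) f :=
  (rg_sup h).on hP hQ fun _ g _ a b c => by
    rw [a, b, show g • x = x from c]; exact ν.refl _ _

theorem hi_pt {P Q : S.LO X Ω} (hP : P.L.On (· = x)) (hQ : Q.L.On (· = x)) {f : P.A ⟶ Q.A} {g : G}
    (hg : g ∈ stabilizer G x) (h : S.HIso g f) : (S.lc Ω ν).HI r g (A := P) (B := Q) f := by
  obtain ⟨h1, f', h2, h3⟩ := h
  exact ⟨h1, ct_pt hP hQ (h1.mono (by simpa using hg)), f', h2,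
    ct_pt hQ hP (h2.mono (by simpa using hg)), h3⟩

/-- Objects at one point. -/
noncomputable abbrev LO.pt (hx : Ω x) (A : C) : S.LO X Ω := ⟨A, .one S x A, on_one hx A⟩

theorem tq_pt (hx : Ω x) {A B : C} {f : A ⟶ B} (h : S.Tr (stabilizer G x) f) :
    (S.lc Ω ν).Tq 0 (A := .pt hx A) (B := .pt hx B) f := by
  have o (A : C) : (LO.pt hx A : S.LO X Ω).L.On (· = x) := on_one (P := (· = x)) rfl A
  have a (A B : C) : (S.lc Ω ν).HI 0 1 (A := .pt hx (S.sum A B))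
      (B := (S.lg X Ω).sum (.pt hx A) (.pt hx B)) (𝟙 (S.sum A B)) :=
    hi_pt (o _) ((o _).add (o _)) (one_mem _) (S.hiso_id _)
  have b (A B : C) : (S.lc Ω ν).HI 0 1 (B := .pt hx (S.sum A B))
      (A := (S.lg X Ω).sum (.pt hx A) (.pt hx B)) (𝟙 (S.sum A B)) :=
    hi_pt ((o _).add (o _)) (o _) (one_mem _) (S.hiso_id _)
  have e {A B : C} (f : A ⟶ B) : f = 𝟙 A ≫ f ≫ 𝟙 B := by simp
  have key {A B : C} {f : A ⟶ B} (h : S.Tr0 (stabilizer G x) f) :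
      (S.lc Ω ν).Tq0 0 (A := .pt hx A) (B := .pt hx B) f := by
    induction h with
    | one h => exact .one (hi_pt (o _) (o _) (one_mem _) h)
    | hom D k h =>
      rw [e (S.blk _ _ _ _)]
      exact .c0' (a _ _) ((Tq0.hom (.pt hx D) (hi_pt (o _) (o _) k h)).c0 (b _ _))
    | upper h =>
      rw [e (S.blk _ _ _ _)]
      exact .c0' (a _ _) ((Tq0.upper (ct_pt (o _) (o _) h)).c0 (b _ _))
    | comp _ _ h1 h2 => exact h1.comp h2
  obtain ⟨D, h⟩ := h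
  refine ⟨.pt hx D, ?_⟩
  have := (Tq0.c0' (b _ _) (key h)).c0 (a _ _)
  convert this using 1
  exact (e _).trans (Category.assoc _ _ _).symm

theorem tq_orb (hz : ∃ Z : C, 𝟙 Z = 0) (hx : Ω x) (t : Finset X) : ∀ P : S.LO X Ω,
    P.L.On (fun y => y ∈ t ∧ ∃ g : G, g • x = y) →
      ∃ (A : C) (σ : P ⟶ .pt hx A), (S.lc Ω ν).Tq 0 σ := by
  classical
  have o (A : C) : (LO.pt hx A : S.LO X Ω).L.On (· = x) := on_one (P := (· = x)) rfl A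
  induction t using Finset.induction_on with
  | empty =>
    exact fun P h => ⟨P.A, 𝟙 P.A, .hom (hi_pt (h.mono (by simp)) (o _) (one_mem _) (S.hiso_id _))⟩
  | insert y t _ ih =>
    intro P h
    obtain ⟨P1, P2, σ, h1, h2, h3, h4⟩ := lo_split (ν := ν) hz P (· = y)
    obtain ⟨A, τ, h5⟩ := ih P2 (((h4 _ h).2.and h3).mono fun z k => ⟨by simpa [k.2] using k.1.1, k.1.2⟩)
    by_cases k : ∃ g : G, g • x = y
    · obtain ⟨g, rfl⟩ := k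
      obtain ⟨B, f, f', k1, k2, k3, k4⟩ := S.shift P1.A g
      have k5 : (S.lc Ω ν).HI 0 g (A := P1) (B := .pt hx B) f :=
        ⟨.of_cp k1 rfl, (rg_sup (T := {g}) (.of_cp k1 rfl)).on h2 (o _) fun _ _ _ a b c => by
          rw [a, b, show _ = g from c]; exact ν.refl _ _, f', .of_cp k2 rfl,
          (rg_sup (T := {g⁻¹}) (.of_cp k2 rfl)).on (o _) h2 fun _ _ _ a b c => by
            rw [a, b, show _ = g⁻¹ from c, inv_smul_smul]; exact ν.refl _ _, k3, k4⟩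
      exact ⟨_, _, .c0' h1 (((Tq.hom k5).bd h5).c0
        (hi_pt ((o _).add (o _)) (o _) (one_mem _) (S.hiso_id _)))⟩
    · exact ⟨_, _, .c0' h1 (((Tq.hom (hi_pt (Q := .pt hx P1.A) (((h4 _ h).1.and h2).mono
        fun z a => (k (a.2 ▸ a.1.2)).elim) (o _) (one_mem _) (S.hiso_id _))).bd h5).c0
        (hi_pt ((o _).add (o _)) (o _) (one_mem _) (S.hiso_id _)))⟩

theorem CF.CI.conj {Φ : S.CF} {A B A' B' : C} {u : A ⟶ B} (h : Φ.CI r u) {a : A' ⟶ A}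
    {b : B ⟶ B'} (ha : Φ.CI s a) (hb : Φ.CI s b) : Φ.CI (r + 2 * s) (a ≫ u ≫ b) := by
  obtain ⟨h1, u', h2, h3, h4⟩ := h
  obtain ⟨a1, a', a2, a3, a4⟩ := ha
  obtain ⟨b1, b', b2, b3, b4⟩ := hb
  exact ⟨Φ.comp' a1 (Φ.comp h1 b1) (by omega), b' ≫ u' ≫ a', Φ.comp' b2 (Φ.comp h2 a2) (by omega),
    by simp [reassoc_of% b3, reassoc_of% h3, a3], by simp [reassoc_of% a4, reassoc_of% h4, b4]⟩

theorem CF.Tq.ci {Φ : S.CF} {A B : C} {u : A ⟶ B} (h : Φ.Tq r u) : Φ.CI r u := by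
  obtain ⟨h1, v, -, h2⟩ := h.inv
  exact ⟨h1, v, h2⟩

/-- Replacing source and target. -/
theorem CF.Tq.of_conj {Φ : S.CF} {A B A' B' : C} {u : A ⟶ B} (h : Φ.CI r u) {a : A ⟶ A'}
    {b : B ⟶ B'} (ha : Φ.Tq s a) (hb : Φ.Tq s b) {t : ℕ}
    (k : ∀ w : A' ⟶ B', Φ.CI (r + 2 * s) w → Φ.Tq t w) : Φ.Tq (t + 2 * s) u := by
  obtain ⟨-, a', a1, -, -, -⟩ := ha.inv
  exact (hb.cancel_right (a1.cancel_left (k _ (h.conj a1.ci hb.ci)))).mono (by omega)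

theorem CF.CI.diag {Φ : S.CF} {A B A' B' : C} {u : S.sum A B ⟶ S.sum A' B'} (h : Φ.CI r u)
    (z1 : ∀ f : A ⟶ B', Φ.Ct r f → f = 0) (z2 : ∀ f : B ⟶ A', Φ.Ct r f → f = 0)
    (z3 : ∀ f : A' ⟶ B, Φ.Ct r f → f = 0) (z4 : ∀ f : B' ⟶ A, Φ.Ct r f → f = 0) :
    ∃ a b, u = S.blk a 0 0 b ∧ Φ.CI r a ∧ Φ.CI r b := by
  obtain ⟨h1, v, h2, h3, h4⟩ := h
  have e1 : u = S.blk (S.inl _ _ ≫ u ≫ S.fst _ _) 0 0 (S.inr _ _ ≫ u ≫ S.snd _ _) := by
    apply S.hom_ext <;> apply S.hom_ext' <;>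
      simp [z1 _ (Φ.c0' Φ.inl (Φ.c0 h1 Φ.snd)), z2 _ (Φ.c0' Φ.inr (Φ.c0 h1 Φ.fst))]
  have e2 : v = S.blk (S.inl _ _ ≫ v ≫ S.fst _ _) 0 0 (S.inr _ _ ≫ v ≫ S.snd _ _) := by
    apply S.hom_ext <;> apply S.hom_ext' <;>
      simp [z3 _ (Φ.c0' Φ.inl (Φ.c0 h2 Φ.snd)), z4 _ (Φ.c0' Φ.inr (Φ.c0 h2 Φ.fst))]
  have c1 := Φ.c0' Φ.inl (Φ.c0 h1 Φ.fst)
  have c2 := Φ.c0' Φ.inr (Φ.c0 h1 Φ.snd)
  have c3 := Φ.c0' Φ.inl (Φ.c0 h2 Φ.fst)
  have c4 := Φ.c0' Φ.inr (Φ.c0 h2 Φ.snd)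
  generalize S.inl _ _ ≫ u ≫ S.fst _ _ = a, S.inr _ _ ≫ u ≫ S.snd _ _ = b at e1 c1 c2
  generalize S.inl _ _ ≫ v ≫ S.fst _ _ = a', S.inr _ _ ≫ v ≫ S.snd _ _ = b' at e2 c3 c4
  subst e1 e2
  exact ⟨a, b, rfl, ⟨c1, a', c3, by simpa using congrArg (S.inl _ _ ≫ · ≫ S.fst _ _) h3,
    by simpa using congrArg (S.inl _ _ ≫ · ≫ S.fst _ _) h4⟩,
    ⟨c2, b', c4, by simpa using congrArg (S.inr _ _ ≫ · ≫ S.snd _ _) h3,
    by simpa using congrArg (S.inr _ _ ≫ · ≫ S.snd _ _) h4⟩⟩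

/-- Location preserving isomorphisms are trivial. -/
theorem tq_eq (hz : ∃ Z : C, 𝟙 Z = 0) (hW : ∀ x, Ω x → S.W (stabilizer G x)) {P Q : S.LO X Ω}
    {u : P ⟶ Q} (h : (S.lc Ω (.eq G X)).CI 0 u) : (S.lc Ω (.eq G X)).Tq 0 u := by
  classical
  have key (t : Finset X) : ∀ {P Q : S.LO X Ω} {u : P ⟶ Q}, (S.lc Ω (.eq G X)).CI 0 u →
      P.L.On (· ∈ t) → Q.L.On (· ∈ t) → (S.lc Ω (.eq G X)).Tq 0 u := by
    induction t using Finset.strongInduction with | _ t ih => ?_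
    intro P Q u h hP hQ
    by_cases k : ∃ x ∈ t, Ω x
    · obtain ⟨x, hx, hx'⟩ := k
      let π : X → Prop := fun y => ∃ g : G, g • x = y
      have hπ (y : X) (g : G) : π (g • y) ↔ π y := ⟨fun ⟨a, e⟩ => ⟨g⁻¹ * a, by
        rw [mul_smul, e, inv_smul_smul]⟩, fun ⟨a, e⟩ => ⟨g * a, by rw [mul_smul, e]⟩⟩
      obtain ⟨P1, P2, σ, h1, h2, h3, h4⟩ := lo_split (ν := .eq G X) hz P π
      obtain ⟨Q1, Q2, τ, k1, k2, k3, k4⟩ := lo_split (ν := .eq G X) hz Q π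
      refine Tq.of_conj (t := 0) h (.hom h1) (.hom k1) fun w hw => ?_
      have z1 (y : X) (g : G) (z : X) (a : π y) (b : ¬ π z) : ¬ (Nr.eq G X).n 0 y (g • z) :=
        fun e => b ((hπ z g).1 ((show y = _ from e) ▸ a))
      have z2 (y : X) (g : G) (z : X) (a : ¬ π y) (b : π z) : ¬ (Nr.eq G X).n 0 y (g • z) :=
        fun e => a ((show y = _ from e) ▸ (hπ z g).2 b)
      obtain ⟨a, b, rfl, ha, hb⟩ := hw.diag (fun f c => ct_zero c h2 k3 z1)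
        (fun f c => ct_zero c h3 k2 z2) (fun f c => ct_zero c k2 h3 z1)
        (fun f c => ct_zero c k3 h2 z2)
      refine Tq.bd (r := 0) (s := 0) ?_ (ih (t.erase x) (Finset.erase_ssubset hx) hb
        (((h4 _ hP).2.and h3).mono ?_) (((k4 _ hQ).2.and k3).mono ?_))
      · obtain ⟨A, α, m1⟩ := tq_orb (ν := .eq G X) hz hx' t P1 ((h4 _ hP).1.and h2)
        obtain ⟨B, β, m2⟩ := tq_orb (ν := .eq G X) hz hx' t Q1 ((k4 _ hQ).1.and k2)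
        refine Tq.of_conj (t := 0) ha m1 m2 fun w hw => tq_pt hx' (hW x hx' _ _ _ ?_)
        obtain ⟨c1, w', c2, c3⟩ := hw
        have o (A : C) : (LO.pt hx' A : S.LO X Ω).L.On (· = x) := on_one (P := (· = x)) rfl A
        have q : ∀ y (g : G) z, y = x → z = x → (Nr.eq G X).n (0 + 2 * 0) y (g • z) →
            g ∈ stabilizer G x := fun y g z a b c => by rw [a, b] at c; exact c.symm
        exact ⟨(Rg.on c1 (o _) (o _) q).sup fun _ _ _ => id, w',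
          (Rg.on c2 (o _) (o _) q).sup fun _ _ _ => id, c3⟩
      all_goals exact fun y a => Finset.mem_erase.2 ⟨fun e => a.2 ⟨1, by simp [e]⟩, a.1⟩
    · obtain ⟨c1, v, c2, c3⟩ := h
      have q1 := (hP.and P.on).mono fun y a => k ⟨y, a⟩
      have q2 := (hQ.and Q.on).mono fun y a => k ⟨y, a⟩
      exact .hom (hi_mk ((Rg.on c1 q1 q2 fun _ _ _ a _ _ => a).sup fun _ _ _ a => a.elim)
        ((Rg.on c2 q2 q1 fun _ _ _ a _ _ => a).sup fun _ _ _ a => a.elim) c1 c2 c3.1 c3.2)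
  exact key (P.L.s ∪ Q.L.s) h (P.L.on_s.mono fun _ => Finset.mem_union_left _)
    (Q.L.on_s.mono fun _ => Finset.mem_union_right _)

/-- Moving the locations along a homotopy. -/
theorem tq_mv {P Q : S.LO X Ω} {u : P ⟶ Q} {α : X → Prop} (hP : P.L.On α) (hQ : Q.L.On α)
    (h : (S.lc Ω ν).CI r u) (φ : ℕ → X → X) (h0 : ∀ x, α x → ν.n 0 x (φ 0 x) ∧ ν.n 0 (φ 0 x) x)
    (h1 : ∀ m x, α x → Ω (φ m x))
    (h2 : ∀ m x (g : G) y, α x → α y → ν.n r x (g • y) → ν.n r (φ m x) (g • φ m y))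
    (h3 : ∀ m x, α x → ν.n r (φ m x) (φ (m + 1) x) ∧ ν.n r (φ (m + 1) x) (φ m x)) (M : ℕ)
    (k : (S.lc Ω ν).Tq s (A := P.mv (φ M) hP (h1 M)) (B := Q.mv (φ M) hQ (h1 M)) u) :
    (S.lc Ω ν).Tq (s + 8 * r) u := by
  obtain ⟨c1, v, c2, c3⟩ := h
  have a (P : S.LO X Ω) (hP : P.L.On α) (m : ℕ) : (S.lc Ω ν).HI r 1 (A := P.mv (φ m) hP (h1 m))
      (B := P.mv (φ (m + 1)) hP (h1 _)) (𝟙 P.A) :=
    hi_mk id1 id1 (rg_id.map hP hP fun x g y a _ c => by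
      rw [c.1, ← c.2, one_smul]; exact (h3 m x a).1) (rg_id.map hP hP fun x g y a _ c => by
      rw [c.1, ← c.2, one_smul]; exact (h3 m x a).2) (Category.id_comp _) (Category.id_comp _)
  have b (P : S.LO X Ω) (hP : P.L.On α) : (S.lc Ω ν).HI 0 1 (A := P)
      (B := P.mv (φ 0) hP (h1 _)) (𝟙 P.A) :=
    hi_mk id1 id1 ((rg_id.on (R' := fun x g y => ν.n 0 x (g • φ 0 y)) hP hP fun x g y a _ c => by
      rw [c.1, ← c.2, one_smul]; exact (h0 x a).1).mapr fun _ _ _ => id)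
      ((rg_id.on (R' := fun x g y => ν.n 0 (φ 0 x) (g • y)) hP hP fun x g y a _ c => by
      rw [c.1, ← c.2, one_smul]; exact (h0 x a).2).mapl fun _ _ _ => id)
      (Category.id_comp _) (Category.id_comp _)
  have c := Tq.contr (Φ := S.lc Ω ν) (P := fun m => P.mv (φ m) hP (h1 m))
    (Q := fun m => Q.mv (φ m) hQ (h1 m)) (u := fun _ => u) (fun m => ⟨Rg.map c1 hP hQ (h2 m), v,
      Rg.map c2 hQ hP (h2 m), c3⟩) (a P hP) (a Q hQ)
    (fun _ => (Category.comp_id _).trans (Category.id_comp _).symm) M k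
  refine (Tq.hom (b Q hQ)).cancel_right (s := s + 8 * r) ?_
  have := Tq.c0' (b P hP) c
  convert this using 1
  exact (Category.comp_id _).trans (Category.id_comp _).symm

end GC

end Pool.Agent.Lib.MP_5d3e93_al
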