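import Pool.Agent.Lib.MP_5d3e93_al.QB

/-! The category of located objects. -/

open CategoryTheory

namespace Pool.Agent.Lib.MP_5d3e93_al

universe w v u

namespace GC

variable {G : Type w} [Group G] {C : Type u} [Category.{v} C] [Preadditive C] {S : GC G C}
variable {A B D A' : C} {X X' X'' Y Y' : Type*}

theorem Spl.split (hz : ∃ Z : C, 𝟙 Z = 0) {e : A ⟶ A} (h : S.Spl e) :
    ∃ (B : C) (i : B ⟶ A) (r : A ⟶ B), S.Sup {1} i ∧ S.Sup {1} r ∧ i ≫ r = 𝟙 B ∧ r ≫ i = e := by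
  obtain rfl | h := h
  · obtain ⟨Z, hZ⟩ := hz
    exact ⟨Z, 0, 0, .zero, .zero, by simp [hZ], by simp⟩
  · exact h

namespace Lo

/-- Control by a relation between source point, degree and target point. -/
def Rg (L : S.Lo X A) (M : S.Lo X' B) (R : X → G → X' → Prop) (f : A ⟶ B) : Prop :=
  ∀ x y, S.Sup {g | R x g y} (L.e x ≫ f ≫ M.e y)

/-- The diagonal relation. -/
def dg (x : X) (g : G) (y : X) : Prop := g = 1 ∧ x = y

variable {L : S.Lo X A} {M : S.Lo X' B} {N : S.Lo X'' D} {R R' : X → G → X' → Prop}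
variable {f f' : A ⟶ B}

theorem On.mono {α β : X → Prop} (h : L.On α) (k : ∀ x, α x → β x) : L.On β :=
  fun x hx => h x fun a => hx (k x a)

theorem On.and {α β : X → Prop} (h : L.On α) (k : L.On β) : L.On fun x => α x ∧ β x :=
  fun x hx => by
    by_cases a : α x
    · exact k x fun b => hx ⟨a, b⟩
    · exact h x a

theorem on_s (L : S.Lo X A) : L.On (· ∈ L.s) := L.out

theorem on_true (L : S.Lo X A) : L.On fun _ => True := fun _ h => (h trivial).elim

theorem Rg.mono (h : L.Rg M R f) (k : ∀ x g y, R x g y → R' x g y) : L.Rg M R' f :=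
  fun x y => (h x y).mono fun g => k x g y

theorem Rg.on {α : X → Prop} {β : X' → Prop} (h : L.Rg M R f) (ha : L.On α) (hb : M.On β)
    (k : ∀ x g y, α x → β y → R x g y → R' x g y) : L.Rg M R' f := fun x y => by
  by_cases a : α x
  · by_cases b : β y
    · exact (h x y).mono fun g => k x g y a b
    · simpa [hb y b] using Sup.zero
  · simpa [ha x a] using Sup.zero

theorem rg_sup {T : Set G} (h : S.Sup T f) : L.Rg M (fun _ g _ => g ∈ T) f := fun x y =>
  .one_comp (L.spl x).deg.cp_eq (h.comp_one (M.spl y).deg.cp_eq)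

theorem Rg.and (h : L.Rg M R f) (h' : L.Rg M R' f) :
    L.Rg M (fun x g y => R x g y ∧ R' x g y) f := fun x y => (h x y).inter (h' x y)

theorem Rg.zero : L.Rg M R 0 := fun x y => by simpa using Sup.zero

theorem Rg.add (h : L.Rg M R f) (h' : L.Rg M R f') : L.Rg M R (f + f') := fun x y => by
  simpa using (h x y).add (h' x y)

theorem Rg.neg (h : L.Rg M R f) : L.Rg M R (-f) := fun x y => by simpa using (h x y).neg

theorem Rg.sub (h : L.Rg M R f) (h' : L.Rg M R f') : L.Rg M R (f - f') := fun x y => by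
  simpa using (h x y).sub (h' x y)

theorem Rg.sum {ι : Type*} (s : Finset ι) {F : ι → (A ⟶ B)} (h : ∀ i ∈ s, L.Rg M R (F i)) :
    L.Rg M R (∑ i ∈ s, F i) := Finset.sum_induction _ _ (fun _ _ => Rg.add) Rg.zero h

theorem Rg.comp {k : B ⟶ D} {R' : X' → G → X'' → Prop} {R'' : X → G → X'' → Prop}
    (h : L.Rg M R f) (h' : M.Rg N R' k)
    (hm : ∀ x g y g' z, R x g y → R' y g' z → R'' x (g * g') z) : L.Rg N R'' (f ≫ k) :=
  fun x z => by
    rw [← M.sum_r f]
    simp only [Preadditive.sum_comp, Preadditive.comp_sum]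
    refine .sum _ fun y _ => ?_
    simpa [reassoc_of% M.idem y] using
      (h x y).comp (h' y z) fun g hg g' hg' => hm x g y g' z hg hg'

theorem Rg.sup {T : Set G} (h : L.Rg M R f) (k : ∀ x g y, R x g y → g ∈ T) : S.Sup T f := by
  rw [← M.sum_r f, ← Category.id_comp (∑ x ∈ _, _), ← L.total]
  simp only [Preadditive.sum_comp, Preadditive.comp_sum]
  exact .sum _ fun y _ => .sum _ fun x _ => (h x y).mono fun g => k x g y

theorem Rg.eq_zero (h : L.Rg M R f) (k : ∀ x g y, ¬ R x g y) : f = 0 :=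
  S.ext0 _ fun g => h.sup (T := ∅) (fun x g y a => k x g y a) g id

theorem rg_dg {L : S.Lo X A} {M : S.Lo X B} {f : A ⟶ B} (h : S.Sup {1} f)
    (k : ∀ x y, x ≠ y → L.e x ≫ f ≫ M.e y = 0) : L.Rg M dg f := fun x y => by
  by_cases e : x = y
  · exact (rg_sup h x y).mono fun g hg => ⟨hg, e⟩
  · rw [k x y e]
    exact .zero

theorem rg_id : L.Rg L dg (𝟙 A) := rg_dg id1 fun x y h => by simp [L.orth x y h]

theorem rg_inl {L' : S.Lo X B} : L.Rg (L.add L') dg (S.inl A B) :=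
  rg_dg inl1 fun x y h => by simp [add_e, reassoc_of% L.orth x y h]

theorem rg_inr {L' : S.Lo X B} : L'.Rg (L.add L') dg (S.inr A B) :=
  rg_dg inr1 fun x y h => by simp [add_e, reassoc_of% L'.orth x y h]

theorem rg_fst {L' : S.Lo X B} : (L.add L').Rg L dg (S.fst A B) :=
  rg_dg fst1 fun x y h => by
    rw [add_e, S.blk_fst_assoc]
    simp [L.orth x y h]

theorem rg_snd {L' : S.Lo X B} : (L.add L').Rg L' dg (S.snd A B) :=
  rg_dg snd1 fun x y h => by
    rw [add_e, S.blk_snd_assoc]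
    simp [L'.orth x y h]

theorem Rg.cp (h : L.Rg M R f) (g : G) : L.Rg M R (S.cp g f) := fun x y k hk => by
  have s1 (g : G) : S.Sup {g} (L.e x ≫ S.cp g f ≫ M.e y) :=
    rg_sup (T := {g}) (.of_cp (S.cp_same g f) rfl) x y
  by_cases e : k = g
  · subst e
    have s2 : S.Sup {k}ᶜ (f - S.cp k f) := fun j hj => by
      rw [show j = k by simpa using hj, map_sub, S.cp_same, sub_self]
    have := rg_sup (L := L) (M := M) s2 x y k (by simp)
    simp only [Preadditive.sub_comp, Preadditive.comp_sub, map_sub] at this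
    rw [← sub_eq_zero.1 this]
    exact h x y k hk
  · exact s1 g k e

theorem Rg.mapl {φ : X → Y} {R' : Y → G → X' → Prop} (h : L.Rg M R f)
    (k : ∀ x g y, R x g y → R' (φ x) g y) : (L.map φ).Rg M R' f := fun x y => by
  classical
  change S.Sup _ ((∑ x ∈ _, _) ≫ _)
  rw [Preadditive.sum_comp]
  exact .sum _ fun z hz => (h z y).mono fun g hg => (Finset.mem_filter.1 hz).2 ▸ k z g y hg

theorem Rg.mapr {φ : X' → Y} {R' : X → G → Y → Prop} (h : L.Rg M R f)
    (k : ∀ x g y, R x g y → R' x g (φ y)) : L.Rg (M.map φ) R' f := fun x y => by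
  classical
  change S.Sup _ (_ ≫ _ ≫ ∑ x ∈ _, _)
  simp only [Preadditive.comp_sum]
  exact .sum _ fun z hz => (h x z).mono fun g hg => (Finset.mem_filter.1 hz).2 ▸ k x g z hg

theorem Rg.map {φ : X → Y} {ψ : X' → Y'} {R' : Y → G → Y' → Prop} {α : X → Prop} {β : X' → Prop}
    (h : L.Rg M R f) (ha : L.On α) (hb : M.On β)
    (k : ∀ x g y, α x → β y → R x g y → R' (φ x) g (ψ y)) : (L.map φ).Rg (M.map ψ) R' f :=
  ((h.on ha hb k).mapr (R' := fun x g y => R' (φ x) g y) fun _ _ _ h => h).mapl fun _ _ _ h => h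

open Classical in
theorem map_mul (L : S.Lo X A) (φ : X → Y) (y : Y) (x : X) :
    (L.map φ).e y ≫ L.e x = (if φ x = y then L.e x else 0) ∧
      L.e x ≫ (L.map φ).e y = if φ x = y then L.e x else 0 := by
  have h (z : X) : L.e z ≫ L.e x = (if z = x then L.e x else 0) ∧
      L.e x ≫ L.e z = if z = x then L.e x else 0 := by
    split_ifs with k
    · simp [k, L.idem]
    · exact ⟨L.orth _ _ k, L.orth _ _ (Ne.symm k)⟩
  change (∑ x ∈ _, _) ≫ _ = _ ∧ _ ≫ (∑ x ∈ _, _) = _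
  simp only [Preadditive.sum_comp, Preadditive.comp_sum, h, Finset.sum_ite_eq', Finset.mem_filter]
  by_cases k : x ∈ L.s
  · simp [k]
  · simp [k, L.out x k]

theorem res (hz : ∃ Z : C, 𝟙 Z = 0) (L : S.Lo X A) (π : X → Prop) :
    ∃ (B : C) (M : S.Lo X B) (i : B ⟶ A) (r : A ⟶ B), M.Rg L dg i ∧ L.Rg M dg r ∧ i ≫ r = 𝟙 B ∧
      (∀ x, π x → L.e x ≫ r ≫ i = L.e x) ∧ (∀ x, ¬ π x → L.e x ≫ r = 0) ∧ M.On π ∧
        ∀ α, L.On α → M.On α := by
  classical
  obtain ⟨B, i, r, h1, h2, h3, h4⟩ := ((L.map π).spl True).split hz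
  have a (x : X) (k : π x) : L.e x ≫ r ≫ i = L.e x ∧ r ≫ i ≫ L.e x = L.e x := by
    simpa [← h4, k, and_comm] using L.map_mul π True x
  have b (x : X) (k : ¬ π x) : L.e x ≫ r = 0 ∧ i ≫ L.e x = 0 := by
    have := L.map_mul π True x
    simp only [← h4, eq_iff_iff, iff_true, k, if_false, Category.assoc] at this
    exact ⟨by simpa [h3] using congrArg (· ≫ r) this.2,
      by simpa [reassoc_of% h3] using congrArg (i ≫ ·) this.1⟩
  have c (x y : X) : L.e x ≫ r ≫ i ≫ L.e y = if π x then L.e x ≫ L.e y else 0 := by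
    split_ifs with k
    · rw [reassoc_of% (a x k).1]
    · rw [reassoc_of% (b x k).1, Limits.zero_comp]
  let M : S.Lo X B := ⟨fun x => i ≫ L.e x ≫ r, L.s, fun x h => by simp [L.out x h], fun x => by
      by_cases k : π x
      · obtain h | ⟨E, j, t, k1, k2, k3, k4⟩ := L.spl x
        · exact .inl (by simp [h])
        · refine .inr ⟨E, j ≫ r, i ≫ t, k1.mul1 h2, h1.mul1 k2, ?_, by simp [reassoc_of% k4]⟩
          have := congrArg (j ≫ · ≫ t) (a x k).1
          simpa [← k4, reassoc_of% k3, k3] using this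
      · exact .inl (by simp [(b x k).1]),
    fun x y h => by simp [reassoc_of% c x y, L.orth x y h],
    by simp [← Preadditive.comp_sum, ← Preadditive.sum_comp, L.total, h3]⟩
  refine ⟨B, M, i, r, rg_dg h1 fun x y h => ?_, rg_dg h2 fun x y h => ?_, h3, fun x k => (a x k).1,
    fun x k => (b x k).1, fun x k => by simp [M, (b x k).1], fun α h x k => by simp [M, h x k]⟩
  · simp [M, c x y, L.orth x y h]
  · simp [M, reassoc_of% c x y, L.orth x y h]

end Lo

variable (S) in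
/-- Objects located in a region. -/
structure LO (X : Type*) (Ω : X → Prop) where
  A : C
  L : S.Lo X A
  on : L.On Ω

namespace LO

variable {Ω Ω' : X → Prop}

instance : Category (S.LO X Ω) where
  Hom P Q := P.A ⟶ Q.A
  id P := 𝟙 P.A
  comp f g := f ≫ g

instance : Preadditive (S.LO X Ω) where
  homGroup P Q := Preadditive.homGroup P.A Q.A
  add_comp P Q R := Preadditive.add_comp P.A Q.A R.A
  comp_add P Q R := Preadditive.comp_add P.A Q.A R.A

/-- Enlarging the region. -/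
abbrev inc (P : S.LO X Ω) (h : P.L.On Ω') : S.LO X Ω' := ⟨P.A, P.L, h⟩

/-- Moving the locations. -/
noncomputable abbrev mv (P : S.LO X Ω) (φ : X → Y) {Ω' : Y → Prop} {α : X → Prop}
    (h : P.L.On α) (k : ∀ x, α x → Ω' (φ x)) : S.LO Y Ω' := ⟨P.A, P.L.map φ, h.map k⟩

end LO

variable (S) in
/-- The graded structure on located objects. -/
noncomputable def lg (X : Type*) (Ω : X → Prop) : GC G (S.LO X Ω) where
  sum P Q := ⟨S.sum P.A Q.A, P.L.add Q.L, P.on.add Q.on⟩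
  inl P Q := S.inl P.A Q.A
  inr P Q := S.inr P.A Q.A
  fst P Q := S.fst P.A Q.A
  snd P Q := S.snd P.A Q.A
  inl_fst P Q := S.inl_fst P.A Q.A
  inl_snd P Q := S.inl_snd P.A Q.A
  inr_fst P Q := S.inr_fst P.A Q.A
  inr_snd P Q := S.inr_snd P.A Q.A
  total P Q := S.total P.A Q.A
  cp {P Q} := S.cp (A := P.A) (B := Q.A)
  fin {P Q} := S.fin (A := P.A) (B := Q.A)
  ext0 {P Q} := S.ext0 (A := P.A) (B := Q.A)
  cp_same {P Q} := S.cp_same (A := P.A) (B := Q.A)
  cp_ne {P Q} := S.cp_ne (A := P.A) (B := Q.A)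
  cp_comp {P Q R} := S.cp_comp (A := P.A) (B := Q.A) (D := R.A)
  cp_id P := S.cp_id P.A
  cp_inl P Q := S.cp_inl P.A Q.A
  cp_inr P Q := S.cp_inr P.A Q.A
  cp_fst P Q := S.cp_fst P.A Q.A
  cp_snd P Q := S.cp_snd P.A Q.A
  shift P g := by
    obtain ⟨B, f, f', h1, h2, h3, h4⟩ := S.shift P.A g
    by_cases k : ∃ x, Ω x
    · obtain ⟨x, hx⟩ := k
      exact ⟨⟨B, .one S x B, Lo.on_one hx B⟩, f, f', h1, h2, h3, h4⟩
    · have : 𝟙 P.A = 0 := P.L.total ▸ Finset.sum_eq_zero fun x _ => P.on x fun h => k ⟨x, h⟩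
      refine ⟨⟨B, ⟨fun _ => 0, ∅, fun _ _ => rfl, fun _ => .inl rfl, by simp, ?_⟩,
        fun _ _ => rfl⟩, f, f', h1, h2, h3, h4⟩
      rw [← h4, ← Category.comp_id f', this]
      simp

end GC

/-- Invariant coarse structures. -/
structure Nr (G X : Type*) [Group G] [MulAction G X] where
  n : ℕ → X → X → Prop
  mono : ∀ {r s x y}, n r x y → r ≤ s → n s x y
  refl : ∀ r x, n r x x
  trans : ∀ {r s x y z}, n r x y → n s y z → n (r + s) x z
  smul : ∀ {r x y} (g : G), n r x y → n r (g • x) (g • y)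

/-- The discrete structure. -/
def Nr.eq (G X : Type*) [Group G] [MulAction G X] : Nr G X :=
  ⟨fun _ x y => x = y, fun h _ => h, fun _ _ => rfl, Eq.trans, fun _ h => h ▸ rfl⟩

namespace GC

open Lo

variable {G : Type w} [Group G] {C : Type u} [Category.{v} C] [Preadditive C] {S : GC G C}
variable {X : Type*} [MulAction G X] {Ω Ω' : X → Prop} {ν ν' : Nr G X} {r s : ℕ}

theorem Lo.Rg.nr {A B : C} {L : S.Lo X A} {M : S.Lo X B} {f : A ⟶ B} (h : L.Rg M dg f) :
    L.Rg M (fun x g y => ν.n r x (g • y)) f :=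
  h.mono fun x g y k => by rw [k.1, k.2, one_smul]; exact ν.refl _ _

variable (S Ω ν) in
/-- The control filtration on located objects. -/
def lc : (S.lg X Ω).CF where
  Ct r P Q f := P.L.Rg Q.L (fun x g y => ν.n r x (g • y)) f
  mono h k := h.mono fun _ _ _ a => ν.mono a k
  zero := Rg.zero
  add := Rg.add
  neg := Rg.neg
  comp h h' := h.comp h' fun _ g _ _ _ a b => by
    rw [mul_smul]; exact ν.trans a (ν.smul g b)
  id {_ P} := (rg_id (L := P.L)).nr
  inl {_ P Q} := (rg_inl (L := P.L) (L' := Q.L)).nr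
  inr {_ P Q} := (rg_inr (L := P.L) (L' := Q.L)).nr
  fst {_ P Q} := (rg_fst (L := P.L) (L' := Q.L)).nr
  snd {_ P Q} := (rg_snd (L := P.L) (L' := Q.L)).nr
  cp g h := h.cp g

omit [MulAction G X] in
theorem tr_of_lg {P Q : S.LO X Ω} {f : P ⟶ Q} (h : (S.lg X Ω).Tr ⊤ f) : S.Tr ⊤ (A := P.A) f := by
  have key {P Q : S.LO X Ω} {f : P ⟶ Q} (h : (S.lg X Ω).Tr0 ⊤ f) : S.Tr0 ⊤ (A := P.A) f := by
    induction h with
    | one h => exact .one h
    | hom D k h => exact .hom D.A k h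
    | upper h => exact .upper h
    | comp _ _ h1 h2 => exact .comp h1 h2
  obtain ⟨D, h⟩ := h
  exact ⟨D.A, key h⟩

theorem tq_inc (k : ∀ x, Ω x → Ω' x) (k' : ∀ r x y, ν.n r x y → ν'.n r x y) {P Q : S.LO X Ω}
    {f : P ⟶ Q} (h : (S.lc Ω ν).Tq r f) :
    (S.lc Ω' ν').Tq r (A := P.inc (P.on.mono k)) (B := Q.inc (Q.on.mono k)) f := by
  have hi {r : ℕ} {g : G} {P Q : S.LO X Ω} {f : P ⟶ Q} (h : (S.lc Ω ν).HI r g f) :
      (S.lc Ω' ν').HI r g (A := P.inc (P.on.mono k)) (B := Q.inc (Q.on.mono k)) f := by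
    obtain ⟨h1, h2, f', h3, h4, h5⟩ := h
    exact ⟨h1, h2.mono fun _ _ _ => k' _ _ _, f', h3, h4.mono fun _ _ _ => k' _ _ _, h5⟩
  have key {r : ℕ} {P Q : S.LO X Ω} {f : P ⟶ Q} (h : (S.lc Ω ν).Tq0 r f) :
      (S.lc Ω' ν').Tq0 r (A := P.inc (P.on.mono k)) (B := Q.inc (Q.on.mono k)) f := by
    induction h with
    | one h => exact .one (hi h)
    | hom D h => exact .hom (D.inc (D.on.mono k)) (hi h)
    | @upper _ A B x h =>
      exact CF.Tq0.upper (Φ := S.lc Ω' ν') (A := A.inc (A.on.mono k)) (B := B.inc (B.on.mono k))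
        (Rg.mono h fun _ _ _ => k' _ _ _)
    | comp _ _ h1 h2 => exact .comp h1 h2
  obtain ⟨D, h⟩ := h
  exact ⟨D.inc (D.on.mono k), key h⟩

theorem hi_dg {P Q : S.LO X Ω} {f : P.A ⟶ Q.A} {f' : Q.A ⟶ P.A} (h : P.L.Rg Q.L dg f)
    (h' : Q.L.Rg P.L dg f') (e : f ≫ f' = 𝟙 _) (e' : f' ≫ f = 𝟙 _) :
    (S.lc Ω ν).HI r 1 (A := P) (B := Q) f :=
  CF.hi_mk (h.sup fun _ _ _ k => k.1) (h'.sup fun _ _ _ k => k.1) h.nr h'.nr e e'

/-- Splitting a located object. -/
theorem lo_split (hz : ∃ Z : C, 𝟙 Z = 0) (P : S.LO X Ω) (π : X → Prop) :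
    ∃ (P1 P2 : S.LO X Ω) (σ : P ⟶ (S.lg X Ω).sum P1 P2), (S.lc Ω ν).HI 0 1 σ ∧ P1.L.On π ∧
      P2.L.On (¬ π ·) ∧ ∀ α, P.L.On α → P1.L.On α ∧ P2.L.On α := by
  obtain ⟨B, M, i, t, h1, h2, h3, h4, h5, h6, h7⟩ := P.L.res hz π
  obtain ⟨B', M', i', t', k1, k2, k3, k4, k5, k6, k7⟩ := P.L.res hz (¬ π ·)
  have a : t ≫ i + t' ≫ i' = 𝟙 _ := P.L.ext_l fun x => by
    by_cases k : π x
    · simp [h4 x k, reassoc_of% k5 x (not_not.2 k)]
    · simp [k4 x k, reassoc_of% h5 x k]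
  have b : i ≫ t' = 0 := (h1.comp k2 (R'' := fun x _ y => x = y) fun _ _ _ _ _ a b =>
    a.2.trans b.2).on (R' := fun _ _ _ => False) h6 k6 (fun _ _ _ a b c => b (c ▸ a)) |>.eq_zero
      fun _ _ _ => id
  have c : i' ≫ t = 0 := (k1.comp h2 (R'' := fun x _ y => x = y) fun _ _ _ _ _ a b =>
    a.2.trans b.2).on (R' := fun _ _ _ => False) k6 h6 (fun _ _ _ a b c => a (c ▸ b)) |>.eq_zero
      fun _ _ _ => id
  have d : ∀ (x : X) (g : G) (y : X) (g' : G) (z : X), dg x g y → dg y g' z → dg x (g * g') z :=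
    fun _ _ _ _ _ a b => ⟨by rw [a.1, b.1, mul_one], a.2.trans b.2⟩
  have e1 : (t ≫ S.inl B B' + t' ≫ S.inr B B') ≫ (S.fst B B' ≫ i + S.snd B B' ≫ i') = 𝟙 _ := by
    simpa using a
  have e2 : (S.fst B B' ≫ i + S.snd B B' ≫ i') ≫ (t ≫ S.inl B B' + t' ≫ S.inr B B') = 𝟙 _ := by
    simp [reassoc_of% h3, reassoc_of% k3, reassoc_of% b, reassoc_of% c, S.total]
  exact ⟨⟨B, M, h7 _ P.on⟩, ⟨B', M', k7 _ P.on⟩, _,
    hi_dg ((h2.comp rg_inl d).add (k2.comp rg_inr d))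
      ((rg_fst.comp h1 d).add (rg_snd.comp k1 d)) e1 e2, h6, k6, fun α h => ⟨h7 α h, k7 α h⟩⟩

theorem ct_zero {P Q : S.LO X Ω} {f : P ⟶ Q} (h : (S.lc Ω ν).Ct r f) {α β : X → Prop}
    (ha : P.L.On α) (hb : Q.L.On β) (k : ∀ x (g : G) y, α x → β y → ¬ ν.n r x (g • y)) : f = 0 :=
  (Rg.on (R' := fun _ _ _ => False) h ha hb k).eq_zero fun _ _ _ => id

end GC

end Pool.Agent.Lib.MP_5d3e93_al
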