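import Pool.Agent.Lib.MP_5d3e93_al.Nil

/-! Objects whose summands are located at points of a `G`-set. -/

open CategoryTheory

namespace Pool.Agent.Lib.MP_5d3e93_al

universe w v u

namespace GC

variable {G : Type w} [Group G] {C : Type u} [Category.{v} C] [Preadditive C] (S : GC G C)
variable {A B D Y Z : C}

/-- Split constant idempotents. -/
def Spl (e : A ⟶ A) : Prop := e = 0 ∨ ∃ (B : C) (i : B ⟶ A) (r : A ⟶ B),
  S.Sup {1} i ∧ S.Sup {1} r ∧ i ≫ r = 𝟙 B ∧ r ≫ i = e

variable {S}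

theorem inl1 : S.Sup {1} (S.inl A B) := sup_inl rfl
theorem inr1 : S.Sup {1} (S.inr A B) := sup_inr rfl
theorem fst1 : S.Sup {1} (S.fst A B) := sup_fst rfl
theorem snd1 : S.Sup {1} (S.snd A B) := sup_snd rfl
theorem id1 : S.Sup {1} (𝟙 A) := .id rfl

theorem tr_neg (H : Subgroup G) (A : C) : S.Tr H (-𝟙 A) :=
  .one ⟨id1.neg, -𝟙 A, by simpa using id1.neg, by simp, by simp⟩

theorem Sup.mul1 {a : A ⟶ B} {b : B ⟶ D} (ha : S.Sup {1} a) (hb : S.Sup {1} b) :
    S.Sup {1} (a ≫ b) := .one_comp ha.cp_eq hb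

theorem Spl.deg {e : A ⟶ A} (h : S.Spl e) : S.Sup {1} e := by
  obtain rfl | ⟨B, i, r, h1, h2, -, rfl⟩ := h
  exacts [.zero, h2.mul1 h1]

theorem Spl.idem {e : A ⟶ A} (h : S.Spl e) : e ≫ e = e := by
  obtain rfl | ⟨B, i, r, -, -, h3, rfl⟩ := h
  · simp
  · simp [reassoc_of% h3]

theorem Spl.id : S.Spl (𝟙 A) := .inr ⟨A, 𝟙 A, 𝟙 A, .id rfl, .id rfl, by simp, by simp⟩

theorem Spl.add {e e' : A ⟶ A} (h : S.Spl e) (h' : S.Spl e') (o : e ≫ e' = 0) (o' : e' ≫ e = 0) :
    S.Spl (e + e') := by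
  obtain rfl | ⟨B, i, r, h1, h2, h3, rfl⟩ := h
  · simpa using h'
  obtain rfl | ⟨B', i', r', k1, k2, k3, rfl⟩ := h'
  · exact .inr ⟨B, i, r, h1, h2, h3, by simp⟩
  have a1 : i ≫ r' = 0 := by
    have := congrArg (fun k => i ≫ k ≫ r') o
    simpa [reassoc_of% h3, k3] using this
  have a2 : i' ≫ r = 0 := by
    have := congrArg (fun k => i' ≫ k ≫ r) o'
    simpa [reassoc_of% k3, h3] using this
  exact .inr ⟨S.sum B B', S.fst _ _ ≫ i + S.snd _ _ ≫ i', r ≫ S.inl _ _ + r' ≫ S.inr _ _,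
    (fst1.mul1 h1).add (snd1.mul1 k1), (h2.mul1 inl1).add (k2.mul1 inr1),
    by simp [reassoc_of% h3, reassoc_of% k3, reassoc_of% a1, reassoc_of% a2, S.total], by simp⟩

theorem Spl.tr {e : A ⟶ A} (h : S.Spl e) {i : A ⟶ B} {r : B ⟶ A} (hi : S.Sup {1} i)
    (hr : S.Sup {1} r) (o : i ≫ r = 𝟙 A) : S.Spl (r ≫ e ≫ i) := by
  obtain rfl | ⟨D, i', r', h1, h2, h3, rfl⟩ := h
  · exact .inl (by simp)
  · exact .inr ⟨D, i' ≫ i, r ≫ r', h1.mul1 hi, hr.mul1 h2, by simp [reassoc_of% o, h3], by simp⟩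

theorem Spl.bd {e : A ⟶ A} {e' : B ⟶ B} (h : S.Spl e) (h' : S.Spl e') :
    S.Spl (S.blk e 0 0 e') := by
  have := (h.tr (inl1 (B := B)) fst1 (by simp)).add (h'.tr inr1 snd1 (by simp)) (by simp) (by simp)
  simpa [blk] using this

theorem Spl.sum {X : Type*} (s : Finset X) {e : X → (A ⟶ A)} (h : ∀ x, S.Spl (e x))
    (o : ∀ x y, x ≠ y → e x ≫ e y = 0) : S.Spl (∑ x ∈ s, e x) := by
  classical
  induction s using Finset.induction_on with
  | empty => exact .inl (by simp)
  | insert a s ha ih =>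
    rw [Finset.sum_insert ha]
    refine (h a).add ih ?_ ?_
    · rw [Preadditive.comp_sum]
      exact Finset.sum_eq_zero fun x hx => o _ _ fun e => ha (e ▸ hx)
    · rw [Preadditive.sum_comp]
      exact Finset.sum_eq_zero fun x hx => o _ _ fun e => ha (e ▸ hx)

/-- Block diagonal isomorphisms. -/
theorem gw {X : Type*} {H : X → Subgroup G} (hW : ∀ x, S.W (H x)) (s : Finset X) :
    ∀ {A Q : C} (e : X → (A ⟶ A)) (q : X → (Q ⟶ Q)) (u : A ⟶ Q) (v : Q ⟶ A), u ≫ v = 𝟙 A →
      v ≫ u = 𝟙 Q → (∀ x, S.Spl (e x)) → (∀ x, S.Spl (q x)) →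
      (∀ x y, x ≠ y → e x ≫ e y = 0) → (∀ x y, x ≠ y → q x ≫ q y = 0) →
      (∀ x, e x ≫ u = u ≫ q x) → (∀ x, S.Sup (H x) (e x ≫ u)) → (∀ x, S.Sup (H x) (q x ≫ v)) →
      S.Sup {1} (u - ∑ x ∈ s, e x ≫ u) → S.Sup {1} (v - ∑ x ∈ s, q x ≫ v) → S.Tr ⊤ u := by
  classical
  induction s using Finset.induction_on with
  | empty =>
    intro A Q e q u v h1 h2 _ _ _ _ _ _ _ h3 h4
    exact .one ⟨by simpa using h3, v, by simpa using h4, h1, h2⟩
  | insert a s ha ih =>
    intro A Q e q u v h1 h2 se sq oe oq c hu hv h3 h4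
    rw [Finset.sum_insert ha] at h3 h4
    have c' : ∀ x, q x ≫ v = v ≫ e x := fun x => by
      have := congrArg (fun k => v ≫ k ≫ v) (c x)
      simpa [reassoc_of% h2, h1] using this.symm
    by_cases z : e a = 0 ∧ q a = 0
    · exact ih e q u v h1 h2 se sq oe oq c hu hv (by simpa [z.1] using h3) (by simpa [z.2] using h4)
    have z1 : e a ≠ 0 := fun h => z ⟨h, by
      rw [← Category.comp_id (q a), ← h2, reassoc_of% c' a, h]; simp⟩
    have z2 : q a ≠ 0 := fun h => z ⟨by
      rw [← Category.comp_id (e a), ← h1, reassoc_of% c a, h]; simp, h⟩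
    obtain ⟨A0, i, r, a1, a2, a3, a4⟩ := (se a).resolve_left z1
    obtain ⟨Q0, j, t, b1, b2, b3, b4⟩ := (sq a).resolve_left z2
    have a5 : i ≫ e a = i := by rw [← a4, reassoc_of% a3]
    have a6 : e a ≫ r = r := by rw [← a4, Category.assoc, a3, Category.comp_id]
    have b5 : j ≫ q a = j := by rw [← b4, reassoc_of% b3]
    have b6 : q a ≫ t = t := by rw [← b4, Category.assoc, b3, Category.comp_id]
    have a7 : ∀ x, x ≠ a → e x ≫ r = 0 := fun x h => by rw [← a6, reassoc_of% oe x a h]; simp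
    have a8 : ∀ x, x ≠ a → i ≫ e x = 0 := fun x h => by
      rw [← a5, Category.assoc, oe a x h.symm]; simp
    have b7 : ∀ x, x ≠ a → q x ≫ t = 0 := fun x h => by rw [← b6, reassoc_of% oq x a h]; simp
    have b8 : ∀ x, x ≠ a → j ≫ q x = 0 := fun x h => by
      rw [← b5, Category.assoc, oq a x h.symm]; simp
    have ie := (se a).idem
    have iq := (sq a).idem
    have f1 : (j ≫ v ≫ r) ≫ i ≫ u ≫ t = 𝟙 _ := by
      simp [reassoc_of% a4, reassoc_of% c a, reassoc_of% h2, b6, b3]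
    have f2 : (i ≫ u ≫ t) ≫ j ≫ v ≫ r = 𝟙 _ := by
      simp [reassoc_of% b4, reassoc_of% c' a, reassoc_of% h1, a6, a3]
    have f3 : S.Tr ⊤ (j ≫ v ≫ r) := by
      refine (hW a _ _ _ ⟨?_, _, ?_, f1, f2⟩).mono le_top
      · rw [← b5, Category.assoc, ← Category.assoc (q a)]
        exact .one_comp b1.cp_eq ((hv a).comp_one a2.cp_eq)
      · rw [← a5, Category.assoc, ← Category.assoc (e a)]
        exact .one_comp a1.cp_eq ((hu a).comp_one b2.cp_eq)
    have f4 : S.Tr ⊤ (-(j ≫ v ≫ r)) := by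
      simpa using f3.comp (tr_neg _ _)
    have key := ih (fun x => if x = a then 0 else S.blk (e x) 0 0 0)
      (fun x => if x = a then 0 else S.blk (q x) 0 0 0)
      (S.blk (u - e a ≫ u) r j 0) (S.blk (v - q a ≫ v) t i 0) ?_ ?_ ?_ ?_ ?_ ?_ ?_ ?_ ?_ ?_ ?_
    · have R := (Tr.upper (S.sup_top (r ≫ i ≫ u ≫ t))).comp
        ((Tr.lower (S.sup_top (-((j ≫ v ≫ r) ≫ i)))).comp
        ((Tr.upper (S.sup_top (r ≫ i ≫ u ≫ t))).comp key))
      refine ((f4.id_bd Q).cancel_right (f := S.blk u 0 0 (𝟙 _)) ?_).of_bd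
      convert R using 1
      simp [reassoc_of% a4, a4, reassoc_of% b4, b4, c a, reassoc_of% c a, reassoc_of% h2,
        reassoc_of% h1, b6, reassoc_of% c' a, a6, b5]
    · have k : u ≫ q a ≫ v = e a := by rw [c' a, reassoc_of% h1]
      simp [c a, k, h1, a4, reassoc_of% iq, b6, b3, reassoc_of% b5]
    · have k : v ≫ e a ≫ u = q a := by rw [c a, reassoc_of% h2]
      simp [c' a, k, h2, b4, reassoc_of% ie, a6, a3, reassoc_of% a5]
    · intro x
      split_ifs
      exacts [.inl rfl, (se x).bd (.inl rfl)]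
    · intro x
      split_ifs
      exacts [.inl rfl, (sq x).bd (.inl rfl)]
    · intro x y h
      split_ifs <;> simp [oe x y h]
      apply S.hom_ext <;> simp
    · intro x y h
      split_ifs <;> simp [oq x y h]
      apply S.hom_ext <;> simp
    · intro x
      split_ifs with h
      · simp
      · simp [a7 x h, b8 x h, c x, c a, oq a x (Ne.symm h), reassoc_of% c x, oq x a h]
    · intro x
      split_ifs with h
      · simpa using Sup.zero
      · simpa [a7 x h, reassoc_of% oe x a h] using Sup.blk (hu x) .zero .zero .zero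
    · intro x
      split_ifs with h
      · simpa using Sup.zero
      · simpa [b7 x h, reassoc_of% oq x a h] using Sup.blk (hv x) .zero .zero .zero
    · rw [Finset.sum_congr rfl (g := fun x => S.fst _ _ ≫ (e x ≫ u) ≫ S.inl _ _) fun x hx => by
        have h : x ≠ a := fun h => ha (h ▸ hx)
        apply S.hom_ext <;> simp [h, a7 x h, reassoc_of% oe x a h]]
      convert Sup.blk h3 a2 b1 .zero using 1
      apply S.hom_ext <;> simp [← Preadditive.comp_sum, ← Preadditive.sum_comp]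
      abel
    · rw [Finset.sum_congr rfl (g := fun x => S.fst _ _ ≫ (q x ≫ v) ≫ S.inl _ _) fun x hx => by
        have h : x ≠ a := fun h => ha (h ▸ hx)
        apply S.hom_ext <;> simp [h, b7 x h, reassoc_of% oq x a h]]
      convert Sup.blk h4 b2 a1 .zero using 1
      apply S.hom_ext <;> simp [← Preadditive.comp_sum, ← Preadditive.sum_comp]
      abel

variable (S) in
/-- Located objects. -/
structure Lo (X : Type*) (A : C) where
  e : X → (A ⟶ A)
  s : Finset X
  out : ∀ x, x ∉ s → e x = 0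
  spl : ∀ x, S.Spl (e x)
  orth : ∀ x y, x ≠ y → e x ≫ e y = 0
  total : ∑ x ∈ s, e x = 𝟙 A

namespace Lo

variable {X X' : Type*} (L : S.Lo X A)

theorem idem (x : X) : L.e x ≫ L.e x = L.e x := (L.spl x).idem

theorem ext_l {f g : A ⟶ Y} (h : ∀ x, L.e x ≫ f = L.e x ≫ g) : f = g := by
  rw [← Category.id_comp f, ← Category.id_comp g, ← L.total]
  simp only [Preadditive.sum_comp, h]

theorem sum_r (f : Y ⟶ A) : ∑ x ∈ L.s, f ≫ L.e x = f := by
  rw [← Preadditive.comp_sum, L.total, Category.comp_id]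

theorem pick {F : X → (A ⟶ Y)} (h : ∀ x, L.e x ≫ F x = F x) (x : X) :
    L.e x ≫ ∑ y ∈ L.s, F y = F x := by
  rw [Preadditive.comp_sum, Finset.sum_eq_single x, h]
  · intro y _ k
    rw [← h y, reassoc_of% L.orth x y k.symm, Limits.zero_comp]
  · intro k
    rw [L.out x k, Limits.zero_comp]

theorem pick' {F : X → (Y ⟶ A)} (h : ∀ x, F x ≫ L.e x = F x) (x : X) :
    (∑ y ∈ L.s, F y) ≫ L.e x = F x := by
  rw [Preadditive.sum_comp, Finset.sum_eq_single x, h]
  · intro y _ k
    rw [← h y, Category.assoc, L.orth y x k, Limits.comp_zero]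
  · intro k
    rw [L.out x k, Limits.comp_zero]

open Classical in
/-- Direct sum. -/
noncomputable def add (L' : S.Lo X B) : S.Lo X (S.sum A B) where
  e x := S.blk (L.e x) 0 0 (L'.e x)
  s := L.s ∪ L'.s
  out x h := by
    rw [Finset.mem_union, not_or] at h
    rw [L.out x h.1, L'.out x h.2]
    simp [blk]
  spl x := (L.spl x).bd (L'.spl x)
  orth x y h := by simp [reassoc_of% L.orth x y h, reassoc_of% L'.orth x y h, blk]
  total := by
    have a := Finset.sum_subset (f := L.e) (Finset.subset_union_left (s₂ := L'.s))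
      fun x _ h => L.out x h
    have b := Finset.sum_subset (f := L'.e) (Finset.subset_union_right (s₁ := L.s))
      fun x _ h => L'.out x h
    apply S.hom_ext <;>
      simp [Preadditive.comp_sum, ← Preadditive.sum_comp, ← a, ← b, L.total, L'.total]

theorem add_e (L' : S.Lo X B) (x : X) : (L.add L').e x = S.blk (L.e x) 0 0 (L'.e x) := rfl

open Classical in
variable (S) in
/-- Concentrated in one point. -/
noncomputable def one (x0 : X) (A : C) : S.Lo X A where
  e x := if x = x0 then 𝟙 A else 0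
  s := {x0}
  out x h := if_neg (by simpa using h)
  spl x := by
    split_ifs
    exacts [.id, .inl rfl]
  orth x y h := by
    split_ifs with h1 h2
    · exact (h (h1.trans h2.symm)).elim
    all_goals simp
  total := by simp

theorem one_e (x0 : X) (A : C) : (one S x0 A).e x0 = 𝟙 A := if_pos rfl

theorem one_e_ne {x0 x : X} (h : x ≠ x0) (A : C) : (one S x0 A).e x = 0 := if_neg h

open Classical in
/-- Coarsening of the locations. -/
noncomputable def map (φ : X → X') : S.Lo X' A where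
  e y := ∑ x ∈ L.s.filter (φ · = y), L.e x
  s := L.s.image φ
  out y h := Finset.sum_eq_zero fun x hx =>
    (h (Finset.mem_image.2 ⟨x, by simpa using hx⟩)).elim
  spl y := .sum _ L.spl L.orth
  orth y z h := by
    simp only [Preadditive.sum_comp, Preadditive.comp_sum]
    refine Finset.sum_eq_zero fun a ha => Finset.sum_eq_zero fun b hb => L.orth _ _ ?_
    rintro rfl
    exact h ((Finset.mem_filter.1 hb).2.symm.trans (Finset.mem_filter.1 ha).2)
  total := by
    rw [Finset.sum_fiberwise_of_maps_to (fun x hx => Finset.mem_image_of_mem φ hx), L.total]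

/-- All nonzero locations have the property. -/
def On (P : X → Prop) : Prop := ∀ x, ¬ P x → L.e x = 0

theorem On.add {L : S.Lo X A} {L' : S.Lo X B} {P : X → Prop} (h : L.On P) (h' : L'.On P) :
    (L.add L').On P := fun x hx => by
  rw [add_e, h x hx, h' x hx]
  simp [blk]

theorem on_one {P : X → Prop} {x0 : X} (h : P x0) (A : C) : (one S x0 A).On P :=
  fun _ hx => one_e_ne (by rintro rfl; exact hx h) A

theorem On.map {L : S.Lo X A} {P : X → Prop} (h : L.On P) {φ : X → X'} {P' : X' → Prop}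
    (hφ : ∀ x, P x → P' (φ x)) : (L.map φ).On P' := fun y hy => by
  classical
  exact Finset.sum_eq_zero fun x hx => h x fun k => hy ((Finset.mem_filter.1 hx).2 ▸ hφ x k)

variable [MulAction G X] [MulAction G X']

/-- The morphism goes to points of `W`. -/
def To (W : Set X) (f : Y ⟶ A) : Prop := ∀ x, S.Sup {g | g • x ∈ W} (f ≫ L.e x)

variable {L} {W W' : Set X} {f f' : Y ⟶ A}

theorem To.mono (h : L.To W f) (hs : W ⊆ W') : L.To W' f := fun x => (h x).mono fun _ k => hs k

theorem To.zero : L.To W (0 : Y ⟶ A) := fun _ => by simpa using Sup.zero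

theorem To.add (h : L.To W f) (h' : L.To W f') : L.To W (f + f') := fun x => by
  simpa using (h x).add (h' x)

theorem To.neg (h : L.To W f) : L.To W (-f) := fun x => by simpa using (h x).neg

theorem To.sub (h : L.To W f) (h' : L.To W f') : L.To W (f - f') := fun x => by
  simpa using (h x).sub (h' x)

theorem To.sum {ι : Type*} (s : Finset ι) {F : ι → (Y ⟶ A)} (h : ∀ i ∈ s, L.To W (F i)) :
    L.To W (∑ i ∈ s, F i) := fun x => by
  rw [Preadditive.sum_comp]
  exact .sum _ fun i hi => h i hi x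

theorem To.inter (h : L.To W f) (h' : L.To W' f) : L.To (W ∩ W') f := fun x => (h x).inter (h' x)

theorem To.all (h : ∀ y, y ∉ W → ∃ W', y ∉ W' ∧ L.To W' f) : L.To W f := fun x g hg => by
  obtain ⟨W', h1, h2⟩ := h _ hg
  exact h2 x g h1

theorem To.eq_zero (h : L.To W f) (h' : L.To W' f) (hd : ∀ x ∈ W, x ∉ W') : f = 0 := by
  rw [← L.sum_r f]
  exact Finset.sum_eq_zero fun x _ => (h x).eq_zero (h' x) fun g hg => hd _ hg

theorem To.on {P : X → Prop} (h : L.On P) (hP : ∀ (g : G) x, P x → g • x ∈ W) (f : Y ⟶ A) :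
    L.To W f := fun x g hg => by
  rw [h x fun k => hg (hP g x k), Limits.comp_zero, map_zero]

theorem part (L : S.Lo X A) (W : Set X) (f : Y ⟶ A) : ∃ f1, L.To W f1 ∧ L.To Wᶜ (f - f1) := by
  have e := L.pick' (F := fun x => S.proj {g | g • x ∈ W} (f ≫ L.e x) ≫ L.e x)
    fun x => by rw [Category.assoc, L.idem]
  refine ⟨_, fun x => e x ▸ (S.sup_proj _ _).comp_one (L.spl x).deg.cp_eq, fun x => ?_⟩
  have := (S.sup_sub_proj {g | g • x ∈ W} (f ≫ L.e x)).comp_one (L.spl x).deg.cp_eq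
  rw [Preadditive.sub_comp, Category.assoc, L.idem] at this
  rwa [Preadditive.sub_comp, e]

theorem To.pre {T : Set G} {k : Z ⟶ Y} (hk : S.Sup T k) (h : L.To W f)
    (hm : ∀ g ∈ T, ∀ x ∈ W, g • x ∈ W') : L.To W' (k ≫ f) := fun x => by
  rw [Category.assoc]
  exact hk.comp (h x) fun a ha b hb => by simpa only [Set.mem_ofPred_eq, mul_smul] using hm a ha _ hb

theorem To.pre1 {k : Z ⟶ Y} (hk : S.Sup {1} k) (h : L.To W f) : L.To W (k ≫ f) :=
  h.pre hk fun g hg x hx => by rwa [hg, one_smul]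

theorem To.comp {M : S.Lo X' B} {u : A ⟶ B} {R : X → Set X'} {T : Set X'} (h : L.To W f)
    (hu : ∀ x, M.To (R x) (L.e x ≫ u)) (hm : ∀ (g : G) x, g • x ∈ W → ∀ y ∈ R x, g • y ∈ T) :
    M.To T (f ≫ u) := by
  rw [← L.sum_r f, Preadditive.sum_comp]
  refine .sum _ fun x _ => ?_
  have := (hu x).pre (h x) fun g hg y hy => hm g x hg y hy
  simpa only [Category.assoc, reassoc_of% L.idem x] using this

theorem to_of_sup {x : X} {T : Set G} (h : S.Sup T f) (e : f ≫ L.e x = f)
    (hm : ∀ g ∈ T, g • x ∈ W) : L.To W f := fun y => by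
  by_cases k : x = y
  · subst k
    rw [e]
    exact h.mono hm
  · rw [← e, Category.assoc, L.orth x y k, Limits.comp_zero]
    exact .zero

theorem to_e (x : X) : L.To {x} (L.e x) :=
  to_of_sup (L.spl x).deg (L.idem x) fun g hg => by rw [hg, one_smul]; rfl

theorem To.fin (L : S.Lo X A) (f : Y ⟶ A) : ∃ W : Set X, W.Finite ∧ L.To W f := by
  refine ⟨⋃ x ∈ L.s, (fun g : G => g • x) '' {g | S.cp g (f ≫ L.e x) ≠ 0},
    L.s.finite_toSet.biUnion fun x _ => (S.fin _).image _, fun x g hg => ?_⟩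
  by_contra h
  by_cases k : x ∈ L.s
  · exact hg (Set.mem_biUnion k ⟨g, h, rfl⟩)
  · exact h (by rw [L.out x k, Limits.comp_zero, map_zero])

theorem to_add {L' : S.Lo X B} {f : Y ⟶ S.sum A B} (h : L.To W (f ≫ S.fst A B))
    (h' : L'.To W (f ≫ S.snd A B)) : (L.add L').To W f := fun x => by
  have := ((h x).comp_one (S.cp_inl A B)).add ((h' x).comp_one (S.cp_inr A B))
  convert this using 1
  simp [add_e, blk]

theorem to_one {x0 : X} {T : Set G} {f : Y ⟶ B} (h : S.Sup T f) (hm : ∀ g ∈ T, g • x0 ∈ W) :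
    (one S x0 B).To W f := to_of_sup h (by rw [one_e, Category.comp_id]) hm

theorem to_blk {L' : S.Lo X B} {a : Y ⟶ A} {b : Y ⟶ B} {c : Z ⟶ A} {d : Z ⟶ B}
    (ha : L.To W a) (hb : L'.To W b) (hc : L.To W c) (hd : L'.To W d) :
    (L.add L').To W (S.blk a b c d) :=
  to_add (by simpa using (ha.pre1 fst1).add (hc.pre1 snd1))
    (by simpa using (hb.pre1 fst1).add (hd.pre1 snd1))

theorem To.map {φ : X → X'} (hφ : ∀ (g : G) x, φ (g • x) = g • φ x) {T : Set X'}
    (h : L.To (φ ⁻¹' T) f) : (L.map φ).To T f := fun y => by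
  classical
  change S.Sup _ (f ≫ ∑ x ∈ _, _)
  rw [Preadditive.comp_sum]
  refine .sum _ fun x hx => (h x).mono fun g hg => ?_
  rw [← (Finset.mem_filter.1 hx).2, Set.mem_ofPred_eq, ← hφ]
  exact hg

theorem To.stab {r : X → X} (hr : ∀ (g : G) x, r (g • x) = r x) (ho : L.On fun x => r x = x)
    {x : X} (hx : r x = x) (h : L.To {x} f) :
    f ≫ L.e x = f ∧ S.Sup (MulAction.stabilizer G x) f := by
  have e : f ≫ L.e x = f := by
    refine Eq.trans ?_ (L.sum_r f)
    rw [← L.pick' (F := fun y => f ≫ L.e y) (fun y => by rw [Category.assoc, L.idem]) x,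
      Preadditive.sum_comp]
    refine Finset.sum_congr rfl fun y _ => ?_
    by_cases k : y = x
    · rw [k, Category.assoc, L.idem]
    · by_cases k' : r y = y
      · rw [(h y).eq_zero (h y) fun g hg _ => k (by rw [← k', ← hr g, show g • y = x from hg, hx]),
          Limits.zero_comp]
      · simp [ho y k']
  exact ⟨e, e ▸ h x⟩

/-- Isomorphisms preserving locations are trivial. -/
theorem tr_diag {M : S.Lo X B} (hW : ∀ x : X, S.W (MulAction.stabilizer G x)) {r : X → X}
    (hr : ∀ (g : G) x, r (g • x) = r x) (hL : L.On fun x => r x = x) (hM : M.On fun x => r x = x)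
    {u : A ⟶ B} {v : B ⟶ A} (h1 : u ≫ v = 𝟙 A) (h2 : v ≫ u = 𝟙 B)
    (hu : ∀ x, M.To {x} (L.e x ≫ u)) (hv : ∀ x, L.To {x} (M.e x ≫ v)) : S.Tr ⊤ u := by
  classical
  have a : ∀ x, (L.e x ≫ u) ≫ M.e x = L.e x ≫ u ∧ S.Sup (MulAction.stabilizer G x) (L.e x ≫ u) :=
    fun x => by
      by_cases k : r x = x
      · exact (hu x).stab hr hM k
      · simpa [hL x k] using Sup.zero
  have b : ∀ x, S.Sup (MulAction.stabilizer G x) (M.e x ≫ v) := fun x => by
    by_cases k : r x = x
    · exact ((hv x).stab hr hL k).2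
    · simpa [hM x k] using Sup.zero
  refine gw hW (L.s ∪ M.s) L.e M.e u v h1 h2 L.spl M.spl L.orth M.orth (fun x => L.ext_l fun y => ?_)
    (fun x => (a x).2) b ?_ ?_
  · by_cases k : y = x
    · rw [k, reassoc_of% L.idem x, ← Category.assoc, (a x).1]
    · rw [reassoc_of% L.orth y x k, ← Category.assoc, ← (a y).1, Category.assoc, M.orth y x k]
      simp
  · rw [← Preadditive.sum_comp, ← Finset.sum_subset Finset.subset_union_left
      fun x _ h => L.out x h, L.total]
    simpa using Sup.zero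
  · rw [← Preadditive.sum_comp, ← Finset.sum_subset Finset.subset_union_right
      fun x _ h => M.out x h, M.total]
    simpa using Sup.zero

end Lo

end GC

end Pool.Agent.Lib.MP_5d3e93_al
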