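import Pool.Agent.Lib.MP_5d3e93_al.Tor

/-! Markers for actions on compact spaces of finite rank. -/

open Topology Set Filter

namespace Pool.Agent.Lib.MP_5d3e93_al

section Abs

variable {Γ X : Type*} [TopologicalSpace X] {B M M' : Set X}

/-- Open sets whose boundary is bad. -/
def Nc (B M : Set X) : Prop := IsOpen M ∧ closure M ⊆ M ∪ B

theorem Nc.union (h : Nc B M) (h' : Nc B M') : Nc B (M ∪ M') :=
  ⟨h.1.union h'.1, fun x k => by
    rw [closure_union] at k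
    exact k.elim (fun k => (h.2 k).imp_left .inl) fun k => (h'.2 k).imp_left .inr⟩

theorem Nc.diff (h : Nc B M) (h' : Nc B M') : Nc B (M \ closure M') :=
  ⟨h.1.sdiff isClosed_closure, fun x k => by
    refine or_iff_not_imp_right.2 fun b => ⟨(h.2 (closure_mono sdiff_subset k)).resolve_right b,
      fun c => ?_⟩
    obtain ⟨y, d, e⟩ := mem_closure_iff.1 k _ h'.1 ((h'.2 c).resolve_right b)
    exact e.2 (subset_closure d)⟩

theorem Nc.biUnion {J : Type*} {F : Set J} (hF : F.Finite) {U : J → Set X}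
    (h : ∀ j ∈ F, Nc B (U j)) : Nc B (⋃ j ∈ F, U j) := by
  induction F, hF using Set.Finite.induction_on with
  | empty => exact ⟨by simp, by simp⟩
  | insert _ _ ih =>
    rw [biUnion_insert]
    exact (h _ (.inl rfl)).union (ih fun j k => h j (.inr k))

variable [Group Γ] [MulAction Γ X] [ContinuousConstSMul Γ X] {T Z : Set Γ}

variable (T Z) in
/-- Separated sets. -/
def Spd (M : Set X) : Prop := ∀ x ∈ M, ∀ g ∈ T, g • x ∈ M → g ∈ Z

theorem markers (t1 : 1 ∈ T) (t2 : ∀ g ∈ T, g⁻¹ ∈ T)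
    (hF : ((fun (g : Γ) (x : X) => g • x) '' T).Finite) (hB : ∀ (g : Γ) x, g • x ∈ B → x ∈ B)
    {J : Type*} {s : Set J} (hs : s.Finite) {U : J → Set X} (h : ∀ j ∈ s, Nc B (U j) ∧ Spd T Z (U j)) :
    ∃ M, Nc B M ∧ Spd T Z M ∧ ∀ j ∈ s, ∀ x ∈ U j, x ∈ B ∨ ∃ g ∈ T, g • x ∈ M := by
  induction s, hs using Set.Finite.induction_on with
  | empty => exact ⟨∅, ⟨by simp, by simp⟩, fun _ k => k.elim, by simp⟩
  | @insert j s _ _ ih =>
    obtain ⟨M, a1, a2, a3⟩ := ih fun j k => h j (.inr k)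
    obtain ⟨F, f1, f2, f3⟩ := hF.exists_subset_finite_image_eq subset_rfl
    have b1 : Nc B (⋃ g ∈ F, (g • ·) ⁻¹' M) := .biUnion f2 fun g _ =>
      ⟨a1.1.preimage (continuous_const_smul g), fun x k =>
        (a1.2 ((continuous_const_smul g).closure_preimage_subset M k)).imp_right (hB g x)⟩
    have b2 (x : X) (g) (k : g ∈ T) (e : g • x ∈ M) : x ∈ closure (⋃ g ∈ F, (g • ·) ⁻¹' M) := by
      obtain ⟨g', c, d⟩ := f3.ge ⟨g, k, rfl⟩
      exact subset_closure (mem_biUnion c (show g' • x ∈ M from (show g' • x = g • x from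
        congrFun d x) ▸ e))
    refine ⟨_, a1.union ((h j (.inl rfl)).1.diff b1), ?_, ?_⟩
    · rintro x (k | k) g c (e | e)
      exacts [a2 x k g c e, (e.2 (b2 _ _ (t2 g c) (by simpa))).elim, (k.2 (b2 x g c e)).elim,
        (h j (.inl rfl)).2 x k.1 g c e.1]
    · rintro i (rfl | k) x e
      · by_cases c : x ∈ closure (⋃ g ∈ F, (g • ·) ⁻¹' M)
        · refine (b1.2 c).symm.imp_right fun d => ?_
          obtain ⟨g, d, d'⟩ := mem_iUnion₂.1 d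
          exact ⟨g, f1 d, .inl d'⟩
        · exact .inr ⟨1, t1, .inr (by simpa using ⟨e, c⟩)⟩
      · exact (a3 i k x e).imp_right fun ⟨g, c, d⟩ => ⟨g, c, .inl d⟩

theorem rounds (t1 : 1 ∈ T) (t2 : ∀ g ∈ T, g⁻¹ ∈ T)
    (hF : ((fun (g : Γ) (x : X) => g • x) '' T).Finite) {K : Set X} (hK : IsCompact K)
    {c : Type*} [SemilatticeSup c] [OrderBot c] (rk : c → X → ℕ)
    (r1 : ∀ C (g : Γ) x, rk C (g • x) = rk C x) (r2 : ∀ C C' x, C ≤ C' → rk C x ≤ rk C' x)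
    (h : ∀ C, ∀ x ∈ K, ∃ U C', x ∈ U ∧ Nc {y | rk C y < rk C' y} U ∧ Spd T Z U) (j : ℕ) :
    ∃ (C : c) (M : Fin j → Set X), (∀ i, IsOpen (M i) ∧ Spd T Z (M i)) ∧
      ∀ x ∈ K, j ≤ rk C x ∨ ∃ i, ∃ g ∈ T, g • x ∈ M i := by
  induction j with
  | zero => exact ⟨⊥, Fin.elim0, fun i => i.elim0, fun _ _ => .inl (Nat.zero_le _)⟩
  | succ j ih =>
    obtain ⟨C, M, a1, a2⟩ := ih
    choose! U C' b1 b2 b3 using h C
    obtain ⟨s, s1, s2⟩ := hK.elim_nhds_subcover U fun x k => (b2 x k).1.mem_nhds (b1 x k)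
    obtain ⟨M', c1, c2, c3⟩ := markers (B := {y | rk C y < rk (s.sup C') y}) (Z := Z) t1 t2 hF
      (fun g x k => by simpa only [mem_ofPred_eq, r1] using k) s.finite_toSet (U := U) fun x k =>
        ⟨⟨(b2 x (s1 x k)).1, fun y e => ((b2 x (s1 x k)).2 e).imp_right fun d =>
          lt_of_lt_of_le d (r2 _ _ _ (Finset.le_sup k))⟩, b3 x (s1 x k)⟩
    refine ⟨s.sup C', Fin.cons M' M, Fin.cases ⟨c1.1, c2⟩ a1, fun x k => ?_⟩
    obtain ⟨y, d, e⟩ := mem_iUnion₂.1 (s2 k)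
    obtain f | f := c3 y d x e
    · exact (a2 x k).imp (fun g => lt_of_le_of_lt g f) fun ⟨i, g⟩ => ⟨i.succ, g⟩
    · exact .inr ⟨0, f⟩

theorem ex_spd [T2Space X] (hF : ((fun (g : Γ) (x : X) => g • x) '' (T \ Z)).Finite) {x : X}
    (h : ∀ g ∈ T, g • x = x → g ∈ Z) : ∃ O ∈ 𝓝 x, Spd T Z O := by
  obtain ⟨F, f1, f2, f3⟩ := hF.exists_subset_finite_image_eq subset_rfl
  have (g) (k : g ∈ F) : ∃ O ∈ 𝓝 x, ∀ y ∈ O, g • y ∉ O := by
    obtain ⟨U, V, a1, a2, a3⟩ := t2_separation_nhds (mt (h g (f1 k).1) (f1 k).2)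
    exact ⟨_, inter_mem ((continuous_const_smul g).continuousAt a1) a2,
      fun y b c => a3.notMem_of_mem_left b.1 c.2⟩
  choose! O o1 o2 using this
  refine ⟨_, (biInter_mem f2).2 o1, fun y b g c d => by_contra fun e => ?_⟩
  obtain ⟨g', k, k'⟩ := f3.ge ⟨g, ⟨c, e⟩, rfl⟩
  exact o2 g' k y (mem_iInter₂.1 b g' k) (mem_iInter₂.1 ((show g' • y = g • y from congrFun k' y) ▸ d) g' k)

end Abs

section Box

variable {J E : Type*} [NormedAddCommGroup E] {S : Set (J → E)}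

theorem box {x : S} {O : Set S} (h : O ∈ 𝓝 x) : ∃ (Φ : Set J) (ε : ℝ), Φ.Finite ∧ 0 < ε ∧
    ∀ y : S, (∀ j ∈ Φ, ‖y.1 j - x.1 j‖ < ε) → y ∈ O := by
  obtain ⟨O', a, b⟩ := (mem_nhds_subtype _ _ _).1 h
  rw [nhds_pi, Filter.mem_pi] at a
  obtain ⟨I, a1, t, a2, a3⟩ := a
  obtain ⟨ε, c, d⟩ := (((eventually_all_finite a1).2 fun j _ =>
    eventually_closedBall_subset (a2 j)).filter_mono
      (nhdsWithin_le_nhds (s := Ioi 0))).and self_mem_nhdsWithin |>.exists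
  exact ⟨I, ε, a1, d, fun y k => b (a3 fun j e => c j e (mem_closedBall_iff_norm.2 (k j e).le))⟩

theorem box_open (x : S) {Φ : Set J} (h : Φ.Finite) (ε : ℝ) :
    IsOpen {y : S | ∀ j ∈ Φ, ‖y.1 j - x.1 j‖ < ε} := by
  simp only [ofPred_forall]
  exact h.isOpen_biInter fun j _ => isOpen_lt
    (((continuous_apply j).comp continuous_subtype_val).sub continuous_const).norm continuous_const

theorem lebesgue {K : Set S} (hK : IsCompact K) {ι : Type*} (O : ι → Set S)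
    (h : ∀ x ∈ K, ∃ i, O i ∈ 𝓝 x) : ∃ (Φ : Set J) (ε : ℝ), Φ.Finite ∧ 0 < ε ∧ ∀ x ∈ K, ∃ i,
      ∀ y : S, (∀ j ∈ Φ, ‖y.1 j - x.1 j‖ < ε) → y ∈ O i := by
  refine hK.induction_on (p := fun K => ∃ (Φ : Set J) (ε : ℝ), Φ.Finite ∧ 0 < ε ∧ ∀ x ∈ K, ∃ i,
      ∀ y : S, (∀ j ∈ Φ, ‖y.1 j - x.1 j‖ < ε) → y ∈ O i) ⟨∅, 1, finite_empty, one_pos, by simp⟩
    (fun s t k ⟨Φ, ε, a, b, c⟩ => ⟨Φ, ε, a, b, fun x e => c x (k e)⟩)
    (fun s t ⟨Φ, ε, a, b, c⟩ ⟨Φ', ε', a', b', c'⟩ => ⟨Φ ∪ Φ', min ε ε', a.union a', lt_min b b',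
      fun x e => e.elim (fun e => (c x e).imp fun i f y g => f y fun j k =>
        (g j (.inl k)).trans_le (min_le_left _ _)) fun e => (c' x e).imp fun i f y g =>
          f y fun j k => (g j (.inr k)).trans_le (min_le_right _ _)⟩) fun x k => ?_
  obtain ⟨i, a⟩ := h x k
  obtain ⟨Φ, ε, b, c, d⟩ := box a
  refine ⟨_, mem_nhdsWithin_of_mem_nhds ((box_open x b (ε / 2)).mem_nhds (by simp [c])), Φ, ε / 2, b,
    by positivity, fun y e => ⟨i, fun z f => d z fun j g => ?_⟩⟩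
  have := norm_sub_le_norm_sub_add_norm_sub (z.1 j) (y.1 j) (x.1 j)
  linarith [e j g, f j g]

end Box

end Pool.Agent.Lib.MP_5d3e93_al
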