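import Pool.Agent.Lib.MP_5d3e93_al.Wh

/-! Localisation of Nil terms for free pairs. -/

open CategoryTheory
open scoped Pointwise

namespace Pool.Agent.Lib.MP_5d3e93_al

universe w v u

section Comb

variable {G : Type w} [Group G]

/-- Free pairs: the first letter of a word of given length is determined modulo `D`. -/
structure Fr (D : Subgroup G) (Ω : Set G) : Prop where
  left : ∀ d ∈ D, ∀ a ∈ Ω, d * a ∈ Ω
  right : ∀ d ∈ D, ∀ a ∈ Ω, a * d ∈ Ω
  free : ∀ n : ℕ, ∀ a ∈ Ω, ∀ a' ∈ Ω, ∀ w ∈ Ω ^ n, ∀ w' ∈ Ω ^ n, a * w = a' * w' → a⁻¹ * a' ∈ D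

/-- Double coset. -/
def dc (D : Subgroup G) (g : G) : Set G := {k | ∃ d ∈ D, ∃ d' ∈ D, k = d * g * d'}

/-- Intersection with a conjugate. -/
def cj (D : Subgroup G) (g : G) : Subgroup G := D ⊓ D.comap (MulAut.conj g⁻¹).toMonoidHom

theorem mem_cj {D : Subgroup G} {g k : G} : k ∈ cj D g ↔ k ∈ D ∧ g⁻¹ * k * g ∈ D := by
  simp [cj]

variable {D : Subgroup G} {Ω : Set G}

theorem self_mem_dc (g : G) : g ∈ dc D g := ⟨1, one_mem _, 1, one_mem _, by simp⟩

theorem dc_mul {g d d' : G} (hd : d ∈ D) (hd' : d' ∈ D) : dc D (d * g * d') = dc D g := by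
  ext k
  constructor
  · rintro ⟨a, ha, b, hb, rfl⟩
    exact ⟨_, mul_mem ha hd, _, mul_mem hd' hb, by group⟩
  · rintro ⟨a, ha, b, hb, rfl⟩
    exact ⟨_, mul_mem ha (inv_mem hd), _, mul_mem (inv_mem hd') hb, by group⟩

theorem Fr.dc_sub (h : Fr D Ω) {g : G} (hg : g ∈ Ω) : dc D g ⊆ Ω := by
  rintro _ ⟨a, ha, b, hb, rfl⟩
  exact h.right _ hb _ (h.left _ ha _ hg)

theorem Fr.sub (h : Fr D Ω) {Ω' : Set G} (hs : Ω' ⊆ Ω) (h1 : ∀ d ∈ D, ∀ a ∈ Ω', d * a ∈ Ω')
    (h2 : ∀ d ∈ D, ∀ a ∈ Ω', a * d ∈ Ω') : Fr D Ω' :=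
  ⟨h1, h2, fun n a ha a' ha' w hw w' hw' => h.free n a (hs ha) a' (hs ha') w
    (Set.pow_subset_pow_left hs hw) w' (Set.pow_subset_pow_left hs hw')⟩

theorem Fr.dc (h : Fr D Ω) {g : G} (hg : g ∈ Ω) : Fr D (dc D g) := by
  refine h.sub (h.dc_sub hg) ?_ ?_
  · rintro d hd _ ⟨a, ha, b, hb, rfl⟩
    exact ⟨_, mul_mem hd ha, b, hb, by group⟩
  · rintro d hd _ ⟨a, ha, b, hb, rfl⟩
    exact ⟨a, ha, _, mul_mem hb hd, by group⟩

theorem prod_mem_pow {l : List G} (h : ∀ a ∈ l, a ∈ Ω) : l.prod ∈ Ω ^ l.length := by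
  induction l with
  | nil => simp
  | cons a l ih =>
    rw [List.prod_cons, List.length_cons, pow_succ']
    exact Set.mul_mem_mul (h a (by simp)) (ih fun b hb => h b (by simp [hb]))

theorem Fr.sep (h : Fr D Ω) : Sep (MP_5d3e93_al.dc D) Ω := by
  suffices ∀ l l' : List G, (∀ a ∈ l, a ∈ Ω) → (∀ a ∈ l', a ∈ Ω) → l.length = l'.length →
      ∀ d ∈ D, l.prod = d * l'.prod → l.map (MP_5d3e93_al.dc D) = l'.map (MP_5d3e93_al.dc D) from
    fun l l' h1 h2 h3 h4 => this l l' h1 h2 h3 1 (one_mem _) (by simpa using h4)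
  intro l
  induction l with
  | nil => intro l' _ _ h _ _ _; rw [List.length_eq_zero_iff.1 h.symm]
  | cons a r ih =>
    intro l' h1 h2 h3 d hd e
    obtain _ | ⟨a', r'⟩ := l'
    · simp at h3
    have h1' := fun g hg => h1 g (List.mem_cons_of_mem _ hg)
    have h2' := fun g hg => h2 g (List.mem_cons_of_mem _ hg)
    have h4 : r.length = r'.length := by simpa using h3
    have k := h.free r.length a (h1 a (by simp)) (d * a') (h.left d hd _ (h2 a' (by simp))) _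
      (prod_mem_pow h1') _ (h4 ▸ prod_mem_pow h2') (by simpa [mul_assoc] using e)
    have e1 : r.prod = a⁻¹ * (d * a') * r'.prod := by
      rw [List.prod_cons, List.prod_cons] at e
      rw [mul_assoc, mul_assoc, ← e, inv_mul_cancel_left]
    have e2 := dc_mul (g := a) (inv_mem hd) k
    rw [show d⁻¹ * a * (a⁻¹ * (d * a')) = a' by group] at e2
    rw [List.map_cons, List.map_cons, ih r' h1' h2' h4 _ k e1, e2]

theorem Fr.pref (h : Fr D Ω) (k : ℕ) : ∀ n : ℕ, ∀ a ∈ Ω ^ k, ∀ a' ∈ Ω ^ k, ∀ w ∈ Ω ^ n,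
    ∀ w' ∈ Ω ^ n, ∀ d ∈ D, a * w = d * a' * w' → a⁻¹ * (d * a') ∈ D := by
  induction k with
  | zero =>
    intro n a ha a' ha' w _ w' _ d hd _
    rw [pow_zero, Set.mem_one] at ha ha'
    simpa [ha, ha'] using hd
  | succ k ih =>
    intro n a ha a' ha' w hw w' hw' d hd e
    rw [pow_succ'] at ha ha'
    obtain ⟨b, hb, c, hc, rfl⟩ := ha
    obtain ⟨b', hb', c', hc', rfl⟩ := ha'
    have k1 := h.free (k + n) b hb (d * b') (h.left d hd _ hb') (c * w)
      (pow_add Ω k n ▸ Set.mul_mem_mul hc hw) (c' * w') (pow_add Ω k n ▸ Set.mul_mem_mul hc' hw')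
      (by simpa [mul_assoc] using e)
    have k2 := ih n c hc c' hc' w hw w' hw' _ k1 (by
      rw [show c * w = b⁻¹ * (b * c * w) by group]
      simp only at e
      rw [e]; group)
    convert k2 using 1
    simp only
    group

theorem Fr.pow (h : Fr D Ω) (k : ℕ) : Fr D (Ω ^ (k + 1)) := by
  refine ⟨fun d hd a ha => ?_, fun d hd a ha => ?_, fun n a ha a' ha' w hw w' hw' e => ?_⟩
  · rw [pow_succ'] at ha ⊢
    obtain ⟨b, hb, c, hc, rfl⟩ := ha
    exact ⟨_, h.left d hd b hb, c, hc, mul_assoc _ _ _⟩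
  · rw [pow_succ] at ha ⊢
    obtain ⟨b, hb, c, hc, rfl⟩ := ha
    exact ⟨b, hb, _, h.right d hd c hc, (mul_assoc _ _ _).symm⟩
  · rw [← pow_mul] at hw hw'
    simpa using h.pref _ _ a ha a' ha' w hw w' hw' 1 (one_mem _) (by simpa using e)

theorem Fr.cj {g : G} (h : Fr D (MP_5d3e93_al.dc D g)) :
    Fr (cj D g) {k | g⁻¹ * k ∈ D} := by
  have hs : {k | g⁻¹ * k ∈ D} ⊆ MP_5d3e93_al.dc D g := fun k hk =>
    ⟨1, one_mem _, _, hk, by group⟩
  refine ⟨fun d hd a ha => ?_, fun d hd a ha => ?_, fun n a ha a' ha' w hw w' hw' e => ?_⟩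
  · have := mul_mem (mem_cj.1 hd).2 ha
    simpa [mul_assoc] using this
  · have := mul_mem ha (mem_cj.1 hd).1
    simpa [mul_assoc] using this
  · have k1 : a⁻¹ * a' ∈ D := by
      simpa [mul_assoc] using D.mul_mem (D.inv_mem (show g⁻¹ * a ∈ D from ha))
        (show g⁻¹ * a' ∈ D from ha')
    refine mem_cj.2 ⟨k1, ?_⟩
    obtain _ | n := n
    · rw [pow_zero, Set.mem_one] at hw hw'
      have : a = a' := by simpa [hw, hw'] using e
      simp [this]
    · rw [pow_succ'] at hw hw'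
      obtain ⟨b, hb, c, hc, rfl⟩ := hw
      obtain ⟨b', hb', c', hc', rfl⟩ := hw'
      have k2 := h.free n b (hs hb) _ (h.left _ k1 _ (hs hb')) c (Set.pow_subset_pow_left hs hc) c'
        (Set.pow_subset_pow_left hs hc') (by
          rw [show b * c = a⁻¹ * (a * (b * c)) by group]
          simp only at e
          rw [e]; group)
      convert D.mul_mem (D.mul_mem (show g⁻¹ * b ∈ D from hb) k2)
        (D.inv_mem (show g⁻¹ * b' ∈ D from hb')) using 1
      group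

theorem pow_sub_pos {P : Set G} (hP : ∀ a ∈ P, ∀ b ∈ P, a * b ∈ P) (h : Ω ⊆ P) (k : ℕ) :
    Ω ^ (k + 1) ⊆ P := by
  induction k with
  | zero => simpa using h
  | succ k ih =>
    rw [pow_succ]
    rintro _ ⟨a, ha, b, hb, rfl⟩
    exact hP a (ih ha) b (h hb)

end Comb

/-- Classes of endomorphisms with the formal properties of trivial automorphisms. -/
structure Nt (C : Type u) [Category.{v} C] [Preadditive C] where
  T : ∀ {A : C}, (A ⟶ A) → Prop
  id : ∀ A : C, T (𝟙 A)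
  comp : ∀ {A : C} {f g : A ⟶ A}, T f → T g → T (f ≫ g)
  cyc : ∀ {A B : C} (X : A ⟶ B) (Y : B ⟶ A), T (𝟙 B - Y ≫ X) → T (𝟙 A - X ≫ Y)

theorem Wd.pw' {C : Type u} [Category.{v} C] {A : C} {K : Type*} {q : K → (A ⟶ A)} {a : A ⟶ A}
    {k : ℕ} (ha : a ∈ Wd q k) (n : ℕ) : MP_5d3e93_al.pw a n ∈ Wd q (k * n) := by
  induction n with
  | zero => exact ⟨[], by simp, rfl⟩
  | succ n ih => rw [pw_succ, mul_add, mul_one, add_comm]; exact Wd.mul ha ih

theorem Nt.lazard {C : Type u} [Category.{v} C] [Preadditive C] (θ : Nt C) {A : C} {K : Type*}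
    {q : K → (A ⟶ A)} {m : ℕ} (h0 : ∀ a ∈ Wd q m, a = 0)
    (h1 : ∀ a ∈ Wd q 1, θ.T (𝟙 A - a)) (d : ℕ) :
    ∀ w, 1 ≤ w → m ≤ w + d → ∀ c ∈ AddSubmonoid.closure (Wd q w), θ.T (𝟙 A - c) := by
  induction d with
  | zero =>
    intro w _ hw c hc
    rw [Wd.czero (fun a ha => h0 a (Wd.anti (by omega) ha)) hc, sub_zero]
    exact θ.id _
  | succ d ih =>
    intro w hw hm c hc
    obtain ⟨l, hl, rfl⟩ := AddSubmonoid.exists_list_of_mem_closure hc
    suffices ∀ c' ∈ AddSubmonoid.closure (Wd q (w + 1)), θ.T (𝟙 A - (l.sum + c')) by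
      simpa using this 0 (zero_mem _)
    clear hc
    induction l with
    | nil => simpa using ih (w + 1) (by omega) (by omega)
    | cons x l ihl =>
      intro c' hc'
      have hx : x ∈ Wd q w := hl x (by simp)
      have hx1 : x ∈ Wd q 1 := Wd.anti hw hx
      have hl' : ∀ y ∈ l, y ∈ Wd q w := fun y hy => hl y (by simp [hy])
      have hr : l.sum + c' ∈ AddSubmonoid.closure (Wd q w) :=
        add_mem (AddSubmonoid.list_sum_mem _ fun y hy => AddSubmonoid.subset_closure (hl' y hy))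
          (AddSubmonoid.closure_mono (Wd.anti (by omega)) hc')
      have e0 : pw x (m + 1) = 0 := h0 _ (Wd.anti (by omega) (Wd.pw hx1 _))
      have e : 𝟙 A - ((x :: l).sum + c') = (𝟙 A - x) ≫ (𝟙 A - (l.sum + (c' +
          ∑ j ∈ Finset.range m, pw x (j + 1) ≫ (l.sum + c')))) := by
        have := congrArg (· ≫ (l.sum + c')) (geom_left x (m + 1))
        simp only [e0, sub_zero, Category.id_comp, Finset.sum_range_succ', pw_zero,
          Category.assoc, Preadditive.add_comp, Preadditive.sum_comp] at this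
        rw [Preadditive.comp_sub, ← add_assoc l.sum, add_comm (l.sum + c'), this, List.sum_cons]
        simp only [Category.comp_id]
        abel
      rw [e]
      refine θ.comp (h1 x hx1) (ihl hl' _ (add_mem hc' (sum_mem fun j _ => ?_)))
      exact AddSubmonoid.closure_mono (Wd.anti (by omega))
        (Wd.cmul (AddSubmonoid.subset_closure (Wd.pw hx1 (j + 1))) hr)

namespace GC

variable {G : Type w} [Group G] {C : Type u} [Category.{v} C] [Preadditive C] (S : GC G C)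
variable {A B : C}

theorem sup_top (f : A ⟶ B) : S.Sup (⊤ : Subgroup G) f := fun _ hg => (hg trivial).elim

/-- Trivial automorphisms over the whole group. -/
def nt : Nt C where
  T f := S.Tr ⊤ f
  id _ := .id
  comp := .comp
  cyc _ _ := .cyc (S.sup_top _) (S.sup_top _)

variable (θ : Nt C)

/-- Nil terms over `Ω` are trivial. -/
def Gd (Ω : Set G) : Prop :=
  ∀ (A : C) (x : A ⟶ A), S.Sup Ω x → (∃ m, pw x m = 0) → θ.T (𝟙 A - x)

/-- The descent relation. -/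
def NR (P : Set G) (D₁ D : Subgroup G) : Prop :=
  ∃ g ∈ P, Fr D (dc D g) ∧ ¬ S.Gd θ (dc D g) ∧ D₁ = cj D g

variable {S θ}

theorem Gd.mono {Ω Ω' : Set G} (h : S.Gd θ Ω) (hs : Ω' ⊆ Ω) : S.Gd θ Ω' :=
  fun A x hx => h A x (hx.mono hs)

theorem Gd.move {Ω X Y : Set G} (h : Ω ⊆ X * Y) (hg : S.Gd θ (Y * X)) : S.Gd θ Ω := by
  rintro A x hx ⟨m, hm⟩
  obtain ⟨D, a, b, h1, h2, rfl⟩ := (hx.mono h).factor
  exact θ.cyc _ _ (hg _ _
    (h2.comp h1 fun _ hy _ hx => Set.mul_mem_mul hy hx) ⟨m + 1, by simp [pw_cyc, hm]⟩)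

theorem W.gd {N : Subgroup G} (h : S.W N) : S.Gd S.nt N := fun _ _ hx ⟨_, hm⟩ =>
  (h _ _ _ (iso_unip hx hm)).mono le_top

theorem sum_colour {K : Type*} (c : G → K) (x : A ⟶ A) :
    x ∈ AddSubmonoid.closure (Wd (fun k => S.proj {g | c g = k} x) 1) := by
  classical
  have e : x = ∑ k ∈ (S.fin x).toFinset.image c, S.proj {g | c g = k} x := by
    refine ext_cp (S := S) fun g => ?_
    simp only [map_sum, cp_proj, Set.mem_ofPred_eq, Finset.sum_ite_eq]
    split_ifs with hg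
    · rfl
    · by_contra hne
      exact hg (Finset.mem_image_of_mem c (by simpa using hne))
  have := sum_mem (S := AddSubmonoid.closure (Wd (fun k => S.proj {g | c g = k} x) 1))
    (t := (S.fin x).toFinset.image c) fun k _ => AddSubmonoid.subset_closure (Wd.one _ k)
  rwa [← e] at this

/-- Localisation of Nil terms. -/
theorem nil {P : Set G} (hP : ∀ a ∈ P, ∀ b ∈ P, a * b ∈ P) {D : Subgroup G}
    (h : Acc (S.NR θ P) D) : ∀ Ω, Fr D Ω → Ω ⊆ P → S.Gd θ Ω := by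
  induction h with
  | intro D _ ih =>
  have single : ∀ Ω, Fr D Ω → Ω ⊆ P → ∀ g ∈ Ω, S.Gd θ (dc D g) := by
    intro Ω h1 h2 g hg
    by_contra hn
    have k := ih _ ⟨g, h2 hg, h1.dc hg, hn, rfl⟩ _ (h1.dc hg).cj fun k hk =>
      h2 (h1.dc_sub hg ⟨1, one_mem _, _, hk, by group⟩)
    refine hn (Gd.move (X := D) (Y := {k | g⁻¹ * k ∈ D}) ?_ (k.mono ?_))
    · rintro _ ⟨a, ha, b, hb, rfl⟩
      exact ⟨a, ha, g * b, by simpa using hb, (mul_assoc _ _ _).symm⟩
    · rintro _ ⟨a, ha, b, hb, rfl⟩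
      simpa [mul_assoc] using mul_mem ha hb
  suffices ∀ m : ℕ, ∀ Ω, Fr D Ω → Ω ⊆ P → ∀ (A : C) (x : A ⟶ A), S.Sup Ω x → pw x m = 0 →
      θ.T (𝟙 A - x) from fun Ω h1 h2 A x hx ⟨m, hm⟩ => this m Ω h1 h2 A x hx hm
  intro m
  induction m with
  | zero =>
    intro Ω _ _ A x _ hm
    rw [← Category.comp_id x, show 𝟙 A = 0 from hm, Limits.comp_zero, sub_zero, ← hm]
    exact θ.id _
  | succ m ihm =>
    intro Ω h1 h2 A x hx hm
    obtain rfl | hm0 := Nat.eq_zero_or_pos m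
    · rw [show x = 0 by simpa [pw_succ] using hm, sub_zero]
      exact θ.id _
    have h0 := word_zero h1.sep hx hm
    refine θ.lazard h0 ?_ (m + 1) 1 le_rfl (by omega) x (sum_colour _ x)
    rintro _ ⟨κ, hκ, rfl⟩
    have hw := sup_word (c := dc D) hx κ
    obtain _ | ⟨k, _ | ⟨k', κ⟩⟩ := κ
    · simp at hκ
    · by_cases hk : ∃ g ∈ Ω, dc D g = k
      · obtain ⟨g, hg, rfl⟩ := hk
        refine single Ω h1 h2 g hg _ _ (hw.mono ?_) ⟨m + 1, h0 _ (Wd.pw ⟨_, hκ, rfl⟩ _)⟩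
        rintro _ ⟨l, -, h3, rfl⟩
        obtain ⟨a, l, rfl, h4, h5⟩ := List.map_eq_cons_iff.1 h3
        rw [List.map_eq_nil_iff.1 h5, ← h4]
        simpa using self_mem_dc a
      · rw [hw.eq_zero hw, sub_zero]
        · exact θ.id _
        · rintro _ ⟨l, h4, h3, rfl⟩ -
          obtain ⟨a, l, rfl, h5, -⟩ := List.map_eq_cons_iff.1 h3
          exact hk ⟨a, h4 a (by simp), h5⟩
    · refine ihm _ (h1.pow (κ.length + 1)) (pow_sub_pos hP h2 _) _ _ (hw.mono ?_)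
        (h0 _ (Wd.anti ?_ (Wd.pw' (k := 2) ⟨_, by simp, rfl⟩ m)))
      · rintro _ ⟨l, h3, h4, rfl⟩
        have := congrArg List.length h4
        simp only [List.length_map, List.length_cons] at this
        exact this ▸ prod_mem_pow h3
      · omega

theorem acc_of {P : Set G} {ι : Type*} {r : ι → ι → Prop} (R : Subgroup G → ι → Prop)
    (h : ∀ D i, R D i → ∀ g ∈ P, Fr D (dc D g) → ¬ S.Gd θ (dc D g) →
      ∃ j, r j i ∧ R (cj D g) j) {i : ι} (hi : Acc r i) : ∀ D, R D i → Acc (S.NR θ P) D := by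
  induction hi with
  | intro i _ ih =>
  intro D hD
  refine ⟨_, ?_⟩
  rintro _ ⟨g, hg, h1, h2, rfl⟩
  obtain ⟨j, h3, h4⟩ := h D i hD g hg h1 h2
  exact ih j h3 _ h4

end GC

end Pool.Agent.Lib.MP_5d3e93_al
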