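import Pool.Agent.Lib.MP_5d3e93_al.Ind
import Pool.Agent.Lib.MP_5d3e93_al.Flq

/-! The obstruction category satisfies the hypotheses of the vanishing theorems. -/

open CategoryTheory

namespace Pool.Agent.Lib.MP_5d3e93_al

universe w w' v u

variable {G : Type w} [Group G] {S : Type w'} [MulAction G S]
variable {C : Type u} [Category.{v} C] [Preadditive C] (ρ : Act G C)
variable (hS : ∀ (H : Subgroup G) (x : H), (Subgroup.zpowers x).FiniteIndex →
  ∃ s : S, ∀ g ∈ H, g • s = s)
include hS

theorem obs_k0 : K0Zero (Obs S C) := (hS ⊥ 1 inferInstance).elim fun s _ => Obs.k0 s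

theorem obs_vc (H : Type w) [Group H] (x : H) (h : (Subgroup.zpowers x).FiniteIndex) :
    AV (Obs.act S ρ) H := fun φ => by
  obtain ⟨s, e⟩ := hS φ.range (φ.rangeRestrict x) (fi_top.1 (((fi_top.2 h).map φ.rangeRestrict).mono
    (MonoidHom.map_zpowers ..).le (Subgroup.map_top_of_surjective _ φ.rangeRestrict_surjective).ge))
  exact Obs.k1 s ρ (φ.comp (.fst H Zi)) fun y => e _ ⟨y.1, rfl⟩

end Pool.Agent.Lib.MP_5d3e93_al
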