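import Pool.Agent.Lib.MP_5d3e93_al.PrF

/-! Vanishing over graded posets with unique factorisation. -/

open CategoryTheory Limits MulAction

namespace Pool.Agent.Lib.MP_5d3e93_al

universe w w' v u

/-- An equivariant height function with unique factorisation. -/
structure Gp (Γ : Type w) [Group Γ] (Y : Type w') [Preorder Y] [MulAction Γ Y] (κ : Type) where
  h : Y → κ → ℤ
  χ : κ → Ch Γ
  hm : ∀ (g : Γ) (x y : Y), x ≤ y → g • x ≤ g • y
  smul : ∀ (g : Γ) y i, h (g • y) i = χ i g + h y i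
  mono : ∀ {x y}, x ≤ y → h x ≤ h y
  fac : ∀ {x z a}, x ≤ z → h x ≤ a → a ≤ h z → ∃ y, x ≤ y ∧ y ≤ z ∧ h y = a
  uniq : ∀ {x y y' z}, x ≤ y → y ≤ z → x ≤ y' → y' ≤ z → h y = h y' → y = y'

variable {Γ : Type w} [Group Γ] {Y : Type w'} [Preorder Y] [MulAction Γ Y] {κ : Type}

/-- Points with a time. -/
@[ext] structure Tm (ω : Ch Γ) (Y : Type w') where
  y : Y
  t : ℤ

instance (ω : Ch Γ) : MulAction Γ (Tm ω Y) where
  smul g p := ⟨g • p.y, ω g + p.t⟩
  one_smul p := Tm.ext (one_smul ..) (show ω 1 + p.t = _ by simp)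
  mul_smul a b p := Tm.ext (mul_smul ..) (show ω (a * b) + p.t = ω a + (ω b + p.t) by
    rw [ω.mul, add_assoc])

namespace Gp

variable (P : Gp Γ Y κ)

/-- Restriction. -/
def comap {Γ' : Type w} [Group Γ'] [MulAction Γ' Y] (j : Γ' →* Γ)
    (hj : ∀ (g : Γ') (y : Y), g • y = j g • y) : Gp Γ' Y κ :=
  ⟨P.h, fun i => (P.χ i).comap j, fun g x y k => by rw [hj, hj]; exact P.hm _ _ _ k,
    fun g y i => by rw [hj]; exact P.smul .., P.mono, P.fac, P.uniq⟩

/-- Products. -/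
def prod {Z : Type w'} [Preorder Z] [MulAction Γ Z] {κ' : Type} (Q : Gp Γ Z κ') :
    Gp Γ (Y × Z) (κ ⊕ κ') where
  h p := Sum.elim (P.h p.1) (Q.h p.2)
  χ := Sum.elim P.χ Q.χ
  hm g _ _ k := ⟨P.hm g _ _ k.1, Q.hm g _ _ k.2⟩
  smul g y i := i.rec (P.smul g y.1) (Q.smul g y.2)
  mono k i := i.rec (P.mono k.1) (Q.mono k.2)
  fac {x z a} k l m := by
    obtain ⟨y, a1, a2, a3⟩ := P.fac (a := fun i => a (.inl i)) k.1 (fun i => l (.inl i))
      fun i => m (.inl i)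
    obtain ⟨y', b1, b2, b3⟩ := Q.fac (a := fun i => a (.inr i)) k.2 (fun i => l (.inr i))
      fun i => m (.inr i)
    exact ⟨(y, y'), ⟨a1, b1⟩, ⟨a2, b2⟩, funext fun i => i.rec (congrFun a3) (congrFun b3)⟩
  uniq a b c d e := Prod.ext (P.uniq a.1 b.1 c.1 d.1 (funext fun i => congrFun e (.inl i)))
    (Q.uniq a.2 b.2 c.2 d.2 (funext fun i => congrFun e (.inr i)))

variable {ω : Ch Γ} (c : κ → ℤ) (N : ℤ)

/-- Offsets. -/
def off (p : Tm ω Y) (i : κ) : ℤ := P.h p.y i - p.t * c i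

/-- Bounds for the offsets. -/
def Bx (d : ℕ) (p : Tm ω Y) : Prop := ∀ i, 0 < c i → N ≤ P.off c p i ∧ P.off c p i ≤ N + d

/-- The step relation. -/
def R (d : ℕ) (p q : Tm ω Y) : Prop := p.y ≤ q.y ∧ q.t = p.t + 1 ∧
  (∀ i, c i ≤ 0 → P.off c p i = P.off c q i) ∧ P.Bx c N d p ∧ P.Bx c N d q

/-- The new location. -/
def Bk (d : ℕ) (q r : Tm ω Y) : Prop := r.y ≤ q.y ∧ r.t = q.t ∧ P.Bx c N d r ∧
  ∀ i, P.off c r i = if 0 < c i then min (P.off c q i) (N + d) else P.off c q i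

variable {P c N} (hc : ∀ g i, P.χ i g = ω g * c i) {d : ℕ}

section
include hc

theorem off_smul (g : Γ) (p : Tm ω Y) : P.off c (g • p) = P.off c p := funext fun i => by
  change P.h (g • p.y) i - (ω g + p.t) * c i = P.h p.y i - _
  rw [P.smul, hc]
  ring

theorem R.smul (g : Γ) (p q : Tm ω Y) (h : P.R c N d p q) : P.R c N d (g • p) (g • q) := by
  refine ⟨P.hm g _ _ h.1, show ω g + q.t = ω g + p.t + 1 by rw [h.2.1, add_assoc], ?_⟩
  simp only [Bx, off_smul hc]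
  exact h.2.2

end

theorem pth_le {k : ℕ} : ∀ {p q : Tm ω Y}, Pth (P.R c N d) k p q → p.y ≤ q.y := by
  induction k with
  | zero => exact fun h => (congrArg Tm.y h).le
  | succ k ih => exact fun ⟨_, a, b⟩ => a.1.trans (ih b)

theorem h_eq {p q : Tm ω Y} (a : p.t = q.t) (b : P.off c p = P.off c q) : P.h p.y = P.h q.y :=
  funext fun i => by simpa [off, a] using congrFun b i

theorem ex_bk {p q : Tm ω Y} (h : P.R c N (d + 1) p q) : ∃ r, p.y ≤ r.y ∧ P.Bk c N d q r := by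
  obtain ⟨h1, h2, -, h4, h5⟩ := h
  obtain ⟨y, a1, a2, a3⟩ := P.fac (a := fun i => (if 0 < c i then min (P.off c q i) (N + d)
    else P.off c q i) + q.t * c i) h1 (fun i => by
      have := P.mono h1 i
      have := h4 i
      simp only [off, h2, add_mul] at *
      split_ifs with k
      · have := this k
        push_cast at this
        omega
      · omega) fun i => by
      simp only [off]
      split_ifs <;> omega
  have e (i) : P.off c (⟨y, q.t⟩ : Tm ω Y) i = if 0 < c i then min (P.off c q i) (N + d)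
      else P.off c q i := by simp [off, a3]
  refine ⟨⟨y, q.t⟩, a1, a2, rfl, fun i k => ?_, e⟩
  have := h5 i k
  rw [e, if_pos k]
  omega

variable {C : Type u} [Category.{v} C] [Preadditive C] {S : GC (Γ × Zi) C} {θ : Nt C} {m : ℕ}

include hc in
theorem nl_succ (hz : ∃ Z : C, 𝟙 Z = 0)
    (h : S.Nl θ (.fst Γ Zi) (P.R (ω := ω) c N d) m fun _ => True) :
    S.Nl θ (.fst Γ Zi) (P.R (ω := ω) c N (d + 1)) m fun _ => True := by
  classical
  choose! k k1 k2 using fun p q => ex_bk (P := P) (c := c) (N := N) (d := d) (ω := ω) (p := p) (q := q)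
  refine GC.Nl.back hz (R.smul hc) k (fun x y y' z a b e f => ?_) (P.Bk c N d) k2
    (fun x r g y a b => ?_) h
  · have t := (k2 y z e).2.1.trans (k2 y' z f).2.1.symm
    exact Tm.ext (P.uniq ((pth_le a).trans (k1 y z e)) (k2 y z e).1 ((pth_le b).trans (k1 y' z f))
      (k2 y' z f).1 (h_eq t (funext fun i => ((k2 y z e).2.2.2 i).trans
        ((k2 y' z f).2.2.2 i).symm))) t
  · have e := b.smul hc g⁻¹
    rw [inv_smul_smul] at e
    obtain ⟨-, e2, e3, e4⟩ := k2 _ _ e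
    refine ⟨a.1.trans ?_, ?_, fun i l => ?_, a.2.2.1, fun i l => by rw [off_smul hc]; exact e3 i l⟩
    · exact (smul_inv_smul g x.y).ge.trans (P.hm g _ _ (k1 _ _ e))
    · exact show ω g + _ = _ by rw [e2, a.2.1]; exact b.2.1
    · rw [off_smul hc, e4, a.2.2.2, if_neg l.not_gt, if_neg l.not_gt, b.2.2.1 i l, off_smul hc]

theorem R.uniq (k) (σ τ x y : Tm ω Y) (a : P.R c N 0 σ τ) (b : P.R c N 0 σ x)
    (p : Pth (P.R c N 0) k τ y) (q : Pth (P.R c N 0) k x y) : τ = x := by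
  have t := a.2.1.trans b.2.1.symm
  refine Tm.ext (P.uniq a.1 (pth_le p) b.1 (pth_le q) (h_eq (c := c) t (funext fun i => ?_))) t
  obtain l | l := le_or_gt (c i) 0
  · exact (a.2.2.1 i l).symm.trans (b.2.2.1 i l)
  · have := a.2.2.2.2 i l
    have := b.2.2.2.2 i l
    omega

end Gp

variable {C : Type u} [Category.{v} C] [Preadditive C]

theorem GC.diag_inv {S : GC Γ C} {X : Type*} {A B : C} {L : S.Lo X A} {M : S.Lo X B} (l : X → ℤ)
    {u u0 : A ⟶ B} {v v0 : B ⟶ A} (h : u ≫ v = 𝟙 A) (k : M.Rg L (fun x _ y => l x ≤ l y) v)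
    (p : L.Rg M (fun x _ y => l x = l y) u0) (q : M.Rg L (fun x _ y => l x = l y) v0)
    (p' : L.Rg M (fun x _ y => l x < l y) (u - u0))
    (q' : M.Rg L (fun x _ y => l x < l y) (v - v0)) : u0 ≫ v0 = 𝟙 A := by
  have a : L.Rg L (fun x _ y => l x = l y) (𝟙 A - u0 ≫ v0) :=
    (Lo.rg_id.mono fun _ _ _ k => by rw [k.2]).sub (p.comp q fun _ _ _ _ _ => Eq.trans)
  have b : L.Rg L (fun x _ y => l x < l y) (𝟙 A - u0 ≫ v0) := by
    rw [show 𝟙 A - u0 ≫ v0 = (u - u0) ≫ v + u0 ≫ (v - v0) by simp [h]]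
    exact (p'.comp k fun _ _ _ _ _ => lt_of_lt_of_le).add (p.comp q' fun _ _ _ _ _ => Eq.trans_lt)
  exact (sub_eq_zero.1 ((a.and b).eq_zero fun _ _ _ k => k.2.ne k.1)).symm

theorem GC.tr_eq {S : GC Γ C} {X : Type*} [MulAction Γ X] {A B : C} {L : S.Lo X A} {M : S.Lo X B}
    (hz : ∃ Z : C, 𝟙 Z = 0) (hW : ∀ x : X, S.W (stabilizer Γ x)) {u : A ⟶ B} {v : B ⟶ A}
    (p : L.Rg M (fun x g y => x = g • y) u) (q : M.Rg L (fun x g y => x = g • y) v)
    (e : u ≫ v = 𝟙 A) (e' : v ≫ u = 𝟙 B) : S.Tr ⊤ u :=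
  tr_of_lg (tq_eq (Ω := fun _ => True) (P := ⟨A, L, L.on_true⟩) (Q := ⟨B, M, M.on_true⟩) hz
    (fun x _ => hW x) ⟨p, v, q, e, e'⟩).tr

variable [HasBinaryBiproducts C] [HasZeroObject C] {σ : Act Γ C}

theorem gd_fr (hs : Sw σ) {D : Subgroup Γ} (hD : LocHyper D) {Ω : Set (Γ × Zi)}
    (h : Fr (D.prod ⊤) Ω) : (SZ σ).Gd (SZ σ).nt Ω :=
  GC.nil (P := .univ) (fun _ _ _ _ => trivial) (.intro _ fun _ ⟨g, _, a, b, _⟩ => (b (by
    rw [dc_prod] at a ⊢
    exact gd_small hs.k0 hs.ih a.fst hD (.id Γ))).elim) Ω h (Set.subset_univ _)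

variable [Fintype κ] (P : Gp Γ Y κ) (hs : Sw σ) (hL : Lcd Y σ)
variable (hY : ∀ y : Y, LocHyper (stabilizer Γ y))
include P hs hL hY

theorem k1_flat (hχ : ∀ g i, P.χ i g = 0) : K1Zero (TwZ σ) := by
  refine K1_of_W' hs.k0 (Subgroup.subtype_injective ⊥) (hs.av (⊥ : Subgroup Γ) 1 inferInstance _) ?_
  obtain ⟨L, hL⟩ := hL.lo
  let l (y : Y) : ℤ := ∑ i, P.h y i
  have e (g : Γ) (y) : P.h (g • y) = P.h y := funext fun i => by rw [P.smul, hχ, zero_add]
  have a {x y} {g : Γ} (k : x ≤ g • y) : l x ≤ l y :=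
    Finset.sum_le_sum fun i _ => e g y ▸ P.mono k i
  have b {A B} (f : A ⟶ B) : ∃ f0, (L A).Rg (L B) (fun x g y => x = g.1 • y) f0 ∧
      (L A).Rg (L B) (fun x _ y => l x = l y) f0 ∧
      (L A).Rg (L B) (fun x _ y => l x < l y) (f - f0) := by
    obtain ⟨f0, p, q⟩ := (hL A B f).split fun x _ y => l x = l y
    exact ⟨f0, p.mono fun x g y k => P.uniq le_rfl k.1 k.1 le_rfl (funext fun i => by
      rw [e]
      exact (Finset.sum_eq_sum_iff_of_le fun i _ => e g.1 y ▸ P.mono k.1 i).1 k.2 i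
        (Finset.mem_univ i)), p.mono fun _ _ _ k => k.2, q.mono fun _ _ _ k => (a k.1).lt_of_ne k.2⟩
  have c {A B} {u : A ⟶ B} {v : B ⟶ A} (h : u ≫ v = 𝟙 A) {u0 v0} :=
    GC.diag_inv (L := L A) (M := L B) (u0 := u0) (v0 := v0) l h ((hL _ _ v).mono fun _ _ _ => a)
  rintro A B u ⟨-, v, -, e1, e2⟩
  obtain ⟨u0, p1, p2, p3⟩ := b u
  obtain ⟨v0, q1, q2, q3⟩ := b v
  let _ : MulAction (Γ × Zi) Y := MulAction.compHom Y (MonoidHom.fst Γ Zi)
  refine GC.tri l (c e1 p2 q2 p3 q3) (c e2 q2 p2 q3 p3) p3 (q2.mono fun _ _ _ => le_of_eq)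
    (GC.tr_eq (ok hs.k0).hz (fun y => ?_) p1 q1 (c e1 p2 q2 p3 q3) (c e2 q2 p2 q3 p3))
  rw [show stabilizer (Γ × Zi) y = (stabilizer Γ y).prod ⊤ from
    Subgroup.ext fun g => ⟨fun b => ⟨b, trivial⟩, fun b => b.1⟩]
  exact W_of_K1 hs.k0 (av_small hs.ih (hY y) _)

theorem gd_line {ω : Ch Γ} {c : κ → ℤ} (hc : ∀ g i, P.χ i g = ω g * c i) :
    (SZ σ).Gd (SZ σ).nt {g | ω g.1 = 1} := by
  classical
  rintro A x hx ⟨m, hm⟩
  obtain ⟨L, hL⟩ := hL.lo
  let l (y : Y) : ℤ := ∑ i with c i ≤ 0, P.h y i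
  have a {x y} {g : Γ} (k : x ≤ g • y) (k' : ω g = 1) (i) (o : c i ≤ 0) : P.h x i ≤ P.h y i := by
    have : P.h x i ≤ P.h (g • y) i := P.mono k i
    rw [P.smul, hc, k'] at this
    omega
  obtain ⟨x0, p, q⟩ := ((hL A A x).and (GC.Lo.rg_sup hx)).split fun x _ y => l x = l y
  replace q := q.mono (R' := fun x _ y => l x < l y) fun x g y k => lt_of_le_of_ne
    (Finset.sum_le_sum fun i o => a k.1.1 k.1.2 i (Finset.mem_filter.1 o).2) k.2
  have p' := p.mono (R' := fun x _ y => l x = l y) fun _ _ _ k => k.2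
  have b (k : ℕ) : (L A).Rg (L A) (fun x _ y => l x = l y) (pw x0 k) ∧
      (L A).Rg (L A) (fun x _ y => l x < l y) (pw x k - pw x0 k) := by
    induction k with
    | zero => exact ⟨GC.Lo.rg_id.mono fun _ _ _ k => by rw [k.2], by simpa using GC.Lo.Rg.zero⟩
    | succ k ih =>
      refine ⟨p'.comp ih.1 fun _ _ _ _ _ => Eq.trans, ?_⟩
      rw [show pw x (k + 1) - pw x0 (k + 1) = (x - x0) ≫ (pw x k - pw x0 k) +
        x0 ≫ (pw x k - pw x0 k) + (x - x0) ≫ pw x0 k by simp [pw_succ]; abel]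
      exact ((q.comp ih.2 fun _ _ _ _ _ => lt_trans).add (p'.comp ih.2
        fun _ _ _ _ _ => Eq.trans_lt)).add (q.comp ih.1 fun _ _ _ _ _ => lt_of_lt_of_eq)
  have e : pw x0 m = 0 := ((b m).1.and (R' := fun x _ y => l x < l y)
    (by simpa [hm] using (b m).2.neg)).eq_zero fun _ _ _ k => k.2.ne k.1
  refine GC.tri l (by rw [geom_left x0 m, e, sub_zero]) (by rw [geom_right x0 m, e, sub_zero])
    (by simpa using q.neg) (.sum _ fun k _ => (b k).1.mono fun _ _ _ => le_of_eq) ?_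
  obtain ⟨N, n1⟩ := ((L A).s ×ˢ Finset.univ).finite_toSet.image (fun z => P.h z.1 z.2) |>.bddBelow
  obtain ⟨M, n2⟩ := ((L A).s ×ˢ Finset.univ).finite_toSet.image (fun z => P.h z.1 z.2) |>.bddAbove
  have n (y) (k : y ∈ (L A).s) : P.Bx c N (M - N).toNat (⟨y, 0⟩ : Tm ω Y) := fun i _ => by
    have := n1 ⟨(y, i), by simpa using k, rfl⟩
    have := n2 ⟨(y, i), by simpa using k, rfl⟩
    simp only [Gp.off] at *
    omega
  have key (d : ℕ) : (SZ σ).Nl (SZ σ).nt (.fst Γ Zi) (P.R (ω := ω) c N d) m fun _ => True := by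
    induction d with
    | succ d ih => exact Gp.nl_succ hc (ok hs.k0).hz ih
    | zero =>
      let _ : MulAction (Γ × Zi) (Tm ω Y) := MulAction.compHom _ (MonoidHom.fst Γ Zi)
      refine fun A L n _ h1 h2 => GC.nil_hom (ok hs.k0).hz Gp.R.uniq
        (fun g => Gp.R.smul hc g.1) (fun τ k => gd_fr hs (D := stabilizer Γ τ)
          (Cl.le (s := LH) (fun g k => congrArg Tm.y k) (hY τ.y)) ?_) h1 h2
      rw [← show stabilizer (Γ × Zi) τ = (stabilizer Γ τ).prod ⊤ from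
        Subgroup.ext fun g => ⟨fun b => ⟨b, trivial⟩, fun b => b.1⟩]
      exact fr_pth Gp.R.uniq (fun g => Gp.R.smul hc g.1) τ _
  refine key _ A ((L A).map fun y => ⟨y, 0⟩) x0 (GC.Lo.on_true _) (p.map (L A).on_s (L A).on_s
    fun x g y k k' o => ⟨o.1.1, show ω g.1 + 0 = 0 + 1 by rw [show ω g.1 = 1 from o.1.2]; rfl,
      fun i r => ?_, n x k, fun i r => (Gp.off_smul hc g.1 _).symm ▸ n y k' i r⟩)
    (by rw [pw_succ, e, comp_zero])
  refine .trans ?_ (congrFun (Gp.off_smul hc g.1 _) i).symm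
  simpa [Gp.off] using (Finset.sum_eq_sum_iff_of_le fun i r =>
    a o.1.1 o.1.2 i (Finset.mem_filter.1 r).2).1 o.2 i (by simpa using r)

theorem k1_line (ω : Ch Γ) (h : ∀ g, ω g = 0 → ∀ i, P.χ i g = 0) : K1Zero (TwZ σ) := by
  by_cases z : ∃ g, ω g ≠ 0
  swap
  · exact k1_flat P hs hL hY fun g => h g (by_contra fun k => z ⟨g, k⟩)
  obtain ⟨ω', t, c, d⟩ := ω.norm z
  have e (g i) : P.χ i g = ω' g * P.χ i t := ω'.line c (fun g k => h g ((d g).1 k) i) g
  refine k1_fh hs.k0 ω' c (k1_flat (P.comap ω'.ker.subtype fun _ _ => rfl) (hs.comap _)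
    (hL.comap _ fun _ _ => rfl) (fun y => Cl.map (s := LH) ω'.ker.subtype_injective.injOn ?_ (hY y))
    fun g => h g ((d g).1 g.2)) (gd_line P hs hL hY e)
    (gd_line P hs hL hY (c := fun i => -P.χ i t) fun g i => by rw [e g i]; simp [Ch.neg])
  rintro _ ⟨g, k, rfl⟩
  exact k

/-- Vanishing over a graded poset with small point stabilisers. -/
theorem k1_gp : K1Zero (TwZ σ) :=
  k1_fib hs.k0 Finset.univ Γ σ P.χ (fun _ k i => k i (Finset.mem_univ i)) fun H _ j a ω b => by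
    let _ : MulAction H Y := MulAction.compHom Y j
    refine k1_line (P.comap j fun _ _ => rfl) (hs.comap j) (hL.comap j fun _ _ => rfl)
      (fun y => Cl.map (s := LH) a.injOn ?_ (hY y)) ω b
    rintro _ ⟨g, k, rfl⟩
    exact k

end Pool.Agent.Lib.MP_5d3e93_al
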