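import Pool.Agent.Lib.MP_5d3e93_al.ObsMain

/-! Located coefficient categories. -/

open CategoryTheory Limits

namespace Pool.Agent.Lib.MP_5d3e93_al

universe w w' v u

variable {C : Type u} [Category.{v} C] [Preadditive C] {Z : Type w'}

/-- A finite orthogonal system of split idempotents indexed by `Z`. -/
structure Ld (Z : Type w') (A : C) where
  e : Z → (A ⟶ A)
  fin : ∃ s : Finset Z, (∀ x, x ∉ s → e x = 0) ∧ ∑ x ∈ s, e x = 𝟙 A
  spl : ∀ x, ∃ (B : C) (i : B ⟶ A) (r : A ⟶ B), i ≫ r = 𝟙 B ∧ r ≫ i = e x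
  orth : ∀ x y, x ≠ y → e x ≫ e y = 0

namespace Ld

variable {A B : C} (d : Ld Z A)

@[reassoc]
theorem idem (x : Z) : d.e x ≫ d.e x = d.e x := by
  obtain ⟨B, i, r, a, b⟩ := d.spl x
  rw [← b, Category.assoc, reassoc_of% a]

/-- Image under an additive functor and a bijection of the index set. -/
def map (Φ : C ⥤ C) (hΦ : Φ.Additive) (f : Z → Z) (hf : Function.Bijective f) :
    Ld Z (Φ.obj A) where
  e x := Φ.map (d.e (f x))
  fin := by
    obtain ⟨s, a, b⟩ := d.fin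
    refine ⟨s.preimage f hf.1.injOn, fun x k => by
      rw [a _ (by simpa using k), Φ.map_zero], ?_⟩
    rw [← Φ.map_sum, Finset.sum_preimage_of_bij f s hf.bijOn_preimage d.e, b, Φ.map_id]
  spl x := by
    obtain ⟨B, i, r, a, b⟩ := d.spl (f x)
    exact ⟨_, Φ.map i, Φ.map r, by rw [← Φ.map_comp, a, Φ.map_id], by rw [← Φ.map_comp, b]⟩
  orth x y k := by rw [← Φ.map_comp, d.orth _ _ (hf.1.ne k), Φ.map_zero]

open Classical in
/-- Concentrated in one point. -/
noncomputable def pt [HasZeroObject C] (z : Z) (A : C) : Ld Z A where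
  e x := if x = z then 𝟙 A else 0
  fin := ⟨{z}, fun x k => if_neg (by simpa using k), by simp⟩
  spl x := by
    split_ifs
    · exact ⟨A, 𝟙 A, 𝟙 A, by simp, by simp⟩
    · obtain ⟨O, k⟩ := HasZeroObject.zero (C := C)
      exact ⟨O, 0, 0, k.eq_of_src _ _, by simp⟩
  orth x y k := by
    split_ifs with a b
    · exact (k (a.trans b.symm)).elim
    all_goals simp

/-- Direct sum. -/
noncomputable def add [HasBinaryBiproducts C] (d' : Ld Z B) : Ld Z (A ⊞ B) where
  e x := biprod.map (d.e x) (d'.e x)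
  fin := by
    classical
    obtain ⟨s, a, b⟩ := d.fin
    obtain ⟨s', a', b'⟩ := d'.fin
    refine ⟨s ∪ s', fun x k => ?_, ?_⟩
    · rw [Finset.mem_union, not_or] at k
      rw [a x k.1, a' x k.2]
      ext <;> simp
    · rw [Finset.sum_subset (Finset.subset_union_left (s₂ := s')) fun x _ k => a x k] at b
      rw [Finset.sum_subset (Finset.subset_union_right (s₁ := s)) fun x _ k => a' x k] at b'
      ext <;> simp [Preadditive.comp_sum, Preadditive.sum_comp, b, b']
  spl x := by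
    obtain ⟨D, i, r, a, b⟩ := d.spl x
    obtain ⟨D', i', r', a', b'⟩ := d'.spl x
    refine ⟨D ⊞ D', biprod.map i i', biprod.map r r', ?_, ?_⟩
    · ext <;> simp [reassoc_of% a, reassoc_of% a']
    · ext <;> simp [reassoc_of% b, reassoc_of% b']
  orth x y k := by ext <;> simp [d.orth x y k, d'.orth x y k]

end Ld

/-- Objects with summands located at points of `Z`. -/
structure Lc (Z : Type w') (C : Type u) [Category.{v} C] [Preadditive C] where
  A : C
  d : Ld Z A

namespace Lc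

variable [Preorder Z] {X Y W : Lc Z C}

variable (X Y) in
/-- Monotone morphisms. -/
def Mn : AddSubgroup (X.A ⟶ Y.A) where
  carrier := {f | ∀ x y, ¬ x ≤ y → X.d.e x ≫ f ≫ Y.d.e y = 0}
  add_mem' a b x y k := by simp [a x y k, b x y k]
  zero_mem' x y _ := by simp
  neg_mem' a x y k := by simp [a x y k]

theorem mn_diag {f : X.A ⟶ Y.A} (h : ∀ x, X.d.e x ≫ f = f ≫ Y.d.e x) : f ∈ Mn X Y :=
  fun x y k => by
    rw [reassoc_of% h, Y.d.orth x y (by rintro rfl; exact k le_rfl), comp_zero]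

theorem mn_comp {f : X.A ⟶ Y.A} {g : Y.A ⟶ W.A} (a : f ∈ Mn X Y) (b : g ∈ Mn Y W) :
    f ≫ g ∈ Mn X W := fun x z k => by
  obtain ⟨s, -, c⟩ := Y.d.fin
  rw [← Category.id_comp g, ← c]
  simp only [Preadditive.comp_sum, Preadditive.sum_comp, Category.assoc]
  refine Finset.sum_eq_zero fun y _ => ?_
  by_cases l : x ≤ y
  · rw [b y z fun m => k (l.trans m), comp_zero, comp_zero]
  · rw [reassoc_of% a x y l, zero_comp]

instance : Category.{v} (Lc Z C) where
  Hom X Y := Mn X Y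
  id X := ⟨𝟙 _, mn_diag (by simp)⟩
  comp f g := ⟨f.1 ≫ g.1, mn_comp f.2 g.2⟩
  id_comp f := Subtype.ext (Category.id_comp _)
  comp_id f := Subtype.ext (Category.comp_id _)
  assoc f g h := Subtype.ext (Category.assoc ..)

instance : Preadditive (Lc Z C) where
  homGroup X Y := inferInstanceAs (AddCommGroup (Mn X Y))
  add_comp _ _ _ _ _ _ := Subtype.ext (Preadditive.add_comp ..)
  comp_add _ _ _ _ _ _ := Subtype.ext (Preadditive.comp_add ..)

theorem ext {f g : X ⟶ Y} (h : f.1 = g.1) : f = g := Subtype.ext h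

@[simp] theorem comp_val (f : X ⟶ Y) (g : Y ⟶ W) : (f ≫ g).1 = f.1 ≫ g.1 := rfl

@[simp] theorem id_val : (𝟙 X : X ⟶ X).1 = 𝟙 X.A := rfl

@[simp] theorem add_val (f g : X ⟶ Y) : (f + g).1 = f.1 + g.1 := rfl

@[simp] theorem zero_val : (0 : X ⟶ Y).1 = 0 := rfl

@[simp] theorem eqToHom_val (h : X = Y) : (eqToHom h).1 = eqToHom (congrArg A h) := by
  subst h
  rfl

theorem heq_of {X' Y' : Lc Z C} (a : X = X') (b : Y = Y') {f : X ⟶ Y} {g : X' ⟶ Y'}
    (h : HEq f.1 g.1) : HEq f g := by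
  subst a b
  exact heq_of_eq (ext (eq_of_heq h))

instance [HasZeroObject C] [Nonempty Z] : HasZeroObject (Lc Z C) := by
  obtain ⟨O, k⟩ := HasZeroObject.zero (C := C)
  exact ⟨⟨O, .pt (Classical.arbitrary Z) O⟩, (IsZero.iff_id_eq_zero _).2 (ext (k.eq_of_src _ _))⟩

instance [HasBinaryBiproducts C] : HasBinaryBiproducts (Lc Z C) := ⟨fun X Y =>
  hasBinaryBiproduct_of_total ⟨⟨_, X.d.add Y.d⟩, ⟨biprod.fst, mn_diag (by simp [Ld.add])⟩,
    ⟨biprod.snd, mn_diag (by simp [Ld.add])⟩, ⟨biprod.inl, mn_diag (by simp [Ld.add])⟩,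
    ⟨biprod.inr, mn_diag (by simp [Ld.add])⟩, ext biprod.inl_fst, ext biprod.inl_snd,
    ext biprod.inr_fst, ext biprod.inr_snd⟩ (ext biprod.total)⟩

/-- The functor induced by an additive functor and an order reflecting bijection. -/
def ind (Φ : C ⥤ C) (hΦ : Φ.Additive) (f : Z → Z)
    (hf : Function.Bijective f ∧ ∀ x y, f x ≤ f y → x ≤ y) : Lc Z C ⥤ Lc Z C where
  obj X := ⟨Φ.obj X.A, X.d.map Φ hΦ f hf.1⟩
  map φ := ⟨Φ.map φ.1, fun x y k => by
    change Φ.map _ ≫ _ ≫ Φ.map _ = 0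
    rw [← Φ.map_comp, ← Φ.map_comp, φ.2 _ _ (mt (hf.2 x y) k), Φ.map_zero]⟩
  map_id X := ext (Φ.map_id _)
  map_comp _ _ := ext (Φ.map_comp ..)

theorem ind_add (Φ : C ⥤ C) (a) (f : Z → Z) (b) : (ind Φ a f b).Additive := ⟨ext Φ.map_add⟩

theorem ind_congr {Φ Φ' : C ⥤ C} (e : Φ = Φ') {f f' : Z → Z} (e' : f = f') (a b c d) :
    ind Φ a f b = ind Φ' c f' d := by
  subst e e'
  rfl

variable {G : Type w} [Group G] [MulAction G Z]

theorem inv_ok (hm : ∀ (g : G) (x y : Z), x ≤ y → g • x ≤ g • y) (g : G) :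
    Function.Bijective (fun x : Z => g⁻¹ • x) ∧ ∀ x y : Z, g⁻¹ • x ≤ g⁻¹ • y → x ≤ y :=
  ⟨MulAction.bijective _, fun x y k => by simpa using hm g _ _ k⟩

/-- The diagonal action on located objects. -/
def act (σ : Act G C) (hm : ∀ (g : G) (x y : Z), x ≤ y → g • x ≤ g • y) : Act G (Lc Z C) where
  F g := ind (σ.F g) (σ.additive g) (g⁻¹ • ·) (inv_ok hm g)
  additive g := ind_add ..
  one := ind_congr (f' := id) σ.one (funext fun x => by simp) _ _ inferInstance
    ⟨Function.bijective_id, fun _ _ => id⟩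
  mul g h := ind_congr (f' := fun x => h⁻¹ • g⁻¹ • x) (σ.mul g h)
    (funext fun x => by simp [mul_smul]) _ _
      (have := σ.additive g; have := σ.additive h; inferInstance)
      ⟨(inv_ok hm h).1.comp (inv_ok hm g).1, fun _ _ k => (inv_ok hm g).2 _ _ ((inv_ok hm h).2 _ _ k)⟩

end Lc

end Pool.Agent.Lib.MP_5d3e93_al
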