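import Pool.Agent.Lib.MP_5d3e93_al.PrT

/-! Triangular parts, representatives and past windows for located nilpotent morphisms. -/

open CategoryTheory MulAction

namespace Pool.Agent.Lib.MP_5d3e93_al

universe w v u

namespace GC

open Lo CF

variable {G : Type w} [Group G] {C : Type u} [Category.{v} C] [Preadditive C] {S : GC G C}
variable {A B : C} {X X' : Type*} {θ : Nt C}

theorem Lo.Rg.split {L : S.Lo X A} {M : S.Lo X' B} {R : X → G → X' → Prop} {f : A ⟶ B}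
    (h : L.Rg M R f) (π : X → G → X' → Prop) :
    ∃ f0, L.Rg M (fun x g y => R x g y ∧ π x g y) f0 ∧
      L.Rg M (fun x g y => R x g y ∧ ¬ π x g y) (f - f0) := by
  classical
  obtain ⟨s, F, e, hF⟩ := h.parts π
  refine ⟨∑ c ∈ s.filter id, F c, .sum _ fun c k => (hF c).mono fun _ _ _ a =>
    ⟨a.1, a.2 ▸ (Finset.mem_filter.1 k).2⟩, ?_⟩
  rw [← e, ← Finset.sum_filter_add_sum_filter_not s id, add_sub_cancel_left]
  exact .sum _ fun c k => (hF c).mono fun _ _ _ a => ⟨a.1, a.2 ▸ (Finset.mem_filter.1 k).2⟩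

theorem strict {L : S.Lo X A} (l : X → ℤ) {n : A ⟶ A} (h : L.Rg L (fun x _ y => l x < l y) n) :
    θ.T (𝟙 A - n) := by
  classical
  suffices ∀ t : Finset X, ∀ n : A ⟶ A, L.Rg L (fun x _ y => l x < l y ∧ x ∈ t) n →
      θ.T (𝟙 A - n) from this L.s n (h.on L.on_s L.on_true fun _ _ _ a _ b => ⟨b, a⟩)
  intro t
  induction t using Finset.induction_on_min_value l with
  | empty => exact fun n k => by simpa [k.eq_zero (by simp)] using θ.id A
  | insert a t _ m ih =>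
    intro n k
    have z : n ≫ L.e a = 0 := L.ext_l fun x => by
      rw [Limits.comp_zero]
      refine (k x a).eq_zero (k x a) fun g b _ => ?_
      obtain c | c := Finset.mem_insert.1 b.2
      · exact (c ▸ b.1 :).false
      · exact (m x c).not_gt b.1
    have e : 𝟙 A - n = (𝟙 A - (n - L.e a ≫ n)) ≫ (𝟙 A - L.e a ≫ n) := by
      simp [reassoc_of% z]
      abel
    rw [e]
    refine θ.comp (ih _ fun x y => ?_) (θ.cyc _ _ (by simpa [z] using θ.id A))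
    by_cases c : x = a
    · simpa [c, reassoc_of% L.idem a] using Sup.zero
    · simpa [reassoc_of% L.orth x a c] using (k x y).mono (Y := {g | l x < l y ∧ x ∈ t})
        fun g b => ⟨b.1, (Finset.mem_insert.1 b.2).resolve_left c⟩

theorem tri {L : S.Lo X A} {M : S.Lo X B} (l : X → ℤ) {u u0 : A ⟶ B} {v0 : B ⟶ A}
    (e1 : u0 ≫ v0 = 𝟙 A) (e2 : v0 ≫ u0 = 𝟙 B) (h1 : L.Rg M (fun x _ y => l x < l y) (u - u0))
    (h2 : M.Rg L (fun x _ y => l x ≤ l y) v0) (h : S.Tr ⊤ u0) : S.Tr ⊤ u := by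
  have : u = (𝟙 A - -((u - u0) ≫ v0)) ≫ u0 := by simp [e2, e1]
  rw [this]
  exact Tr.comp (strict (θ := S.nt) l (h1.comp h2 fun _ _ _ _ _ => lt_of_lt_of_le).neg) h

variable [MulAction G X]

theorem rep (hz : ∃ Z : C, 𝟙 Z = 0) {ρ : X → X} (h1 : ∀ (g : G) x, ρ (g • x) = ρ x)
    (h2 : ∀ x, ∃ g : G, g • x = ρ x) (t : Finset X) : ∀ P : S.LO X fun _ => True,
      P.L.On (fun x => x ∈ t ∨ ρ x = x) → ∃ (Q : S.LO X fun _ => True) (σ : P ⟶ Q),
        (S.lc _ (.eq G X)).Tq 0 σ ∧ Q.L.On fun x => ρ x = x := by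
  classical
  induction t using Finset.induction_on with
  | empty => exact fun P h => ⟨P, 𝟙 P, .hom hi_id, h.mono (by simp)⟩
  | insert y t _ ih =>
    intro P h
    obtain ⟨P1, P2, σ, a1, a2, a3, a4⟩ := lo_split (ν := .eq G X) hz P (· = y)
    obtain ⟨Q, τ, a5, a6⟩ := ih P2 (((a4 _ h).2.and a3).mono fun z k =>
      k.1.imp_left fun m => by simpa [k.2] using m)
    obtain ⟨g, e⟩ := h2 y
    obtain ⟨D, τ', a7⟩ := tq_orb (ν := .eq G X) (x := ρ y) hz trivial {y} P1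
      (a2.mono fun z k => ⟨by simp [k], g⁻¹, by rw [← e, inv_smul_smul, k]⟩)
    exact ⟨_, _, .c0' a1 (a7.bd a5), (on_one (P := fun x => ρ x = x) (by
      conv_lhs => rw [← e, h1]) D).add a6⟩

theorem nil_hom (hz : ∃ Z : C, 𝟙 Z = 0) {R : X → X → Prop}
    (hR : ∀ k σ τ x y, R σ τ → R σ x → Pth R k τ y → Pth R k x y → τ = x)
    (hs : ∀ (g : G) x y, R x y → R (g • x) (g • y))
    (hG : ∀ τ k, S.Gd θ {g | Pth R (k + 1) τ (g • τ)}) {L : S.Lo X A} {n : A ⟶ A}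
    (hn : L.Rg L (fun x g y => R x (g • y)) n) {m : ℕ} (hm : pw n (m + 1) = 0) :
    θ.T (𝟙 A - n) := by
  obtain ⟨ρ, -, h1, h2, -⟩ := ex_rep X G
  obtain ⟨Q, σ, a, b⟩ := rep hz h1 h2 L.s ⟨A, L, L.on_true⟩ (L.on_s.mono fun _ => .inl)
  obtain ⟨σ, τ, c1, c2, c3⟩ : ∃ (σ : A ⟶ Q.A) (τ : Q.A ⟶ A), L.Rg Q.L (fun x g y => x = g • y) σ ∧
      Q.L.Rg L (fun x g y => x = g • y) τ ∧ σ ≫ τ = 𝟙 A :=
    a.ci.2.elim fun τ k => ⟨σ, τ, a.ci.1, k.1, k.2.1⟩
  have d : σ ≫ τ ≫ n = n := by rw [reassoc_of% c3]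
  rw [← d]
  refine θ.cyc _ _ (nil_path hR hs (L := Q.L) (fun x y => ?_) h1 b (m := m + 1 + 1) ?_ hG)
  · rw [Category.assoc]
    exact ((Rg.comp c2 hn (R'' := fun x g y => R x (g • y)) fun x g y g' z p q => by
      rw [show x = _ from p, mul_smul]; exact hs _ _ _ q).comp c1
        (R'' := fun x g y => R x (g • y)) fun x g y g' z p q => by
          rw [mul_smul, ← show y = _ from q]; exact p) x y
  · rw [pw_cyc, d, hm]
    simp

variable {Q Y : Type*} [Group Q] [MulAction Q Y] {π : G →* Q} {R R' : Y → Y → Prop} {m : ℕ}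

theorem Nl.back (hz : ∃ Z : C, 𝟙 Z = 0) (hR : ∀ (q : Q) x y, R x y → R (q • x) (q • y))
    (κ : Y → Y → Y)
    (hκ : ∀ x y y' z, Pth R m x y → Pth R m x y' → R y z → R y' z → κ y z = κ y' z)
    (β : Y → Y → Prop) (hβ : ∀ x y, R x y → β y (κ x y))
    (h2 : ∀ x c (q : Q) y, β x c → R x (q • y) → R' c (q • κ (q⁻¹ • x) y))
    (h : S.Nl θ π R' m fun _ => True) : S.Nl θ π R m fun _ => True := by
  intro A L n hL hn hm
  obtain ⟨s, F, e, hF⟩ := hn.parts fun x g y => κ ((π g)⁻¹ • x) y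
  obtain ⟨B, M, i, r, a1, a2, a3, a4, -⟩ := L.copies hz hL s
  obtain ⟨B', M', i', r', c1, c2, -, c4, -, c6, -⟩ := M.res hz fun z => β z.1 z.2
  have b0 : L.Rg M (fun x g y => R x (π g • y.1) ∧ y.2 = κ ((π g)⁻¹ • x) y.1)
      (∑ c ∈ s, F c ≫ i c) := Rg.sum _ fun c _ => (hF c).comp (a3 c) (by
    rintro x g y _ _ a ⟨rfl, rfl⟩
    rw [mul_one]
    exact ⟨a.1, a.2.symm⟩)
  have b1 : (∑ c ∈ s, F c ≫ i c) ≫ ∑ c ∈ s, r c = n := by
    rw [← e, Preadditive.sum_comp]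
    refine Finset.sum_congr rfl fun c k => ?_
    rw [Category.assoc, Preadditive.comp_sum, Finset.sum_eq_single c, a1 c k, Category.comp_id]
    · exact fun c' _ k' => a2 c c' k'.symm
    · exact fun k' => (k' k).elim
  have b2 (c) (k : c ∈ s) : pw n m ≫ F c = 0 :=
    Rg.sep (F := fun c => pw n m ≫ F c) (fun c => (hn.pw hR m).comp (hF c)
      (R'' := fun x g z => ∃ y, Pth R m ((π g)⁻¹ • x) y ∧ κ y z = c ∧ R y z) fun x g y g' z a b =>
        ⟨_, by simpa [mul_smul] using a.smul hR (π (g * g'))⁻¹, b.2,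
          by simpa using hR (π g')⁻¹ _ _ b.1⟩)
      (by rw [← Preadditive.comp_sum, e, ← pw_succ']; exact hm)
      (fun c c' x g z ⟨y, p1, p2, p3⟩ ⟨y', q1, q2, q3⟩ => p2 ▸ q2 ▸ hκ _ _ _ _ p1 q1 p3 q3) k
  have b3 : pw n m ≫ ∑ c ∈ s, F c ≫ i c = 0 := by
    rw [Preadditive.comp_sum]
    exact Finset.sum_eq_zero fun c k => by rw [reassoc_of% b2 c k, Limits.zero_comp]
  have b4 : M.Rg L (fun z g y => g = 1 ∧ z.1 = y) (∑ c ∈ s, r c) :=
    Rg.sum _ fun c _ => (a4 c).mono fun _ _ _ a => ⟨a.1, by rw [a.2]⟩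
  generalize ∑ c ∈ s, F c ≫ i c = p, ∑ c ∈ s, r c = q at b0 b1 b3 b4
  have b5 : p ≫ r' ≫ i' = p := by
    rw [← M.sum_r p, Preadditive.sum_comp]
    refine Finset.sum_congr rfl fun z _ => ?_
    by_cases k : β z.1 z.2
    · rw [Category.assoc, c4 z k]
    · have : p ≫ M.e z = 0 := L.ext_l fun x => by
        rw [Limits.comp_zero]
        exact (b0 x z).eq_zero (b0 x z) fun g a _ =>
          k (a.2 ▸ hβ _ _ (by simpa using hR (π g)⁻¹ _ _ a.1))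
      rw [this, Limits.zero_comp]
  have b6 : (p ≫ r') ≫ i' ≫ q = n := by rw [Category.assoc, reassoc_of% b5, b1]
  rw [← b6]
  refine θ.cyc _ _ (h B' (M'.map Prod.snd) _ (on_true _) (Rg.map
    (R := fun x g y => R x.1 (π g • y.1) ∧ y.2 = κ ((π g)⁻¹ • x.1) y.1) ?_ c6 c6
      fun x g y a _ c => c.2 ▸ h2 _ _ _ _ a c.1) ?_)
  · refine (c1.comp b4 (R'' := fun z g y => g = 1 ∧ z.1 = y) ?_).comp (b0.comp c2
      (R'' := fun x g y => R x (π g • y.1) ∧ y.2 = κ ((π g)⁻¹ • x) y.1) ?_) ?_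
    · rintro _ _ _ _ _ ⟨rfl, rfl⟩ ⟨rfl, rfl⟩
      exact ⟨one_mul _, rfl⟩
    · rintro _ _ _ _ _ a ⟨rfl, rfl⟩
      rwa [mul_one]
    · rintro _ _ _ _ _ ⟨rfl, rfl⟩ a
      rwa [one_mul]
  · rw [pw_cyc, b6, reassoc_of% b3]
    simp

end GC

end Pool.Agent.Lib.MP_5d3e93_al
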