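import Pool.Agent.Lib.MP_5d3e93_al.QC

/-! The boundary theorem with control. -/

open CategoryTheory

namespace Pool.Agent.Lib.MP_5d3e93_al

universe w v u

namespace GC

variable {G : Type w} [Group G] {C : Type u} [Category.{v} C] [Preadditive C] {S : GC G C}
variable {A B D E V V' : C} {Z : Zg G}

theorem lo_eq {k : ℤ} {f g : A ⟶ B} (hf : S.Le Z k f) (hg : S.Ge Z (k + 1) g) :
    S.lo Z k (f + g) = f := by
  have s := hf.sup.add hg.sup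
  refine sub_eq_zero.1 (Ge.eq_zero (k := k + 1) (l := k) ?_ (Sup.sub (le_lo s k) hf) (by omega))
  have : S.Ge Z (k + 1) _ := Sup.sub hg (ge_hi s k le_rfl)
  convert this using 1
  abel

namespace CF

variable (Φ : S.CF) (Z) {r s : ℕ}

/-- Controlled equivalence of idempotents. -/
def Eq (r : ℕ) (e : A ⟶ A) (f : B ⟶ B) : Prop :=
  ∃ (x : A ⟶ B) (y : B ⟶ A), S.Sup Z.K x ∧ S.Sup Z.K y ∧ Φ.Ct r x ∧ Φ.Ct r y ∧ x ≫ y = e ∧
    y ≫ x = f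

/-- Stably an object. -/
def St (r : ℕ) (e : A ⟶ A) : Prop := ∃ D E : C, Φ.Eq Z r (S.blk e 0 0 (𝟙 D)) (𝟙 E)

/-- Controlled presentations. -/
structure Pq (r : ℕ) (N : ℤ) (u : A ⟶ B) (ε : V ⟶ V) (j : V ⟶ B) : Prop where
  pr : S.Pres Z N u ε j
  cε : Φ.Ct r ε
  cj : Φ.Ct r j
  cu : Φ.Ct r u
  rf : ∀ {X : C} (a : X ⟶ V) (b : X ⟶ A) (s : ℕ), S.Sup Z.K a → a ≫ ε = a → S.Ge Z 0 b →
    Φ.Ct s (a ≫ j + b ≫ u) → Φ.Ct (s + r) a ∧ Φ.Ct (s + r) b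

/-- Controlled index. -/
def Ind (r : ℕ) (u : A ⟶ B) : Prop :=
  ∃ (N : ℕ) (V : C) (ε : V ⟶ V) (j : V ⟶ B), Φ.Pq Z r N u ε j ∧ Φ.St Z r ε

variable {Z} in
/-- The central automorphism preserves locations. -/
def Cq {k : ℤ} (c : S.Cz Z k) : Prop := ∀ A, Φ.Ct 0 (c.φ A) ∧ Φ.Ct 0 (c.ψ A)

variable {Φ Z}

theorem k1 {f : A ⟶ B} (h : S.Sup {1} f) : S.Sup Z.K f := h.mono (by simp [Z.K.one_mem])

theorem Eq.mono {e : A ⟶ A} {f : B ⟶ B} (h : Φ.Eq Z r e f) (k : r ≤ s) : Φ.Eq Z s e f := by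
  obtain ⟨x, y, h1, h2, h3, h4, h5⟩ := h
  exact ⟨x, y, h1, h2, Φ.mono h3 k, Φ.mono h4 k, h5⟩

theorem Eq.symm {e : A ⟶ A} {f : B ⟶ B} (h : Φ.Eq Z r e f) : Φ.Eq Z r f e := by
  obtain ⟨x, y, h1, h2, h3, h4, h5, h6⟩ := h
  exact ⟨y, x, h2, h1, h4, h3, h6, h5⟩

theorem Eq.refl {e : A ⟶ A} (h : S.Sup Z.K e) (h' : Φ.Ct r e) : Φ.Eq Z r e e :=
  ⟨e, 𝟙 A, h, k1 id1, h', Φ.id, by simp, by simp⟩

theorem Eq.trans {e : A ⟶ A} {f : B ⟶ B} {g : D ⟶ D} (h : Φ.Eq Z r e f) (h' : Φ.Eq Z s f g)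
    (he : e ≫ e = e) (hg : g ≫ g = g) : Φ.Eq Z (r + s) e g := by
  obtain ⟨x, y, h1, h2, h3, h4, h5, h6⟩ := h
  obtain ⟨x', y', k1, k2, k3, k4, k5, k6⟩ := h'
  refine ⟨x ≫ x', y' ≫ y, h1.scomp k1, k2.scomp h2, Φ.comp h3 k3, Φ.comp' k4 h4 (by omega), ?_, ?_⟩
  · rw [Category.assoc, reassoc_of% k5, ← h6, Category.assoc, h5, reassoc_of% h5, he]
  · rw [Category.assoc, reassoc_of% h6, ← k5, Category.assoc, k6, reassoc_of% k6, hg]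

theorem Eq.bd {e : A ⟶ A} {f : B ⟶ B} {e' : D ⟶ D} {f' : E ⟶ E} (h : Φ.Eq Z r e f)
    (h' : Φ.Eq Z r e' f') : Φ.Eq Z r (S.blk e 0 0 e') (S.blk f 0 0 f') := by
  obtain ⟨x, y, h1, h2, h3, h4, h5, h6⟩ := h
  obtain ⟨x', y', k1, k2, k3, k4, k5, k6⟩ := h'
  exact ⟨S.blk x 0 0 x', S.blk y 0 0 y', .blk h1 .zero .zero k1, .blk h2 .zero .zero k2,
    Φ.blk h3 Φ.zero Φ.zero k3, Φ.blk h4 Φ.zero Φ.zero k4, by simp [h5, k5], by simp [h6, k6]⟩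

theorem Eq.pre {e : A ⟶ A} {e' : D ⟶ D} {f : B ⟶ B} (h : Φ.Eq Z r e f) {σ : D ⟶ A}
    (hσ : Φ.HI 0 1 σ) (c : e' ≫ σ = σ ≫ e) : Φ.Eq Z r e' f := by
  obtain ⟨x, y, h1, h2, h3, h4, h5, h6⟩ := h
  obtain ⟨a1, a2, σ', a3, a4, a5, a6⟩ := hσ
  rw [inv_one] at a3
  exact ⟨σ ≫ x, y ≫ σ', (k1 a1).scomp h1, h2.scomp (k1 a3), Φ.c0' a2 h3, Φ.c0 h4 a4,
    by simp [reassoc_of% h5, ← reassoc_of% c, a5], by simp [reassoc_of% a6, h6]⟩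

theorem St.mono {e : A ⟶ A} (h : Φ.St Z r e) (k : r ≤ s) : Φ.St Z s e := by
  obtain ⟨D, E, h⟩ := h
  exact ⟨D, E, h.mono k⟩

theorem St.add {e : A ⟶ A} {f : B ⟶ B} (h : Φ.St Z r e) (h' : Φ.St Z r f) :
    Φ.St Z r (S.blk e 0 0 f) := by
  obtain ⟨D, E, h⟩ := h
  obtain ⟨D', E', h'⟩ := h'
  refine ⟨S.sum D D', S.sum E E', ?_⟩
  rw [← S.blk_id (A := E)]
  exact (h.bd h').pre hi_shuf (by simp [shuf])

theorem st_ob : Φ.St Z r (𝟙 A) := ⟨A, _, by rw [S.blk_id]; exact .refl (k1 id1) Φ.id⟩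

theorem st_zero : Φ.St Z r (0 : A ⟶ A) :=
  ⟨A, A, S.snd A A, S.inr A A, k1 snd1, k1 inr1, Φ.snd, Φ.inr, by apply S.hom_ext <;> simp,
    by simp⟩

theorem St.of_eq {e : A ⟶ A} {f : B ⟶ B} (h : Φ.St Z s f) (h' : Φ.Eq Z r e f) (he : e ≫ e = e) :
    Φ.St Z (r + s) e := by
  obtain ⟨D, E, h⟩ := h
  exact ⟨D, E, (h'.bd (.refl (k1 id1) Φ.id)).trans h (by simp [he]) (by simp)⟩

theorem St.cancel {p : A ⟶ A} {q : B ⟶ B} (h : Φ.St Z s (S.blk p 0 0 q)) (h' : Φ.St Z r q)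
    (hp : S.Sup Z.K p) (cp : Φ.Ct r p) (ip : p ≫ p = p) : Φ.St Z (r + s) p := by
  obtain ⟨D, E, h⟩ := h
  obtain ⟨D', E', h'⟩ := h'
  refine ⟨S.sum D E', S.sum E D', ?_⟩
  have a := (Eq.refl hp cp).bd ((Eq.refl (A := D) (k1 id1) Φ.id).bd h'.symm)
  have b := h.bd (Eq.refl (A := D') (k1 id1) Φ.id)
  rw [S.blk_id] at a b
  refine a.trans (b.pre (((hi_id.bd hi_asc').c0 hi_asc').c0 ((((hi_id.bd hi_flip).c0
    hi_asc').bd hi_id))) ?_) (by simp [ip]) (by simp)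
  simp [asc', GC.flip]

theorem Cq.pow {c : S.Cz Z 1} (h : Φ.Cq c) (n : ℕ) : ∃ d : S.Cz Z n, Φ.Cq d := by
  induction n with
  | zero =>
    exact ⟨⟨fun A => 𝟙 A, fun A => 𝟙 A, fun _ => ge_id, fun _ => le_id, fun _ => ge_id,
      fun _ => le_id, by simp, by simp, by simp, by simp⟩, fun _ => ⟨Φ.id, Φ.id⟩⟩
  | succ n ih =>
    obtain ⟨d, hd⟩ := ih
    refine ⟨⟨fun A => c.φ A ≫ d.φ A, fun A => d.ψ A ≫ c.ψ A,
      fun A => (c.φ1 A).comp (d.φ1 A) (by push_cast; omega),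
      fun A => (c.φ2 A).comp (d.φ2 A) (by push_cast; omega),
      fun A => (d.ψ1 A).comp (c.ψ1 A) (by push_cast; omega),
      fun A => (d.ψ2 A).comp (c.ψ2 A) (by push_cast; omega), fun A => ?_, fun A => ?_,
      fun f => ?_, fun f => ?_⟩, fun A => ⟨Φ.c0 (h A).1 (hd A).1, Φ.c0 (hd A).2 (h A).2⟩⟩
    · simp [reassoc_of% d.φψ, c.φψ]
    · simp [reassoc_of% c.ψφ, d.ψφ]
    · rw [Category.assoc, d.nφ, reassoc_of% c.nφ]
    · rw [Category.assoc, c.nψ, reassoc_of% d.nψ]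

theorem Pq.mono {N : ℤ} {u : A ⟶ B} {ε : V ⟶ V} {j : V ⟶ B} (h : Φ.Pq Z r N u ε j) (k : r ≤ s) :
    Φ.Pq Z s N u ε j :=
  ⟨h.pr, Φ.mono h.cε k, Φ.mono h.cj k, Φ.mono h.cu k, fun a b t h1 h2 h3 h4 =>
    (h.rf a b t h1 h2 h3 h4).imp (Φ.mono · (by omega)) (Φ.mono · (by omega))⟩

theorem Pq.comp {N N' : ℤ} {c : S.Cz Z N} (hc : Φ.Cq c) {u : A ⟶ B} {u' : B ⟶ D} {ε : V ⟶ V}
    {j : V ⟶ B} {ε' : V' ⟶ V'} {j' : V' ⟶ D} (h : Φ.Pq Z r N u ε j) (h' : Φ.Pq Z s N' u' ε' j') :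
    Φ.Pq Z (r + s) (N + N') (u ≫ u') (S.blk ε 0 0 ε')
      (S.fst V V' ≫ j ≫ u' + S.snd V V' ≫ c.ψ V' ≫ j') where
  pr := h.pr.comp c h'.pr
  cε := Φ.blk (Φ.mono h.cε (by omega)) Φ.zero Φ.zero (Φ.mono h'.cε (by omega))
  cj := Φ.add (Φ.c0' Φ.fst (Φ.comp h.cj h'.cu))
    (Φ.c0' Φ.snd (Φ.c0' (hc _).2 (Φ.mono h'.cj (by omega))))
  cu := Φ.comp h.cu h'.cu
  rf := by
    intro X a b t h1 h2 h3 h4
    have a1 : (a ≫ S.fst V V') ≫ ε = a ≫ S.fst V V' := by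
      conv_rhs => rw [← h2]
      simp
    have a2 : (a ≫ S.snd V V') ≫ ε' = a ≫ S.snd V V' := by
      conv_rhs => rw [← h2]
      simp
    have s1 := h1.comp_one (S.cp_fst V V')
    obtain ⟨b1, b2⟩ := h'.rf (a ≫ S.snd V V') (c.φ X ≫ ((a ≫ S.fst V V') ≫ j + b ≫ u)) t
      (h1.comp_one (S.cp_snd _ _)) a2 ((c.φ1 X).comp (l := -N)
        (Sup.add (s1.ge0.comp h.pr.gj (by omega)) (h3.comp h.pr.gu (by omega))) (by omega)) (by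
      convert Φ.c0' (hc X).1 h4 using 1
      simp only [Preadditive.comp_add, Preadditive.add_comp, Category.assoc]
      rw [reassoc_of% c.nφ a, reassoc_of% c.nφ (S.fst V V'), reassoc_of% c.nφ a,
        reassoc_of% c.nφ (S.snd V V'), reassoc_of% c.φψ]
      abel)
    have b3 := Φ.c0' (hc X).2 b2
    rw [reassoc_of% c.ψφ] at b3
    obtain ⟨b4, b5⟩ := h.rf _ _ _ s1 a1 h3 b3
    refine ⟨?_, Φ.mono b5 (by omega)⟩
    have := Φ.add (Φ.comp' b4 Φ.inl (s := 0) (t := t + (r + s)) (by omega))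
      (Φ.comp' b1 Φ.inr (s := 0) (by omega))
    simpa [← Preadditive.comp_add, S.total] using this

theorem Pq.uniq {N : ℤ} {u : A ⟶ B} {ε : V ⟶ V} {j : V ⟶ B} {ε' : V' ⟶ V'} {j' : V' ⟶ B}
    (h : Φ.Pq Z r N u ε j) (h' : Φ.Pq Z r N u ε' j') : Φ.Eq Z (r + r) ε ε' := by
  obtain ⟨a, b, h1, h2, h3, h4⟩ := h'.pr.surj j h.pr.gj
  obtain ⟨a', b', k1, k2, k3, k4⟩ := h.pr.surj j' h'.pr.gj
  refine ⟨a, a', h1, k1, (h'.rf a b r h1 h2 h3 (h4 ▸ h.cj)).1,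
    (h.rf a' b' r k1 k2 k3 (k4 ▸ h'.cj)).1, ?_, ?_⟩
  · refine sub_eq_zero.1 (h.pr.inj (a ≫ a' - ε) (a ≫ b' + b) ((h1.scomp k1).sub h.pr.sup)
      (by simp [k2, h.pr.idem]) (Sup.add (h1.ge0.comp k3 (by omega)) h3) ?_).1
    have := h4
    rw [k4] at this
    simp only [Preadditive.sub_comp, Preadditive.add_comp, Category.assoc, h.pr.εj,
      Preadditive.comp_add] at this ⊢
    linear_combination (norm := abel) -this
  · refine sub_eq_zero.1 (h'.pr.inj (a' ≫ a - ε') (a' ≫ b + b') ((k1.scomp h1).sub h'.pr.sup)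
      (by simp [h2, h'.pr.idem]) (Sup.add (k1.ge0.comp h3 (by omega)) k3) ?_).1
    have := k4
    rw [h4] at this
    simp only [Preadditive.sub_comp, Preadditive.add_comp, Category.assoc, h'.pr.εj,
      Preadditive.comp_add] at this ⊢
    linear_combination (norm := abel) -this

theorem pq_pos {N : ℤ} {u : A ⟶ B} {v : B ⟶ A} (hu : S.Ge Z (-N) u) (hv : S.Ge Z N v)
    (cu : Φ.Ct r u) (cv : Φ.Ct r v) (h1 : u ≫ v = 𝟙 A) (h2 : v ≫ u = 𝟙 B) :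
    Φ.Pq Z r N u (0 : A ⟶ A) 0 :=
  ⟨pres_pos hu hv h1 h2, Φ.zero, Φ.zero, cu, fun a b t _ h3 _ h4 => ⟨by
    rw [← h3, Limits.comp_zero]; exact Φ.zero, by simpa [h1] using Φ.comp h4 cv⟩⟩

theorem Ind.mono {u : A ⟶ B} (h : Φ.Ind Z r u) (k : r ≤ s) : Φ.Ind Z s u := by
  obtain ⟨N, V, ε, j, h, hs⟩ := h
  exact ⟨N, V, ε, j, h.mono k, hs.mono k⟩

theorem ind_pos {N : ℕ} {u : A ⟶ B} {v : B ⟶ A} (hu : S.Ge Z (-N) u) (hv : S.Ge Z N v)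
    (cu : Φ.Ct r u) (cv : Φ.Ct r v) (h1 : u ≫ v = 𝟙 A) (h2 : v ≫ u = 𝟙 B) : Φ.Ind Z r u :=
  ⟨N, A, 0, 0, pq_pos hu hv cu cv h1 h2, st_zero⟩

variable {c : S.Cz Z 1}

theorem pq_id (hc : Φ.Cq c) (B : C) (N : ℕ) :
    ∃ (V : C) (ε : V ⟶ V) (j : V ⟶ B), Φ.Pq Z 0 N (𝟙 B) ε j ∧ S.Le Z (-1) j ∧ Φ.St Z 0 ε := by
  induction N with
  | zero => exact ⟨B, 0, 0, pq_pos (v := 𝟙 B) ge_id ge_id Φ.id Φ.id (by simp) (by simp), Sup.zero,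
      st_zero⟩
  | succ N ih =>
    obtain ⟨V, ε, j, h, h1, h2⟩ := ih
    obtain ⟨d, hd⟩ := hc.pow N
    have p1 : Φ.Pq Z 0 1 (𝟙 B) (𝟙 B) (c.ψ B) := by
      refine ⟨pres_one c B, Φ.id, (hc B).2, Φ.id, fun a b t k1 _ k3 k4 => ?_⟩
      rw [Category.comp_id] at k4
      have := Φ.proj k4 {g | Z.χ g ≤ -1}
      rw [← GC.lo, lo_eq (k1.le0.comp (c.ψ2 B) (by omega)) k3] at this
      exact ⟨by simpa [c.ψφ] using Φ.c0 this (hc B).1, by simpa using Φ.sub k4 this⟩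
    have := h.comp hd p1
    rw [Category.id_comp] at this
    exact ⟨_, _, _, by exact_mod_cast this,
      Sup.add (.one_comp (S.cp_fst _ _) (by rw [Category.comp_id]; exact h1))
        (.one_comp (S.cp_snd _ _) ((d.ψ2 B).comp (c.ψ2 B) (by omega))), h2.add st_ob⟩

theorem ind_neg (hc : Φ.Cq c) {u : A ⟶ B} {v : B ⟶ A} (hu : S.Le Z 0 u) (hv : S.Le Z 0 v)
    (cu : Φ.Ct r u) (cv : Φ.Ct r v) (h1 : u ≫ v = 𝟙 A) (h2 : v ≫ u = 𝟙 B) :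
    Φ.Ind Z (2 * r) u := by
  obtain ⟨N, hN, -⟩ := bounded hu.sup
  obtain ⟨V, ε, j, hq, hj, hs⟩ := pq_id hc B N
  have h := hq.pr
  refine ⟨N, V, ε, j, ⟨⟨h.sup, h.idem, h.εj, h.gj, hN, ?_, ?_⟩, Φ.mono hq.cε (by omega),
    Φ.mono hq.cj (by omega), Φ.mono cu (by omega), ?_⟩, hs.mono (by omega)⟩
  · intro X f hf
    have s : S.Sup Z.Γ (f ≫ v) := hf.sup.scomp hv.sup
    set p := S.lo Z (-1) (f ≫ v)
    have g1 : S.Ge Z 0 (f ≫ v - p) := ge_hi s _ (by omega)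
    have e : p ≫ u = f - (f ≫ v - p) ≫ u := by simp [h2]
    obtain ⟨a, b, k1, k2, k3, k4⟩ := h.surj (p ≫ u)
      (e ▸ Sup.sub hf (g1.comp hN (by omega)))
    have hb : b = 0 := by
      refine k3.eq_zero (l := -1) ?_ (by omega)
      have : b = p ≫ u - a ≫ j := by simp [k4]
      rw [this]
      exact Sup.sub ((le_lo s _).comp hu (by omega)) (k1.le0.comp hj (by omega))
    refine ⟨a, _, k1, k2, g1, ?_⟩
    rw [hb] at k4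
    simp [h2, k4]
  · intro X a b k1 k2 k3 k4
    have hb : b = 0 := by
      refine k3.eq_zero (l := -1) ?_ (by omega)
      have : b = -((a ≫ j) ≫ v) := by
        apply eq_neg_of_add_eq_zero_right
        simpa [h1] using congrArg (· ≫ v) k4
      rw [this]
      exact Sup.neg ((k1.le0.comp hj (m := -1) (by omega)).comp hv (by omega))
    exact ⟨(h.inj a 0 k1 k2 Sup.zero (by simpa [hb] using k4)).1, hb⟩
  · intro X a b t k1 k2 k3 k4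
    have m1 := Φ.comp k4 cv
    rw [Preadditive.add_comp, Category.assoc b, h1, Category.comp_id] at m1
    have m2 := Φ.proj m1 {g | Z.χ g ≤ -1}
    rw [← GC.lo, lo_eq ((k1.le0.comp hj (m := -1) (by omega)).comp hv (by omega)) k3] at m2
    have m3 : Φ.Ct (t + r) b := by simpa using Φ.sub m1 m2
    have m4 := Φ.comp m2 cu
    exact ⟨Φ.mono (hq.rf a 0 _ k1 k2 Sup.zero (by simpa [h2] using m4)).1 (by omega),
      Φ.mono m3 (by omega)⟩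

theorem Ind.comp (hc : Φ.Cq c) {u : A ⟶ B} {u' : B ⟶ D} (h : Φ.Ind Z r u) (h' : Φ.Ind Z s u') :
    Φ.Ind Z (r + s) (u ≫ u') := by
  obtain ⟨N, V, ε, j, h, hs⟩ := h
  obtain ⟨N', V', ε', j', h', hs'⟩ := h'
  obtain ⟨d, hd⟩ := hc.pow N
  exact ⟨N + N', _, _, _, by exact_mod_cast h.comp hd h',
    (hs.mono (by omega)).add (hs'.mono (by omega))⟩

theorem ind_phi (hc : Φ.Cq c) {n : ℕ} {d : S.Cz Z n} (hd : Φ.Cq d) (B D : C) :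
    Φ.Ind Z 0 (S.blk (d.φ B) 0 0 (𝟙 D)) := by
  obtain ⟨V, ε, j, hq, -, hs⟩ := pq_id hc B n
  have h := hq.pr
  refine ⟨0, V, ε, j ≫ d.φ B ≫ S.inl B D, ⟨⟨h.sup, h.idem, by rw [reassoc_of% h.εj],
    h.gj.comp (l := n) (Sup.comp_one (d.φ1 B) (S.cp_inl _ _)) (by omega),
    Sup.blk ((d.φ1 B).mono (by omega)) .zero .zero ge_id, ?_, ?_⟩, hq.cε,
    Φ.c0 hq.cj (Φ.c0 (hd B).1 Φ.inl), Φ.blk (hd B).1 Φ.zero Φ.zero Φ.id, ?_⟩, hs⟩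
  · intro X f hf
    obtain ⟨a, b, k1, k2, k3, k4⟩ := h.surj ((f ≫ S.fst B D) ≫ d.ψ B)
      (Ge.comp (k := 0) (Sup.comp_one hf (S.cp_fst _ _)) (d.ψ1 B) (by omega))
    refine ⟨a, b ≫ S.inl B D + (f ≫ S.snd B D) ≫ S.inr B D, k1, k2,
      Sup.add (Sup.comp_one k3 (S.cp_inl _ _))
        (Sup.comp_one (Sup.comp_one hf (S.cp_snd B D)) (S.cp_inr B D)), ?_⟩
    apply S.hom_ext'
    · simpa [d.ψφ] using congrArg (· ≫ d.φ B) k4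
    · simp
  · intro X a b k1 k2 k3 k4
    obtain ⟨e1, e2⟩ := h.inj a (b ≫ S.fst B D) k1 k2 (Sup.comp_one k3 (S.cp_fst _ _)) (by
      simpa [d.φψ] using congrArg (· ≫ S.fst B D ≫ d.ψ B) k4)
    exact ⟨e1, S.hom_ext' (by simpa using e2) (by simpa using congrArg (· ≫ S.snd B D) k4)⟩
  · intro X a b t k1 k2 k3 k4
    obtain ⟨e1, e2⟩ := hq.rf a (b ≫ S.fst B D) t k1 k2 (Sup.comp_one k3 (S.cp_fst _ _)) (by
      simpa [d.φψ] using Φ.c0 k4 (Φ.c0 Φ.fst (hd B).2))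
    refine ⟨e1, ?_⟩
    have := Φ.add (Φ.c0 e2 Φ.inl) (Φ.c0 (Φ.c0 k4 Φ.snd) Φ.inr)
    simpa [← Preadditive.comp_add, S.total] using this

theorem ind_one {f : A ⟶ B} (h : Φ.HI r 1 f) : Φ.Ind Z r f := by
  obtain ⟨h1, c1, f', h2, c2, h3, h4⟩ := h
  exact ind_pos (N := 0) (h1.ge1 Z.Γ.one_mem (by simp [Z.one]))
    (h2.ge1 (by simp) (by simp [Z.one])) c1 c2 h3 h4

theorem Tq0.ind (hc : Φ.Cq c) (hZ : ∀ g, g ∈ Z.Γ) {f : A ⟶ B} (h : Φ.Tq0 r f) :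
    Φ.Ind Z (3 * r) f := by
  induction h with
  | one h => exact (ind_one h).mono (by omega)
  | @hom r A B D g f h =>
    obtain ⟨h1, c1, f', h2, c2, h3, h4⟩ := h
    have hg := hZ g
    have hi := Z.inv hg
    have hg' := Z.Γ.inv_mem hg
    obtain ⟨n, hn | hn⟩ := (Z.χ g).eq_nat_or_neg
    · obtain ⟨d, hd⟩ := hc.pow n
      have : S.blk f 0 0 (𝟙 D) = S.blk (f ≫ d.ψ B) 0 0 (𝟙 D) ≫ S.blk (d.φ B) 0 0 (𝟙 D) := by
        simp [d.ψφ]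
      rw [this]
      exact ((ind_pos (N := 0) (v := S.blk (d.φ B ≫ f') 0 0 (𝟙 D))
        (Sup.blk ((h1.ge1 hg hn.ge).comp (d.ψ1 B) (by omega)) .zero .zero ge_id)
        (Sup.blk ((d.φ1 B).comp (h2.ge1 (k := -n) hg' (by omega)) (by omega)) .zero .zero ge_id)
        (Φ.blk (Φ.c0 c1 (hd B).2) Φ.zero Φ.zero Φ.id) (Φ.blk (Φ.c0' (hd B).1 c2) Φ.zero Φ.zero Φ.id)
        (by simp [reassoc_of% d.ψφ, h3]) (by simp [reassoc_of% h4, d.φψ])).comp hc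
        (ind_phi hc hd B D)).mono (by omega)
    · obtain ⟨d, hd⟩ := hc.pow n
      have : S.blk f 0 0 (𝟙 D) = S.blk f 0 0 (d.ψ D) ≫ S.flip B D ≫ S.blk (d.φ D) 0 0 (𝟙 B) ≫
          S.flip D B := by
        simp [d.ψφ, GC.flip]
      rw [this]
      exact ((ind_pos (N := n) (v := S.blk f' 0 0 (d.φ D))
        (Sup.blk (h1.ge1 hg hn.ge) .zero .zero (d.ψ1 D))
        (Sup.blk (h2.ge1 hg' (by omega)) .zero .zero (d.φ1 D))
        (Φ.blk c1 Φ.zero Φ.zero (Φ.mono (hd D).2 (by omega)))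
        (Φ.blk c2 Φ.zero Φ.zero (Φ.mono (hd D).1 (by omega)))
        (by simp [d.ψφ, h3]) (by simp [h4, d.φψ])).comp hc
        ((ind_one (r := 0) hi_flip).comp hc ((ind_phi hc hd D B).comp hc
          (ind_one (r := 0) hi_flip)))).mono (by omega)
  | @upper r A B x cx =>
    have h : S.Sup Z.Γ x := fun g hg => (hg (hZ g)).elim
    have : S.blk (𝟙 A) x 0 (𝟙 B) = S.blk (𝟙 A) (S.lo Z (-1) x) 0 (𝟙 B) ≫
        S.blk (𝟙 A) (x - S.lo Z (-1) x) 0 (𝟙 B) := by simp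
    rw [this]
    have l1 : S.Le Z 0 (S.lo Z (-1) x) := (le_lo h _).mono (by omega)
    have l2 : S.Ge Z 0 (x - S.lo Z (-1) x) := ge_hi h _ (by omega)
    have c1 : Φ.Ct r (S.lo Z (-1) x) := Φ.proj cx _
    have c2 := Φ.sub cx c1
    exact ((ind_neg hc (v := S.blk (𝟙 A) (-S.lo Z (-1) x) 0 (𝟙 B)) (Sup.blk le_id l1 .zero le_id)
      (Sup.blk le_id (Sup.neg l1) .zero le_id) (Φ.blk Φ.id c1 Φ.zero Φ.id)
      (Φ.blk Φ.id (Φ.neg c1) Φ.zero Φ.id) (by simp) (by simp)).comp hc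
      (ind_pos (N := 0) (v := S.blk (𝟙 A) (-(x - S.lo Z (-1) x)) 0 (𝟙 B))
        (Sup.blk ge_id l2 .zero ge_id) (Sup.blk ge_id (Sup.neg l2) .zero ge_id)
        (Φ.blk Φ.id c2 Φ.zero Φ.id) (Φ.blk Φ.id (Φ.neg c2) Φ.zero Φ.id) (by simp)
        (by simp))).mono (by omega)
  | comp _ _ h1 h2 => exact (h1.comp hc h2).mono (by omega)

/-- The controlled boundary theorem. -/
theorem boundary (hc : Φ.Cq c) (hZ : ∀ g, g ∈ Z.Γ) {e : A ⟶ A} (h : S.Sup Z.K e) (ce : Φ.Ct r e)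
    (he : e ≫ e = e) (hT : Φ.CI r (e ≫ c.φ A + (𝟙 A - e)) → Φ.Tq s (e ≫ c.φ A + (𝟙 A - e))) :
    ∃ D E, Φ.So (5 * r + 9 * s) e D E := by
  have hK := Z.K.one_mem
  have hf : S.Sup Z.K (𝟙 A - e) := (Sup.id hK).sub h
  have cf := Φ.sub Φ.id ce
  have g1 : S.Ge Z 0 (e ≫ c.φ A + (𝟙 A - e)) :=
    Sup.add (h.ge0.comp (c.φ1 A) (by omega)) hf.ge0
  have e1 : (e ≫ c.φ A + (𝟙 A - e)) ≫ (e ≫ c.ψ A + (𝟙 A - e)) = 𝟙 A := by
    simp [reassoc_of% c.nφ e, c.nφ e, reassoc_of% he, he, c.φψ]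
  have c1 := Φ.add (Φ.c0 ce (hc A).1) cf
  have c2 := Φ.add (Φ.c0 ce (hc A).2) cf
  obtain ⟨D, hT⟩ := hT ⟨c1, _, c2, e1, by simp [reassoc_of% c.nψ e, c.nψ e, reassoc_of% he, he, c.ψφ]⟩
  obtain ⟨N, V, ε, j, hp, hs⟩ := hT.ind hc hZ
  have p0 : Φ.Pq Z (2 * r) (0 : ℕ) (S.blk (e ≫ c.φ A + (𝟙 A - e)) 0 0 (𝟙 D)) e
      (e ≫ S.inl A D) := by
    refine ⟨⟨h, he, by rw [reassoc_of% he], Sup.comp_one h.ge0 (S.cp_inl _ _),
      Sup.blk g1 .zero .zero ge_id, ?_, ?_⟩, Φ.mono ce (by omega),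
      Φ.mono (Φ.c0 ce Φ.inl) (by omega), Φ.blk (Φ.mono c1 (by omega)) Φ.zero Φ.zero Φ.id, ?_⟩
    · intro X f hf'
      have s1 : S.Ge Z 0 (f ≫ S.fst A D) := Sup.comp_one hf' (S.cp_fst _ _)
      set p := S.lo Z 0 (f ≫ S.fst A D)
      have s2 : S.Ge Z 1 (f ≫ S.fst A D - p) := ge_hi s1.sup _ (by omega)
      refine ⟨p ≫ e, ((f ≫ S.fst A D - p) ≫ e ≫ c.ψ A + (f ≫ S.fst A D) ≫ (𝟙 A - e)) ≫ S.inl A D
        + (f ≫ S.snd A D) ≫ S.inr A D, Sup.scomp ((s1.lo 0).deg (le_lo s1.sup 0)) h,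
        by simp [he], Sup.add (Sup.comp_one (Sup.add
          (s2.comp (h.ge0.comp (c.ψ1 A) (m := -1) (by omega)) (by omega))
          (s1.comp hf.ge0 (by omega))) (S.cp_inl _ _))
          (Sup.comp_one (Sup.comp_one hf' (S.cp_snd _ _)) (S.cp_inr _ _)), ?_⟩
      apply S.hom_ext'
      · simp [reassoc_of% c.nψ e, reassoc_of% he, c.ψφ]
      · simp
    · intro X a b k1 k2 k3 k4
      have s1 : S.Ge Z 0 (b ≫ S.fst A D) := Sup.comp_one k3 (S.cp_fst _ _)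
      have q1 : a + (b ≫ S.fst A D) ≫ (e ≫ c.φ A + (𝟙 A - e)) = 0 := by
        simpa [k2, reassoc_of% k2] using congrArg (· ≫ S.fst A D) k4
      have q2 : a = -((b ≫ S.fst A D) ≫ e ≫ c.φ A) := by
        apply eq_neg_of_add_eq_zero_left
        simpa [k2, c.nφ e, reassoc_of% he, he] using congrArg (· ≫ e) q1
      have ha : a = 0 := Ge.eq_zero (k := 1)
        (q2 ▸ Sup.neg (s1.comp (h.ge0.comp (c.φ1 A) (m := 1) (by omega)) (by omega))) k1.le0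
        (by omega)
      refine ⟨ha, S.hom_ext' ?_ (by simpa using congrArg (· ≫ S.snd A D) k4)⟩
      rw [ha, zero_add] at q1
      have := congrArg (· ≫ (e ≫ c.ψ A + (𝟙 A - e))) q1
      simpa only [Category.assoc, e1, Category.comp_id, Limits.zero_comp] using this
    · intro X a b t k1 k2 k3 k4
      have s1 : S.Ge Z 0 (b ≫ S.fst A D) := Sup.comp_one k3 (S.cp_fst _ _)
      have q1 : Φ.Ct t (a + (b ≫ S.fst A D) ≫ (e ≫ c.φ A + (𝟙 A - e))) := by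
        simpa [k2, reassoc_of% k2] using Φ.c0 k4 Φ.fst
      have q2 : Φ.Ct (t + r) (a + (b ≫ S.fst A D) ≫ e ≫ c.φ A) := by
        simpa [k2, c.nφ e, reassoc_of% he, he] using Φ.comp q1 ce
      have q3 := Φ.proj q2 {g | Z.χ g ≤ 0}
      rw [← GC.lo, lo_eq k1.le0 (s1.comp (h.ge0.comp (c.φ1 A) (m := 1) (by omega)) (by omega))]
        at q3
      have q4 := Φ.comp (Φ.sub (Φ.mono q1 (Nat.le_add_right t r)) q3) c2
      rw [add_sub_cancel_left, Category.assoc, e1, Category.comp_id] at q4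
      refine ⟨Φ.mono q3 (by omega), ?_⟩
      have := Φ.add (Φ.comp' q4 Φ.inl (s := 0) (t := t + 2 * r) (by omega))
        (Φ.comp' (Φ.c0 k4 Φ.snd) Φ.inr (s := 0) (by omega))
      simpa [← Preadditive.comp_add, S.total] using this
  obtain ⟨V', ε', j', hp', -, hs'⟩ := pq_id hc (S.sum A D) N
  obtain ⟨d, hd⟩ := hc.pow 0
  have p1 := p0.comp hd hp'
  simp only [Nat.cast_zero, zero_add, Category.comp_id] at p1
  have := (p1.mono (s := 2 * r + 3 * s) (by omega)).uniq (hp.mono (by omega))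
  obtain ⟨D', E', x, y, -, -, m1, m2, m3⟩ := (hs.of_eq this (by simp [he, hp'.pr.idem])).cancel
    (hs'.mono (Nat.zero_le r)) h ce he
  exact ⟨D', E', x, y, Φ.mono m1 (by omega), Φ.mono m2 (by omega), m3⟩

end CF

end GC

end Pool.Agent.Lib.MP_5d3e93_al
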