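import Pool.Agent.Lib.MP_5d3e93_al.Loc

/-! Quantitative triviality of isomorphisms in a category with control. -/

open CategoryTheory

namespace Pool.Agent.Lib.MP_5d3e93_al

universe w v u

namespace GC

variable {G : Type w} [Group G] {C : Type u} [Category.{v} C] [Preadditive C] {S : GC G C}
variable {A B D E A' B' : C}

variable (S) in
/-- Control filtrations. -/
structure CF where
  Ct : ℕ → ∀ {A B : C}, (A ⟶ B) → Prop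
  mono : ∀ {r s : ℕ} {A B : C} {f : A ⟶ B}, Ct r f → r ≤ s → Ct s f
  zero : ∀ {r : ℕ} {A B : C}, Ct r (0 : A ⟶ B)
  add : ∀ {r : ℕ} {A B : C} {f g : A ⟶ B}, Ct r f → Ct r g → Ct r (f + g)
  neg : ∀ {r : ℕ} {A B : C} {f : A ⟶ B}, Ct r f → Ct r (-f)
  comp : ∀ {r s : ℕ} {A B D : C} {f : A ⟶ B} {g : B ⟶ D}, Ct r f → Ct s g → Ct (r + s) (f ≫ g)
  id : ∀ {r : ℕ} {A : C}, Ct r (𝟙 A)
  inl : ∀ {r : ℕ} {A B : C}, Ct r (S.inl A B)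
  inr : ∀ {r : ℕ} {A B : C}, Ct r (S.inr A B)
  fst : ∀ {r : ℕ} {A B : C}, Ct r (S.fst A B)
  snd : ∀ {r : ℕ} {A B : C}, Ct r (S.snd A B)
  cp : ∀ {r : ℕ} {A B : C} {f : A ⟶ B} (g : G), Ct r f → Ct r (S.cp g f)

namespace CF

variable (Φ : S.CF) {r s : ℕ}

theorem sub {f g : A ⟶ B} (h : Φ.Ct r f) (h' : Φ.Ct r g) : Φ.Ct r (f - g) := by
  rw [sub_eq_add_neg]; exact Φ.add h (Φ.neg h')

theorem comp' {t : ℕ} {f : A ⟶ B} {g : B ⟶ D} (h : Φ.Ct r f) (h' : Φ.Ct s g) (e : r + s ≤ t) :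
    Φ.Ct t (f ≫ g) := Φ.mono (Φ.comp h h') e

theorem c0 {f : A ⟶ B} {g : B ⟶ D} (h : Φ.Ct r f) (h' : Φ.Ct 0 g) : Φ.Ct r (f ≫ g) :=
  Φ.comp h h'

theorem c0' {f : A ⟶ B} {g : B ⟶ D} (h : Φ.Ct 0 f) (h' : Φ.Ct r g) : Φ.Ct r (f ≫ g) :=
  Φ.comp' h h' (by omega)

theorem blk {a : A ⟶ A'} {b : A ⟶ B'} {c : B ⟶ A'} {d : B ⟶ B'} (ha : Φ.Ct r a)
    (hb : Φ.Ct r b) (hc : Φ.Ct r c) (hd : Φ.Ct r d) : Φ.Ct r (S.blk a b c d) :=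
  Φ.add (Φ.add (Φ.add (Φ.c0' Φ.fst (Φ.c0 ha Φ.inl)) (Φ.c0' Φ.fst (Φ.c0 hb Φ.inr)))
    (Φ.c0' Φ.snd (Φ.c0 hc Φ.inl))) (Φ.c0' Φ.snd (Φ.c0 hd Φ.inr))

theorem proj {f : A ⟶ B} (h : Φ.Ct r f) (X : Set G) : Φ.Ct r (S.proj X f) :=
  Finset.sum_induction _ (Φ.Ct r) (fun _ _ => Φ.add) Φ.zero fun _ _ => Φ.cp _ h

/-- Controlled homogeneous isomorphisms. -/
def HI (r : ℕ) (g : G) (f : A ⟶ B) : Prop :=
  S.Sup {g} f ∧ Φ.Ct r f ∧ ∃ f' : B ⟶ A, S.Sup {g⁻¹} f' ∧ Φ.Ct r f' ∧ f ≫ f' = 𝟙 A ∧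
    f' ≫ f = 𝟙 B

/-- Controlled isomorphisms. -/
def CI (r : ℕ) (f : A ⟶ B) : Prop :=
  Φ.Ct r f ∧ ∃ f' : B ⟶ A, Φ.Ct r f' ∧ f ≫ f' = 𝟙 A ∧ f' ≫ f = 𝟙 B

/-- Controlled products of elementary and homogeneous isomorphisms. -/
inductive Tq0 : ℕ → ∀ {A B : C}, (A ⟶ B) → Prop
  | one {r : ℕ} {A B : C} {f : A ⟶ B} : Φ.HI r 1 f → Tq0 r f
  | hom {r : ℕ} {A B : C} (D : C) {g : G} {f : A ⟶ B} : Φ.HI r g f →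
      Tq0 r (S.blk f 0 0 (𝟙 D))
  | upper {r : ℕ} {A B : C} {x : A ⟶ B} : Φ.Ct r x → Tq0 r (S.blk (𝟙 A) x 0 (𝟙 B))
  | comp {r s : ℕ} {A B D : C} {f : A ⟶ B} {g : B ⟶ D} : Tq0 r f → Tq0 s g →
      Tq0 (r + s) (f ≫ g)

/-- Stable version. -/
def Tq (r : ℕ) (f : A ⟶ B) : Prop := ∃ D : C, Φ.Tq0 r (S.blk f 0 0 (𝟙 D))

variable {Φ}

theorem HI.mono {g : G} {f : A ⟶ B} (h : Φ.HI r g f) (e : r ≤ s) : Φ.HI s g f := by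
  obtain ⟨h1, h2, f', h3, h4, h5⟩ := h
  exact ⟨h1, Φ.mono h2 e, f', h3, Φ.mono h4 e, h5⟩

theorem HI.hiso {g : G} {f : A ⟶ B} (h : Φ.HI r g f) : S.HIso g f := by
  obtain ⟨h1, h2, f', h3, h4, h5⟩ := h
  exact ⟨h1, f', h3, h5⟩

theorem HI.bd {f : A ⟶ A'} {g : B ⟶ B'} {k : G} (hf : Φ.HI r k f) (hg : Φ.HI r k g) :
    Φ.HI r k (S.blk f 0 0 g) := by
  obtain ⟨h1, c1, f', h2, c2, h3, h4⟩ := hf
  obtain ⟨h5, c3, g', h6, c4, h7, h8⟩ := hg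
  exact ⟨.blk h1 .zero .zero h5, Φ.blk c1 Φ.zero Φ.zero c3, S.blk f' 0 0 g',
    .blk h2 .zero .zero h6, Φ.blk c2 Φ.zero Φ.zero c4, by simp [h3, h7], by simp [h4, h8]⟩

theorem HI.comp {f : A ⟶ B} {g : B ⟶ D} (hf : Φ.HI r 1 f) (hg : Φ.HI s 1 g) :
    Φ.HI (r + s) 1 (f ≫ g) := by
  obtain ⟨h1, c1, f', h2, c2, h3, h4⟩ := hf
  obtain ⟨h5, c3, g', h6, c4, h7, h8⟩ := hg
  rw [inv_one] at h2 h6
  exact ⟨h1.mul1 h5, Φ.comp c1 c3, g' ≫ f', by rw [inv_one]; exact h6.mul1 h2,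
    Φ.comp' c4 c2 (by omega), by simp [reassoc_of% h7, h3], by simp [reassoc_of% h4, h8]⟩

theorem HI.c0 {f : A ⟶ B} {g : B ⟶ D} (hf : Φ.HI r 1 f) (hg : Φ.HI 0 1 g) :
    Φ.HI r 1 (f ≫ g) := hf.comp hg

theorem hi_mk {f : A ⟶ B} {f' : B ⟶ A} (h1 : S.Sup {1} f) (h2 : S.Sup {1} f') (c1 : Φ.Ct r f)
    (c2 : Φ.Ct r f') (e1 : f ≫ f' = 𝟙 A) (e2 : f' ≫ f = 𝟙 B) : Φ.HI r 1 f :=
  ⟨h1, c1, f', by rwa [inv_one], c2, e1, e2⟩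

theorem hi_id : Φ.HI r 1 (𝟙 A) := hi_mk id1 id1 Φ.id Φ.id (by simp) (by simp)

theorem ct_asc : Φ.Ct r (S.asc A B D) := Φ.blk Φ.fst (Φ.c0 Φ.snd Φ.inl) Φ.zero Φ.inr

theorem ct_asc' : Φ.Ct r (S.asc' A B D) := Φ.blk Φ.inl Φ.zero (Φ.c0 Φ.fst Φ.inr) Φ.snd

theorem ct_flip : Φ.Ct r (S.flip A B) := Φ.blk Φ.zero Φ.id Φ.id Φ.zero

theorem hi_asc : Φ.HI r 1 (S.asc A B D) :=
  hi_mk (S.sup_asc (by simp) _ _ _) (S.sup_asc' (by simp) _ _ _) ct_asc ct_asc' (S.asc_asc' _ _ _)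
    (S.asc'_asc _ _ _)

theorem hi_asc' : Φ.HI r 1 (S.asc' A B D) :=
  hi_mk (S.sup_asc' (by simp) _ _ _) (S.sup_asc (by simp) _ _ _) ct_asc' ct_asc (S.asc'_asc _ _ _)
    (S.asc_asc' _ _ _)

theorem hi_flip : Φ.HI r 1 (S.flip A B) :=
  hi_mk (S.sup_flip (by simp) _ _) (S.sup_flip (by simp) _ _) ct_flip ct_flip (S.flip_flip _ _)
    (S.flip_flip _ _)

namespace Tq0

theorem mono {f : A ⟶ B} (h : Φ.Tq0 r f) {s : ℕ} (e : r ≤ s) : Φ.Tq0 s f := by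
  induction h generalizing s with
  | one h => exact one (h.mono e)
  | hom D h => exact hom D (h.mono e)
  | upper h => exact upper (Φ.mono h e)
  | @comp r t _ _ _ _ _ _ h2 h1 _ =>
    obtain ⟨k, rfl⟩ := Nat.exists_eq_add_of_le e
    have := (h1 (s := r + k) (by omega)).comp h2
    rwa [show r + k + t = r + t + k by omega] at this

theorem c0 {f : A ⟶ B} {g : B ⟶ D} (h : Φ.Tq0 r f) (h' : Φ.HI 0 1 g) : Φ.Tq0 r (f ≫ g) :=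
  h.comp (one h')

theorem c0' {f : A ⟶ B} {g : B ⟶ D} (h : Φ.HI 0 1 f) (h' : Φ.Tq0 r g) : Φ.Tq0 r (f ≫ g) :=
  ((one h).comp h').mono (by omega)

theorem tr0 {f : A ⟶ B} (h : Φ.Tq0 r f) : S.Tr0 ⊤ f := by
  induction h with
  | one h => exact .one h.hiso
  | hom D h => exact .hom D trivial h.hiso
  | upper h => exact .upper (S.sup_top _)
  | comp _ _ h1 h2 => exact .comp h1 h2

theorem stab {f : A ⟶ B} (h : Φ.Tq0 r f) (E : C) : Φ.Tq0 r (S.blk f 0 0 (𝟙 E)) := by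
  induction h with
  | one h => exact one (h.bd hi_id)
  | @hom r A B D g f h =>
    have : S.blk (S.blk f 0 0 (𝟙 D)) 0 0 (𝟙 E) =
        S.asc A D E ≫ S.blk f 0 0 (𝟙 _) ≫ S.asc' B D E := by
      simp [asc, asc']
      congr 1
      apply S.hom_ext <;> simp
    rw [this]
    exact c0' hi_asc ((hom _ h).c0 hi_asc')
  | @upper r A B x h =>
    have : S.blk (S.blk (𝟙 A) x 0 (𝟙 B)) 0 0 (𝟙 E) =
        S.asc A B E ≫ S.blk (𝟙 A) (x ≫ S.inl B E) 0 (𝟙 _) ≫ S.asc' A B E := by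
      simp [asc, asc']
      congr 1
      apply S.hom_ext <;> simp
    rw [this]
    exact c0' hi_asc ((upper (Φ.c0 h Φ.inl)).c0 hi_asc')
  | @comp r s A B D f g _ _ h1 h2 => simpa using h1.comp h2

theorem inv {f : A ⟶ B} (h : Φ.Tq0 r f) :
    Φ.Ct r f ∧ ∃ g : B ⟶ A, Φ.Tq0 r g ∧ Φ.Ct r g ∧ f ≫ g = 𝟙 A ∧ g ≫ f = 𝟙 B := by
  induction h with
  | one h =>
    obtain ⟨h1, c1, f', h2, c2, h3, h4⟩ := h
    exact ⟨c1, f', one (hi_mk (by simpa using h2) h1 c2 c1 h4 h3), c2, h3, h4⟩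
  | @hom r A B D g f h =>
    obtain ⟨h1, c1, f', h2, c2, h3, h4⟩ := h
    exact ⟨Φ.blk c1 Φ.zero Φ.zero Φ.id, _, hom D ⟨h2, c2, _, by simpa using h1, c1, h4, h3⟩,
      Φ.blk c2 Φ.zero Φ.zero Φ.id, by simp [h3], by simp [h4]⟩
  | upper h =>
    exact ⟨Φ.blk Φ.id h Φ.zero Φ.id, _, upper (Φ.neg h), Φ.blk Φ.id (Φ.neg h) Φ.zero Φ.id,
      by simp, by simp⟩
  | comp _ _ h1 h2 =>
    obtain ⟨a1, f', a2, a3, a4, a5⟩ := h1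
    obtain ⟨b1, g', b2, b3, b4, b5⟩ := h2
    exact ⟨Φ.comp a1 b1, g' ≫ f', (b2.comp a2).mono (by omega), Φ.comp' b3 a3 (by omega),
      by simp [reassoc_of% b4, a4], by simp [reassoc_of% a5, b5]⟩

end Tq0

namespace Tq

theorem of_tq0 {f : A ⟶ B} (h : Φ.Tq0 r f) : Φ.Tq r f := ⟨A, h.stab A⟩

theorem tr {f : A ⟶ B} (h : Φ.Tq r f) : S.Tr ⊤ f := h.imp fun _ h => h.tr0

theorem mono {f : A ⟶ B} (h : Φ.Tq r f) (e : r ≤ s) : Φ.Tq s f := h.imp fun _ h => h.mono e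

theorem hom {g : G} {f : A ⟶ B} (h : Φ.HI r g f) : Φ.Tq r f := ⟨A, .hom A h⟩

theorem aux {f : A ⟶ B} {D : C} (h : Φ.Tq0 r (S.blk f 0 0 (𝟙 D))) (E : C) :
    Φ.Tq0 r (S.blk f 0 0 (𝟙 (S.sum D E))) := by
  have : S.blk f 0 0 (𝟙 (S.sum D E)) =
      S.asc' A D E ≫ S.blk (S.blk f 0 0 (𝟙 D)) 0 0 (𝟙 E) ≫ S.asc B D E := by
    simp [asc, asc', S.total]
  rw [this]
  exact .c0' hi_asc' ((h.stab E).c0 hi_asc)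

theorem comp {f : A ⟶ B} {g : B ⟶ D} (hf : Φ.Tq r f) (hg : Φ.Tq s g) :
    Φ.Tq (r + s) (f ≫ g) := by
  obtain ⟨E, hf⟩ := hf
  obtain ⟨F, hg⟩ := hg
  refine ⟨S.sum E F, ?_⟩
  have : S.blk (f ≫ g) 0 0 (𝟙 (S.sum E F)) = S.blk f 0 0 (𝟙 (S.sum E F)) ≫
      S.blk (𝟙 B) 0 0 (S.flip E F) ≫ S.blk g 0 0 (𝟙 (S.sum F E)) ≫
      S.blk (𝟙 D) 0 0 (S.flip F E) := by
    simp [S.flip_flip]
  rw [this]
  exact (aux hf F).comp (.c0' (hi_id.bd hi_flip) ((aux hg E).c0 (hi_id.bd hi_flip)))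

theorem c0 {f : A ⟶ B} {g : B ⟶ D} (h : Φ.Tq r f) (h' : Φ.HI 0 1 g) : Φ.Tq r (f ≫ g) :=
  h.comp (hom h')

theorem c0' {f : A ⟶ B} {g : B ⟶ D} (h : Φ.HI 0 1 f) (h' : Φ.Tq r g) : Φ.Tq r (f ≫ g) :=
  ((hom h).comp h').mono (by omega)

theorem of_bd {f : A ⟶ B} (h : Φ.Tq r (S.blk f 0 0 (𝟙 D))) : Φ.Tq r f := by
  obtain ⟨E, h⟩ := h
  refine ⟨S.sum D E, ?_⟩
  have : S.blk f 0 0 (𝟙 (S.sum D E)) =
      S.asc' A D E ≫ S.blk (S.blk f 0 0 (𝟙 D)) 0 0 (𝟙 E) ≫ S.asc B D E := by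
    simp [asc, asc', S.total]
  rw [this]
  exact .c0' hi_asc' (h.c0 hi_asc)

theorem bd_id {f : A ⟶ B} (h : Φ.Tq r f) (D : C) : Φ.Tq r (S.blk f 0 0 (𝟙 D)) := by
  obtain ⟨E, h⟩ := h
  have h2 := aux h D
  have : S.blk (S.blk f 0 0 (𝟙 D)) 0 0 (𝟙 E) = S.asc A D E ≫ S.blk (𝟙 A) 0 0 (S.flip D E) ≫
      S.blk f 0 0 (𝟙 (S.sum E D)) ≫ S.blk (𝟙 B) 0 0 (S.flip E D) ≫ S.asc' B D E := by
    simp [asc, asc', reassoc_of% S.flip_flip]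
    congr 1
    apply S.hom_ext <;> simp
  refine ⟨E, ?_⟩
  rw [this]
  exact .c0' hi_asc (.c0' (hi_id.bd hi_flip) (h2.c0 ((hi_id.bd hi_flip).c0 hi_asc')))

theorem id_bd {f : A ⟶ B} (h : Φ.Tq r f) (D : C) : Φ.Tq r (S.blk (𝟙 D) 0 0 f) := by
  have : S.blk (𝟙 D) 0 0 f = S.flip D A ≫ S.blk f 0 0 (𝟙 D) ≫ S.flip B D := by simp [flip]
  rw [this]
  exact .c0' hi_flip ((h.bd_id D).c0 hi_flip)

theorem bd {f : A ⟶ A'} {g : B ⟶ B'} (hf : Φ.Tq r f) (hg : Φ.Tq s g) :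
    Φ.Tq (r + s) (S.blk f 0 0 g) := by
  simpa using (hf.bd_id B).comp (hg.id_bd A')

theorem upper {x : A ⟶ B} (h : Φ.Ct r x) : Φ.Tq r (S.blk (𝟙 A) x 0 (𝟙 B)) := of_tq0 (.upper h)

theorem lower {x : B ⟶ A} (h : Φ.Ct r x) : Φ.Tq r (S.blk (𝟙 A) 0 x (𝟙 B)) := by
  have : S.blk (𝟙 A) 0 x (𝟙 B) = S.flip A B ≫ S.blk (𝟙 B) x 0 (𝟙 A) ≫ S.flip B A := by
    simp [flip]
  rw [this]
  exact .c0' hi_flip ((upper h).c0 hi_flip)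

theorem inv {f : A ⟶ B} (h : Φ.Tq r f) :
    Φ.Ct r f ∧ ∃ g : B ⟶ A, Φ.Tq r g ∧ Φ.Ct r g ∧ f ≫ g = 𝟙 A ∧ g ≫ f = 𝟙 B := by
  obtain ⟨E, h⟩ := h
  obtain ⟨h1, g, h2, h3, h4, h5⟩ := h.inv
  have e1 : S.inr B E ≫ g = S.inr A E := by
    have := congrArg (S.inr A E ≫ ·) h4
    simpa using this
  have e2 : g ≫ S.snd A E = S.snd B E := by
    have := congrArg (· ≫ S.snd B E) h5
    simpa using this
  have e3 : g = S.blk (S.inl B E ≫ g ≫ S.fst A E) 0 0 (𝟙 E) := by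
    apply S.hom_ext
    · apply S.hom_ext' <;> simp [e2]
    · simp [e1]
  refine ⟨?_, S.inl B E ≫ g ≫ S.fst A E, ⟨E, e3 ▸ h2⟩, Φ.c0' Φ.inl (Φ.c0 h3 Φ.fst), ?_, ?_⟩
  · have := Φ.c0' (Φ.inl (A := A) (B := E)) (Φ.c0 h1 Φ.fst)
    simpa using this
  · have := congrArg (fun k => S.inl A E ≫ k ≫ S.fst A E) h4
    simpa using this
  · rw [e3] at h5
    have := congrArg (fun k => S.inl B E ≫ k ≫ S.fst B E) h5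
    simpa using this

theorem cancel_left {f : A ⟶ B} {g : B ⟶ D} (hf : Φ.Tq r f) (h : Φ.Tq s (f ≫ g)) :
    Φ.Tq (r + s) g := by
  obtain ⟨_, f', h2, _, _, h5⟩ := hf.inv
  simpa [reassoc_of% h5] using h2.comp h

theorem cancel_right {f : A ⟶ B} {g : B ⟶ D} (hg : Φ.Tq r g) (h : Φ.Tq s (f ≫ g)) :
    Φ.Tq (s + r) f := by
  obtain ⟨_, g', h2, _, h4, _⟩ := hg.inv
  simpa [h4] using h.comp h2

theorem rot {a : A ⟶ B} {a' : B ⟶ A} (h : Φ.Ct r a) (h' : Φ.Ct r a') (e : a ≫ a' = 𝟙 A)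
    (e' : a' ≫ a = 𝟙 B) : Φ.Tq (3 * r) (S.blk 0 a (-a') 0) := by
  have : S.blk 0 a (-a') 0 = S.blk (𝟙 A) a 0 (𝟙 B) ≫ S.blk (𝟙 A) 0 (-a') (𝟙 B) ≫
      S.blk (𝟙 A) a 0 (𝟙 B) := by simp [e, e']
  rw [this]
  exact ((upper h).comp ((lower (Φ.neg h')).comp (upper h))).mono (by omega)

theorem wh {a : A ⟶ B} {a' : B ⟶ A} (h : Φ.Ct r a) (h' : Φ.Ct r a') (e : a ≫ a' = 𝟙 A)
    (e' : a' ≫ a = 𝟙 B) : Φ.Tq (3 * r) (S.blk a 0 0 a') := by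
  have : S.blk a 0 0 a' = S.blk 0 a (-a') 0 ≫ S.blk 0 (-𝟙 A) (𝟙 B) 0 := by simp
  rw [this]
  exact (rot h h' e e').c0 (hi_mk (f' := S.blk 0 (𝟙 B) (-𝟙 A) 0) (.blk .zero id1.neg id1 .zero)
    (.blk .zero id1 id1.neg .zero) (Φ.blk Φ.zero (Φ.neg Φ.id) Φ.id Φ.zero)
    (Φ.blk Φ.zero Φ.id (Φ.neg Φ.id) Φ.zero) (by simp) (by simp))

/-- Cancellation of a common summand. -/
theorem strip {u : A ⟶ B} {w : D ⟶ E} {w' : E ⟶ D} (h : Φ.Ct r w) (h' : Φ.Ct r w')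
    (e : w ≫ w' = 𝟙 D) (e' : w' ≫ w = 𝟙 E) {u' : A' ⟶ B'} {α : S.sum A D ⟶ S.sum D A'}
    {β : S.sum B E ⟶ S.sum E B'} (hα : Φ.HI r 1 α) (hβ : Φ.HI r 1 β)
    (c : S.blk u 0 0 w ≫ β = α ≫ S.blk w 0 0 u') (hu : Φ.Tq s u') : Φ.Tq (s + 8 * r) u := by
  have k1 := (wh h h' e e').id_bd A'
  have k2 := (wh h h' e e').id_bd B
  have e1 : S.blk u 0 0 (𝟙 (S.sum D E)) ≫ S.blk (𝟙 B) 0 0 (S.blk w 0 0 w') ≫ S.asc' B E D ≫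
      S.blk β 0 0 (𝟙 D) = S.asc' A D E ≫ S.blk (S.blk u 0 0 w ≫ β) 0 0 w' := by
    simp [asc']
  have e2 : S.blk (α ≫ S.blk w 0 0 u') 0 0 w' = S.blk (α ≫ S.flip D A') 0 0 (𝟙 E) ≫
      S.asc A' D E ≫ S.blk (𝟙 A') 0 0 (S.blk w 0 0 w') ≫ S.blk u' 0 0 (𝟙 _) ≫ S.asc' B' E D ≫
      S.blk (S.flip B' E) 0 0 (𝟙 D) := by
    simp [asc, asc', flip]
    congr 1
    apply S.hom_ext' <;> simp
  rw [c, e2] at e1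
  have k3 := Tq.c0' (hi_asc' (A := A) (B := D) (D := E)) ((hom ((hα.c0 hi_flip).bd hi_id)).comp
    (.c0' hi_asc (k1.comp ((hu.bd_id _).c0 (hi_asc'.c0 (hi_flip.bd hi_id))))))
  rw [← e1] at k3
  exact ((k2.comp (.c0' hi_asc' (hom (hβ.bd hi_id)))).cancel_right k3).of_bd.mono (by omega)

end Tq

end CF

end GC

end Pool.Agent.Lib.MP_5d3e93_al
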