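import Pool.Agent.Lib.MP_5d3e93_al.Swan

/-! An induction relation for affine actions over a prime field. -/

namespace Pool.Agent.Lib.MP_5d3e93_al

open Module

universe w

namespace Lat

variable {Q : Type w} [Group Q] {V : Type*} [AddCommGroup V] {τ : Lat Q → V}

/-- Lattices graded by a finite set with an action. -/
structure Gr (X : Type) [Fintype X] [MulAction Q X] (P : X → Prop) (L : Lat Q) where
  ε : X → L.M →ₗ[ℤ] L.M
  on : ∀ x m, ¬ P x → ε x m = 0
  idem : ∀ x m, ε x (ε x m) = ε x m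
  orth : ∀ x y m, x ≠ y → ε x (ε y m) = 0
  total : ∀ m, ∑ x, ε x m = m
  eqv : ∀ q x m, L.T q (ε x m) = ε (q • x) (L.T q m)

variable {X : Type} [Fintype X] [MulAction Q X] {P : X → Prop} {L : Lat Q}

/-- Grading of homomorphisms by the source. -/
noncomputable def Gr.homl (a : Gr X P L) (N : Lat Q) : Gr X P (L.hom N) where
  ε x := LinearMap.lcomp ℤ _ (a.ε x)
  on x f h := by ext m; simp [a.on x m h]
  idem x f := by ext m; simp [a.idem]
  orth x y f h := by ext m; simp [a.orth y x m h.symm]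
  total f := by ext m; simp [← map_sum, a.total]
  eqv q x f := by ext m; simp [a.eqv]

/-- Grading of homomorphisms by the target. -/
noncomputable def Gr.homr (a : Gr X P L) (N : Lat Q) : Gr X P (N.hom L) where
  ε x := LinearMap.llcomp ℤ _ _ _ (a.ε x)
  on x f h := by ext m; simp [a.on x _ h]
  idem x f := by ext m; simp [a.idem]
  orth x y f h := by ext m; simp [a.orth x y _ h]
  total f := by ext m; simp [a.total]
  eqv q x f := by ext m; simp [a.eqv]

theorem Ses.tv (h : Ses τ) (L : Lat Q) (k : ∀ q m, L.T q m = m) :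
    τ L = finrank ℤ L.M • τ (int Q) := by
  rw [← h.triv]
  exact h.iso L L.triv LinearMap.id k Function.bijective_id

/-- Finite sets with an action, an involution and an invariant subset. -/
structure Iv (Q : Type w) [Group Q] (Z : Type) [MulAction Q Z] where
  ι : Z → Z
  D : Z → Prop
  inv : ∀ z, ι (ι z) = z
  eqv : ∀ (q : Q) z, ι (q • z) = q • ι z
  h1 : ∀ (q : Q) z, D z → D (q • z)
  h2 : ∀ z, D z → D (ι z)

namespace Iv

open Classical

variable {Z Z' : Type} [Fintype Z] [MulAction Q Z] [Fintype Z'] [MulAction Q Z']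
variable (I : Iv Q Z) (I' : Iv Q Z')

/-- Even functions on the subset. -/
def W : Submodule ℤ (Z → ℤ) where
  carrier := {F | ∀ z, F (I.ι z) = F z ∧ (¬ I.D z → F z = 0)}
  add_mem' ha hb z := ⟨by simp [(ha z).1, (hb z).1], fun h => by simp [(ha z).2 h, (hb z).2 h]⟩
  zero_mem' z := by simp
  smul_mem' c F ha z := ⟨by simp [(ha z).1], fun h => by simp [(ha z).2 h]⟩

/-- The lattice of even functions. -/
abbrev ev : Lat Q := (fn Z).sub I.W fun q F hF z =>
  ⟨(congrArg F (I.eqv _ _).symm).trans (hF _).1,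
    fun h => (hF _).2 fun k => h (by simpa using I.h1 q _ k)⟩

theorem ev_T (q : Q) (F : I.ev.M) (z : Z) : (I.ev.T q F).1 z = F.1 (q⁻¹ • z) := rfl

/-- Restriction to an even subset. -/
noncomputable def res (J : Iv Q Z) (π : Z → Prop) (h : ∀ z, π (I.ι z) ↔ π z) (e : J.ι = I.ι)
    (k : ∀ z, I.D z → π z → J.D z) : I.ev.M →ₗ[ℤ] J.ev.M where
  toFun F := ⟨fun z => if π z then F.1 z else 0, fun z => ⟨by simp only [e, h, (F.2 z).1],
    fun a => by beta_reduce; split_ifs with b; exacts [(F.2 z).2 fun c => a (k z c b), rfl]⟩⟩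
  map_add' a b := by ext z; simp only [Submodule.coe_add, Pi.add_apply]; split_ifs <;> simp
  map_smul' a b := by ext z; simp

theorem res_pos {J : Iv Q Z} {π : Z → Prop} {h e k} (F : I.ev.M) {z : Z} (a : π z) :
    (I.res J π h e k F).1 z = F.1 z := if_pos a

theorem res_neg {J : Iv Q Z} {π : Z → Prop} {h e k} (F : I.ev.M) {z : Z} (a : ¬ π z) :
    (I.res J π h e k F).1 z = 0 := if_neg a

/-- The grading by an even equivariant map. -/
noncomputable def gr (π : Z → X) (h : ∀ (q : Q) z, π (q • z) = q • π z) (k : ∀ z, π (I.ι z) = π z)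
    (hP : ∀ z, I.D z → P (π z)) : Gr X P I.ev where
  ε x := I.res I (π · = x) (by simp [k]) rfl fun _ a _ => a
  on x F a := by
    ext z
    change (if π z = x then F.1 z else 0) = 0
    split_ifs with b
    exacts [(F.2 z).2 fun c => a (b ▸ hP z c), rfl]
  idem x F := by ext z; simp +contextual [res]
  orth x y F a := by
    ext z
    change (if π z = x then if π z = y then F.1 z else 0 else 0) = 0
    split_ifs with b c
    exacts [(a (b.symm.trans c)).elim, rfl, rfl]
  total F := by ext z; simp [res]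
  eqv q x F := by
    ext z
    change (if π (q⁻¹ • z) = x then _ else 0) = if π z = q • x then _ else 0
    simp only [h, inv_smul_eq_iff]
    rfl

theorem rank (h : ∀ z, I.D z → I.ι z ≠ z) :
    2 * finrank ℤ I.ev.M = Nat.card {z // I.D z} := by
  rw [Nat.card_eq_fintype_card, Fintype.card_subtype]
  let e := Fintype.equivFin Z
  let R := {z // I.D z ∧ e z < e (I.ι z)}
  have c (z) (a : I.D z) (b : ¬ e z < e (I.ι z)) : I.D (I.ι z) ∧ e (I.ι z) < e (I.ι (I.ι z)) :=
    ⟨I.h2 z a, by rw [I.inv]; exact lt_of_le_of_ne (not_lt.1 b) (e.injective.ne (h z a))⟩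
  let r : I.ev.M →ₗ[ℤ] R → ℤ := LinearMap.funLeft ℤ ℤ Subtype.val ∘ₗ I.W.subtype
  have hr : Function.Bijective r := by
    refine ⟨(injective_iff_map_eq_zero r).2 fun F a => Subtype.ext (funext fun z => ?_), fun f => ?_⟩
    · by_cases k : I.D z
      · by_cases k' : e z < e (I.ι z)
        · exact congrFun a ⟨z, k, k'⟩
        · exact (F.2 z).1.symm.trans (congrFun a ⟨_, c z k k'⟩)
      · exact (F.2 z).2 k
    · let f' : Z → ℤ := fun z => if k : I.D z ∧ e z < e (I.ι z) then f ⟨z, k⟩ else 0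
      refine ⟨⟨fun z => f' z + f' (I.ι z), fun z => ⟨by simp only [I.inv, add_comm], fun a => ?_⟩⟩,
        funext fun z => ?_⟩
      · simp only [f']
        rw [dif_neg fun k => a k.1, dif_neg fun k => a (I.inv z ▸ I.h2 _ k.1), add_zero]
      · change f' z.1 + f' (I.ι z.1) = _
        simp only [f']
        rw [dif_pos z.2, dif_neg fun k => z.2.2.not_gt (by simpa only [I.inv] using k.2), add_zero]
  rw [(LinearEquiv.ofBijective r hr).finrank_eq, finrank_fintype_fun_eq_card, Fintype.card_subtype,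
    ← Finset.card_filter_add_card_filter_not (s := Finset.univ.filter I.D)
      (fun z => e z < e (I.ι z)), Finset.filter_filter, Finset.filter_filter, two_mul]
  congr 1
  refine Finset.card_bij' (fun z _ => I.ι z) (fun z _ => I.ι z) (fun z a => ?_) (fun z a => ?_)
    (fun z _ => I.inv z) fun z _ => I.inv z
  · simp only [Finset.mem_filter, Finset.mem_univ, true_and, I.inv] at a ⊢
    exact ⟨I.h2 z a.1, a.2.not_gt⟩
  · simp only [Finset.mem_filter, Finset.mem_univ, true_and] at a ⊢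
    exact c z a.1 a.2

/-- Morphisms. -/
structure Mp where
  κ : Z → Z'
  k1 : ∀ z, κ (I.ι z) = I'.ι (κ z)
  k2 : ∀ z, I.D z → I'.D (κ z)
  k3 : ∀ (q : Q) z, κ (q • z) = q • κ z

variable {I I'} (φ : I.Mp I')

/-- Summation over the fibres. -/
noncomputable def Mp.push : I.ev.M →ₗ[ℤ] I'.ev.M where
  toFun F := ⟨fun y => ∑ z, if φ.κ z = y then F.1 z else 0, fun y => ⟨by
    beta_reduce
    rw [← Equiv.sum_comp (Function.Involutive.toPerm _ I.inv)]
    refine Finset.sum_congr rfl fun z _ => ?_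
    change (if φ.κ (I.ι z) = _ then F.1 (I.ι z) else 0) = _
    simp only [φ.k1, (F.2 z).1, (Function.Involutive.injective I'.inv).eq_iff], fun a => Finset.sum_eq_zero fun z _ => by
      split_ifs with b
      exacts [(F.2 z).2 fun c => a (b ▸ φ.k2 z c), rfl]⟩⟩
  map_add' a b := by
    ext y
    simp only [Submodule.coe_add, Pi.add_apply, ← Finset.sum_add_distrib]
    exact Finset.sum_congr rfl fun z _ => by split_ifs <;> simp
  map_smul' a b := by ext y; simp [Finset.mul_sum]

theorem Mp.push_eqv (q : Q) (F : I.ev.M) : φ.push (I.ev.T q F) = I'.ev.T q (φ.push F) := by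
  ext y
  change (∑ z, if φ.κ z = y then F.1 (q⁻¹ • z) else 0) =
    ∑ z, if φ.κ z = q⁻¹ • y then F.1 z else 0
  rw [← Equiv.sum_comp (MulAction.toPerm q)]
  simp [φ.k3, eq_inv_smul_iff]

theorem Mp.push_prod {U : Type} [Fintype U] (e : Z' × U ≃ Z) (h : ∀ z, φ.κ (e z) = z.1)
    (F : I.ev.M) (y : Z') : (φ.push F).1 y = ∑ u, F.1 (e (y, u)) := by
  change (∑ z, if φ.κ z = y then F.1 z else 0) = _
  rw [← Equiv.sum_comp e, Fintype.sum_prod_type, Finset.sum_comm]
  simp [h]

/-- Functions with vanishing fibre sums. -/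
noncomputable abbrev Mp.ker : Lat Q := I.ev.sub (LinearMap.ker φ.push) fun q F hF => by
  rw [Submodule.mem_comap, LinearMap.mem_ker, φ.push_eqv, hF, map_zero]

theorem Mp.ses (h : Ses τ) (s : Z' → Z) (s1 : ∀ y, φ.κ (s y) = y) (s2 : ∀ y, I'.D y → I.D (s y))
    (s3 : ∀ y, s (I'.ι y) = I.ι (s y)) : τ I.ev = τ φ.ker + τ I'.ev :=
  h _ _ _ (Submodule.subtype _) φ.push (fun _ _ => rfl) φ.push_eqv
    (Submodule.injective_subtype _) (fun F => ⟨⟨fun z => if z = s (φ.κ z) then F.1 (φ.κ z) else 0,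
      fun z => ⟨by simp only [φ.k1, s3, (Function.Involutive.injective I.inv).eq_iff, (F.2 _).1],
        fun a => by
          beta_reduce
          split_ifs with b
          exacts [(F.2 _).2 fun c => a (b ▸ s2 _ c), rfl]⟩⟩, by
      ext y
      change (∑ z, if φ.κ z = y then if z = s (φ.κ z) then F.1 (φ.κ z) else 0 else 0) = _
      rw [Finset.sum_eq_single (s y), s1, if_pos rfl, if_pos rfl]
      · intro z _ a
        split_ifs with b c
        exacts [(a (b ▸ c)).elim, rfl, rfl]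
      · simp⟩) fun F => ⟨fun a => ⟨⟨F, a⟩, rfl⟩, by rintro ⟨a, rfl⟩; exact a.2⟩

end Iv

end Lat

theorem sum_surj {A B : Type*} [AddCommGroup A] [AddCommGroup B] [Fintype A] [Fintype B]
    (f : A →+ B) (hf : Function.Surjective f) (b : B) (h : B → ℤ) :
    Fintype.card B * ∑ x, h (f x + b) = Fintype.card A * ∑ t, h t := by
  have (t : B) : ∑ x, h (f x + b) = ∑ x, h (f x + t) := by
    obtain ⟨y, rfl⟩ := hf (t - b) |>.imp fun y e => (sub_eq_iff_eq_add.1 e.symm)
    rw [← Equiv.sum_comp (Equiv.addRight y) fun x => h (f x + b)]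
    simp [add_assoc]
  rw [← nsmul_eq_mul, ← Finset.card_univ, ← Finset.sum_const, Finset.sum_congr rfl fun t _ => this t,
    Finset.sum_comm]
  exact (Finset.sum_congr rfl fun x _ => Equiv.sum_comp (Equiv.addLeft (f x)) h).trans (by simp)

/-- Affine actions on a vector space. -/
structure AA (Q : Type w) [Group Q] (F E : Type) [Field F] [AddCommGroup E] [Module F E]
    [MulAction Q E] where
  l : Q → E →ₗ[F] E
  h : ∀ q x y, q • x - q • y = l q (x - y)

namespace AA

variable {Q : Type w} [Group Q] {F E : Type} [Field F] [AddCommGroup E] [Module F E]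
variable [MulAction Q E] (A : AA Q F E)

theorem smul_eq (q : Q) (x : E) : q • x = A.l q x + q • (0 : E) := by
  rw [← sub_eq_iff_eq_add, A.h, sub_zero]

theorem l_one (x : E) : A.l 1 x = x := by simpa using (A.h 1 x 0).symm

theorem l_mul (a b : Q) (x : E) : A.l (a * b) x = A.l a (A.l b x) := by
  have := A.h (a * b) x 0
  rw [mul_smul, mul_smul, A.h, A.h, sub_zero] at this
  exact this.symm

/-- Linear forms. -/
def Du (_ : AA Q F E) : Type := Module.Dual F E

instance : AddCommGroup A.Du := inferInstanceAs (AddCommGroup (Module.Dual F E))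

instance : FunLike A.Du E F := inferInstanceAs (FunLike (Module.Dual F E) E F)

instance : LinearMapClass A.Du F E F := inferInstanceAs (LinearMapClass (Module.Dual F E) F E F)

theorem du_add (a b : A.Du) (x : E) : (a + b) x = a x + b x := rfl

theorem du_sub (a b : A.Du) (x : E) : (a - b) x = a x - b x := rfl

theorem du_surj {a : A.Du} (h : a ≠ 0) : Function.Surjective a :=
  LinearMap.surjective_iff_ne_zero.2 h

instance : MulAction Q A.Du where
  smul q a := (show Module.Dual F E from a) ∘ₗ A.l q⁻¹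
  one_smul a := LinearMap.ext fun x => congrArg a (by rw [inv_one, A.l_one])
  mul_smul p q a := LinearMap.ext fun x => congrArg a (by rw [mul_inv_rev, A.l_mul])

theorem du_smul (q : Q) (a : A.Du) (x : E) : (q • a) x = a (A.l q⁻¹ x) := rfl

noncomputable instance [Finite E] [Finite F] : Fintype A.Du :=
  @Fintype.ofFinite _ (DFunLike.finite (Module.Dual F E))

/-- Affine functions. -/
def Af : Type := A.Du × F

instance : AddCommGroup A.Af := inferInstanceAs (AddCommGroup (A.Du × F))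

noncomputable instance [Finite E] [Fintype F] : Fintype A.Af :=
  inferInstanceAs (Fintype (A.Du × F))

variable {A} in
/-- Evaluation. -/
def Af.ev (a : A.Af) (x : E) : F := a.1 x + a.2

instance : MulAction Q A.Af where
  smul q a := (q • a.1, a.ev (q⁻¹ • (0 : E)))
  one_smul a := Prod.ext (one_smul Q a.1) (by
    change a.1 _ + _ = _
    rw [inv_one, one_smul, map_zero, zero_add])
  mul_smul p q a := Prod.ext (mul_smul p q a.1) (by
    change a.1 _ + _ = a.1 _ + (a.1 _ + _)
    rw [mul_inv_rev, mul_smul, A.smul_eq, map_add, add_assoc])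

theorem af_fst (q : Q) (a : A.Af) : (q • a).1 = q • a.1 := rfl

theorem af_ev (q : Q) (a : A.Af) (x : E) : (q • a).ev x = a.ev (q⁻¹ • x) := by
  change a.1 _ + (a.1 _ + _) = a.1 _ + _
  rw [A.smul_eq _ x, map_add, add_assoc]

/-- Forms fixed up to sign. -/
def Fix (a : A.Du) : Prop := ∀ q : Q, q • a = a ∨ q • a = -a

/-- The scalars with trivial action. -/
def Sc (_ : AA Q F E) : Type := F

instance : MulAction Q A.Sc where
  smul _ a := a
  one_smul _ := rfl
  mul_smul _ _ _ := rfl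

instance [i : Fintype F] : Fintype A.Sc := i

theorem du_neg (q : Q) (a : A.Du) : q • -a = -(q • a) := rfl

theorem du_ne (q : Q) {a : A.Du} (h : a ≠ 0) : q • a ≠ 0 := fun e => h (by
  rw [← inv_smul_smul q a, e]; rfl)

/-- Nonzero scalars. -/
def i0 : Lat.Iv Q A.Sc :=
  ⟨fun s : F => -s, fun s : F => s ≠ 0, neg_neg (G := F), fun _ _ => rfl, fun _ _ => id,
    fun _ => neg_ne_zero.2⟩

/-- Nonzero scalars and points. -/
def i1 : Lat.Iv Q (A.Sc × E) :=
  ⟨fun z => (A.i0.ι z.1, z.2), fun z => A.i0.D z.1, fun z => Prod.ext (A.i0.inv z.1) rfl,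
    fun _ _ => rfl, fun _ _ => id, fun z => A.i0.h2 z.1⟩

/-- Nonzero forms. -/
def i3 (π : A.Du → Prop) (h : ∀ (q : Q) a, π a → π (q • a)) (k : ∀ a, π a → π (-a)) :
    Lat.Iv Q A.Du :=
  ⟨Neg.neg, fun a => a ≠ 0 ∧ π a, neg_neg, fun q a => (A.du_neg q a).symm,
    fun q a b => ⟨A.du_ne q b.1, h q a b.2⟩, fun a b => ⟨neg_ne_zero.2 b.1, k a b.2⟩⟩

/-- Nonconstant affine functions. -/
def i4 : Lat.Iv Q A.Af :=
  ⟨Neg.neg, fun a => a.1 ≠ 0, neg_neg, fun _ _ => Prod.ext rfl (neg_add _ _), fun q _ => A.du_ne q,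
    fun _ => neg_ne_zero.2⟩

theorem fix_smul (q : Q) (a : A.Du) (h : A.Fix a) : A.Fix (q • a) := fun p => by
  rcases h q with e | e <;> rw [e]
  · exact h p
  · rw [A.du_neg]
    exact (h p).imp (congrArg _) (congrArg _)

theorem fix_neg (a : A.Du) (h : A.Fix a) : A.Fix (-a) := fun p => by
  rw [A.du_neg]
  exact (h p).imp (congrArg _) (congrArg _)

/-- The projection to the scalars. -/
def m1 : A.i1.Mp A.i0 := ⟨Prod.fst, fun _ => rfl, fun _ => id, fun _ _ => rfl⟩

/-- The linear part. -/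
def m4 : A.i4.Mp (A.i3 (fun _ => True) (fun _ _ => id) fun _ => id) :=
  ⟨Prod.fst, fun _ => rfl, fun _ a => ⟨a, trivial⟩, fun _ _ => rfl⟩

open Classical

variable [Fintype F] [Fintype E]

theorem mem1 (f : A.m1.ker.M) (s : F) : ∑ e, f.1.1 (s, e) = 0 :=
  (A.m1.push_prod (.refl _) (fun _ => rfl) f.1 s).symm.trans (congrFun (congrArg Subtype.val f.2) s)

theorem mem4 (f : A.m4.ker.M) (a : A.Du) : ∑ b : F, f.1.1 (a, b) = 0 :=
  (A.m4.push_prod (U := F) (.refl _) (fun _ => rfl) f.1 a).symm.trans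
    (congrFun (congrArg Subtype.val f.2) a)

theorem mk1 (f : A.i1.ev.M) (h : ∀ s : F, ∑ e, f.1 (s, e) = 0) : A.m1.push f = 0 :=
  Subtype.ext (funext fun s => (A.m1.push_prod (.refl _) (fun _ => rfl) f s).trans (h s))

theorem mk4 (f : A.i4.ev.M) (h : ∀ a : A.Du, ∑ b : F, f.1 (a, b) = 0) : A.m4.push f = 0 :=
  Subtype.ext (funext fun s => (A.m4.push_prod (U := F) (.refl _) (fun _ => rfl) f s).trans (h s))

/-- The Radon transform. -/
noncomputable def rad : A.m1.ker.M →ₗ[ℤ] A.m4.ker.M where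
  toFun f := ⟨⟨fun a => ∑ e, f.1.1 (a.ev e, e), fun a => ⟨Finset.sum_congr rfl fun e _ =>
    (congrArg (fun s : F => f.1.1 (s, e)) (neg_add _ _).symm).trans (f.1.2 (a.ev e, e)).1,
      fun h => (Finset.sum_congr rfl fun e _ => congrArg (fun s : F => f.1.1 (s, e)) (by
        rw [Af.ev, show a.1 = 0 from not_not.1 h]; exact zero_add _)).trans (A.mem1 f a.2)⟩⟩,
    A.mk4 _ fun a => by
      rw [Finset.sum_comm]
      refine (Finset.sum_congr rfl fun e _ =>
        Equiv.sum_comp (Equiv.addLeft (a e)) fun s : F => f.1.1 (s, e)).trans ?_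
      rw [Finset.sum_comm]
      exact Finset.sum_eq_zero fun s _ => A.mem1 f s⟩
  map_add' _ _ := Subtype.ext (Subtype.ext (funext fun _ => Finset.sum_add_distrib))
  map_smul' _ _ := Subtype.ext (Subtype.ext (funext fun _ => (Finset.mul_sum _ _ _).symm))

theorem rad_eqv (q : Q) (f : A.m1.ker.M) : A.rad (A.m1.ker.T q f) = A.m4.ker.T q (A.rad f) := by
  ext a
  change ∑ e, f.1.1 (a.ev e, q⁻¹ • e) = ∑ e, f.1.1 ((q⁻¹ • a).ev e, e)
  rw [← Equiv.sum_comp (MulAction.toPerm q)]
  simp [af_ev]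

theorem rad_inj : Function.Injective A.rad := by
  refine (injective_iff_map_eq_zero _).2 fun f h => ?_
  have h1 (a : A.Af) : ∑ e, f.1.1 (a.ev e, e) = 0 := congrFun (congrArg (·.1.1) h) a
  have h2 (s : F) (e : E) : Fintype.card F * f.1.1 (s, e) = ∑ t : F, f.1.1 (t, e) := by
    have h3 : ∑ e', ∑ a : A.Du, f.1.1 (a (e' - e) + s, e') = 0 := by
      rw [Finset.sum_comm]
      refine Finset.sum_eq_zero fun a _ => (Finset.sum_congr rfl fun e' _ => ?_).trans
        (h1 (a, s - a e))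
      refine congrArg (fun t : F => f.1.1 (t, e')) ?_
      change _ = a e' + (s - a e)
      rw [map_sub]
      ring
    have h4 (e') (k : e' ≠ e) : Fintype.card F * ∑ a : A.Du, f.1.1 (a (e' - e) + s, e') =
        Fintype.card A.Du * ∑ t : F, f.1.1 (t, e') :=
      sum_surj (AddMonoidHom.mk' (fun a : A.Du => a (e' - e)) fun _ _ => rfl) (fun t => by
        obtain ⟨a, ha⟩ := Module.Projective.exists_dual_eq_one F (sub_ne_zero.2 k)
        exact ⟨t • a, by change t • a _ = t; rw [ha, smul_eq_mul, mul_one]⟩) s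
        fun t => f.1.1 (t, e')
    have h5 : ∑ e', ∑ t : F, f.1.1 (t, e') = 0 := by
      rw [Finset.sum_comm]
      exact Finset.sum_eq_zero fun s _ => A.mem1 f s
    have h6 := congrArg ((Fintype.card F : ℤ) * ·) h3
    simp only [mul_zero] at h6
    rw [← Finset.add_sum_erase _ _ (Finset.mem_univ e)] at h5 h6
    rw [mul_add, Finset.mul_sum (s := Finset.erase _ _), Finset.sum_congr rfl fun e' k =>
      h4 e' (Finset.ne_of_mem_erase k), ← Finset.mul_sum, eq_neg_of_add_eq_zero_right h5] at h6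
    simp only [sub_self, map_zero, zero_add, Finset.sum_const, Finset.card_univ,
      nsmul_eq_mul] at h6
    refine mul_left_cancel₀ (Nat.cast_ne_zero.2 (Fintype.card_ne_zero (α := A.Du))) ?_
    linear_combination h6
  ext ⟨s, e⟩
  have := (h2 s e).trans (h2 0 e).symm
  rw [(f.1.2 ((0 : F), e)).2 (fun k => k rfl), mul_zero] at this
  exact (mul_eq_zero.1 this).resolve_left (Nat.cast_ne_zero.2 Fintype.card_ne_zero)

theorem rad_surj (y : A.m4.ker.M) : ∃ x, A.rad x = (Fintype.card E : ℤ) • y := by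
  let β : F → E → ℤ := fun s e => ∑ a : A.Du, y.1.1 (a, s - a e)
  have h1 (a c : A.Du) (b : F) (h : c ≠ a) : ∑ e, y.1.1 (a, c e + b - a e) = 0 := by
    have := sum_surj (AddMonoidHom.mk' (c - a) (map_add _)) (A.du_surj (sub_ne_zero.2 h)) b
      fun t => y.1.1 (a, t)
    rw [A.mem4, mul_zero] at this
    rw [← (mul_eq_zero.1 this).resolve_left (Nat.cast_ne_zero.2 Fintype.card_ne_zero)]
    exact Finset.sum_congr rfl fun e _ => congrArg (fun t => y.1.1 (a, t)) (add_sub_right_comm _ _ _)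
  have h2 (c : A.Du) (b : F) : ∑ e, β (c e + b) e = Fintype.card E * y.1.1 (c, b) := by
    rw [Finset.sum_comm, Finset.sum_eq_single c (fun a _ h => h1 a c b h.symm) (by simp)]
    simp
  have h3 (s : F) : ∑ e, β s e = 0 := by
    have := h2 0 s
    rw [(y.1.2 (0, s)).2 (fun k => k rfl), mul_zero] at this
    rw [← this]
    exact Finset.sum_congr rfl fun e _ => congrArg (β · e) (zero_add s).symm
  refine ⟨⟨⟨fun z => β z.1 z.2 - β 0 z.2, fun z => ⟨congrArg (· - _) ?_, fun h => ?_⟩⟩,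
    A.mk1 _ fun s => by simp [h3]⟩, ?_⟩
  · refine (Equiv.sum_comp (Equiv.neg A.Du) _).symm.trans (Finset.sum_congr rfl fun a _ => ?_)
    exact (congrArg (fun t => y.1.1 (-a, t)) (neg_sub' _ _).symm).trans (y.1.2 (a, _)).1
  · beta_reduce
    rw [show z.1 = (0 : F) from not_not.1 h, sub_self]
  · ext a
    change ∑ e, (β (a.1 e + a.2) e - β 0 e) = _
    rw [Finset.sum_sub_distrib, h3, h2, sub_zero]
    rfl

end AA

open MP_5d3e93_al.Lat in
/-- The induction relation. -/
theorem swan {Q : Type w} [Group Q] {V : Type*} [AddCommGroup V] {τ : Lat Q → V} (h : Ses τ)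
    {p : ℕ} [Fact p.Prime] {E : Type} [AddCommGroup E] [Module (ZMod p) E] [Fintype E]
    [MulAction Q E] (A : AA Q (ZMod p) E) (h1 : ∀ L, Gr E (fun _ => True) L → τ L = 0)
    {X : Type} [Fintype X] [MulAction Q X] (π : A.Af → X) (a1 : ∀ (q : Q) a, π (q • a) = q • π a)
    (a2 : ∀ a, π (-a) = π a) (h2 : ∀ L, Gr X (fun x => ∃ a : A.Af, a.1 ≠ 0 ∧ π a = x) L → τ L = 0)
    {Y : Type} [Fintype Y] [MulAction Q Y] (κ : A.Du → Y) (b1 : ∀ (q : Q) a, κ (q • a) = q • κ a)
    (b2 : ∀ a, κ (-a) = κ a)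
    (h3 : ∀ L, Gr Y (fun y => ∃ a, a ≠ 0 ∧ ¬ A.Fix a ∧ κ a = y) L → τ L = 0)
    {c f : ℕ} (hc : 2 * c + 1 = p) (hf : 2 * f = Nat.card {a : A.Du // a ≠ 0 ∧ A.Fix a}) :
    ((c : ℤ) - f) ^ 2 • τ (int Q) = 0 := by
  classical
  have hp : (2 : ZMod p) ≠ 0 := fun e => by
    have : ((2 * c + 1 : ℕ) : ZMod p) = 0 := by rw [hc, ZMod.natCast_self]
    simp [e] at this
  let I := A.i3 A.Fix A.fix_smul A.fix_neg
  let J := A.i3 (¬ A.Fix ·) (fun q a b c => b (by simpa using A.fix_smul q⁻¹ _ c))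
    fun a b c => b (by simpa using A.fix_neg _ c)
  have r1 : finrank ℤ A.i0.ev.M = c := by
    have := A.i0.rank fun (z : ZMod p) a b => a (by
      have b' : -z = z := b
      have : 2 * z = 0 := by linear_combination -b'
      exact (mul_eq_zero.1 this).resolve_left hp)
    have e : Nat.card {z // A.i0.D z} = Nat.card {z : ZMod p // ¬ z = 0} := rfl
    rw [Nat.card_eq_fintype_card (α := {z : ZMod p // ¬ z = 0}), Fintype.card_subtype_compl,
      Fintype.card_subtype_eq, ZMod.card] at e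
    omega
  have r2 : finrank ℤ I.ev.M = f := by
    have := I.rank fun a b c => b.1 (DFunLike.ext _ _ fun x => by
      have c' : -a x = a x := DFunLike.congr_fun c x
      have : 2 * a x = 0 := by linear_combination -c'
      exact (mul_eq_zero.1 this).resolve_left hp)
    have e : Nat.card {z // I.D z} = _ := hf.symm
    omega
  have t1 (q) (m : A.i0.ev.M) : A.i0.ev.T q m = m := rfl
  have t2 (q) (m : I.ev.M) : I.ev.T q m = m := Subtype.ext (funext fun a => by
    by_cases k : I.D a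
    · rcases k.2 q⁻¹ with e | e <;> rw [Iv.ev_T, e]
      exact (m.2 a).1
    · rw [((I.ev.T q m).2 a).2 k, (m.2 a).2 k])
  have key {φ : Lat Q → V} (hφ : Ses φ) (k1 : φ A.i1.ev = 0) (k2 : φ A.i4.ev = 0)
      (k3 : φ J.ev = 0) : φ A.m1.ker = -φ A.i0.ev ∧ φ A.m4.ker = -φ I.ev := by
    have e1 := A.m1.ses hφ (fun s => (s, 0)) (fun _ => rfl) (fun _ => id) fun _ => rfl
    have e2 := A.m4.ses hφ (fun a => (a, 0)) (fun _ => rfl) (fun _ a => a.1) fun _ =>
      Prod.ext rfl neg_zero.symm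
    have hx (a : A.Du) : A.Fix (-a) ↔ A.Fix a := ⟨fun b => by simpa using A.fix_neg _ b, A.fix_neg a⟩
    have e3 := hφ I.ev (A.i3 (fun _ => True) (fun _ _ => id) fun _ => id).ev J.ev
      (Submodule.inclusion fun m b a => ⟨(b a).1, fun c => (b a).2 fun d => c ⟨d.1, trivial⟩⟩)
      (Iv.res _ J (¬ A.Fix ·) (fun a => (hx a).not) rfl fun a b c => ⟨b.1, c⟩) (fun _ _ => rfl)
      (fun q m => Subtype.ext (funext fun a => by
        rw [Iv.ev_T]
        by_cases b : A.Fix a
        · rw [Iv.res_neg (π := (¬ A.Fix ·)) _ _ (not_not.2 b),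
            Iv.res_neg (π := (¬ A.Fix ·)) _ _ (not_not.2 (A.fix_smul _ a b))]
        · have c : ¬ A.Fix (q⁻¹ • a) := fun c => b (by simpa using A.fix_smul q _ c)
          rw [Iv.res_pos (π := (¬ A.Fix ·)) _ _ b, Iv.res_pos (π := (¬ A.Fix ·)) _ _ c]
          rfl)) (Submodule.inclusion_injective _)
      (fun m => ⟨⟨m.1, fun a => ⟨(m.2 a).1, fun c => (m.2 a).2 fun d => c ⟨d.1, trivial⟩⟩⟩,
        Subtype.ext (funext fun a => by
          by_cases b : A.Fix a
          exacts [(Iv.res_neg (π := (¬ A.Fix ·)) _ _ (not_not.2 b)).trans ((m.2 a).2 fun d => d.2 b).symm,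
            Iv.res_pos (π := (¬ A.Fix ·)) _ _ b])⟩)
      fun m => ⟨fun e => ⟨⟨m.1, fun a => ⟨(m.2 a).1, fun c => by
        by_cases b : A.Fix a
        · exact (m.2 a).2 fun d => c ⟨d.1, b⟩
        · exact (Iv.res_pos (π := (¬ A.Fix ·)) _ _ b).symm.trans (congrFun (congrArg Subtype.val e) a)⟩⟩, rfl⟩, by
        rintro ⟨m, rfl⟩
        refine Subtype.ext (funext fun a => ?_)
        by_cases b : A.Fix a
        exacts [Iv.res_neg (π := (¬ A.Fix ·)) _ _ (not_not.2 b), (Iv.res_pos (π := (¬ A.Fix ·)) _ _ b).trans ((m.2 a).2 fun d => b d.2)]⟩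
    rw [k1] at e1
    rw [k2, e3, k3, add_zero] at e2
    exact ⟨eq_neg_of_add_eq_zero_left e1.symm, eq_neg_of_add_eq_zero_left e2.symm⟩
  have g1 : Gr E (fun _ => True) A.i1.ev := A.i1.gr Prod.snd (fun _ _ => rfl) (fun _ => rfl)
    fun _ _ => trivial
  have g2 := A.i4.gr (P := fun x => ∃ a : A.Af, a.1 ≠ 0 ∧ π a = x) π a1 a2 fun a b => ⟨a, b, rfl⟩
  have g3 := J.gr (P := fun y => ∃ a, a ≠ 0 ∧ ¬ A.Fix a ∧ κ a = y) κ b1 b2
    fun a b => ⟨a, b.1, b.2, rfl⟩
  have kl (N) := key (h.homl N) (h1 _ (g1.homl N)) (h2 _ (g2.homl N)) (h3 _ (g3.homl N))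
  have kr (N) := key (h.homr N) (h1 _ (g1.homr N)) (h2 _ (g2.homr N)) (h3 _ (g3.homr N))
  have tv (L N : Lat Q) (a : ∀ q m, L.T q m = m) (b : ∀ q m, N.T q m = m) :
      τ (L.hom N) = (finrank ℤ L.M * finrank ℤ N.M) • τ (int Q) := by
    rw [h.tv _ fun q m => by ext; simp [a, b], Module.finrank_linearMap]
  have := h.delta (p := p) A.rad A.rad_eqv A.rad_inj (k := finrank (ZMod p) E) fun y => by
    obtain ⟨x, hx⟩ := A.rad_surj y
    exact ⟨x, by rw [hx, Module.card_eq_pow_finrank (K := ZMod p), ZMod.card]; simp⟩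
  rw [(kl _).1, (kl _).1, (kl _).2, (kl _).2, (kr _).1, (kr _).1, (kr _).2, (kr _).2,
    tv _ _ t1 t1, tv _ _ t1 t2, tv _ _ t2 t1, tv _ _ t2 t2, r1, r2] at this
  simp only [neg_neg, ← natCast_zsmul, ← sub_smul] at this
  rw [← sub_eq_zero, ← sub_smul] at this
  rw [← neg_eq_zero, ← neg_smul, ← this]
  congr 1
  push_cast
  ring

end Pool.Agent.Lib.MP_5d3e93_al
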