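import Pool.Agent.Lib.MP_5d3e93_al.Vc
import Pool.Agent.Lib.MP_5d3e93_al.Asm

/-! The transfinite series of locally virtually polycyclic radicals. -/

open QuotientGroup

namespace Pool.Agent.Lib.MP_5d3e93_al

universe w

section

variable {G G₁ G₂ : Type*} [Group G] [Group G₁] [Group G₂] {H : Subgroup G} {m : ℕ}
variable {u : G →* G₁} {v : G →* G₂}

theorem inj_fst (k : u.ker ≤ v.ker) : Set.InjOn (MonoidHom.fst G₁ G₂) (H.map (u.prod v)) := by
  rintro _ ⟨a, -, rfl⟩ _ ⟨b, -, rfl⟩ (e : u a = u b)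
  exact Prod.ext e (inv_mul_eq_one.1 (by simpa using @k (a⁻¹ * b) (by simp [e])))

theorem PS.prod (h : PS m (H.map u)) (k : u.ker ≤ v.ker) : PS m (H.map (u.prod v)) :=
  h.comap (inj_fst k) (by rw [Subgroup.map_map]; exact le_rfl)

theorem PS.fac (h : PS m (H.map u)) (k : u.ker ≤ v.ker) : PS m (H.map v) := by
  simpa [Subgroup.map_map] using (h.prod k).map (.snd _ _)

theorem PS.tors (h : PS (m + 1) (H.map u)) (k : u.ker ≤ v.ker) (l : ¬ PS m (H.map v)) {a : G}
    (b : a ∈ H) (c : v a = 1) : IsOfFinOrder (u a) := by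
  have : ((H.map (u.prod v) ⊓ (MonoidHom.snd G₁ G₂).ker : Subgroup _) : Set (G₁ × G₂)).Finite :=
    by_contra fun e => by
      obtain ⟨j, d, f⟩ := (h.prod k).map'.2 e
      obtain rfl : m = j := by omega
      exact l (by simpa [Subgroup.map_map] using f)
  obtain ⟨n, d, e⟩ := (Fi.of_finite (H := ⊥) this).pow (x := (u a, v a)) ⟨⟨a, b, rfl⟩, c⟩
  exact isOfFinOrder_iff_pow_eq_one.2 ⟨n, d, congrArg Prod.fst e⟩

theorem fg_le {ι : Type*} [Nonempty ι] {K : ι → Subgroup G} (h : Directed (· ≤ ·) K) (a : H.FG)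
    (b : H ≤ ⨆ i, K i) : ∃ i, H ≤ K i := by
  classical
  obtain ⟨S, rfl⟩ := a
  choose! j hj using fun x (k : x ∈ ⨆ i, K i) => (Subgroup.mem_iSup_of_directed h).1 k
  obtain ⟨i, e⟩ := h.finset_le (S.image j)
  exact ⟨i, (Subgroup.closure_le _).2 fun x k => e _ (Finset.mem_image_of_mem _ k)
    (hj x (b (Subgroup.subset_closure k)))⟩

theorem fg_lift {K : Subgroup G₁} (a : K.FG) (b : K ≤ H.map u) : ∃ L ≤ H, L.FG ∧ L.map u = K := by
  obtain ⟨S, rfl, c⟩ := (Subgroup.fg_iff _).1 a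
  choose! j h1 h2 using fun x (k : x ∈ S) => b (Subgroup.subset_closure k)
  refine ⟨_, (Subgroup.closure_le _).2 (Set.forall_mem_image.2 h1), (Subgroup.fg_iff _).2
    ⟨_, rfl, c.image j⟩, ?_⟩
  rw [MonoidHom.map_closure, Set.image_image, Set.image_congr h2, Set.image_id']

theorem fg_map (a : H.FG) (u : G →* G₁) : (H.map u).FG := by
  obtain ⟨S, rfl, c⟩ := (Subgroup.fg_iff _).1 a
  exact (Subgroup.fg_iff _).2 ⟨_, (MonoidHom.map_closure u S).symm, c.image u⟩

variable (G) in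
/-- The radical. -/
def rad : Subgroup G := ⨆ N : {N : Subgroup G // N.Normal ∧ LP N}, N.1

instance : (rad G).Normal := @Subgroup.iSup_normal _ _ _ _ fun N => N.2.1

theorem lp_rad : LP (rad G) := fun _ a b =>
  have : Nonempty {N : Subgroup G // N.Normal ∧ LP N} := ⟨⊥, inferInstance, fun K c _ =>
    ⟨0, (Set.finite_singleton 1).subset c⟩⟩
  (fg_le (K := fun N : {N : Subgroup G // N.Normal ∧ LP N} => N.1) (fun ⟨N, _, c⟩ ⟨K, _, d⟩ =>
    ⟨⟨N ⊔ K, inferInstance, c.sup d⟩, le_sup_left, le_sup_right⟩) b a).elim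
      fun N c => N.2.2 _ c b

/-- The successor step. -/
def sg (M : Subgroup G) : Subgroup G := (rad _).comap (mk' M.normalCore)

instance (M : Subgroup G) : (sg M).Normal := Subgroup.Normal.comap inferInstance _

theorem le_sg (M : Subgroup G) [M.Normal] : M ≤ sg M := fun x k =>
  show (x : G ⧸ M.normalCore) ∈ rad _ from
    (eq_one_iff x).2 (M.normalCore_eq_self.ge k) ▸ one_mem _

theorem sg_comap {M : Subgroup G} {M' : Subgroup G₁} [M'.Normal] {f : G₁ →* G}
    (h : M.comap f ≤ M') : (sg M).comap f ≤ sg M' := Subgroup.map_le_iff_le_comap.1 <|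
  le_iSup (fun N : {N : Subgroup _ // N.Normal ∧ LP N} => N.1) ⟨_, .map inferInstance _
    (mk'_surjective _), fun K a b => by
      obtain ⟨L, c, d, rfl⟩ := fg_lift b a
      obtain ⟨m, e⟩ := lp_rad (L.map ((mk' M.normalCore).comp f)) (by
        rintro _ ⟨x, k, rfl⟩
        exact c k) (fg_map d _)
      exact ⟨m, e.fac fun x k => (eq_one_iff x).2 (M'.normalCore_eq_self.ge
        (h (M.normalCore_le ((eq_one_iff _).1 k))))⟩⟩

theorem sg_vp {M : Subgroup G} [M.Normal] (a : H.FG) (b : H ≤ sg M) : VP (H.map (mk' M)) :=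
  (lp_rad _ (Subgroup.map_le_iff_le_comap.2 b) (fg_map a _)).imp fun _ e => e.fac (by
    simp [M.normalCore_le])

end

/-- The radical series. -/
noncomputable def rs (D : Type w) [Group D] (α : Ordinal.{w}) : Subgroup D :=
  ⨆ β : Set.Iio α, sg (rs D β)
termination_by α
decreasing_by exact β.2

variable {D D' : Type w} [Group D] [Group D'] {α β : Ordinal.{w}} {m : ℕ}

instance : (rs D α).Normal := by
  rw [rs]
  infer_instance

theorem sg_le (h : β < α) : sg (rs D β) ≤ rs D α := by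
  rw [rs.eq_1 D α]
  exact le_iSup (fun β : Set.Iio α => sg (rs D β)) ⟨β, h⟩

theorem rs_dir : Directed (· ≤ ·) fun β : Set.Iio α => sg (rs D β) :=
  directed_of_isDirected_le fun _ _ c => c.eq_or_lt.elim (fun e => by rw [e])
    fun c => (sg_le c).trans (le_sg _)

theorem rs_comap {f : D' →* D} (h : Function.Injective f) : (rs D α).comap f ≤ rs D' α := by
  induction α using WellFoundedLT.induction with | ind α ih =>
  intro x k
  rw [rs, Subgroup.mem_comap] at k
  by_cases e : Nonempty (Set.Iio α)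
  · obtain ⟨β, l⟩ := (Subgroup.mem_iSup_of_directed rs_dir).1 k
    exact sg_le β.2 (sg_comap (ih _ β.2) l)
  · rw [not_nonempty_iff] at e
    rw [iSup_of_empty] at k
    rw [h (a₁ := x) (a₂ := 1) (by simpa using k)]
    exact one_mem _

theorem rs_fg {H : Subgroup D} (a : H.FG) (b : H ≤ rs D α) :
    H = ⊥ ∨ ∃ β < α, VP (H.map (mk' (rs D β))) := by
  rw [rs] at b
  by_cases e : Nonempty (Set.Iio α)
  · obtain ⟨β, l⟩ := fg_le rs_dir a b
    exact .inr ⟨β, β.2, sg_vp a l⟩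
  · rw [not_nonempty_iff] at e
    exact .inl (le_bot_iff.1 (b.trans_eq (iSup_of_empty _)))

theorem Hyper.top (h : Hyper D) : ∃ α, rs D α = ⊤ := by_contra fun k =>
  not_injective_of_ordinal (rs D) <| StrictMono.injective fun α β c => by
    refine ((le_sg _).lt_of_not_ge fun l => ?_).trans_le (sg_le c)
    obtain ⟨N, n1, n2, n3⟩ := h (rs D α).normalCore
      fun e => k ⟨α, top_le_iff.1 (e ▸ Subgroup.normalCore_le _)⟩
    refine n2 (eq_bot_iff.2 fun x e => ?_)
    obtain ⟨x, rfl⟩ := mk'_surjective _ x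
    exact (eq_one_iff x).2 ((Subgroup.normalCore_eq_self _).ge (l (le_iSup
      (fun N : {N : Subgroup _ // N.Normal ∧ LP N} => N.1) ⟨N, n1, fun H a b =>
        (n3 H a b).imp fun _ d => ps_sub.1 (pc_iff.1 d)⟩ e)))

/-- Groups that are virtually polycyclic modulo a term of the series. -/
def Sm (β : Ordinal.{w}) (m : ℕ) : Cl.{w} :=
  ⟨fun D _ => PS m ((⊤ : Subgroup D).map (mk' (rs D β))), fun f a b =>
    PS.fac (u := (mk' _).comp f) (b.le fun _ ⟨x, _, e⟩ => ⟨f x, trivial, e⟩) fun x k =>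
      (eq_one_iff x).2 (rs_comap a ((eq_one_iff (f x)).1 k))⟩

theorem Sm.of {U : Subgroup D} (h : PS m (U.map (mk' (rs D β)))) : (Sm β m).P U :=
  PS.fac (u := (mk' (rs D β)).comp U.subtype) (h.le fun _ ⟨x, _, e⟩ => ⟨x, x.2, e⟩) fun x k =>
    (eq_one_iff x).2 (rs_comap U.subtype_injective ((eq_one_iff x.1).1 k))

theorem Sm.top (h : (Sm β m).P D) : PS m (⊤ : Subgroup (D ⧸ rs D β)) :=
  PS.le h fun x _ => (mk'_surjective _ x).imp fun _ e => ⟨trivial, e⟩

theorem Sm.fg (h : (Sm β 0).P D) (a : (⊤ : Subgroup D).FG) :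
    Finite D ∨ ∃ γ < β, ∃ m, (Sm γ m).P D := by
  have b : Fi (rs D β) ⊤ := ((Fi.of_finite (H := ⊥) h).comap le_rfl).mono (by simp) le_rfl
  have := fi_top.1 b
  have := Group.fg_def.2 a
  obtain c | ⟨γ, c, m, d⟩ := rs_fg ((Group.fg_iff_subgroup_fg _).1 inferInstance) (le_refl (rs D β))
  · exact .inl (Set.finite_univ_iff.1 (b.finite (by simp [c])))
  · exact .inr ⟨γ, c, m, d.fi (Subgroup.map_mono le_top) (b.map _)⟩

theorem Sm.affine {A B : Subgroup D} (φ : A ≃* B) (h : (Sm β (m + 1)).P D) (k : ¬ (Sm β m).P B) :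
    ∃ n, 0 < n ∧ ∃ R : AR (HNNExtension D A B φ) n, OT _ (TF (Sm β m) R) := by
  have k' : ¬ (Sm β m).P A := fun e => k ((Sm β m).inj φ.symm.toMonoidHom φ.symm.injective e)
  have f {U : Subgroup D} (e : ¬ (Sm β m).P U) : Fi (U.map (mk' (rs D β))) ⊤ :=
    by_contra fun c => e (Sm.of ((Sm.top h).inf le_top c))
  have g {A B : Subgroup D} (φ : A ≃* B) (k : ¬ (Sm β m).P B) (a : A) (e : mk' (rs D β) a = 1) :
      IsOfFinOrder (mk' (rs D β) (φ a)) :=
    PS.tors (u := (mk' (rs D β)).comp B.subtype) (v := mk' (rs B β)) ((Sm.top h).le le_top) (fun x l => (eq_one_iff x).2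
      (rs_comap B.subtype_injective ((eq_one_iff x.1).1 l))) k trivial ((eq_one_iff _).2 (rs_comap
        (f := A.subtype.comp φ.symm.toMonoidHom) (A.subtype_injective.comp φ.symm.injective)
          (by simpa using e)))
  obtain ⟨n, a, R, b⟩ := MP_5d3e93_al.affine (Sm.top h) (fun e => k (Sm.of (e.le le_top))) _ (f k') (f k)
    (g φ k) (g φ.symm k')
  refine ⟨n, a, R, (Bs.ot φ).mono fun U ⟨x, c⟩ => ?_⟩
  let V := (U.map (MulAut.conj x⁻¹).toMonoidHom).comap HNNExtension.of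
  have d (u) : u ∈ U ↔ x⁻¹ * u * x ∈ V.map HNNExtension.of :=
    ⟨fun l => (c u l).imp fun y e => ⟨⟨u, l, by simp [e]⟩, e⟩, fun ⟨y, ⟨z, l, o⟩, e⟩ => by
      rwa [show u = z by simpa using e.symm.trans o.symm]⟩
  by_cases e : (Sm β m).P V
  · exact .inl (Cl.map (f := (MulAut.conj x⁻¹).toMonoidHom) (MulEquiv.injective _).injOn
      (by rintro _ ⟨u, l, rfl⟩; simpa using (d u).1 l) ((Sm β m).inj (MulEquiv.toMonoidHom _)
        (V.equivMapOfInjective _ (HNNExtension.of_injective φ)).symm.injective e))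
  · exact .inr ((b V (f e)).conj x d)

end Pool.Agent.Lib.MP_5d3e93_al
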