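import Pool.Agent.Lib.MP_5d3e93_al.Bd

/-! Reduction of Nil terms: cyclic moves and Lazard elimination. -/

open CategoryTheory
open scoped Pointwise

namespace Pool.Agent.Lib.MP_5d3e93_al

universe w v u

/-- Words of equal length with equal product have the same colour pattern. -/
def Sep {P : Type*} [Group P] {K : Type*} (c : P → K) (Ω : Set P) : Prop :=
  ∀ l l' : List P, (∀ a ∈ l, a ∈ Ω) → (∀ a ∈ l', a ∈ Ω) → l.length = l'.length →
    l.prod = l'.prod → l.map c = l'.map c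

/-- Reducible sets of group elements relative to a family of subgroups. -/
inductive Red {P : Type*} [Group P] (F : Subgroup P → Prop) : Set P → Prop
  | free {Ω : Set P} : Sep id Ω →
      (∀ l : List P, l ≠ [] → (∀ a ∈ l, a ∈ Ω) → ∃ N, F N ∧ l.prod ∈ N) → Red F Ω
  | move {Ω X Y : Set P} : Ω ⊆ X * Y → Red F (Y * X) → Red F Ω
  | elim {Ω Ω0 : Set P} {N : Subgroup P} : F N → Ω0 ⊆ N → Sep (· ∈ Ω0) Ω →
      Red F ((Submonoid.closure Ω0 : Set P) * (Ω \ Ω0)) → Red F Ω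

section Comb

variable {P : Type*} [Group P]

theorem Sep.inv {K : Type*} {c : P → K} {Ω : Set P} (h : Sep c Ω) :
    Sep (fun a => c a⁻¹) Ω⁻¹ := by
  intro l l' h1 h2 h3 h4
  have := h (l.map (·⁻¹)).reverse (l'.map (·⁻¹)).reverse
    (fun a ha => by simpa using h1 a⁻¹ (by simpa using ha))
    (fun a ha => by simpa using h2 a⁻¹ (by simpa using ha)) (by simpa using h3)
    (by rw [← List.prod_inv_reverse, ← List.prod_inv_reverse, h4])
  simpa [List.map_reverse, Function.comp_def] using this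

theorem Sep.congr {K K' : Type*} {c : P → K} {c' : P → K'} {Ω : Set P} (h : Sep c Ω)
    (f : K → K') (hf : ∀ a, c' a = f (c a)) : Sep c' Ω := by
  intro l l' h1 h2 h3 h4
  have := congrArg (List.map f) (h l l' h1 h2 h3 h4)
  simpa [funext hf, Function.comp_def] using this

theorem Red.mono {F : Subgroup P → Prop} {Ω Ω' : Set P} (h : Red F Ω) (hs : Ω' ⊆ Ω) :
    Red F Ω' :=
  .move (X := 1) (Y := Ω) (by simpa using hs) (by simpa using h)

theorem Red.inv {F : Subgroup P → Prop} {Ω : Set P} (h : Red F Ω) : Red F Ω⁻¹ := by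
  induction h with
  | free h1 h2 =>
    refine .free (h1.inv.congr (·⁻¹) (by simp)) fun l hl hs => ?_
    obtain ⟨N, hN, h⟩ := h2 (l.map (·⁻¹)).reverse (by simpa using hl)
      (fun a ha => by simpa using hs a⁻¹ (by simpa using ha))
    rw [← List.prod_inv_reverse] at h
    exact ⟨N, hN, by simpa using h⟩
  | @move Ω X Y h1 _ ih =>
    refine .move (X := Y⁻¹) (Y := X⁻¹) ?_ (by simpa using ih)
    rw [← mul_inv_rev]
    exact Set.inv_subset_inv.2 h1
  | @elim Ω Ω0 N h1 h2 h3 _ ih =>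
    refine .elim (Ω0 := Ω0⁻¹) h1 (fun a ha => by simpa using h2 ha) (h3.inv.congr id (by simp)) ?_
    refine .move subset_rfl (ih.mono ?_)
    rw [mul_inv_rev, Submonoid.closure_inv]
    exact Set.mul_subset_mul (fun a ha => ha) (fun a ha => ha)

end Comb

/-- Product of a list of endomorphisms. -/
def lp {C : Type u} [Category.{v} C] {A : C} : List (A ⟶ A) → (A ⟶ A)
  | [] => 𝟙 A
  | a :: l => a ≫ lp l

section

variable {C : Type u} [Category.{v} C] {A : C} {K : Type*}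

theorem lp_append (l l' : List (A ⟶ A)) : lp (l ++ l') = lp l ≫ lp l' := by
  induction l with
  | nil => simp [lp]
  | cons a l ih => simp [lp, ih]

/-- Words of length at least `k`. -/
def Wd (q : K → (A ⟶ A)) (k : ℕ) : Set (A ⟶ A) :=
  {a | ∃ κ : List K, k ≤ κ.length ∧ a = lp (κ.map q)}

theorem Wd.mul {q : K → (A ⟶ A)} {k l : ℕ} {a b : A ⟶ A} (ha : a ∈ Wd q k) (hb : b ∈ Wd q l) :
    a ≫ b ∈ Wd q (k + l) := by
  obtain ⟨κ, h1, rfl⟩ := ha
  obtain ⟨κ', h2, rfl⟩ := hb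
  exact ⟨κ ++ κ', by simp; omega, by rw [List.map_append, lp_append]⟩

theorem Wd.anti {q : K → (A ⟶ A)} {k l : ℕ} (h : k ≤ l) : Wd q l ⊆ Wd q k :=
  fun _ ⟨κ, h1, h2⟩ => ⟨κ, h.trans h1, h2⟩

theorem Wd.one (q : K → (A ⟶ A)) (k : K) : q k ∈ Wd q 1 := ⟨[k], by simp, by simp [lp]⟩

theorem Wd.pw {q : K → (A ⟶ A)} {a : A ⟶ A} (ha : a ∈ Wd q 1) (n : ℕ) : pw a n ∈ Wd q n := by
  induction n with
  | zero => exact ⟨[], by simp, rfl⟩
  | succ n ih => rw [pw_succ, add_comm]; exact Wd.mul ha ih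

variable [Preadditive C]

theorem Wd.cmul {q : K → (A ⟶ A)} {k l : ℕ} {a b : A ⟶ A}
    (ha : a ∈ AddSubmonoid.closure (Wd q k)) (hb : b ∈ AddSubmonoid.closure (Wd q l)) :
    a ≫ b ∈ AddSubmonoid.closure (Wd q (k + l)) := by
  induction ha using AddSubmonoid.closure_induction with
  | mem a ha =>
    induction hb using AddSubmonoid.closure_induction with
    | mem b hb => exact AddSubmonoid.subset_closure (Wd.mul ha hb)
    | zero => simp
    | add x y _ _ h1 h2 => simpa using add_mem h1 h2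
  | zero => simp
  | add x y _ _ h1 h2 => simpa using add_mem h1 h2

theorem Wd.cpw {q : K → (A ⟶ A)} {a : A ⟶ A} (ha : a ∈ AddSubmonoid.closure (Wd q 1)) (n : ℕ) :
    MP_5d3e93_al.pw a n ∈ AddSubmonoid.closure (Wd q n) := by
  induction n with
  | zero => exact AddSubmonoid.subset_closure ⟨[], by simp, rfl⟩
  | succ n ih => rw [pw_succ, add_comm]; exact Wd.cmul ha ih

theorem Wd.czero {q : K → (A ⟶ A)} {m : ℕ} (h : ∀ a ∈ Wd q m, a = 0) {a : A ⟶ A}
    (ha : a ∈ AddSubmonoid.closure (Wd q m)) : a = 0 := by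
  induction ha using AddSubmonoid.closure_induction with
  | mem a ha => exact h a ha
  | zero => rfl
  | add x y _ _ h1 h2 => rw [h1, h2, add_zero]

end

namespace GC

variable {G : Type w} [Group G] {C : Type u} [Category.{v} C] [Preadditive C] {S : GC G C}
variable {A B : C} {H : Subgroup G} {K : Type*}

theorem Sup.factor {X Y : Set G} {x : A ⟶ B} (h : S.Sup (X * Y) x) :
    ∃ (D : C) (a : A ⟶ D) (b : D ⟶ B), S.Sup X a ∧ S.Sup Y b ∧ a ≫ b = x := by
  refine h.induction (P := fun x => ∃ (D : C) (a : A ⟶ D) (b : D ⟶ B),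
    S.Sup X a ∧ S.Sup Y b ∧ a ≫ b = x) ⟨A, 0, 0, .zero, .zero, by simp⟩ ?_ ?_
  · rintro _ _ ⟨D, a, b, h1, h2, rfl⟩ ⟨D', a', b', h3, h4, rfl⟩
    exact ⟨S.sum D D', a ≫ S.inl D D' + a' ≫ S.inr D D', S.fst D D' ≫ b + S.snd D D' ≫ b',
      (h1.comp_one (S.cp_inl _ _)).add (h3.comp_one (S.cp_inr _ _)),
      (Sup.one_comp (S.cp_fst _ _) h2).add (.one_comp (S.cp_snd _ _) h4), by simp⟩
  · rintro _ ⟨g, hg, k, hk, rfl⟩
    obtain ⟨D, f, f', t1, t2, t3, -⟩ := S.shift B k⁻¹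
    exact ⟨D, S.cp (g * k) x ≫ f, f', .of_cp (S.cp_comp (S.cp_same _ _) t1) (by simpa using hg),
      .of_cp t2 (by simpa using hk), by simp [t3]⟩

theorem Good.move {Ω X Y : Set G} (hX : X ⊆ H) (hY : Y ⊆ H) (h : Ω ⊆ X * Y)
    (hg : S.Good H (Y * X)) : S.Good H Ω := by
  rintro A x hx ⟨m, hm⟩
  obtain ⟨D, a, b, h1, h2, rfl⟩ := (hx.mono h).factor
  exact Tr.cyc (h1.mono hX) (h2.mono hY) (hg _ _
    (h2.comp h1 fun _ hy _ hx => Set.mul_mem_mul hy hx) ⟨m + 1, by simp [pw_cyc, hm]⟩)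

theorem Sup.pw {x : A ⟶ A} (h : S.Sup H x) (n : ℕ) : S.Sup H (pw x n) := by
  induction n with
  | zero => exact .id H.one_mem
  | succ n ih => exact h.scomp ih

theorem iso_unip {x : A ⟶ A} (h : S.Sup H x) {m : ℕ} (hm : pw x m = 0) : S.Iso H (𝟙 A - x) :=
  ⟨(Sup.id H.one_mem).sub h, _, .sum _ fun j _ => h.pw j, by rw [geom_left x m, hm, sub_zero],
    by rw [geom_right x m, hm, sub_zero]⟩

theorem lazard {q : K → (A ⟶ A)} {m : ℕ} (h0 : ∀ a ∈ Wd q m, a = 0)
    (h1 : ∀ a ∈ Wd q 1, S.Tr H (𝟙 A - a)) (d : ℕ) :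
    ∀ w, 1 ≤ w → m ≤ w + d → ∀ c ∈ AddSubmonoid.closure (Wd q w), S.Tr H (𝟙 A - c) := by
  induction d with
  | zero =>
    intro w _ hw c hc
    rw [Wd.czero (fun a ha => h0 a (Wd.anti (by omega) ha)) hc, sub_zero]
    exact .id
  | succ d ih =>
    intro w hw hm c hc
    obtain ⟨l, hl, rfl⟩ := AddSubmonoid.exists_list_of_mem_closure hc
    suffices ∀ c' ∈ AddSubmonoid.closure (Wd q (w + 1)), S.Tr H (𝟙 A - (l.sum + c')) by
      simpa using this 0 (zero_mem _)
    clear hc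
    induction l with
    | nil => simpa using ih (w + 1) (by omega) (by omega)
    | cons x l ihl =>
      intro c' hc'
      have hx : x ∈ Wd q w := hl x (by simp)
      have hx1 : x ∈ Wd q 1 := Wd.anti hw hx
      have hl' : ∀ y ∈ l, y ∈ Wd q w := fun y hy => hl y (by simp [hy])
      have hr : l.sum + c' ∈ AddSubmonoid.closure (Wd q w) :=
        add_mem (AddSubmonoid.list_sum_mem _ fun y hy => AddSubmonoid.subset_closure (hl' y hy))
          (AddSubmonoid.closure_mono (Wd.anti (by omega)) hc')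
      have e0 : pw x (m + 1) = 0 := h0 _ (Wd.anti (by omega) (Wd.pw hx1 _))
      have e : 𝟙 A - ((x :: l).sum + c') = (𝟙 A - x) ≫ (𝟙 A - (l.sum + (c' +
          ∑ j ∈ Finset.range m, pw x (j + 1) ≫ (l.sum + c')))) := by
        have := congrArg (· ≫ (l.sum + c')) (geom_left x (m + 1))
        simp only [e0, sub_zero, Category.id_comp, Finset.sum_range_succ', pw_zero,
          Category.assoc, Preadditive.add_comp, Preadditive.sum_comp] at this
        rw [Preadditive.comp_sub, ← add_assoc l.sum, add_comm (l.sum + c'), this, List.sum_cons]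
        simp only [Category.comp_id]
        abel
      rw [e]
      refine (h1 x hx1).comp (ihl hl' _ (add_mem hc' (sum_mem fun j _ => ?_)))
      exact AddSubmonoid.closure_mono (Wd.anti (by omega))
        (Wd.cmul (AddSubmonoid.subset_closure (Wd.pw hx1 (j + 1))) hr)

theorem sup_word {c : G → K} {Ω : Set G} {x : A ⟶ A} (hx : S.Sup Ω x) (κ : List K) :
    S.Sup {g | ∃ l : List G, (∀ a ∈ l, a ∈ Ω) ∧ l.map c = κ ∧ l.prod = g}
      (lp (κ.map fun k => S.proj {g | c g = k} x)) := by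
  induction κ with
  | nil => exact .id ⟨[], by simp, rfl, rfl⟩
  | cons k κ ih =>
    refine (hx.proj _).comp ih ?_
    rintro a ⟨h1, h2⟩ _ ⟨l, h3, h4, rfl⟩
    exact ⟨a :: l, by simpa using ⟨h1, h3⟩, by simpa using ⟨h2, h4⟩, by simp⟩

theorem sup_pw {Ω : Set G} {x : A ⟶ A} (hx : S.Sup Ω x) (m : ℕ) :
    S.Sup {g | ∃ l : List G, (∀ a ∈ l, a ∈ Ω) ∧ l.length = m ∧ l.prod = g} (pw x m) := by
  induction m with
  | zero => exact .id ⟨[], by simp, rfl, rfl⟩
  | succ m ih =>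
    refine hx.comp ih ?_
    rintro a h1 _ ⟨l, h3, h4, rfl⟩
    exact ⟨a :: l, by simpa using ⟨h1, h3⟩, by simpa using h4, by simp⟩

theorem sup_pw_sub {c : G → K} {Ω : Set G} {x : A ⟶ A} (hx : S.Sup Ω x) (κ : List K) :
    S.Sup {g | ∃ l : List G, (∀ a ∈ l, a ∈ Ω) ∧ l.length = κ.length ∧ l.map c ≠ κ ∧ l.prod = g}
      (pw x κ.length - lp (κ.map fun k => S.proj {g | c g = k} x)) := by
  induction κ with
  | nil => simpa [lp] using Sup.zero
  | cons k κ ih =>
    have e : pw x (k :: κ).length - lp ((k :: κ).map fun k => S.proj {g | c g = k} x) =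
        (x - S.proj {g | c g = k} x) ≫ pw x κ.length + S.proj {g | c g = k} x ≫
          (pw x κ.length - lp (κ.map fun k => S.proj {g | c g = k} x)) := by
      simp [pw_succ, lp]
    rw [e]
    refine ((hx.sub_proj _).comp (sup_pw hx _) ?_).add ((hx.proj _).comp ih ?_)
    · rintro a ⟨h1, h2⟩ _ ⟨l, h3, h4, rfl⟩
      exact ⟨a :: l, by simpa using ⟨h1, h3⟩, by simpa using h4,
        fun e => h2 (by simpa using (List.cons.inj e).1), by simp⟩
    · rintro a ⟨h1, -⟩ _ ⟨l, h3, h4, h5, rfl⟩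
      exact ⟨a :: l, by simpa using ⟨h1, h3⟩, by simpa using h4,
        fun e => h5 (List.cons.inj e).2, by simp⟩

theorem word_zero {c : G → K} {Ω : Set G} (hs : Sep c Ω) {x : A ⟶ A} (hx : S.Sup Ω x) {m : ℕ}
    (hm : pw x m = 0) : ∀ a ∈ Wd (fun k => S.proj {g | c g = k} x) m, a = 0 := by
  rintro _ ⟨κ, hκ, rfl⟩
  have h : (κ.take m).length = m := by simpa using hκ
  have := sup_pw_sub (c := c) hx (κ.take m)
  rw [h, hm, zero_sub] at this
  have e := (sup_word (c := c) hx (κ.take m)).eq_zero (by simpa using this.neg) (by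
    rintro _ ⟨l, h1, h2, rfl⟩ ⟨l', h3, h4, h5, h6⟩
    refine h5 ((hs l' l h3 h1 ?_ h6).trans h2)
    rw [h4, ← h, ← h2, List.length_map])
  rw [← List.take_append_drop m κ, List.map_append, lp_append, e, Limits.zero_comp]

theorem Good.free {c : G → K} {Ω : Set G} (hs : Sep c Ω)
    (h : ∀ l0 : List G, l0 ≠ [] → (∀ a ∈ l0, a ∈ Ω) → ∃ N ≤ H, S.W N ∧
      ∀ l : List G, (∀ a ∈ l, a ∈ Ω) → l.map c = l0.map c → l.prod ∈ N) : S.Good H Ω := by
  classical
  rintro A x hx ⟨m, hm⟩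
  have h0 := word_zero hs hx hm
  refine lazard h0 ?_ m 1 le_rfl (by omega) x ?_
  · intro a ha
    have h1 := h0 _ (Wd.pw ha m)
    obtain ⟨κ, hκ, rfl⟩ := ha
    by_cases hk : ∃ l0 : List G, (∀ a ∈ l0, a ∈ Ω) ∧ l0.map c = κ
    · obtain ⟨l0, h2, rfl⟩ := hk
      obtain ⟨N, hN, hW, hl⟩ := h l0 (by rintro rfl; simp at hκ) h2
      refine (hW _ _ _ (iso_unip ((sup_word hx _).mono ?_) h1)).mono hN
      rintro _ ⟨l, h1, h2, rfl⟩
      exact hl l h1 h2
    · rw [(sup_word (c := c) hx κ).eq_zero (sup_word (c := c) hx κ)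
        fun _ ⟨l, h1, h2, _⟩ _ => hk ⟨l, h1, h2⟩, sub_zero]
      exact .id
  · have e : x = ∑ k ∈ (S.fin x).toFinset.image c, S.proj {g | c g = k} x := by
      refine ext_cp (S := S) fun g => ?_
      simp only [map_sum, cp_proj, Set.mem_ofPred_eq, Finset.sum_ite_eq]
      split_ifs with hg
      · rfl
      · by_contra hne
        exact hg (Finset.mem_image_of_mem c (by simpa using hne))
    have := sum_mem (S := AddSubmonoid.closure (Wd (fun k => S.proj {g | c g = k} x) 1))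
      (t := (S.fin x).toFinset.image c) fun k _ => AddSubmonoid.subset_closure (Wd.one _ k)
    rwa [← e] at this

theorem Good.elim {Ω Ω0 : Set G} {N : Subgroup G} (hN : N ≤ H) (hW : S.W N) (h0 : Ω0 ⊆ N)
    (hs : Sep (· ∈ Ω0) Ω) (hg : S.Good H ((Submonoid.closure Ω0 : Set G) * (Ω \ Ω0))) :
    S.Good H Ω := by
  rintro A x hx ⟨m, hm⟩
  have hz := word_zero hs hx hm
  set q := fun k : Prop => S.proj {g | (g ∈ Ω0) = k} x with hq
  have e0 : q True = S.proj Ω0 x := by simp [hq]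
  have e1 : q False = x - S.proj Ω0 x := by
    refine ext_cp (S := S) fun g => ?_
    by_cases hg : g ∈ Ω0 <;> simp [hq, cp_proj, hg]
  have s0 : S.Sup Ω0 (q True) := e0 ▸ S.sup_proj _ _
  have n0 : pw (q True) m = 0 := hz _ (Wd.pw (Wd.one q True) m)
  have e : 𝟙 A - x = (𝟙 A - q True) ≫
      (𝟙 A - (∑ j ∈ Finset.range m, pw (q True) j) ≫ q False) := by
    rw [Preadditive.comp_sub, ← Category.assoc, geom_left, n0, e1, e0]
    simp
  rw [e]
  refine ((hW _ _ _ (iso_unip (s0.mono h0) n0)).mono hN).comp (hg _ _ ?_ ⟨m, Wd.czero hz ?_⟩)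
  · refine Sup.comp (X := Submonoid.closure Ω0) (Y := Ω \ Ω0) (.sum _ fun j _ => ?_)
      (e1 ▸ hx.sub_proj _) fun _ h1 _ h2 => Set.mul_mem_mul h1 h2
    induction j with
    | zero => exact .id (one_mem _)
    | succ j ih =>
      exact s0.comp (ih (Finset.mem_range.2 (by have := Finset.mem_range.1 ‹_›; omega)))
        fun a ha b hb => mul_mem (Submonoid.subset_closure ha) hb
  · refine Wd.cpw ?_ m
    exact Wd.cmul (k := 0) (l := 1) (sum_mem fun j _ => AddSubmonoid.subset_closure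
      (Wd.anti (Nat.zero_le j) (Wd.pw (Wd.one q True) j)))
      (AddSubmonoid.subset_closure (Wd.one q False))

variable {Γ : Type*} [Group Γ] {P : Type*} [Group P]

theorem sep_pull {j : Γ →* G} {r : G → Γ} (hr : Function.LeftInverse r j) (p : Γ →* P)
    {c : P → K} {Ω : Set P} (h : Sep c Ω) : Sep (fun g => c (p (r g))) (j '' (p ⁻¹' Ω)) := by
  have key : ∀ l : List G, (∀ a ∈ l, a ∈ j '' (p ⁻¹' Ω)) →
      (∀ a ∈ l.map (fun g => p (r g)), a ∈ Ω) ∧ j (l.map r).prod = l.prod := by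
    intro l hl
    induction l with
    | nil => simp
    | cons a l ih =>
      obtain ⟨γ, h1, rfl⟩ := hl a (by simp)
      obtain ⟨h2, h3⟩ := ih fun b hb => hl b (by simp [hb])
      exact ⟨by simpa [hr γ] using ⟨h1, by simpa using h2⟩, by simp [hr γ, h3]⟩
  intro l l' h1 h2 h3 h4
  have e : (l.map r).prod = (l'.map r).prod :=
    hr.injective (by rw [(key l h1).2, (key l' h2).2, h4])
  have := h _ _ (key l h1).1 (key l' h2).1 (by simpa using h3) (by
    simpa [map_list_prod, Function.comp_def] using congrArg p e)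
  simpa [Function.comp_def] using this

theorem Red.good {j : Γ →* G} (hj : Function.Injective j) {p : Γ →* P}
    (hp : Function.Surjective p) {F : Subgroup P → Prop}
    (hF : ∀ N, F N → S.W ((N.comap p).map j)) {Ω : Set P} (h : Red F Ω) :
    S.Good j.range (j '' (p ⁻¹' Ω)) := by
  obtain ⟨r, hr⟩ := hj.hasLeftInverse
  have hs : ∀ X : Set P, j '' (p ⁻¹' X) ⊆ j.range := fun X => by
    rintro _ ⟨γ, -, rfl⟩
    exact ⟨γ, rfl⟩
  have hm : ∀ X Y : Set P, j '' (p ⁻¹' X) * j '' (p ⁻¹' Y) ⊆ j '' (p ⁻¹' (X * Y)) := by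
    rintro X Y _ ⟨_, ⟨a, ha, rfl⟩, _, ⟨b, hb, rfl⟩, rfl⟩
    exact ⟨a * b, by simpa using Set.mul_mem_mul (s := X) (t := Y) ha hb, by simp⟩
  have gm : ∀ X Y : Set G, X ⊆ Y → S.Good j.range Y → S.Good j.range X :=
    fun X Y h hY A x hx => hY A x (hx.mono h)
  induction h with
  | @free Ω h1 h2 =>
    refine Good.free (sep_pull hr p h1) fun l0 hl0 hk => ?_
    obtain ⟨N, hN, h⟩ := h2 (l0.map fun g => id (p (r g))) (by simpa using hl0) (by
      intro a ha
      obtain ⟨b, hb, rfl⟩ := List.mem_map.1 ha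
      obtain ⟨γ, h3, rfl⟩ := hk b hb
      simpa [hr γ] using h3)
    refine ⟨_, Subgroup.map_le_range _ _, hF N hN, fun l hl e => ?_⟩
    rw [← e] at h
    suffices ∃ γ, p γ = (l.map fun g => id (p (r g))).prod ∧ j γ = l.prod by
      obtain ⟨γ, h3, h4⟩ := this
      exact ⟨γ, by simpa [h3] using h, h4⟩
    clear h e
    induction l with
    | nil => exact ⟨1, by simp⟩
    | cons a l ih =>
      obtain ⟨γ, -, rfl⟩ := hl a (by simp)
      obtain ⟨δ, h3, h4⟩ := ih fun b hb => hl b (by simp [hb])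
      exact ⟨γ * δ, by simpa [hr γ] using h3, by simp [h4]⟩
  | @move Ω X Y h1 _ ih =>
    refine Good.move (hs X) (hs Y) ?_ (gm _ _ (hm Y X) ih)
    rintro _ ⟨γ, hγ, rfl⟩
    obtain ⟨a, ha, b, hb, e⟩ := h1 hγ
    obtain ⟨α, rfl⟩ := hp a
    exact ⟨_, ⟨α, ha, rfl⟩, _, ⟨α⁻¹ * γ, by simpa [← e] using hb, rfl⟩, by simp⟩
  | @elim Ω Ω0 N h1 h2 h3 _ ih =>
    refine Good.elim (Ω0 := j '' (p ⁻¹' Ω0)) (Subgroup.map_le_range _ _) (hF N h1) ?_ ?_
      (gm _ _ ?_ ih)
    · rintro _ ⟨γ, hγ, rfl⟩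
      exact ⟨γ, h2 hγ, rfl⟩
    · intro l l' a1 a2 a3 a4
      have k : ∀ l : List G, (∀ a ∈ l, a ∈ j '' (p ⁻¹' Ω)) →
          l.map (· ∈ j '' (p ⁻¹' Ω0)) = l.map (fun g => p (r g) ∈ Ω0) := fun l hl =>
        List.map_congr_left fun a ha => by
          obtain ⟨γ, -, rfl⟩ := hl a ha
          simp [hr γ, hj.eq_iff]
      rw [k l a1, k l' a2]
      exact sep_pull hr p h3 l l' a1 a2 a3 a4
    · refine subset_trans (Set.mul_subset_mul ?_ ?_) (hm _ _)
      · intro g hg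
        induction hg using Submonoid.closure_induction with
        | mem _ h =>
          obtain ⟨γ, hγ, rfl⟩ := h
          exact ⟨γ, Submonoid.subset_closure hγ, rfl⟩
        | one => exact ⟨1, by simp, by simp⟩
        | mul _ _ _ _ h1 h2 =>
          obtain ⟨γ, hγ, rfl⟩ := h1
          obtain ⟨δ, hδ, rfl⟩ := h2
          exact ⟨γ * δ, by simpa using mul_mem hγ hδ, by simp⟩
      · rintro _ ⟨⟨γ, hγ, rfl⟩, h⟩
        exact ⟨γ, ⟨hγ, fun h' => h ⟨γ, h', rfl⟩⟩, rfl⟩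

end GC

end Pool.Agent.Lib.MP_5d3e93_al
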