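import Pool.Agent.Lib.MP_5d3e93_al.Mark

/-! Long thin covers of solenoids. -/

open Topology Set Filter Module

namespace Pool.Agent.Lib.MP_5d3e93_al

universe w

variable {n : ℕ}

theorem tm {T : (Fin n → ℚ) →ₗ[ℚ] Fin n → ℚ} (h : ∀ v ∈ Zn n, T v ∈ Zn n) :
    ∃ c : Fin n → Fin n → ℤ, ∀ v, tor (T v) = fun i => ∑ j, c j i • tor v j := by
  choose c hc using fun j => mem_zn.1 (h _ (single_zn j))
  refine ⟨c, fun v => funext fun i => ?_⟩
  conv_lhs => rw [pi_eq_sum_univ' v, map_sum]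
  simp only [tor, ← AddCircle.coe_zsmul, ← QuotientAddGroup.mk_sum, map_smul, Finset.sum_apply,
    Pi.smul_apply, ← hc]
  congr 1
  push_cast
  simp [mul_comm]

theorem den (T : (Fin n → ℚ) →ₗ[ℚ] Fin n → ℚ) :
    ∃ N : ℕ, 0 < N ∧ ∀ v ∈ Zn n, (N : ℚ) • T v ∈ Zn n := by
  obtain ⟨N, a, b⟩ := ex_mul zn_span (zn_fg.map (T.restrictScalars ℤ))
  exact ⟨N, a, fun v k => by simpa [Nat.cast_smul_eq_nsmul] using b _ ⟨v, k, rfl⟩⟩

theorem zn_nat {v : Fin n → ℚ} (h : v ∈ Zn n) (N : ℕ) : (N : ℚ) • v ∈ Zn n := by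
  rw [Nat.cast_smul_eq_nsmul]
  exact nsmul_mem h _

theorem tor_congr {v w : Fin n → ℚ} (h : v - w ∈ Zn n) : tor v = tor w := by
  rw [← sub_add_cancel v w, tor_add, tor_zn h, zero_add]

theorem tor_sub (v w : Fin n → ℚ) : tor (v - w) = tor v - tor w := by ext i; simp [tor]

variable {Γ : Type w} [Group Γ] [MulAction Γ (Fin n → ℚ)] {A : AA Γ ℚ (Fin n → ℚ)} {χ : Ch Γ}

theorem reps {t : Γ} (ht : χ t = 1) (hf : (A.l '' {g | χ g = 0}).Finite) (L : ℤ) :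
    ∃ F : Set Γ, F.Finite ∧ F ⊆ {g | |χ g| ≤ L} ∧
      ∀ g, |χ g| ≤ L → ∃ k ∈ F, χ k = χ g ∧ A.l k = A.l g := by
  have : ((fun g => (χ g, A.l g)) '' {g | |χ g| ≤ L}).Finite := by
    refine (((finite_Icc (-L) L).prod hf).image fun x => (x.1, A.l (t ^ x.1) ∘ₗ x.2)).subset ?_
    rintro _ ⟨g, k, rfl⟩
    refine ⟨(χ g, A.l ((t ^ χ g)⁻¹ * g)), ⟨abs_le.1 k, _, by simp [ht], rfl⟩, Prod.ext rfl
      (LinearMap.ext fun v => by simp [← A.l_mul])⟩
  obtain ⟨F, f1, f2, f3⟩ := this.exists_subset_finite_image_eq subset_rfl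
  exact ⟨F, f2, f1, fun g k => by simpa using f3.ge ⟨g, k, rfl⟩⟩

variable (A χ) in
/-- Invariant systems of compatible positions. -/
structure Sy where
  Y : Set (Γ → Fin n → ℚ)
  inv : ∀ y ∈ Y, ∀ h, (fun g => y (h * g)) ∈ Y
  ker : ∀ y ∈ Y, ∀ g d, χ d = 0 → y (g * d) = A.l d⁻¹ (y g)
  rel : ∀ a, ∃ N : ℕ, 0 < N ∧ ∀ y ∈ Y, ∀ g, (N : ℚ) • (y (g * a) - A.l a⁻¹ (y g)) ∈ Zn n

namespace Sy

variable (s : Sy A χ)

/-- The solenoid. -/
def S : Set (Γ → Fin n → UnitAddCircle) := closure ((fun y g => tor (y g)) '' s.Y)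

theorem ind {P : (Γ → Fin n → UnitAddCircle) → Prop} (hc : IsClosed {θ | P θ})
    (h : ∀ y ∈ s.Y, P fun g => tor (y g)) (θ : s.S) : P θ.1 :=
  closure_minimal (t := {θ | P θ}) (forall_mem_image.2 h) hc θ.2

instance : MulAction Γ s.S where
  smul h θ := ⟨fun g => θ.1 (h⁻¹ * g), s.ind (P := fun θ => (fun g => θ (h⁻¹ * g)) ∈ s.S)
    (isClosed_closure.preimage (by fun_prop))
    (fun y k => subset_closure ⟨_, s.inv y k h⁻¹, rfl⟩) θ⟩
  one_smul θ := Subtype.ext (funext fun g => congrArg θ.1 (by simp))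
  mul_smul a b θ := Subtype.ext (funext fun g => congrArg θ.1 (by simp [mul_assoc]))

theorem smul_def (h : Γ) (θ : s.S) (g : Γ) : (h • θ).1 g = θ.1 (h⁻¹ * g) := rfl

instance : ContinuousConstSMul Γ s.S :=
  ⟨fun h => continuous_induced_rng.2 (continuous_pi fun g =>
    (continuous_apply (h⁻¹ * g)).comp continuous_subtype_val)⟩

instance : CompactSpace s.S := isCompact_iff_compactSpace.1 isClosed_closure.isCompact

theorem congr {g k : Γ} (h : χ k = χ g) (e : A.l k = A.l g) (θ : s.S) : k • θ = g • θ :=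
  Subtype.ext (s.ind (P := fun θ => (fun x => θ (k⁻¹ * x)) = fun x => θ (g⁻¹ * x))
    (isClosed_eq (by fun_prop) (by fun_prop)) (fun y a => funext fun x => by
      have := s.ker y a (g⁻¹ * x) (x⁻¹ * g * k⁻¹ * x) (by simp [h])
      rw [show (x⁻¹ * g * k⁻¹ * x)⁻¹ = x⁻¹ * (k * (g⁻¹ * x)) by group, A.l_mul, A.l_mul, e,
        ← A.l_mul g, mul_inv_cancel_left, A.l_inv',
        show g⁻¹ * x * (x⁻¹ * g * k⁻¹ * x) = k⁻¹ * x by group] at this
      exact congrArg tor this) θ)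

theorem mat (T : (Fin n → ℚ) →ₗ[ℚ] Fin n → ℚ) (a h : Γ) : ∃ N : ℕ, 0 < N ∧
    (∀ v ∈ Zn n, (N : ℚ) • T v ∈ Zn n) ∧ ∀ y ∈ s.Y,
      tor ((N : ℚ) • T (y (h * a))) = tor ((N : ℚ) • T (A.l a⁻¹ (y h))) := by
  obtain ⟨N, a1, a2⟩ := s.rel a
  obtain ⟨M, b1, b2⟩ := den T
  refine ⟨N * M, by positivity, fun v k => ?_, fun y k => tor_congr ?_⟩
  · rw [Nat.cast_mul, mul_smul]
    exact zn_nat (b2 v k) N
  · have := b2 _ (a2 y k h)
    rwa [map_smul, smul_smul, map_sub, smul_sub, mul_comm, ← Nat.cast_mul] at this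

theorem per {g : Γ} (h : Γ) (k : ∀ v, A.l (h⁻¹ * g * h) v = v → v = 0) :
    ∃ r : ℕ, 0 < r ∧ ∀ θ : s.S, g • θ = θ → r • θ.1 h = 0 := by
  obtain ⟨P, hP⟩ := LinearMap.exists_leftInverse_of_injective (A.l (h⁻¹ * g * h) - .id)
    (LinearMap.ker_eq_bot'.2 fun v e => k v (sub_eq_zero.1 e))
  obtain ⟨N, a1, a2, a3⟩ := s.mat P (h⁻¹ * g * h)⁻¹ h
  obtain ⟨c, hc⟩ := tm (T := (N : ℚ) • P) a2
  refine ⟨N, a1, fun θ e => ?_⟩
  have := s.ind (P := fun θ => N • θ h = fun i => ∑ j, c j i • (θ (g⁻¹ * h) - θ h) j)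
    (isClosed_eq (by fun_prop) (by fun_prop)) (fun y b => by
      have := a3 y b
      rw [show h * (h⁻¹ * g * h)⁻¹ = g⁻¹ * h by group, inv_inv] at this
      simp only [← tor_sub, ← hc, ← tor_nsmul, LinearMap.smul_apply, map_sub]
      rw [tor_sub, this, ← tor_sub, ← smul_sub, ← map_sub]
      exact congrArg (fun x => tor ((N : ℚ) • x)) (LinearMap.congr_fun hP (y h)).symm) θ
  rw [this, ← s.smul_def, e]
  simp [Pi.zero_def]

/-- The span of the coordinates. -/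
noncomputable def Sp (θ : s.S) : Submodule ℚ ℝ := .span ℚ {x | ∃ g i, (x : UnitAddCircle) = θ.1 g i}

/-- The rank relative to a finite set. -/
noncomputable def rk (C : Finset ℝ) (θ : s.S) : ℕ :=
  finrank ℚ (s.Sp θ ⊓ .span ℚ (C : Set ℝ) : Submodule ℚ ℝ)

theorem rk_le (C : Finset ℝ) (θ : s.S) : s.rk C θ ≤ n + 1 := by
  choose a ha using fun j => QuotientAddGroup.mk_surjective (θ.1 1 j)
  have k : s.Sp θ ≤ .span ℚ (range (Fin.cons 1 a : Fin (n + 1) → ℝ)) := by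
    refine Submodule.span_le.2 ?_
    rintro x ⟨g, i, e⟩
    obtain ⟨N, a1, -, a3⟩ := s.mat .id g 1
    obtain ⟨M, b1, b2⟩ := den (A.l g⁻¹)
    obtain ⟨c, hc⟩ := tm (T := (M : ℚ) • A.l g⁻¹) b2
    have := s.ind (P := fun θ => N • M • θ g = N • fun i => ∑ j, c j i • θ 1 j)
      (isClosed_eq (by fun_prop) (by fun_prop)) (fun y b => by
        have := a3 y b
        rw [one_mul, tor_nsmul, tor_nsmul] at this
        rw [← hc, LinearMap.smul_apply, tor_nsmul, smul_comm, smul_comm N M]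
        exact congrArg _ this) θ
    have := congrFun this i
    simp only [Pi.smul_apply, ← e, ← ha, ← AddCircle.coe_zsmul, ← QuotientAddGroup.mk_sum,
      ← AddCircle.coe_nsmul] at this
    rw [← sub_eq_zero, ← AddCircle.coe_sub, AddCircle.coe_eq_zero_iff] at this
    obtain ⟨m, hm⟩ := this
    refine (Submodule.smul_mem_iff _ (s := ((N * M : ℕ) : ℚ)) (by positivity)).1 ?_
    rw [Nat.cast_smul_eq_nsmul, mul_smul, ← sub_add_cancel (N • M • x), ← hm]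
    exact add_mem (zsmul_mem (Submodule.subset_span (mem_range.2 ⟨0, rfl⟩)) _) (nsmul_mem (sum_mem fun j _ =>
      zsmul_mem (Submodule.subset_span (mem_range.2 ⟨j.succ, rfl⟩)) _) _)
  have := Module.Finite.span_of_finite ℚ (finite_range (Fin.cons 1 a : Fin (n + 1) → ℝ))
  exact (Submodule.finrank_mono (inf_le_left.trans k)).trans
    ((finrank_range_le_card _).trans (by simp))

theorem rk_smul (C : Finset ℝ) (g : Γ) (θ : s.S) : s.rk C (g • θ) = s.rk C θ := by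
  rw [rk, rk, show s.Sp (g • θ) = s.Sp θ from congrArg (Submodule.span ℚ) (Set.ext fun x =>
    ⟨fun ⟨k, i, e⟩ => ⟨_, i, e⟩, fun ⟨k, i, e⟩ => ⟨g * k, i, by simp [e, smul_def]⟩⟩)]

theorem sb (C : Finset ℝ) {x : s.S} {O : Set s.S} (h : O ∈ 𝓝 x) :
    ∃ U C', x ∈ U ∧ Nc {y | s.rk C y < s.rk C' y} U ∧ U ⊆ O := by
  classical
  obtain ⟨Φ, ε, a1, a2, a3⟩ := box h
  choose a ha using fun j : Γ × Fin n => QuotientAddGroup.mk_surjective (x.1 j.1 j.2)
  let C1 := C ∪ (a1.toFinset ×ˢ Finset.univ).image a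
  obtain ⟨r, b1, b2, b3⟩ := ((countable_coe_iff.1 (Finsupp.Countable.of_moduleFinite (R := ℚ)
    (M := Submodule.span ℚ (C1 : Set ℝ)))).dense_compl ℝ).exists_between a2
  refine ⟨_, insert r C1, fun j _ => by simpa, ⟨box_open x a1 r, fun y k => ?_⟩,
    fun y k => a3 y fun j e => (k j e).trans b3⟩
  refine or_iff_not_imp_left.2 fun c => ?_
  obtain ⟨g, c1, c2⟩ : ∃ g ∈ Φ, ¬ ‖y.1 g - x.1 g‖ < r := by simpa using c
  have c3 : ‖y.1 g - x.1 g‖ ≤ r := closure_minimal (t := {y : s.S | ‖y.1 g - x.1 g‖ ≤ r})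
    (fun z e => (e g c1).le) (isClosed_le (((continuous_apply g).comp continuous_subtype_val).sub
      continuous_const).norm continuous_const) k
  obtain ⟨i, c4⟩ := not_forall.1 (mt (pi_norm_lt_iff b2).2 c2)
  obtain ⟨u, hu⟩ := QuotientAddGroup.mk_surjective ((y.1 g - x.1 g) i)
  have c5 := ((norm_le_pi_norm _ i).trans c3).antisymm (not_lt.1 c4)
  rw [← hu, UnitAddCircle.norm_eq] at c5
  have d1 : a (g, i) ∈ Submodule.span ℚ (C1 : Set ℝ) :=
    Submodule.subset_span (by simp [C1]; exact .inr ⟨g, c1, i, rfl⟩)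
  have d2 : Submodule.span ℚ (C1 : Set ℝ) ≤ .span ℚ (insert r C1 : Finset ℝ) :=
    Submodule.span_mono (by simp)
  have d3 : Submodule.span ℚ (C : Set ℝ) ≤ .span ℚ C1 := Submodule.span_mono (by simp [C1])
  refine Submodule.finrank_lt_finrank_of_lt (SetLike.lt_iff_le_and_exists.2
    ⟨inf_le_inf_left _ (d3.trans d2), a (g, i) + (u - round u), ⟨Submodule.subset_span ⟨g, i, ?_⟩,
      add_mem (d2 d1) ?_⟩, fun e => b1 ?_⟩)
  · rw [AddCircle.coe_add, AddCircle.coe_sub, ha, hu,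
      (AddCircle.coe_eq_zero_iff _).2 ⟨round u, by simp⟩]
    simp
  · exact abs_mem_iff.1 (c5 ▸ Submodule.subset_span (by simp))
  · exact c5 ▸ abs_mem_iff.2 ((add_mem_cancel_left d1).1 (d3 e.2))

theorem cover {t : Γ} (ht : χ t = 1) (hf : (A.l '' {g | χ g = 0}).Finite)
    (hy : ∀ g, χ g ≠ 0 → ∀ v, A.l g v = v → v = 0) (L : ℤ) (hL : 0 ≤ L)
    {Hs : Set Γ} (hH : Hs.Finite) : ∃ r : ℕ, 0 < r ∧ ∀ η : ℝ, 0 < η →
      ∃ (M : Fin (n + 2) → Set (Γ → Fin n → ℚ)) (Φ : Set Γ) (ε : ℝ), Φ.Finite ∧ 0 < ε ∧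
      (∀ i (y : Γ → Fin n → ℚ) g k, |χ g - χ k| ≤ L → (fun x => y (g * x)) ∈ M i → (fun x => y (k * x)) ∈ M i →
        χ g = χ k) ∧ ∀ y ∈ s.Y, (∀ h ∈ Hs, ‖tor ((r : ℚ) • y h)‖ < η) ∨ ∃ i g, |χ g| ≤ L ∧
          ∀ y' ∈ s.Y, (∀ h ∈ Φ, ‖tor (y' h - y h)‖ < ε) → (fun x => y' (g * x)) ∈ M i := by
  obtain ⟨F, f1, f2, f3⟩ := reps ht hf L
  have f4 : ((fun (g : Γ) (x : s.S) => g • x) '' {g | |χ g| ≤ L}).Finite :=
    (f1.image fun (g : Γ) (x : s.S) => g • x).subset (by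
      rintro _ ⟨g, k, rfl⟩
      obtain ⟨g', a, b, c⟩ := f3 g k
      exact ⟨g', a, funext (s.congr b c)⟩)
  choose! r r1 r2 using fun (x : Γ × Γ) (k : χ x.1 ≠ 0) => s.per x.2 (hy _ (by simpa using k))
  obtain ⟨b, hb⟩ := ((f1.prod hH).image r).bddAbove
  refine ⟨b.factorial, b.factorial_pos, fun η e => ?_⟩
  let K : Set s.S := {θ | ∀ h ∈ Hs, ‖b.factorial • θ.1 h‖ < η}ᶜ
  have hK : IsCompact K := by
    refine (IsOpen.isClosed_compl ?_).isCompact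
    simp only [ofPred_forall]
    exact hH.isOpen_biInter fun j _ => isOpen_lt
      (((continuous_apply j).comp continuous_subtype_val).nsmul _).norm continuous_const
  obtain ⟨C, M, m1, m2⟩ := rounds (T := {g | |χ g| ≤ L}) (Z := {g | χ g = 0}) (by simpa)
    (by simp) f4 hK s.rk s.rk_smul (fun C C' x k => Submodule.finrank_mono
      (inf_le_inf_left _ (Submodule.span_mono k))) (fun C x k => by
        obtain ⟨O, o1, o2⟩ := ex_spd (T := {g | |χ g| ≤ L}) (Z := {g | χ g = 0})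
          (f4.subset (image_mono sdiff_subset)) (x := x) fun g c d => by_contra fun c' => k
            fun h c'' => by
              obtain ⟨g', a1, a2, a3⟩ := f3 g c
              obtain ⟨m, hm⟩ := Nat.dvd_factorial (r1 (g', h) (a2 ▸ c')) (hb ⟨_, ⟨a1, c''⟩, rfl⟩)
              rwa [hm, mul_nsmul, r2 (g', h) (a2 ▸ c') x ((s.congr a2 a3 x).trans d), nsmul_zero,
                norm_zero]
        obtain ⟨U, C', u1, u2, u3⟩ := s.sb C o1
        exact ⟨U, C', u1, u2, fun y a g b c => o2 y (u3 a) g b (u3 c)⟩) (n + 2)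
  obtain ⟨Φ, ε, l1, l2, l3⟩ := lebesgue hK (fun i : Fin (n + 2) × {g // |χ g| ≤ L} =>
    (i.2.1 • ·) ⁻¹' M i.1) fun x k => by
      obtain ⟨i, g, a, b⟩ := (m2 x k).resolve_left (by have := s.rk_le C x; omega)
      exact ⟨(i, ⟨g, a⟩), ((m1 i).1.preimage (continuous_const_smul g)).mem_nhds b⟩
  refine ⟨fun i => {y | ∃ θ ∈ M i, θ.1 = fun g => tor (y g)}, Φ, ε, l1, l2, ?_, fun y k => ?_⟩
  · rintro i y g k a ⟨θ, b, c⟩ ⟨θ', b', c'⟩
    have : χ (k⁻¹ * g) = 0 := (m1 i).2 θ b _ (by simpa [neg_add_eq_sub] using a) (by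
      convert b'
      ext1
      rw [c']
      funext x
      simp [smul_def, c, mul_assoc])
    simp at this
    omega
  · refine or_iff_not_imp_left.2 fun a => ?_
    obtain ⟨⟨i, g, b⟩, c⟩ := l3 ⟨_, subset_closure ⟨y, k, rfl⟩⟩ (by simpa [K, tor_nsmul] using a)
    exact ⟨i, g⁻¹, by simpa using b, fun y' d f => ⟨_, c ⟨_, subset_closure ⟨y', d, rfl⟩⟩
      (by simpa [tor_sub] using f), rfl⟩⟩

end Sy

end Pool.Agent.Lib.MP_5d3e93_al
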