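import Mathlib

/-! Lattices with a group action and additive invariants. -/

namespace Pool.Agent.Lib.MP_5d3e93_al

open Module

universe w

/-- Lattices with a group action. -/
structure Lat (Q : Type w) [Group Q] where
  M : Type
  [acg : AddCommGroup M]
  [free : Module.Free ℤ M]
  [fin : Module.Finite ℤ M]
  T : Representation ℤ Q M

attribute [instance] Lat.acg Lat.free Lat.fin

namespace Lat

variable {Q : Type w} [Group Q] {V : Type*} [AddCommGroup V]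

/-- Trivial action. -/
abbrev triv (L : Lat Q) : Lat Q := ⟨L.M, Representation.trivial ℤ Q L.M⟩

variable (Q) in
/-- The integers. -/
abbrev int : Lat Q := ⟨ℤ, Representation.trivial ℤ Q ℤ⟩

/-- Product. -/
noncomputable abbrev prod (L L' : Lat Q) : Lat Q := ⟨L.M × L'.M, L.T.prod L'.T⟩

/-- Invariant sublattice. -/
abbrev sub (L : Lat Q) (W : Submodule ℤ L.M) (h : ∀ q, W ≤ W.comap (L.T q)) : Lat Q :=
  ⟨W, L.T.subrepresentation W h⟩

/-- Finite product. -/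
abbrev pi {ι : Type} [Fintype ι] (L : ι → Lat Q) : Lat Q :=
  ⟨∀ i, (L i).M,
    { toFun q := LinearMap.pi fun i => (L i).T q ∘ₗ LinearMap.proj i
      map_one' := by ext; simp
      map_mul' _ _ := by ext; simp }⟩

/-- Homomorphisms. -/
noncomputable abbrev hom (L N : Lat Q) : Lat Q := ⟨L.M →ₗ[ℤ] N.M, L.T.linHom N.T⟩

/-- Functions on a finite set. -/
abbrev fn (Z : Type) [Fintype Z] [MulAction Q Z] : Lat Q :=
  ⟨Z → ℤ,
    { toFun q := LinearMap.funLeft ℤ ℤ fun x => q⁻¹ • x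
      map_one' := by ext; simp
      map_mul' _ _ := by ext; simp [mul_smul] }⟩

/-- Additivity. -/
def Ses (τ : Lat Q → V) : Prop :=
  ∀ (L' L L'' : Lat Q) (α : L'.M →ₗ[ℤ] L.M) (β : L.M →ₗ[ℤ] L''.M),
    (∀ q m, α (L'.T q m) = L.T q (α m)) → (∀ q m, β (L.T q m) = L''.T q (β m)) →
    Function.Injective α → Function.Surjective β → (∀ m, β m = 0 ↔ ∃ m', α m' = m) →
    τ L = τ L' + τ L''

variable {τ : Lat Q → V}

theorem Ses.zero (h : Ses τ) (L : Lat Q) [Subsingleton L.M] : τ L = 0 := by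
  have := h L L L 0 0 (by simp) (by simp) (Function.injective_of_subsingleton _)
    (Function.surjective_to_subsingleton _) fun m => ⟨fun _ => ⟨m, Subsingleton.elim _ _⟩, by simp⟩
  simpa using this

theorem Ses.iso (h : Ses τ) (L' L : Lat Q) (α : L'.M →ₗ[ℤ] L.M)
    (h1 : ∀ q m, α (L'.T q m) = L.T q (α m)) (h2 : Function.Bijective α) : τ L' = τ L := by
  have := h L' L (pi (ι := Empty) fun _ => L) α 0 h1 (by simp) h2.1
    (Function.surjective_to_subsingleton _) fun m => ⟨fun _ => h2.2 m, by simp⟩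
  rw [this, h.zero (pi _), add_zero]

theorem Ses.prod (h : Ses τ) (L L' : Lat Q) : τ (L.prod L') = τ L + τ L' :=
  h L (L.prod L') L' (LinearMap.inl _ _ _) (LinearMap.snd _ _ _) (by simp) (by simp)
    LinearMap.inl_injective Prod.snd_surjective fun m =>
      ⟨fun e => ⟨m.1, Prod.ext rfl (by simpa using e.symm)⟩, by rintro ⟨a, rfl⟩; simp⟩

theorem Ses.pi (h : Ses τ) (ι : Type) [Fintype ι] :
    ∀ L : ι → Lat Q, τ (Lat.pi L) = ∑ i, τ (L i) := by
  refine Fintype.induction_empty_option (P := fun ι _ => ∀ L : ι → Lat Q,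
    τ (Lat.pi L) = ∑ i, τ (L i)) (fun α β _ e ih => ?_) ?_ (fun α _ ih => ?_) ι
  · intro L
    let := Fintype.ofEquiv β e.symm
    rw [← e.sum_comp, ← ih]
    exact h.iso _ _ (LinearMap.pi fun i => LinearMap.proj (e i)) (fun _ _ => rfl)
      (Equiv.piCongrLeft (fun i => (L i).M) e).symm.bijective
  · exact fun L => by simpa using h.zero _
  · intro L
    rw [Fintype.sum_option, ← ih, ← h.prod]
    exact h.iso _ _ ((LinearMap.proj none).prod (LinearMap.pi fun i => LinearMap.proj (some i)))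
      (fun _ _ => rfl) (Equiv.piOptionEquivProd (β := fun i => (L i).M)).bijective

theorem Ses.triv (h : Ses τ) (L : Lat Q) : τ L.triv = finrank ℤ L.M • τ (int Q) := by
  rw [h.iso L.triv (Lat.pi fun _ : Fin (finrank ℤ L.M) => int Q)
    (Module.finBasis ℤ L.M).equivFun.toLinearMap (fun _ _ => rfl) (LinearEquiv.bijective _), h.pi]
  simp

theorem T_inv {L N : Lat Q} {α : L.M →ₗ[ℤ] N.M} (h : ∀ q m, α (L.T q m) = N.T q (α m)) (q : Q) :
    α ∘ₗ L.T q = N.T q ∘ₗ α := LinearMap.ext (h q)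

theorem split {M' M M'' : Type} [AddCommGroup M'] [AddCommGroup M] [AddCommGroup M'']
    [Module.Free ℤ M''] {α : M' →ₗ[ℤ] M} {β : M →ₗ[ℤ] M''} (h3 : Function.Injective α)
    (h4 : Function.Surjective β) (h5 : ∀ m, β m = 0 ↔ ∃ m', α m' = m) :
    ∃ (σ : M'' →ₗ[ℤ] M) (ρ : M →ₗ[ℤ] M'), (∀ m, β (σ m) = m) ∧ (∀ m, ρ (α m) = m) ∧
      (∀ m, β (α m) = 0) ∧ ∀ m, α (ρ m) + σ (β m) = m := by
  obtain ⟨σ, hσ⟩ := β.exists_rightInverse_of_surjective (LinearMap.range_eq_top.2 h4)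
  have s1 : ∀ m, β (σ m) = m := fun m => DFunLike.congr_fun hσ m
  choose ρ hρ using fun m => (h5 (m - σ (β m))).1 (by simp [s1])
  have s3 : ∀ m, β (α m) = 0 := fun m => (h5 _).2 ⟨m, rfl⟩
  exact ⟨σ, (AddMonoidHom.mk' ρ fun a b => h3 (by simp only [map_add, hρ]; abel)).toIntLinearMap,
    s1, fun m => h3 (by simp [hρ, s3]), s3, fun m => by simp [hρ]⟩

theorem Ses.homr (h : Ses τ) (L : Lat Q) : Ses fun N => τ (L.hom N) := by
  intro N' N N'' α β h1 h2 h3 h4 h5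
  obtain ⟨σ, ρ, s1, s2, s3, s4⟩ := split h3 h4 h5
  refine h _ _ _ (LinearMap.llcomp ℤ _ _ _ α) (LinearMap.llcomp ℤ _ _ _ β)
    (fun q f => LinearMap.ext fun m => h1 q _) (fun q f => LinearMap.ext fun m => h2 q _)
    (fun f g e => LinearMap.ext fun m => h3 (DFunLike.congr_fun e m))
    (fun f => ⟨σ ∘ₗ f, LinearMap.ext fun m => s1 _⟩) fun f => ⟨fun e => ⟨ρ ∘ₗ f, ?_⟩, ?_⟩
  · ext m
    have := s4 (f m)
    rwa [show β (f m) = 0 from DFunLike.congr_fun e m, map_zero, add_zero] at this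
  · rintro ⟨g, rfl⟩
    exact LinearMap.ext fun m => s3 _

theorem Ses.homl (h : Ses τ) (N : Lat Q) : Ses fun L => τ (hom L N) := by
  intro L' L L'' α β h1 h2 h3 h4 h5
  obtain ⟨σ, ρ, s1, s2, s3, s4⟩ := split h3 h4 h5
  rw [add_comm]
  refine h _ _ _ (LinearMap.lcomp ℤ _ β) (LinearMap.lcomp ℤ _ α)
    (fun q f => LinearMap.ext fun m => congrArg (fun x => N.T q (f x)) (h2 _ _).symm)
    (fun q f => LinearMap.ext fun m => congrArg (fun x => N.T q (f x)) (h1 _ _).symm)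
    (fun f g e => LinearMap.ext fun m => ?_)
    (fun f => ⟨f ∘ₗ ρ, LinearMap.ext fun m => congrArg f (s2 m)⟩) fun f =>
      ⟨fun e => ⟨f ∘ₗ σ, ?_⟩, ?_⟩
  · obtain ⟨m, rfl⟩ := h4 m
    exact DFunLike.congr_fun e m
  · ext m
    have := congrArg f (s4 m)
    rwa [map_add, show f (α _) = 0 from DFunLike.congr_fun e _, zero_add] at this
  · rintro ⟨g, rfl⟩
    exact LinearMap.ext fun m => (congrArg g (s3 m)).trans (map_zero g)

variable {p : ℕ}

/-- Equivariant maps in both directions with composites `p`. -/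
structure Pr (p : ℕ) (L' L : Lat Q) where
  α : L'.M →ₗ[ℤ] L.M
  β : L.M →ₗ[ℤ] L'.M
  hα : ∀ q m, α (L'.T q m) = L.T q (α m)
  hβ : ∀ q m, β (L.T q m) = L'.T q (β m)
  αβ : ∀ m, α (β m) = (p : ℤ) • m
  βα : ∀ m, β (α m) = (p : ℤ) • m

/-- Exchanging the roles. -/
def Pr.symm {L' L : Lat Q} (a : Pr p L' L) : Pr p L L' := ⟨a.β, a.α, a.hβ, a.hα, a.βα, a.αβ⟩

theorem Pr.inj {L' L : Lat Q} (a : Pr p L' L) (hp : p ≠ 0) : Function.Injective a.α :=
  fun x y e => smul_right_injective _ (Int.natCast_ne_zero.2 hp) (by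
    simp only [← a.βα, e])

theorem retr [Fact p.Prime] {U W : Type} [AddCommGroup U] [AddCommGroup W] (hU : ∀ x : U, p • x = 0)
    (hW : ∀ x : W, p • x = 0) (j : U →ₗ[ℤ] W) (hj : ∀ x, j x = 0 → x = 0) :
    ∃ r : W →ₗ[ℤ] U, ∀ x, r (j x) = x := by
  have := (Fact.out : p.Prime).ne_zero
  let _ : Module (ZMod p) U := AddCommGroup.zmodModule hU
  let _ : Module (ZMod p) W := AddCommGroup.zmodModule hW
  obtain ⟨r, hr⟩ := (j.toAddMonoidHom.toZModLinearMap p).exists_leftInverse_of_injective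
    (LinearMap.ker_eq_bot'.2 hj)
  exact ⟨r.toAddMonoidHom.toIntLinearMap, fun x => by simpa using DFunLike.congr_fun hr x⟩

theorem Pr.smith [Fact p.Prime] {L' L : Lat Q} (a : Pr p L' L) :
    ∃ π σ : _, ∀ x, (π : L.M →ₗ[ℤ] L'.M) (a.α x) + a.β ((σ : L'.M →ₗ[ℤ] L.M) x) = x := by
  obtain ⟨r, hr⟩ := retr (p := p) (fun x => by
      induction x using Submodule.Quotient.induction_on with | _ x => ?_
      exact (Submodule.Quotient.mk_eq_zero _).2 ⟨a.α x, by simp [a.βα]⟩) (fun x => by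
      induction x using Submodule.Quotient.induction_on with | _ x => ?_
      exact (Submodule.Quotient.mk_eq_zero _).2 ⟨x, by simp [a.αβ]⟩)
    (Submodule.mapQ (LinearMap.range a.β) (LinearMap.range (a.α ∘ₗ a.β)) a.α
      (by rintro _ ⟨x, rfl⟩; exact ⟨x, rfl⟩)) fun x hx => by
      induction x using Submodule.Quotient.induction_on with | _ x => ?_
      obtain ⟨y, hy⟩ := (Submodule.Quotient.mk_eq_zero _).1 hx
      exact (Submodule.Quotient.mk_eq_zero _).2 ⟨y, a.inj (Fact.out : p.Prime).ne_zero hy⟩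
  obtain ⟨π, hπ⟩ := Module.projective_lifting_property (LinearMap.range a.β).mkQ
    (r ∘ₗ (LinearMap.range (a.α ∘ₗ a.β)).mkQ) (Submodule.mkQ_surjective _)
  have k (x : L'.M) : x - π (a.α x) ∈ LinearMap.range a.β :=
    (Submodule.Quotient.eq _).1 ((hr (Submodule.Quotient.mk x)).symm.trans
      (DFunLike.congr_fun hπ (a.α x)).symm)
  obtain ⟨σ, hσ⟩ := Module.projective_lifting_property a.β.rangeRestrict
    ((LinearMap.id - π ∘ₗ a.α).codRestrict _ k) a.β.surjective_rangeRestrict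
  exact ⟨π, σ, fun x => by
    rw [show a.β (σ x) = x - π (a.α x) from congrArg Subtype.val (DFunLike.congr_fun hσ x),
      add_sub_cancel]⟩

/-- Compatible pairs of homomorphisms. -/
noncomputable abbrev Pr.K {L' L N' N : Lat Q} (a : Pr p L' L) (b : Pr p N' N) : Lat Q :=
  ((L.hom N).prod (L'.hom N')).sub
    (LinearMap.ker (LinearMap.lcomp ℤ _ a.α ∘ₗ LinearMap.fst _ _ _ -
      LinearMap.llcomp ℤ _ _ _ b.α ∘ₗ LinearMap.snd _ _ _)) fun q f hf => by
    ext m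
    have := congrArg (N.T q) (DFunLike.congr_fun hf (L'.T q⁻¹ m))
    simpa [a.hα, b.hα] using this

theorem Ses.half [Fact p.Prime] (h : Ses τ) {L' L N' N : Lat Q} (a : Pr p L' L) (b : Pr p N' N) :
    τ (L.hom N) + τ (L'.hom N') = τ (a.K b) + τ (a.symm.K b) := by
  have hp := (Fact.out : p.Prime).ne_zero
  obtain ⟨π, σ, hs⟩ := a.smith
  rw [← h.prod]
  refine h _ _ _ (Submodule.subtype _) (LinearMap.codRestrict _
    ((LinearMap.lcomp ℤ _ a.α ∘ₗ LinearMap.fst _ _ _ -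
      LinearMap.llcomp ℤ _ _ _ b.α ∘ₗ LinearMap.snd _ _ _).prod
    (LinearMap.llcomp ℤ _ _ _ b.β ∘ₗ LinearMap.fst _ _ _ -
      LinearMap.lcomp ℤ _ a.β ∘ₗ LinearMap.snd _ _ _)) fun f => ?_) (fun _ _ => rfl)
    (fun q f => Subtype.ext (Prod.ext ?_ ?_)) (Submodule.injective_subtype _) ?_ fun f => ⟨?_, ?_⟩
  · ext m
    simp [Pr.symm, a.αβ, b.αβ]
  · ext m
    change N.T q (f.1 (L.T q⁻¹ (a.α m))) - b.α (N'.T q (f.2 (L'.T q⁻¹ m))) =
      N.T q (f.1 (a.α (L'.T q⁻¹ m)) - b.α (f.2 (L'.T q⁻¹ m)))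
    rw [a.hα, b.hα, map_sub]
  · ext m
    change b.β (N.T q (f.1 (L.T q⁻¹ m))) - N'.T q (f.2 (L'.T q⁻¹ (a.β m))) =
      N'.T q (b.β (f.1 (L.T q⁻¹ m)) - f.2 (a.β (L.T q⁻¹ m)))
    rw [a.hβ, b.hβ, map_sub]
  · rintro ⟨⟨g, g'⟩, hg⟩
    have k (m) : g (a.β m) = b.α (g' m) := sub_eq_zero.1 (DFunLike.congr_fun hg m)
    have k' (m) : g (π (a.α m)) + b.α (g' (σ m)) = g m := by rw [← k, ← map_add, hs]
    refine ⟨(g ∘ₗ π, -(g' ∘ₗ σ)), Subtype.ext (Prod.ext ?_ ?_)⟩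
    · ext m
      change g (π (a.α m)) - b.α (-g' (σ m)) = g m
      rw [map_neg, sub_neg_eq_add, k']
    · ext m
      refine b.inj hp ?_
      change b.α (b.β (g (π m)) - -g' (σ (a.β m))) = b.α (g' m)
      rw [← k, ← k' (a.β m), a.αβ, sub_neg_eq_add, map_add, b.αβ, map_smul, map_smul]
  · exact fun e => ⟨⟨f, congrArg (fun x : (a.symm.K b).M => x.1.1) e⟩, rfl⟩
  · rintro ⟨⟨f, hf⟩, rfl⟩
    refine Subtype.ext (Prod.ext hf (LinearMap.ext fun m => b.inj hp ?_))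
    have : f.1 (a.α (a.β m)) - b.α (f.2 (a.β m)) = 0 := DFunLike.congr_fun hf (a.β m)
    change b.α (b.β (f.1 m) - f.2 (a.β m)) = b.α 0
    rw [map_zero, ← this, a.αβ, map_sub, b.αβ, map_smul]

omit [AddCommGroup V] in
theorem Ses.dev [Fact p.Prime] (h : ∀ L' L : Lat Q, Pr p L' L → τ L' = τ L) (k : ℕ) :
    ∀ (L' L : Lat Q) (α : L'.M →ₗ[ℤ] L.M), (∀ q m, α (L'.T q m) = L.T q (α m)) →
      Function.Injective α → (∀ y, ∃ x, α x = (p : ℤ) ^ k • y) → τ L' = τ L := by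
  have one (L' L : Lat Q) (α : L'.M →ₗ[ℤ] L.M) (h1 : ∀ q m, α (L'.T q m) = L.T q (α m))
      (h2 : Function.Injective α) (h3 : ∀ y, ∃ x, α x = (p : ℤ) • y) : τ L' = τ L := by
    choose β hβ using h3
    exact h _ _ ⟨α, (AddMonoidHom.mk' β fun a b => h2 (by simp [hβ])).toIntLinearMap, h1,
      fun q m => h2 (by simp [hβ, h1]), hβ, fun m => h2 (by simp [hβ])⟩
  induction k with
  | zero => exact fun L' L α h1 h2 h3 => one _ _ α h1 h2 fun y => by simpa using h3 (p • y)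
  | succ k ih =>
    intro L' L α h1 h2 h3
    let W : Submodule ℤ L.M := LinearMap.range α ⊔ LinearMap.range ((p : ℤ) • LinearMap.id)
    have hW (q) : W ≤ W.comap (L.T q) := sup_le
      (by rintro _ ⟨x, rfl⟩; exact Submodule.mem_sup_left ⟨_, h1 q x⟩)
      (by rintro _ ⟨x, rfl⟩; exact Submodule.mem_sup_right ⟨L.T q x, by simp⟩)
    rw [ih L' (L.sub W hW) (α.codRestrict W fun x => Submodule.mem_sup_left ⟨x, rfl⟩)
      (fun q m => Subtype.ext (h1 q m)) (fun x y e => h2 (congrArg Subtype.val e)) ?_]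
    · exact one _ _ W.subtype (fun _ _ => rfl) (Submodule.injective_subtype _) fun y =>
        ⟨⟨_, Submodule.mem_sup_right ⟨y, rfl⟩⟩, rfl⟩
    · rintro ⟨y, hy⟩
      obtain ⟨_, ⟨a, rfl⟩, _, ⟨b, rfl⟩, rfl⟩ := Submodule.mem_sup.1 hy
      obtain ⟨c, hc⟩ := h3 b
      exact ⟨(p : ℤ) ^ k • a + c, Subtype.ext (by simp [hc, pow_succ, mul_smul])⟩

/-- The kernel of rationalisation has square zero. -/
theorem Ses.delta [Fact p.Prime] (h : Ses τ) {L' L : Lat Q} (α : L'.M →ₗ[ℤ] L.M)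
    (h1 : ∀ q m, α (L'.T q m) = L.T q (α m)) (h2 : Function.Injective α) {k : ℕ}
    (h3 : ∀ y, ∃ x, α x = (p : ℤ) ^ k • y) :
    τ (L.hom L') - τ (L'.hom L') = τ (L.hom L) - τ (L'.hom L) :=
  Ses.dev (τ := fun N => τ (L.hom N) - τ (L'.hom N)) (fun N' N b => by
    have := Ses.dev (τ := fun L => τ (L.hom N) - τ (L.hom N')) (fun L' L a => by
      have e1 := h.half a b
      have e2 := h.half a.symm b
      simp only [sub_eq_sub_iff_add_eq_add]
      rw [e2, add_comm (τ (L.hom N)), add_comm (τ (L'.hom N')), e1, add_comm]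
      rfl) k L' L α h1 h2 h3
    simp only [sub_eq_sub_iff_add_eq_add] at this ⊢
    rw [add_comm, this, add_comm]) k L' L α h1 h2 h3

end Lat

end Pool.Agent.Lib.MP_5d3e93_al
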