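import Pool.Agent.Lib.MP_5d3e93_al.E1
import Pool.Agent.Lib.MP_5d3e93_al.Rad

/-! Tensoring automorphisms with lattices. -/

open CategoryTheory

namespace Pool.Agent.Lib.MP_5d3e93_al

universe w w' v u

namespace GC

variable {G : Type w} [Group G] {C : Type u} [Category.{v} C] [Preadditive C] {S : GC G C}
variable {A B D X Y : C}

theorem ind_all {P : (A ⟶ B) → Prop} (f : A ⟶ B) (h0 : P 0)
    (hadd : ∀ a b, P a → P b → P (a + b)) (hh : ∀ g, P (S.cp g f)) : P f :=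
  Sup.induction (S := S) (X := Set.univ) (fun _ h => (h trivial).elim) h0 hadd fun g _ => hh g

variable (S) in
/-- Additive extension from homogeneous morphisms. -/
noncomputable def ex {V : Type*} [AddCommGroup V] (φ : G → (A ⟶ B) →+ V) : (A ⟶ B) →+ V :=
  AddMonoidHom.mk' (fun f => ∑ᶠ g, φ g (S.cp g f)) fun a b => by
    have h : ∀ f : A ⟶ B, (Function.support fun g => φ g (S.cp g f)).Finite := fun f =>
      (S.fin f).subset fun g hg h => hg (by simp only [h, map_zero])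
    rw [← finsum_add_distrib (h a) (h b)]
    simp only [map_add]

theorem ex_cp {V : Type*} [AddCommGroup V] (φ : G → (A ⟶ B) →+ V) (g : G) (f : A ⟶ B) :
    S.ex φ (S.cp g f) = φ g (S.cp g f) := by
  change ∑ᶠ k, φ k (S.cp k (S.cp g f)) = _
  rw [finsum_eq_single _ g fun k hk => by rw [S.cp_ne _ hk, map_zero], S.cp_same]

theorem orth (hz : ∃ Z : C, 𝟙 Z = 0) (ι : Type) [Fintype ι] : ∀ B : ι → C, ∃ (P : C)
    (i : ∀ x, B x ⟶ P) (r : ∀ x, P ⟶ B x), (∀ x, S.Sup {1} (i x)) ∧ (∀ x, S.Sup {1} (r x)) ∧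
      (∀ x, i x ≫ r x = 𝟙 _) ∧ (∀ x y, x ≠ y → i x ≫ r y = 0) ∧ ∑ x, r x ≫ i x = 𝟙 P := by
  refine Fintype.induction_empty_option (P := fun ι _ => ∀ B : ι → C, ∃ (P : C)
    (i : ∀ x, B x ⟶ P) (r : ∀ x, P ⟶ B x), (∀ x, S.Sup {1} (i x)) ∧ (∀ x, S.Sup {1} (r x)) ∧
      (∀ x, i x ≫ r x = 𝟙 _) ∧ (∀ x y, x ≠ y → i x ≫ r y = 0) ∧ ∑ x, r x ≫ i x = 𝟙 P)
    (fun α β _ e ih B => ?_) (fun B => ⟨hz.choose, fun x => x.elim, fun x => x.elim,
      by simp [hz.choose_spec]⟩) (fun α _ ih B => ?_) ι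
  · obtain ⟨f, rfl⟩ : ∃ f : α → C, B = f ∘ e.symm := ⟨B ∘ e, by ext; simp⟩
    obtain ⟨P, i, r, h1, h2, h3, h4, h5⟩ := ih f
    let _ := Fintype.ofEquiv β e.symm
    exact ⟨P, fun x => i _, fun x => r _, fun x => h1 _, fun x => h2 _, fun x => h3 _,
      fun x y h => h4 _ _ (e.symm.injective.ne h),
      (Equiv.sum_comp e.symm fun x => r x ≫ i x).trans h5⟩
  · obtain ⟨P, i, r, h1, h2, h3, h4, h5⟩ := ih fun x => B (some x)
    refine ⟨S.sum (B none) P, fun x => x.rec (S.inl _ _) fun x => i x ≫ S.inr _ _,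
      fun x => x.rec (S.fst _ _) fun x => S.snd _ _ ≫ r x, ?_, ?_, ?_, ?_, ?_⟩
    · rintro (_ | x)
      exacts [sup_inl rfl, (h1 x).comp_one (S.cp_inr _ _)]
    · rintro (_ | x)
      exacts [sup_fst rfl, .one_comp (S.cp_snd _ _) (h2 x)]
    · rintro (_ | x) <;> simp [h3]
    · rintro (_ | x) (_ | y) h
      · exact (h rfl).elim
      · simp
      · simp
      · simpa using h4 x y fun e => h (congrArg _ e)
    · rw [Fintype.sum_option, ← S.total]
      have := congrArg (· ≫ S.inr (B none) P) h5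
      simp only [Preadditive.sum_comp, Category.assoc, Category.id_comp] at this
      simp [← Preadditive.comp_sum, this]

variable (S) in
/-- A model of the tensor product of an object with a lattice. -/
structure Fm (A : C) (M : Type) [AddCommGroup M] where
  P : C
  n : ℕ
  pr : Fin n → (P ⟶ A)
  e : Fin n → M
  In : M →+ (A ⟶ P)
  key : ∀ {X : C} (θ : M →+ (A ⟶ X)) (m : M), In m ≫ ∑ i, pr i ≫ θ (e i) = θ m
  spr : ∀ i, S.Sup {1} (pr i)
  sIn : ∀ m, S.Sup {1} (In m)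
  total : ∑ i, pr i ≫ In (e i) = 𝟙 P

theorem Fm.nonempty (hz : ∃ Z : C, 𝟙 Z = 0) (M : Type) [AddCommGroup M] [Module.Free ℤ M]
    [Module.Finite ℤ M] : Nonempty (S.Fm A M) := by
  obtain ⟨P, i, r, h1, h2, h3, h4, h5⟩ := S.orth hz (Fin (Module.finrank ℤ M)) fun _ => A
  let b := Module.finBasis ℤ M
  refine ⟨P, _, r, b, AddMonoidHom.mk' (fun m => ∑ x, b.repr m x • i x) fun a c => by
    simp [add_smul, Finset.sum_add_distrib], fun θ m => ?_, h2,
    fun m => Sup.sum (F := fun x => b.repr m x • i x) Finset.univ fun x _ g hg => by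
      rw [map_zsmul, h1 x g hg, smul_zero],
    by simp [Finsupp.single_apply, h5]⟩
  conv_rhs => rw [← b.sum_repr m, map_sum]
  simp only [AddMonoidHom.mk'_apply, Preadditive.sum_comp, Preadditive.zsmul_comp, map_zsmul]
  refine Finset.sum_congr rfl fun x _ => congrArg _ ?_
  rw [Preadditive.comp_sum, Finset.sum_eq_single x, reassoc_of% h3 x]
  · exact fun y _ h => by rw [reassoc_of% h4 x y h.symm, Limits.zero_comp]
  · simp

namespace Fm

variable {M : Type} [AddCommGroup M] (F : S.Fm A M)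

/-- Morphisms out of the tensor product. -/
def desc (θ : M → (A ⟶ X)) : F.P ⟶ X := ∑ i, F.pr i ≫ θ (F.e i)

theorem In_desc {θ : M → (A ⟶ X)} (h : ∀ a b, θ (a + b) = θ a + θ b) (m : M) :
    F.In m ≫ F.desc θ = θ m := F.key (AddMonoidHom.mk' θ h) m

theorem desc_comp (θ : M → (A ⟶ X)) (k : X ⟶ Y) : F.desc θ ≫ k = F.desc fun m => θ m ≫ k := by
  simp [desc, Preadditive.sum_comp]

theorem desc_add (θ θ' : M → (A ⟶ X)) :
    F.desc θ + F.desc θ' = F.desc fun m => θ m + θ' m := by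
  simp [desc, Finset.sum_add_distrib]

theorem sup_desc {T : Set G} {θ : M → (A ⟶ X)} (h : ∀ m, S.Sup T (θ m)) : S.Sup T (F.desc θ) :=
  .sum _ fun i _ => .one_comp (F.spr i).cp_eq (h _)

theorem ext {f g : F.P ⟶ X} (h : ∀ m, F.In m ≫ f = F.In m ≫ g) : f = g := by
  rw [← Category.id_comp f, ← Category.id_comp g, ← F.total]
  simp only [Preadditive.sum_comp, Category.assoc, h]

variable {M' M'' : Type} [AddCommGroup M'] [AddCommGroup M''] (F' : S.Fm A M') (F'' : S.Fm A M'')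

/-- The morphism induced by a linear map. -/
def mp (α : M →ₗ[ℤ] M') : F.P ⟶ F'.P := F.desc fun m => F'.In (α m)

@[reassoc]
theorem In_mp (α : M →ₗ[ℤ] M') (m : M) : F.In m ≫ F.mp F' α = F'.In (α m) :=
  F.In_desc (by simp) m

theorem sup_mp (α : M →ₗ[ℤ] M') : S.Sup {1} (F.mp F' α) := F.sup_desc fun _ => F'.sIn _

end Fm

variable {Q : Type w'} [Group Q] (π : G →* Q)

variable (S) in
/-- The action on additive maps. -/
noncomputable def act (L : Lat Q) (θ : L.M → (A ⟶ X)) (m : L.M) : (A ⟶ A) →+ (A ⟶ X) :=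
  S.ex fun g => Preadditive.rightComp _ (θ (L.T (π g)⁻¹ m))

variable {π} {L L' L'' : Lat Q}

theorem act_cp (θ : L.M → (A ⟶ X)) (m : L.M) (g : G) (f : A ⟶ A) :
    S.act π L θ m (S.cp g f) = S.cp g f ≫ θ (L.T (π g)⁻¹ m) := ex_cp _ _ _

theorem act_comp (θ : L.M → (A ⟶ X)) (m : L.M) (f : A ⟶ A) (k : X ⟶ Y) :
    S.act π L θ m f ≫ k = S.act π L (fun m => θ m ≫ k) m f :=
  ind_all (S := S) (P := fun f => S.act π L θ m f ≫ k = S.act π L (fun m => θ m ≫ k) m f) f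
    (by simp) (fun a b ha hb => by simp only [map_add, Preadditive.add_comp, ha, hb])
    fun g => by simp only [act_cp, Category.assoc]

theorem act_congr {θ : L.M → (A ⟶ X)} {θ' : L'.M → (A ⟶ X)} {m : L.M} {m' : L'.M}
    (h : ∀ q, θ (L.T q m) = θ' (L'.T q m')) : S.act π L θ m = S.act π L' θ' m' := by
  simp only [act, h]

theorem act_add {θ : L.M → (A ⟶ X)} (h : ∀ a b, θ (a + b) = θ a + θ b) (f : A ⟶ A) (a b : L.M) :
    S.act π L θ (a + b) f = S.act π L θ a f + S.act π L θ b f :=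
  ind_all (S := S) (P := fun f => S.act π L θ (a + b) f = S.act π L θ a f + S.act π L θ b f) f
    (by simp) (fun x y hx hy => by simp only [map_add, hx, hy]; abel)
    fun g => by simp only [act_cp, map_add, h, Preadditive.comp_add]

theorem act_mul (θ : L.M → (A ⟶ X)) (m : L.M) (f f' : A ⟶ A) :
    S.act π L θ m (f ≫ f') = S.act π L (fun m => S.act π L θ m f') m f := by
  refine ind_all (S := S) (P := fun f => S.act π L θ m (f ≫ f') =
    S.act π L (fun m => S.act π L θ m f') m f) f (by simp)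
    (fun a b ha hb => by simp only [map_add, Preadditive.add_comp, ha, hb]) fun g => ?_
  rw [act_cp]
  refine ind_all (S := S) (P := fun f' => S.act π L θ m (S.cp g f ≫ f') =
    S.cp g f ≫ S.act π L θ (L.T (π g)⁻¹ m) f') f' (by simp)
    (fun a b ha hb => by simp only [map_add, Preadditive.comp_add, ha, hb]) fun k => ?_
  have e := S.cp_comp (S.cp_same g f) (S.cp_same k f')
  rw [← e, act_cp, e, act_cp, map_mul, mul_inv_rev, map_mul, Category.assoc]
  rfl

namespace Fm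

variable (F : S.Fm A L.M) (F' : S.Fm A L'.M)

variable (π) in
/-- Tensor product of an endomorphism with a lattice. -/
noncomputable def tens : (A ⟶ A) →+ (F.P ⟶ F.P) :=
  AddMonoidHom.mk' (fun y => F.desc fun m => S.act π L F.In m y) fun a b => by
    simp only [map_add, F.desc_add]

@[reassoc]
theorem In_tens (y : A ⟶ A) (m : L.M) : F.In m ≫ F.tens π y = S.act π L F.In m y :=
  F.In_desc (θ := fun m => S.act π L F.In m y) (act_add (map_add _) _) m

theorem tens_id : F.tens π (𝟙 A) = 𝟙 _ := F.ext fun m => by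
  rw [In_tens, ← S.cp_id, act_cp, S.cp_id]
  simp

theorem tens_comp (a b : A ⟶ A) : F.tens π (a ≫ b) = F.tens π a ≫ F.tens π b := F.ext fun m => by
  rw [In_tens, In_tens_assoc, act_comp, act_mul]
  simp only [In_tens]

theorem iso {u : A ⟶ A} (hu : S.Iso ⊤ u) : S.Iso ⊤ (F.tens π u) := by
  obtain ⟨-, v, -, h3, h4⟩ := hu
  exact ⟨S.sup_top _, F.tens π v, S.sup_top _, by rw [← tens_comp, h3, tens_id],
    by rw [← tens_comp, h4, tens_id]⟩

theorem mp_tens {α : L.M →ₗ[ℤ] L'.M} (h : ∀ q m, α (L.T q m) = L'.T q (α m)) (y : A ⟶ A) :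
    F.mp F' α ≫ F'.tens π y = F.tens π y ≫ F.mp F' α := F.ext fun m => by
  rw [In_mp_assoc, In_tens, In_tens_assoc, act_comp]
  exact DFunLike.congr_fun (act_congr fun q => by rw [In_mp, h]) _

theorem indep (F' : S.Fm A L.M) {u : A ⟶ A} (hu : S.Iso ⊤ u) :
    S.wc ⊤ A (F.tens π u) = S.wc ⊤ A (F'.tens π u) := by
  have : S.Tr ⊤ (F.mp F' .id) := .one ⟨F.sup_mp _ _, F'.mp F .id, by simpa using F'.sup_mp _ _,
    F.ext fun m => by simp [In_mp_assoc, In_mp], F'.ext fun m => by simp [In_mp_assoc, In_mp]⟩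
  exact wc_eq (F.iso hu) (F'.iso hu) this this (F.mp_tens F' (fun _ _ => rfl) u)

end Fm

variable (S π) in
/-- The class of the tensor product. -/
noncomputable def tau (hz : ∃ Z : C, 𝟙 Z = 0) (u : A ⟶ A) (L : Lat Q) : S.Wh ⊤ A :=
  S.wc ⊤ A ((Fm.nonempty (S := S) (A := A) hz L.M).some.tens π u)

variable {hz : ∃ Z : C, 𝟙 Z = 0} {u : A ⟶ A}

theorem tau_ses (hu : S.Iso ⊤ u) : Lat.Ses (S.tau π hz u) := by
  intro L' L L'' α β h1 h2 h3 h4 h5
  obtain ⟨σ, ρ, s1, s2, s3, s4⟩ := Lat.split h3 h4 h5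
  have s5 (m) : ρ (σ m) = 0 := h3 (by simpa [s1] using s4 (σ m))
  unfold tau
  generalize (Fm.nonempty (S := S) (A := A) hz L.M).some = F,
    (Fm.nonempty (S := S) (A := A) hz L'.M).some = F',
    (Fm.nonempty (S := S) (A := A) hz L''.M).some = F''
  have e1 : F'.mp F α ≫ F.mp F' ρ = 𝟙 _ := F'.ext fun m => by simp [Fm.In_mp_assoc, Fm.In_mp, s2]
  have e2 : F'.mp F α ≫ F.mp F'' β = 0 := F'.ext fun m => by simp [Fm.In_mp_assoc, Fm.In_mp, s3]
  have e3 : F''.mp F σ ≫ F.mp F' ρ = 0 := F''.ext fun m => by simp [Fm.In_mp_assoc, Fm.In_mp, s5]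
  have e4 : F''.mp F σ ≫ F.mp F'' β = 𝟙 _ := F''.ext fun m => by
    simp [Fm.In_mp_assoc, Fm.In_mp, s1]
  have e5 : F.mp F' ρ ≫ F'.mp F α + F.mp F'' β ≫ F''.mp F σ = 𝟙 _ := F.ext fun m => by
    simp [Fm.In_mp_assoc, Fm.In_mp, ← map_add, s4]
  have t : S.Tr ⊤ (S.fst _ _ ≫ F'.mp F α + S.snd _ _ ≫ F''.mp F σ) :=
    .one ⟨(fst1.mul1 (Fm.sup_mp _ _ _)).add (snd1.mul1 (Fm.sup_mp _ _ _)),
      F.mp F' ρ ≫ S.inl _ _ + F.mp F'' β ≫ S.inr _ _,
      by simpa using ((Fm.sup_mp _ _ _).mul1 inl1).add ((Fm.sup_mp _ _ _).mul1 inr1),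
      by simp [reassoc_of% e1, reassoc_of% e2, reassoc_of% e3, reassoc_of% e4, S.total],
      by simp [e5]⟩
  obtain ⟨k1, k2⟩ := wc_lower (A := A) (F'.iso hu) (F''.iso hu)
    (S.sup_top (F''.mp F σ ≫ F.tens π u ≫ F.mp F' ρ))
  rw [← k2]
  refine (wc_eq k1 (F.iso hu) t t ?_).symm
  have e6 := congrArg (F''.mp F σ ≫ F.tens π u ≫ ·) e5
  simp only [Preadditive.comp_add, ← reassoc_of% F.mp_tens F'' h2, reassoc_of% e4] at e6
  apply S.hom_ext <;> simp [F'.mp_tens F h1, e6]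

theorem tau_int (hu : S.Iso ⊤ u) : S.tau π hz u (Lat.int Q) = S.wc ⊤ A u := by
  let F : S.Fm A (Lat.int Q).M := ⟨A, 1, fun _ => 𝟙 A, fun _ => 1, zmultiplesHom _ (𝟙 A),
    fun θ m => by simp [← map_zsmul], fun _ => id1,
    fun m g hg => by simp [id1 (S := S) g hg], by simp⟩
  have h (y) : F.tens π y = y := by
    have := F.In_tens (π := π) y (1 : ℤ)
    rw [show F.In (1 : ℤ) = 𝟙 A from one_zsmul _, Category.id_comp] at this
    rw [this]
    exact ind_all (S := S) (P := fun y => S.act π (Lat.int Q) F.In (1 : ℤ) y = y) y (map_zero _)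
      (fun a b ha hb => (map_add _ _ _).trans (congrArg₂ (· + ·) ha hb)) fun g =>
        (act_cp _ _ _ _).trans ((congrArg (S.cp g y ≫ ·) (one_zsmul _)).trans (Category.comp_id _))
  rw [tau, Fm.indep _ F hu, h]

variable (S π A) in
/-- Located objects with an action of the endomorphisms of `A`. -/
structure Tn (X : Type) [MulAction Q X] (P : X → Prop) where
  B : C
  M : S.Lo X B
  on : M.On P
  t : (A ⟶ A) →+ (B ⟶ B)
  id : t (𝟙 A) = 𝟙 B
  comp : ∀ a b, t (a ≫ b) = t a ≫ t b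
  rg : ∀ {T : Set G} {y : A ⟶ A}, S.Sup T y → M.Rg M (fun x g z => g ∈ T ∧ x = π g • z) (t y)

theorem tau_gr (hu : S.Iso ⊤ u) {X : Type} [Fintype X] [MulAction Q X] {P : X → Prop}
    (h : ∀ a : S.Tn A π X P, S.Tr ⊤ (a.t u)) (L : Lat Q) (a : Lat.Gr X P L) : S.tau π hz u L = 0 := by
  unfold tau
  generalize (Fm.nonempty (S := S) (A := A) hz L.M).some = F
  let M : S.Lo X F.P := ⟨fun x => F.mp F (a.ε x), Finset.univ, by simp, fun x => by
      obtain ⟨F'⟩ := Fm.nonempty (S := S) (A := A) hz (LinearMap.range (a.ε x))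
      refine .inr ⟨_, F'.mp F (Submodule.subtype _), F.mp F' (a.ε x).rangeRestrict,
        Fm.sup_mp _ _ _, Fm.sup_mp _ _ _, F'.ext ?_, F.ext fun m => ?_⟩
      · rintro ⟨_, m, rfl⟩
        rw [Fm.In_mp_assoc, Fm.In_mp, Category.comp_id]
        exact congrArg _ (Subtype.ext (a.idem x m))
      · rw [Fm.In_mp_assoc, Fm.In_mp, Fm.In_mp]; rfl,
    fun x y k => F.ext fun m => by simp [Fm.In_mp_assoc, Fm.In_mp, a.orth y x m k.symm],
    F.ext fun m => by simp [Preadditive.comp_sum, Fm.In_mp, ← map_sum, a.total]⟩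
  refine (wc_null (F.iso hu)).2 (h ⟨_, M, fun x k => F.ext fun m => by
    simp [M, Fm.In_mp, a.on x m k], F.tens π, F.tens_id, F.tens_comp, fun {T y} hy x z => ?_⟩)
  refine hy.induction (P := fun y => S.Sup {g | g ∈ T ∧ x = π g • z}
    (F.mp F (a.ε x) ≫ F.tens π y ≫ F.mp F (a.ε z))) (by simpa using Sup.zero)
    (fun a b ha hb => by simpa using ha.add hb) fun g hg => ?_
  rw [Fm.mp, F.desc_comp]
  refine F.sup_desc fun m => ?_
  rw [Fm.In_tens_assoc, act_cp, Category.assoc, Fm.In_mp, a.eqv]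
  by_cases k : x = π g • z
  · exact .comp_one (.of_cp (S.cp_same g y) ⟨hg, k⟩) (F.sIn _).cp_eq
  · rw [a.orth _ _ _ fun e => k (by rw [e, smul_inv_smul]), map_zero, Limits.comp_zero]
    exact .zero

theorem tr_of_primes (hu : S.Iso ⊤ u) (b : ℕ) (h : ∀ p c : ℕ, p.Prime → b < p → 2 * c + 1 = p →
    ∃ i j : ℕ, ((c : ℤ) ^ i * (p : ℤ) ^ j) • S.wc ⊤ A u = 0) : S.Tr ⊤ u := by
  obtain ⟨p, h1, h2⟩ := Nat.exists_infinite_primes (b + 3)
  obtain ⟨c, hc⟩ := h2.odd_of_ne_two (by omega)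
  obtain ⟨i, j, h3⟩ := h p c h2 (by omega) hc.symm
  have h0 : c ^ i * p ^ j ≠ 0 := mul_ne_zero (pow_ne_zero _ (by omega)) (pow_ne_zero _ (by omega))
  obtain ⟨q, h4, h5, h6⟩ := Nat.forall_exists_prime_gt_and_zmodEq (b + 2) (a := -1)
    (q := 2 * (c ^ i * p ^ j)) (by omega) isCoprime_one_left.neg_left
  obtain ⟨d, hd⟩ := h5.odd_of_ne_two (by omega)
  obtain ⟨i', j', h7⟩ := h q d h5 (by omega) hd.symm
  obtain ⟨k, hk⟩ := h6.dvd
  push_cast at hk
  have a1 : IsCoprime (q : ℤ) (c ^ i * p ^ j) := ⟨-1, -2 * k, by linear_combination hk⟩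
  have a2 : IsCoprime (d : ℤ) (c ^ i * p ^ j) := ⟨-1, -k, by
    rw [hd] at hk; push_cast at hk; linarith⟩
  obtain ⟨x, y, e⟩ := (a2.pow_left (m := i')).mul_left (a1.pow_left (m := j'))
  rw [← wc_null (A := A) hu, ← one_zsmul (S.wc ⊤ A u), ← e, add_smul, mul_smul, mul_smul y, h3, h7]
  simp

end GC

end Pool.Agent.Lib.MP_5d3e93_al
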