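import Pool.Agent.Lib.MP_5d3e93_al.Tree2

/-! Linearisation and the splitting theorem for actions on trees. -/

open CategoryTheory

namespace Pool.Agent.Lib.MP_5d3e93_al

universe w v u

namespace GC

variable {G : Type w} [Group G] {C : Type u} [Category.{v} C] [Preadditive C] {S : GC G C}
variable {V : Type*} [MulAction G V]

namespace St

variable (S) (t : TS G V)

/-- All states with one bad summand going to `F` are trivial. -/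
def P1 (a : V) (F : Set V) : Prop := ∀ s : S.St V, s.Ok t →
  (s.L.On fun σ => σ.1 = σ.2 ∨ t.O σ) → (∀ σ, σ ≠ (a, a) → s.Lin σ) →
  s.M.To F (s.L.e (a, a) ≫ s.u) → S.Tr ⊤ s.u

variable {S t}

theorem P1.step {a m w : V} {F : Set V} (h : t.T.Adj m w) (hP : P1 S t a (insert m F)) :
    P1 S t a (insert w F) := by
  rintro ⟨A, Q, L, M, u, v, uv, vu⟩ h1 h2 h3 h4
  dsimp only [Lin] at *
  have ie := L.idem (a, a)
  have de := (L.spl (a, a)).deg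
  obtain ⟨b, b1, b2, b3⟩ : ∃ b : A ⟶ Q, M.To {w} b ∧ M.To F (L.e (a, a) ≫ u - b) ∧
      L.e (a, a) ≫ b = b := by
    obtain ⟨β, b1, b2⟩ := M.part {w} (L.e (a, a) ≫ u)
    refine ⟨_ ≫ β, b1.pre1 de, ?_, by rw [reassoc_of% ie]⟩
    have := ((b2.inter (h4.sub (b1.mono (by simp)))).pre1 de).mono
      (W' := F) fun y hy => hy.2.resolve_left hy.1
    rwa [Preadditive.comp_sub, reassoc_of% ie] at this
  obtain ⟨c, c1, c2, c3, c4⟩ : ∃ c : V × V, t.O c ∧ t.T.Adj c.1 c.2 ∧ m ∈ ({c.1} ∪ {c.2} : Set V) ∧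
      w ∈ ({c.1} ∪ {c.2} : Set V) := by
    rcases t.O3 m w h with k | k
    · exact ⟨_, k, h, by simp, by simp⟩
    · exact ⟨_, k, h.symm, by simp, by simp⟩
  obtain ⟨γ, hγ⟩ := t.r2 m
  obtain ⟨δ, hδ⟩ := t.ρ2 c
  obtain ⟨D, σ, σ', s1, s2, s3, s4⟩ := S.shift A γ⁻¹
  obtain ⟨D', τ', τ, t1, t2, t3, t4⟩ := S.shift D (γ * δ⁻¹)
  have s5 : S.Sup {γ⁻¹} σ := .of_cp s1 rfl
  have t5 : S.Sup {δ * γ⁻¹} τ := .of_cp t2 (by simp)
  have t6 : S.Sup {δ} (τ ≫ σ') := t5.comp (.of_cp (X := {γ}) s2 (by simp)) (by simp)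
  have c5 : t.T.Adj (t.ρ c).1 (t.ρ c).2 := hδ ▸ t.act δ _ _ c2
  have c6 : (a, a) ≠ t.ρ c := fun e => by
    rw [← e] at c5
    exact c5.ne rfl
  have c7 : ∀ z ∈ ({c.1} ∪ {c.2} : Set V), δ • z ∈ ({(t.ρ c).1} ∪ {(t.ρ c).2} : Set V) := by
    rw [← hδ]
    rintro _ (rfl | rfl) <;> simp
  have e : S.blk (u - b) (L.e (a, a) ≫ σ) (-(τ ≫ σ' ≫ b)) τ = S.blk (𝟙 A) 0 0 τ ≫
      S.blk (𝟙 A) (L.e (a, a) ≫ σ) 0 (𝟙 D) ≫ S.blk u 0 0 (𝟙 D) ≫
      S.blk (𝟙 Q) 0 (-(σ' ≫ b)) (𝟙 D) := by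
    simp [reassoc_of% s3, b3, sub_eq_add_neg]
  have z1 : S.blk (𝟙 Q) 0 (-(σ' ≫ b)) (𝟙 D) ≫ S.blk (𝟙 Q) 0 (σ' ≫ b) (𝟙 D) = 𝟙 _ := by simp
  have z2 : S.blk u 0 0 (𝟙 D) ≫ S.blk v 0 0 (𝟙 D) = 𝟙 _ := by simp [uv]
  have z3 : S.blk (𝟙 A) (L.e (a, a) ≫ σ) 0 (𝟙 D) ≫ S.blk (𝟙 A) (-(L.e (a, a) ≫ σ)) 0 (𝟙 D) =
    𝟙 _ := by simp
  have z4 : S.blk (𝟙 A) 0 0 τ' ≫ S.blk (𝟙 A) 0 0 τ = 𝟙 _ := by simp [t3]
  have z5 : S.blk (𝟙 A) (-(L.e (a, a) ≫ σ)) 0 (𝟙 D) ≫ S.blk (𝟙 A) (L.e (a, a) ≫ σ) 0 (𝟙 D) =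
    𝟙 _ := by simp
  have z6 : S.blk v 0 0 (𝟙 D) ≫ S.blk u 0 0 (𝟙 D) = 𝟙 _ := by simp [vu]
  have k := hP ⟨_, _, L.add (.one S (t.ρ c) D'), M.add (.one S (t.r m) D),
    S.blk (u - b) (L.e (a, a) ≫ σ) (-(τ ≫ σ' ≫ b)) τ, S.blk (𝟙 Q) 0 (σ' ≫ b) (𝟙 D) ≫
      S.blk v 0 0 (𝟙 D) ≫ S.blk (𝟙 A) (-(L.e (a, a) ≫ σ)) 0 (𝟙 D) ≫ S.blk (𝟙 A) 0 0 τ',
    by
      rw [e]
      simp only [Category.assoc, reassoc_of% z1, reassoc_of% z2, reassoc_of% z3]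
      simp [t4],
    by
      rw [e]
      simp only [Category.assoc, reassoc_of% z4, reassoc_of% z5, reassoc_of% z6]
      simp⟩
    ⟨h1.1.add (Lo.on_one ⟨by rw [← hδ, t.ρ1, hδ], .inr c5⟩ _),
      h1.2.add (Lo.on_one (by rw [← hγ, t.r1, hγ]) _)⟩
    (h2.add (Lo.on_one (.inr (hδ ▸ t.O1 δ _ c1)) _)) (fun x hx => ?_) ?_
  · dsimp only at k
    rw [e] at k
    exact ((Tr.lower (S.sup_top _)).cancel_right ((Tr.upper (S.sup_top _)).cancel_left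
      (((Tr.hom (H := ⊤) trivial (.of_shift t2 (by simpa using t1) t4 t3)).id_bd _).cancel_left
        k))).of_bd
  · dsimp only [Lin]
    have z : L.e x ≫ b = 0 := by rw [← b3, reassoc_of% L.orth x _ hx, Limits.zero_comp]
    by_cases k : x = t.ρ c
    · subst k
      simpa [Lo.add_e, Lo.one_e, z, reassoc_of% L.orth _ _ hx] using Lo.to_blk (h3 _ hx) .zero
        (b1.pre t6 (by rintro _ rfl _ rfl; exact c7 _ c4)).neg
        (Lo.to_one t5 (by rintro _ rfl; simpa only [← hγ, mul_smul, inv_smul_smul] using c7 _ c3))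
    · simpa [Lo.add_e, Lo.one_e_ne k, z, reassoc_of% L.orth _ _ hx] using
        Lo.to_blk (Z := D') (h3 _ hx) .zero .zero .zero
  · simpa [Lo.add_e, Lo.one_e_ne c6, b3, reassoc_of% ie] using
      Lo.to_blk (Z := D') (b2.mono (Set.subset_insert m F))
        ((Lo.to_one s5 (by rintro _ rfl; simp [← hγ])).pre1 de) .zero .zero

theorem P1.ins {a : V} (w : V) : ∀ F : Set V, a ∈ F → P1 S t a F → P1 S t a (insert w F) :=
  conn_ind t.tree (a := a) (P := fun w => ∀ F : Set V, a ∈ F → P1 S t a F → P1 S t a (insert w F))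
    (fun F h k => by rwa [Set.insert_eq_of_mem h]) (fun _ _ h ih F k hP => (ih F k hP).step h) w

theorem P1.base (hW : ∀ w : V, S.W (MulAction.stabilizer G w))
    (hS : ∀ σ : V × V, t.T.Adj σ.1 σ.2 → S.SFI (MulAction.stabilizer G σ))
    (hG : ∀ τ k, S.Gd S.nt {g | Pth (Stp t.T) (k + 1) τ (g • τ)}) (a : V) : P1 S t a {a} := by
  classical
  intro s h1 h2 h3 h4
  have hL : ∀ σ, s.Lin σ := fun σ => by
    by_cases k : σ = (a, a)
    · exact k ▸ h4.mono (by simp)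
    · exact h3 σ k
  refine split hW hS hG (s.L.s.filter fun σ => s.L.e σ ≠ 0 ∧ σ.1 ≠ σ.2) s h1 (fun σ k => ?_)
    fun σ k => ?_
  · by_cases k1 : s.L.e σ = 0
    · exact .zero k1
    have k2 : σ.1 = σ.2 := by_contra fun k2 =>
      k (Finset.mem_filter.2 ⟨by_contra fun k3 => k1 (s.L.out σ k3), k1, k2⟩)
    exact ⟨0, .zero, by simpa using (hL σ).mono (by simp [k2]), by simpa using Lo.To.zero, by simp⟩
  · obtain ⟨-, k1, k2⟩ := Finset.mem_filter.1 k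
    have k3 := by_contra fun k => k1 (h1.1 σ k)
    have k4 := (by_contra fun k => k1 (h2 σ k)).resolve_left k2
    refine ⟨k3.1, k4, k3.2.resolve_left k2, hL σ, h2 _ ?_⟩
    obtain ⟨g, hg⟩ := t.ρ2 σ.swap
    rw [← hg]
    rintro (k | k)
    · exact k2 (smul_left_cancel g k).symm
    · exact t.O2 σ k4 (by simpa using t.O1 g⁻¹ _ k)

end St

/-- The splitting theorem for actions on trees. -/
theorem W_tree {T : SimpleGraph V} (hT : T.IsTree)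
    (ha : ∀ (g : G) a b, T.Adj a b → T.Adj (g • a) (g • b))
    (hi : ∀ (g : G) a b, T.Adj a b → g • a = b → g • b ≠ a)
    (hW : ∀ w : V, S.W (MulAction.stabilizer G w))
    (hS : ∀ σ : V × V, T.Adj σ.1 σ.2 → S.SFI (MulAction.stabilizer G σ))
    (hG : ∀ τ k, S.Gd S.nt {g | Pth (Stp T) (k + 1) τ (g • τ)}) : S.W ⊤ := by
  obtain ⟨r, ρ, r1, r2, ρ1, ρ2, ρ3⟩ := ex_rep V G
  obtain ⟨O, O1, O2, O3⟩ := ex_orient hi
  let t : TS G V := ⟨T, hT, ha, r, ρ, O, r1, r2, ρ1, ρ2, ρ3, O1, O2, O3⟩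
  obtain ⟨x⟩ := hT.connected.nonempty
  obtain ⟨g, hg⟩ := ρ2 (x, x)
  have h1 : ρ (g • x, g • x) = (g • x, g • x) := (ρ1 g (x, x)).trans hg.symm
  have h2 : r (g • x) = g • x := (ρ3 (g • x, g • x)).trans (congrArg Prod.fst h1)
  rintro A B u ⟨-, v, -, uv, vu⟩
  obtain ⟨F, hF, h3⟩ := Lo.To.fin (Lo.one S (g • x) B) u
  have key : St.P1 S t (g • x) (F ∪ {g • x}) := by
    clear h3
    induction F, hF using Set.Finite.induction_on with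
    | empty => simpa using St.P1.base (t := t) hW hS hG _
    | insert _ _ ih => exact Set.insert_union ▸ St.P1.ins _ _ (by simp) ih
  exact key (St.el (g • x, g • x) (g • x) u v uv vu) ⟨Lo.on_one ⟨h1, .inl rfl⟩ _,
    Lo.on_one (P := fun w => r w = w) h2 _⟩
    (Lo.on_one (.inl rfl) _) (fun σ k => (St.N.zero (t := t) (Lo.one_e_ne k _)).lin)
    (by simpa [St.el, Lo.one_e] using h3.mono (Set.subset_insert _ _))

end GC

end Pool.Agent.Lib.MP_5d3e93_al
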