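import Pool.Agent.Lib.MP_5d3e93_al.Tree3

/-! Splitting linear isomorphisms along the edges. -/

open CategoryTheory

namespace Pool.Agent.Lib.MP_5d3e93_al

universe w v u

namespace GC

variable {G : Type w} [Group G] {C : Type u} [Category.{v} C] [Preadditive C] {S : GC G C}
variable {V : Type*} [MulAction G V]

namespace St

variable (s : S.St V) (t : TS G V)

/-- Linear at a cell. -/
def Lin (σ : V × V) : Prop := s.M.To ({σ.1} ∪ {σ.2}) (s.L.e σ ≫ s.u)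

/-- The idempotent attached to an edge. -/
def PD (σ : V × V) (p : s.A ⟶ s.A) : Prop := s.L.e σ ≫ p = p ∧ p ≫ s.L.e σ = p ∧
  ∃ β : s.A ⟶ s.Q, s.M.To {σ.2} β ∧ s.M.To {σ.1} (s.L.e σ ≫ s.u - β) ∧ s.L.e σ ≫ β = β ∧
    s.L.To (Cs t.T σ) ((β - p ≫ β) ≫ s.v) ∧
    s.L.To (Cs t.T σ.swap) (p ≫ (s.L.e σ ≫ s.u - β) ≫ s.v)

/-- Direct sum. -/
noncomputable def add (s' : S.St V) : S.St V :=
  ⟨_, _, s.L.add s'.L, s.M.add s'.M, S.blk s.u 0 0 s'.u, S.blk s.v 0 0 s'.v,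
    by simp [s.uv, s'.uv], by simp [s.vu, s'.vu]⟩

/-- Elementary states. -/
noncomputable def el (σ : V × V) (w : V) {D D' : C} (a : D ⟶ D') (a' : D' ⟶ D)
    (h : a ≫ a' = 𝟙 D) (h' : a' ≫ a = 𝟙 D') : S.St V :=
  ⟨D, D', .one S σ D, .one S w D', a, a', h, h'⟩

variable {s t} {s' : S.St V} {σ : V × V}

theorem N.lin (h : s.N t σ) : s.Lin σ := by
  obtain ⟨β, h1, h2, -⟩ := h
  have := (h2.mono (Set.subset_union_left (t := {σ.2}))).add (h1.mono Set.subset_union_right)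
  rwa [sub_add_cancel] at this

theorem N.zero (h : s.L.e σ = 0) : s.N t σ :=
  ⟨0, .zero, by simpa [h] using Lo.To.zero, by simpa using Lo.To.zero, by simp⟩

theorem N.add (h : s.N t σ) (h' : s'.N t σ) : (s.add s').N t σ := by
  obtain ⟨β, h1, h2, h3, h4⟩ := h
  obtain ⟨β', k1, k2, k3, k4⟩ := h'
  dsimp only [N, St.add]
  refine ⟨S.blk β 0 0 β', Lo.to_blk h1 .zero .zero k1, ?_, ?_, ?_⟩
  · simpa [Lo.add_e, blk_sub] using Lo.to_blk h2 .zero .zero k2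
  · simpa using Lo.to_blk h3 .zero .zero k3
  · simp [Lo.add_e, h4, k4]

theorem Lin.add (h : s.Lin σ) (h' : s'.Lin σ) : (s.add s').Lin σ := by
  simpa [Lin, St.add, Lo.add_e] using Lo.to_blk h .zero .zero h'

theorem PD.add {p : s.A ⟶ s.A} {p' : s'.A ⟶ s'.A} (h : s.PD t σ p) (h' : s'.PD t σ p') :
    (s.add s').PD t σ (S.blk p 0 0 p') := by
  obtain ⟨a1, a2, β, h1, h2, h3, h4, h5⟩ := h
  obtain ⟨b1, b2, β', k1, k2, k3, k4, k5⟩ := h'
  dsimp only [PD, St.add]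
  refine ⟨by simp [Lo.add_e, a1, b1], by simp [Lo.add_e, a2, b2],
    S.blk β 0 0 β', Lo.to_blk h1 .zero .zero k1, ?_, by simp [Lo.add_e, h3, k3], ?_, ?_⟩
  · simpa [Lo.add_e, blk_sub] using Lo.to_blk h2 .zero .zero k2
  · simpa [blk_sub] using Lo.to_blk h4 .zero .zero k4
  · simpa [Lo.add_e, blk_sub] using Lo.to_blk h5 .zero .zero k5

theorem ex_PD (h : s.Ok t) (hL : ∀ τ, s.Lin τ) (h1 : t.ρ σ = σ) (h2 : t.T.Adj σ.1 σ.2)
    (hz : s.L.e (t.ρ σ.swap) = 0) :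
    ∃ p, S.Sup (MulAction.stabilizer G σ) p ∧ p ≫ p = p ∧ s.PD t σ p := by
  have hT := t.tree
  have hc : ∀ f : s.A ⟶ s.A, s.L.To {τ | (τ.1 = τ.2 ∨ t.T.Adj τ.1 τ.2) ∧ τ ≠ σ.swap} f :=
    fun f => Lo.To.on (P := fun x => (t.ρ x = x ∧ (x.1 = x.2 ∨ t.T.Adj x.1 x.2)) ∧ x ≠ t.ρ σ.swap)
      (fun x k => by
        by_cases e : x = t.ρ σ.swap
        · rw [e, hz]
        · exact h.1 x fun k' => k ⟨k', e⟩)
      (fun g x k => And.intro (k.1.2.imp (congrArg (g • ·)) (t.act g _ _))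
        fun e => k.2 (by rw [← e, t.ρ1, k.1.1])) f
  have ho : s.L.On fun x => t.ρ x = x := fun x k => h.1 x fun k' => k k'.1
  obtain ⟨A, Q, L, M, u, v, uv, vu⟩ := s
  simp only [Lin, PD] at *
  have ie := L.idem σ
  have de := (L.spl σ).deg
  obtain ⟨β, b1, b2, b3⟩ : ∃ β : A ⟶ Q, M.To {σ.2} β ∧ M.To {σ.1} (L.e σ ≫ u - β) ∧
      L.e σ ≫ β = β := by
    obtain ⟨β, b1, b2⟩ := M.part {σ.2} (L.e σ ≫ u)
    refine ⟨L.e σ ≫ β, b1.pre1 de, ?_, by rw [reassoc_of% ie]⟩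
    have := ((b2.inter ((hL σ).sub (b1.mono Set.subset_union_right))).pre1 de).mono
      (W' := {σ.1}) fun y hy => hy.2.resolve_right hy.1
    rwa [Preadditive.comp_sub, reassoc_of% ie] at this
  obtain ⟨p, p1, p2, p3⟩ : ∃ p : A ⟶ A, L.To {σ} p ∧ L.To {σ}ᶜ (β ≫ v - p) ∧ L.e σ ≫ p = p := by
    obtain ⟨p, p1, p2⟩ := L.part {σ} (β ≫ v)
    refine ⟨L.e σ ≫ p, p1.pre1 de, ?_, by rw [reassoc_of% ie]⟩
    have := p2.pre1 de
    rwa [Preadditive.comp_sub, reassoc_of% b3] at this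
  obtain ⟨p4, p5⟩ := p1.stab t.ρ1 ho h1
  obtain ⟨y, y1, y2⟩ := L.part (Cs t.T σ) (β ≫ v - p)
  have n1 : Cs t.T σ ⊆ {σ}ᶜ := fun x k e => not_half hT k.1 (by
    have := k.2.1; rwa [show x = σ from e] at this)
  have n2 : Cs t.T σ.swap ⊆ {σ}ᶜ := fun x k e => not_half hT k.1 (by
    have := k.2.2; rwa [show x = σ from e] at this)
  have y3 : L.To (Cs t.T σ.swap) (β ≫ v - p - y) := by
    refine ((y2.inter (p2.sub (y1.mono n1))).inter (hc _)).mono fun τ k => ?_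
    rcases half_or hT h2 τ.1 with k1 | k1
    · refine (k.1.1 ⟨h2, k1, by_contra fun k2 => ?_⟩).elim
      obtain k3 | k3 := k.2.1
      · exact k2 (k3 ▸ k1)
      · exact k.2.2 (Prod.ext_iff.2 (half_cross hT h2 k3 k1 k2))
    · refine ⟨h2.symm, k1, by_contra fun k2 => ?_⟩
      obtain k3 | k3 := k.2.1
      · exact k2 (k3 ▸ k1)
      · exact k.1.2 (Prod.ext_iff.2 (half_cross hT h2.symm k3 k1 k2))
  have q : ∀ {τ : V × V} {f : A ⟶ A}, L.To (Cs t.T τ) f → M.To (Half t.T τ.1 τ.2) (f ≫ u) :=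
    fun k => k.comp hL fun g x k1 z k2 => by
      obtain rfl | rfl := k2
      exacts [k1.2.1, k1.2.2]
  have s1 : ∀ g ∈ MulAction.stabilizer G σ, g • σ.1 = σ.1 := fun g k => congrArg Prod.fst k
  have s2 : ∀ g ∈ MulAction.stabilizer G σ, g • σ.2 = σ.2 := fun g k => congrArg Prod.snd k
  have c1 : M.To (Half t.T σ.1 σ.2) (β - p ≫ β - y ≫ u) :=
    ((b1.sub (b1.pre p5 fun g k x e => by rw [e, s2 g k]; rfl)).mono
      (by simpa using half_self)).sub (q y1)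
  have c2 : M.To (Half t.T σ.2 σ.1) (p ≫ (L.e σ ≫ u - β) + (β ≫ v - p - y) ≫ u) :=
    ((b2.pre p5 (W' := {σ.1}) fun g k x e => by rw [e, s1 g k]; rfl).mono
      (by simpa using half_self)).add (q y3)
  have c3 : β - p ≫ β - y ≫ u = p ≫ (L.e σ ≫ u - β) + (β ≫ v - p - y) ≫ u := by
    simp [vu, reassoc_of% p4]
    abel
  have c4 := c1.eq_zero (c3 ▸ c2) fun x => half_disj hT h2
  have c5 : (β - p ≫ β) ≫ v = y := by
    rw [sub_eq_zero.1 c4, Category.assoc, uv, Category.comp_id]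
  have c6 : p ≫ (L.e σ ≫ u - β) ≫ v = -(β ≫ v - p - y) := by
    rw [← Category.assoc, eq_neg_of_add_eq_zero_left (c3.symm.trans c4)]
    simp [uv]
  refine ⟨p, p5, ?_, p3, p4, β, b1, b2, b3, c5 ▸ y1, c6 ▸ y3.neg⟩
  refine (sub_eq_zero.1 (Lo.To.eq_zero (W := {σ}) (W' := {σ}ᶜ)
    (p1.sub (p1.pre p5 fun g k x e => by rw [e]; exact k)) ?_ fun _ h k => k h)).symm
  convert (p2.pre p5 (W' := {σ}ᶜ) fun g k x e e' => e (smul_left_cancel g
    (e'.trans (show g • σ = σ from k).symm))).sub (y3.mono n2) using 1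
  rw [← c5]
  simp

theorem step (h : s.Ok t) (hW : S.W (MulAction.stabilizer G σ.1)) (h1 : t.ρ σ = σ)
    (h2 : t.T.Adj σ.1 σ.2) (h3 : σ ≠ t.ρ σ.swap) (hz : s.L.e (t.ρ σ.swap) = 0) {E : C}
    {x : s.A ⟶ E} {y : E ⟶ s.A} (hx : S.Sup (MulAction.stabilizer G σ) x)
    (hy : S.Sup (MulAction.stabilizer G σ) y) (e : y ≫ x = 𝟙 E) (hp : s.PD t σ (x ≫ y)) :
    ∃ s2 : S.St V, s2.Ok t ∧ (S.Tr ⊤ s2.u → S.Tr ⊤ s.u) ∧ s2.N t σ ∧ s2.N t (t.ρ σ.swap) ∧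
      ∀ τ, τ ≠ σ → τ ≠ t.ρ σ.swap → (s.N t τ → s2.N t τ) ∧ (s.Lin τ → s2.Lin τ) ∧
        (s.L.e τ = 0 → s2.L.e τ = 0) := by
  obtain ⟨A, Q, L, M, u, v, uv, vu⟩ := s
  obtain ⟨a1, a2, β, b1, b2, b3, b4, b5⟩ := hp
  simp only at *
  obtain ⟨δ, hδ⟩ := t.ρ2 σ.swap
  obtain ⟨E', θ', θ, t1, t2, t3, t4⟩ := S.shift E δ⁻¹
  have t5 : S.Sup {δ} θ := .of_cp t2 (by simp)
  have t6 : S.Sup {δ⁻¹} θ' := .of_cp t1 rfl
  have x1 : L.e σ ≫ x = x := by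
    have := congrArg (· ≫ x) a1
    simpa [e] using this
  have y1 : y ≫ L.e σ = y := by
    have := congrArg (y ≫ ·) a2
    simpa [reassoc_of% e] using this
  have x2 : ∀ τ, τ ≠ σ → L.e τ ≫ x = 0 := fun τ k => by
    rw [← x1, reassoc_of% L.orth τ σ k, Limits.zero_comp]
  have s1 : ∀ g ∈ MulAction.stabilizer G σ, g • σ.1 = σ.1 := fun g k => congrArg Prod.fst k
  have s2 : ∀ g ∈ MulAction.stabilizer G σ, g • σ.2 = σ.2 := fun g k => congrArg Prod.snd k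
  have K1 : ∀ {Y : C} {W : Set (V × V)} {f : Y ⟶ A}, L.To W f → L.To W (f - f ≫ x ≫ y) :=
    fun k => k.sub (k.comp (R := fun τ => {τ}) (fun τ => by
      by_cases k' : τ = σ
      · rw [k', a1]
        exact Lo.to_of_sup (hx.scomp hy) a2 fun g k => k
      · simpa [reassoc_of% x2 τ k'] using Lo.To.zero) fun g _ k1 _ k2 => by rw [k2]; exact k1)
  have K2 : ∀ {Y : C} {τ : V × V} {f : Y ⟶ A}, L.To (Cs t.T τ) f →
      (Lo.one S (t.ρ σ.swap) E').To (Cs t.T τ) (f ≫ x ≫ θ') := fun {Y τ f} k => by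
    rw [← x1, Category.assoc, ← Category.assoc f]
    refine Lo.to_one ((k σ).comp (Z := {g | g • t.ρ σ.swap ∈ Cs t.T τ})
      (hx.comp t6 (Z := {g | g • t.ρ σ.swap = σ.swap}) ?_) ?_) fun _ k => k
    · rintro g k1 _ rfl
      change (g * δ⁻¹) • t.ρ σ.swap = σ.swap
      rw [← hδ, mul_smul, inv_smul_smul]
      exact congrArg Prod.swap k1
    · intro g k1 g' k2
      change (g * g') • t.ρ σ.swap ∈ Cs t.T τ
      rw [mul_smul, k2]
      exact ⟨k1.1, k1.2.2, k1.2.1⟩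
  have w1 : S.Sup {g | g • σ.swap = t.ρ σ.swap} (θ ≫ y) := t5.comp hy (by
    rintro _ rfl g k
    change (_ * g) • σ.swap = _
    rw [mul_smul, show g • σ.swap = σ.swap from congrArg Prod.swap k, hδ])
  refine ⟨⟨_, _, L.add (.one S (t.ρ σ.swap) E'), M.add (.one S σ.1 E),
    S.blk (u - x ≫ y ≫ u) x (θ ≫ y ≫ u) 0, S.blk (v - v ≫ x ≫ y) (v ≫ x ≫ θ') y 0,
    by simp [uv, reassoc_of% uv, reassoc_of% e, t4], by simp [vu, reassoc_of% e, e,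
      reassoc_of% t3]⟩, ⟨h.1.add (Lo.on_one ⟨by rw [← hδ, t.ρ1, hδ],
      .inr (by rw [← hδ]; exact t.act δ _ _ h2.symm)⟩ _),
      h.2.add (Lo.on_one (by rw [t.ρ3, h1]) _)⟩, fun k => ?_, ?_, ?_, fun τ k1 k2 => ⟨?_, ?_, ?_⟩⟩
  all_goals dsimp only [N, Lin] at *
  · have hω : S.Iso (MulAction.stabilizer G σ) (S.blk (𝟙 _ - x ≫ y) x y 0) := by
      have := Sup.blk ((Sup.id (one_mem _)).sub (hx.scomp hy)) hx hy .zero
      exact ⟨this, _, this, by simp [e, reassoc_of% e], by simp [e, reassoc_of% e]⟩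
    refine (((hW _ _ _ (hω.mono s1)).mono le_top).cancel_left (g := S.blk u 0 0 (𝟙 E))
      (((Tr.hom (H := ⊤) trivial ⟨t5, θ', t6, t4, t3⟩).id_bd A).cancel_left ?_)).of_bd
    simpa using k
  · refine ⟨S.blk (β - x ≫ y ≫ β) 0 0 0, Lo.to_blk (b1.sub (by
      simpa only [Category.assoc] using b1.pre (hx.scomp hy) fun g k z e => by
        rw [e, s2 g k]; rfl)) .zero .zero .zero, ?_, ?_, ?_⟩
    · convert Lo.to_blk (Z := E') (b2.sub (b2.pre (hx.scomp hy) fun g k z e => by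
        rw [e, s1 g k]; rfl)) (Lo.to_one hx s1) .zero .zero using 1
      simp [Lo.add_e, Lo.one_e_ne h3, blk_sub, x1, reassoc_of% x1, reassoc_of% y1]
      congr 1
      abel
    · simpa using Lo.to_blk (Z := E') (K1 b4) (K2 b4) .zero .zero
    · simp [Lo.add_e, b3, reassoc_of% x1]
  · have c : (θ ≫ y) ≫ (x ≫ y) ≫ (L.e σ ≫ u - β) ≫ v = θ ≫ y ≫ (u - β) ≫ v := by
      simp [reassoc_of% e, reassoc_of% y1]
    have c1 := c ▸ b5.pre w1 (W' := Cs t.T (t.ρ σ.swap)) fun g k z k' => by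
      rw [← show g • σ.swap = _ from k]
      exact cs_smul t.act g k'
    refine ⟨S.blk 0 0 (θ ≫ y ≫ (u - β)) 0, Lo.to_blk .zero .zero ?_ .zero, ?_, ?_, ?_⟩
    · simpa [reassoc_of% y1] using b2.pre w1 fun g k z e => by
        rw [e]; exact congrArg Prod.snd k
    · convert Lo.to_blk (Y := A) .zero .zero (b1.pre w1 (W' := {(t.ρ σ.swap).1}) fun g k z e => by
        rw [e]; exact congrArg Prod.fst k) .zero using 1
      simp [Lo.add_e, Lo.one_e, hz, blk_sub]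
    · simpa using Lo.to_blk (Y := A) .zero .zero (K1 c1) (K2 c1)
    · simp [Lo.add_e, Lo.one_e]
  · rintro ⟨γ, c1, c2, c3, c4⟩
    refine ⟨S.blk γ 0 0 0, Lo.to_blk c1 .zero .zero .zero, ?_, ?_, ?_⟩
    · simpa [Lo.add_e, Lo.one_e_ne k2, blk_sub, x2 τ k1, reassoc_of% x2 τ k1] using
        Lo.to_blk (Z := E') c2 .zero .zero .zero
    · simpa using Lo.to_blk (Z := E') (K1 c3) (K2 c3) .zero .zero
    · simp [Lo.add_e, c4]
  · intro c
    simpa [Lin, Lo.add_e, Lo.one_e_ne k2, x2 τ k1, reassoc_of% x2 τ k1] using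
      Lo.to_blk (Z := E') c .zero .zero .zero
  · intro c
    simp [Lo.add_e, Lo.one_e_ne k2, c, blk]

theorem pd_el {w : V} {D D' : C} {a : D ⟶ D'} {a' : D' ⟶ D} (e : a ≫ a' = 𝟙 D)
    (e' : a' ≫ a = 𝟙 D') {g : G} (h : S.Sup {g} a) (hg : g • w = σ.2) :
    (el (S := S) σ w a a' e e').PD t σ (𝟙 D) := by
  dsimp only [PD, el]
  refine ⟨by simp [Lo.one_e], by simp [Lo.one_e], a, Lo.to_one h (by rintro _ rfl; exact hg),
    ?_, by simp [Lo.one_e], ?_, ?_⟩ <;> simpa [Lo.one_e] using Lo.To.zero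

theorem split (hW : ∀ w : V, S.W (MulAction.stabilizer G w))
    (hS : ∀ σ : V × V, t.T.Adj σ.1 σ.2 → S.SFI (MulAction.stabilizer G σ))
    (hG : ∀ τ k, S.Gd S.nt {g | Pth (Stp t.T) (k + 1) τ (g • τ)}) (F : Finset (V × V)) :
    ∀ s : S.St V, s.Ok t → (∀ σ, σ ∉ F → s.N t σ) →
      (∀ σ ∈ F, t.ρ σ = σ ∧ t.O σ ∧ t.T.Adj σ.1 σ.2 ∧ s.Lin σ ∧ s.L.e (t.ρ σ.swap) = 0) →
      S.Tr ⊤ s.u := by
  classical
  have nO : ∀ σ, t.O σ → ¬ t.O (t.ρ σ.swap) := fun σ h k => by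
    obtain ⟨g, hg⟩ := t.ρ2 σ.swap
    exact t.O2 σ h (by simpa [← hg] using t.O1 g⁻¹ _ k)
  induction F using Finset.induction_on with
  | empty => exact fun s h hN _ => fin h (fun σ => hN σ (by simp)) hW hG
  | insert σ F hσ ih =>
    intro s h hN hF
    obtain ⟨h1, h2, h3, h4, h5⟩ := hF σ (by simp)
    obtain ⟨p, p1, p2, p3⟩ := ex_PD h (fun τ => by
      by_cases k : τ ∈ insert σ F
      exacts [(hF τ k).2.2.2.1, (hN τ k).lin]) h1 h3 h5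
    obtain ⟨D, E, x, y, hx, hy, e1, e2⟩ := hS σ h3 _ _ p1 p2
    obtain ⟨γ, hγ⟩ := t.r2 σ.2
    obtain ⟨D', a, a', t1, t2, t3, t4⟩ := S.shift D γ⁻¹
    have t5 : S.Sup {γ⁻¹} a := .of_cp t1 rfl
    have z : ∀ τ, τ ≠ σ → (el (S := S) σ (t.r σ.2) a a' t3 t4).L.e τ = 0 := fun τ k =>
      Lo.one_e_ne k _
    have z' : ∀ τ, t.O τ → s.L.e (t.ρ τ.swap) = 0 →
        (s.add (el σ (t.r σ.2) a a' t3 t4)).L.e (t.ρ τ.swap) = 0 := fun τ k k' => by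
      change S.blk _ 0 0 _ = 0
      rw [k', z _ fun e => nO τ k (by rwa [e])]
      simp [blk]
    obtain ⟨s2, a1, a2, a3, a4, a5⟩ := step (s := s.add (el σ (t.r σ.2) a a' t3 t4))
      ⟨h.1.add (Lo.on_one ⟨h1, .inr h3⟩ _), h.2.add (Lo.on_one (by
        rw [← hγ, t.r1, hγ]) _)⟩ (hW _) h1 h3 (fun e => nO σ h2 (e ▸ h2)) (z' σ h2 h5) hx hy e2
      (e1 ▸ p3.add (pd_el t3 t4 t5 (by simp [← hγ])))
    have k := a2 (ih s2 a1 (fun τ k => ?_) fun τ k => ?_)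
    · have : S.blk s.u 0 0 a = S.blk s.u 0 0 (𝟙 D) ≫ S.blk (𝟙 _) 0 0 a := by simp
      exact (((Tr.hom (H := ⊤) trivial (.of_shift t1 t2 t3 t4)).id_bd _).cancel_right
        (this ▸ k)).of_bd
    · by_cases k1 : τ = σ
      · exact k1 ▸ a3
      by_cases k2 : τ = t.ρ σ.swap
      · exact k2 ▸ a4
      exact (a5 τ k1 k2).1 ((hN τ (by simp [k, k1])).add (.zero (z τ k1)))
    · obtain ⟨b1, b2, b3, b4, b5⟩ := hF τ (by simp [k])
      have k1 : τ ≠ σ := fun e => hσ (e ▸ k)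
      refine ⟨b1, b2, b3, (a5 τ k1 fun e => nO σ h2 (e ▸ b2)).2.1
        (b4.add (N.zero (t := t) (z τ k1)).lin),
        (a5 _ (fun e => nO τ b2 (by rwa [e])) fun e => k1 ?_).2.2 (z' τ b2 b5)⟩
      obtain ⟨g, hg⟩ := t.ρ2 τ.swap
      obtain ⟨g', hg'⟩ := t.ρ2 σ.swap
      have : g • τ = g' • σ := Prod.swap_injective (hg.trans (e.trans hg'.symm))
      rw [← b1, ← t.ρ1 g, this, t.ρ1, h1]

end St

end GC

end Pool.Agent.Lib.MP_5d3e93_al
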