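import Pool.Agent.Lib.MP_5d3e93_al.Words

/-! Split linear isomorphisms over a tree. -/

open CategoryTheory

namespace Pool.Agent.Lib.MP_5d3e93_al

universe w v u

/-- An action on a tree with chosen representatives and an invariant orientation. -/
structure TS (G V : Type*) [Group G] [MulAction G V] where
  T : SimpleGraph V
  tree : T.IsTree
  act : ∀ (g : G) a b, T.Adj a b → T.Adj (g • a) (g • b)
  r : V → V
  ρ : V × V → V × V
  O : V × V → Prop
  r1 : ∀ (g : G) x, r (g • x) = r x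
  r2 : ∀ x, ∃ g : G, g • x = r x
  ρ1 : ∀ (g : G) x, ρ (g • x) = ρ x
  ρ2 : ∀ x, ∃ g : G, g • x = ρ x
  ρ3 : ∀ x, r x.1 = (ρ x).1
  O1 : ∀ (g : G) x, O x → O (g • x)
  O2 : ∀ x, O x → ¬ O x.swap
  O3 : ∀ a b, T.Adj a b → O (a, b) ∨ O (b, a)

namespace GC

variable {G : Type w} [Group G] {C : Type u} [Category.{v} C] [Preadditive C] (S : GC G C)
variable {V : Type*} [MulAction G V]

/-- Isomorphisms between located objects. -/
structure St (V : Type*) where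
  A : C
  Q : C
  L : S.Lo (V × V) A
  M : S.Lo V Q
  u : A ⟶ Q
  v : Q ⟶ A
  uv : u ≫ v = 𝟙 A
  vu : v ≫ u = 𝟙 Q

namespace St

variable {S} (s : S.St V) (t : TS G V)

/-- The locations are representatives. -/
def Ok : Prop := (s.L.On fun σ => t.ρ σ = σ ∧ (σ.1 = σ.2 ∨ t.T.Adj σ.1 σ.2)) ∧
  s.M.On fun w => t.r w = w

/-- The summand belongs to the first vertex. -/
def N (σ : V × V) : Prop := ∃ β : s.A ⟶ s.Q, s.M.To {σ.2} β ∧ s.M.To {σ.1} (s.L.e σ ≫ s.u - β) ∧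
  s.L.To (Cs t.T σ) (β ≫ s.v) ∧ s.L.e σ ≫ β = β

variable {s t}

theorem Ok.cell (h : s.Ok t) {Y : C} (f : Y ⟶ s.A) :
    s.L.To {τ | τ.1 = τ.2 ∨ t.T.Adj τ.1 τ.2} f :=
  Lo.To.on h.1 (fun g _ hx => hx.2.imp (congrArg (g • ·)) (t.act g _ _)) f

theorem fin (h : s.Ok t) (hN : ∀ σ, s.N t σ) (hW : ∀ w : V, S.W (MulAction.stabilizer G w))
    (hG : ∀ τ k, S.Gd S.nt {g | Pth (Stp t.T) (k + 1) τ (g • τ)}) : S.Tr ⊤ s.u := by
  have hT := t.tree
  have hc := @h.cell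
  obtain ⟨A, Q, L, M, u, v, uv, vu⟩ := s
  choose β b1 b2 b3 b4 using hN
  simp only at β b1 b2 b3 b4 hc ⊢
  obtain ⟨u1, e1⟩ : ∃ u1 : A ⟶ Q, ∀ σ, L.e σ ≫ u1 = β σ := ⟨_, L.pick b4⟩
  have a1 : ∀ σ, M.To {σ.2} (L.e σ ≫ u1) := fun σ => e1 σ ▸ b1 σ
  have a0 : ∀ σ, M.To {σ.1} (L.e σ ≫ (u - u1)) := fun σ => by
    rw [Preadditive.comp_sub, e1]; exact b2 σ
  have a2 : ∀ σ, L.To (Cs t.T σ) (L.e σ ≫ u1 ≫ v) := fun σ => by
    rw [reassoc_of% e1]; exact b3 σ
  have a3 : ∀ σ, M.To ({σ.1} ∪ {σ.2}) (L.e σ ≫ u) := fun σ => by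
    simpa using ((a0 σ).mono Set.subset_union_left).add ((a1 σ).mono Set.subset_union_right)
  choose γ c1 c2 using fun w => L.part {τ | τ.1 = w} (M.e w ≫ v)
  obtain ⟨v0, e2⟩ : ∃ v0 : Q ⟶ A, ∀ w, M.e w ≫ v0 = M.e w ≫ γ w :=
    ⟨_, M.pick fun w => by rw [reassoc_of% M.idem w]⟩
  have d0 : ∀ w, L.To {τ | τ.1 = w} (M.e w ≫ v0) := fun w => e2 w ▸ (c1 w).pre1 (M.spl w).deg
  have d1 : ∀ w, L.To {τ | τ.1 = w}ᶜ (M.e w ≫ (v - v0)) := fun w => by
    have := (c2 w).pre1 (M.spl w).deg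
    rwa [Preadditive.comp_sub, reassoc_of% M.idem w, ← e2, ← Preadditive.comp_sub] at this
  have k0 : ∀ {Y : C} {f : Y ⟶ Q} {w : V}, M.To {w} f → L.To {τ | τ.1 = w} (f ≫ v0) :=
    fun h => h.comp d0 fun g x h1 y h2 => (congrArg (g • ·) h2).trans h1
  have k1 : ∀ {Y : C} {f : Y ⟶ Q} {w : V}, M.To {w} f → L.To {τ | τ.1 = w}ᶜ (f ≫ (v - v0)) :=
    fun h => h.comp d1 fun g x h1 y h2 h3 => h2 (smul_left_cancel g (h3.trans h1.symm))
  have n1 : ∀ σ ∈ Cs t.T σ, False := fun σ k => not_half hT k.1 k.2.1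
  have i1 : (u - u1) ≫ v0 = 𝟙 A := L.ext_l fun σ => by
    rw [Category.comp_id, eq_comm, ← sub_eq_zero]
    refine Lo.To.eq_zero (W := {τ | τ.1 = σ.1}) (W' := {τ | τ.1 = σ.1}ᶜ)
      (((Lo.to_e σ).mono (by simp)).sub (by simpa only [Category.assoc] using k0 (a0 σ))) ?_
      fun _ h k => k h
    convert (k1 (a0 σ)).add ((a2 σ).mono fun y hy (k : y.1 = σ.1) =>
      not_half hT hy.1 (k ▸ hy.2.1)) using 1
    simp [uv]
    abel
  have i2 : v0 ≫ (u - u1) = 𝟙 Q := M.ext_l fun w => by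
    obtain ⟨f, hf⟩ : ∃ f, f = M.e w ≫ (v - v0) + (M.e w ≫ v0) ≫ u1 ≫ v := ⟨_, rfl⟩
    have f0 : f ≫ u = M.e w - (M.e w ≫ v0) ≫ (u - u1) := by
      simp [hf, vu]
      abel
    have f1 : L.To {τ | τ.1 = w}ᶜ f := hf ▸ (d1 w).add ((d0 w).comp a2 fun g x h1 y h2 h3 =>
      not_half hT (cs_smul t.act g h2).1 ((h1.trans h3.symm) ▸ (cs_smul t.act g h2).2.1))
    have f2 : M.To {w} (f ≫ u) := f0 ▸ (Lo.to_e w).sub ((d0 w).comp a0 fun g x h1 y h2 => by
      rw [h2]; exact h1)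
    suffices f = 0 by
      rw [this, Limits.zero_comp, eq_comm, sub_eq_zero] at f0
      rw [Category.comp_id, ← Category.assoc, ← f0]
    refine Lo.To.eq_zero (W := {τ | τ.1 = w}) (.all fun y hy => ?_) f1 fun _ h k => k h
    obtain ⟨b, hb, hy'⟩ := (half_ex hT w y.1).resolve_left hy
    obtain ⟨g, g1, g2⟩ := L.part {τ | τ.1 ∈ Half t.T w b} f
    refine ⟨{τ | τ.1 ∈ Half t.T w b}ᶜ, fun k => k hy', ?_⟩
    suffices g = 0 by simpa only [this, sub_zero] using g2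
    have g3 : M.To (Half t.T b w) ((f - g) ≫ u) := by
      refine ((g2.inter (f1.sub (g1.mono fun x h1 (h2 : x.1 = w) =>
        not_half hT hb (h2 ▸ h1)))).inter (hc _)).comp a3 fun k x h1 y h2 => ?_
      have h3 := (half_or hT hb _).resolve_left h1.1.1
      obtain rfl | rfl := h2
      · exact h3
      · by_contra h4
        obtain h5 | h5 := h1.2
        · exact h4 (show (k • x).2 ∈ _ from h5 ▸ h3)
        · exact h1.1.2 (half_cross hT hb.symm h5 h3 h4).1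
    have g4 : M.To (Half t.T b w) (g ≫ u) := by
      simpa using (f2.mono (W' := Half t.T b w) (by simpa using half_self)).sub g3
    obtain ⟨p, p1, p2⟩ := L.part {(b, w)} g
    have p3 : M.To (Half t.T w b) ((g - p) ≫ u) := by
      refine ((p2.inter (g1.sub (p1.mono (by simpa using half_self)))).inter (hc _)).comp a3
        fun k x h1 y h2 => ?_
      obtain rfl | rfl := h2
      · exact h1.1.2
      · by_contra h4
        obtain h5 | h5 := h1.2
        · exact h4 (show (k • x).2 ∈ _ from h5 ▸ h1.1.2)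
        · exact h1.1.1 (Prod.ext_iff.2 (half_cross hT hb h5 h1.1.2 h4))
    have p4 : M.To (Half t.T w b) (p ≫ (u - u1)) := p1.comp a0 fun k x h1 y h2 => by
      rw [h2, show k • x.1 = b from congrArg Prod.fst h1]; exact half_self
    have p5 : M.To (Half t.T b w) (p ≫ u1) := p1.comp a1 fun k x h1 y h2 => by
      rw [h2, show k • x.2 = w from congrArg Prod.snd h1]; exact half_self
    have p6 : g ≫ u - p ≫ u1 = 0 := (g4.sub p5).eq_zero (by convert p3.add p4 using 1; simp)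
      fun x => half_disj hT hb.symm
    have p7 : g = p ≫ u1 ≫ v := by
      rw [← Category.assoc, ← sub_eq_zero.1 p6, Category.assoc, uv, Category.comp_id]
    refine g1.eq_zero (p7 ▸ p1.comp a2 (T := Cs t.T (b, w)) fun k x h1 y h2 => ?_)
      fun x h1 h2 => half_disj hT hb h1 h2.2.1
    rw [← show k • x = (b, w) from h1]
    exact cs_smul t.act k h2
  have hs : ∀ (g : G) x y, Stp t.T x y → Stp t.T (g • x) (g • y) := fun g _ _ h => h.smul t.act g
  have hn : ∀ σ, L.To {τ | Stp t.T σ τ} (L.e σ ≫ (-(u1 ≫ v0))) := fun σ => by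
    have := ((a2 σ).mono (W' := Cs t.T σ ∪ {τ | τ.1 = σ.2}ᶜ) Set.subset_union_left).sub
      ((k1 (a1 σ)).mono Set.subset_union_right)
    simp only [Category.assoc, Preadditive.comp_sub, sub_sub_cancel] at this
    have := (k0 (a1 σ)).inter (by simpa only [Category.assoc] using this)
    rw [Preadditive.comp_neg, ← Category.assoc]
    exact this.neg.mono fun y hy => ⟨hy.1, hy.2.resolve_right fun k => k hy.1⟩
  set n := -(u1 ≫ v0) with hn'
  have e3 : 𝟙 A - n = u ≫ v0 := by rw [← i1, hn']; simp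
  have e4 : (𝟙 A - n) ≫ (u - u1) ≫ v = 𝟙 A := by rw [e3, Category.assoc, reassoc_of% i2, uv]
  have e5 : ((u - u1) ≫ v) ≫ (𝟙 A - n) = 𝟙 A := by rw [e3, Category.assoc, reassoc_of% vu, i1]
  have y1 : ∀ σ, L.To ({σ} ∪ Cs t.T σ) (L.e σ ≫ (u - u1) ≫ v) := fun σ => by
    simpa [uv] using ((Lo.to_e σ).mono Set.subset_union_left).sub
      ((a2 σ).mono Set.subset_union_right)
  choose W W1 W2 using fun σ => Lo.To.fin L (L.e σ ≫ (u - u1) ≫ v)
  obtain ⟨B, hB⟩ := (L.s.finite_toSet.biUnion fun σ _ =>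
    (W1 σ).image fun y => t.T.dist y.1 σ.1).bddAbove
  have hm : pw n (B + 1) = 0 := L.ext_l fun σ => by
    by_cases hσ : σ ∉ L.s
    · simp [L.out σ hσ]
    have z1 : L.To {y | B + 1 ≤ t.T.dist y.1 σ.1} ((L.e σ ≫ pw n (B + 1)) ≫ (u - u1) ≫ v) := by
      refine (Lo.To.pw hs hn _ (Lo.to_e σ)).comp y1 ?_
      rintro g x ⟨σ, rfl, h1⟩ y h2
      obtain ⟨h3, h4⟩ := h1.far hT (c := σ.1) (not_half hT)
      obtain rfl | h2 := h2
      · exact le_of_add_le_right h4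
      · have h5 := cs_smul t.act g h2
        exact (le_of_add_le_right h4).trans (half_dist hT h5.1 (h3 h5.1) h5.2.1).le
    have z2 : L.To {y | t.T.dist y.1 σ.1 ≤ B} ((L.e σ ≫ pw n (B + 1)) ≫ (u - u1) ≫ v) := by
      have := congrArg (fun k => L.e σ ≫ k ≫ (u - u1) ≫ v) (geom_right n (B + 1))
      simp only [Category.assoc, e4, Category.comp_id] at this
      rw [Preadditive.sub_comp, Category.id_comp, Preadditive.comp_sub, eq_sub_iff_add_eq,
        ← eq_sub_iff_add_eq'] at this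
      rw [Category.assoc, this, Preadditive.comp_sum]
      refine ((W2 σ).mono fun y hy => hB (Set.mem_biUnion (not_not.1 hσ) ⟨y, hy, rfl⟩)).sub
        (.sum _ fun j hj => (Lo.To.pw hs hn _ (Lo.to_e σ)).mono ?_)
      rintro y ⟨_, rfl, h1⟩
      exact (h1.near hT).trans (Nat.lt_succ_iff.1 (Finset.mem_range.1 hj))
    have := congrArg (· ≫ (𝟙 A - n)) (z1.eq_zero z2 fun y h1 h2 => by
      simp only [Set.mem_ofPred_eq] at h1 h2; omega)
    simpa only [Category.assoc, ← Category.assoc (u - u1), e5, Category.comp_id, Limits.zero_comp,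
      Limits.comp_zero] using this
  have t1 : S.Tr ⊤ (𝟙 A - n) := Lo.nil_path (θ := S.nt) (R := Stp t.T)
    (fun _ _ _ _ _ h1 h2 h3 h4 => Pth.first hT h1 h2 h3 h4) hs hn t.ρ1
    (fun x k => h.1 x fun k' => k k'.1) hm hG
  have t2 : S.Tr ⊤ v0 := by
    refine Lo.tr_diag (M := L.map Prod.fst) hW t.r1 h.2
      (Lo.On.map h.1 fun x k => by rw [t.ρ3, k.1]) i2 i1
      (fun w => Lo.To.map (fun _ _ => rfl) (d0 w)) fun w => ?_
    classical
    change M.To _ ((∑ x ∈ _, _) ≫ _)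
    rw [Preadditive.sum_comp]
    exact .sum _ fun x hx => (Finset.mem_filter.1 hx).2 ▸ a0 x
  exact t2.cancel_right (e3 ▸ t1)

end St

end GC

end Pool.Agent.Lib.MP_5d3e93_al
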