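import Pool.Agent.Lib.MP_5d3e93_al.Red

/-! Triangular shift structures are reducible. -/

open CategoryTheory
open scoped Pointwise

namespace Pool.Agent.Lib.MP_5d3e93_al

universe w v u

/-- Triangular shift structure on a group, relative to a subgroup `D`. -/
structure TD (P : Type*) [Group P] where
  deg : P → ℤ
  add : ∀ a b, deg (a * b) = deg a + deg b
  t : P
  A : Subgroup P
  L : Subgroup P
  D : Subgroup P
  dt : deg t = 1
  dA : ∀ a ∈ A, deg a = 0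
  dL : ∀ a ∈ L, deg a = 0
  dD : ∀ a ∈ D, deg a = 0
  tA : ∀ a ∈ A, t * a * t⁻¹ ∈ L
  tL : ∀ a ∈ L, t * a * t⁻¹ ∈ L
  tD : ∀ a ∈ D, t * a * t⁻¹ ∈ D
  tD' : ∀ a ∈ D, t⁻¹ * a * t ∈ D
  LA : ∀ l ∈ L, ∀ a ∈ A, l * a * l⁻¹ ∈ A
  DA : ∀ l ∈ D, ∀ a ∈ A, l * a * l⁻¹ ∈ A
  DL : ∀ l ∈ D, ∀ a ∈ L, l * a * l⁻¹ ∈ L
  sep : ∀ l ∈ L, ∀ d ∈ D, l * d ∈ A → l * d = 1
  free : ∀ d ∈ D, ∀ a ∈ A, d * a * d⁻¹ = a → a = 1 ∨ d = 1
  gen : ∀ g, deg g = 0 → ∃ b ∈ Subgroup.closure {g | ∃ i : ℤ, ∃ a ∈ A, g = t ^ i * a * t ^ (-i)},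
    ∃ d ∈ D, g = b * d

namespace TD

variable {P : Type*} [Group P] (T : TD P)

theorem d1 : T.deg 1 = 0 := by
  have := T.add 1 1
  rw [one_mul] at this
  omega

theorem dinv (a : P) : T.deg a⁻¹ = -T.deg a := by
  have := T.add a a⁻¹
  rw [mul_inv_cancel, T.d1] at this
  omega

theorem dpow (k : ℤ) : T.deg (T.t ^ k) = k := by
  induction k using Int.induction_on with
  | zero => simpa using T.d1
  | succ k ih => rw [zpow_add_one, T.add, ih, T.dt]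
  | pred k ih => rw [zpow_sub_one, T.add, ih, T.dinv, T.dt]; ring

theorem powD (k : ℤ) {d : P} (hd : d ∈ T.D) : T.t ^ k * d * T.t ^ (-k) ∈ T.D := by
  induction k using Int.induction_on with
  | zero => simpa using hd
  | succ k ih => convert T.tD _ ih using 1; group
  | pred k ih => convert T.tD' _ ih using 1; group

theorem powL (k : ℕ) {d : P} (hd : d ∈ T.L) : T.t ^ (k : ℤ) * d * T.t ^ (-(k : ℤ)) ∈ T.L := by
  induction k with
  | zero => simpa using hd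
  | succ k ih => convert T.tL _ ih using 1; push_cast; group

/-- The coset of degree `k` of the group generated by `D` and `t`. -/
def Nk (k : ℤ) : Set P := {g | ∃ d ∈ T.D, g = d * T.t ^ k}

variable {T}

theorem Nk.deg {k : ℤ} {g : P} (h : g ∈ T.Nk k) : T.deg g = k := by
  obtain ⟨d, hd, rfl⟩ := h
  rw [T.add, T.dD d hd, T.dpow, zero_add]

theorem Nk.mul {k l : ℤ} {g h : P} (hg : g ∈ T.Nk k) (hh : h ∈ T.Nk l) : g * h ∈ T.Nk (k + l) := by
  obtain ⟨d, hd, rfl⟩ := hg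
  obtain ⟨e, he, rfl⟩ := hh
  exact ⟨_, T.D.mul_mem hd (T.powD k he), by group⟩

theorem Nk.inv {k : ℤ} {g : P} (hg : g ∈ T.Nk k) : g⁻¹ ∈ T.Nk (-k) := by
  obtain ⟨d, hd, rfl⟩ := hg
  exact ⟨_, T.powD (-k) (T.D.inv_mem hd), by group⟩

theorem Nk.zero {g : P} : g ∈ T.Nk 0 ↔ g ∈ T.D :=
  ⟨fun ⟨d, hd, e⟩ => by simpa [e] using hd, fun h => ⟨g, h, by simp⟩⟩

theorem Nk.conjL {k : ℤ} (hk : 0 ≤ k) {n l : P} (hn : n ∈ T.Nk k) (hl : l ∈ T.L) :
    n * l * n⁻¹ ∈ T.L := by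
  obtain ⟨d, hd, rfl⟩ := hn
  obtain ⟨k, rfl⟩ := Int.eq_ofNat_of_zero_le hk
  convert T.DL d hd _ (T.powL k hl) using 1
  group

theorem Nk.conjA {k : ℤ} (hk : 1 ≤ k) {n a : P} (hn : n ∈ T.Nk k) (ha : a ∈ T.A) :
    n * a * n⁻¹ ∈ T.L := by
  obtain ⟨d, hd, rfl⟩ := hn
  convert Nk.conjL (k := k - 1) (by omega) ⟨d, hd, rfl⟩ (T.tA a ha) using 1
  group

theorem key {a a' l l' n n' : P} {k k' : ℤ} (ha : a ∈ T.A) (ha' : a' ∈ T.A) (hl : l ∈ T.L)
    (hl' : l' ∈ T.L) (hn : n ∈ T.Nk k) (hn' : n' ∈ T.Nk k') (e : a * (l * n) = a' * (l' * n')) :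
    a = a' := by
  have h1 := congrArg T.deg e
  simp only [T.add, T.dA _ ha, T.dA _ ha', T.dL _ hl, T.dL _ hl', Nk.deg hn, Nk.deg hn',
    zero_add] at h1
  subst h1
  have h2 : n' * n⁻¹ ∈ T.D := Nk.zero.1 (by simpa using Nk.mul hn' (Nk.inv hn))
  have h3 : l' * (n' * n⁻¹ * l⁻¹ * (n' * n⁻¹)⁻¹) * (n' * n⁻¹) = a'⁻¹ * a := by
    rw [show a = a' * (l' * n') * (l * n)⁻¹ by rw [← e]; group]
    group
  have := T.sep _ (T.L.mul_mem hl' (T.DL _ h2 _ (T.L.inv_mem hl))) _ h2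
    (h3 ▸ T.A.mul_mem (T.A.inv_mem ha') ha)
  rw [h3] at this
  exact (inv_mul_eq_one.1 this).symm

/-- Letters. -/
def Let (T : TD P) : Set P := {g | ∃ a ∈ T.A, ∃ k, 1 ≤ k ∧ ∃ n ∈ T.Nk k, g = a * n}

theorem tail (r : List P) (hr : ∀ g ∈ r, g ∈ T.Let) {k : ℤ} (hk : 1 ≤ k) {n : P}
    (hn : n ∈ T.Nk k) : ∃ l ∈ T.L, ∃ k', 1 ≤ k' ∧ ∃ n' ∈ T.Nk k', n * r.prod = l * n' := by
  induction r generalizing k n with
  | nil => exact ⟨1, T.L.one_mem, k, hk, n, hn, by simp⟩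
  | cons g r ih =>
    obtain ⟨a, ha, k2, hk2, n2, hn2, rfl⟩ := hr g (by simp)
    obtain ⟨l, hl, k', h1, n', hn', e⟩ := ih (fun g hg => hr g (by simp [hg]))
      (k := k + k2) (by omega) (Nk.mul hn hn2)
    refine ⟨_, T.L.mul_mem (Nk.conjA hk hn ha) hl, k', h1, n', hn', ?_⟩
    rw [mul_assoc _ l, ← e, List.prod_cons]
    group

theorem key' {a a' n n' : P} {r r' : List P} {k k' : ℤ} (ha : a ∈ T.A) (ha' : a' ∈ T.A)
    (hr : ∀ g ∈ r, g ∈ T.Let) (hr' : ∀ g ∈ r', g ∈ T.Let) (hk : 1 ≤ k) (hk' : 1 ≤ k')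
    (hn : n ∈ T.Nk k) (hn' : n' ∈ T.Nk k') (e : a * (n * r.prod) = a' * (n' * r'.prod)) :
    a = a' := by
  obtain ⟨l, hl, _, _, m, hm, e1⟩ := tail r hr hk hn
  obtain ⟨l', hl', _, _, m', hm', e2⟩ := tail r' hr' hk' hn'
  exact key ha ha' hl hl' hm hm' (by rw [← e1, ← e2, e])

theorem sep1 : Sep (· ∈ T.Nk 1) ((T.A : Set P) * T.Nk 1) := by
  have hs : ∀ l : List P, (∀ g ∈ l, g ∈ (T.A : Set P) * T.Nk 1) → ∀ g ∈ l, g ∈ T.Let :=
    fun l h g hg => by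
      obtain ⟨a, ha, n, hn, rfl⟩ := h g hg
      exact ⟨a, ha, 1, le_rfl, n, hn, rfl⟩
  have hq : ∀ a ∈ T.A, ∀ n ∈ T.Nk 1, a * n ∈ T.Nk 1 ↔ a = 1 := fun a ha n hn =>
    ⟨fun h => key ha T.A.one_mem T.L.one_mem T.L.one_mem hn h (by simp),
      fun h => by simpa [h] using hn⟩
  suffices ∀ l l' : List P, (∀ g ∈ l, g ∈ (T.A : Set P) * T.Nk 1) →
      (∀ g ∈ l', g ∈ (T.A : Set P) * T.Nk 1) → l.length = l'.length → ∀ d ∈ T.D,
      l.prod = d * l'.prod → l.map (· ∈ T.Nk 1) = l'.map (· ∈ T.Nk 1) from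
    fun l l' h1 h2 h3 h4 => this l l' h1 h2 h3 1 T.D.one_mem (by simpa using h4)
  intro l
  induction l with
  | nil => intro l' _ _ h _ _ _; rw [List.length_eq_zero_iff.1 h.symm]
  | cons g r ih =>
    intro l' h1 h2 h3 d hd e
    obtain _ | ⟨g', r'⟩ := l'
    · simp at h3
    obtain ⟨a, ha, n, hn, rfl⟩ := h1 g (by simp)
    obtain ⟨a', ha', n', hn', rfl⟩ := h2 g' (by simp)
    have h1' := fun g hg => h1 g (List.mem_cons_of_mem _ hg)
    have h2' := fun g hg => h2 g (List.mem_cons_of_mem _ hg)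
    have hdn := Nk.mul (Nk.zero.2 hd) hn'
    have e' : a * (n * r.prod) = d * a' * d⁻¹ * (d * n' * r'.prod) := by
      simp only [List.prod_cons] at e
      rw [← mul_assoc a, e]
      group
    have ea := key' ha (T.DA d hd a' ha') (hs r h1') (hs r' h2') le_rfl (by omega) hn hdn e'
    rw [← ea, mul_right_inj] at e'
    have := ih r' h1' h2' (by simpa using h3) (n⁻¹ * (d * n'))
      (Nk.zero.1 (by simpa using Nk.mul (Nk.inv hn) hdn)) (by rw [mul_assoc, ← e']; group)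
    simp only [List.map_cons, this, hq a ha n hn, hq a' ha' n' hn']
    simp [ea]

/-- Conjugacy under `D`. -/
def cs (T : TD P) : Setoid P where
  r a b := ∃ d ∈ T.D, d * a * d⁻¹ = b
  iseqv := ⟨fun a => ⟨1, T.D.one_mem, by simp⟩,
    fun ⟨d, hd, e⟩ => ⟨d⁻¹, T.D.inv_mem hd, by rw [← e]; group⟩,
    fun ⟨d, hd, e⟩ ⟨d', hd', e'⟩ => ⟨d' * d, T.D.mul_mem hd' hd, by rw [← e', ← e]; group⟩⟩

/-- Representatives of the nontrivial classes in `A`. -/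
def Rp (T : TD P) : Set P := {b | b ∈ T.A ∧ b ≠ 1 ∧ (Quotient.mk T.cs b).out = b}

/-- The free set of letters. -/
def Fr (T : TD P) : Set P := {g | ∃ a ∈ T.Rp, ∃ k, 1 ≤ k ∧ ∃ n ∈ T.Nk k, g = a * n}

theorem fr_let {l : List P} (h : ∀ g ∈ l, g ∈ T.Fr) : ∀ g ∈ l, g ∈ T.Let := fun g hg => by
  obtain ⟨a, ha, h⟩ := h g hg
  exact ⟨a, ha.1, h⟩

theorem fr_aux {n n' g g' : P} {r r' : List P} {k k' : ℤ} (hn : n ∈ T.Nk k) (hn' : n' ∈ T.Nk k')
    (hk : k ≤ k') (hg : g ∈ T.Fr) (hg' : g' ∈ T.Fr) (hr : ∀ g ∈ r, g ∈ T.Let)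
    (hr' : ∀ g ∈ r', g ∈ T.Let) (e : n * (g * r.prod) = n' * (g' * r'.prod)) : n = n' := by
  obtain ⟨b, hb, k2, hk2, m, hm, rfl⟩ := hg
  have hd := Nk.mul (Nk.inv hn) hn'
  have e' : b * (m * r.prod) = n⁻¹ * n' * (g' * r'.prod) := by
    rw [mul_assoc n⁻¹, ← e]; group
  rcases hk.lt_or_eq with h | rfl
  · exact (hb.2.1 (key' (r' := g' :: r') hb.1 T.A.one_mem hr
      (by simpa using ⟨fr_let (l := [g']) (by simpa using hg') g' (by simp), hr'⟩) hk2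
      (by omega) hm hd (by simpa using e'))).elim
  · obtain ⟨b', hb', k2', hk2', m', hm', rfl⟩ := hg'
    have hd' : n⁻¹ * n' ∈ T.D := Nk.zero.1 (by simpa using hd)
    have e2 := key' hb.1 (T.DA _ hd' b' hb'.1) hr hr' hk2 (by omega) hm
      (Nk.mul (Nk.zero.2 hd') hm') (by rw [e']; group)
    have e3 : b = b' := by
      rw [← hb.2.2, ← hb'.2.2, Quotient.sound (s := T.cs) ⟨_, hd', e2.symm⟩]
    rw [e3] at e2
    exact inv_mul_eq_one.1 ((T.free _ hd' _ hb'.1 e2.symm).resolve_left hb'.2.1)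

theorem sep2 : Sep id T.Fr := by
  intro l
  induction l with
  | nil => intro l' _ _ h _; rw [List.length_eq_zero_iff.1 h.symm]
  | cons g r ih =>
    intro l' h1 h2 h3 e
    obtain _ | ⟨g', r'⟩ := l'
    · simp at h3
    obtain ⟨a, ha, k, hk, n, hn, rfl⟩ := h1 g (by simp)
    obtain ⟨a', ha', k', hk', n', hn', rfl⟩ := h2 g' (by simp)
    have h1' := fun g hg => h1 g (List.mem_cons_of_mem _ hg)
    have h2' := fun g hg => h2 g (List.mem_cons_of_mem _ hg)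
    simp only [List.prod_cons, mul_assoc] at e
    obtain rfl := key' ha.1 ha'.1 (fr_let h1') (fr_let h2') hk hk' hn hn' e
    rw [mul_right_inj] at e
    have en : n = n' := by
      obtain _ | ⟨g, s⟩ := r <;> obtain _ | ⟨g', s'⟩ := r'
      · simpa using e
      · simp at h3
      · simp at h3
      · have a1 := fr_let fun g hg => h1' g (List.mem_cons_of_mem _ hg)
        have a2 := fr_let fun g hg => h2' g (List.mem_cons_of_mem _ hg)
        rcases le_total k k' with h | h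
        · exact fr_aux hn hn' h (h1' g (by simp)) (h2' g' (by simp)) a1 a2 (by simpa using e)
        · exact (fr_aux hn' hn h (h2' g' (by simp)) (h1' g (by simp)) a2 a1
            (by simpa using e.symm)).symm
    subst en
    have := ih r' h1' h2' (by simpa using h3) (by simpa using e)
    simpa using this

variable (T) {F : Subgroup P → Prop} {N : Subgroup P}

theorem red0 (hN : F N) (hD : T.D ≤ N) (ht : T.t ∈ N)
    (hc : ∀ w, 0 < T.deg w → ∃ M, F M ∧ w ∈ M) : Red F ((T.A : Set P) * T.Nk 1) := by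
  refine .elim hN ?_ sep1 (.move (X := {g | ∃ k, 0 ≤ k ∧ g ∈ T.Nk k}) (Y := T.Rp * T.Nk 1) ?_
    (Red.mono (.free (sep2 (T := T)) fun l hl h => hc _ ?_) ?_))
  · rintro _ ⟨d, hd, rfl⟩
    exact N.mul_mem (hD hd) (N.zpow_mem ht _)
  · rintro _ ⟨x, hx, _, ⟨⟨a, ha, n, hn, rfl⟩, h⟩, rfl⟩
    have hx' : ∃ k, 0 ≤ k ∧ x ∈ T.Nk k := by
      induction hx using Submonoid.closure_induction with
      | mem x h => exact ⟨1, by omega, h⟩
      | one => exact ⟨0, le_rfl, Nk.zero.2 T.D.one_mem⟩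
      | mul _ _ _ _ h1 h2 =>
        obtain ⟨k, h1, h3⟩ := h1
        obtain ⟨k', h2, h4⟩ := h2
        exact ⟨_, by omega, Nk.mul h3 h4⟩
    obtain ⟨k, hk, hx'⟩ := hx'
    obtain ⟨d, hd, e⟩ := Quotient.exact (s := T.cs) (Quotient.mk T.cs a).out_eq.symm
    refine ⟨x * d⁻¹, ⟨k + 0, by omega, Nk.mul hx' (Nk.zero.2 (T.D.inv_mem hd))⟩, _,
      ⟨d * a * d⁻¹, ⟨T.DA d hd a ha, fun h1 => h ?_, by rw [e, Quotient.out_eq]⟩, d * n,
        by simpa using Nk.mul (Nk.zero.2 hd) hn, rfl⟩, by simp only; group⟩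
    have : a = 1 := by simpa using h1
    simpa [this] using hn
  · obtain _ | ⟨g, r⟩ := l
    · exact (hl rfl).elim
    obtain ⟨a, ha, k, hk, n, hn, rfl⟩ := h g (by simp)
    obtain ⟨l, hl, k', hk', n', hn', e⟩ := tail r
      (fr_let fun g hg => h g (List.mem_cons_of_mem _ hg)) hk hn
    rw [List.prod_cons, mul_assoc, e, T.add, T.add, T.dA _ ha.1, T.dL _ hl, Nk.deg hn']
    omega
  · rintro _ ⟨_, ⟨b, hb, n, hn, rfl⟩, x, ⟨k, hk, hx⟩, rfl⟩
    exact ⟨b, hb, 1 + k, by omega, _, Nk.mul hn hx, mul_assoc _ _ _⟩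

/-- Windows. -/
def V (lo hi : ℤ) : Subgroup P :=
  Subgroup.closure {g | ∃ i, lo ≤ i ∧ i ≤ hi ∧ ∃ a ∈ T.A, g = T.t ^ i * a * T.t ^ (-i)}

theorem V_mono {a b c d : ℤ} (h1 : c ≤ a) (h2 : b ≤ d) : T.V a b ≤ T.V c d :=
  Subgroup.closure_mono fun _ ⟨i, h3, h4, h⟩ => ⟨i, h1.trans h3, h4.trans h2, h⟩

theorem V_conj {a b k : ℤ} {n g : P} (hn : n ∈ T.Nk k) (hg : g ∈ T.V a b) :
    n * g * n⁻¹ ∈ T.V (a + k) (b + k) := by
  induction hg using Subgroup.closure_induction with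
  | mem _ h =>
    obtain ⟨i, h1, h2, x, hx, rfl⟩ := h
    obtain ⟨d, hd, rfl⟩ := hn
    exact Subgroup.subset_closure ⟨i + k, by omega, by omega, _,
      T.DA _ (T.powD (-(i + k)) hd) x hx, by group⟩
  | one => simp
  | mul x y _ _ h1 h2 => convert mul_mem h1 h2 using 1; group
  | inv x _ h => convert inv_mem h using 1; group

theorem V_le_L (b : ℤ) : T.V 1 b ≤ T.L := by
  rw [V, Subgroup.closure_le]
  rintro _ ⟨i, h1, -, a, ha, rfl⟩
  simpa using Nk.conjA h1 (n := T.t ^ i) ⟨1, T.D.one_mem, by simp⟩ ha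

theorem V_split (b : ℤ) {g : P} (hg : g ∈ T.V 0 b) : ∃ a ∈ T.A, ∃ v ∈ T.V 1 b, g = a * v := by
  induction hg using Subgroup.closure_induction with
  | mem _ h =>
    obtain ⟨i, h1, h2, x, hx, rfl⟩ := h
    rcases h1.lt_or_eq with h | rfl
    · exact ⟨1, one_mem _, _, Subgroup.subset_closure ⟨i, h, h2, x, hx, rfl⟩, by simp⟩
    · exact ⟨x, hx, 1, one_mem _, by simp⟩
  | one => exact ⟨1, one_mem _, 1, one_mem _, by simp⟩
  | mul x y _ _ h1 h2 =>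
    obtain ⟨a, ha, v, hv, rfl⟩ := h1
    obtain ⟨a', ha', v', hv', rfl⟩ := h2
    exact ⟨_, mul_mem ha (T.LA v (T.V_le_L b hv) a' ha'), _, mul_mem hv hv', by group⟩
  | inv x _ h =>
    obtain ⟨a, ha, v, hv, rfl⟩ := h
    exact ⟨_, T.LA _ (T.V_le_L b (inv_mem hv)) _ (inv_mem ha), _, inv_mem hv, by group⟩

theorem redV (h0 : Red F ((T.A : Set P) * T.Nk 1)) (k : ℕ) :
    Red F ((T.V 0 (k - 1) : Set P) * (T.A * T.Nk 1)) := by
  induction k with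
  | zero =>
    refine h0.mono ?_
    rintro _ ⟨v, hv, x, hx, rfl⟩
    have : v = 1 := by
      have h : T.V 0 ((0 : ℕ) - 1) ≤ ⊥ := by
        rw [V, Subgroup.closure_le]
        rintro _ ⟨i, h1, h2, -⟩
        omega
      exact h hv
    simpa [this] using hx
  | succ k ih =>
    refine .move ?_ ih
    rintro _ ⟨v, hv, _, ⟨a, ha, n, hn, rfl⟩, rfl⟩
    obtain ⟨a', ha', v', hv', rfl⟩ := T.V_split _ hv
    refine ⟨_, ⟨_, mul_mem ha' (T.LA v' (T.V_le_L _ hv') a ha), n, hn, rfl⟩, n⁻¹ * v' * n⁻¹⁻¹,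
      T.V_mono (by omega) (by push_cast; omega) (T.V_conj (Nk.inv hn) hv'), by simp only; group⟩

theorem red (hN : F N) (hD : T.D ≤ N) (ht : T.t ∈ N)
    (hc : ∀ w, 0 < T.deg w → ∃ M, F M ∧ w ∈ M) {Ω : Set P} (hΩ : Ω.Finite)
    (h1 : ∀ g ∈ Ω, T.deg g = 1) : Red F Ω := by
  have h : ∀ g ∈ Ω, ∃ m : ℕ, ∃ b ∈ T.V (-m) m, ∃ n ∈ T.Nk 1, g = b * n := by
    intro g hg
    obtain ⟨b, hb, d, hd, e⟩ := T.gen (g * T.t⁻¹) (by rw [T.add, T.dinv, h1 g hg, T.dt]; rfl)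
    suffices ∃ m : ℕ, b ∈ T.V (-m) m by
      obtain ⟨m, hm⟩ := this
      exact ⟨m, b, hm, _, ⟨d, hd, rfl⟩, by rw [← mul_assoc, ← e]; group⟩
    clear e
    induction hb using Subgroup.closure_induction with
    | mem _ h =>
      obtain ⟨i, a, ha, rfl⟩ := h
      exact ⟨i.natAbs, Subgroup.subset_closure ⟨i, by omega, by omega, a, ha, rfl⟩⟩
    | one => exact ⟨0, one_mem _⟩
    | mul x y _ _ h1 h2 =>
      obtain ⟨m, h1⟩ := h1
      obtain ⟨m', h2⟩ := h2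
      exact ⟨m + m', mul_mem (T.V_mono (by push_cast; omega) (by push_cast; omega) h1)
        (T.V_mono (by push_cast; omega) (by push_cast; omega) h2)⟩
    | inv x _ h => exact h.imp fun _ => inv_mem
  choose! m hm using h
  obtain ⟨M, hM⟩ := (hΩ.image m).bddAbove
  refine .move (X := {T.t ^ (-M : ℤ)}) (Y := {T.t ^ (M : ℤ)} * Ω) ?_
    ((T.redV (T.red0 hN hD ht hc) (2 * M + 1)).mono ?_)
  · intro g hg
    exact ⟨_, rfl, _, ⟨_, rfl, g, hg, rfl⟩, by simp⟩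
  · rintro _ ⟨_, ⟨_, rfl, g, hg, rfl⟩, _, rfl, rfl⟩
    obtain ⟨b, hb, n, hn, e⟩ := hm g hg
    have h2 : m g ≤ M := hM (Set.mem_image_of_mem m hg)
    have h3 : T.t ^ (M : ℤ) ∈ T.Nk M := ⟨1, one_mem _, by simp⟩
    refine ⟨_, T.V_mono (by omega) (by push_cast; omega) (T.V_conj h3 hb), _,
      ⟨1, one_mem _, T.t ^ (M : ℤ) * n * (T.t ^ (M : ℤ))⁻¹,
        by simpa using Nk.mul (Nk.mul h3 hn) (Nk.inv h3), rfl⟩, ?_⟩
    simp only
    rw [e]
    group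

/-- The kernel of the degree. -/
def K : Subgroup P where
  carrier := {g | T.deg g = 0}
  one_mem' := T.d1
  mul_mem' := fun {a b} (ha : T.deg a = 0) (hb : T.deg b = 0) => by
    change T.deg _ = 0
    rw [T.add, ha, hb]; rfl
  inv_mem' := fun {a} (ha : T.deg a = 0) => by
    change T.deg _ = 0
    rw [T.dinv, ha]; rfl

end TD

namespace GC

variable {G : Type w} [Group G] {C : Type u} [Category.{v} C] [Preadditive C] {S : GC G C}
variable {Γ : Type*} [Group Γ] {P : Type*} [Group P]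

theorem W_of_red {j : Γ →* G} (hj : Function.Injective j) {p : Γ →* P}
    (hp : Function.Surjective p) {F : Subgroup P → Prop}
    (hF : ∀ N, F N → S.W ((N.comap p).map j)) (deg : P → ℤ)
    (hd : ∀ a b, deg (a * b) = deg a + deg b) {t : P} (ht : deg t = 1) {K : Subgroup P}
    (hK : ∀ g, g ∈ K ↔ deg g = 0) (hW : S.W ((K.comap p).map j))
    (hS : S.SFI ((K.comap p).map j))
    (hr : ∀ Ω : Set P, Ω.Finite → (∀ g ∈ Ω, deg g = 1) → Red F Ω) : S.W j.range := by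
  obtain ⟨r, hr'⟩ := hj.hasLeftInverse
  let Z : Zg G := ⟨j.range, fun g => deg (p (r g)), by
    rintro _ ⟨a, rfl⟩ _ ⟨b, rfl⟩
    rw [← map_mul, hr', hr', hr', map_mul, hd]⟩
  have e : Z.K = (K.comap p).map j := by
    ext g
    constructor
    · rintro ⟨⟨a, rfl⟩, h⟩
      exact ⟨a, (hK _).2 (by simpa [Z, hr' a] using h), rfl⟩
    · rintro ⟨a, h, rfl⟩
      exact ⟨⟨a, rfl⟩, by simpa [Z, hr' a] using (hK _).1 h⟩
  have key : ∀ k : ℤ, (∀ Ω : Set P, Ω.Finite → (∀ g ∈ Ω, deg g = k) → Red F Ω) →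
      S.Good Z.Γ {g | g ∈ Z.Γ ∧ Z.χ g = k} := by
    intro k h A x hx hm
    obtain ⟨Φ, h1, h2, h3⟩ := hx.finite
    refine Red.good hj hp hF (h _ (h1.image fun g => p (r g)) ?_) A x (h3.mono ?_) hm
    · rintro _ ⟨g, hg, rfl⟩
      exact (h2 hg).2
    · intro g hg
      obtain ⟨a, rfl⟩ := (h2 hg).1
      exact ⟨a, ⟨_, hg, by simp [hr' a]⟩, rfl⟩
  obtain ⟨τ, rfl⟩ := hp t
  refine FH (Z := Z) (e ▸ hW) (e ▸ hS) (key 1 hr) (key (-1) fun Ω h1 h2 => ?_) (t := j τ) ⟨τ, rfl⟩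
    (by simpa [Z, hr' τ] using ht)
  have h0 : deg 1 = 0 := by
    have := hd 1 1
    rw [one_mul] at this
    omega
  simpa using (hr Ω⁻¹ h1.inv fun g hg => by
    have := hd g g⁻¹
    rw [mul_inv_cancel, h0, h2 g⁻¹ hg] at this
    omega).inv

theorem W_of_td {j : Γ →* G} (hj : Function.Injective j) {p : Γ →* P}
    (hp : Function.Surjective p) (T : TD P) {N : Subgroup P} (hD : T.D ≤ N) (ht : T.t ∈ N)
    (hN : S.W ((N.comap p).map j))
    (hc : ∀ w, 0 < T.deg w → S.W (((Subgroup.zpowers w).comap p).map j))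
    (hW : S.W ((T.K.comap p).map j)) (hS : S.SFI ((T.K.comap p).map j)) : S.W j.range :=
  W_of_red hj hp (F := fun N => S.W ((N.comap p).map j)) (fun _ h => h) T.deg T.add T.dt
    (fun _ => Iff.rfl) hW hS fun _ h1 h2 =>
      T.red hN hD ht (fun w hw => ⟨_, hc w hw, Subgroup.mem_zpowers w⟩) h1 h2

end GC

end Pool.Agent.Lib.MP_5d3e93_al
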