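import Pool.Agent.Lib.MP_5d3e93_al.TwGC

/-! The triangular criterion for a fixed coefficient category. -/

open CategoryTheory Limits

namespace Pool.Agent.Lib.MP_5d3e93_al

universe w v u

/-- Triangular data from subgroups. -/
def TD.mk' {G : Type*} [Group G] (χ : G →* Multiplicative ℤ) (t : G)
    (ht : χ t = Multiplicative.ofAdd 1) (A L : Subgroup G) (hL : L ≤ χ.ker)
    (hN : L ≤ Subgroup.normalizer A) (hAL : A ⊓ L = ⊥) (htA : ∀ a ∈ A, t * a * t⁻¹ ∈ L)
    (htL : ∀ l ∈ L, t * l * t⁻¹ ∈ L)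
    (hK : χ.ker = Subgroup.closure {g | ∃ i : ℤ, ∃ a ∈ A, g = t ^ i * a * t ^ (-i)}) : TD G where
  deg g := (χ g).toAdd
  add a b := by simp
  t := t
  A := A
  L := L
  D := ⊥
  dt := by simp [ht]
  dA a ha := by
    have : a ∈ χ.ker := hK ▸ Subgroup.subset_closure ⟨0, a, ha, by simp⟩
    simpa using this
  dL a ha := by simpa using hL ha
  dD a ha := by simp [Subgroup.mem_bot.1 ha]
  tA := htA
  tL := htL
  tD a ha := by simp [Subgroup.mem_bot.1 ha]
  tD' a ha := by simp [Subgroup.mem_bot.1 ha]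
  LA l hl a ha := (Subgroup.mem_normalizer_iff.1 (hN hl) a).1 ha
  DA l hl a ha := by simpa [Subgroup.mem_bot.1 hl] using ha
  DL l hl a ha := by simpa [Subgroup.mem_bot.1 hl] using ha
  sep l hl d hd h := by
    obtain rfl := Subgroup.mem_bot.1 hd
    rw [mul_one] at h ⊢
    exact Subgroup.mem_bot.1 (hAL ▸ ⟨h, hl⟩)
  free d hd _ _ _ := .inr (Subgroup.mem_bot.1 hd)
  gen g hg := ⟨g, hK ▸ (by simpa using hg : g ∈ χ.ker), 1, one_mem _, by simp⟩

theorem comap_fst_map_id {G : Type*} [Group G] (N : Subgroup G) :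
    (N.comap (MonoidHom.fst G Zi)).map (MonoidHom.id _) = N.prod ⊤ := by
  ext g
  simp [Subgroup.mem_prod]

theorem triangular {G : Type w} [Group G] {C : Type u} [Category.{v} C] [Preadditive C]
    [HasBinaryBiproducts C] (ρ : Act G C) (T : TD G) (hD : T.D = ⊥) (h0 : K0Zero C)
    (hc : ∀ g, K1Zero (TwZ (ρ.comap (Subgroup.zpowers g).subtype)))
    (hK : K1Zero (TwZ (ρ.comap T.K.subtype))) : K1Zero (TwZ ρ) := by
  refine K1_of_W h0 hc ?_
  have h1 := W_of_K1 h0 hK
  have := GC.W_of_td (S := twGC (ρ.comap (MonoidHom.fst G Zi))) (j := MonoidHom.id _)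
    Function.injective_id (p := MonoidHom.fst G Zi) Prod.fst_surjective T
    (N := Subgroup.zpowers T.t) (hD ▸ bot_le) (Subgroup.mem_zpowers _)
    (by rw [comap_fst_map_id]; exact W_of_K1 h0 (hc _))
    (fun w _ => by rw [comap_fst_map_id]; exact W_of_K1 h0 (hc _))
    (by rw [comap_fst_map_id]; exact h1)
    (by
      rw [comap_fst_map_id]
      exact GC.sfi_of_W (twGC_central ρ) (fun z => ⟨one_mem _, trivial⟩) h1)
  rwa [(MonoidHom.range_eq_top (f := MonoidHom.id _)).2 Function.surjective_id] at this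

end Pool.Agent.Lib.MP_5d3e93_al
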