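import Pool.Agent.Lib.MP_5d3e93_al.Pc
import Pool.Agent.Lib.MP_5d3e93_al.Ar

/-! Virtual characters and affine actions of HNN extensions. -/

open Module HNNExtension

namespace Pool.Agent.Lib.MP_5d3e93_al

universe w

section

variable {G : Type*} [Group G] {U L : Subgroup G} {m : ℕ}

/-- Virtual characters. -/
def XS (U : Subgroup G) : Submodule ℚ (G → ℚ) where
  carrier := {f | (∀ x, x ∉ U → f x = 0) ∧ (∀ x ∈ U, ∀ k : ℕ, f (x ^ k) = k * f x) ∧
    ∃ H ≤ U, Fi H U ∧ Ad H f}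
  zero_mem' := ⟨fun _ _ => rfl, by simp, U, le_rfl, .of_le le_rfl, fun _ _ _ _ => by simp⟩
  add_mem' := fun ⟨a, b, H, c, d, e⟩ ⟨a', b', H', _, d', e'⟩ =>
    ⟨fun x k => by simp [a x k, a' x k], fun x k n => by simp [b x k, b' x k, mul_add], H ⊓ H',
      inf_le_left.trans c, d.inf d', fun x k y l => by
        simp only [Pi.add_apply, e x k.1 y l.1, e' x k.2 y l.2]; ring⟩
  smul_mem' := fun r _ ⟨a, b, H, c, d, e⟩ => ⟨fun x k => by simp [a x k],
    fun x k n => by simp [b x k, mul_left_comm], H, c, d, fun x k y l => by simp [e x k y l, mul_add]⟩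

theorem xs_zero {f : G → ℚ} (h : f ∈ XS U) (a : Fi L U) (b : ∀ x ∈ L, f x = 0) : f = 0 :=
  funext fun x => by_contra fun c => by
    have d : x ∈ U := by_contra fun d => c (h.1 x d)
    obtain ⟨k, e, g⟩ := a.pow d
    exact mul_ne_zero (Nat.cast_ne_zero.2 e.ne') c (h.2.1 x d k ▸ b _ g)

theorem xs_fin (h : PS m U) : Module.Finite ℚ (XS U) := by
  classical
  induction m generalizing U with
  | zero =>
    have : Subsingleton (XS U) := subsingleton_of_forall_eq 0 fun f => Subtype.ext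
      (xs_zero (L := ⊥) f.2 (.of_finite h) (by simpa using f.2.2.1 1 (one_mem _) 0))
    infer_instance
  | succ m ih =>
    obtain ⟨H, a, b, χ, c, d⟩ := h
    have := ih d
    obtain ⟨t, t1, t2⟩ : ∃ t ∈ H, χ t ≠ 0 ∨ ∀ x ∈ H, χ x = 0 := by
      by_cases e : ∀ x ∈ H, χ x = 0
      · exact ⟨1, one_mem _, .inr e⟩
      · push Not at e
        exact e.imp fun t g => ⟨g.1, .inl g.2⟩
    let r : XS U →ₗ[ℚ] XS c.ker × ℚ :=
      { toFun f := (⟨fun x => if x ∈ c.ker then f.1 x else 0, fun x k => if_neg k, fun x k n => by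
          simp [k, pow_mem k n, f.2.2.1 x (a k.1)], f.2.2.2.elim fun K e => ⟨c.ker ⊓ K, inf_le_left,
            (Fi.of_le le_rfl).inf (e.2.1.mono le_rfl (c.ker_le.trans a)), fun x k y l => by
              have k' : x ∈ c.ker := k.1
              have l' : y ∈ c.ker := l.1
              simp [k', l', mul_mem k' l', e.2.2 x k.2 y l.2]⟩⟩, f.1 t)
        map_add' f g := Prod.ext (Subtype.ext (funext fun x => by
          by_cases k : x ∈ c.ker <;> simp [k])) rfl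
        map_smul' f g := Prod.ext (Subtype.ext (funext fun x => by simp)) rfl }
    refine .of_injective r ((injective_iff_map_eq_zero r).2 fun f e => Subtype.ext ?_)
    obtain ⟨K, k1, k2, k3⟩ := f.2.2.2
    have e1 (x) (k : x ∈ c.ker) : f.1 x = 0 := by
      simpa [r, k] using congrFun (congrArg (fun y => y.1.1) e) x
    have e2 : Fi k3.ker c.ker := ((Fi.of_le le_rfl).inf (k2.mono le_rfl (c.ker_le.trans a))).mono
      (fun x o => ⟨o.2, e1 x o.1⟩) le_rfl
    refine xs_zero f.2 (Fi.trans (K := H) ?_ b) (L := k3.ker) fun x o => o.2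
    obtain t2 | t2 := t2
    · obtain ⟨k, g, l⟩ := k2.pow (a t1)
      exact c.step (pow_mem t1 k) ⟨l, by
        rw [f.2.2.1 t (a t1), show f.1 t = 0 from congrArg Prod.snd e, mul_zero]⟩
        (by simp [c.pow t1, g.ne', t2]) e2
    · exact e2.mono le_rfl fun x o => ⟨o, t2 x o⟩

theorem xs_ext {ψ : G → ℚ} (a : Fi L ⊤) (h : Ad L ψ) : ∃ g ∈ XS ⊤, ∀ x ∈ L, g x = ψ x := by
  choose N n1 n2 using fun x => a.pow (Subgroup.mem_top x)
  have e (x) (k : ℕ) (b : 0 < k) (c : x ^ k ∈ L) : ψ (x ^ N x) / N x = ψ (x ^ k) / k := by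
    have := h.pow (n2 x) k
    rw [← pow_mul, mul_comm, pow_mul, h.pow c] at this
    rw [div_eq_div_iff (Nat.cast_ne_zero.2 (n1 x).ne') (Nat.cast_ne_zero.2 b.ne')]
    simpa [mul_comm] using this.symm
  have e' (x) (c : x ∈ L) : ψ (x ^ N x) / N x = ψ x := by simpa using e x 1 one_pos (by simpa)
  refine ⟨fun x => ψ (x ^ N x) / N x, ⟨by simp, fun x _ k => ?_, L, le_top, a, fun x b y c => by
    simp only [e' _ b, e' _ c, e' _ (mul_mem b c), h x b y c]⟩, e'⟩
  have : (x ^ k) ^ N x = (x ^ N x) ^ k := by rw [← pow_mul, mul_comm, pow_mul]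
  beta_reduce
  rw [e _ _ (n1 x) (this ▸ pow_mem (n2 x) k), this, h.pow (n2 x), nsmul_eq_mul, mul_div_assoc]

end

variable {Q D : Type w} [Group Q] [Group D] {m n : ℕ}

theorem ex_kap (h : PS (m + 1) (⊤ : Subgroup Q)) (h' : ¬ PS m (⊤ : Subgroup Q)) :
    ∃ n, 0 < n ∧ ∃ κ : Q → Fin n → ℚ, (∃ N : Subgroup Q, N.Normal ∧ Fi N ⊤ ∧ Ad N κ) ∧
      (∀ L : Subgroup Q, Fi L ⊤ → Submodule.span ℚ (κ '' L) = ⊤) ∧ ∀ (D : Type w) [Group D] (u v : D →* Q),
        Fi u.range ⊤ → (∀ a, u a = 1 → IsOfFinOrder (v a)) →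
          ∃ M : End ℚ (Fin n → ℚ), ∀ a, κ (v a) = M (κ (u a)) := by
  have := xs_fin h
  let b := finBasis ℚ (XS (⊤ : Subgroup Q))
  have e (f : XS (⊤ : Subgroup Q)) (x) : f.1 x = ∑ i, b.repr f i * (b i).1 x := by
    simpa [-Basis.sum_repr] using (congrArg (fun g : XS (⊤ : Subgroup Q) => g.1 x) (b.sum_repr f)).symm
  refine ⟨_, finrank_pos_iff_exists_ne_zero.2 ?_, fun x i => (b i).1 x, ?_, fun L a => ?_,
    fun D _ u v a c => ?_⟩
  · obtain ⟨H, -, a, χ, c, d⟩ := h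
    obtain ⟨g, f, k⟩ := xs_ext (ψ := fun x => χ x) a fun x k y l => by simp [c x k y l]
    exact ⟨⟨g, f⟩, fun l => h' (d.fi le_top (Fi.trans (.of_le fun x o => ⟨o, by
      simpa [show g = 0 from congrArg Subtype.val l] using (k x o).symm⟩) a))⟩
  · choose H _ a c using fun i => (b i).2.2.2
    have := fi_top.1 (Subgroup.relIndex_iInf_ne_zero a)
    exact ⟨(⨅ i, H i).normalCore, inferInstance, fi_top.2 inferInstance, fun x k y l =>
      funext fun i => c i x (iInf_le H i (Subgroup.normalCore_le _ k)) y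
        (iInf_le H i (Subgroup.normalCore_le _ l))⟩
  · by_contra k
    obtain ⟨φ, c, d⟩ := Submodule.exists_le_ker_of_lt_top _ (lt_top_iff_ne_top.2 k)
    have := xs_zero (b.equivFun.symm fun i => φ (Pi.single i 1)).2 a fun x l => by
      have := d (Submodule.subset_span ⟨x, l, rfl⟩)
      rw [LinearMap.mem_ker, LinearMap.pi_apply_eq_sum_univ] at this
      have o (i : Fin (finrank ℚ (XS (⊤ : Subgroup Q)))) :
        (fun j => if i = j then (1 : ℚ) else 0) = Pi.single i 1 := funext fun j => by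
          simp [Pi.single_apply, eq_comm]
      simpa [mul_comm, o] using this
    exact c ((Pi.basisFun ℚ _).ext fun i => by
      simpa using congrFun (b.equivFun.symm.map_eq_zero_iff.1 (Subtype.ext this)) i)
  · have (i : Fin (finrank ℚ (XS (⊤ : Subgroup Q)))) : ∃ g : XS (⊤ : Subgroup Q), ∀ a, (b i).1 (v a) = g.1 (u a) := by
      obtain ⟨-, f1, H, -, f2, f3⟩ := (b i).2
      have f4 := f2.comap (W := ⊤) (f := v) le_top
      obtain ⟨ψ, g1, g2⟩ := Ad.desc (H := ⊤ ⊓ H.comap v) (f := u) (χ := fun a => (b i).1 (v a))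
        (fun x k y l => by simp [f3 _ k.2 _ l.2]) fun x _ l => by
          obtain ⟨k, o, p⟩ := isOfFinOrder_iff_pow_eq_one.1 (c x l)
          have := f1 (v x) trivial k
          rw [p, f3.one] at this
          exact (mul_eq_zero.1 this.symm).resolve_left (by positivity)
      obtain ⟨g, g3, g4⟩ := xs_ext ((f4.map u).trans (MonoidHom.range_eq_map u ▸ a)) g1
      refine ⟨⟨g, g3⟩, fun x => ?_⟩
      obtain ⟨k, o, p⟩ := f4.pow (Subgroup.mem_top x)
      have := (g4 _ ⟨_, p, rfl⟩).trans (g2 _ p)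
      rw [map_pow, map_pow, g3.2.1 _ trivial, f1 _ trivial] at this
      exact (mul_left_cancel₀ (by positivity) this).symm
    choose g hg using this
    exact ⟨LinearMap.pi fun i => ∑ j, b.repr (g i) j • LinearMap.proj j,
      fun x => funext fun i => by simp [hg, e (g i)]⟩

theorem transfer {N : Subgroup D} [N.Normal] [N.FiniteIndex] (l : D →* End ℚ (Fin n → ℚ))
    {κ : D → Fin n → ℚ} (h : Ad N κ) (k : ∀ d x, κ (d * x * d⁻¹) = l d (κ x)) :
    ∃ R : AR D n, R.l = l ∧ ∀ x ∈ N, R.c x = κ x := by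
  have := Fintype.ofFinite (D ⧸ N)
  have e (d : D) (x : D ⧸ N) : d * x.out * (d • x).out⁻¹ ∈ N := by
    rw [← QuotientGroup.eq_one_iff]
    induction x using QuotientGroup.induction_on
    simp
  refine ⟨⟨l, fun d => (Fintype.card (D ⧸ N) : ℚ)⁻¹ • ∑ x : D ⧸ N, κ (d * x.out * (d • x).out⁻¹),
    fun a b => ?_⟩, rfl, fun d a => ?_⟩
  · rw [map_smul, map_sum, ← smul_add, ← Equiv.sum_comp (MulAction.toPerm b)
      fun x : D ⧸ N => κ (a * x.out * (a • x).out⁻¹), ← Finset.sum_add_distrib]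
    refine congrArg _ (Finset.sum_congr rfl fun x _ => ?_)
    rw [← k, add_comm, ← h _ (‹N.Normal›.conj_mem _ (e b x) a) _ (e a _)]
    simp [mul_assoc, mul_smul]
  · have (x : D ⧸ N) : d • x = x := by
      induction x using QuotientGroup.induction_on
      simpa [QuotientGroup.eq_one_iff]
    simp [this, ← Nat.cast_smul_eq_nsmul ℚ]

theorem average {N : Subgroup D} [N.FiniteIndex] (R : AR D n) (h : ∀ x ∈ N, R.c x = 0) :
    ∃ b, ∀ a, R.c a = b - R.l a b := by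
  have := Fintype.ofFinite (D ⧸ N)
  refine ⟨(Fintype.card (D ⧸ N) : ℚ)⁻¹ • ∑ x : D ⧸ N, R.c x.out, fun a => ?_⟩
  have e (x : D ⧸ N) : R.c (a • x).out = R.c a + R.l a (R.c x.out) := by
    obtain ⟨y, e⟩ := QuotientGroup.mk_out_eq_mul N (a * x.out)
    rw [← MulAction.Quotient.coe_smul_out, smul_eq_mul, e, R.mul, h _ y.2, map_zero, add_zero, R.mul]
  rw [map_smul, ← smul_sub, map_sum]
  conv_rhs => rw [← Equiv.sum_comp (MulAction.toPerm a) fun x : D ⧸ N => R.c x.out]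
  simp [e, Finset.sum_add_distrib, ← Nat.cast_smul_eq_nsmul ℚ]

variable {A B : Subgroup D} {φ : A ≃* B}

theorem AR.lift (R : AR D n) (M : (Fin n → ℚ) ≃ₗ[ℚ] Fin n → ℚ) (b : Fin n → ℚ)
    (h : ∀ (a : A) v, M (R.l a v + R.c a) + b = R.l (φ a) (M v + b) + R.c (φ a)) :
    ∃ R' : AR (HNNExtension D A B φ) n, ∀ d, R'.l (of d) = R.l d ∧ R'.c (of d) = R.c d := by
  let f : D →* (Fin n → ℚ) ≃ᵃ[ℚ] Fin n → ℚ := MonoidHom.mk' (fun d => .mk' (fun v => R.l d v + R.c d)
    (.ofLinearMap (R.l d) (R.l d⁻¹) (by rw [← End.mul_eq_comp, ← map_mul]; simp; rfl)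
      (by rw [← End.mul_eq_comp, ← map_mul]; simp; rfl)) 0 (by simp))
    fun a b => AffineEquiv.ext fun v => show R.l (a * b) v + R.c (a * b) =
      R.l a (R.l b v + R.c b) + R.c a by simp [R.mul]; abel
  let Φ := HNNExtension.lift (φ := φ) f (.mk' (fun v => M v + b) M 0 (by simp))
    fun a => AffineEquiv.ext fun v => h a v
  refine ⟨⟨LinearEquiv.automorphismGroup.toLinearMapMonoidHom.comp
    (AffineEquiv.linearHom.comp Φ), fun g => Φ g 0, fun x y => ?_⟩, fun d => ?_⟩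
  · have := (Φ x).map_vadd 0 (Φ y 0)
    rw [vadd_eq_add, add_zero, vadd_eq_add, add_comm] at this
    rw [map_mul]
    exact this
  · have : Φ (of d) = f d := lift_of _ _ _ _
    refine ⟨?_, ?_⟩
    · exact congrArg (fun T : (Fin n → ℚ) ≃ᵃ[ℚ] Fin n → ℚ => T.linear.toLinearMap) this
    · exact (congrArg (fun T : (Fin n → ℚ) ≃ᵃ[ℚ] Fin n → ℚ => T 0) this).trans
        (show R.l d 0 + R.c d = _ by simp)

theorem AR.Cr.conj {R : AR D n} {U V : Subgroup D} (h : R.Cr V) (k : D)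
    (e : ∀ u, u ∈ U ↔ k⁻¹ * u * k ∈ V) : R.Cr U := by
  refine ⟨(h.1.image fun T => R.l k * T * R.l k⁻¹).subset ?_, top_le_iff.1 fun v _ => ?_⟩
  · rintro _ ⟨u, a, rfl⟩
    exact ⟨_, ⟨_, (e u).1 a, rfl⟩, by simp [← map_mul, mul_assoc]⟩
  · have : R.l k⁻¹ v ∈ _ := h.2 ▸ Submodule.mem_top
    have := Submodule.mem_map_of_mem (f := R.l k) this
    rw [← R.l_mul, mul_inv_cancel, map_one, Submodule.map_span] at this
    refine Submodule.span_mono ?_ this
    rintro _ ⟨_, ⟨u, ⟨a, b⟩, rfl⟩, rfl⟩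
    exact ⟨k * u * k⁻¹, ⟨(e _).2 (by simpa [mul_assoc]), by simp [b, ← map_mul R.l]⟩, by
      simp [R.mul, R.c_inv, b, ← R.l_mul]⟩

theorem affine (h : PS (m + 1) (⊤ : Subgroup Q)) (h' : ¬ PS m (⊤ : Subgroup Q)) (π : D →* Q)
    (hA : Fi (A.map π) ⊤) (hB : Fi (B.map π) ⊤) (h1 : ∀ a : A, π a = 1 → IsOfFinOrder (π (φ a)))
    (h2 : ∀ a : B, π a = 1 → IsOfFinOrder (π (φ.symm a))) :
    ∃ n, 0 < n ∧ ∃ R : AR (HNNExtension D A B φ) n, ∀ U : Subgroup D, Fi (U.map π) ⊤ →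
      R.Cr (U.map of) := by
  obtain ⟨n, a1, κ, ⟨N, a2, a3, a4⟩, a5, a6⟩ := ex_kap h h'
  have ext {L} (k : Fi L ⊤) {T T' : End ℚ (Fin n → ℚ)} (e : ∀ x ∈ L, T (κ x) = T' (κ x)) : T = T' :=
    LinearMap.ext_on (a5 L k) (Set.forall_mem_image.2 e)
  choose l hl using fun q => a6 Q (.id Q) (MulAut.conj q).toMonoidHom (.of_le fun x _ => ⟨x, rfl⟩) (by simp)
  replace hl : ∀ q x, κ (q * x * q⁻¹) = l q (κ x) := hl
  have l1 (q) (k : q ∈ N) : l q = 1 := ext a3 fun x e => by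
    rw [← hl, a4 _ (mul_mem k e) _ (inv_mem k), a4 _ k _ e, a4.inv k]; simp
  let l' : Q →* End ℚ _ := ⟨⟨l, l1 1 (one_mem _)⟩, fun x y => ext a3 fun z _ => by
    simp [← hl, mul_assoc]⟩
  have f1 : Fi (N.comap π) ⊤ := (a3.comap le_top).mono inf_le_right le_rfl
  have := fi_top.1 f1
  obtain ⟨R, r1, r2⟩ := transfer (N := N.comap π) (l'.comp π) (κ := κ ∘ π)
    (fun x k y e => by simpa using a4 _ k _ e) fun d x => by simpa [l'] using hl _ _
  replace r1 (d) : R.l d = l (π d) := r1 ▸ rfl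
  obtain ⟨M, m1⟩ := a6 A (π.comp A.subtype) (π.comp (B.subtype.comp φ.toMonoidHom))
    (by rwa [MonoidHom.range_comp, Subgroup.range_subtype]) h1
  obtain ⟨M', m2⟩ := a6 B (π.comp B.subtype) (π.comp (A.subtype.comp φ.symm.toMonoidHom))
    (by rwa [MonoidHom.range_comp, Subgroup.range_subtype]) h2
  replace m1 : ∀ a : A, κ (π (φ a)) = M (κ (π a)) := m1
  replace m2 : ∀ a : B, κ (π (φ.symm a)) = M' (κ (π a)) := m2
  have m3 (a : A) : M * R.l a = R.l (φ a) * M := ext hA (by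
    rintro _ ⟨x, k, rfl⟩
    have := m1 (a * ⟨x, k⟩ * a⁻¹)
    simpa [r1, hl, m1] using this.symm)
  have f2 : Fi ((N.comap π).comap A.subtype ⊓ (N.comap π).comap (B.subtype.comp φ.toMonoidHom)) ⊤ :=
    ((f1.comap le_top).inf (f1.comap le_top)).mono (inf_le_inf inf_le_right inf_le_right) le_rfl
  have := fi_top.1 f2
  obtain ⟨b, hb⟩ := average (N := _ ⊓ _) ⟨R.l.comp (B.subtype.comp φ.toMonoidHom),
    fun a => R.c (φ a) - M (R.c a), fun x y => by
      have := LinearMap.congr_fun (m3 x) (R.c y)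
      simp [R.mul] at this ⊢
      rw [this]
      abel⟩ fun x (k : x ∈ (N.comap π).comap A.subtype ⊓ (N.comap π).comap (B.subtype.comp φ.toMonoidHom)) => by
        simpa [r2 x k.1, sub_eq_zero] using (r2 _ k.2).trans (m1 x)
  obtain ⟨R', r3⟩ := R.lift (φ := φ) (.ofLinearMap M M' (ext hB (by
    rintro _ ⟨x, k, rfl⟩
    simpa using (congrArg M (m2 ⟨x, k⟩)).symm.trans (m1 _).symm)) (ext hA (by
    rintro _ ⟨x, k, rfl⟩
    simpa using (congrArg M' (m1 ⟨x, k⟩)).symm.trans (m2 _).symm))) b fun a v => by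
      have e := LinearMap.congr_fun (m3 a) v
      have := hb a
      simp at e this ⊢
      linear_combination (exp := 1) e - this
  refine ⟨n, a1, R', fun U k => ⟨?_, top_le_iff.1 ((a5 _ (k.inf a3)).ge.trans
    (Submodule.span_mono ?_))⟩⟩
  · obtain ⟨F, g1, -, g2⟩ := fi_iff.1 a3
    refine (g1.image l).subset ?_
    rintro _ ⟨_, ⟨u, -, rfl⟩, rfl⟩
    obtain ⟨y, g3, g4⟩ := g2 (π u) trivial
    refine ⟨y, g3, ?_⟩
    have := l'.map_mul y (y⁻¹ * π u)
    rw [mul_inv_cancel_left, show l' (y⁻¹ * π u) = 1 from l1 _ g4, mul_one] at this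
    rw [(r3 u).1, r1]
    exact this.symm
  · rintro _ ⟨_, ⟨⟨u, e, rfl⟩, g⟩, rfl⟩
    exact ⟨of u, ⟨⟨u, e, rfl⟩, by rw [(r3 u).1, r1, l1 _ g]⟩, (r3 u).2.trans (r2 u g)⟩

end Pool.Agent.Lib.MP_5d3e93_al
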