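import Pool.Agent.Lib.MP_5d3e93_al.Conv

/-! The cutting lemma and the Whitehead group of a graded category. -/

open CategoryTheory

namespace Pool.Agent.Lib.MP_5d3e93_al

universe w v u

namespace GC

variable {G : Type w} [Group G] {C : Type u} [Category.{v} C] [Preadditive C] {S : GC G C}
variable {A B D E : C} {H : Subgroup G} {Z : Zg G}

/-- Isomorphisms in degrees zero and one with inverse in degrees zero and minus one. -/
theorem cut (hW : S.W Z.K) (hS : S.SFI Z.K) {t : G} (ht : t ∈ Z.Γ) (ht1 : Z.χ t = 1)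
    {u : A ⟶ B} {v : B ⟶ A} (hu0 : S.Ge Z 0 u) (hu1 : S.Le Z 1 u) (hv0 : S.Le Z 0 v)
    (hv1 : S.Ge Z (-1) v) (h1 : u ≫ v = 𝟙 A) (h2 : v ≫ u = 𝟙 B) : S.Tr Z.Γ u := by
  obtain ⟨u0, a1, a2, a3, a4⟩ : ∃ u0 : A ⟶ B, S.Ge Z 0 u0 ∧ S.Le Z 0 u0 ∧ S.Ge Z 1 (u - u0) ∧
      S.Le Z 1 (u - u0) := ⟨_, hu0.lo 0, le_lo hu0.sup 0, ge_hi hu0.sup 0 (by omega), hu1.hi 0⟩
  obtain ⟨m, b1, b2, b3, b4⟩ : ∃ m : B ⟶ A, S.Ge Z (-1) m ∧ S.Le Z (-1) m ∧ S.Ge Z 0 (v - m) ∧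
      S.Le Z 0 (v - m) := ⟨_, hv1.lo _, le_lo hv1.sup _, ge_hi hv1.sup _ (by omega), hv0.hi _⟩
  have c1 : u0 ≫ m = 0 := by
    have : u0 ≫ m = 𝟙 A - (u0 ≫ (v - m) + (u - u0) ≫ v) := by simp [h1]
    refine Ge.eq_zero (k := 0) ?_ (a2.comp b2 (m := -1) (by omega)) (by omega)
    rw [this]
    exact Sup.sub ge_id (Sup.add (a1.comp b3 (by omega)) (a3.comp hv1 (by omega)))
  have c2 : m ≫ u0 = 0 := by
    have : m ≫ u0 = 𝟙 B - ((v - m) ≫ u0 + v ≫ (u - u0)) := by simp [h2]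
    refine Ge.eq_zero (k := 0) ?_ (b2.comp a2 (m := -1) (by omega)) (by omega)
    rw [this]
    exact Sup.sub ge_id (Sup.add (b3.comp a1 (by omega)) (hv1.comp a3 (by omega)))
  have c3 : (v - m) ≫ (u - u0) = 0 := by
    have : (v - m) ≫ (u - u0) = 𝟙 B - (v ≫ u0 + m ≫ (u - u0)) := by simp [h2]; abel
    refine Ge.eq_zero (l := 0) (b3.comp a3 (m := 1) (by omega)) ?_ (by omega)
    rw [this]
    exact Sup.sub le_id (Sup.add (hv0.comp a2 (by omega)) (b2.comp a4 (by omega)))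
  have c4 : u ≫ m ≫ u = u - u0 := by
    have := congrArg (u ≫ ·) c3
    simp only [Preadditive.sub_comp, Preadditive.comp_sub, reassoc_of% h1, c2,
      Limits.comp_zero] at this
    rw [← sub_eq_zero, ← neg_eq_zero, ← this]
    abel
  have c5 : u ≫ m = (u - u0) ≫ m := by simp [c1]
  obtain ⟨D, E, x, y, hx, hy, e1, e2⟩ := hS A (u ≫ m)
    (Ge.deg (k := 0) (c5 ▸ a3.comp b1 (by omega)) (hu1.comp b2 (by omega)))
    (by rw [Category.assoc, reassoc_of% c4, ← c5])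
  obtain ⟨D', τ, τ', t1, t2, t3, t4⟩ := S.shift D t
  obtain ⟨E', σ, σ', s1, s2, s3, s4⟩ := S.shift E t
  have hτ := HIso.of_shift t1 t2 t3 t4
  have hσ := HIso.of_shift s2 (by simpa using s1) s4 s3
  have t5 : S.Sup {t} τ := .of_cp t1 rfl
  have t6 : S.Sup {t⁻¹} τ' := .of_cp t2 rfl
  have s5 : S.Sup {t} σ := .of_cp s1 rfl
  have s6 : S.Sup {t⁻¹} σ' := .of_cp s2 rfl
  have hi1 := Z.inv ht
  have hti := Z.Γ.inv_mem ht
  have hK := Z.K.one_mem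
  have hω : S.Iso Z.K (S.blk (𝟙 _ - x ≫ y) x y 0) := by
    have := Sup.blk ((Sup.id hK).sub (hx.scomp hy)) hx hy .zero
    exact ⟨this, _, this, by simp [e2, reassoc_of% e2], by simp [e2, reassoc_of% e2]⟩
  have f1 : (𝟙 _ - x ≫ y) ≫ S.blk u 0 0 τ = S.blk u0 0 0 0 := by
    rw [e1]
    apply S.hom_ext <;> simp [reassoc_of% c4]
  have f2 : y ≫ S.blk u 0 0 τ = y ≫ S.blk (u - u0) 0 0 τ := by
    rw [← Category.id_comp y, ← e2, Category.assoc y, e1]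
    simp [c4, c2]
  have f3 : S.blk v 0 0 τ' ≫ (𝟙 _ - x ≫ y) = S.blk (v - m) 0 0 0 := by
    rw [e1]
    apply S.hom_ext <;> simp [reassoc_of% h2]
  have f4 : S.blk v 0 0 τ' ≫ x = S.blk m 0 0 τ' ≫ x := by
    have : x = S.blk (u ≫ m) 0 0 (𝟙 D) ≫ x := by rw [← e1, Category.assoc, e2, Category.comp_id]
    conv_lhs => rw [this, ← Category.assoc]
    simp [reassoc_of% h2]
  have key : S.Iso Z.K (S.blk (𝟙 _) 0 0 σ' ≫ S.blk (𝟙 _ - x ≫ y) x y 0 ≫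
      S.blk (S.blk u 0 0 τ) 0 0 (𝟙 E)) := by
    refine ⟨?_, S.blk (S.blk v 0 0 τ') 0 0 (𝟙 E) ≫ S.blk (𝟙 _ - x ≫ y) x y 0 ≫
      S.blk (𝟙 _) 0 0 σ, ?_, ?_, ?_⟩
    · simp only [blk_comp, f1, f2, Limits.comp_zero, Limits.zero_comp, add_zero, zero_add,
        Category.comp_id, Category.id_comp]
      refine .blk (.blk (a1.deg a2) .zero .zero .zero) hx (Ge.deg (k := 0) ?_ ?_) .zero
      · exact (s6.ge1 (k := -1) hti (by omega)).comp (hy.ge0.comp (m := 1)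
          (Sup.blk a3 .zero .zero (t5.ge1 ht (by omega))) (by omega)) (by omega)
      · exact (s6.le1 (k := -1) hti (by omega)).comp (hy.le0.comp (m := 1)
          (Sup.blk a4 .zero .zero (t5.le1 ht (by omega))) (by omega)) (by omega)
    · simp only [blk_comp, f3, reassoc_of% f4, Limits.comp_zero, Limits.zero_comp, add_zero,
        zero_add, Category.comp_id, Category.id_comp]
      refine .blk (.blk (b3.deg b4) .zero .zero .zero) (Ge.deg (k := 0) ?_ ?_) hy .zero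
      · exact Ge.comp (k := -1) (Sup.blk b1 .zero .zero (t6.ge1 hti (by omega)))
          (hx.ge0.comp (m := 1) (s5.ge1 (k := 1) ht (by omega)) (by omega)) (by omega)
      · exact Le.comp (k := -1) (Sup.blk b2 .zero .zero (t6.le1 hti (by omega)))
          (hx.le0.comp (m := 1) (s5.le1 (k := 1) ht (by omega)) (by omega)) (by omega)
    · have z1 : S.blk (S.blk u 0 0 τ) 0 0 (𝟙 E) ≫ S.blk (S.blk v 0 0 τ') 0 0 (𝟙 E) = 𝟙 _ := by
        simp [h1, t3]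
      have z2 : S.blk (𝟙 _ - x ≫ y) x y 0 ≫ S.blk (𝟙 _ - x ≫ y) x y 0 = 𝟙 _ := by
        simp [e2, reassoc_of% e2]
      simp only [Category.assoc, reassoc_of% z1, reassoc_of% z2]
      simp [s4]
    · have z1 : S.blk (𝟙 (S.sum A D)) 0 0 σ ≫ S.blk (𝟙 _) 0 0 σ' = 𝟙 _ := by simp [s3]
      have z2 : S.blk (𝟙 _ - x ≫ y) x y 0 ≫ S.blk (𝟙 _ - x ≫ y) x y 0 = 𝟙 _ := by
        simp [e2, reassoc_of% e2]
      simp only [Category.assoc, reassoc_of% z1, reassoc_of% z2]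
      simp [h2, t4]
  have k2 := (((hW _ _ _ hω).mono Z.K_le).cancel_left
    (((Tr.hom hti hσ).id_bd _).cancel_left ((hW _ _ _ key).mono Z.K_le))).of_bd
  have : S.blk u 0 0 τ = S.blk u 0 0 (𝟙 D) ≫ S.blk (𝟙 B) 0 0 τ := by simp
  rw [this] at k2
  exact (((Tr.hom ht hτ).id_bd B).cancel_right k2).of_bd

variable (S H) in
/-- Automorphisms over `H`. -/
structure Au where
  P : C
  f : P ⟶ P
  g : P ⟶ P
  hf : S.Sup H f
  hg : S.Sup H g
  fg : f ≫ g = 𝟙 P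
  gf : g ≫ f = 𝟙 P

namespace Au

/-- Direct sum. -/
def add (x y : S.Au H) : S.Au H :=
  ⟨S.sum x.P y.P, S.blk x.f 0 0 y.f, S.blk x.g 0 0 y.g, .blk x.hf .zero .zero y.hf,
    .blk x.hg .zero .zero y.hg, by simp [x.fg, y.fg], by simp [x.gf, y.gf]⟩

/-- Inverse. -/
def neg (x : S.Au H) : S.Au H := ⟨x.P, x.g, x.f, x.hg, x.hf, x.gf, x.fg⟩

variable (S H) in
/-- Identity. -/
def one (A : C) : S.Au H := ⟨A, 𝟙 A, 𝟙 A, .id H.one_mem, .id H.one_mem, by simp, by simp⟩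

/-- Equality in the Whitehead group. -/
def Ev (x y : S.Au H) : Prop := S.Tr H (S.blk x.f 0 0 y.g)

theorem Ev.of {x y : S.Au H} {a b : x.P ⟶ y.P} (ha : S.Tr H a) (hb : S.Tr H b)
    (e : a ≫ y.f = x.f ≫ b) : Ev x y := by
  refine (hb.bd_id y.P).cancel_right ?_
  have : S.blk x.f 0 0 y.g ≫ S.blk b 0 0 (𝟙 _) = S.blk a 0 0 (𝟙 _) ≫ S.blk y.f 0 0 y.g := by
    simp [e]
  rw [this]
  exact (ha.bd_id _).comp (.wh y.hf y.hg y.fg y.gf)

theorem tr_flip {a : A ⟶ A} {b : B ⟶ B} (h : S.Tr H (S.blk a 0 0 b)) : S.Tr H (S.blk b 0 0 a) := by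
  have : S.blk b 0 0 a = S.flip B A ≫ S.blk a 0 0 b ≫ S.flip A B := by simp [flip]
  rw [this]
  exact (Tr.one (S.hiso_flip _ _)).comp (h.comp (.one (S.hiso_flip _ _)))

theorem tr_asc {a : A ⟶ A} {b : B ⟶ B} {c : D ⟶ D} :
    S.Tr H (S.blk (S.blk a 0 0 b) 0 0 c) ↔ S.Tr H (S.blk a 0 0 (S.blk b 0 0 c)) := by
  have : S.blk (S.blk a 0 0 b) 0 0 c ≫ S.asc _ _ _ = S.asc _ _ _ ≫ S.blk a 0 0 (S.blk b 0 0 c) := by
    simp [asc]
  have h := Tr.one (H := H) (S.hiso_asc A B D)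
  exact ⟨fun k => h.cancel_left (this ▸ k.comp h), fun k => h.cancel_right (this ▸ h.comp k)⟩

theorem tr_replace {a : A ⟶ A} {b b' : B ⟶ B} {c : D ⟶ D} (e : b' ≫ b = 𝟙 B)
    (h : S.Tr H (S.blk a 0 0 b')) (h' : S.Tr H (S.blk b 0 0 c)) : S.Tr H (S.blk a 0 0 c) := by
  have h1 := (h.bd_id D).comp (tr_asc.2 (h'.id_bd A))
  simp only [blk_comp, e, Limits.comp_zero, Limits.zero_comp, add_zero, zero_add,
    Category.comp_id, Category.id_comp] at h1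
  exact tr_flip (tr_asc.2 (tr_flip h1)).of_bd

theorem Ev.symm {x y : S.Au H} (h : Ev x y) : Ev y x := by
  refine tr_flip (h.cancel_left (g := S.blk x.g 0 0 y.f) ?_)
  simpa [x.fg, y.gf] using Tr.id

variable (S H) in
/-- The equivalence relation. -/
def setoid : Setoid (S.Au H) where
  r := Ev
  iseqv := ⟨fun _ => .of .id .id (by simp), Ev.symm, fun {_ y _} h h' => tr_replace y.gf h h'⟩

theorem Ev.comm (x y : S.Au H) : Ev (x.add y) (y.add x) :=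
  .of (.one (S.hiso_flip _ _)) (.one (S.hiso_flip _ _)) (by simp [add, flip])

theorem Ev.add_left {x x' : S.Au H} (h : Ev x x') (y : S.Au H) : Ev (x.add y) (x'.add y) :=
  tr_asc.2 (tr_replace x'.gf h (tr_asc.1 ((setoid S H).refl (x'.add y))))

theorem Ev.add {x x' y y' : S.Au H} (h : Ev x x') (h' : Ev y y') : Ev (x.add y) (x'.add y') :=
  (setoid S H).trans (h.add_left y) ((setoid S H).trans (Ev.comm _ _)
    ((setoid S H).trans (h'.add_left x') (Ev.comm _ _)))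

theorem Ev.neg {x y : S.Au H} (h : Ev x y) : Ev x.neg y.neg := tr_flip h.symm

end Au

variable (S H) in
/-- The Whitehead group. -/
def Wh (_A : C) : Type _ := Quotient (Au.setoid S H)

/-- Class of an automorphism. -/
def Au.wh (A : C) (x : S.Au H) : S.Wh H A := Quotient.mk _ x

instance : Add (S.Wh H A) := ⟨Quotient.map₂ Au.add fun _ _ h _ _ h' => Au.Ev.add h h'⟩

instance : Neg (S.Wh H A) := ⟨Quotient.map Au.neg fun _ _ h => Au.Ev.neg h⟩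

instance : Zero (S.Wh H A) := ⟨(Au.one S H A).wh A⟩

theorem Au.null (x : S.Au H) : x.wh A = 0 ↔ S.Tr H x.f :=
  ⟨fun h => Tr.of_bd (Quotient.exact h), fun h => Quotient.sound (h.bd_id _)⟩

instance : AddCommGroup (S.Wh H A) where
  add_assoc := by
    rintro ⟨x⟩ ⟨y⟩ ⟨z⟩
    exact Quotient.sound (Au.Ev.of (.one (S.hiso_asc _ _ _)) (.one (S.hiso_asc _ _ _))
      (by simp [Au.add, asc]))
  zero_add := by
    rintro ⟨x⟩
    exact Quotient.sound (Au.tr_asc.2 (Tr.id_bd ((Au.setoid S H).refl x) A))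
  add_zero := by
    rintro ⟨x⟩
    exact (Quotient.sound (Au.Ev.comm _ _)).trans
      (Quotient.sound (Au.tr_asc.2 (Tr.id_bd ((Au.setoid S H).refl x) A)))
  nsmul := nsmulRec
  zsmul := zsmulRec
  neg_add_cancel := by
    rintro ⟨x⟩
    exact (Au.null (x.neg.add x)).2 ((Au.setoid S H).refl x.neg)
  add_comm := by
    rintro ⟨x⟩ ⟨y⟩
    exact Quotient.sound (Au.Ev.comm _ _)

open Classical in
variable (S H) in
/-- Class of an endomorphism, zero if it is not invertible. -/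
noncomputable def wc (A : C) {P : C} (f : P ⟶ P) : S.Wh H A :=
  if h : S.Iso H f then Au.wh A ⟨P, f, h.2.choose, h.1, h.2.choose_spec.1,
    h.2.choose_spec.2.1, h.2.choose_spec.2.2⟩ else 0

theorem wc_au (x : S.Au H) : S.wc H A x.f = x.wh A := by
  rw [wc, dif_pos ⟨x.hf, x.g, x.hg, x.fg, x.gf⟩]
  exact Quotient.sound (Au.Ev.of .id .id (by simp))

theorem wc_null {f : B ⟶ B} (h : S.Iso H f) : S.wc H A f = 0 ↔ S.Tr H f := by
  obtain ⟨h1, g, h2, h3, h4⟩ := h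
  exact (congrArg (· = 0) (wc_au ⟨B, f, g, h1, h2, h3, h4⟩)).to_iff.trans (Au.null _)

theorem wc_eq {f : B ⟶ B} {f' : D ⟶ D} (h : S.Iso H f) (h' : S.Iso H f') {a b : B ⟶ D}
    (ha : S.Tr H a) (hb : S.Tr H b) (e : a ≫ f' = f ≫ b) : S.wc H A f = S.wc H A f' := by
  obtain ⟨h1, g, h2, h3, h4⟩ := h
  obtain ⟨k1, g', k2, k3, k4⟩ := h'
  exact (wc_au ⟨B, f, g, h1, h2, h3, h4⟩).trans ((Quotient.sound (Au.Ev.of ha hb e)).trans
    (wc_au ⟨D, f', g', k1, k2, k3, k4⟩).symm)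

theorem wc_bd {f : B ⟶ B} {f' : D ⟶ D} (h : S.Iso H f) (h' : S.Iso H f') :
    S.wc H A (S.blk f 0 0 f') = S.wc H A f + S.wc H A f' := by
  obtain ⟨h1, g, h2, h3, h4⟩ := h
  obtain ⟨k1, g', k2, k3, k4⟩ := h'
  exact (wc_au (Au.add ⟨B, f, g, h1, h2, h3, h4⟩ ⟨D, f', g', k1, k2, k3, k4⟩)).trans
    (congrArg₂ (· + ·) (wc_au ⟨B, f, g, h1, h2, h3, h4⟩) (wc_au ⟨D, f', g', k1, k2, k3, k4⟩)).symm

theorem wc_id (B : C) : S.wc H A (𝟙 B) = 0 := (wc_null .id).2 .id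

theorem wc_cyc {X : B ⟶ D} {Y : D ⟶ B} (hX : S.Sup H X) (hY : S.Sup H Y)
    (h : S.Iso H (𝟙 B + X ≫ Y)) (h' : S.Iso H (𝟙 D + Y ≫ X)) :
    S.wc H A (𝟙 B + X ≫ Y) = S.wc H A (𝟙 D + Y ≫ X) := by
  have := wc_eq (A := A) (h.bd (.id (A := D))) ((Iso.id (A := B)).bd h')
    ((Tr.upper hX.neg).comp (.lower hY.neg)) ((Tr.lower hY.neg).comp (.upper hX.neg))
    (by simp [add_comm])
  rwa [wc_bd h .id, wc_bd .id h', wc_id, wc_id, add_zero, zero_add] at this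

theorem wc_lower {f : B ⟶ B} {f' : D ⟶ D} (h : S.Iso H f) (h' : S.Iso H f') {z : D ⟶ B}
    (hz : S.Sup H z) : S.Iso H (S.blk f 0 z f') ∧
      S.wc H A (S.blk f 0 z f') = S.wc H A f + S.wc H A f' := by
  obtain ⟨k1, g', k2, k3, k4⟩ := id h'
  have e : S.blk f 0 z f' = S.blk f 0 0 f' ≫ S.blk (𝟙 B) 0 (g' ≫ z) (𝟙 D) := by
    simp [reassoc_of% k3]
  have hi := (h.bd h').comp (.lower (k2.scomp hz))
  rw [← wc_bd h h', e]
  exact ⟨hi, (wc_eq (h.bd h') hi .id (.lower (k2.scomp hz)) (by simp)).symm⟩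

end GC

end Pool.Agent.Lib.MP_5d3e93_al
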