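import Pool.Agent.Lib.MP_5d3e93_al.Sol

/-! Locations with windows along a path in the tree. -/

open CategoryTheory
open scoped Pointwise

namespace Pool.Agent.Lib.MP_5d3e93_al

universe w v u

theorem Pth.split {X : Type*} {R : X → X → Prop} {k m : ℕ} :
    ∀ {σ y : X}, Pth R (m + k) σ y → ∃ x, Pth R k σ x ∧ Pth R m x y := by
  induction k with
  | zero => exact fun h => ⟨_, rfl, h⟩
  | succ k ih =>
    rintro σ y ⟨τ, a, b⟩
    obtain ⟨x, c, d⟩ := ih b
    exact ⟨x, ⟨τ, a, c⟩, d⟩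

variable {Γ : Type w} [Group Γ]

/-- A subgroup in height zero and an element of height one. -/
structure Ht (Γ : Type w) [Group Γ] where
  χ : Ch Γ
  D : Subgroup Γ
  t : Γ
  hD : ∀ d ∈ D, χ d = 0
  ht : χ t = 1
  fr : Fr D (dc D t)

namespace Ht

variable (H : Ht Γ)

theorem chi {g : Γ} (h : g ∈ dc H.D H.t) : H.χ g = 1 := by
  obtain ⟨d, a, d', b, rfl⟩ := h
  simp [H.hD d a, H.hD d' b, H.ht]

/-- Locations with a window. -/
@[ext] structure WL (E : Type) where
  e : E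
  γ : Γ
  w : ℤ → Γ
  bs : (w (H.χ γ))⁻¹ * γ ∈ H.D
  up : ∀ k, (w k)⁻¹ * w (k + 1) ∈ dc H.D H.t
  lv : ∀ k, H.χ (w k) = k

variable {H} {E : Type} [MulAction Γ E]

instance : MulAction Γ (H.WL E) where
  smul g y := ⟨g • y.e, g * y.γ, fun k => g * y.w (k - H.χ g), by simpa [mul_assoc] using y.bs,
    fun k => by simpa [mul_assoc, sub_add_eq_add_sub] using y.up (k - H.χ g),
    fun k => by simp [y.lv]⟩
  one_smul y := WL.ext (one_smul _ _) (one_mul _) (funext fun k =>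
    show 1 * y.w (k - H.χ 1) = _ by simp)
  mul_smul a b y := WL.ext (mul_smul _ _ _) (mul_assoc _ _ _) (funext fun k =>
    show a * b * y.w (k - H.χ (a * b)) = a * (b * y.w (k - H.χ a - H.χ b)) by
      simp [mul_assoc, sub_sub])

@[simp] theorem smul_e (g : Γ) (y : H.WL E) : (g • y).e = g • y.e := rfl

@[simp] theorem smul_γ (g : Γ) (y : H.WL E) : (g • y).γ = g * y.γ := rfl

@[simp] theorem smul_w (g : Γ) (y : H.WL E) (k : ℤ) : (g • y).w k = g * y.w (k - H.χ g) := rfl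

variable {x y z x' y' : H.WL E} {k : ℤ}

/-- Agreement of windows. -/
def Ag (x y : H.WL E) (k : ℤ) : Prop := (x.w k)⁻¹ * y.w k ∈ H.D

omit [MulAction Γ E] in
theorem Ag.refl : Ag x x k := by simp [Ag]

omit [MulAction Γ E] in
theorem Ag.symm (h : Ag x y k) : Ag y x k := by simpa [Ag] using inv_mem h

omit [MulAction Γ E] in
theorem Ag.trans (h : Ag x y k) (h' : Ag y z k) : Ag x z k := by
  simpa [Ag, mul_assoc] using mul_mem h h'

theorem ag_smul {g : Γ} : Ag (g • x) (g • y) k ↔ Ag x y (k - H.χ g) := by simp [Ag, mul_assoc]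

/-- One step up with overlapping windows. -/
def R (T : Set Γ) (a b : ℕ) (x y : H.WL E) : Prop :=
  x.e = y.e ∧ x.γ⁻¹ * y.γ ∈ T ∧ ∀ k, H.χ x.γ + 1 - a ≤ k → k ≤ H.χ x.γ + b → Ag x y k

variable {T : Set Γ} {a b : ℕ}

theorem R.smul (g : Γ) (x y : H.WL E) (h : R T a b x y) : R T a b (g • x) (g • y) :=
  ⟨congrArg (g • ·) h.1, by simpa [mul_assoc] using h.2.1, fun k c d => ag_smul.2
    (h.2.2 _ (by simp at c; omega) (by simp at d; omega))⟩

omit [MulAction Γ E]

theorem R.chi (hT : T ⊆ dc H.D H.t) (h : R T a b x y) : H.χ y.γ = H.χ x.γ + 1 := by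
  have := H.chi (hT h.2.1)
  simp at this
  omega

theorem R.up (hT : T ⊆ dc H.D H.t) (h : R T a b x y) (c : H.χ x.γ - a ≤ k) (d : k ≤ H.χ x.γ + b) :
    (x.w k)⁻¹ * y.w (k + 1) ∈ dc H.D H.t := by
  by_cases e : k + 1 ≤ H.χ x.γ + b
  · simpa [mul_assoc] using H.fr.right _ (h.2.2 _ (by omega) e) _ (x.up k)
  by_cases f : H.χ x.γ + 1 - a ≤ k
  · simpa [mul_assoc] using H.fr.left _ (h.2.2 _ f d) _ (y.up k)
  obtain rfl : k = H.χ x.γ := by omega
  simpa [mul_assoc, h.chi hT] using H.fr.right _ (inv_mem y.bs) _ (H.fr.left _ x.bs _ (hT h.2.1))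

theorem pth (hT : T ⊆ dc H.D H.t) {j : ℕ} : ∀ {x y : H.WL E}, Pth (R T a b) j x y →
    H.χ y.γ = H.χ x.γ + j ∧ ∀ k, H.χ x.γ + j - a ≤ k → k ≤ H.χ x.γ + b → Ag x y k := by
  induction j with
  | zero => rintro x _ rfl; exact ⟨by simp, fun _ _ _ => .refl⟩
  | succ j ih =>
    rintro x y ⟨z, c, d⟩
    have := c.chi hT
    exact ⟨by have := (ih d).1; omega, fun k e f => (c.2.2 k (by omega) f).trans
      ((ih d).2 k (by omega) (by omega))⟩

theorem same (hT : T ⊆ dc H.D H.t) {i j : ℕ} (h1 : Pth (R T a b) i x y) (h2 : Pth (R T a b) i x y')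
    (h3 : Pth (R T a b) j y z) (h4 : Pth (R T a b) j y' z) : Ag y y' (H.χ y.γ) := by
  have k {j : ℕ} {x y : H.WL E} (h : Pth (R T a b) j x y) :=
    pth_grp WL.γ (fun _ _ c => hT c.2.1) h
  have := H.fr.pref i j _ (k h1) _ (k h2) _ (k h3) _ (k h4) 1 (one_mem _) (by group)
  have := mul_mem (mul_mem y.bs this) (inv_mem y'.bs)
  rw [(pth hT h2).1, ← (pth hT h1).1] at this
  simpa [Ag, mul_assoc] using this

theorem ex_fut (x : H.WL E) (u : Γ) : ∃ y : H.WL E, y.e = x.e ∧ y.γ = x.γ ∧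
    (∀ k ≤ H.χ x.γ + b, y.w k = x.w k) ∧
      ((x.w (H.χ x.γ + b))⁻¹ * u ∈ dc H.D H.t → y.w (H.χ x.γ + b + 1) = u) := by
  by_cases h : (x.w (H.χ x.γ + b))⁻¹ * u ∈ dc H.D H.t
  swap
  · exact ⟨x, rfl, rfl, fun _ _ => rfl, fun c => (h c).elim⟩
  have c := H.chi h
  refine ⟨⟨x.e, x.γ, fun k => if k ≤ H.χ x.γ + b then x.w k else u * H.t ^ (k - (H.χ x.γ + b + 1)),
    by simpa using x.bs, fun k => ?_, fun k => ?_⟩, rfl, rfl, fun k c => if_pos c,
    fun _ => by simp⟩
  · split_ifs with d e e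
    · exact x.up k
    · obtain rfl : k = H.χ x.γ + b := by omega
      simpa using h
    · omega
    · convert self_mem_dc H.t using 1
      group
  · split_ifs
    · exact x.lv k
    · simp [x.lv, H.ht] at c ⊢
      omega

theorem ex_past (x : H.WL E) (u : Γ) : ∃ y : H.WL E, y.e = x.e ∧ y.γ = x.γ ∧
    (∀ k, H.χ x.γ - a ≤ k → y.w k = x.w k) ∧
      (u⁻¹ * x.w (H.χ x.γ - a) ∈ dc H.D H.t → y.w (H.χ x.γ - a - 1) = u) := by
  by_cases h : u⁻¹ * x.w (H.χ x.γ - a) ∈ dc H.D H.t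
  swap
  · exact ⟨x, rfl, rfl, fun _ _ => rfl, fun c => (h c).elim⟩
  have c := H.chi h
  refine ⟨⟨x.e, x.γ, fun k => if H.χ x.γ - a ≤ k then x.w k else u * H.t ^ (k - (H.χ x.γ - a - 1)),
    by simpa using x.bs, fun k => ?_, fun k => ?_⟩, rfl, rfl, fun k c => if_pos c,
    fun _ => by simp⟩
  · split_ifs with d e e
    · exact x.up k
    · omega
    · obtain rfl : k = H.χ x.γ - a - 1 := by omega
      simpa using h
    · convert self_mem_dc H.t using 1
      group
  · split_ifs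
    · exact x.lv k
    · simp [x.lv, H.ht] at c ⊢
      omega

variable [MulAction Γ E] {G : Type*} [Group G] {C : Type u} [Category.{v} C] [Preadditive C]
variable {S : GC G C} {θ : Nt C} {π : G →* Γ} {m : ℕ}

theorem fut (hz : ∃ Z : C, 𝟙 Z = 0) (hT : T ⊆ dc H.D H.t)
    (h : S.Nl θ π (R (H := H) (E := E) T a (b + 1)) m fun _ => True) :
    S.Nl θ π (R (H := H) (E := E) T a b) m fun _ => True := by
  choose φ f1 f2 f3 f4 using ex_fut (H := H) (E := E) (b := b)
  refine GC.Nl.fut hz R.smul (fun y => (y.w (H.χ y.γ + b) : Γ ⧸ H.D)) ?_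
    (fun y => φ y.1 y.2.out) (fun _ _ _ => trivial) ?_ h
  · intro x y y' z c d e f
    have k : H.χ y'.γ = H.χ y.γ := by rw [c.chi hT, d.chi hT]
    rw [k]
    refine QuotientGroup.eq.2 (show Ag y y' _ from ?_)
    obtain l | l := le_total m b
    · exact ((pth hT e).2 _ (by omega) le_rfl).trans ((pth hT f).2 _ (by omega) (by omega)).symm
    · obtain ⟨j, rfl⟩ := Nat.exists_eq_add_of_le' l
      obtain ⟨u, e1, e2⟩ := e.split
      obtain ⟨u', e3, e4⟩ := f.split
      have := same hT (i := b + 1) ⟨y, c, e1⟩ ⟨y', d, e3⟩ e2 e4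
      rw [(pth hT e1).1] at this
      exact (((pth hT e1).2 _ (by omega) le_rfl).trans this).trans
        ((pth hT e3).2 _ (by omega) (by omega)).symm
  · intro x q y c _ _ d
    have d1 := d.chi hT
    have d2 := QuotientGroup.eq.1 (Quotient.out_eq' ((q • y).w (H.χ (q • y).γ + b) : Γ ⧸ H.D))
    refine ⟨by simpa [f1] using d.1, by simpa [f2] using d.2.1, fun k e f => ?_⟩
    simp only [f2, smul_γ, Ch.mul] at d1 e f
    rw [Ag, smul_w q (φ _ _), f3 y _ _ (by omega), ← smul_w q y]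
    by_cases l : k ≤ H.χ x.γ + b
    · rw [f3 _ _ _ l]
      exact d.2.2 k e l
    · obtain rfl : k = H.χ x.γ + b + 1 := by omega
      rw [show H.χ (q • y).γ + b = H.χ x.γ + b + 1 by simp; omega] at d2 ⊢
      rw [f4]
      · exact d2
      · simpa [mul_assoc] using H.fr.right _ (inv_mem d2) _ (d.up hT (by omega) le_rfl)

theorem past (hz : ∃ Z : C, 𝟙 Z = 0) (hT : T ⊆ dc H.D H.t)
    (h : S.Nl θ π (R (H := H) (E := E) T (a + 1) b) m fun _ => True) :
    S.Nl θ π (R (H := H) (E := E) T a b) m fun _ => True := by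
  choose φ f1 f2 f3 f4 using ex_past (H := H) (E := E) (a := a)
  refine GC.Nl.past hz R.smul (fun y => (y.w (H.χ y.γ - a) : Γ ⧸ H.D)) ?_
    (fun y => φ y.1 y.2.out) (fun _ _ _ => trivial) ?_ h
  · intro x y y' z c d e f
    have k1 := (pth hT c).1
    have k : H.χ y'.γ = H.χ y.γ := by rw [k1, (pth hT d).1]
    rw [k]
    refine QuotientGroup.eq.2 (show Ag y y' _ from ?_)
    obtain l | l := le_total m a
    · exact ((pth hT c).2 _ (by omega) (by omega)).symm.trans ((pth hT d).2 _ (by omega) (by omega))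
    · obtain ⟨j, rfl⟩ := Nat.exists_eq_add_of_le l
      obtain ⟨u, e1, e2⟩ := c.split
      obtain ⟨u', e3, e4⟩ := d.split
      have := same hT e1 e3 (e2.trans (m := 1) ⟨z, e, rfl⟩) (e4.trans (m := 1) ⟨z, f, rfl⟩)
      have k2 := (pth hT e2).1
      have k3 := (pth hT e4).1
      rw [show H.χ u.γ = H.χ y.γ - a by omega] at this
      exact (((pth hT e2).2 _ (by omega) (by omega)).symm.trans this).trans
        ((pth hT e4).2 _ (by omega) (by omega))
  · intro x q y c _ _ d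
    have d1 := d.chi hT
    have d2 := QuotientGroup.eq.1 (Quotient.out_eq' ((q⁻¹ • x).w (H.χ (q⁻¹ • x).γ - a) : Γ ⧸ H.D))
    have d3 := (d.smul q⁻¹).up hT (k := H.χ (q⁻¹ • x).γ - a) le_rfl (by omega)
    refine ⟨by simpa [f1] using d.1, by simpa [f2] using d.2.1, fun k e f => ?_⟩
    simp only [f2, smul_γ, Ch.mul] at d1 e f
    rw [Ag, f3 x _ _ (by omega), smul_w]
    by_cases l : H.χ x.γ + 1 - a ≤ k
    · rw [f3 y _ _ (by omega)]
      exact d.2.2 k l f
    · rw [inv_smul_smul, show H.χ (q⁻¹ • x).γ - a + 1 = H.χ y.γ - a by simp; omega] at d3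
      rw [show k - H.χ q = H.χ y.γ - a - 1 by omega, f4]
      · generalize Quotient.out _ = u at d2 ⊢
        rw [smul_w, show H.χ (q⁻¹ • x).γ - a - H.χ q⁻¹ = k by simp; omega] at d2
        simpa [mul_assoc] using inv_mem d2
      · simpa [mul_assoc] using H.fr.left _ d2 _ d3

theorem win (hz : ∃ Z : C, 𝟙 Z = 0) (hT : T ⊆ dc H.D H.t)
    (h : S.Nl θ π (R (H := H) (E := E) T a b) m fun _ => True) :
    S.Nl θ π (R (H := H) (E := E) T 0 0) m fun _ => True := by
  induction a with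
  | succ a ih => exact ih (past hz hT h)
  | zero =>
    induction b with
    | succ b ih => exact ih (fut hz hT h)
    | zero => exact h

end Ht

end Pool.Agent.Lib.MP_5d3e93_al
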